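import Pool.Agent.T3h73.SD.Stm2
import Pool.Agent.T3h73.SL.D.Fin

/-!
# Project SD (helper73, MP_a43263). Part M: the model of the Selmer groups and the moments
-/

set_option autoImplicit false
set_option linter.all false

open NumberField IsDedekindDomain Filter Topology

namespace Pool.Agent.T3h73.SD

open Pool.Agent.T3h73.SL (Pl IsP Pk loc Good2 LC)
open Pool.Agent.Y713.SE (Pw)

/-- LAG: Lagrangian subspaces -/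
def S_LAG : Prop := ∀ (ℓ : ℕ) [Fact ℓ.Prime] (_ : ℓ ≠ 2) (V : Type) [AddCommGroup V]
  [Module (ZMod ℓ) V] [Finite V] (ψ : V →ₗ[ZMod ℓ] V →ₗ[ZMod ℓ] ZMod ℓ), (∀ x, ψ x x = 0) →
  (∀ x, (∀ y, ψ x y = 0) → x = 0) →
  (∀ I : Submodule (ZMod ℓ) V, (∀ x ∈ I, ∀ y ∈ I, ψ x y = 0) → ∃ L : Submodule (ZMod ℓ) V, I ≤ L ∧
    (∀ x ∈ L, ∀ y ∈ L, ψ x y = 0) ∧ Nat.card L ^ 2 = Nat.card V) ∧
  ∀ L : Submodule (ZMod ℓ) V, (∀ x ∈ L, ∀ y ∈ L, ψ x y = 0) → Nat.card L ^ 2 = Nat.card V →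
    ∃ L1 : Submodule (ZMod ℓ) V, IsCompl L L1 ∧ ∀ x ∈ L1, ∀ y ∈ L1, ψ x y = 0

/-- the linear algebra data: `V` with a nondegenerate alternating form, complementary Lagrangian
subspaces `L0`, `L1` (`π` the projection to `L0` along `L1`), a Lagrangian subspace `LL` and an element
`u + d1` of `LL`, `u ∈ L0`, `d1 ∈ L1` -/
structure Lin (ℓ : ℕ) (V : Type) [AddCommGroup V] [Module (ZMod ℓ) V]
    (ψ : V →ₗ[ZMod ℓ] V →ₗ[ZMod ℓ] ZMod ℓ) (L0 L1 LL : Submodule (ZMod ℓ) V)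
    (π : V →ₗ[ZMod ℓ] L0) (u : L0) (d1 : V) : Prop where
  alt : ∀ x, ψ x x = 0
  nd : ∀ x, (∀ y, ψ x y = 0) → x = 0
  compl : IsCompl L0 L1
  iso0 : ∀ x ∈ L0, ∀ y ∈ L0, ψ x y = 0
  iso1 : ∀ x ∈ L1, ∀ y ∈ L1, ψ x y = 0
  isoL : ∀ x ∈ LL, ∀ y ∈ LL, ψ x y = 0
  card : Nat.card LL = Nat.card L0
  proj : ∀ x : V, x - (π x : V) ∈ L1
  d1_mem : d1 ∈ L1
  d_mem : (u : V) + d1 ∈ LL

/-- the model: in addition elements `t q` of `L1` and symbols -/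
structure Model (ℓ : ℕ) (K : Type) [Field K] [NumberField K] (S : Finset (Pl K))
    (𝔪 : Ideal (𝓞 K)) (V : Type) [AddCommGroup V] [Module (ZMod ℓ) V]
    (ψ : V →ₗ[ZMod ℓ] V →ₗ[ZMod ℓ] ZMod ℓ) (L0 L1 LL : Submodule (ZMod ℓ) V)
    (π : V →ₗ[ZMod ℓ] L0) (u : L0) (d1 : V) (t : Pl K → V) (sy : Pl K → Pl K → ZMod ℓ) : Prop where
  lin : Lin ℓ V ψ L0 L1 LL π u d1
  t_mem : ∀ q, q ∉ S → t q ∈ L1
  sys : SymSys ℓ K S 𝔪 L0 (fun h q => ψ (h : V) (t q)) sy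

section
variable {ℓ : ℕ} {K : Type} [Field K] [NumberField K] {V : Type} [AddCommGroup V]
  [Module (ZMod ℓ) V] (ψ : V →ₗ[ZMod ℓ] V →ₗ[ZMod ℓ] ZMod ℓ) (L0 LL : Submodule (ZMod ℓ) V)
  (u : L0) (t : Pl K → V) (sy : Pl K → Pl K → ZMod ℓ)

/-- the Selmer group of the model for the finite set `P` -/
def MSel (P : Finset (Pl K)) : Set (V × (Pl K → ZMod ℓ)) :=
  open Classical in
  {x | x.1 ∈ L0 ∧ (∀ q, q ∉ P → x.2 q = 0) ∧ x.1 + ∑ q ∈ P, x.2 q • t q ∈ LL ∧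
    ∀ q ∈ P, - ψ x.1 (t q) + x.2 q * ψ (u : V) (t q) +
      ∑ p ∈ P.erase q, (x.2 p - x.2 q) * sy p q = 0}

/-- its order -/
noncomputable def nS (P : Finset (Pl K)) : ℕ := Nat.card (MSel ψ L0 LL u t sy P)

end

/-- the colours -/
abbrev Cl (ℓ k : ℕ) : Type := (Fin k → ZMod ℓ) × (Fin k → ZMod ℓ)

/-- the linking of the colours -/
def Rc (ℓ k : ℕ) (a b : Cl ℓ k) : ZMod ℓ := ∑ i, b.2 i * (a.1 i - b.1 i)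

/-- the characters of the colours -/
def hc {ℓ k : ℕ} {V : Type} [AddCommGroup V] [Module (ZMod ℓ) V] {L0 LL : Submodule (ZMod ℓ) V}
    (π : V →ₗ[ZMod ℓ] L0) (u : L0) (w : Fin k → L0) (α : L0) (z : Fin k → LL) (a : Cl ℓ k) : L0 :=
  α + ∑ i, a.1 i • π (z i : V) - ∑ i, a.2 i • w i + (∑ i, a.2 i * a.1 i) • u

/-- the sum over the sets `P` with `∑ t q = d1` of `NA ^ (-s) * F P` -/
noncomputable def SP {ℓ : ℕ} {K : Type} [Field K] [NumberField K] {V : Type} [AddCommGroup V]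
    (S : Finset (Pl K)) (t : Pl K → V) (d1 : V) (F : Finset (Pl K) → ℝ) (s : ℝ) : ℝ :=
  open Classical in
  ∑' P : Finset (Pl K), if Disjoint P S ∧ ∑ q ∈ P, t q = d1 then (NA P : ℝ) ^ (-s) * F P else 0

open Classical in
/-- EXP: the moments in terms of the coloured sums -/
def S_EXP : Prop := ∀ (ℓ : ℕ) [Fact ℓ.Prime] (K : Type) [Field K] [NumberField K]
  (S : Finset (Pl K)) (𝔪 : Ideal (𝓞 K)) (V : Type) [AddCommGroup V] [Module (ZMod ℓ) V] [Fintype V]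
  (ψ : V →ₗ[ZMod ℓ] V →ₗ[ZMod ℓ] ZMod ℓ) (L0 L1 LL : Submodule (ZMod ℓ) V)
  (π : V →ₗ[ZMod ℓ] L0) (u : L0) (d1 : V) (t : Pl K → V) (sy : Pl K → Pl K → ZMod ℓ),
  Model ℓ K S 𝔪 V ψ L0 L1 LL π u d1 t sy → ∀ (k : ℕ) (s : ℝ), 1 < s → s ≤ 2 →
  ((SP (ℓ := ℓ) S t d1 (fun P => (nS ψ L0 LL u t sy P : ℝ) ^ k) s : ℝ) : ℂ) =
    ((Nat.card L0 : ℂ) ^ (k + 1))⁻¹ * ∑ w : Fin k → L0, ∑ α : L0, ∑ z : Fin k → LL,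
      ee ℓ (- ψ (α : V) d1 + ∑ i, ψ (z i : V) (w i : V)) *
        Mh S (fun (h : L0) q => ψ (h : V) (t q)) sy (Rc ℓ k) (ℓ ^ k) (hc π u w α z) s

/-- UNL: unlinked sets of colours; the largest ones are the cosets of the maximal totally isotropic
subspaces -/
def S_UNL : Prop := ∀ (ℓ : ℕ) [Fact ℓ.Prime] (_ : ℓ ≠ 2) (k : ℕ) (U : Finset (Cl ℓ k)),
  (∀ a ∈ U, ∀ b ∈ U, Rc ℓ k a b + Rc ℓ k b a = 0) → U.card ≤ ℓ ^ k ∧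
  (U.card = ℓ ^ k → ∃ (x₀ : Cl ℓ k) (X : Submodule (ZMod ℓ) (Cl ℓ k)),
    (∀ x ∈ X, ∀ y ∈ X, ∑ i, (x.1 i * y.2 i + y.1 i * x.2 i) = 0) ∧
    (∀ x ∈ X, ∑ i, x.1 i * x.2 i = 0) ∧ Module.finrank (ZMod ℓ) X = k ∧
    ∀ a, a ∈ U ↔ a - x₀ ∈ X)

/-- CNTU: the number of the maximal unlinked sets of colours -/
def S_CNTU : Prop := ∀ (ℓ : ℕ) [Fact ℓ.Prime] (_ : ℓ ≠ 2) (k : ℕ),
  Nat.card {U : Finset (Cl ℓ k) // (∀ a ∈ U, ∀ b ∈ U, Rc ℓ k a b + Rc ℓ k b a = 0) ∧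
    U.card = ℓ ^ k} = ℓ ^ k * ∏ i ∈ Finset.range k, (1 + ℓ ^ i)

open Classical in
/-- MAINU: the contribution of a maximal unlinked set -/
def S_MAINU : Prop := ∀ (ℓ : ℕ) [Fact ℓ.Prime] (_ : ℓ ≠ 2) (V : Type) [AddCommGroup V]
  [Module (ZMod ℓ) V] [Fintype V] (ψ : V →ₗ[ZMod ℓ] V →ₗ[ZMod ℓ] ZMod ℓ)
  (L0 L1 LL : Submodule (ZMod ℓ) V) (π : V →ₗ[ZMod ℓ] L0) (u : L0) (d1 : V),
  Lin ℓ V ψ L0 L1 LL π u d1 → ∀ (k : ℕ) (U : Finset (Cl ℓ k)),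
  (∀ a ∈ U, ∀ b ∈ U, Rc ℓ k a b + Rc ℓ k b a = 0) → U.card = ℓ ^ k →
  ∑ w : Fin k → L0, ∑ α : L0, ∑ z : Fin k → LL,
    (if ∀ a ∈ U, hc π u w α z a = 0 then
      ee ℓ (- ψ (α : V) d1 + ∑ i, ψ (z i : V) (w i : V)) else 0) = (Nat.card L0 : ℂ) ^ k

/-- MOM: the moments -/
def S_MOM : Prop := ∀ (ℓ : ℕ) [Fact ℓ.Prime] (_ : ℓ ≠ 2) (K : Type) [Field K] [NumberField K]
  (S : Finset (Pl K)) (𝔪 : Ideal (𝓞 K)) (V : Type) [AddCommGroup V] [Module (ZMod ℓ) V] [Finite V]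
  (ψ : V →ₗ[ZMod ℓ] V →ₗ[ZMod ℓ] ZMod ℓ) (L0 L1 LL : Submodule (ZMod ℓ) V)
  (π : V →ₗ[ZMod ℓ] L0) (u : L0) (d1 : V) (t : Pl K → V) (sy : Pl K → Pl K → ZMod ℓ),
  Model ℓ K S 𝔪 V ψ L0 L1 LL π u d1 t sy → ∀ k : ℕ,
  Tendsto (fun s : ℝ => SP (ℓ := ℓ) S t d1 (fun P => (nS ψ L0 LL u t sy P : ℝ) ^ k) s / T0 S s)
    (𝓝[>] 1) (𝓝 ((Nat.card L0 : ℝ)⁻¹ * ((ℓ : ℝ) ^ k * ∏ i ∈ Finset.range k, (1 + (ℓ : ℝ) ^ i))))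

/-- the limiting proportion -/
noncomputable def kap (ℓ : ℕ) : ℝ := ∏' i : ℕ, (1 + ((ℓ : ℝ) ^ (i + 1))⁻¹)⁻¹

/-- EUL2: partial sums of Euler's series for `kap` -/
def S_KAP : Prop := ∀ ℓ : ℕ, 2 ≤ ℓ → 0 < kap ℓ ∧ 1 - 1 / ((ℓ : ℝ) - 1) ≤ kap ℓ ∧
  Tendsto (fun J : ℕ => ∑ j ∈ Finset.range (J + 1), (-1 : ℝ) ^ j * (ℓ : ℝ) ^ (j * (j - 1) / 2) /
    ∏ i ∈ Finset.range j, ((ℓ : ℝ) ^ (i + 1) - 1)) atTop (𝓝 (kap ℓ))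

open Classical in
/-- DIST: the proportion of the sets `P` with minimal Selmer group -/
def S_DIST : Prop := ∀ (ℓ : ℕ) [Fact ℓ.Prime] (_ : ℓ ≠ 2) (K : Type) [Field K] [NumberField K]
  (S : Finset (Pl K)) (𝔪 : Ideal (𝓞 K)) (V : Type) [AddCommGroup V] [Module (ZMod ℓ) V] [Finite V]
  (ψ : V →ₗ[ZMod ℓ] V →ₗ[ZMod ℓ] ZMod ℓ) (L0 L1 LL : Submodule (ZMod ℓ) V)
  (π : V →ₗ[ZMod ℓ] L0) (u : L0) (d1 : V) (t : Pl K → V) (sy : Pl K → Pl K → ZMod ℓ),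
  Model ℓ K S 𝔪 V ψ L0 L1 LL π u d1 t sy → ∀ ε : ℝ, 0 < ε → ∀ᶠ s : ℝ in 𝓝[>] 1,
  (kap ℓ - ε) * SP (ℓ := ℓ) S t d1 (fun P => 1) s ≤
    SP (ℓ := ℓ) S t d1 (fun P => if P.Nonempty ∧ nS ψ L0 LL u t sy P = ℓ then 1 else 0) s

/-- MDL: the model describes the Selmer groups of the twists -/
def S_MDL : Prop := ∀ (ℓ : ℕ) [Fact ℓ.Prime] (_ : ℓ ≠ 2) (K : Type) [Field K] [NumberField K]
  (ζ : K) (_ : IsPrimitiveRoot ζ ℓ), ∃ T₀ : Finset (Pl K), ∀ S : Finset (Pl K), T₀ ⊆ S →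
  ∀ η : Kˣ, ∃ (𝔪 : Ideal (𝓞 K)) (V : Type) (_ : AddCommGroup V) (_ : Module (ZMod ℓ) V)
  (_ : Finite V) (ψ : V →ₗ[ZMod ℓ] V →ₗ[ZMod ℓ] ZMod ℓ) (L0 L1 LL : Submodule (ZMod ℓ) V)
  (π : V →ₗ[ZMod ℓ] L0) (u : L0) (d1 : V) (t : Pl K → V) (sy : Pl K → Pl K → ZMod ℓ),
  Model ℓ K S 𝔪 V ψ L0 L1 LL π u d1 t sy ∧
  (∀ (δ : Kˣ) (P : Finset (Pl K)), (∀ v ∈ S, ∃ z, loc v δ = loc v η * z ^ ℓ) → Disjoint P S →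
    (∀ v ∈ P, Pw ℓ (v.valuation K (δ : K) * WithZero.exp (1 : ℤ))) →
    (∀ v, v ∉ S → v ∉ P → Pw ℓ (v.valuation K (δ : K))) →
    ∑ q ∈ P, t q = d1 ∧ (P.Nonempty → nS ψ L0 LL u t sy P = ℓ → Good2 ℓ K (δ : K))) ∧
  (∀ P : Finset (Pl K), Disjoint P S → ∑ q ∈ P, t q = d1 → ∃ δ : Kˣ,
    (∀ v ∈ S, ∃ z, loc v δ = loc v η * z ^ ℓ) ∧
    (∀ v ∈ P, v.valuation K (δ : K) = WithZero.exp (-1 : ℤ)) ∧
    ∀ v, v ∉ S → v ∉ P → v.valuation K (δ : K) = 1) ∧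
  ∀ x : Kˣ, (∀ v ∈ S, IsP ℓ (loc v x)) → (∀ v, v ∉ S → Pw ℓ (v.valuation K (x : K))) → IsP ℓ x

end Pool.Agent.T3h73.SD
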