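import Pool.Agent.T3h73.SD.Stm3

/-!
# Task DIST of project SD (board t73b_tasks of helper73), by helper64
-/

set_option autoImplicit false

open NumberField IsDedekindDomain Filter Topology Polynomial

namespace Pool.Agent.T3h73.SD.DIST

open Pool.Agent.T3h73.SL (Pl IsP Pk loc Good2 LC)

/-! ## The limiting functional on the polynomials -/

/-- the limiting moments -/
noncomputable def mm (ℓ : ℕ) (k : ℕ) : ℝ := ∏ i ∈ Finset.range k, (1 + (ℓ : ℝ) ^ i)

/-- the limiting functional -/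
noncomputable def Lf (ℓ : ℕ) : ℝ[X] →ₗ[ℝ] ℝ :=
  Polynomial.lsum fun k => (mm ℓ k) • (LinearMap.id : ℝ →ₗ[ℝ] ℝ)

lemma Lf_monomial (ℓ k : ℕ) (a : ℝ) : Lf ℓ (monomial k a) = mm ℓ k * a := by
  unfold Lf
  rw [Polynomial.lsum_apply, Polynomial.sum_monomial_index]
  · rfl
  · simp

lemma mm_succ (ℓ k : ℕ) : mm ℓ (k + 1) = mm ℓ k * (1 + (ℓ : ℝ) ^ k) := Finset.prod_range_succ _ _

lemma Lf_shift (ℓ : ℕ) (f : ℝ[X]) : Lf ℓ ((X - 1) * f) = Lf ℓ (f.comp (C (ℓ : ℝ) * X)) := by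
  induction f using Polynomial.induction_on' with
  | add p q hp hq => rw [mul_add, map_add, hp, hq, add_comp, map_add]
  | monomial k a =>
    rw [sub_mul, one_mul, X_mul_monomial, map_sub, Lf_monomial, Lf_monomial, monomial_comp, mul_pow,
      ← C_pow, ← mul_assoc, ← C_mul, C_mul_X_pow_eq_monomial, Lf_monomial, mm_succ]
    ring

/-- the products -/
noncomputable def PP (ℓ j : ℕ) : ℝ[X] := ∏ i ∈ Finset.range j, (X - C ((ℓ : ℝ) ^ i))

lemma PP_succ (ℓ j : ℕ) :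
    PP ℓ (j + 1) = (X - 1) * ∏ i ∈ Finset.range j, (X - C ((ℓ : ℝ) ^ (i + 1))) := by
  unfold PP
  rw [Finset.prod_range_succ', mul_comm, pow_zero, C_1]

lemma Lf_PP (ℓ j : ℕ) : Lf ℓ (PP ℓ j) = (ℓ : ℝ) ^ (j * (j - 1) / 2) := by
  induction j with
  | zero =>
    unfold PP
    rw [Finset.prod_range_zero]
    have h1 : (1 : ℝ[X]) = monomial 0 1 := rfl
    rw [h1, Lf_monomial]
    unfold mm
    simp
  | succ j ih =>
    rw [PP_succ, Lf_shift]
    have h1 : (∏ i ∈ Finset.range j, (X - C ((ℓ : ℝ) ^ (i + 1)))).comp (C (ℓ : ℝ) * X) =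
        ((ℓ : ℝ) ^ j) • PP ℓ j := by
      rw [Polynomial.prod_comp, ← C_mul', C_pow]
      unfold PP
      rw [← Finset.card_range j, ← Finset.prod_const, Finset.card_range, ← Finset.prod_mul_distrib]
      refine Finset.prod_congr rfl fun i _ => ?_
      rw [sub_comp, X_comp, C_comp, pow_succ', C_mul]
      ring
    rw [h1, map_smul, ih, Nat.triangle_succ, pow_add, smul_eq_mul]
    ring

/-- the polynomials which detect the minimal value -/
noncomputable def BB (ℓ J : ℕ) : ℝ[X] := ∑ j ∈ Finset.range (J + 1),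
  ((-1 : ℝ) ^ j / ∏ i ∈ Finset.range j, ((ℓ : ℝ) ^ (i + 1) - 1)) • PP ℓ j

lemma Lf_BB (ℓ J : ℕ) : Lf ℓ (BB ℓ J) = ∑ j ∈ Finset.range (J + 1),
    (-1 : ℝ) ^ j * (ℓ : ℝ) ^ (j * (j - 1) / 2) / ∏ i ∈ Finset.range j, ((ℓ : ℝ) ^ (i + 1) - 1) := by
  unfold BB
  rw [map_sum]
  refine Finset.sum_congr rfl fun j _ => ?_
  rw [map_smul, Lf_PP, smul_eq_mul]
  ring

lemma one_lt_pow' {ℓ : ℕ} (hℓ : 2 ≤ ℓ) (i : ℕ) : (1 : ℝ) < (ℓ : ℝ) ^ (i + 1) :=
  one_lt_pow₀ (by exact_mod_cast hℓ) (by omega)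

lemma PP_eval (ℓ j : ℕ) (x : ℝ) : (PP ℓ j).eval x = ∏ i ∈ Finset.range j, (x - (ℓ : ℝ) ^ i) := by
  unfold PP
  rw [eval_prod]
  refine Finset.prod_congr rfl fun i _ => ?_
  rw [eval_sub, eval_X, eval_C]

lemma BB_eval {ℓ : ℕ} (hℓ : 2 ≤ ℓ) (J : ℕ) (x : ℝ) : (BB ℓ J).eval x =
    ∏ i ∈ Finset.range J, ((ℓ : ℝ) ^ (i + 1) - x) / ((ℓ : ℝ) ^ (i + 1) - 1) := by
  induction J with
  | zero =>
    unfold BB PP
    simp
  | succ J ih =>
    have h1 : BB ℓ (J + 1) = BB ℓ J +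
        ((-1 : ℝ) ^ (J + 1) / ∏ i ∈ Finset.range (J + 1), ((ℓ : ℝ) ^ (i + 1) - 1)) •
          PP ℓ (J + 1) := by
      unfold BB
      rw [Finset.sum_range_succ]
    rw [h1, eval_add, ih, eval_smul, PP_eval, Finset.prod_range_succ' (fun i => x - (ℓ : ℝ) ^ i),
      Finset.prod_range_succ, Finset.prod_range_succ, Finset.prod_div_distrib, smul_eq_mul,
      pow_zero]
    have h2 : ∏ i ∈ Finset.range J, (x - (ℓ : ℝ) ^ (i + 1)) =
        (-1) ^ J * ∏ i ∈ Finset.range J, ((ℓ : ℝ) ^ (i + 1) - x) := by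
      rw [← Finset.card_range J, ← Finset.prod_const, Finset.card_range,
        ← Finset.prod_mul_distrib]
      exact Finset.prod_congr rfl fun i _ => by ring
    have h3 : (ℓ : ℝ) ^ (J + 1) - 1 ≠ 0 := (sub_pos.2 (one_lt_pow' hℓ J)).ne'
    have h4 : ∏ i ∈ Finset.range J, ((ℓ : ℝ) ^ (i + 1) - 1) ≠ 0 :=
      Finset.prod_ne_zero_iff.2 fun i _ => (sub_pos.2 (one_lt_pow' hℓ i)).ne'
    have h5 : ((-1 : ℝ) ^ J) * (-1) ^ J = 1 := by
      rw [← mul_pow]
      norm_num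
    rw [h2, pow_succ]
    field_simp
    linear_combination (-(x - 1)) * (∏ i ∈ Finset.range J, ((ℓ : ℝ) ^ (i + 1) - x)) * h5

lemma BB_le {ℓ : ℕ} (hℓ : 2 ≤ ℓ) {J : ℕ} (hJ : Odd J) (r : ℕ) :
    (BB ℓ J).eval ((ℓ : ℝ) ^ r) ≤ if r = 0 then 1 else 0 := by
  rw [BB_eval hℓ]
  by_cases hr : r = 0
  · rw [if_pos hr, hr, pow_zero]
    refine (Finset.prod_eq_one fun i _ => ?_).le
    exact div_self (sub_pos.2 (one_lt_pow' hℓ i)).ne'
  · rw [if_neg hr]
    by_cases hrJ : r ≤ J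
    · refine (Finset.prod_eq_zero (i := r - 1) (by rw [Finset.mem_range]; omega) ?_).le
      rw [show r - 1 + 1 = r by omega, sub_self, zero_div]
    · have h2 : ∏ i ∈ Finset.range J, ((ℓ : ℝ) ^ (i + 1) - (ℓ : ℝ) ^ r) / ((ℓ : ℝ) ^ (i + 1) - 1) =
          (-1) ^ J * ∏ i ∈ Finset.range J,
            ((ℓ : ℝ) ^ r - (ℓ : ℝ) ^ (i + 1)) / ((ℓ : ℝ) ^ (i + 1) - 1) := by
        rw [← Finset.card_range J, ← Finset.prod_const, Finset.card_range,
          ← Finset.prod_mul_distrib]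
        exact Finset.prod_congr rfl fun i _ => by ring
      rw [h2, hJ.neg_one_pow, neg_one_mul]
      refine neg_nonpos.2 (Finset.prod_nonneg fun i hi => ?_)
      rw [Finset.mem_range] at hi
      refine div_nonneg (sub_nonneg.2 ?_) (sub_nonneg.2 (one_lt_pow' hℓ i).le)
      exact pow_le_pow_right₀ (by exact_mod_cast (by omega : 1 ≤ ℓ)) (by omega)

/-! ## The order of the Selmer group of the model -/

section
variable {ℓ : ℕ} {K : Type} [Field K] [NumberField K] {V : Type} [AddCommGroup V]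
  [Module (ZMod ℓ) V] (ψ : V →ₗ[ZMod ℓ] V →ₗ[ZMod ℓ] ZMod ℓ) (L0 LL : Submodule (ZMod ℓ) V)
  (u : L0) (t : Pl K → V) (sy : Pl K → Pl K → ZMod ℓ)

/-- the Selmer group as a submodule -/
def MSub (P : Finset (Pl K)) : Submodule (ZMod ℓ) (V × (Pl K → ZMod ℓ)) where
  carrier := MSel ψ L0 LL u t sy P
  add_mem' := by
    classical
    rintro x y ⟨hx1, hx2, hx3, hx4⟩ ⟨hy1, hy2, hy3, hy4⟩
    refine ⟨L0.add_mem hx1 hy1, fun q hq => ?_, ?_, fun q hq => ?_⟩
    · change x.2 q + y.2 q = 0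
      rw [hx2 q hq, hy2 q hq, add_zero]
    · have h1 := LL.add_mem hx3 hy3
      rw [add_add_add_comm, ← Finset.sum_add_distrib] at h1
      have h2 : (x + y).1 + ∑ q ∈ P, (x + y).2 q • t q =
          x.1 + y.1 + ∑ q ∈ P, (x.2 q • t q + y.2 q • t q) := by
        refine congrArg₂ (· + ·) rfl (Finset.sum_congr rfl fun q _ => ?_)
        change (x.2 q + y.2 q) • t q = _
        rw [add_smul]
      rw [h2]
      exact h1
    · have h1 := congrArg₂ (· + ·) (hx4 q hq) (hy4 q hq)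
      simp only [add_zero] at h1
      rw [← h1, add_add_add_comm, ← Finset.sum_add_distrib]
      congr 1
      · change - ψ (x.1 + y.1) (t q) + (x.2 q + y.2 q) * _ = _
        rw [map_add, LinearMap.add_apply]
        ring
      · refine Finset.sum_congr rfl fun p _ => ?_
        change ((x.2 p + y.2 p) - (x.2 q + y.2 q)) * _ = _
        ring
  zero_mem' := by
    refine ⟨L0.zero_mem, fun q _ => rfl, ?_, fun q _ => ?_⟩
    · have h1 : (0 : V × (Pl K → ZMod ℓ)).1 + ∑ q ∈ P, (0 : V × (Pl K → ZMod ℓ)).2 q • t q = 0 := by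
        simp
      rw [h1]
      exact LL.zero_mem
    · simp
  smul_mem' := by
    classical
    rintro c x ⟨hx1, hx2, hx3, hx4⟩
    refine ⟨L0.smul_mem c hx1, fun q hq => ?_, ?_, fun q hq => ?_⟩
    · change c * x.2 q = 0
      rw [hx2 q hq, mul_zero]
    · have h1 := LL.smul_mem c hx3
      rw [smul_add, Finset.smul_sum] at h1
      have h2 : (c • x).1 + ∑ q ∈ P, (c • x).2 q • t q =
          c • x.1 + ∑ q ∈ P, c • x.2 q • t q := by
        refine congrArg₂ (· + ·) rfl (Finset.sum_congr rfl fun q _ => ?_)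
        change (c * x.2 q) • t q = _
        rw [mul_smul]
      rw [h2]
      exact h1
    · have h1 := congrArg (fun z => c * z) (hx4 q hq)
      simp only [mul_zero, mul_add, Finset.mul_sum] at h1
      rw [← h1]
      congr 1
      · change - ψ (c • x.1) (t q) + (c * x.2 q) * _ = _
        rw [map_smul, LinearMap.smul_apply, smul_eq_mul]
        ring
      · refine Finset.sum_congr rfl fun p _ => ?_
        change (c * x.2 p - c * x.2 q) * _ = _
        ring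

lemma nS_eq (P : Finset (Pl K)) : nS ψ L0 LL u t sy P = Nat.card (MSub ψ L0 LL u t sy P) := rfl

variable [Fact ℓ.Prime] [Finite V]

omit [Fact ℓ.Prime] [Finite V] in
/-- restriction of the second component to `P` is injective -/
lemma res_inj (P : Finset (Pl K)) : Function.Injective
    (fun (x : MSub ψ L0 LL u t sy P) => (((x : V × (Pl K → ZMod ℓ)).1,
      fun q : P => (x : V × (Pl K → ZMod ℓ)).2 q) : V × (P → ZMod ℓ))) := by
  rintro ⟨x, hx⟩ ⟨y, hy⟩ h
  simp only [Prod.mk.injEq] at h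
  apply Subtype.ext
  refine Prod.ext h.1 (funext fun q => ?_)
  by_cases hq : q ∈ P
  · exact congrFun h.2 ⟨q, hq⟩
  · exact (hx.2.1 q hq).trans (hy.2.1 q hq).symm

lemma fin_MSub (P : Finset (Pl K)) : Finite (MSub ψ L0 LL u t sy P) :=
  haveI : NeZero ℓ := ⟨(Fact.out : ℓ.Prime).ne_zero⟩
  Finite.of_injective _ (res_inj ψ L0 LL u t sy P)

lemma nS_le (P : Finset (Pl K)) : nS ψ L0 LL u t sy P ≤ Nat.card V * ℓ ^ P.card := by
  haveI : NeZero ℓ := ⟨(Fact.out : ℓ.Prime).ne_zero⟩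
  have h1 : Nat.card (V × (P → ZMod ℓ)) = Nat.card V * ℓ ^ P.card := by
    rw [Nat.card_prod, Nat.card_fun, Nat.card_zmod, Nat.card_eq_fintype_card (α := P),
      Fintype.card_coe]
  rw [← h1, nS_eq]
  exact Nat.card_le_card_of_injective _ (res_inj ψ L0 LL u t sy P)

lemma nS_pow {L1 : Submodule (ZMod ℓ) V} {π : V →ₗ[ZMod ℓ] L0} {d1 : V}
    (hL : Lin ℓ V ψ L0 L1 LL π u d1) (P : Finset (Pl K)) (hP : P.Nonempty)
    (hd : ∑ q ∈ P, t q = d1) : ∃ r : ℕ, nS ψ L0 LL u t sy P = ℓ ^ (r + 1) := by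
  classical
  haveI : NeZero ℓ := ⟨(Fact.out : ℓ.Prime).ne_zero⟩
  haveI := fin_MSub ψ L0 LL u t sy P
  have hmem : (((u : V), fun q => if q ∈ P then 1 else 0) : V × (Pl K → ZMod ℓ)) ∈
      MSub ψ L0 LL u t sy P := by
    refine ⟨u.2, fun q hq => if_neg hq, ?_, fun q hq => ?_⟩
    · have h1 : ∑ q ∈ P, (if q ∈ P then (1 : ZMod ℓ) else 0) • t q = d1 := by
        rw [← hd]
        refine Finset.sum_congr rfl fun q hq => ?_
        rw [if_pos hq, one_smul]
      change (u : V) + ∑ q ∈ P, (if q ∈ P then (1 : ZMod ℓ) else 0) • t q ∈ LL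
      rw [h1]
      exact hL.d_mem
    · have h1 : ∀ p ∈ P, ((if p ∈ P then (1 : ZMod ℓ) else 0) - (if q ∈ P then 1 else 0)) *
          sy p q = 0 := fun p hp => by
        rw [if_pos hp, if_pos hq, sub_self, zero_mul]
      change - ψ (u : V) (t q) + (if q ∈ P then (1 : ZMod ℓ) else 0) * ψ (u : V) (t q) + _ = 0
      rw [if_pos hq, one_mul, neg_add_cancel, zero_add]
      exact Finset.sum_eq_zero fun p hp => h1 p (Finset.mem_of_mem_erase hp)
  have hne : Nontrivial (MSub ψ L0 LL u t sy P) := by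
    refine ⟨⟨_, hmem⟩, 0, fun h => ?_⟩
    obtain ⟨q, hq⟩ := hP
    have h1 := congrFun (congrArg (fun x : MSub ψ L0 LL u t sy P =>
      (x : V × (Pl K → ZMod ℓ)).2) h) q
    simp only [if_pos hq] at h1
    exact one_ne_zero h1
  have h1 : Nat.card (MSub ψ L0 LL u t sy P) = ℓ ^ Module.finrank (ZMod ℓ) (MSub ψ L0 LL u t sy P) := by
    rw [Module.natCard_eq_pow_finrank (K := ZMod ℓ), Nat.card_zmod]
  have h2 : 0 < Module.finrank (ZMod ℓ) (MSub ψ L0 LL u t sy P) := Module.finrank_pos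
  exact ⟨Module.finrank (ZMod ℓ) (MSub ψ L0 LL u t sy P) - 1, by
    rw [nS_eq, h1, Nat.sub_add_cancel h2]⟩

end

lemma summable_ite' {ι : Type} {p : ι → Prop} [DecidablePred p] {g : ι → ℝ} (h : Summable g) :
    Summable fun i => if p i then g i else 0 := by
  refine Summable.of_norm_bounded h.norm fun i => ?_
  by_cases hi : p i
  · rw [if_pos hi]
  · rw [if_neg hi, norm_zero]
    exact norm_nonneg _

open Classical in
theorem t_DIST (hMOM : S_MOM) (hKAP : S_KAP) (hT0L : S_T0L) (hMASS : S_MASS) : S_DIST := by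
  intro ℓ _ hℓ2 K _ _ S 𝔪 V _ _ _ ψ L0 L1 LL π u d1 t sy hM ε hε
  have hℓ : ℓ.Prime := Fact.out
  have hℓR : (0 : ℝ) < ℓ := by exact_mod_cast hℓ.pos
  set n : Finset (Pl K) → ℕ := nS ψ L0 LL u t sy with hn
  have hmom := hMOM ℓ hℓ2 K S 𝔪 V ψ L0 L1 LL π u d1 t sy hM
  -- summability
  have hsum : ∀ (k : ℕ) (s : ℝ), 1 < s → s ≤ 2 →
      Summable (fun P : Finset (Pl K) => (NA P : ℝ) ^ (-s) * (n P : ℝ) ^ k) := by
    intro k s hs1 hs2
    obtain ⟨C, hC, h1, -⟩ := hMASS K (ℓ ^ k) 0 (Nat.one_le_pow _ _ hℓ.pos) le_rfl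
    have h2 := ((h1 s hs1 hs2).1).mul_left ((Nat.card V : ℝ) ^ k)
    refine Summable.of_nonneg_of_le (fun P => by positivity) (fun P => ?_) h2
    have h3 : (n P : ℝ) ≤ Nat.card V * (ℓ : ℝ) ^ P.card := by
      exact_mod_cast nS_le ψ L0 LL u t sy P
    have h4 : (n P : ℝ) ^ k ≤ (Nat.card V : ℝ) ^ k * ((ℓ ^ k : ℕ) : ℝ) ^ P.card := by
      refine (pow_le_pow_left₀ (by positivity) h3 k).trans (le_of_eq ?_)
      push_cast
      rw [mul_pow, ← pow_mul, ← pow_mul, mul_comm k]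
    calc (NA P : ℝ) ^ (-s) * (n P : ℝ) ^ k
        ≤ (NA P : ℝ) ^ (-s) * ((Nat.card V : ℝ) ^ k * ((ℓ ^ k : ℕ) : ℝ) ^ P.card) :=
          mul_le_mul_of_nonneg_left h4 (by positivity)
      _ = (Nat.card V : ℝ) ^ k * (((ℓ ^ k : ℕ) : ℝ) ^ P.card * (NA P : ℝ) ^ (-s) *
            gA P ^ (0 : ℝ)) := by
          rw [Real.rpow_zero]
          ring
  have hsumf : ∀ (f : ℝ[X]) (s : ℝ), 1 < s → s ≤ 2 →
      Summable (fun P : Finset (Pl K) => (NA P : ℝ) ^ (-s) * f.eval ((n P : ℝ) / ℓ)) := by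
    intro f s hs1 hs2
    induction f using Polynomial.induction_on' with
    | add p q hp hq =>
      refine (hp.add hq).congr fun P => ?_
      rw [eval_add]
      ring
    | monomial k a =>
      refine ((hsum k s hs1 hs2).mul_left (a / (ℓ : ℝ) ^ k)).congr fun P => ?_
      rw [eval_monomial, div_pow]
      ring
  have hev : ∀ᶠ s : ℝ in 𝓝[>] 1, 1 < s ∧ s ≤ 2 := by
    have h1 : Set.Ioc (1 : ℝ) 2 ∈ 𝓝[>] (1 : ℝ) := Ioc_mem_nhdsGT (by norm_num)
    exact Filter.mem_of_superset h1 fun s hs => hs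
  -- the limits
  have hlim : ∀ f : ℝ[X], Tendsto (fun s =>
      SP (ℓ := ℓ) S t d1 (fun P => f.eval ((n P : ℝ) / ℓ)) s / T0 S s) (𝓝[>] 1)
      (𝓝 ((Nat.card L0 : ℝ)⁻¹ * Lf ℓ f)) := by
    intro f
    induction f using Polynomial.induction_on' with
    | add p q hp hq =>
      rw [map_add, mul_add]
      refine (hp.add hq).congr' ?_
      filter_upwards [hev] with s hs
      rw [← add_div]
      congr 1
      unfold SP
      rw [← (summable_ite' (hsumf p s hs.1 hs.2)).tsum_add (summable_ite' (hsumf q s hs.1 hs.2))]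
      refine tsum_congr fun P => ?_
      by_cases hP : Disjoint P S ∧ ∑ q ∈ P, t q = d1
      · rw [if_pos hP, if_pos hP, if_pos hP]
        change _ = (NA P : ℝ) ^ (-s) * eval ((n P : ℝ) / ℓ) (p + q)
        rw [eval_add]
        ring
      · rw [if_neg hP, if_neg hP, if_neg hP, add_zero]
    | monomial k a =>
      rw [Lf_monomial]
      have h1 := (hmom k).const_mul (a / (ℓ : ℝ) ^ k)
      have h2 : a / (ℓ : ℝ) ^ k * ((Nat.card L0 : ℝ)⁻¹ *
          ((ℓ : ℝ) ^ k * ∏ i ∈ Finset.range k, (1 + (ℓ : ℝ) ^ i))) =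
          (Nat.card L0 : ℝ)⁻¹ * (mm ℓ k * a) := by
        unfold mm
        field_simp
      rw [h2] at h1
      refine h1.congr fun s => ?_
      rw [← mul_div_assoc]
      congr 1
      unfold SP
      rw [← tsum_mul_left]
      refine tsum_congr fun P => ?_
      by_cases hP : Disjoint P S ∧ ∑ q ∈ P, t q = d1
      · rw [if_pos hP, if_pos hP]
        change a / (ℓ : ℝ) ^ k * ((NA P : ℝ) ^ (-s) * (n P : ℝ) ^ k) =
          (NA P : ℝ) ^ (-s) * eval ((n P : ℝ) / ℓ) (monomial k a)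
        rw [eval_monomial, div_pow]
        ring
      · rw [if_neg hP, if_neg hP, mul_zero]
  have hlim1 : Tendsto (fun s => SP (ℓ := ℓ) S t d1 (fun _ => 1) s / T0 S s) (𝓝[>] 1)
      (𝓝 ((Nat.card L0 : ℝ)⁻¹)) := by
    have h1 := hmom 0
    simp only [pow_zero, Finset.range_zero, Finset.prod_empty, mul_one] at h1
    exact h1
  -- `T0` tends to infinity
  obtain ⟨c, s₀, hc, hs₀, hT⟩ := hT0L K S
  have hevT : ∀ᶠ s : ℝ in 𝓝[>] 1, c / (s - 1) ≤ T0 S s ∧ 0 < c / (s - 1) := by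
    have h1 : Set.Ioo (1 : ℝ) s₀ ∈ 𝓝[>] (1 : ℝ) := Ioo_mem_nhdsGT hs₀
    exact Filter.mem_of_superset h1 fun s hs => ⟨(hT s hs.1 hs.2).2,
      div_pos hc (sub_pos.2 hs.1)⟩
  have hTinf : Tendsto (fun s : ℝ => T0 S s) (𝓝[>] 1) atTop := by
    have h1 : Tendsto (fun s : ℝ => c / (s - 1)) (𝓝[>] 1) atTop := by
      have h2 : Tendsto (fun s : ℝ => s - 1) (𝓝[>] 1) (𝓝[>] 0) := by
        refine tendsto_nhdsWithin_iff.2 ⟨?_, ?_⟩
        · have h3 : Tendsto (fun s : ℝ => s - 1) (𝓝 1) (𝓝 (1 - 1)) :=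
            (continuous_id.sub continuous_const).tendsto 1
          rw [sub_self] at h3
          exact h3.mono_left nhdsWithin_le_nhds
        · filter_upwards [self_mem_nhdsWithin] with s hs
          exact sub_pos.2 (Set.mem_Ioi.1 hs)
      have h3 := (tendsto_inv_nhdsGT_zero.comp h2).const_mul_atTop hc
      refine h3.congr fun s => ?_
      rw [Function.comp, div_eq_mul_inv]
    exact tendsto_atTop_mono' _ (hevT.mono fun s hs => hs.1) h1
  -- the choice of `J`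
  obtain ⟨-, -, hK⟩ := hKAP ℓ hℓ.two_le
  have hJ : ∃ J, Odd J ∧ kap ℓ - ε / 2 < Lf ℓ (BB ℓ J) := by
    have h1 := hK.eventually (lt_mem_nhds (show kap ℓ - ε / 2 < kap ℓ by linarith))
    obtain ⟨N, hN⟩ := Filter.eventually_atTop.1 h1
    refine ⟨2 * N + 1, ⟨N, rfl⟩, ?_⟩
    rw [Lf_BB]
    exact hN (2 * N + 1) (by omega)
  obtain ⟨J, hJo, hJk⟩ := hJ
  set c0 : ℝ := |(BB ℓ J).eval ((n ∅ : ℝ) / ℓ)| with hc0
  -- the lower bound
  have hlow : ∀ s : ℝ, 1 < s → s ≤ 2 →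
      SP (ℓ := ℓ) S t d1 (fun P => (BB ℓ J).eval ((n P : ℝ) / ℓ)) s - c0 ≤
      SP (ℓ := ℓ) S t d1 (fun P => if P.Nonempty ∧ n P = ℓ then 1 else 0) s := by
    intro s hs1 hs2
    rw [sub_le_iff_le_add]
    have hs3 : Summable (fun P : Finset (Pl K) => if P = ∅ then c0 else 0) :=
      summable_of_ne_finset_zero (s := {∅}) fun P hP => by
        rw [Finset.mem_singleton] at hP
        rw [if_neg hP]
    have hs4 : Summable (fun P : Finset (Pl K) => if Disjoint P S ∧ ∑ q ∈ P, t q = d1 then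
        (NA P : ℝ) ^ (-s) * (if P.Nonempty ∧ n P = ℓ then (1 : ℝ) else 0) else 0) := by
      refine summable_ite' ?_
      refine Summable.of_nonneg_of_le (fun P => ?_) (fun P => ?_) (hsum 0 s hs1 hs2)
      · positivity
      · rw [pow_zero]
        refine mul_le_mul_of_nonneg_left ?_ (by positivity)
        split_ifs <;> norm_num
    have h5 : (∑' P : Finset (Pl K), if P = ∅ then c0 else 0) = c0 := tsum_ite_eq _ _
    rw [← h5]
    unfold SP
    rw [← hs4.tsum_add hs3]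
    refine (summable_ite' (hsumf (BB ℓ J) s hs1 hs2)).tsum_le_tsum (fun P => ?_) (hs4.add hs3)
    by_cases hP : Disjoint P S ∧ ∑ q ∈ P, t q = d1
    · rw [if_pos hP, if_pos hP]
      by_cases hP0 : P = ∅
      · subst hP0
        rw [if_pos rfl, if_neg (by simp), mul_zero, zero_add]
        have h6 : ((NA (∅ : Finset (Pl K)) : ℕ) : ℝ) ^ (-s) = 1 := by
          unfold NA
          simp
        rw [h6, one_mul]
        exact le_abs_self _
      · have hPn : P.Nonempty := Finset.nonempty_iff_ne_empty.2 hP0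
        rw [if_neg hP0, add_zero]
        refine mul_le_mul_of_nonneg_left ?_ (by positivity)
        obtain ⟨r, hr⟩ := nS_pow ψ L0 LL u t sy hM.lin P hPn hP.2
        have hr' : n P = ℓ ^ (r + 1) := hr
        have h6 : (n P : ℝ) / ℓ = (ℓ : ℝ) ^ r := by
          rw [hr']
          push_cast
          rw [pow_succ]
          field_simp
        change eval ((n P : ℝ) / ℓ) (BB ℓ J) ≤ _
        rw [h6]
        refine (BB_le hℓ.two_le hJo r).trans (le_of_eq ?_)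
        by_cases hr0 : r = 0
        · rw [if_pos hr0, if_pos]
          refine ⟨hPn, ?_⟩
          rw [hr', hr0, zero_add, pow_one]
        · rw [if_neg hr0, if_neg]
          rintro ⟨-, h7⟩
          rw [hr'] at h7
          have h8 : ℓ ^ (r + 1) = ℓ ^ 1 := by rw [h7, pow_one]
          have h9 := Nat.pow_right_injective hℓ.two_le h8
          omega
    · rw [if_neg hP, if_neg hP, zero_add]
      split_ifs
      · exact abs_nonneg _
      · exact le_rfl
  -- the limit of the difference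
  have hfin : Tendsto (fun s => (SP (ℓ := ℓ) S t d1 (fun P => (BB ℓ J).eval ((n P : ℝ) / ℓ)) s /
      T0 S s - c0 / T0 S s) - (kap ℓ - ε) * (SP (ℓ := ℓ) S t d1 (fun _ => 1) s / T0 S s)) (𝓝[>] 1)
      (𝓝 (((Nat.card L0 : ℝ)⁻¹ * Lf ℓ (BB ℓ J) - 0) - (kap ℓ - ε) * (Nat.card L0 : ℝ)⁻¹)) :=
    ((hlim _).sub (tendsto_const_nhds.div_atTop hTinf)).sub (hlim1.const_mul _)
  have hpos : 0 < ((Nat.card L0 : ℝ)⁻¹ * Lf ℓ (BB ℓ J) - 0) -
      (kap ℓ - ε) * (Nat.card L0 : ℝ)⁻¹ := by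
    have h1 : (0 : ℝ) < (Nat.card L0 : ℝ)⁻¹ := by
      have : 0 < Nat.card L0 := Nat.card_pos
      positivity
    have h2 : ((Nat.card L0 : ℝ)⁻¹ * Lf ℓ (BB ℓ J) - 0) - (kap ℓ - ε) * (Nat.card L0 : ℝ)⁻¹ =
        (Nat.card L0 : ℝ)⁻¹ * (Lf ℓ (BB ℓ J) - (kap ℓ - ε)) := by ring
    rw [h2]
    exact mul_pos h1 (by linarith)
  filter_upwards [hfin.eventually (lt_mem_nhds hpos), hev, hevT] with s h1 h2 h3
  have hT0 : 0 < T0 S s := h3.2.trans_le h3.1
  have h4 := hlow s h2.1 h2.2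
  have h5 : (SP (ℓ := ℓ) S t d1 (fun P => (BB ℓ J).eval ((n P : ℝ) / ℓ)) s /
      T0 S s - c0 / T0 S s) - (kap ℓ - ε) * (SP (ℓ := ℓ) S t d1 (fun _ => 1) s / T0 S s) =
      ((SP (ℓ := ℓ) S t d1 (fun P => (BB ℓ J).eval ((n P : ℝ) / ℓ)) s - c0) -
        (kap ℓ - ε) * SP (ℓ := ℓ) S t d1 (fun _ => 1) s) / T0 S s := by
    ring
  rw [h5] at h1
  have h6 := (div_pos_iff_of_pos_right hT0).1 h1
  linarith

end Pool.Agent.T3h73.SD.DIST
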