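import Pool.Agent.T3h73.SD.Stm3

/-!
Project SD (helper73, MP_a43263), task EXP (helper86): expansion of the moments of the order of the
Selmer group of the model in additive characters.
-/

set_option autoImplicit false
set_option linter.all false

open NumberField IsDedekindDomain Filter Topology

namespace Pool.Agent.T3h73.SD.EXP

open Pool.Agent.T3h73.SL (Pl)

lemma ee_eq (ℓ : ℕ) [NeZero ℓ] (a : ZMod ℓ) : ee ℓ a = ZMod.stdAddChar a := by
  rw [ee, ZMod.stdAddChar_apply, ZMod.toCircle_apply]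

variable {ℓ : ℕ} [Fact ℓ.Prime]

lemma ee_add (a b : ZMod ℓ) : ee ℓ (a + b) = ee ℓ a * ee ℓ b := by
  rw [ee_eq, ee_eq, ee_eq, AddChar.map_add_eq_mul]

lemma ee_zero : ee ℓ 0 = 1 := by
  rw [ee_eq, AddChar.map_zero_eq_one]

lemma ee_sum {ι : Type} (s : Finset ι) (f : ι → ZMod ℓ) :
    ee ℓ (∑ i ∈ s, f i) = ∏ i ∈ s, ee ℓ (f i) := by
  classical
  induction s using Finset.induction_on with
  | empty => simp [ee_zero]
  | insert a s ha ih => rw [Finset.sum_insert ha, Finset.prod_insert ha, ee_add, ih]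

open Classical in
lemma sum_char {G : Type} [AddCommGroup G] [Fintype G] (φ : G →+ ZMod ℓ) :
    ∑ g, ee ℓ (φ g) = if ∀ g, φ g = 0 then (Fintype.card G : ℂ) else 0 := by
  have h := AddChar.sum_eq_ite ((ZMod.stdAddChar (N := ℓ)).compAddMonoidHom φ)
  have h2 : ((ZMod.stdAddChar (N := ℓ)).compAddMonoidHom φ = 0) ↔ ∀ g, φ g = 0 := by
    constructor
    · intro h3 g
      have h4 := DFunLike.congr_fun h3 g
      simp only [AddChar.compAddMonoidHom_apply, AddChar.zero_apply] at h4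
      have h5 : (ZMod.stdAddChar (N := ℓ)) (φ g) = (ZMod.stdAddChar (N := ℓ)) 0 := by
        rw [h4, AddChar.map_zero_eq_one]
      exact ZMod.injective_stdAddChar h5
    · intro h3
      ext g
      simp [h3 g]
  simp only [AddChar.compAddMonoidHom_apply] at h
  simp only [ee_eq]
  rw [h]
  by_cases h3 : ∀ g, φ g = 0
  · rw [if_pos (h2.2 h3), if_pos h3]
  · rw [if_neg (fun h4 => h3 (h2.1 h4)), if_neg h3]

lemma sum_char_pos {G : Type} [AddCommGroup G] [Fintype G] (φ : G →+ ZMod ℓ)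
    (h : ∀ g, φ g = 0) : ∑ g, ee ℓ (φ g) = (Fintype.card G : ℂ) := by
  classical
  rw [sum_char, if_pos h]

lemma sum_char_neg {G : Type} [AddCommGroup G] [Fintype G] (φ : G →+ ZMod ℓ)
    (h : ¬ ∀ g, φ g = 0) : ∑ g, ee ℓ (φ g) = 0 := by
  classical
  rw [sum_char, if_neg h]

open Classical in
lemma sum_kap {ι : Type} [Fintype ι] [DecidableEq ι] (X : ι → ZMod ℓ) :
    ∑ κ : ι → ZMod ℓ, ee ℓ (∑ q, κ q * X q) =
      if ∀ q, X q = 0 then (ℓ : ℂ) ^ Fintype.card ι else 0 := by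
  have h := sum_char (ℓ := ℓ) (G := ι → ZMod ℓ)
    { toFun := fun κ => ∑ q, κ q * X q
      map_zero' := by simp
      map_add' := fun a b => by simp [add_mul, Finset.sum_add_distrib] }
  simp only [AddMonoidHom.coe_mk, ZeroHom.coe_mk] at h
  rw [h]
  have h2 : (∀ g : ι → ZMod ℓ, ∑ q, g q * X q = 0) ↔ ∀ q, X q = 0 := by
    constructor
    · intro h3 q
      have := h3 (Pi.single q 1)
      simpa [Pi.single_apply] using this
    · intro h3 g
      simp [h3]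
  by_cases h3 : ∀ q, X q = 0
  · rw [if_pos (h2.2 h3), if_pos h3]
    simp [Fintype.card_pi, ZMod.card]
  · rw [if_neg (fun h4 => h3 (h2.1 h4)), if_neg h3]

section lin
variable {V : Type} [AddCommGroup V] [Module (ZMod ℓ) V] [Fintype V]
  (ψ : V →ₗ[ZMod ℓ] V →ₗ[ZMod ℓ] ZMod ℓ)

/-- a maximal isotropic subspace is its own orthogonal -/
lemma self_dual (alt : ∀ x, ψ x x = 0) (nd : ∀ x, (∀ y, ψ x y = 0) → x = 0)
    (L0 L1 LL : Submodule (ZMod ℓ) V) (hc : IsCompl L0 L1)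
    (iso0 : ∀ x ∈ L0, ∀ y ∈ L0, ψ x y = 0) (iso1 : ∀ x ∈ L1, ∀ y ∈ L1, ψ x y = 0)
    (isoL : ∀ x ∈ LL, ∀ y ∈ LL, ψ x y = 0) (card : Nat.card LL = Nat.card L0)
    (y : V) (hy : ∀ z ∈ LL, ψ z y = 0) : y ∈ LL := by
  classical
  have hasym : ∀ x y, ψ x y = - ψ y x := by
    intro x y
    have h := alt (x + y)
    simp only [map_add, LinearMap.add_apply, alt, zero_add, add_zero] at h
    linear_combination h
  let B : LinearMap.BilinForm (ZMod ℓ) V := ψ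
  have hrefl : B.IsRefl := by
    intro x y h
    have : ψ x y = 0 := h
    show ψ y x = 0
    rw [hasym, this, neg_zero]
  have hnd : B.Nondegenerate := by
    refine ⟨fun x hx => nd x hx, fun x hx => nd x (fun y => ?_)⟩
    rw [hasym]
    have : ψ y x = 0 := hx y
    rw [this, neg_zero]
  have hfin : ∀ W : Submodule (ZMod ℓ) V, Module.finrank (ZMod ℓ) W +
      Module.finrank (ZMod ℓ) (B.orthogonal W) = Module.finrank (ZMod ℓ) V := by
    intro W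
    have h1 := LinearMap.BilinForm.finrank_orthogonal hnd W
    have h2 := Submodule.finrank_le W
    omega
  have hle : ∀ W : Submodule (ZMod ℓ) V, (∀ x ∈ W, ∀ y ∈ W, ψ x y = 0) → W ≤ B.orthogonal W := by
    intro W hW x hx
    rw [LinearMap.BilinForm.mem_orthogonal_iff]
    intro n hn
    exact hW n hn x hx
  have hd0 := Submodule.finrank_mono (hle L0 iso0)
  have hd1 := Submodule.finrank_mono (hle L1 iso1)
  have hs := Submodule.finrank_add_eq_of_isCompl hc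
  have h0 := hfin L0
  have h1 := hfin L1
  have hcardeq : ∀ W : Submodule (ZMod ℓ) V, Nat.card W = ℓ ^ Module.finrank (ZMod ℓ) W := by
    intro W
    rw [Module.natCard_eq_pow_finrank (K := ZMod ℓ), Nat.card_zmod]
  have hLL : Module.finrank (ZMod ℓ) LL = Module.finrank (ZMod ℓ) L0 := by
    rw [hcardeq, hcardeq] at card
    exact Nat.pow_right_injective (Fact.out : ℓ.Prime).two_le card
  have h2 := hfin LL
  have heq : LL = B.orthogonal LL :=
    Submodule.eq_of_le_of_finrank_eq (hle LL isoL) (by omega)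
  rw [heq, LinearMap.BilinForm.mem_orthogonal_iff]
  intro n hn
  exact hy n hn


open Classical in
lemma sum_L0 (nd : ∀ x, (∀ y, ψ x y = 0) → x = 0) (alt : ∀ x, ψ x x = 0)
    (L0 L1 : Submodule (ZMod ℓ) V) (hc : IsCompl L0 L1)
    (iso1 : ∀ x ∈ L1, ∀ y ∈ L1, ψ x y = 0) (y : V) (hy : y ∈ L1) :
    ∑ α : L0, ee ℓ (ψ (α : V) y) = if y = 0 then (Nat.card L0 : ℂ) else 0 := by
  have h2 : (∀ g : L0, ψ (g : V) y = 0) ↔ y = 0 := by
    constructor
    · intro h3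
      apply nd
      intro v
      have hasym : ψ y v = - ψ v y := by
        have h := alt (v + y)
        simp only [map_add, LinearMap.add_apply, alt, zero_add, add_zero] at h
        linear_combination h
      have hv : v ∈ L0 ⊔ L1 := by rw [hc.sup_eq_top]; trivial
      obtain ⟨a, ha, b, hb, hab⟩ := Submodule.mem_sup.1 hv
      rw [hasym, ← hab, map_add, LinearMap.add_apply, h3 ⟨a, ha⟩, iso1 b hb y hy, add_zero,
        neg_zero]
    · intro h3 g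
      rw [h3, map_zero]
  by_cases h3 : y = 0
  · rw [if_pos h3, Nat.card_eq_fintype_card]
    exact sum_char_pos (ℓ := ℓ) (G := L0) ((ψ.flip y).comp L0.subtype).toAddMonoidHom (h2.2 h3)
  · rw [if_neg h3]
    exact sum_char_neg (ℓ := ℓ) (G := L0) ((ψ.flip y).comp L0.subtype).toAddMonoidHom
      (fun h4 => h3 (h2.1 h4))

open Classical in
lemma sum_LL (LL : Submodule (ZMod ℓ) V) (isoL : ∀ x ∈ LL, ∀ y ∈ LL, ψ x y = 0)
    (hsd : ∀ y : V, (∀ z ∈ LL, ψ z y = 0) → y ∈ LL) (y : V) :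
    ∑ z : LL, ee ℓ (ψ (z : V) y) = if y ∈ LL then (Nat.card LL : ℂ) else 0 := by
  have h2 : (∀ g : LL, ψ (g : V) y = 0) ↔ y ∈ LL :=
    ⟨fun h3 => hsd y (fun z hz => h3 ⟨z, hz⟩), fun h3 g => isoL g g.2 y h3⟩
  by_cases h3 : y ∈ LL
  · rw [if_pos h3, Nat.card_eq_fintype_card]
    exact sum_char_pos (ℓ := ℓ) (G := LL) ((ψ.flip y).comp LL.subtype).toAddMonoidHom (h2.2 h3)
  · rw [if_neg h3]
    exact sum_char_neg (ℓ := ℓ) (G := LL) ((ψ.flip y).comp LL.subtype).toAddMonoidHom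
      (fun h4 => h3 (h2.1 h4))

/-- the condition at `q` -/
def XX {ι : Type} [Fintype ι] [DecidableEq ι] (u : V) (t : ι → V) (sy : ι → ι → ZMod ℓ) (w : V)
    (c : ι → ZMod ℓ) (q : ι) : ZMod ℓ :=
  - ψ w (t q) + c q * ψ u (t q) + ∑ p, if p = q then 0 else (c p - c q) * sy p q

/-- the phase of one factor -/
noncomputable def FF {ι : Type} [Fintype ι] [DecidableEq ι] (u : V) (t : ι → V)
    (sy : ι → ι → ZMod ℓ) (w z : V) (c κ : ι → ZMod ℓ) : ℂ :=
  ee ℓ (ψ z (w + ∑ q, c q • t q) + ∑ q, κ q * XX ψ u t sy w c q)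

open Classical in
lemma sum_FF {ι : Type} [Fintype ι] [DecidableEq ι] (u : V) (t : ι → V) (sy : ι → ι → ZMod ℓ)
    (L0 LL : Submodule (ZMod ℓ) V) (isoL : ∀ x ∈ LL, ∀ y ∈ LL, ψ x y = 0)
    (hsd : ∀ y : V, (∀ z ∈ LL, ψ z y = 0) → y ∈ LL) :
    ∑ a : L0 × LL × (ι → ZMod ℓ) × (ι → ZMod ℓ),
      FF ψ u t sy (a.1 : V) (a.2.1 : V) a.2.2.1 a.2.2.2 =
    (Nat.card LL : ℂ) * (ℓ : ℂ) ^ Fintype.card ι * (Nat.card {x : L0 × (ι → ZMod ℓ) //
      (x.1 : V) + ∑ q, x.2 q • t q ∈ LL ∧ ∀ q, XX ψ u t sy x.1 x.2 q = 0} : ℂ) := by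
  have h1 : ∑ a : L0 × LL × (ι → ZMod ℓ) × (ι → ZMod ℓ),
      FF ψ u t sy (a.1 : V) (a.2.1 : V) a.2.2.1 a.2.2.2 =
      ∑ w : L0, ∑ c : ι → ZMod ℓ, ((∑ z : LL, ee ℓ (ψ (z : V) ((w : V) + ∑ q, c q • t q))) *
        ∑ κ : ι → ZMod ℓ, ee ℓ (∑ q, κ q * XX ψ u t sy w c q)) := by
    rw [Fintype.sum_prod_type]
    refine Finset.sum_congr rfl (fun w _ => ?_)
    rw [Fintype.sum_prod_type]
    simp_rw [Fintype.sum_prod_type]
    rw [Finset.sum_comm]
    refine Finset.sum_congr rfl (fun c _ => ?_)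
    rw [Finset.sum_mul_sum]
    refine Finset.sum_congr rfl (fun z _ => Finset.sum_congr rfl (fun κ _ => ?_))
    rw [FF, ee_add]
  rw [h1]
  simp_rw [sum_LL ψ LL isoL hsd, sum_kap]
  rw [Nat.card_eq_fintype_card (α := {x : L0 × (ι → ZMod ℓ) //
      (x.1 : V) + ∑ q, x.2 q • t q ∈ LL ∧ ∀ q, XX ψ u t sy x.1 x.2 q = 0}), Fintype.card_subtype,
    Finset.card_filter, Nat.cast_sum, Finset.mul_sum, Fintype.sum_prod_type]
  refine Finset.sum_congr rfl (fun w _ => Finset.sum_congr rfl (fun c _ => ?_))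
  by_cases h2 : (w : V) + ∑ q, c q • t q ∈ LL
  · by_cases h3 : ∀ q, XX ψ u t sy w c q = 0
    · simp [h2, h3]
    · simp [h2, h3]
  · simp [h2]

open Classical in
lemma expo {ι : Type} [Fintype ι] [DecidableEq ι] (L0 L1 LL : Submodule (ZMod ℓ) V) (π : V →ₗ[ZMod ℓ] L0)
    (iso1 : ∀ x ∈ L1, ∀ y ∈ L1, ψ x y = 0) (proj : ∀ x : V, x - (π x : V) ∈ L1)
    (u : L0) (d1 : V) (t : ι → V) (ht : ∀ q, t q ∈ L1) (sy : ι → ι → ZMod ℓ) {k : ℕ}
    (w : Fin k → L0) (α : L0) (z : Fin k → LL) (c κ : ι → Fin k → ZMod ℓ) :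
    (- ψ (α : V) d1 + ∑ i, ψ (z i : V) (w i : V)) + (∑ q : ι, ψ ((α + ∑ i, c q i • π (z i : V) -
      ∑ i, κ q i • w i + (∑ i, κ q i * c q i) • u : L0) : V) (t q) +
        ∑ p : ι, ∑ q : ι, if p = q then 0 else (∑ i, κ q i * (c p i - c q i)) * sy p q) =
    ψ (α : V) ((∑ q, t q) - d1) + ∑ i, (ψ (z i : V) ((w i : V) + ∑ q, c q i • t q) +
      ∑ q, κ q i * XX ψ (u : V) t sy (w i : V) (fun q => c q i) q) := by
  have h1 : ∀ (i : Fin k) q, ψ (π (z i : V) : V) (t q) = ψ (z i : V) (t q) := by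
    intro i q
    have := iso1 _ (proj (z i : V)) (t q) (ht q)
    rw [map_sub, LinearMap.sub_apply, sub_eq_zero] at this
    exact this.symm
  have h2 : ∀ q, ψ ((α + ∑ i, c q i • π (z i : V) -
      ∑ i, κ q i • w i + (∑ i, κ q i * c q i) • u : L0) : V) (t q) =
      ψ (α : V) (t q) + ∑ i, c q i * ψ (z i : V) (t q) - ∑ i, κ q i * ψ (w i : V) (t q) +
        ∑ i, κ q i * c q i * ψ (u : V) (t q) := by
    intro q
    push_cast
    simp only [map_add, map_sub, map_sum, map_smul, LinearMap.add_apply, LinearMap.sub_apply,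
      LinearMap.sum_apply, LinearMap.smul_apply, smul_eq_mul, h1, Finset.sum_mul]
  have h3 : (∑ p : ι, ∑ q : ι, if p = q then 0 else (∑ i, κ q i * (c p i - c q i)) * sy p q) =
      ∑ i, ∑ q, κ q i * ∑ p, if p = q then 0 else (c p i - c q i) * sy p q := by
    rw [Finset.sum_comm]
    rw [Finset.sum_comm (s := (Finset.univ : Finset (Fin k)))]
    refine Finset.sum_congr rfl (fun q _ => ?_)
    simp_rw [Finset.mul_sum]
    rw [Finset.sum_comm]
    refine Finset.sum_congr rfl (fun p _ => ?_)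
    split_ifs with hpq
    · simp
    · rw [Finset.sum_mul]
      exact Finset.sum_congr rfl (fun i _ => by ring)
  rw [h3]
  simp_rw [h2, XX, mul_add]
  simp only [map_add, map_sub, map_sum, map_smul, smul_eq_mul, Finset.sum_add_distrib,
    Finset.sum_sub_distrib]
  rw [Finset.sum_comm (f := fun q i => c q i * ψ (z i : V) (t q)),
    Finset.sum_comm (f := fun q i => κ q i * ψ (w i : V) (t q)),
    Finset.sum_comm (f := fun q i => κ q i * c q i * ψ (u : V) (t q))]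
  simp only [mul_neg, Finset.sum_neg_distrib, mul_assoc]
  ring


open Classical in
/-- the whole sum for one set -/
lemma whole {ι : Type} [Fintype ι] [DecidableEq ι] (L0 L1 LL : Submodule (ZMod ℓ) V) (π : V →ₗ[ZMod ℓ] L0)
    (alt : ∀ x, ψ x x = 0) (nd : ∀ x, (∀ y, ψ x y = 0) → x = 0) (hc : IsCompl L0 L1)
    (iso0 : ∀ x ∈ L0, ∀ y ∈ L0, ψ x y = 0)
    (iso1 : ∀ x ∈ L1, ∀ y ∈ L1, ψ x y = 0) (isoL : ∀ x ∈ LL, ∀ y ∈ LL, ψ x y = 0)
    (card : Nat.card LL = Nat.card L0) (proj : ∀ x : V, x - (π x : V) ∈ L1)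
    (u : L0) (d1 : V) (hd1 : d1 ∈ L1) (t : ι → V) (ht : ∀ q, t q ∈ L1) (sy : ι → ι → ZMod ℓ)
    (k : ℕ) :
    ∑ w : Fin k → L0, ∑ α : L0, ∑ z : Fin k → LL,
      ee ℓ (- ψ (α : V) d1 + ∑ i, ψ (z i : V) (w i : V)) *
        ∑ col : ι → (Fin k → ZMod ℓ) × (Fin k → ZMod ℓ),
          ee ℓ (∑ q : ι, ψ ((α + ∑ i, (col q).1 i • π (z i : V) -
      ∑ i, (col q).2 i • w i + (∑ i, (col q).2 i * (col q).1 i) • u : L0) : V) (t q) +
        ∑ p : ι, ∑ q : ι, if p = q then 0 else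
          (∑ i, (col q).2 i * ((col p).1 i - (col q).1 i)) * sy p q) =
    (if ∑ q, t q = d1 then (Nat.card L0 : ℂ) ^ (k + 1) * ((ℓ : ℂ) ^ k) ^ Fintype.card ι *
      (Nat.card {x : L0 × (ι → ZMod ℓ) //
      (x.1 : V) + ∑ q, x.2 q • t q ∈ LL ∧ ∀ q, XX ψ u t sy x.1 x.2 q = 0} : ℂ) ^ k else 0) := by
  have hsd := self_dual ψ alt nd L0 L1 LL hc iso0 iso1 isoL card
  have h1 : ∑ w : Fin k → L0, ∑ α : L0, ∑ z : Fin k → LL,
      ee ℓ (- ψ (α : V) d1 + ∑ i, ψ (z i : V) (w i : V)) *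
        ∑ col : ι → (Fin k → ZMod ℓ) × (Fin k → ZMod ℓ),
          ee ℓ (∑ q : ι, ψ ((α + ∑ i, (col q).1 i • π (z i : V) -
      ∑ i, (col q).2 i • w i + (∑ i, (col q).2 i * (col q).1 i) • u : L0) : V) (t q) +
        ∑ p : ι, ∑ q : ι, if p = q then 0 else
          (∑ i, (col q).2 i * ((col p).1 i - (col q).1 i)) * sy p q) =
      ∑ w : Fin k → L0, ∑ α : L0, ∑ z : Fin k → LL,
        ∑ col : ι → (Fin k → ZMod ℓ) × (Fin k → ZMod ℓ), ee ℓ (ψ (α : V) ((∑ q, t q) - d1)) *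
          ∏ i, FF ψ u t sy (w i : V) (z i : V) (fun q => (col q).1 i) (fun q => (col q).2 i) := by
    refine Finset.sum_congr rfl (fun w _ => Finset.sum_congr rfl (fun α _ =>
      Finset.sum_congr rfl (fun z _ => ?_)))
    rw [Finset.mul_sum]
    refine Finset.sum_congr rfl (fun col _ => ?_)
    rw [← ee_add, expo ψ L0 L1 LL π iso1 proj u d1 t ht sy w α z (fun q => (col q).1)
      (fun q => (col q).2), ee_add, ee_sum]
    rfl
  rw [h1, Finset.sum_comm]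
  have h2 : ∀ α : L0, ∑ w : Fin k → L0, ∑ z : Fin k → LL,
        ∑ col : ι → (Fin k → ZMod ℓ) × (Fin k → ZMod ℓ), ee ℓ (ψ (α : V) ((∑ q, t q) - d1)) *
          ∏ i, FF ψ u t sy (w i : V) (z i : V) (fun q => (col q).1 i) (fun q => (col q).2 i) =
      ee ℓ (ψ (α : V) ((∑ q, t q) - d1)) * (∑ a : L0 × LL × (ι → ZMod ℓ) × (ι → ZMod ℓ),
      FF ψ u t sy (a.1 : V) (a.2.1 : V) a.2.2.1 a.2.2.2) ^ k := by
    intro α
    simp_rw [← Finset.mul_sum]
    congr 1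
    rw [Fintype.sum_pow]
    symm
    rw [← Fintype.sum_prod_type', ← Fintype.sum_prod_type']
    let E : (Fin k → L0 × LL × (ι → ZMod ℓ) × (ι → ZMod ℓ)) ≃
        ((Fin k → L0) × (Fin k → LL)) × (ι → (Fin k → ZMod ℓ) × (Fin k → ZMod ℓ)) :=
      { toFun := fun p => ((fun i => (p i).1, fun i => (p i).2.1),
          fun q => (fun i => (p i).2.2.1 q, fun i => (p i).2.2.2 q))
        invFun := fun x i => (x.1.1 i, x.1.2 i, fun q => (x.2 q).1 i, fun q => (x.2 q).2 i)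
        left_inv := fun p => rfl
        right_inv := fun x => rfl }
    exact Fintype.sum_equiv E _ _ (fun p => rfl)
  simp_rw [h2]
  rw [← Finset.sum_mul, sum_FF ψ u t sy L0 LL isoL hsd, sum_L0 ψ nd alt L0 L1 hc iso1 _
    (Submodule.sub_mem _ (Submodule.sum_mem _ (fun q _ => ht q)) hd1), card]
  by_cases h3 : ∑ q, t q = d1
  · rw [if_pos h3, if_pos (sub_eq_zero.2 h3)]
    ring
  · rw [if_neg h3, if_neg (fun h4 => h3 (sub_eq_zero.1 h4)), zero_mul]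


open Classical in
/-- the Selmer group of the model, on the finite type `P` -/
lemma card_sel {T : Type} (L0 LL : Submodule (ZMod ℓ) V) (u : V) (t : T → V)
    (sy : T → T → ZMod ℓ) (P : Finset T) :
    Nat.card ({x | x.1 ∈ L0 ∧ (∀ q, q ∉ P → x.2 q = 0) ∧ x.1 + ∑ q ∈ P, x.2 q • t q ∈ LL ∧
      ∀ q ∈ P, - ψ x.1 (t q) + x.2 q * ψ u (t q) +
      ∑ p ∈ P.erase q, (x.2 p - x.2 q) * sy p q = 0} : Set (V × (T → ZMod ℓ))) =
    Nat.card {x : L0 × (P → ZMod ℓ) // (x.1 : V) + ∑ q : P, x.2 q • t q ∈ LL ∧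
      ∀ q : P, XX ψ u (fun q : P => t q) (fun p q : P => sy p q) x.1 x.2 q = 0} := by
  have hXX : ∀ (w : V) (c : T → ZMod ℓ) (q : P),
      XX ψ u (fun q : P => t q) (fun p q : P => sy p q) w (fun q => c q) q =
      - ψ w (t q) + c q * ψ u (t q) + ∑ p ∈ P.erase q, (c p - c q) * sy p q := by
    intro w c q
    unfold XX
    congr 1
    have h1 : ∑ p : P, (if p = q then 0 else (c p - c q) * sy p q) =
        ∑ p ∈ P, (if p = (q : T) then 0 else (c p - c q) * sy p q) := by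
      rw [← Finset.sum_coe_sort P (fun p => if p = (q : T) then 0 else (c p - c q) * sy p q)]
      refine Finset.sum_congr rfl (fun p _ => ?_)
      simp only [Subtype.ext_iff]
    rw [h1, ← Finset.sum_erase_add P _ q.2, if_pos rfl, add_zero]
    refine Finset.sum_congr rfl (fun p hp => ?_)
    rw [if_neg (Finset.ne_of_mem_erase hp)]
  have hsum : ∀ c : T → ZMod ℓ, ∑ q : P, c q • t q = ∑ q ∈ P, c q • t q := fun c =>
    Finset.sum_coe_sort P (fun q => c q • t q)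
  refine Nat.card_eq_of_bijective (fun x => ⟨(⟨x.1.1, x.2.1⟩, fun q => x.1.2 q), ?_, ?_⟩) ⟨?_, ?_⟩
  · have := x.2.2.2.1
    rw [← hsum] at this
    exact this
  · intro q
    rw [hXX x.1.1 x.1.2 q]
    exact x.2.2.2.2 q q.2
  · intro x y hxy
    simp only [Subtype.mk.injEq, Prod.mk.injEq] at hxy
    refine Subtype.ext (Prod.ext hxy.1 (funext fun q => ?_))
    by_cases hq : q ∈ P
    · exact congrFun hxy.2 ⟨q, hq⟩
    · rw [x.2.2.1 q hq, y.2.2.1 q hq]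
  · rintro ⟨⟨w, c⟩, h1, h2⟩
    let c' : T → ZMod ℓ := fun q => if h : q ∈ P then c ⟨q, h⟩ else 0
    have hc' : (fun q : P => c' q) = c := by
      funext q
      simp [c']
    have hc'' : ∀ q : P, c' q = c q := fun q => congrFun hc' q
    refine ⟨⟨((w : V), c'), w.2, fun q hq => by simp [c', hq], ?_, ?_⟩, ?_⟩
    · rw [← hsum]
      simp only [hc'']
      exact h1
    · intro q hq
      have h3 : XX ψ u (fun q : P => t q) (fun p q : P => sy p q) (w : V)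
          (fun q : P => c' q) ⟨q, hq⟩ = 0 := by
        rw [hc']
        exact h2 ⟨q, hq⟩
      rw [hXX (w : V) c' ⟨q, hq⟩] at h3
      exact h3
    · refine Subtype.ext (Prod.ext rfl ?_)
      exact hc'

end lin



open Classical in
/-- the term of one set `P` -/
lemma term_one (ℓ : ℕ) [Fact ℓ.Prime] (K : Type) [Field K] [NumberField K]
    (S : Finset (Pl K)) (𝔪 : Ideal (𝓞 K)) (V : Type) [AddCommGroup V] [Module (ZMod ℓ) V] [Fintype V]
    (ψ : V →ₗ[ZMod ℓ] V →ₗ[ZMod ℓ] ZMod ℓ) (L0 L1 LL : Submodule (ZMod ℓ) V)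
    (π : V →ₗ[ZMod ℓ] L0) (u : L0) (d1 : V) (t : Pl K → V) (sy : Pl K → Pl K → ZMod ℓ)
    (hM : Model ℓ K S 𝔪 V ψ L0 L1 LL π u d1 t sy) (k : ℕ) (s : ℝ) (P : Finset (Pl K))
    (hP : Disjoint P S) :
    (((if ∑ q ∈ P, t q = d1 then (NA P : ℝ) ^ (-s) * (nS ψ L0 LL u t sy P : ℝ) ^ k else 0 : ℝ)) : ℂ) *
      (Nat.card L0 : ℂ) ^ (k + 1) =
    ∑ w : Fin k → L0, ∑ α : L0, ∑ z : Fin k → LL,
      ee ℓ (- ψ (α : V) d1 + ∑ i, ψ (z i : V) (w i : V)) *
        ((((((ℓ ^ k : ℕ) : ℝ) ^ P.card)⁻¹ * (NA P : ℝ) ^ (-s) : ℝ) : ℂ) * ∑ col : P → Cl ℓ k,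
      ee ℓ (∑ q : P, ψ ((hc π u w α z (col q) : L0) : V) (t q) +
        ∑ p : P, ∑ q : P, if p = q then 0 else Rc ℓ k (col p) (col q) * sy p q)) := by
  have hl : (ℓ : ℂ) ≠ 0 := by exact_mod_cast (Fact.out : ℓ.Prime).ne_zero
  have ht : ∀ q : P, t q ∈ L1 := fun q => hM.t_mem q (Finset.disjoint_left.1 hP q.2)
  have h1 := whole ψ (ι := P) L0 L1 LL π hM.lin.alt hM.lin.nd hM.lin.compl hM.lin.iso0 hM.lin.iso1
    hM.lin.isoL hM.lin.card hM.lin.proj u d1 hM.lin.d1_mem (fun q : P => t q) ht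
    (fun p q : P => sy p q) k
  have h2 : ∑ w : Fin k → L0, ∑ α : L0, ∑ z : Fin k → LL,
      ee ℓ (- ψ (α : V) d1 + ∑ i, ψ (z i : V) (w i : V)) *
        ((((((ℓ ^ k : ℕ) : ℝ) ^ P.card)⁻¹ * (NA P : ℝ) ^ (-s) : ℝ) : ℂ) * ∑ col : P → Cl ℓ k,
      ee ℓ (∑ q : P, ψ ((hc π u w α z (col q) : L0) : V) (t q) +
        ∑ p : P, ∑ q : P, if p = q then 0 else Rc ℓ k (col p) (col q) * sy p q)) =
      (((((ℓ ^ k : ℕ) : ℝ) ^ P.card)⁻¹ * (NA P : ℝ) ^ (-s) : ℝ) : ℂ) *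
      ∑ w : Fin k → L0, ∑ α : L0, ∑ z : Fin k → LL,
      ee ℓ (- ψ (α : V) d1 + ∑ i, ψ (z i : V) (w i : V)) * ∑ col : P → Cl ℓ k,
      ee ℓ (∑ q : P, ψ ((hc π u w α z (col q) : L0) : V) (t q) +
        ∑ p : P, ∑ q : P, if p = q then 0 else Rc ℓ k (col p) (col q) * sy p q) := by
    simp_rw [Finset.mul_sum]
    refine Finset.sum_congr rfl (fun w _ => Finset.sum_congr rfl (fun α _ =>
      Finset.sum_congr rfl (fun z _ => Finset.sum_congr rfl (fun col _ => ?_))))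
    ring
  rw [h2]
  have h3 : ∑ w : Fin k → L0, ∑ α : L0, ∑ z : Fin k → LL,
      ee ℓ (- ψ (α : V) d1 + ∑ i, ψ (z i : V) (w i : V)) * ∑ col : P → Cl ℓ k,
      ee ℓ (∑ q : P, ψ ((hc π u w α z (col q) : L0) : V) (t q) +
        ∑ p : P, ∑ q : P, if p = q then 0 else Rc ℓ k (col p) (col q) * sy p q) =
      (if ∑ q : P, t q = d1 then (Nat.card L0 : ℂ) ^ (k + 1) * ((ℓ : ℂ) ^ k) ^ Fintype.card P *
      (Nat.card {x : L0 × (P → ZMod ℓ) //
      (x.1 : V) + ∑ q : P, x.2 q • t q ∈ LL ∧ ∀ q : P, XX ψ u (fun q : P => t q)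
        (fun p q : P => sy p q) x.1 x.2 q = 0} : ℂ) ^ k else 0) := h1
  rw [h3]
  have h4 : nS ψ L0 LL u t sy P = Nat.card {x : L0 × (P → ZMod ℓ) //
      (x.1 : V) + ∑ q : P, x.2 q • t q ∈ LL ∧ ∀ q : P, XX ψ u (fun q : P => t q)
        (fun p q : P => sy p q) x.1 x.2 q = 0} := card_sel ψ L0 LL u t sy P
  rw [← h4, Finset.sum_coe_sort P t]
  by_cases h5 : ∑ q ∈ P, t q = d1
  · rw [if_pos h5, if_pos h5]
    push_cast
    rw [Fintype.card_coe]
    have h6 : ((ℓ : ℂ) ^ k) ^ P.card ≠ 0 := pow_ne_zero _ (pow_ne_zero _ hl)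
    field_simp
  · rw [if_neg h5, if_neg h5]
    simp

lemma norm_ee (ℓ : ℕ) [Fact ℓ.Prime] (a : ZMod ℓ) : ‖ee ℓ a‖ = 1 := by
  rw [ee_eq, ZMod.stdAddChar_apply]
  exact Circle.norm_coe _

open Classical in
lemma summable_term (hMASS : S_MASS) (ℓ : ℕ) [Fact ℓ.Prime] (K : Type) [Field K] [NumberField K]
    (S : Finset (Pl K)) {Λ : Type} (χ : Λ → Pl K → ZMod ℓ) (sy : Pl K → Pl K → ZMod ℓ) (k : ℕ)
    (R : Cl ℓ k → Cl ℓ k → ZMod ℓ) (h : Cl ℓ k → Λ) (s : ℝ) (hs : 1 < s) (hs2 : s ≤ 2) :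
    Summable (fun P : Finset (Pl K) => if Disjoint P S then
      (((((ℓ ^ k : ℕ) : ℝ) ^ P.card)⁻¹ * (NA P : ℝ) ^ (-s) : ℝ) : ℂ) * ∑ col : P → Cl ℓ k,
      ee ℓ (∑ q : P, χ (h (col q)) q +
        ∑ p : P, ∑ q : P, if p = q then 0 else R (col p) (col q) * sy p q) else 0) := by
  have hl : 1 ≤ ℓ ^ k := Nat.one_le_pow _ _ (Fact.out : ℓ.Prime).pos
  obtain ⟨C, hC, hC1, -⟩ := hMASS K (ℓ ^ k) 0 hl le_rfl
  have h1 := (hC1 s hs hs2).1
  refine Summable.of_norm_bounded h1 (fun P => ?_)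
  have hl0 : (0 : ℝ) < ((ℓ ^ k : ℕ) : ℝ) := by exact_mod_cast hl
  have hNA : 0 ≤ (NA P : ℝ) ^ (-s) := Real.rpow_nonneg (Nat.cast_nonneg _) _
  rw [Real.rpow_zero, mul_one]
  split_ifs with hP
  · rw [norm_mul, Complex.norm_real, Real.norm_eq_abs, abs_of_nonneg (by positivity)]
    have h2 : ‖∑ col : P → Cl ℓ k, ee ℓ (∑ q : P, χ (h (col q)) q +
        ∑ p : P, ∑ q : P, if p = q then 0 else R (col p) (col q) * sy p q)‖ ≤
        (((ℓ ^ k : ℕ) : ℝ) ^ P.card) * (((ℓ ^ k : ℕ) : ℝ) ^ P.card) := by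
      refine (norm_sum_le _ _).trans ?_
      simp_rw [norm_ee]
      rw [Finset.sum_const, Finset.card_univ, nsmul_eq_mul, mul_one, Fintype.card_pi]
      simp only [Cl, Fintype.card_prod, Fintype.card_pi, ZMod.card, Finset.prod_const,
        Finset.card_univ, Fintype.card_fin, Fintype.card_coe]
      push_cast
      rw [← mul_pow, ← mul_pow, ← mul_pow]
    calc _ ≤ (((ℓ ^ k : ℕ) : ℝ) ^ P.card)⁻¹ * (NA P : ℝ) ^ (-s) *
          ((((ℓ ^ k : ℕ) : ℝ) ^ P.card) * (((ℓ ^ k : ℕ) : ℝ) ^ P.card)) :=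
        mul_le_mul_of_nonneg_left h2 (by positivity)
      _ = _ := by field_simp
  · rw [norm_zero]
    positivity

open Classical in
theorem t_EXP (hMASS : S_MASS) : S_EXP := by
  intro ℓ _ K _ _ S 𝔪 V _ _ _ ψ L0 L1 LL π u d1 t sy hM k s hs hs2
  have hcard : (Nat.card L0 : ℂ) ≠ 0 := by
    have : 0 < Nat.card L0 := Nat.card_pos
    exact_mod_cast this.ne'
  rw [SP, Complex.ofReal_tsum]
  have h1 : ∀ (w : Fin k → L0) (α : L0) (z : Fin k → LL),
      ee ℓ (- ψ (α : V) d1 + ∑ i, ψ (z i : V) (w i : V)) *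
        Mh S (fun (h : L0) q => ψ (h : V) (t q)) sy (Rc ℓ k) (ℓ ^ k) (hc π u w α z) s =
      ∑' P : Finset (Pl K), ee ℓ (- ψ (α : V) d1 + ∑ i, ψ (z i : V) (w i : V)) *
        (if Disjoint P S then
      (((((ℓ ^ k : ℕ) : ℝ) ^ P.card)⁻¹ * (NA P : ℝ) ^ (-s) : ℝ) : ℂ) * ∑ col : P → Cl ℓ k,
      ee ℓ (∑ q : P, ψ ((hc π u w α z (col q) : L0) : V) (t q) +
        ∑ p : P, ∑ q : P, if p = q then 0 else Rc ℓ k (col p) (col q) * sy p q) else 0) := by
    intro w α z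
    rw [tsum_mul_left]
    rfl
  have h2 : ∀ (w : Fin k → L0) (α : L0) (z : Fin k → LL),
      Summable (fun P : Finset (Pl K) => ee ℓ (- ψ (α : V) d1 + ∑ i, ψ (z i : V) (w i : V)) *
        (if Disjoint P S then
      (((((ℓ ^ k : ℕ) : ℝ) ^ P.card)⁻¹ * (NA P : ℝ) ^ (-s) : ℝ) : ℂ) * ∑ col : P → Cl ℓ k,
      ee ℓ (∑ q : P, ψ ((hc π u w α z (col q) : L0) : V) (t q) +
        ∑ p : P, ∑ q : P, if p = q then 0 else Rc ℓ k (col p) (col q) * sy p q) else 0)) := by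
    intro w α z
    exact (summable_term hMASS ℓ K S (fun (h : L0) q => ψ (h : V) (t q)) sy k (Rc ℓ k)
      (hc π u w α z) s hs hs2).mul_left _
  simp_rw [h1]
  simp_rw [← Summable.tsum_finsetSum (fun z _ => h2 _ _ z)]
  simp_rw [← Summable.tsum_finsetSum (fun α _ => summable_sum (fun z _ => h2 _ α z))]
  rw [← Summable.tsum_finsetSum (fun w _ => summable_sum (fun α _ =>
    summable_sum (fun z _ => h2 w α z)))]
  rw [← tsum_mul_left]
  refine tsum_congr (fun P => ?_)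
  by_cases hP : Disjoint P S
  · have h3 := term_one ℓ K S 𝔪 V ψ L0 L1 LL π u d1 t sy hM k s P hP
    simp only [hP, true_and, if_true]
    rw [← h3, mul_comm _ ((Nat.card L0 : ℂ) ^ (k + 1)), ← mul_assoc,
      inv_mul_cancel₀ (pow_ne_zero _ hcard), one_mul]
  · simp [hP]

end Pool.Agent.T3h73.SD.EXP
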