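import Pool.Agent.T3h73.SD.Stm
import Pool.Agent.N912.RC.Stm

/-!
# Project SD (helper73, MP_a43263). Part A: analysis

Sums over coloured finite sets of places with symbols `sy p q` between the places.
-/

set_option autoImplicit false
set_option linter.all false

open NumberField IsDedekindDomain Filter Topology

namespace Pool.Agent.T3h73.SD

open Pool.Agent.T3h73.SL (Pl)
open Pool.Agent.Y773.G (IsModChar)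
open Pool.Agent.Y773 (LI)
open Pool.Agent.N912.RC (IX)

/-- `e(a) = exp (2 π i a / ℓ)` -/
noncomputable def ee (ℓ : ℕ) (a : ZMod ℓ) : ℂ :=
  Complex.exp (2 * Real.pi * Complex.I * (a.val : ℂ) / ℓ)

section
variable {K : Type} [Field K] [NumberField K]

/-- the norm of the squarefree ideal given by a finite set of places -/
noncomputable def NA (A : Finset (Pl K)) : ℕ := ∏ q ∈ A, Ideal.absNorm q.asIdeal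

/-- `∏ (1 + 1 / N q)` -/
noncomputable def gA (A : Finset (Pl K)) : ℝ := ∏ q ∈ A, (1 + 1 / (Ideal.absNorm q.asIdeal : ℝ))

/-- `∑ sy a b` over `a ∈ A`, `b ∈ B` -/
def syA {ℓ : ℕ} (sy : Pl K → Pl K → ZMod ℓ) (A B : Finset (Pl K)) : ZMod ℓ :=
  ∑ a ∈ A, ∑ b ∈ B, sy a b

end

/-- a system of symbols: `χ h` (`h ∈ Λ`) and `sy b ·` are, outside `S` and `b`, ray class characters -/
structure SymSys (ℓ : ℕ) (K : Type) [Field K] [NumberField K] (S : Finset (Pl K))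
    (𝔪 : Ideal (𝓞 K)) (Λ : Type) [AddCommGroup Λ] (χ : Λ → Pl K → ZMod ℓ)
    (sy : Pl K → Pl K → ZMod ℓ) : Prop where
  ne_bot : 𝔪 ≠ ⊥
  cop : ∀ v : Pl K, IsCoprime v.asIdeal 𝔪 ↔ v ∉ S
  add : ∀ h h' q, χ (h + h') q = χ h q + χ h' q
  symm : ∀ p q, p ∉ S → q ∉ S → p ≠ q → sy p q = sy q p
  char : ∀ (h : Λ) (j : Pl K → ZMod ℓ) (B : Finset (Pl K)), Disjoint B S →
    (∀ b, j b ≠ 0 ↔ b ∈ B) →
    ∃ η : Ideal (𝓞 K) →*₀ ℂ, IsModChar (𝔪 * ∏ b ∈ B, b.asIdeal) (fun _ => 0) η ∧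
      (∀ 𝔞, IsCoprime 𝔞 (𝔪 * ∏ b ∈ B, b.asIdeal) → η 𝔞 ^ ℓ = 1) ∧
      (∀ q : Pl K, q ∉ S → q ∉ B → η q.asIdeal = ee ℓ (χ h q + ∑ b ∈ B, j b * sy b q)) ∧
      (h ≠ 0 ∨ B.Nonempty → ∃ 𝔞, IsCoprime 𝔞 (𝔪 * ∏ b ∈ B, b.asIdeal) ∧ η 𝔞 ≠ 1) ∧
      (B.Nonempty → ∃ α : 𝓞 K, IsCoprime (Ideal.span {α}) (𝔪 * ∏ b ∈ B, b.asIdeal) ∧
        η (Ideal.span {α}) ≠ 1)

/-- LS: a large sieve inequality (with a power loss) for ray class characters -/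
def S_LS : Prop := ∀ (K : Type) [Field K] [NumberField K], ∃ C D : ℝ, 1 ≤ C ∧ 1 ≤ D ∧
  ∀ (ι : Type) [Fintype ι] (𝔪 : ι → Ideal (𝓞 K)) (η : ι → Ideal (𝓞 K) →*₀ ℂ) (R Y : ℝ), 1 ≤ R →
  1 ≤ Y → (∀ i, IsModChar (𝔪 i) (fun _ => 0) (η i)) → (∀ i 𝔞, ‖η i 𝔞‖ ≤ 1) →
  (∀ i, (Ideal.absNorm (𝔪 i) : ℝ) ≤ R) →
  (∀ i j, i ≠ j → ∃ α : 𝓞 K, IsCoprime (Ideal.span {α}) (𝔪 i * 𝔪 j) ∧
    η i (Ideal.span {α}) ≠ η j (Ideal.span {α})) → ∀ ε : ι → ℂ, (∀ i, ‖ε i‖ ≤ 1) →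
  ∑ 𝔠 ∈ IX K Y, ‖∑ i, ε i * η i 𝔠‖ ^ 2 ≤
    C * (Fintype.card ι * Y + (Fintype.card ι : ℝ) ^ 2 * R ^ D * Y ^ (1 - 1 / D))

open Classical in
/-- BL: bilinear sums of symbols -/
def S_BL : Prop := ∀ (ℓ : ℕ) (_ : ℓ.Prime) (K : Type) [Field K] [NumberField K] (S : Finset (Pl K))
  (𝔪 : Ideal (𝓞 K)) (Λ : Type) [AddCommGroup Λ] (χ : Λ → Pl K → ZMod ℓ)
  (sy : Pl K → Pl K → ZMod ℓ), SymSys ℓ K S 𝔪 Λ χ sy → ∃ C θ : ℝ, 0 < C ∧ 0 < θ ∧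
  ∀ M N : ℝ, 1 ≤ M → 1 ≤ N → ∀ 𝒜 ℬ : Finset (Finset (Pl K)),
  (∀ A ∈ 𝒜, Disjoint A S ∧ (NA A : ℝ) ≤ M) → (∀ B ∈ ℬ, Disjoint B S ∧ (NA B : ℝ) ≤ N) →
  ∀ α β : Finset (Pl K) → ℂ, (∀ A, ‖α A‖ ≤ 1) → (∀ B, ‖β B‖ ≤ 1) → ∀ j : ZMod ℓ, j ≠ 0 →
  ‖∑ A ∈ 𝒜, ∑ B ∈ ℬ, if Disjoint A B then α A * β B * ee ℓ (j * syA sy A B) else 0‖ ≤
    C * M * N * (min M N) ^ (-θ) * (1 + Real.log M + Real.log N) ^ C

/-- LU: upper bound for L-functions near `1` -/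
def S_LU : Prop := ∀ (K : Type) [Field K] [NumberField K], ∃ C : ℝ, 0 < C ∧
  ∀ (𝔪 : Ideal (𝓞 K)) (η : Ideal (𝓞 K) →*₀ ℂ), IsModChar 𝔪 (fun _ => 0) η →
  (∃ 𝔞, IsCoprime 𝔞 𝔪 ∧ η 𝔞 ≠ 1) → ∀ s : ℝ, 1 < s → s ≤ 2 →
  ‖LI η (s : ℂ)‖ ≤ C * (1 + Real.log (Ideal.absNorm 𝔪)) ^ C

open Classical in
/-- EUL: the sums over one variable -/
def S_EUL : Prop := ∀ (ℓ : ℕ) (_ : ℓ.Prime) (K : Type) [Field K] [NumberField K] (S : Finset (Pl K))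
  (𝔪 : Ideal (𝓞 K)) (Λ : Type) [AddCommGroup Λ] (χ : Λ → Pl K → ZMod ℓ)
  (sy : Pl K → Pl K → ZMod ℓ), SymSys ℓ K S 𝔪 Λ χ sy → ∀ m : ℕ, 1 ≤ m → ∃ C : ℝ, 0 < C ∧
  ∀ (h : Λ) (j : Pl K → ZMod ℓ) (B F : Finset (Pl K)), Disjoint B S → (∀ b, j b ≠ 0 ↔ b ∈ B) →
  (h ≠ 0 ∨ B.Nonempty) → ∀ s : ℝ, 1 < s → s ≤ 2 →
  ‖∑' A : Finset (Pl K), if Disjoint A S ∧ Disjoint A B ∧ Disjoint A F then
    ((((m : ℝ) ^ A.card)⁻¹ * (NA A : ℝ) ^ (-s) : ℝ) : ℂ) *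
      ee ℓ (∑ q ∈ A, (χ h q + ∑ b ∈ B, j b * sy b q)) else 0‖ ≤
    C * (1 + Real.log (NA B)) ^ C * gA F ^ C

open Classical in
/-- MASS: the sums of absolute values; `T0` -/
def S_MASS : Prop := ∀ (K : Type) [Field K] [NumberField K] (m : ℕ) (D : ℝ), 1 ≤ m → 0 ≤ D →
  ∃ C : ℝ, 0 < C ∧ (∀ s : ℝ, 1 < s → s ≤ 2 →
    Summable (fun A : Finset (Pl K) => (m : ℝ) ^ A.card * (NA A : ℝ) ^ (-s) * gA A ^ D) ∧
    ∑' A : Finset (Pl K), ((m : ℝ) ^ A.card)⁻¹ * (NA A : ℝ) ^ (-s) * gA A ^ D ≤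
      C * (1 / (s - 1)) ^ (1 / (m : ℝ))) ∧
  ∀ Z : ℝ, 1 ≤ Z → ∑ᶠ A ∈ {A : Finset (Pl K) | (NA A : ℝ) ≤ Z},
    ((NA A : ℝ))⁻¹ * gA A ^ D ≤ C * (1 + Real.log Z) ^ C

section AN
variable {K : Type} [Field K] [NumberField K]

open Classical in
/-- the sum over all finite sets of places outside `S` -/
noncomputable def T0 (S : Finset (Pl K)) (s : ℝ) : ℝ :=
  ∑' P : Finset (Pl K), if Disjoint P S then (NA P : ℝ) ^ (-s) else 0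

open Classical in
/-- the sum over all finite sets `P` of places outside `S` with a colouring -/
noncomputable def Mh {ℓ : ℕ} (S : Finset (Pl K)) {Λ : Type} (χ : Λ → Pl K → ZMod ℓ)
    (sy : Pl K → Pl K → ZMod ℓ) {C : Type} [Fintype C] (R : C → C → ZMod ℓ) (m : ℕ) (h : C → Λ)
    (s : ℝ) : ℂ :=
  ∑' P : Finset (Pl K), if Disjoint P S then
    ((((m : ℝ) ^ P.card)⁻¹ * (NA P : ℝ) ^ (-s) : ℝ) : ℂ) * ∑ col : P → C,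
      ee ℓ (∑ q : P, χ (h (col q)) q +
        ∑ p : P, ∑ q : P, if p = q then 0 else R (col p) (col q) * sy p q) else 0

/-- families of disjoint finite sets of places outside `S` -/
def Tup {C : Type} (S : Finset (Pl K)) (A : C → Finset (Pl K)) : Prop :=
  (∀ c, Disjoint (A c) S) ∧ ∀ c c', c ≠ c' → Disjoint (A c) (A c')

open Classical in
/-- the term of a family -/
noncomputable def trm {ℓ : ℕ} {Λ : Type} (χ : Λ → Pl K → ZMod ℓ) (sy : Pl K → Pl K → ZMod ℓ)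
    {C : Type} [Fintype C] (R : C → C → ZMod ℓ) (m : ℕ) (h : C → Λ) (s : ℝ)
    (A : C → Finset (Pl K)) : ℂ :=
  ((∏ c, (((m : ℝ) ^ (A c).card)⁻¹ * (NA (A c) : ℝ) ^ (-s)) : ℝ) : ℂ) *
    ee ℓ (∑ c, ∑ q ∈ A c, χ (h c) q +
      ∑ c, ∑ c', if c = c' then 0 else R c c' * syA sy (A c) (A c'))

open Classical in
/-- the part of the sum where exactly the sets with colours in `W` have norm larger than `Z` -/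
noncomputable def MW {ℓ : ℕ} (S : Finset (Pl K)) {Λ : Type} (χ : Λ → Pl K → ZMod ℓ)
    (sy : Pl K → Pl K → ZMod ℓ) {C : Type} [Fintype C] (R : C → C → ZMod ℓ) (m : ℕ) (h : C → Λ)
    (Z : ℝ) (W : Finset C) (s : ℝ) : ℂ :=
  ∑' A : C → Finset (Pl K), if Tup S A ∧ ∀ c, c ∈ W ↔ Z < (NA (A c) : ℝ) then
    trm χ sy R m h s A else 0

end AN

open Classical in
/-- T0L: lower bound for `T0` -/
def S_T0L : Prop := ∀ (K : Type) [Field K] [NumberField K] (S : Finset (Pl K)), ∃ c s₀ : ℝ, 0 < c ∧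
  1 < s₀ ∧ ∀ s : ℝ, 1 < s → s < s₀ → Summable (fun P : Finset (Pl K) => (NA P : ℝ) ^ (-s)) ∧
    c / (s - 1) ≤ T0 S s

/-- TUP: from colourings to families -/
def S_TUP : Prop := ∀ (ℓ : ℕ) (_ : ℓ.Prime) (K : Type) [Field K] [NumberField K] (S : Finset (Pl K))
  (Λ : Type) (χ : Λ → Pl K → ZMod ℓ) (sy : Pl K → Pl K → ZMod ℓ) (C : Type) [Fintype C]
  (R : C → C → ZMod ℓ) (m : ℕ) (h : C → Λ), 1 ≤ m → (∀ a, R a a = 0) →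
  ∀ (s Z : ℝ), 1 < s → s ≤ 2 → Mh S χ sy R m h s = ∑ W : Finset C, MW S χ sy R m h Z W s

/-- AN1: two large linked variables -/
def S_AN1 : Prop := ∀ (ℓ : ℕ) (_ : ℓ.Prime) (K : Type) [Field K] [NumberField K] (S : Finset (Pl K))
  (𝔪 : Ideal (𝓞 K)) (Λ : Type) [AddCommGroup Λ] (χ : Λ → Pl K → ZMod ℓ)
  (sy : Pl K → Pl K → ZMod ℓ), SymSys ℓ K S 𝔪 Λ χ sy →
  ∀ (C : Type) [Fintype C] (R : C → C → ZMod ℓ) (m : ℕ) (h : C → Λ), 1 ≤ m → (∀ a, R a a = 0) →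
  ∃ κ₀ : ℝ, 0 < κ₀ ∧ ∀ κ : ℝ, κ₀ ≤ κ → ∀ (W : Finset C) (a b : C), a ∈ W → b ∈ W →
    R a b + R b a ≠ 0 →
    Tendsto (fun s : ℝ => ((s - 1 : ℝ) : ℂ) * MW S χ sy R m h ((1 / (s - 1)) ^ κ) W s)
      (𝓝[>] 1) (𝓝 0)

/-- AN2: less than `m` large variables -/
def S_AN2 : Prop := ∀ (ℓ : ℕ) (_ : ℓ.Prime) (K : Type) [Field K] [NumberField K] (S : Finset (Pl K))
  (Λ : Type) (χ : Λ → Pl K → ZMod ℓ) (sy : Pl K → Pl K → ZMod ℓ) (C : Type) [Fintype C]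
  (R : C → C → ZMod ℓ) (m : ℕ) (h : C → Λ), 1 ≤ m → ∀ κ : ℝ, 0 < κ → ∀ W : Finset C, W.card < m →
    Tendsto (fun s : ℝ => ((s - 1 : ℝ) : ℂ) * MW S χ sy R m h ((1 / (s - 1)) ^ κ) W s)
      (𝓝[>] 1) (𝓝 0)

open Classical in
/-- AN3: exactly `m` large variables, not linked -/
def S_AN3 : Prop := ∀ (ℓ : ℕ) (_ : ℓ.Prime) (K : Type) [Field K] [NumberField K] (S : Finset (Pl K))
  (𝔪 : Ideal (𝓞 K)) (Λ : Type) [AddCommGroup Λ] (χ : Λ → Pl K → ZMod ℓ)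
  (sy : Pl K → Pl K → ZMod ℓ), SymSys ℓ K S 𝔪 Λ χ sy →
  ∀ (C : Type) [Fintype C] (R : C → C → ZMod ℓ) (m : ℕ) (h : C → Λ), 1 ≤ m → (∀ a, R a a = 0) →
  (∀ U : Finset C, (∀ a ∈ U, ∀ b ∈ U, R a b + R b a = 0) → U.card ≤ m) →
  ∀ κ : ℝ, 0 < κ → ∀ W : Finset C, W.card = m → (∀ a ∈ W, ∀ b ∈ W, R a b + R b a = 0) →
    Tendsto (fun s : ℝ => MW S χ sy R m h ((1 / (s - 1)) ^ κ) W s / ((T0 S s : ℝ) : ℂ))
      (𝓝[>] 1) (𝓝 (if ∀ a ∈ W, h a = 0 then 1 else 0))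

/-- AN: the asymptotics of the coloured sums -/
def S_AN : Prop := ∀ (ℓ : ℕ) (_ : ℓ.Prime) (K : Type) [Field K] [NumberField K] (S : Finset (Pl K))
  (𝔪 : Ideal (𝓞 K)) (Λ : Type) [AddCommGroup Λ] (χ : Λ → Pl K → ZMod ℓ)
  (sy : Pl K → Pl K → ZMod ℓ), SymSys ℓ K S 𝔪 Λ χ sy →
  ∀ (C : Type) [Fintype C] (R : C → C → ZMod ℓ) (m : ℕ) (h : C → Λ), 1 ≤ m → (∀ a, R a a = 0) →
  (∀ U : Finset C, (∀ a ∈ U, ∀ b ∈ U, R a b + R b a = 0) → U.card ≤ m) →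
    Tendsto (fun s : ℝ => Mh S χ sy R m h s / ((T0 S s : ℝ) : ℂ)) (𝓝[>] 1)
      (𝓝 (Nat.card {U : Finset C // (∀ a ∈ U, ∀ b ∈ U, R a b + R b a = 0) ∧ U.card = m ∧
        ∀ a ∈ U, h a = 0}))

end Pool.Agent.T3h73.SD
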