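import Pool.Agent.H921R2.TatePole.Dedekind
import Pool.Agent.T3h73.SD.Stm2

/-!
Sums over the primes of a number field and over finite sets of primes (tools for the tasks MASS,
T0L, AN1, AN2 of project SD).
-/

set_option autoImplicit false

open NumberField IsDedekindDomain Filter Topology

namespace Pool.Agent.T3h73.SD.Prs

open Pool.Agent.T3h73.SL (Pl)
open Pool.Agent.H921R2.TatePole

section gen

variable {ι : Type*}

/-- sums of products over finite sets -/
theorem fsum (f : ι → ℝ) (hf : ∀ i, 0 ≤ f i) (hs : Summable f) :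
    Summable (fun A : Finset ι => ∏ i ∈ A, f i) ∧
      ∑' A : Finset ι, ∏ i ∈ A, f i ≤ Real.exp (∑' i, f i) := by
  classical
  have key : ∀ T : Finset (Finset ι), ∑ A ∈ T, ∏ i ∈ A, f i ≤ Real.exp (∑' i, f i) := by
    intro T
    have h1 : ∑ A ∈ T, ∏ i ∈ A, f i ≤ ∑ A ∈ (T.biUnion id).powerset, ∏ i ∈ A, f i := by
      refine Finset.sum_le_sum_of_subset_of_nonneg ?_ fun A _ _ => Finset.prod_nonneg fun i _ => hf i
      intro A hA
      rw [Finset.mem_powerset]
      exact Finset.subset_biUnion_of_mem id hA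
    refine h1.trans ?_
    rw [← Finset.prod_one_add]
    refine (Real.prod_one_add_le_exp_sum _ (fun i => hf i)).trans ?_
    exact Real.exp_le_exp.mpr (hs.sum_le_tsum _ fun i _ => hf i)
  have hs' : Summable (fun A : Finset ι => ∏ i ∈ A, f i) :=
    summable_of_sum_le (fun A => Finset.prod_nonneg fun i _ => hf i) key
  exact ⟨hs', hs'.tsum_le_of_sum_le key⟩

/-- lower bound for sums of products over finite sets -/
theorem fsum_ge (f : ι → ℝ) (hf : ∀ i, 0 ≤ f i) (hf2 : ∀ i, f i ≤ 1 / 2) (hs : Summable f) :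
    Real.exp (∑' i, (f i - f i ^ 2)) ≤ ∑' A : Finset ι, ∏ i ∈ A, f i := by
  classical
  have hs2 : Summable (fun i => f i - f i ^ 2) := by
    refine hs.sub ?_
    refine Summable.of_nonneg_of_le (fun i => sq_nonneg _) (fun i => ?_) hs
    nlinarith [hf i, hf2 i]
  refine le_of_tendsto ((Real.continuous_exp.tendsto _).comp hs2.hasSum) ?_
  refine Eventually.of_forall fun F => ?_
  simp only [Function.comp_apply]
  have h1 : Real.exp (∑ i ∈ F, (f i - f i ^ 2)) ≤ ∏ i ∈ F, (1 + f i) := by
    rw [Real.exp_sum]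
    refine Finset.prod_le_prod (fun i _ => (Real.exp_pos _).le) fun i _ => ?_
    rw [← Real.le_log_iff_exp_le (by linarith [hf i])]
    exact log_one_add_ge (hf i) (hf2 i)
  refine h1.trans ?_
  rw [Finset.prod_one_add]
  exact (fsum f hf hs).1.sum_le_tsum _ fun A _ => Finset.prod_nonneg fun i _ => hf i

end gen

variable (K : Type) [Field K] [NumberField K]

theorem ZK_up : ∃ C : ℝ, 0 < C ∧ ∀ s : ℝ, 1 < s → s ≤ 2 → ZK K s ≤ C / (s - 1) := by
  have h1 := (ZK_tendsto (K := K)).eventually
    (gt_mem_nhds (show dedekindZeta_residue K < dedekindZeta_residue K + 1 by linarith))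
  rw [eventually_nhdsWithin_iff, Metric.eventually_nhds_iff] at h1
  obtain ⟨δ, hδ, h⟩ := h1
  have hr := dedekindZeta_residue_pos K
  set s₁ : ℝ := 1 + min 1 (δ / 2) with hs1
  have hm : 0 < min 1 (δ / 2) := lt_min one_pos (by linarith)
  have hs1' : 1 < s₁ := by rw [hs1]; linarith
  have hZ0 : ∀ s : ℝ, 0 ≤ ZK K s := fun s => tsum_nonneg fun n => by
    split_ifs
    · exact le_rfl
    · exact mul_nonneg (aK_nonneg n) (by positivity)
  have hmono : ∀ s : ℝ, s₁ ≤ s → ZK K s ≤ ZK K s₁ := by
    intro s hs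
    refine Summable.tsum_le_tsum (fun n => ?_) (ZK_summable (by linarith)) (ZK_summable hs1')
    split_ifs with hn
    · exact le_rfl
    · refine mul_le_mul_of_nonneg_left ?_ (aK_nonneg n)
      refine Real.rpow_le_rpow_of_exponent_le ?_ (by linarith)
      exact_mod_cast Nat.one_le_iff_ne_zero.mpr hn
  refine ⟨dedekindZeta_residue K + 1 + ZK K s₁, by have := hZ0 s₁; linarith, fun s hs hs2 => ?_⟩
  have hs0 : 0 < s - 1 := by linarith
  rw [le_div_iff₀ hs0, mul_comm]
  rcases le_or_gt s₁ s with h2 | h2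
  · have h3 := hmono s h2
    have h4 := hZ0 s
    nlinarith
  · have h3 := h (y := s) (by
      rw [Real.dist_eq, abs_of_pos hs0]
      have : min 1 (δ / 2) ≤ δ / 2 := min_le_right _ _
      rw [hs1] at h2
      linarith) hs
    have := hZ0 s₁
    linarith

theorem psum_le : ∃ C : ℝ, 0 < C ∧ ∀ s : ℝ, 1 < s → s ≤ 2 →
    ∑' v : Pl K, (nm v : ℝ) ^ (-s) ≤ Real.log (1 / (s - 1)) + C := by
  obtain ⟨C, hC, h⟩ := ZK_up K
  refine ⟨|Real.log C| + CK K + 1, by
    have := CK_nonneg (K := K); have := abs_nonneg (Real.log C); linarith, fun s hs hs2 => ?_⟩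
  have h1 := prime_sum_le (K := K) hs
  have h2 := h s hs hs2
  have hs0 : 0 < s - 1 := by linarith
  have hZ1 : (1 : ℝ) ≤ ZK K s := by
    have := prod_one_add_le hs (∅ : Finset (HeightOneSpectrum (𝓞 K)))
    simpa using this
  have h3 : Real.log (ZK K s) ≤ Real.log (1 / (s - 1)) + |Real.log C| := by
    have h4 : Real.log (ZK K s) ≤ Real.log (C / (s - 1)) := Real.log_le_log (by linarith) h2
    rw [div_eq_mul_one_div, Real.log_mul hC.ne' (by positivity)] at h4
    have := le_abs_self (Real.log C)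
    linarith
  linarith

theorem psum_ge : ∃ C s₀ : ℝ, 0 < C ∧ 1 < s₀ ∧ ∀ s : ℝ, 1 < s → s < s₀ →
    Real.log (1 / (s - 1)) - C ≤ ∑' v : Pl K, (nm v : ℝ) ^ (-s) := by
  have hr := dedekindZeta_residue_pos K
  have h1 := (ZK_tendsto (K := K)).eventually
    (lt_mem_nhds (show dedekindZeta_residue K / 2 < dedekindZeta_residue K by linarith))
  rw [eventually_nhdsWithin_iff, Metric.eventually_nhds_iff] at h1
  obtain ⟨δ, hδ, h⟩ := h1
  refine ⟨|Real.log (dedekindZeta_residue K / 2)| + CK K + 1, 1 + δ, by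
    have := CK_nonneg (K := K)
    have := abs_nonneg (Real.log (dedekindZeta_residue K / 2)); linarith, by linarith,
    fun s hs hs2 => ?_⟩
  have hs0 : 0 < s - 1 := by linarith
  have h3 := h (y := s) (by rw [Real.dist_eq, abs_of_pos hs0]; linarith) hs
  have h4 : dedekindZeta_residue K / 2 / (s - 1) ≤ ZK K s := by
    rw [div_le_iff₀ hs0, mul_comm]; exact h3.le
  have h5 := Real.log_le_log (by positivity) h4
  rw [div_eq_mul_one_div, Real.log_mul (by positivity) (by positivity)] at h5
  have h6 := le_prime_sum (K := K) hs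
  have h7 := neg_abs_le (Real.log (dedekindZeta_residue K / 2))
  linarith

end Pool.Agent.T3h73.SD.Prs
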