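import Pool.Agent.T3h73.SD.Stm3

/-!
# UNL: unlinked sets of colours (helper59)
-/

set_option autoImplicit false
set_option linter.all false

open Filter Topology

namespace Pool.Agent.T3h73.SD.UNL

section

variable {ℓ k : ℕ} [Fact ℓ.Prime]

/-- the quadratic form -/
def Q (x : Cl ℓ k) : ZMod ℓ := ∑ i, x.1 i * x.2 i

/-- its polar form -/
def B (ℓ k : ℕ) : Cl ℓ k →ₗ[ZMod ℓ] Cl ℓ k →ₗ[ZMod ℓ] ZMod ℓ :=
  LinearMap.mk₂ (ZMod ℓ) (fun x y => ∑ i, (x.1 i * y.2 i + y.1 i * x.2 i))
    (by
      intro x x' y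
      rw [← Finset.sum_add_distrib]
      refine Finset.sum_congr rfl fun i _ => ?_
      simp only [Prod.fst_add, Prod.snd_add, Pi.add_apply]
      ring)
    (by
      intro c x y
      rw [smul_eq_mul, Finset.mul_sum]
      refine Finset.sum_congr rfl fun i _ => ?_
      simp only [Prod.smul_fst, Prod.smul_snd, Pi.smul_apply, smul_eq_mul]
      ring)
    (by
      intro x y y'
      rw [← Finset.sum_add_distrib]
      refine Finset.sum_congr rfl fun i _ => ?_
      simp only [Prod.fst_add, Prod.snd_add, Pi.add_apply]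
      ring)
    (by
      intro c x y
      rw [smul_eq_mul, Finset.mul_sum]
      refine Finset.sum_congr rfl fun i _ => ?_
      simp only [Prod.smul_fst, Prod.smul_snd, Pi.smul_apply, smul_eq_mul]
      ring)

theorem B_apply (x y : Cl ℓ k) : B ℓ k x y = ∑ i, (x.1 i * y.2 i + y.1 i * x.2 i) := rfl

theorem B_symm (x y : Cl ℓ k) : B ℓ k x y = B ℓ k y x := by
  rw [B_apply, B_apply]
  exact Finset.sum_congr rfl fun i _ => add_comm _ _

theorem rc_eq (a b : Cl ℓ k) : Rc ℓ k a b + Rc ℓ k b a = - Q (a - b) := by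
  unfold Rc Q
  rw [← Finset.sum_add_distrib, ← Finset.sum_neg_distrib]
  refine Finset.sum_congr rfl fun i _ => ?_
  simp only [Prod.fst_sub, Prod.snd_sub, Pi.sub_apply]
  ring

theorem Q_sub (a b : Cl ℓ k) : Q (a - b) = Q a + Q b - B ℓ k a b := by
  rw [B_apply]
  unfold Q
  rw [← Finset.sum_add_distrib, ← Finset.sum_sub_distrib]
  refine Finset.sum_congr rfl fun i _ => ?_
  simp only [Prod.fst_sub, Prod.snd_sub, Pi.sub_apply]
  ring

theorem B_self (a : Cl ℓ k) : B ℓ k a a = 2 * Q a := by
  rw [B_apply]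
  unfold Q
  rw [Finset.mul_sum]
  refine Finset.sum_congr rfl fun i _ => ?_
  ring

theorem two_ne (hℓ : ℓ ≠ 2) : (2 : ZMod ℓ) ≠ 0 := by
  intro h
  have h1 : ((2 : ℕ) : ZMod ℓ) = 0 := by exact_mod_cast h
  rw [ZMod.natCast_eq_zero_iff] at h1
  have h2 := (Nat.prime_dvd_prime_iff_eq (Fact.out : ℓ.Prime) Nat.prime_two).1 h1
  exact hℓ h2

theorem nondeg : (B ℓ k).Nondegenerate := by
  have key : ∀ x : Cl ℓ k, (∀ y, B ℓ k x y = 0) → x = 0 := by
    intro x hx
    apply Prod.ext
    · funext i
      have h := hx (0, Pi.single i 1)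
      rw [B_apply, Finset.sum_eq_single i] at h
      · simpa using h
      · intro j _ hj
        simp [Pi.single_apply, hj]
      · intro h; exact absurd (Finset.mem_univ _) h
    · funext i
      have h := hx (Pi.single i 1, 0)
      rw [B_apply, Finset.sum_eq_single i] at h
      · simpa using h
      · intro j _ hj
        simp [Pi.single_apply, hj]
      · intro h; exact absurd (Finset.mem_univ _) h
  refine ⟨key, ?_⟩
  intro y hy
  apply key
  intro x
  rw [B_symm]
  exact hy x

theorem finrank_le (X : Submodule (ZMod ℓ) (Cl ℓ k)) (hX : ∀ x ∈ X, ∀ y ∈ X, B ℓ k x y = 0) :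
    Module.finrank (ZMod ℓ) X ≤ k := by
  have h1 := LinearMap.BilinForm.finrank_orthogonal (B := B ℓ k) nondeg X
  have h2 : X ≤ LinearMap.BilinForm.orthogonal (B ℓ k) X := by
    intro x hx
    rw [LinearMap.BilinForm.mem_orthogonal_iff]
    intro y hy
    exact hX y hy x hx
  have h3 := Submodule.finrank_mono h2
  have h4 : Module.finrank (ZMod ℓ) (Cl ℓ k) = k + k := by
    rw [Module.finrank_prod, Module.finrank_fin_fun]
  rw [h1, h4] at h3
  omega

end

theorem t_UNL : S_UNL := by
  classical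
  intro ℓ _ hℓ k U hU
  have hprime : ℓ.Prime := Fact.out
  rcases U.eq_empty_or_nonempty with rfl | ⟨x₀, hx₀⟩
  · refine ⟨by simp, fun h => ?_⟩
    have := pow_pos hprime.pos k
    rw [Finset.card_empty] at h
    omega
  have hQ : ∀ a ∈ U, ∀ b ∈ U, Q (a - b) = 0 := by
    intro a ha b hb
    have := hU a ha b hb
    rw [rc_eq] at this
    exact neg_eq_zero.1 this
  set D : Finset (Cl ℓ k) := U.image fun a => a - x₀ with hD
  have hDQ : ∀ a ∈ D, Q a = 0 := by
    intro a ha
    obtain ⟨b, hb, rfl⟩ := Finset.mem_image.1 ha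
    exact hQ b hb x₀ hx₀
  have hDB : ∀ a ∈ D, ∀ b ∈ D, B ℓ k a b = 0 := by
    intro a ha b hb
    have h1 : Q (a - b) = 0 := by
      obtain ⟨a', ha', rfl⟩ := Finset.mem_image.1 ha
      obtain ⟨b', hb', rfl⟩ := Finset.mem_image.1 hb
      have h2 : a' - x₀ - (b' - x₀) = a' - b' := by abel
      rw [h2]
      exact hQ a' ha' b' hb'
    rw [Q_sub, hDQ a ha, hDQ b hb, zero_add, zero_sub, neg_eq_zero] at h1
    exact h1
  set X : Submodule (ZMod ℓ) (Cl ℓ k) := Submodule.span (ZMod ℓ) (D : Set (Cl ℓ k)) with hX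
  have hXB : ∀ x ∈ X, ∀ y ∈ X, B ℓ k x y = 0 := by
    intro x hx y hy
    induction hx using Submodule.span_induction with
    | mem x hx =>
      induction hy using Submodule.span_induction with
      | mem y hy => exact hDB x hx y hy
      | zero => rw [map_zero]
      | add a b _ _ h1 h2 => rw [map_add, h1, h2, add_zero]
      | smul c a _ h1 => rw [map_smul, h1, smul_zero]
    | zero => rw [map_zero, LinearMap.zero_apply]
    | add a b _ _ h1 h2 => rw [map_add, LinearMap.add_apply, h1, h2, add_zero]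
    | smul c a _ h1 => rw [map_smul, LinearMap.smul_apply, h1, smul_zero]
  have hXQ : ∀ x ∈ X, Q x = 0 := by
    intro x hx
    have h1 := hXB x hx x hx
    rw [B_self] at h1
    exact (mul_eq_zero.1 h1).resolve_left (two_ne hℓ)
  have hrk := finrank_le X hXB
  have hcardX : Nat.card X = ℓ ^ Module.finrank (ZMod ℓ) X := by
    rw [Module.natCard_eq_pow_finrank (K := ZMod ℓ) (V := X), Nat.card_zmod]
  have hinj : Function.Injective fun a : Cl ℓ k => a - x₀ := sub_left_injective
  have hcardD : D.card = U.card := Finset.card_image_of_injective _ hinj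
  have hcX : Nat.card X = (X : Set (Cl ℓ k)).ncard := Nat.card_coe_set_eq (X : Set (Cl ℓ k))
  have hDX : D.card ≤ Nat.card X := by
    rw [← Set.ncard_coe_finset, hcX]
    exact Set.ncard_le_ncard Submodule.subset_span (Set.toFinite _)
  have hle : Nat.card X ≤ ℓ ^ k := by
    rw [hcardX]
    exact Nat.pow_le_pow_right hprime.pos hrk
  refine ⟨by rw [← hcardD]; exact hDX.trans hle, fun hcard => ?_⟩
  have h1 : Nat.card X = ℓ ^ k := le_antisymm hle (by rw [← hcard, ← hcardD]; exact hDX)
  have h2 : Module.finrank (ZMod ℓ) X = k := by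
    rw [hcardX] at h1
    exact Nat.pow_right_injective hprime.two_le h1
  have h3 : (D : Set (Cl ℓ k)) = (X : Set (Cl ℓ k)) := by
    apply Set.eq_of_subset_of_ncard_le Submodule.subset_span _ (Set.toFinite _)
    rw [Set.ncard_coe_finset, hcardD, hcard, ← hcX]
    exact h1.le
  refine ⟨x₀, X, fun x hx y hy => hXB x hx y hy, fun x hx => hXQ x hx, h2, fun a => ?_⟩
  constructor
  · intro ha
    exact Submodule.subset_span (Finset.mem_coe.2 (Finset.mem_image_of_mem _ ha))
  · intro ha
    have h4 : a - x₀ ∈ (D : Set (Cl ℓ k)) := by rw [h3]; exact ha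
    obtain ⟨b, hb, hba⟩ := Finset.mem_image.1 (Finset.mem_coe.1 h4)
    have : b = a := hinj hba
    rw [← this]
    exact hb

end Pool.Agent.T3h73.SD.UNL
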