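import Pool.Agent.T3h73.SD.Prs

/-!
Task MASS of project SD (helper73): sums of absolute values over finite sets of places.
-/

set_option autoImplicit false

open NumberField IsDedekindDomain Filter Topology

namespace Pool.Agent.T3h73.SD.MASS

open Pool.Agent.T3h73.SL (Pl)
open Pool.Agent.H921R2.TatePole

variable {K : Type} [Field K] [NumberField K]

theorem nm_eq' (q : Pl K) : (Ideal.absNorm q.asIdeal : ℝ) = (nm q : ℝ) := rfl

theorem one_le_nm (q : Pl K) : (1 : ℝ) ≤ (nm q : ℝ) := by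
  exact_mod_cast (by norm_num : 1 ≤ 2).trans (two_le_nm q)

theorem NA_rpow (A : Finset (Pl K)) (s : ℝ) : (NA A : ℝ) ^ (-s) = ∏ q ∈ A, (nm q : ℝ) ^ (-s) := by
  unfold NA
  push_cast
  rw [Real.finsetProd_rpow _ _ (fun v _ => by positivity)]
  rfl

theorem gA_rpow (A : Finset (Pl K)) (D : ℝ) :
    gA A ^ D = ∏ q ∈ A, (1 + 1 / (nm q : ℝ)) ^ D := by
  unfold gA
  rw [Real.finsetProd_rpow _ _ (fun v _ => by positivity)]
  rfl

theorem one_le_NA (A : Finset (Pl K)) : (1 : ℝ) ≤ (NA A : ℝ) := by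
  unfold NA
  push_cast
  exact Finset.one_le_prod (fun q _ => one_le_nm q)

theorem term_eq (A : Finset (Pl K)) (c s D : ℝ) :
    c ^ A.card * (NA A : ℝ) ^ (-s) * gA A ^ D =
      ∏ q ∈ A, (c * (nm q : ℝ) ^ (-s) * (1 + 1 / (nm q : ℝ)) ^ D) := by
  rw [NA_rpow, gA_rpow, Finset.prod_mul_distrib, Finset.prod_mul_distrib, Finset.prod_const]

/-- `(1+t)^D ≤ 1 + 3^k t` for `0 ≤ t ≤ 1`, `k = ⌈D⌉` -/
theorem pow_bd (k : ℕ) {t : ℝ} (h0 : 0 ≤ t) (h1 : t ≤ 1) : (1 + t) ^ k ≤ 1 + 3 ^ k * t := by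
  induction k with
  | zero => simp [h0]
  | succ k ih =>
    have h3 : (1 : ℝ) ≤ 3 ^ k := one_le_pow₀ (by norm_num)
    calc (1 + t) ^ (k + 1) = (1 + t) ^ k * (1 + t) := pow_succ _ _
      _ ≤ (1 + 3 ^ k * t) * (1 + t) := mul_le_mul_of_nonneg_right ih (by linarith)
      _ = 1 + t + 3 ^ k * t + 3 ^ k * t * t := by ring
      _ ≤ 1 + 3 ^ k * t + 3 ^ k * t + 3 ^ k * t := by
          have h4 : 0 ≤ 3 ^ k * t := by positivity
          nlinarith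
      _ = 1 + 3 ^ (k + 1) * t := by ring

theorem rpow_bd (D : ℝ) {t : ℝ} (h0 : 0 ≤ t) (h1 : t ≤ 1) :
    (1 + t) ^ D ≤ 1 + 3 ^ ⌈D⌉₊ * t := by
  refine le_trans ?_ (pow_bd ⌈D⌉₊ h0 h1)
  rw [← Real.rpow_natCast]
  exact Real.rpow_le_rpow_of_exponent_le (by linarith) (Nat.le_ceil D)

theorem inv_nm_le (q : Pl K) : 1 / (nm q : ℝ) ≤ 1 := by
  rw [div_le_one (by linarith [one_le_nm q])]
  exact one_le_nm q

theorem fac_le (q : Pl K) (D : ℝ) {c s : ℝ} (hc : 0 ≤ c) (hs : 1 < s) :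
    c * (nm q : ℝ) ^ (-s) * (1 + 1 / (nm q : ℝ)) ^ D ≤
      c * (nm q : ℝ) ^ (-s) + c * 3 ^ ⌈D⌉₊ * (nm q : ℝ) ^ (-(2 : ℝ)) := by
  have h1 := rpow_bd D (t := 1 / (nm q : ℝ)) (by positivity) (inv_nm_le q)
  have h2 : c * (nm q : ℝ) ^ (-s) * (1 + 1 / (nm q : ℝ)) ^ D ≤
      c * (nm q : ℝ) ^ (-s) * (1 + 3 ^ ⌈D⌉₊ * (1 / (nm q : ℝ))) :=
    mul_le_mul_of_nonneg_left h1 (by positivity)
  refine h2.trans ?_
  have hpos : (0 : ℝ) < nm q := by linarith [one_le_nm q]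
  have h3 : (nm q : ℝ) ^ (-s) * (1 / (nm q : ℝ)) ≤ (nm q : ℝ) ^ (-(2 : ℝ)) := by
    rw [one_div, ← Real.rpow_neg_one, ← Real.rpow_add hpos]
    exact Real.rpow_le_rpow_of_exponent_le (one_le_nm q) (by linarith)
  have h4 : c * 3 ^ ⌈D⌉₊ * ((nm q : ℝ) ^ (-s) * (1 / (nm q : ℝ))) ≤
      c * 3 ^ ⌈D⌉₊ * (nm q : ℝ) ^ (-(2 : ℝ)) := mul_le_mul_of_nonneg_left h3 (by positivity)
  calc c * (nm q : ℝ) ^ (-s) * (1 + 3 ^ ⌈D⌉₊ * (1 / (nm q : ℝ)))
      = c * (nm q : ℝ) ^ (-s) + c * 3 ^ ⌈D⌉₊ * ((nm q : ℝ) ^ (-s) * (1 / (nm q : ℝ))) := by ring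
    _ ≤ _ := by linarith

theorem fac_summable (D : ℝ) {c s : ℝ} (hc : 0 ≤ c) (hs : 1 < s) :
    Summable (fun q : Pl K => c * (nm q : ℝ) ^ (-s) * (1 + 1 / (nm q : ℝ)) ^ D) := by
  refine Summable.of_nonneg_of_le (fun q => by positivity) (fun q => fac_le q D hc hs) ?_
  exact ((nm_summable hs).mul_left c).add
    ((nm_summable (by norm_num : (1 : ℝ) < 2)).mul_left (c * 3 ^ ⌈D⌉₊))

theorem fac_tsum (D : ℝ) {c s : ℝ} (hc : 0 ≤ c) (hs : 1 < s) :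
    ∑' q : Pl K, c * (nm q : ℝ) ^ (-s) * (1 + 1 / (nm q : ℝ)) ^ D ≤
      c * ∑' q : Pl K, (nm q : ℝ) ^ (-s) +
        c * 3 ^ ⌈D⌉₊ * ∑' q : Pl K, (nm q : ℝ) ^ (-(2 : ℝ)) := by
  rw [← tsum_mul_left, ← tsum_mul_left, ← Summable.tsum_add ((nm_summable hs).mul_left c)
    ((nm_summable (by norm_num : (1 : ℝ) < 2)).mul_left (c * 3 ^ ⌈D⌉₊))]
  exact Summable.tsum_le_tsum (fun q => fac_le q D hc hs) (fac_summable D hc hs)
    (((nm_summable hs).mul_left c).add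
    ((nm_summable (by norm_num : (1 : ℝ) < 2)).mul_left (c * 3 ^ ⌈D⌉₊)))

theorem t_MASS : S_MASS := by
  intro K _ _ m D hm hD
  obtain ⟨C₀, hC₀, hp⟩ := Prs.psum_le K
  set T2 : ℝ := ∑' q : Pl K, (nm q : ℝ) ^ (-(2 : ℝ)) with hT2
  have hT2' : 0 ≤ T2 := tsum_nonneg fun q => by positivity
  -- the bound with `m`
  have key : ∀ m : ℕ, 1 ≤ m → ∀ s : ℝ, 1 < s → s ≤ 2 →
      Summable (fun A : Finset (Pl K) => ((m : ℝ) ^ A.card)⁻¹ * (NA A : ℝ) ^ (-s) * gA A ^ D) ∧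
      ∑' A : Finset (Pl K), ((m : ℝ) ^ A.card)⁻¹ * (NA A : ℝ) ^ (-s) * gA A ^ D ≤
      Real.exp (C₀ + 3 ^ ⌈D⌉₊ * T2) * (1 / (s - 1)) ^ (1 / (m : ℝ)) := by
    intro m hm s hs hs2
    have hm0 : (0 : ℝ) < m := by exact_mod_cast hm
    have hm1 : (1 : ℝ) ≤ m := by exact_mod_cast hm
    have hs0 : 0 < s - 1 := by linarith
    have hfs := Prs.fsum (fun q : Pl K => (m : ℝ)⁻¹ * (nm q : ℝ) ^ (-s) *
      (1 + 1 / (nm q : ℝ)) ^ D) (fun q => by positivity) (fac_summable D (by positivity) hs)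
    have e : ∀ A : Finset (Pl K), ((m : ℝ) ^ A.card)⁻¹ * (NA A : ℝ) ^ (-s) * gA A ^ D =
        ∏ q ∈ A, ((m : ℝ)⁻¹ * (nm q : ℝ) ^ (-s) * (1 + 1 / (nm q : ℝ)) ^ D) := by
      intro A
      rw [← term_eq, inv_pow]
    refine ⟨hfs.1.congr fun A => (e A).symm, ?_⟩
    rw [tsum_congr e]
    refine hfs.2.trans ?_
    have h1 := fac_tsum (K := K) D (c := (m : ℝ)⁻¹) (by positivity) hs
    have h2 := hp s hs hs2
    have hmi : (m : ℝ)⁻¹ ≤ 1 := inv_le_one_of_one_le₀ hm1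
    have hmi0 : 0 ≤ (m : ℝ)⁻¹ := by positivity
    have h3 : (m : ℝ)⁻¹ * ∑' q : Pl K, (nm q : ℝ) ^ (-s) ≤
        (1 / (m : ℝ)) * Real.log (1 / (s - 1)) + C₀ := by
      calc (m : ℝ)⁻¹ * ∑' q : Pl K, (nm q : ℝ) ^ (-s)
          ≤ (m : ℝ)⁻¹ * (Real.log (1 / (s - 1)) + C₀) := mul_le_mul_of_nonneg_left h2 hmi0
        _ = (1 / (m : ℝ)) * Real.log (1 / (s - 1)) + (m : ℝ)⁻¹ * C₀ := by ring
        _ ≤ _ := by nlinarith
    have h4 : (m : ℝ)⁻¹ * 3 ^ ⌈D⌉₊ * T2 ≤ 3 ^ ⌈D⌉₊ * T2 := by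
      rw [mul_assoc]
      exact mul_le_of_le_one_left (by positivity) hmi
    calc Real.exp (∑' q : Pl K, (m : ℝ)⁻¹ * (nm q : ℝ) ^ (-s) * (1 + 1 / (nm q : ℝ)) ^ D)
        ≤ Real.exp ((C₀ + 3 ^ ⌈D⌉₊ * T2) + Real.log (1 / (s - 1)) * (1 / (m : ℝ))) := by
          apply Real.exp_le_exp.mpr
          rw [hT2] at h4 ⊢
          linarith
      _ = _ := by
          rw [Real.exp_add, Real.rpow_def_of_pos (by positivity)]
  set C₁ : ℝ := Real.exp (C₀ + 3 ^ ⌈D⌉₊ * T2) with hC₁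
  have hC₁' : 1 ≤ C₁ := Real.one_le_exp (by positivity)
  refine ⟨C₁ * Real.exp 1, by positivity, ?_, ?_⟩
  · intro s hs hs2
    refine ⟨?_, ?_⟩
    · have hfs := Prs.fsum (fun q : Pl K => (m : ℝ) * (nm q : ℝ) ^ (-s) *
        (1 + 1 / (nm q : ℝ)) ^ D) (fun q => by positivity) (fac_summable D (by positivity) hs)
      exact hfs.1.congr fun A => (term_eq A m s D).symm
    · refine (key m hm s hs hs2).2.trans ?_
      have hs0 : 0 < s - 1 := by linarith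
      refine mul_le_mul_of_nonneg_right ?_ (by positivity)
      exact le_mul_of_one_le_right (by positivity) (Real.one_le_exp (by norm_num))
  · intro Z hZ
    have hlZ : 0 ≤ Real.log Z := Real.log_nonneg hZ
    have hC2 : 1 ≤ C₁ * Real.exp 1 := by
      have := Real.one_le_exp (show (0 : ℝ) ≤ 1 by norm_num)
      nlinarith
    have hR0 : 0 ≤ C₁ * Real.exp 1 * (1 + Real.log Z) ^ (C₁ * Real.exp 1) := by positivity
    set g : Finset (Pl K) → ℝ := fun A => ((NA A : ℝ))⁻¹ * gA A ^ D with hg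
    have hg0 : ∀ A, 0 ≤ g A := fun A => by
      simp only [hg]
      unfold gA
      positivity
    by_cases hfin' : ({A : Finset (Pl K) | (NA A : ℝ) ≤ Z} ∩ Function.support g).Finite
    swap
    · rw [finsum_mem_eq_zero_of_infinite hfin']
      exact hR0
    rw [finsum_mem_eq_sum _ hfin']
    -- use the series at `s = 1 + 1 / (1 + log Z)`
    set s : ℝ := 1 + 1 / (1 + Real.log Z) with hs
    have h1Z : 0 < 1 + Real.log Z := by linarith
    have hs1 : 1 < s := by rw [hs]; have : 0 < 1 / (1 + Real.log Z) := by positivity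
                           linarith
    have hs2 : s ≤ 2 := by
      rw [hs]
      have : 1 / (1 + Real.log Z) ≤ 1 := by rw [div_le_one h1Z]; linarith
      linarith
    obtain ⟨hk1, hk2⟩ := key 1 le_rfl s hs1 hs2
    have hinv : 1 / (s - 1) = 1 + Real.log Z := by
      rw [hs]; simp
    have hterm : ∀ A ∈ hfin'.toFinset, g A ≤
        Real.exp 1 * ((((1 : ℕ) : ℝ) ^ A.card)⁻¹ * (NA A : ℝ) ^ (-s) * gA A ^ D) := by
      intro A hA
      rw [Set.Finite.mem_toFinset] at hA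
      have hNZ : (NA A : ℝ) ≤ Z := hA.1
      have hN1 : (1 : ℝ) ≤ (NA A : ℝ) := one_le_NA A
      have hN0 : (0 : ℝ) < (NA A : ℝ) := by linarith
      simp only [hg, Nat.cast_one, one_pow, inv_one, one_mul]
      rw [← mul_assoc]
      refine mul_le_mul_of_nonneg_right ?_ (by unfold gA; positivity)
      have h2 : ((NA A : ℝ))⁻¹ = (NA A : ℝ) ^ (s - 1) * (NA A : ℝ) ^ (-s) := by
        rw [← Real.rpow_add hN0, ← Real.rpow_neg_one]
        congr 1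
        ring
      rw [h2]
      refine mul_le_mul_of_nonneg_right ?_ (by positivity)
      rw [Real.rpow_def_of_pos hN0]
      apply Real.exp_le_exp.mpr
      have h3 : Real.log (NA A : ℝ) ≤ Real.log Z := Real.log_le_log hN0 hNZ
      have h4 : s - 1 = 1 / (1 + Real.log Z) := by rw [hs]; ring
      rw [h4, mul_one_div, div_le_one h1Z]
      linarith
    refine (Finset.sum_le_sum hterm).trans ?_
    rw [← Finset.mul_sum]
    have h5 : ∑ A ∈ hfin'.toFinset, ((((1 : ℕ) : ℝ) ^ A.card)⁻¹ * (NA A : ℝ) ^ (-s) * gA A ^ D) ≤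
        C₁ * (1 + Real.log Z) := by
      refine (hk1.sum_le_tsum _ fun A _ => by unfold gA; positivity).trans ?_
      refine hk2.trans (le_of_eq ?_)
      rw [hinv]
      simp
    calc Real.exp 1 * ∑ A ∈ hfin'.toFinset, ((((1 : ℕ) : ℝ) ^ A.card)⁻¹ * (NA A : ℝ) ^ (-s) *
          gA A ^ D) ≤ Real.exp 1 * (C₁ * (1 + Real.log Z)) :=
          mul_le_mul_of_nonneg_left h5 (by positivity)
      _ = C₁ * Real.exp 1 * (1 + Real.log Z) ^ (1 : ℝ) := by rw [Real.rpow_one]; ring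
      _ ≤ _ := by
          refine mul_le_mul_of_nonneg_left ?_ (by positivity)
          exact Real.rpow_le_rpow_of_exponent_le (by linarith) hC2

end Pool.Agent.T3h73.SD.MASS
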