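import Pool.Agent.T3h73.SD.Fam

/-!
Task AN1 of project SD (helper73): two large linked variables.
-/

set_option autoImplicit false

open NumberField IsDedekindDomain Filter Topology

namespace Pool.Agent.T3h73.SD.AN1

open Pool.Agent.T3h73.SL (Pl)
open Pool.Agent.T3h73.SD.Fam
open Pool.Agent.T3h73.SD.MASS (one_le_NA)

/-! ### A numerical series -/

/-- `∑ 2^(-i δ) (3+i)^C` is at most a power of `1/δ` -/
theorem phi_sum (C : ℝ) (_ : 0 < C) : ∃ (B : ℝ) (n : ℕ), 0 < B ∧ ∀ δ : ℝ, 0 < δ → δ ≤ 1 →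
    Summable (fun i : ℕ => ((2 : ℝ) ^ i) ^ (-δ) * (3 + i) ^ C) ∧
    ∑' i : ℕ, ((2 : ℝ) ^ i) ^ (-δ) * (3 + i) ^ C ≤ B * (1 / δ) ^ n := by
  set n : ℕ := ⌈C⌉₊ with hn
  have hl2 : 0 < Real.log 2 := Real.log_pos (by norm_num)
  have hl2' : Real.log 2 ≤ 1 := by have := Real.log_two_lt_d9; linarith
  refine ⟨2 * n.factorial * Real.exp 3 * (2 / Real.log 2) ^ (n + 1), n + 1, by positivity,
    fun δ hδ hδ1 => ?_⟩
  set η : ℝ := δ * Real.log 2 / 2 with hη
  have hη0 : 0 < η := by positivity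
  have hη1 : η ≤ 1 := by rw [hη]; nlinarith
  have hterm : ∀ i : ℕ, ((2 : ℝ) ^ i) ^ (-δ) * (3 + i) ^ C ≤
      (n.factorial * Real.exp 3 * (1 / η) ^ n) * (Real.exp (-η)) ^ i := by
    intro i
    have h1 : (3 + (i : ℝ)) ^ C ≤ (3 + (i : ℝ)) ^ n := by
      rw [← Real.rpow_natCast]
      exact Real.rpow_le_rpow_of_exponent_le (by have : (0 : ℝ) ≤ i := Nat.cast_nonneg i
                                                 linarith) (Nat.le_ceil C)
    have h2 : (3 + (i : ℝ)) ^ n ≤ n.factorial * (1 / η) ^ n * Real.exp ((3 + i) * η) := by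
      have h3 := Real.pow_div_factorial_le_exp ((3 + (i : ℝ)) * η) (by positivity) n
      rw [div_le_iff₀ (by positivity), mul_pow] at h3
      have h4 : (3 + (i : ℝ)) ^ n = (3 + (i : ℝ)) ^ n * η ^ n * (1 / η) ^ n := by
        rw [mul_assoc, ← mul_pow]
        have : η * (1 / η) = 1 := by field_simp
        rw [this, one_pow, mul_one]
      rw [h4]
      calc (3 + (i : ℝ)) ^ n * η ^ n * (1 / η) ^ n
          ≤ (Real.exp ((3 + (i : ℝ)) * η) * n.factorial) * (1 / η) ^ n :=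
            mul_le_mul_of_nonneg_right h3 (by positivity)
        _ = _ := by ring
    have h5 : ((2 : ℝ) ^ i) ^ (-δ) = Real.exp (-(2 * η * i)) := by
      rw [Real.rpow_def_of_pos (by positivity), Real.log_pow]
      congr 1
      rw [hη]; ring
    have h6 : Real.exp ((3 + i) * η) ≤ Real.exp 3 * Real.exp (η * i) := by
      rw [← Real.exp_add]
      apply Real.exp_le_exp.mpr
      nlinarith
    have h7 : (Real.exp (-η)) ^ i = Real.exp (-(η * i)) := by
      rw [← Real.exp_nat_mul]; congr 1; ring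
    calc ((2 : ℝ) ^ i) ^ (-δ) * (3 + i) ^ C
        ≤ Real.exp (-(2 * η * i)) * (n.factorial * (1 / η) ^ n *
          (Real.exp 3 * Real.exp (η * i))) := by
          rw [h5]
          refine mul_le_mul_of_nonneg_left ?_ (Real.exp_pos _).le
          exact h1.trans (h2.trans (mul_le_mul_of_nonneg_left h6 (by positivity)))
      _ = (n.factorial * Real.exp 3 * (1 / η) ^ n) *
          (Real.exp (-(2 * η * i)) * Real.exp (η * i)) := by ring
      _ = _ := by
          rw [← Real.exp_add, h7]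
          congr 2
          ring
  have he1 : Real.exp (-η) < 1 := by rw [Real.exp_lt_one_iff]; linarith
  have hgeo := summable_geometric_of_lt_one (Real.exp_pos (-η)).le he1
  have hs : Summable (fun i : ℕ => ((2 : ℝ) ^ i) ^ (-δ) * (3 + i) ^ C) :=
    Summable.of_nonneg_of_le (fun i => by positivity) hterm (hgeo.mul_left _)
  refine ⟨hs, ?_⟩
  refine (Summable.tsum_le_tsum hterm hs (hgeo.mul_left _)).trans ?_
  rw [tsum_mul_left, tsum_geometric_of_lt_one (Real.exp_pos (-η)).le he1]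
  have h8 : (1 - Real.exp (-η))⁻¹ ≤ 2 * (1 / η) := by
    have h9 : η / 2 ≤ 1 - Real.exp (-η) := by
      have h10 := Real.add_one_le_exp η
      have h11 : Real.exp (-η) = (Real.exp η)⁻¹ := Real.exp_neg η
      have h12 : (Real.exp η)⁻¹ ≤ (η + 1)⁻¹ := inv_anti₀ (by linarith) h10
      have h13 : (η + 1)⁻¹ ≤ 1 - η / 2 := by
        rw [inv_le_iff_one_le_mul₀ (by linarith)]
        nlinarith
      linarith
    calc (1 - Real.exp (-η))⁻¹ ≤ (η / 2)⁻¹ := inv_anti₀ (by linarith) h9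
      _ = 2 * (1 / η) := by field_simp
  calc (n.factorial * Real.exp 3 * (1 / η) ^ n) * (1 - Real.exp (-η))⁻¹
      ≤ (n.factorial * Real.exp 3 * (1 / η) ^ n) * (2 * (1 / η)) :=
        mul_le_mul_of_nonneg_left h8 (by positivity)
    _ = 2 * n.factorial * Real.exp 3 * (1 / η) ^ (n + 1) := by rw [pow_succ]; ring
    _ = _ := by
        have : 1 / η = (2 / Real.log 2) * (1 / δ) := by rw [hη]; field_simp
        rw [this, mul_pow]
        ring

/-! ### The double sum -/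

section
variable {K : Type} [Field K] [NumberField K]

theorem NA_fin (n : ℕ) : {A : Finset (Pl K) | NA A < n}.Finite := by
  obtain ⟨C, -, h, -⟩ := MASS.t_MASS K 1 0 le_rfl le_rfl
  have hs := (h 2 (by norm_num) le_rfl).1
  have h1 := hs.tendsto_cofinite_zero
  rcases Nat.eq_zero_or_pos n with rfl | hn
  · simp
  have hn0 : (0 : ℝ) < n := by exact_mod_cast hn
  have h2 := h1.eventually (gt_mem_nhds (show (0 : ℝ) < (n : ℝ) ^ (-(2 : ℝ)) by positivity))
  rw [Filter.eventually_cofinite] at h2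
  refine h2.subset fun A hA => ?_
  have hA' : NA A < n := hA
  simp only [Set.mem_ofPred_eq, not_lt]
  have hN1 := one_le_NA A
  have h3 : (NA A : ℝ) ≤ n := by exact_mod_cast hA'.le
  rw [Nat.cast_one, one_pow, one_mul, Real.rpow_zero, mul_one]
  exact Real.rpow_le_rpow_of_nonpos (by linarith) h3 (by norm_num)

open Classical in
/-- the term of the double sum -/
noncomputable def dbl {ℓ : ℕ} (sy : Pl K → Pl K → ZMod ℓ) (j : ZMod ℓ)
    (α β : Finset (Pl K) → ℂ) (p : Finset (Pl K) × Finset (Pl K)) : ℂ :=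
  if Disjoint p.1 p.2 then α p.1 * β p.2 * ee ℓ (j * syA sy p.1 p.2) else 0

theorem norm_dbl_le {ℓ : ℕ} (sy : Pl K → Pl K → ZMod ℓ) (j : ZMod ℓ)
    (α β : Finset (Pl K) → ℂ) (p : Finset (Pl K) × Finset (Pl K)) :
    ‖dbl sy j α β p‖ ≤ ‖α p.1‖ * ‖β p.2‖ := by
  unfold dbl
  split_ifs
  · rw [norm_mul, norm_mul, norm_ee, mul_one]
  · rw [norm_zero]; positivity

open Classical in
/-- the conclusion of BL for one `ℓ`, `K`, `S`, `sy` -/
def BLc (ℓ : ℕ) (S : Finset (Pl K)) (sy : Pl K → Pl K → ZMod ℓ) (C θ : ℝ) : Prop :=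
  ∀ M N : ℝ, 1 ≤ M → 1 ≤ N → ∀ 𝒜 ℬ : Finset (Finset (Pl K)),
  (∀ A ∈ 𝒜, Disjoint A S ∧ (NA A : ℝ) ≤ M) → (∀ B ∈ ℬ, Disjoint B S ∧ (NA B : ℝ) ≤ N) →
  ∀ α β : Finset (Pl K) → ℂ, (∀ A, ‖α A‖ ≤ 1) → (∀ B, ‖β B‖ ≤ 1) → ∀ j : ZMod ℓ, j ≠ 0 →
  ‖∑ A ∈ 𝒜, ∑ B ∈ ℬ, if Disjoint A B then α A * β B * ee ℓ (j * syA sy A B) else 0‖ ≤
    C * M * N * (min M N) ^ (-θ) * (1 + Real.log M + Real.log N) ^ C

open Classical in
/-- one dyadic block -/
theorem block {ℓ : ℕ} {S : Finset (Pl K)} {sy : Pl K → Pl K → ZMod ℓ} {C θ : ℝ} (hC : 0 < C)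
    (hθ : 0 < θ) (hBL : BLc ℓ S sy C θ) {j : ZMod ℓ} (hj : j ≠ 0) {s Z : ℝ} (hs : 1 < s)
    (hZ : 1 ≤ Z) {α β : Finset (Pl K) → ℂ} (hα : ∀ A, ‖α A‖ ≤ (NA A : ℝ) ^ (-s))
    (hβ : ∀ A, ‖β A‖ ≤ (NA A : ℝ) ^ (-s)) (hα' : ∀ A, α A ≠ 0 → Disjoint A S ∧ Z < (NA A : ℝ))
    (hβ' : ∀ A, β A ≠ 0 → Disjoint A S ∧ Z < (NA A : ℝ)) (i k : ℕ)
    (𝒜 ℬ : Finset (Finset (Pl K))) (h𝒜 : ∀ A ∈ 𝒜, Nat.log 2 (NA A) = i)
    (hℬ : ∀ A ∈ ℬ, Nat.log 2 (NA A) = k) :
    ‖∑ A ∈ 𝒜, ∑ B ∈ ℬ, dbl sy j α β (A, B)‖ ≤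
      (4 * C * Z ^ (-θ)) * ((((2 : ℝ) ^ i) ^ (-(s - 1)) * (3 + i) ^ C) *
        (((2 : ℝ) ^ k) ^ (-(s - 1)) * (3 + k) ^ C)) := by
  have hR0 : 0 ≤ (4 * C * Z ^ (-θ)) * ((((2 : ℝ) ^ i) ^ (-(s - 1)) * (3 + i) ^ C) *
        (((2 : ℝ) ^ k) ^ (-(s - 1)) * (3 + k) ^ C)) := by positivity
  have hNA0 : ∀ A : Finset (Pl K), NA A ≠ 0 := by
    intro A h0
    have := one_le_NA A
    rw [h0] at this
    norm_num at this
  have hlt : ∀ (A : Finset (Pl K)) (i : ℕ), Nat.log 2 (NA A) = i → (NA A : ℝ) < 2 ^ (i + 1) := by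
    intro A i h
    have := Nat.lt_pow_succ_log_self (b := 2) (by norm_num) (NA A)
    rw [h] at this
    exact_mod_cast this
  have hge : ∀ (A : Finset (Pl K)) (i : ℕ), Nat.log 2 (NA A) = i → (2 : ℝ) ^ i ≤ (NA A : ℝ) := by
    intro A i h
    have := Nat.pow_log_le_self 2 (hNA0 A)
    rw [h] at this
    exact_mod_cast this
  -- vanishing blocks
  by_cases hiZ : (2 : ℝ) ^ (i + 1) ≤ Z
  · have hz : ∑ A ∈ 𝒜, ∑ B ∈ ℬ, dbl sy j α β (A, B) = 0 := by
      refine Finset.sum_eq_zero fun A hA => Finset.sum_eq_zero fun B _ => ?_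
      have h0 : α A = 0 := by
        by_contra h0
        have h1 := (hα' A h0).2
        have h2 := hlt A i (h𝒜 A hA)
        linarith
      unfold dbl
      rw [h0]; simp
    rw [hz, norm_zero]; exact hR0
  by_cases hkZ : (2 : ℝ) ^ (k + 1) ≤ Z
  · have hz : ∑ A ∈ 𝒜, ∑ B ∈ ℬ, dbl sy j α β (A, B) = 0 := by
      refine Finset.sum_eq_zero fun A _ => Finset.sum_eq_zero fun B hB => ?_
      have h0 : β B = 0 := by
        by_contra h0
        have h1 := (hβ' B h0).2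
        have h2 := hlt B k (hℬ B hB)
        linarith
      unfold dbl
      rw [h0]; simp
    rw [hz, norm_zero]; exact hR0
  have hiZ' := not_le.mp hiZ
  have hkZ' := not_le.mp hkZ
  -- normalised coefficients
  set α' : Finset (Pl K) → ℂ := fun A => if A ∈ 𝒜 then ((((2 : ℝ) ^ i) ^ s : ℝ) : ℂ) * α A else 0
    with hα''
  set β' : Finset (Pl K) → ℂ := fun A => if A ∈ ℬ then ((((2 : ℝ) ^ k) ^ s : ℝ) : ℂ) * β A else 0
    with hβ''
  have nrm : ∀ (γ : Finset (Pl K) → ℂ), (∀ A, ‖γ A‖ ≤ (NA A : ℝ) ^ (-s)) → ∀ (i : ℕ)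
      (A : Finset (Pl K)), Nat.log 2 (NA A) = i → ‖((((2 : ℝ) ^ i) ^ s : ℝ) : ℂ) * γ A‖ ≤ 1 := by
    intro γ hγ i A hA
    rw [norm_mul, Complex.norm_real, Real.norm_eq_abs, abs_of_nonneg (by positivity)]
    have hN1 := one_le_NA A
    have hN0 : (0 : ℝ) < (NA A : ℝ) := by linarith
    have h1 : ((2 : ℝ) ^ i) ^ s ≤ (NA A : ℝ) ^ s :=
      Real.rpow_le_rpow (by positivity) (hge A i hA) (by linarith)
    calc ((2 : ℝ) ^ i) ^ s * ‖γ A‖ ≤ (NA A : ℝ) ^ s * (NA A : ℝ) ^ (-s) :=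
          mul_le_mul h1 (hγ A) (norm_nonneg _) (by positivity)
      _ = 1 := by rw [← Real.rpow_add hN0, add_neg_cancel, Real.rpow_zero]
  have hα1 : ∀ A, ‖α' A‖ ≤ 1 := by
    intro A
    simp only [hα'']
    split_ifs with h
    · exact nrm α hα i A (h𝒜 A h)
    · simp
  have hβ1 : ∀ A, ‖β' A‖ ≤ 1 := by
    intro A
    simp only [hβ'']
    split_ifs with h
    · exact nrm β hβ k A (hℬ A h)
    · simp
  have h2i : (1 : ℝ) ≤ 2 ^ (i + 1) := one_le_pow₀ (by norm_num)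
  have h2k : (1 : ℝ) ≤ 2 ^ (k + 1) := one_le_pow₀ (by norm_num)
  have hmain := hBL (2 ^ (i + 1)) (2 ^ (k + 1)) h2i h2k (𝒜.filter (fun A => Disjoint A S))
    (ℬ.filter (fun A => Disjoint A S))
    (fun A hA => ⟨(Finset.mem_filter.mp hA).2, (hlt A i (h𝒜 A (Finset.mem_filter.mp hA).1)).le⟩)
    (fun A hA => ⟨(Finset.mem_filter.mp hA).2, (hlt A k (hℬ A (Finset.mem_filter.mp hA).1)).le⟩)
    α' β' hα1 hβ1 j hj
  have hc0 : ((((2 : ℝ) ^ i) ^ s : ℝ) : ℂ) ≠ 0 := by
    rw [Ne, Complex.ofReal_eq_zero]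
    positivity
  have hd0 : ((((2 : ℝ) ^ k) ^ s : ℝ) : ℂ) ≠ 0 := by
    rw [Ne, Complex.ofReal_eq_zero]
    positivity
  -- relation of the sums
  have hrel : (((((2 : ℝ) ^ i) ^ s : ℝ) : ℂ) * ((((2 : ℝ) ^ k) ^ s : ℝ) : ℂ)) *
      ∑ A ∈ 𝒜, ∑ B ∈ ℬ, dbl sy j α β (A, B) =
      ∑ A ∈ 𝒜.filter (fun A => Disjoint A S), ∑ B ∈ ℬ.filter (fun A => Disjoint A S),
        if Disjoint A B then α' A * β' B * ee ℓ (j * syA sy A B) else 0 := by
    rw [Finset.sum_filter, Finset.mul_sum]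
    refine Finset.sum_congr rfl fun A hA => ?_
    by_cases hAS : Disjoint A S
    · rw [if_pos hAS, Finset.sum_filter, Finset.mul_sum]
      refine Finset.sum_congr rfl fun B hB => ?_
      by_cases hBS : Disjoint B S
      · rw [if_pos hBS]
        unfold dbl
        by_cases hAB : Disjoint A B
        · rw [if_pos hAB, if_pos hAB]
          simp only [hα'', hβ'', if_pos hA, if_pos hB]
          ring
        · rw [if_neg hAB, if_neg hAB, mul_zero]
      · rw [if_neg hBS]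
        have h0 : β B = 0 := by
          by_contra h0
          exact hBS (hβ' B h0).1
        unfold dbl
        rw [h0]; simp
    · rw [if_neg hAS]
      have h0 : α A = 0 := by
        by_contra h0
        exact hAS (hα' A h0).1
      have : ∑ B ∈ ℬ, dbl sy j α β (A, B) = 0 := by
        refine Finset.sum_eq_zero fun B _ => ?_
        unfold dbl
        rw [h0]; simp
      rw [this, mul_zero]
  have hnorm : ((2 : ℝ) ^ i) ^ s * ((2 : ℝ) ^ k) ^ s *
      ‖∑ A ∈ 𝒜, ∑ B ∈ ℬ, dbl sy j α β (A, B)‖ ≤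
      C * 2 ^ (i + 1) * 2 ^ (k + 1) * (min (2 ^ (i + 1)) (2 ^ (k + 1))) ^ (-θ) *
        (1 + Real.log (2 ^ (i + 1)) + Real.log (2 ^ (k + 1))) ^ C := by
    rw [← hrel, norm_mul, norm_mul, Complex.norm_real, Complex.norm_real, Real.norm_eq_abs,
      Real.norm_eq_abs, abs_of_nonneg (by positivity), abs_of_nonneg (by positivity)] at hmain
    exact hmain
  have hmin : (min ((2 : ℝ) ^ (i + 1)) (2 ^ (k + 1))) ^ (-θ) ≤ Z ^ (-θ) :=
    Real.rpow_le_rpow_of_nonpos (by linarith) (le_min hiZ'.le hkZ'.le) (by linarith)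
  have hlog : (1 + Real.log ((2 : ℝ) ^ (i + 1)) + Real.log (2 ^ (k + 1))) ^ C ≤
      (3 + (i : ℝ)) ^ C * (3 + (k : ℝ)) ^ C := by
    rw [← Real.mul_rpow (by positivity) (by positivity)]
    refine Real.rpow_le_rpow ?_ ?_ hC.le
    · have h1 := Real.log_nonneg h2i
      have h2 := Real.log_nonneg h2k
      linarith
    · rw [Real.log_pow, Real.log_pow]
      have hl2' : Real.log 2 ≤ 1 := by have := Real.log_two_lt_d9; linarith
      have hi0 : (0 : ℝ) ≤ i := Nat.cast_nonneg i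
      have hk0 : (0 : ℝ) ≤ k := Nat.cast_nonneg k
      push_cast
      nlinarith [mul_nonneg hi0 hk0]
  have e1 : ∀ i : ℕ, ((2 : ℝ) ^ i) ^ s * ((2 : ℝ) ^ i) ^ (-(s - 1)) = 2 ^ i := by
    intro i
    rw [← Real.rpow_add (by positivity)]
    have : s + -(s - 1) = 1 := by ring
    rw [this, Real.rpow_one]
  have hpos : 0 < ((2 : ℝ) ^ i) ^ s * ((2 : ℝ) ^ k) ^ s := by positivity
  rw [← mul_le_mul_iff_right₀ hpos]
  refine hnorm.trans ?_
  calc C * 2 ^ (i + 1) * 2 ^ (k + 1) * (min ((2 : ℝ) ^ (i + 1)) (2 ^ (k + 1))) ^ (-θ) *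
        (1 + Real.log ((2 : ℝ) ^ (i + 1)) + Real.log (2 ^ (k + 1))) ^ C
      ≤ C * 2 ^ (i + 1) * 2 ^ (k + 1) * Z ^ (-θ) * ((3 + (i : ℝ)) ^ C * (3 + (k : ℝ)) ^ C) := by
        refine mul_le_mul ?_ hlog (Real.rpow_nonneg (by
          have h1 := Real.log_nonneg h2i
          have h2 := Real.log_nonneg h2k
          linarith) _) (by positivity)
        exact mul_le_mul_of_nonneg_left hmin (by positivity)
    _ = (4 * C * Z ^ (-θ)) * ((2 ^ i * (3 + (i : ℝ)) ^ C) * (2 ^ k * (3 + (k : ℝ)) ^ C)) := by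
        rw [pow_succ, pow_succ]; ring
    _ = _ := by
        have hi := e1 i
        have hk := e1 k
        generalize ((2 : ℝ) ^ i) ^ s = u1 at hi ⊢
        generalize ((2 : ℝ) ^ i) ^ (-(s - 1)) = u2 at hi ⊢
        generalize ((2 : ℝ) ^ k) ^ s = u3 at hk ⊢
        generalize ((2 : ℝ) ^ k) ^ (-(s - 1)) = u4 at hk ⊢
        generalize (3 + (i : ℝ)) ^ C = w1
        generalize (3 + (k : ℝ)) ^ C = w2
        generalize Z ^ (-θ) = z
        rw [← hi, ← hk]; ring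

open Classical in
theorem inner {ℓ : ℕ} {S : Finset (Pl K)} {sy : Pl K → Pl K → ZMod ℓ} {C θ : ℝ} (hC : 0 < C)
    (hθ : 0 < θ) (hBL : BLc ℓ S sy C θ) {j : ZMod ℓ} (hj : j ≠ 0) {s Z : ℝ} (hs : 1 < s)
    (hZ : 1 ≤ Z) (hsum : Summable (fun A : Finset (Pl K) => (NA A : ℝ) ^ (-s)))
    {α β : Finset (Pl K) → ℂ} (hα : ∀ A, ‖α A‖ ≤ (NA A : ℝ) ^ (-s))
    (hβ : ∀ A, ‖β A‖ ≤ (NA A : ℝ) ^ (-s)) (hα' : ∀ A, α A ≠ 0 → Disjoint A S ∧ Z < (NA A : ℝ))
    (hβ' : ∀ A, β A ≠ 0 → Disjoint A S ∧ Z < (NA A : ℝ))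
    (hφ : Summable (fun i : ℕ => ((2 : ℝ) ^ i) ^ (-(s - 1)) * (3 + i) ^ C)) :
    ‖∑' p, dbl sy j α β p‖ ≤ (4 * C * Z ^ (-θ)) *
      (∑' i : ℕ, ((2 : ℝ) ^ i) ^ (-(s - 1)) * (3 + i) ^ C) ^ 2 := by
  have hsm : Summable (dbl sy j α β) := by
    have h1 := hsum.mul_of_nonneg hsum (fun A => by positivity) (fun A => by positivity)
    refine Summable.of_norm_bounded h1 fun p => ?_
    refine (norm_dbl_le sy j α β p).trans ?_
    exact mul_le_mul (hα _) (hβ _) (norm_nonneg _) (by positivity)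
  set φ : ℕ → ℝ := fun i : ℕ => ((2 : ℝ) ^ i) ^ (-(s - 1)) * (3 + i) ^ C with hφdef
  have hφ0 : ∀ i, 0 ≤ φ i := fun i => by simp only [hφdef]; positivity
  set g : Finset (Pl K) × Finset (Pl K) → ℕ × ℕ := fun p =>
    (Nat.log 2 (NA p.1), Nat.log 2 (NA p.2)) with hg
  have hfib := hsm.hasSum.tsum_fiberwise g
  have hprod := hφ.mul_of_nonneg hφ hφ0 hφ0
  have hprod' := hφ.tsum_mul_tsum hφ hprod
  rw [← hfib.tsum_eq]
  have hb := (hprod.mul_left (4 * C * Z ^ (-θ))).hasSum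
  rw [tsum_mul_left, ← hprod', ← pow_two] at hb
  refine tsum_of_norm_bounded hb fun c => ?_
  obtain ⟨i, k⟩ := c
  -- the fibre
  set 𝒜 : ℕ → Finset (Finset (Pl K)) := fun i =>
    (NA_fin (K := K) (2 ^ (i + 1))).toFinset.filter (fun A => Nat.log 2 (NA A) = i) with h𝒜
  have hmem : ∀ i (A : Finset (Pl K)), A ∈ 𝒜 i ↔ Nat.log 2 (NA A) = i := by
    intro i A
    simp only [h𝒜, Finset.mem_filter, Set.Finite.mem_toFinset, Set.mem_ofPred_eq]
    constructor
    · rintro ⟨-, h⟩; exact h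
    · intro h
      refine ⟨?_, h⟩
      have := Nat.lt_pow_succ_log_self (b := 2) (by norm_num) (NA A)
      rw [h] at this
      exact this
  have hset : g ⁻¹' {(i, k)} = ((𝒜 i ×ˢ 𝒜 k : Finset _) : Set (Finset (Pl K) × Finset (Pl K))) := by
    ext p
    simp only [Set.mem_preimage, Set.mem_singleton_iff, hg, Prod.mk.injEq, Finset.coe_product,
      Set.mem_prod, Finset.mem_coe, hmem]
  have hsumeq : ∑' p : g ⁻¹' {(i, k)}, dbl sy j α β p =
      ∑ A ∈ 𝒜 i, ∑ B ∈ 𝒜 k, dbl sy j α β (A, B) := by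
    rw [hset, Finset.tsum_subtype' (𝒜 i ×ˢ 𝒜 k) (dbl sy j α β), Finset.sum_product]
  rw [hsumeq]
  exact block hC hθ hBL hj hs hZ hα hβ hα' hβ' i k (𝒜 i) (𝒜 k) (fun A hA => (hmem i A).mp hA)
    (fun A hA => (hmem k A).mp hA)

end

/-! ### Families glued from two sets and the rest -/

section glue

variable {C T : Type}

open Classical in
/-- families glued from two sets and the rest -/
noncomputable def glue (a b : C) (X Y : T) (r : {c : C // c ≠ a ∧ c ≠ b} → T) (c : C) : T :=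
  if ha : c = a then X else if hb : c = b then Y else r ⟨c, ha, hb⟩

theorem glue_a (a b : C) (X Y : T) (r : {c : C // c ≠ a ∧ c ≠ b} → T) : glue a b X Y r a = X := by
  unfold glue; rw [dif_pos rfl]

theorem glue_b {a b : C} (hab : a ≠ b) (X Y : T) (r : {c : C // c ≠ a ∧ c ≠ b} → T) :
    glue a b X Y r b = Y := by
  unfold glue; rw [dif_neg (Ne.symm hab), dif_pos rfl]

theorem glue_d {a b : C} (X Y : T) (r : {c : C // c ≠ a ∧ c ≠ b} → T) (c : C) (ha : c ≠ a)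
    (hb : c ≠ b) : glue a b X Y r c = r ⟨c, ha, hb⟩ := by
  unfold glue; rw [dif_neg ha, dif_neg hb]

/-- the equivalence -/
noncomputable def glueE {a b : C} (hab : a ≠ b) :
    ({c : C // c ≠ a ∧ c ≠ b} → T) × (T × T) ≃ (C → T) where
  toFun p := glue a b p.2.1 p.2.2 p.1
  invFun A := (fun d => A d.1, (A a, A b))
  left_inv p := by
    obtain ⟨r, X, Y⟩ := p
    simp only [Prod.mk.injEq]
    refine ⟨?_, glue_a a b X Y r, glue_b hab X Y r⟩
    funext d
    exact glue_d X Y r d.1 d.2.1 d.2.2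
  right_inv A := by
    funext c
    by_cases ha : c = a
    · subst ha; exact glue_a _ _ _ _ _
    by_cases hb : c = b
    · subst hb; exact glue_b hab _ _ _
    exact glue_d _ _ _ c ha hb

open Classical in
theorem prod_split [Fintype C] {M : Type} [CommMonoid M] {a b : C} (hab : a ≠ b) (g : C → M) :
    ∏ c, g c = g a * g b * ∏ d : {c : C // c ≠ a ∧ c ≠ b}, g d.1 := by
  have h1 : ∏ d : {c : C // c ≠ a ∧ c ≠ b}, g d.1 =
      ∏ c ∈ Finset.univ.filter (fun c => c ≠ a ∧ c ≠ b), g c :=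
    (Finset.prod_subtype _ (by simp) g).symm
  rw [h1, ← Finset.mul_prod_erase Finset.univ g (Finset.mem_univ a),
    ← Finset.mul_prod_erase (Finset.univ.erase a) g
      (Finset.mem_erase.mpr ⟨Ne.symm hab, Finset.mem_univ b⟩), ← mul_assoc]
  congr 1
  refine Finset.prod_congr ?_ fun _ _ => rfl
  ext c
  simp only [Finset.mem_erase, Finset.mem_univ, and_true, Finset.mem_filter, true_and]
  tauto

end glue

theorem ee_add (ℓ : ℕ) (hℓ : ℓ.Prime) (x y : ZMod ℓ) : ee ℓ (x + y) = ee ℓ x * ee ℓ y := by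
  have : NeZero ℓ := ⟨hℓ.ne_zero⟩
  have hℓ0 : (ℓ : ℂ) ≠ 0 := by exact_mod_cast hℓ.ne_zero
  unfold ee
  rw [← Complex.exp_add, ZMod.val_add]
  have h1 := Nat.mod_add_div (x.val + y.val) ℓ
  obtain ⟨q, hq⟩ : ∃ q, q = (x.val + y.val) / ℓ := ⟨_, rfl⟩
  rw [← hq] at h1
  have h2 : (((x.val + y.val) % ℓ : ℕ) : ℂ) = (x.val : ℂ) + y.val - ℓ * (q : ℂ) := by
    have h3 : (((x.val + y.val) % ℓ + ℓ * q : ℕ) : ℂ) = ((x.val + y.val : ℕ) : ℂ) := by rw [h1]
    rw [Nat.cast_add, Nat.cast_mul, Nat.cast_add x.val] at h3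
    rw [← h3]; ring
  rw [h2, Complex.exp_eq_exp_iff_exists_int]
  refine ⟨-(q : ℤ), ?_⟩
  push_cast
  field_simp
  ring

section expo
variable {K : Type} [Field K] [NumberField K]

theorem syA_empty_left {ℓ : ℕ} (sy : Pl K → Pl K → ZMod ℓ) (B : Finset (Pl K)) :
    syA sy ∅ B = 0 := by unfold syA; simp

theorem syA_empty_right {ℓ : ℕ} (sy : Pl K → Pl K → ZMod ℓ) (B : Finset (Pl K)) :
    syA sy B ∅ = 0 := by unfold syA; simp

open Classical in
/-- the exponent of a family -/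
noncomputable def expo {ℓ : ℕ} {Λ : Type} (χ : Λ → Pl K → ZMod ℓ) (sy : Pl K → Pl K → ZMod ℓ)
    {C : Type} [Fintype C] (R : C → C → ZMod ℓ) (h : C → Λ) (A : C → Finset (Pl K)) : ZMod ℓ :=
  ∑ c, ∑ q ∈ A c, χ (h c) q + ∑ c, ∑ c', if c = c' then 0 else R c c' * syA sy (A c) (A c')

open Classical in
theorem expo_mixed {ℓ : ℕ} {Λ : Type} (χ : Λ → Pl K → ZMod ℓ) (sy : Pl K → Pl K → ZMod ℓ)
    {C : Type} [Fintype C] (R : C → C → ZMod ℓ) (h : C → Λ) {a b : C} (hab : a ≠ b)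
    (X Y : Finset (Pl K)) (r : {c : C // c ≠ a ∧ c ≠ b} → Finset (Pl K)) :
    expo χ sy R h (glue a b X Y r) = expo χ sy R h (glue a b ∅ ∅ r) +
      (expo χ sy R h (glue a b X ∅ r) - expo χ sy R h (glue a b ∅ ∅ r)) +
      (expo χ sy R h (glue a b ∅ Y r) - expo χ sy R h (glue a b ∅ ∅ r)) +
      (R a b * syA sy X Y + R b a * syA sy Y X) := by
  -- the linear part
  have hL : ∀ c, (∑ q ∈ glue a b X Y r c, χ (h c) q) - (∑ q ∈ glue a b X ∅ r c, χ (h c) q) -
      (∑ q ∈ glue a b ∅ Y r c, χ (h c) q) + (∑ q ∈ glue a b ∅ ∅ r c, χ (h c) q) = 0 := by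
    intro c
    by_cases ha : c = a
    · subst ha
      simp only [glue_a]
      ring
    by_cases hb : c = b
    · subst hb
      simp only [glue_b hab]
      ring
    · simp only [glue_d _ _ r c ha hb]
      ring
  have hQ : ∀ c c', (if c = c' then 0 else R c c' * syA sy (glue a b X Y r c) (glue a b X Y r c')) -
      (if c = c' then 0 else R c c' * syA sy (glue a b X ∅ r c) (glue a b X ∅ r c')) -
      (if c = c' then 0 else R c c' * syA sy (glue a b ∅ Y r c) (glue a b ∅ Y r c')) +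
      (if c = c' then 0 else R c c' * syA sy (glue a b ∅ ∅ r c) (glue a b ∅ ∅ r c')) =
      (if c = a then (if c' = b then R a b * syA sy X Y else 0) else 0) +
      (if c = b then (if c' = a then R b a * syA sy Y X else 0) else 0) := by
    intro c c'
    have hba : b ≠ a := Ne.symm hab
    by_cases ha : c = a
    · subst ha
      by_cases ha' : c' = c
      · subst ha'
        simp [hab]
      by_cases hb' : c' = b
      · subst hb'
        simp [hab, glue_a, glue_b hab, syA_empty_left, syA_empty_right]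
      · simp only [glue_a, glue_d _ _ r c' ha' hb', if_neg (Ne.symm ha'), if_neg hb', if_neg hab,
          if_true]
        ring
    by_cases hb : c = b
    · subst hb
      by_cases ha' : c' = a
      · subst ha'
        simp [hba, glue_a, glue_b hab, syA_empty_left, syA_empty_right]
      by_cases hb' : c' = c
      · subst hb'
        simp [hba]
      · simp only [glue_b hab, glue_d _ _ r c' ha' hb', if_neg (Ne.symm hb'), if_neg ha',
          if_neg hba, if_true]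
        ring
    · by_cases hcc : c = c'
      · simp [hcc] at ha hb ⊢
        simp [ha, hb]
      rw [if_neg ha, if_neg hb, if_neg hcc, if_neg hcc, if_neg hcc, if_neg hcc]
      by_cases ha' : c' = a
      · subst ha'
        simp only [glue_a, glue_d _ _ r c ha hb]
        ring
      by_cases hb' : c' = b
      · subst hb'
        simp only [glue_b hab, glue_d _ _ r c ha hb]
        ring
      · simp only [glue_d _ _ r c ha hb, glue_d _ _ r c' ha' hb']
        ring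
  have hL' := Finset.sum_congr (rfl : (Finset.univ : Finset C) = Finset.univ) fun c _ => hL c
  have hQ' := Finset.sum_congr (rfl : (Finset.univ : Finset C) = Finset.univ) fun c _ =>
    Finset.sum_congr (rfl : (Finset.univ : Finset C) = Finset.univ) fun c' _ => hQ c c'
  simp only [Finset.sum_add_distrib, Finset.sum_sub_distrib, Finset.sum_const_zero,
    Finset.sum_ite_eq', Finset.mem_univ, if_true, Finset.sum_ite_irrel] at hL' hQ'
  unfold expo
  linear_combination hL' + hQ'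

theorem syA_symm {ℓ : ℕ} {S : Finset (Pl K)} {sy : Pl K → Pl K → ZMod ℓ}
    (hsym : ∀ p q, p ∉ S → q ∉ S → p ≠ q → sy p q = sy q p) {X Y : Finset (Pl K)}
    (hX : Disjoint X S) (hY : Disjoint Y S) (hXY : Disjoint X Y) : syA sy Y X = syA sy X Y := by
  unfold syA
  rw [Finset.sum_comm]
  refine Finset.sum_congr rfl fun x hx => Finset.sum_congr rfl fun y hy => ?_
  refine hsym y x (fun h => ?_) (fun h => ?_) (fun h => ?_)
  · exact Finset.disjoint_left.mp hY hy h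
  · exact Finset.disjoint_left.mp hX hx h
  · subst h
    exact Finset.disjoint_left.mp hXY hx hy

/-- the conditions on the rest -/
def Adm {C : Type} (S : Finset (Pl K)) (W : Finset C) (Z : ℝ) (a b : C)
    (r : {c : C // c ≠ a ∧ c ≠ b} → Finset (Pl K)) : Prop :=
  (∀ d, Disjoint (r d) S) ∧ (∀ d d', d ≠ d' → Disjoint (r d) (r d')) ∧
    ∀ d, d.1 ∈ W ↔ Z < (NA (r d) : ℝ)

/-- the conditions on one of the two sets -/
def Ok {D : Type} (S : Finset (Pl K)) (Z : ℝ) (r : D → Finset (Pl K)) (X : Finset (Pl K)) : Prop :=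
  Disjoint X S ∧ (∀ d, Disjoint X (r d)) ∧ Z < (NA X : ℝ)

theorem tup_glue {C : Type} (S : Finset (Pl K)) (W : Finset C) (Z : ℝ) {a b : C} (hab : a ≠ b)
    (haW : a ∈ W) (hbW : b ∈ W) (X Y : Finset (Pl K))
    (r : {c : C // c ≠ a ∧ c ≠ b} → Finset (Pl K)) :
    (Tup S (glue a b X Y r) ∧ ∀ c, c ∈ W ↔ Z < (NA (glue a b X Y r c) : ℝ)) ↔
      Adm S W Z a b r ∧ Ok S Z r X ∧ Ok S Z r Y ∧ Disjoint X Y := by
  have hba : b ≠ a := Ne.symm hab
  constructor
  · rintro ⟨⟨h1, h2⟩, h3⟩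
    have ea := glue_a a b X Y r
    have eb := glue_b hab X Y r
    have ed : ∀ d : {c : C // c ≠ a ∧ c ≠ b}, glue a b X Y r d.1 = r d := fun d =>
      glue_d X Y r d.1 d.2.1 d.2.2
    refine ⟨⟨fun d => ?_, fun d d' hd => ?_, fun d => ?_⟩, ⟨?_, fun d => ?_, ?_⟩,
      ⟨?_, fun d => ?_, ?_⟩, ?_⟩
    · rw [← ed d]; exact h1 d.1
    · rw [← ed d, ← ed d']; exact h2 d.1 d'.1 fun h => hd (Subtype.ext h)
    · rw [← ed d]; exact h3 d.1
    · have := h1 a; rwa [ea] at this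
    · have := h2 a d.1 (Ne.symm d.2.1); rwa [ea, ed] at this
    · have := (h3 a).mp haW; rwa [ea] at this
    · have := h1 b; rwa [eb] at this
    · have := h2 b d.1 (Ne.symm d.2.2); rwa [eb, ed] at this
    · have := (h3 b).mp hbW; rwa [eb] at this
    · have := h2 a b hab; rwa [ea, eb] at this
  · rintro ⟨⟨h1, h2, h3⟩, ⟨x1, x2, x3⟩, ⟨y1, y2, y3⟩, hXY⟩
    refine ⟨⟨fun c => ?_, fun c c' hc => ?_⟩, fun c => ?_⟩
    · by_cases ha : c = a
      · subst ha; rwa [glue_a]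
      by_cases hb : c = b
      · subst hb; rwa [glue_b hab]
      rw [glue_d X Y r c ha hb]; exact h1 _
    · by_cases ha : c = a
      · subst ha
        by_cases hb' : c' = b
        · subst hb'; rwa [glue_a, glue_b hab]
        rw [glue_a, glue_d X Y r c' (Ne.symm hc) hb']; exact x2 _
      by_cases hb : c = b
      · subst hb
        by_cases ha' : c' = a
        · subst ha'; rw [glue_a, glue_b hab]; exact hXY.symm
        rw [glue_b hab, glue_d X Y r c' ha' (Ne.symm hc)]; exact y2 _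
      by_cases ha' : c' = a
      · subst ha'; rw [glue_a, glue_d X Y r c ha hb]; exact (x2 _).symm
      by_cases hb' : c' = b
      · subst hb'; rw [glue_b hab, glue_d X Y r c ha hb]; exact (y2 _).symm
      rw [glue_d X Y r c ha hb, glue_d X Y r c' ha' hb']
      exact h2 _ _ fun h => hc (congrArg Subtype.val h)
    · by_cases ha : c = a
      · subst ha; rw [glue_a]; exact ⟨fun _ => x3, fun _ => haW⟩
      by_cases hb : c = b
      · subst hb; rw [glue_b hab]; exact ⟨fun _ => y3, fun _ => hbW⟩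
      rw [glue_d X Y r c ha hb]; exact h3 ⟨c, ha, hb⟩

open Classical in
/-- the term of MW -/
noncomputable def FW {ℓ : ℕ} (S : Finset (Pl K)) {Λ : Type} (χ : Λ → Pl K → ZMod ℓ)
    (sy : Pl K → Pl K → ZMod ℓ) {C : Type} [Fintype C] (R : C → C → ZMod ℓ) (m : ℕ) (h : C → Λ)
    (Z : ℝ) (W : Finset C) (s : ℝ) (A : C → Finset (Pl K)) : ℂ :=
  if Tup S A ∧ ∀ c, c ∈ W ↔ Z < (NA (A c) : ℝ) then trm χ sy R m h s A else 0

open Classical in
theorem fixed_r {ℓ : ℕ} (hℓ : ℓ.Prime) {S : Finset (Pl K)} {Λ : Type} (χ : Λ → Pl K → ZMod ℓ)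
    {sy : Pl K → Pl K → ZMod ℓ} (hsym : ∀ p q, p ∉ S → q ∉ S → p ≠ q → sy p q = sy q p)
    {C : Type} [Fintype C] (R : C → C → ZMod ℓ) (m : ℕ) (hm : 1 ≤ m) (h : C → Λ) (Z : ℝ)
    (W : Finset C) {s : ℝ} {a b : C} (hab : a ≠ b)
    (haW : a ∈ W) (hbW : b ∈ W) (r : {c : C // c ≠ a ∧ c ≠ b} → Finset (Pl K)) :
    ∃ α β : Finset (Pl K) → ℂ, (∀ A, ‖α A‖ ≤ (NA A : ℝ) ^ (-s)) ∧
      (∀ A, ‖β A‖ ≤ (NA A : ℝ) ^ (-s)) ∧ (∀ A, α A ≠ 0 → Disjoint A S ∧ Z < (NA A : ℝ)) ∧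
      (∀ A, β A ≠ 0 → Disjoint A S ∧ Z < (NA A : ℝ)) ∧ ∃ c : ℂ, ‖c‖ ≤ ∏ d, wt m s (r d) ∧
      ∀ p : Finset (Pl K) × Finset (Pl K), FW S χ sy R m h Z W s (glue a b p.1 p.2 r) =
        c * dbl sy (R a b + R b a) α β p := by
  have hm1 : (1 : ℝ) ≤ m := by exact_mod_cast hm
  have hwle : ∀ A : Finset (Pl K), wt m s A ≤ (NA A : ℝ) ^ (-s) := fun A =>
    mul_le_of_le_one_left (by positivity) (inv_le_one_of_one_le₀ (one_le_pow₀ hm1))
  set E0 := expo χ sy R h (glue a b ∅ ∅ r) with hE0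
  set EX : Finset (Pl K) → ZMod ℓ := fun X => expo χ sy R h (glue a b X ∅ r) - E0 with hEX
  set EY : Finset (Pl K) → ZMod ℓ := fun Y => expo χ sy R h (glue a b ∅ Y r) - E0 with hEY
  refine ⟨fun X => if Ok S Z r X then ((wt m s X : ℝ) : ℂ) * ee ℓ (EX X) else 0,
    fun Y => if Ok S Z r Y then ((wt m s Y : ℝ) : ℂ) * ee ℓ (EY Y) else 0, ?_, ?_, ?_, ?_,
    if Adm S W Z a b r then ((∏ d, wt m s (r d) : ℝ) : ℂ) * ee ℓ E0 else 0, ?_, ?_⟩
  · intro A
    beta_reduce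
    split_ifs
    · rw [norm_mul, norm_ee, mul_one, Complex.norm_real, Real.norm_eq_abs,
        abs_of_nonneg (wt_nonneg m s A)]
      exact hwle A
    · rw [norm_zero]; positivity
  · intro A
    beta_reduce
    split_ifs
    · rw [norm_mul, norm_ee, mul_one, Complex.norm_real, Real.norm_eq_abs,
        abs_of_nonneg (wt_nonneg m s A)]
      exact hwle A
    · rw [norm_zero]; positivity
  · intro A hA
    have : Ok S Z r A := by
      by_contra hno
      simp only [if_neg hno, ne_eq, not_true_eq_false] at hA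
    exact ⟨this.1, this.2.2⟩
  · intro A hA
    have : Ok S Z r A := by
      by_contra hno
      simp only [if_neg hno, ne_eq, not_true_eq_false] at hA
    exact ⟨this.1, this.2.2⟩
  · have h0 : 0 ≤ ∏ d, wt m s (r d) := Finset.prod_nonneg fun d _ => wt_nonneg m s _
    split_ifs
    · rw [norm_mul, norm_ee, mul_one, Complex.norm_real, Real.norm_eq_abs, abs_of_nonneg h0]
    · rw [norm_zero]; exact h0
  · rintro ⟨X, Y⟩
    unfold FW dbl
    by_cases hc : Adm S W Z a b r ∧ Ok S Z r X ∧ Ok S Z r Y ∧ Disjoint X Y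
    · rw [if_pos ((tup_glue S W Z hab haW hbW X Y r).mpr hc)]
      obtain ⟨h1, h2, h3, h4⟩ := hc
      rw [if_pos h1, if_pos h4]
      simp only [if_pos h2, if_pos h3]
      have hexp : expo χ sy R h (glue a b X Y r) = E0 + EX X + EY Y +
          (R a b + R b a) * syA sy X Y := by
        rw [expo_mixed χ sy R h hab X Y r, syA_symm hsym h2.1 h3.1 h4]
        ring
      have htrm : trm χ sy R m h s (glue a b X Y r) =
          ((∏ c, wt m s (glue a b X Y r c) : ℝ) : ℂ) * ee ℓ (expo χ sy R h (glue a b X Y r)) := by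
        unfold trm expo wt
        rfl
      rw [htrm, hexp, prod_split hab (fun c => wt m s (glue a b X Y r c)), glue_a, glue_b hab,
        ee_add ℓ hℓ, ee_add ℓ hℓ, ee_add ℓ hℓ]
      have hd : ∏ d : {c : C // c ≠ a ∧ c ≠ b}, wt m s (glue a b X Y r d.1) =
          ∏ d, wt m s (r d) := by
        refine Finset.prod_congr rfl fun d _ => ?_
        rw [glue_d X Y r d.1 d.2.1 d.2.2]
      rw [hd]
      push_cast
      ring
    · rw [if_neg fun hh => hc ((tup_glue S W Z hab haW hbW X Y r).mp hh)]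
      by_cases h1 : Adm S W Z a b r
      · by_cases h2 : Ok S Z r X
        · by_cases h3 : Ok S Z r Y
          · have h4 : ¬ Disjoint X Y := fun h4 => hc ⟨h1, h2, h3, h4⟩
            simp only [if_neg h4, mul_zero]
          · simp only [if_neg h3]
            simp
        · simp only [if_neg h2]
          simp
      · simp only [if_neg h1, zero_mul]

end expo

open Classical in
theorem t_AN1 (hBL : S_BL) : S_AN1 := by
  intro ℓ hℓ K _ _ S 𝔪 Λ _ χ sy hsys C _ R m h hm hR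
  obtain ⟨C₀, θ, hC₀, hθ, hbl⟩ := hBL ℓ hℓ K S 𝔪 Λ χ sy hsys
  obtain ⟨B, n, hB, hphi⟩ := phi_sum C₀ hC₀
  obtain ⟨C₁, hC₁, h1, -⟩ := one_var K m hm
  obtain ⟨C₂, hC₂, h2, -⟩ := one_var K 1 le_rfl
  set N := Fintype.card C with hN
  refine ⟨((N : ℝ) + 2 * n + 1) / θ, by positivity, fun κ hκ W a b haW hbW hRab => ?_⟩
  have hab : a ≠ b := by
    rintro rfl
    rw [hR a, add_zero] at hRab
    exact hRab rfl
  have hκθ : (N : ℝ) + 2 * n + 1 ≤ κ * θ := by rwa [div_le_iff₀ hθ] at hκ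
  have hκ0 : 0 < κ := lt_of_lt_of_le (by positivity) hκ
  -- the limit
  set Q : ℝ := C₁ ^ N * (4 * C₀ * B ^ 2) with hQ
  have hlim : Tendsto (fun s : ℝ => Q * (s - 1)) (𝓝[>] 1) (𝓝 0) := by
    have : Tendsto (fun s : ℝ => Q * (s - 1)) (𝓝 1) (𝓝 (Q * (1 - 1))) :=
      ((continuous_id.sub continuous_const).const_mul Q).tendsto 1
    rw [sub_self, mul_zero] at this
    exact this.mono_left nhdsWithin_le_nhds
  rw [tendsto_zero_iff_norm_tendsto_zero]
  refine squeeze_zero' (Eventually.of_forall fun s => norm_nonneg _) ?_ hlim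
  have hev : ∀ᶠ s : ℝ in 𝓝[>] 1, s ≤ 2 :=
    (eventually_le_nhds (show (1 : ℝ) < 2 by norm_num)).filter_mono nhdsWithin_le_nhds
  filter_upwards [self_mem_nhdsWithin, hev] with s hs hs2
  have hs1 : 1 < s := hs
  have hs0 : 0 < s - 1 := by linarith
  set u : ℝ := 1 / (s - 1) with hu
  have hu1 : 1 ≤ u := by rw [hu, le_div_iff₀ hs0]; linarith
  have hu0 : 0 < u := by linarith
  have hsu : (s - 1) * u = 1 := by rw [hu]; field_simp
  set Z : ℝ := u ^ κ with hZ
  have hZ1 : 1 ≤ Z := Real.one_le_rpow hu1 hκ0.le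
  obtain ⟨hb1, hb2⟩ := h1 s hs1 hs2
  have hsum1 : Summable (fun A : Finset (Pl K) => (NA A : ℝ) ^ (-s)) := by
    refine (h2 s hs1 hs2).1.congr fun A => ?_
    unfold wt
    rw [Nat.cast_one, one_pow, inv_one, one_mul]
  obtain ⟨hφ1, hφ2⟩ := hphi (s - 1) hs0 (by linarith)
  set Φ : ℝ := ∑' i : ℕ, ((2 : ℝ) ^ i) ^ (-(s - 1)) * (3 + i) ^ C₀ with hΦ
  have hΦ0 : 0 ≤ Φ := tsum_nonneg fun i => by positivity
  -- summability of the terms
  have hFW : Summable (FW S χ sy R m h Z W s) := by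
    refine Summable.of_norm_bounded
      (pi_sum (fun _ : C => wt m s) (fun _ A => wt_nonneg m s A) (fun _ => hb1)).1 fun A => ?_
    unfold FW
    split_ifs
    · rw [norm_trm]
    · rw [norm_zero]; exact Finset.prod_nonneg fun c _ => wt_nonneg m s _
  have hFW' : Summable (fun p => FW S χ sy R m h Z W s (glueE hab p)) :=
    (Equiv.summable_iff (glueE hab)).mpr hFW
  have hMW : MW S χ sy R m h Z W s = ∑' r : {c : C // c ≠ a ∧ c ≠ b} → Finset (Pl K),
      ∑' p : Finset (Pl K) × Finset (Pl K), FW S χ sy R m h Z W s (glueE hab (r, p)) := by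
    rw [← hFW'.tsum_prod, Equiv.tsum_eq (glueE hab) (FW S χ sy R m h Z W s)]
    rfl
  set I : ℝ := (4 * C₀ * Z ^ (-θ)) * Φ ^ 2 with hI
  have hI0 : 0 ≤ I := by positivity
  obtain ⟨hp1, hp2⟩ := pi_sum (fun _ : {c : C // c ≠ a ∧ c ≠ b} => wt (K := K) m s)
    (fun _ A => wt_nonneg m s A) (fun _ => hb1)
  have hMWle : ‖MW S χ sy R m h Z W s‖ ≤
      (∑' r : {c : C // c ≠ a ∧ c ≠ b} → Finset (Pl K), ∏ d, wt m s (r d)) * I := by
    rw [hMW, ← tsum_mul_right]
    refine tsum_of_norm_bounded (hp1.mul_right I).hasSum fun r => ?_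
    obtain ⟨α, β, ha1, hb1', ha2, hb2', c, hc, hcp⟩ := fixed_r hℓ χ hsys.symm R m hm h Z W
      (s := s) hab haW hbW r
    have e : ∑' p : Finset (Pl K) × Finset (Pl K), FW S χ sy R m h Z W s (glueE hab (r, p)) =
        c * ∑' p, dbl sy (R a b + R b a) α β p := by
      rw [← tsum_mul_left]
      exact tsum_congr fun p => hcp p
    rw [e, norm_mul]
    have hin := inner hC₀ hθ hbl hRab hs1 hZ1 hsum1 ha1 hb1' ha2 hb2' hφ1
    exact mul_le_mul hc hin (norm_nonneg _) (Finset.prod_nonneg fun d _ => wt_nonneg m s _)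
  -- the sum over the rest
  have hum : u ^ (1 / (m : ℝ)) ≤ u := by
    have hm1 : (1 : ℝ) ≤ m := by exact_mod_cast hm
    calc u ^ (1 / (m : ℝ)) ≤ u ^ (1 : ℝ) := Real.rpow_le_rpow_of_exponent_le hu1
          (by rw [div_le_one (by linarith)]; exact hm1)
      _ = u := Real.rpow_one u
  have hrest : ∑' r : {c : C // c ≠ a ∧ c ≠ b} → Finset (Pl K), ∏ d, wt m s (r d) ≤
      (C₁ * u) ^ N := by
    refine hp2.trans ?_
    rw [Finset.prod_const]
    have h3 : ∑' A : Finset (Pl K), wt m s A ≤ C₁ * u :=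
      hb2.trans (mul_le_mul_of_nonneg_left hum (by linarith))
    refine (pow_le_pow_left₀ (tsum_nonneg fun A => wt_nonneg m s A) h3 _).trans ?_
    refine pow_le_pow_right₀ ?_ ?_
    · exact one_le_mul_of_one_le_of_one_le hC₁ hu1
    · rw [Finset.card_univ]
      exact Fintype.card_subtype_le _
  have hZθ : Z ^ (-θ) ≤ u ^ (-((N : ℝ) + 2 * n)) := by
    rw [hZ, ← Real.rpow_mul hu0.le]
    refine Real.rpow_le_rpow_of_exponent_le hu1 ?_
    linarith
  have hIle : I ≤ (4 * C₀ * u ^ (-((N : ℝ) + 2 * n))) * (B * u ^ n) ^ 2 := by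
    rw [hI]
    refine mul_le_mul (mul_le_mul_of_nonneg_left hZθ (by positivity))
      (pow_le_pow_left₀ hΦ0 hφ2 2) (by positivity) (by positivity)
  have hun : u ^ N * (u ^ (-((N : ℝ) + 2 * n)) * (u ^ n) ^ 2) = 1 := by
    rw [← Real.rpow_natCast u N, ← Real.rpow_natCast u n, ← Real.rpow_natCast (u ^ (n : ℝ)) 2,
      ← Real.rpow_mul hu0.le, ← Real.rpow_add hu0, ← Real.rpow_add hu0]
    have : (N : ℝ) + (-((N : ℝ) + 2 * n) + n * ((2 : ℕ) : ℝ)) = 0 := by push_cast; ring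
    rw [this, Real.rpow_zero]
  rw [norm_mul, Complex.norm_real, Real.norm_eq_abs, abs_of_pos hs0]
  calc (s - 1) * ‖MW S χ sy R m h Z W s‖
      ≤ (s - 1) * ((C₁ * u) ^ N * ((4 * C₀ * u ^ (-((N : ℝ) + 2 * n))) * (B * u ^ n) ^ 2)) := by
        refine mul_le_mul_of_nonneg_left ?_ hs0.le
        exact hMWle.trans (mul_le_mul hrest hIle hI0 (by positivity))
    _ = Q * (s - 1) * (u ^ N * (u ^ (-((N : ℝ) + 2 * n)) * (u ^ n) ^ 2)) := by
        rw [mul_pow C₁ u N, mul_pow B (u ^ n) 2, hQ]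
        generalize u ^ (-((N : ℝ) + 2 * n)) = x1
        generalize u ^ n = x2
        generalize u ^ N = x3
        generalize C₁ ^ N = x4
        generalize s - 1 = x5
        ring
    _ = Q * (s - 1) := by rw [hun, mul_one]

end Pool.Agent.T3h73.SD.AN1
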