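import Pool.Agent.T3h73.SD.Fam

/-!
Task AN2 of project SD (helper73): families with less than `m` large sets.
-/

set_option autoImplicit false

open NumberField IsDedekindDomain Filter Topology

namespace Pool.Agent.T3h73.SD.AN2

open Pool.Agent.T3h73.SL (Pl)
open Pool.Agent.T3h73.SD.Fam

open Classical in
theorem norm_MW_le {K : Type} [Field K] [NumberField K] {ℓ : ℕ} (S : Finset (Pl K)) {Λ : Type}
    (χ : Λ → Pl K → ZMod ℓ) (sy : Pl K → Pl K → ZMod ℓ) {C : Type} [Fintype C]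
    (R : C → C → ZMod ℓ) (m : ℕ) (h : C → Λ) (Z : ℝ) (W : Finset C) (s : ℝ)
    (t : C → Finset (Pl K) → ℝ) (ht0 : ∀ c A, 0 ≤ t c A) (ht : ∀ c, Summable (t c))
    (hle : ∀ c A, (c ∈ W ↔ Z < (NA A : ℝ)) → wt m s A ≤ t c A) :
    ‖MW S χ sy R m h Z W s‖ ≤ ∏ c, ∑' A, t c A := by
  obtain ⟨h1, h2⟩ := pi_sum t ht0 ht
  refine le_trans ?_ h2
  unfold MW
  refine tsum_of_norm_bounded h1.hasSum fun A => ?_
  split_ifs with hA
  · rw [norm_trm]
    exact Finset.prod_le_prod (fun c _ => wt_nonneg m s _) fun c _ => hle c (A c) (hA.2 c)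
  · rw [norm_zero]
    exact Finset.prod_nonneg fun c _ => ht0 c _

open Classical in
theorem t_AN2 : S_AN2 := by
  intro ℓ hℓ K _ _ S Λ χ sy C _ R m h hm κ hκ W hW
  obtain ⟨C₁, hC₁, h1, h2⟩ := one_var K m hm
  have hm0 : (0 : ℝ) < m := by exact_mod_cast hm
  have hlim := (lim_log κ (1 / (m : ℝ)) hκ (by positivity) (Fintype.card C)).const_mul
    (C₁ ^ (Fintype.card C))
  rw [mul_zero] at hlim
  rw [tendsto_zero_iff_norm_tendsto_zero]
  refine squeeze_zero' (Eventually.of_forall fun s => norm_nonneg _) ?_ hlim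
  have hev : ∀ᶠ s : ℝ in 𝓝[>] 1, s ≤ 2 :=
    (eventually_le_nhds (show (1 : ℝ) < 2 by norm_num)).filter_mono nhdsWithin_le_nhds
  filter_upwards [self_mem_nhdsWithin, hev] with s hs hs2
  have hs1 : 1 < s := hs
  have hs0 : 0 < s - 1 := by linarith
  set u : ℝ := 1 / (s - 1) with hu
  have hu1 : 1 ≤ u := by rw [hu, le_div_iff₀ hs0]; linarith
  have hu0 : 0 < u := by linarith
  set Z : ℝ := u ^ κ with hZ
  have hZ1 : 1 ≤ Z := Real.one_le_rpow hu1 hκ.le
  have hlZ : Real.log Z = κ * Real.log u := by rw [hZ, Real.log_rpow hu0]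
  have hlu : 0 ≤ Real.log u := Real.log_nonneg hu1
  obtain ⟨hb1, hb2⟩ := h1 s hs1 hs2
  obtain ⟨hc1, hc2⟩ := h2 Z hZ1 s hs1
  rw [hlZ] at hc2
  set t : C → Finset (Pl K) → ℝ := fun c A =>
    if c ∈ W then wt m s A else (if (NA A : ℝ) ≤ Z then wt m s A else 0) with ht
  have ht0 : ∀ c A, 0 ≤ t c A := by
    intro c A
    simp only [ht]
    split_ifs
    · exact wt_nonneg m s A
    · exact wt_nonneg m s A
    · exact le_rfl
  have hts : ∀ c, Summable (t c) := by
    intro c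
    by_cases hc : c ∈ W
    · simpa only [ht, if_pos hc] using hb1
    · simpa only [ht, if_neg hc] using hc1
  have hb := norm_MW_le S χ sy R m h Z W s t ht0 hts (by
    intro c A hcA
    simp only [ht]
    by_cases hc : c ∈ W
    · rw [if_pos hc]
    · rw [if_neg hc, if_pos (not_lt.mp fun hlt => hc (hcA.mpr hlt))])
  have hcu : 0 ≤ κ * Real.log u := by positivity
  have hcu1 : 1 ≤ 1 + κ * Real.log u := by linarith
  have hC0 : 0 ≤ C₁ := by linarith
  -- the product
  have hprod : ∏ c, ∑' A, t c A ≤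
      ∏ c, (C₁ * (1 + κ * Real.log u)) * (if c ∈ W then u ^ (1 / (m : ℝ)) else 1) := by
    refine Finset.prod_le_prod (fun c _ => tsum_nonneg (ht0 c)) fun c _ => ?_
    by_cases hc : c ∈ W
    · simp only [ht, if_pos hc]
      refine hb2.trans ?_
      have : C₁ ≤ C₁ * (1 + κ * Real.log u) := le_mul_of_one_le_right hC0 hcu1
      exact mul_le_mul_of_nonneg_right this (by positivity)
    · simp only [ht, if_neg hc, mul_one]
      exact hc2
  have hprod2 : ∏ c, (C₁ * (1 + κ * Real.log u)) * (if c ∈ W then u ^ (1 / (m : ℝ)) else 1) =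
      C₁ ^ (Fintype.card C) * (1 + κ * Real.log u) ^ (Fintype.card C) *
        (u ^ (1 / (m : ℝ))) ^ W.card := by
    rw [Finset.prod_mul_distrib, Finset.prod_const, mul_pow, Finset.card_univ]
    congr 1
    rw [Finset.prod_ite_mem, Finset.univ_inter, Finset.prod_const]
  have hW' : (u ^ (1 / (m : ℝ))) ^ W.card ≤ u * (s - 1) ^ (1 / (m : ℝ)) := by
    have h3 : (u ^ (1 / (m : ℝ))) ^ W.card ≤ (u ^ (1 / (m : ℝ))) ^ (m - 1) :=
      pow_le_pow_right₀ (Real.one_le_rpow hu1 (by positivity)) (by omega)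
    refine h3.trans (le_of_eq ?_)
    have h4 : (s - 1) ^ (1 / (m : ℝ)) = u ^ (-(1 / (m : ℝ))) := by
      rw [hu, one_div (s - 1), Real.inv_rpow hs0.le, Real.rpow_neg hs0.le, inv_inv]
    rw [h4, ← Real.rpow_natCast, ← Real.rpow_mul hu0.le]
    have h5 : u * u ^ (-(1 / (m : ℝ))) = u ^ (1 + -(1 / (m : ℝ))) := by
      rw [Real.rpow_add hu0, Real.rpow_one]
    rw [h5]
    congr 1
    rw [Nat.cast_sub hm]
    field_simp
    push_cast
    ring
  rw [norm_mul, Complex.norm_real, Real.norm_eq_abs, abs_of_pos hs0]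
  calc (s - 1) * ‖MW S χ sy R m h Z W s‖
      ≤ (s - 1) * (C₁ ^ (Fintype.card C) * (1 + κ * Real.log u) ^ (Fintype.card C) *
        (u ^ (1 / (m : ℝ))) ^ W.card) := by
        rw [← hprod2]
        exact mul_le_mul_of_nonneg_left (hb.trans hprod) hs0.le
    _ ≤ (s - 1) * (C₁ ^ (Fintype.card C) * (1 + κ * Real.log u) ^ (Fintype.card C) *
        (u * (s - 1) ^ (1 / (m : ℝ)))) := by
        refine mul_le_mul_of_nonneg_left ?_ hs0.le
        exact mul_le_mul_of_nonneg_left hW' (by positivity)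
    _ = ((s - 1) * u) * (C₁ ^ (Fintype.card C) * ((s - 1) ^ (1 / (m : ℝ)) *
        (1 + κ * Real.log u) ^ (Fintype.card C))) := by ring
    _ = _ := by
        have : (s - 1) * u = 1 := by rw [hu]; field_simp
        rw [this, one_mul]

end Pool.Agent.T3h73.SD.AN2
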