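import Pool.Agent.T3h73.SD.T_MASS

/-!
Task T0L of project SD (helper73): lower bound for the sum over all finite sets of places.
-/

set_option autoImplicit false

open NumberField IsDedekindDomain Filter Topology

namespace Pool.Agent.T3h73.SD.T0L

open Pool.Agent.T3h73.SL (Pl)
open Pool.Agent.H921R2.TatePole
open Pool.Agent.T3h73.SD.MASS (NA_rpow one_le_nm)

open Classical in
theorem t_T0L : S_T0L := by
  intro K _ _ S
  obtain ⟨C, s₀, hC, hs0, hp⟩ := Prs.psum_ge K
  refine ⟨Real.exp (-(C + S.card + CK K)), min s₀ 2, Real.exp_pos _, lt_min hs0 (by norm_num),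
    fun s hs hs' => ?_⟩
  have hs2 : s < 2 := hs'.trans_le (min_le_right _ _)
  have hs3 : s < s₀ := hs'.trans_le (min_le_left _ _)
  have hsum := nm_summable (K := K) hs
  have hfs := Prs.fsum (fun q : Pl K => (nm q : ℝ) ^ (-s)) (fun q => by positivity) hsum
  refine ⟨hfs.1.congr fun A => (NA_rpow A s).symm, ?_⟩
  -- the function which is zero on `S`
  set f : Pl K → ℝ := fun q => if q ∈ S then 0 else (nm q : ℝ) ^ (-s) with hf
  have hf0 : ∀ q, 0 ≤ f q := fun q => by
    simp only [hf]; split_ifs
    · exact le_rfl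
    · positivity
  have hfle : ∀ q, f q ≤ (nm q : ℝ) ^ (-s) := fun q => by
    simp only [hf]; split_ifs
    · positivity
    · exact le_rfl
  have hf2 : ∀ q, f q ≤ 1 / 2 := fun q => (hfle q).trans (nm_rpow_le_half q hs.le)
  have hfsum : Summable f := Summable.of_nonneg_of_le hf0 hfle hsum
  have hT : T0 S s = ∑' A : Finset (Pl K), ∏ q ∈ A, f q := by
    unfold T0
    refine tsum_congr fun A => ?_
    by_cases h : Disjoint A S
    · rw [if_pos h, NA_rpow]
      refine Finset.prod_congr rfl fun q hq => ?_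
      simp only [hf]
      rw [if_neg (Finset.disjoint_left.mp h hq)]
    · rw [if_neg h]
      rw [Finset.not_disjoint_iff] at h
      obtain ⟨q, hqA, hqS⟩ := h
      rw [Finset.prod_eq_zero hqA]
      simp only [hf]
      rw [if_pos hqS]
  rw [hT]
  refine le_trans ?_ (Prs.fsum_ge f hf0 hf2 hfsum)
  have hs0' : 0 < s - 1 := by linarith
  -- lower bound for the exponent
  have h1 : ∑' q, (f q - f q ^ 2) ≥ ∑' q : Pl K, (nm q : ℝ) ^ (-s) - S.card - CK K := by
    have hsq : Summable (fun q => f q ^ 2) := by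
      refine Summable.of_nonneg_of_le (fun i => sq_nonneg _) (fun i => ?_) hfsum
      nlinarith [hf0 i, hf2 i]
    rw [Summable.tsum_sub hfsum hsq]
    have h2 : ∑' q, f q ^ 2 ≤ CK K := by
      refine le_trans ?_ (tsum_nm_two_mul_le hs)
      refine Summable.tsum_le_tsum (fun q => ?_) hsq (nm_summable (by linarith))
      rw [← rpow_sq']
      exact pow_le_pow_left₀ (hf0 q) (hfle q) 2
    have h3 : ∑' q : Pl K, (nm q : ℝ) ^ (-s) ≤ ∑' q, f q + S.card := by
      have h4 : ∑' q : Pl K, (nm q : ℝ) ^ (-s) - ∑' q, f q =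
          ∑' q : Pl K, ((nm q : ℝ) ^ (-s) - f q) := (Summable.tsum_sub hsum hfsum).symm
      have h5 : ∑' q : Pl K, ((nm q : ℝ) ^ (-s) - f q) = ∑ q ∈ S, ((nm q : ℝ) ^ (-s) - f q) := by
        refine tsum_eq_sum fun q hq => ?_
        simp only [hf]
        rw [if_neg hq, sub_self]
      have h6 : ∑ q ∈ S, ((nm q : ℝ) ^ (-s) - f q) ≤ ∑ q ∈ S, (1 : ℝ) := by
        refine Finset.sum_le_sum fun q _ => ?_
        have := nm_rpow_le_half q hs.le
        have := hf0 q
        linarith
      rw [Finset.sum_const, nsmul_eq_mul, mul_one] at h6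
      linarith
    linarith
  have h7 := hp s hs hs3
  calc Real.exp (-(C + S.card + CK K)) / (s - 1)
      = Real.exp (-(C + S.card + CK K) + Real.log (1 / (s - 1))) := by
        rw [Real.exp_add, Real.exp_log (by positivity), mul_one_div]
    _ ≤ _ := by
        apply Real.exp_le_exp.mpr
        linarith

end Pool.Agent.T3h73.SD.T0L
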