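import Pool.Agent.T3h73.SD.Stm2

/-! Project SD, task BL (helper20): bilinear sums of symbols. -/

set_option autoImplicit false
set_option linter.all false

open NumberField IsDedekindDomain Filter Topology

namespace Pool.Agent.T3h73.SD.BL

open Pool.Agent.T3h73.SL (Pl)
open Pool.Agent.Y773.G (IsModChar)
open Pool.Agent.N912.RC (IX)

/-! ### the inequality of Hölder with the large sieve -/

lemma exists_phase (z : ℂ) : ∃ ε : ℂ, ‖ε‖ ≤ 1 ∧ ε * z = (‖z‖ : ℂ) := by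
  by_cases hz : z = 0
  · exact ⟨0, by simp, by simp [hz]⟩
  · have hz' : (‖z‖ : ℂ) ≠ 0 := by
      rw [Ne, Complex.ofReal_eq_zero, norm_eq_zero]; exact hz
    refine ⟨(starRingEnd ℂ) z / ‖z‖, ?_, ?_⟩
    · rw [norm_div, RCLike.norm_conj, Complex.norm_real, norm_norm, div_self]
      rw [Ne, norm_eq_zero]; exact hz
    · rw [div_mul_eq_mul_div, mul_comm ((starRingEnd ℂ) z) z, Complex.mul_conj, Complex.normSq_eq_norm_sq]
      push_cast
      field_simp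

theorem holder {X Y J : Type} [CommMonoid J] [DecidableEq J] (𝒜 : Finset X) (ℬ : Finset Y)
    (P : X → J) (χ : Y → J →* ℂ) (α : X → ℂ) (hα : ∀ x, ‖α x‖ ≤ 1) (r : ℕ) (W : Finset J)
    (U L : ℝ)
    (hW : ∀ t ∈ Fintype.piFinset (fun _ : Fin (r + 1) => 𝒜), ∏ i, P (t i) ∈ W)
    (hU : ∀ c ∈ W, (((Fintype.piFinset (fun _ : Fin (r + 1) => 𝒜)).filter
      (fun t => ∏ i, P (t i) = c)).card : ℝ) ≤ U)
    (hL : ∀ ε : Y → ℂ, (∀ y, ‖ε y‖ ≤ 1) → ∑ c ∈ W, ‖∑ y ∈ ℬ, ε y * χ y c‖ ^ 2 ≤ L) :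
    (∑ y ∈ ℬ, ‖∑ x ∈ 𝒜, α x * χ y (P x)‖) ^ (2 * (r + 1)) ≤
      (ℬ.card : ℝ) ^ (2 * r) * (U * (𝒜.card : ℝ) ^ (r + 1)) * L := by
  classical
  set F : Y → ℂ := fun y => ∑ x ∈ 𝒜, α x * χ y (P x) with hF
  set T := Fintype.piFinset (fun _ : Fin (r + 1) => 𝒜) with hT
  set a : J → ℂ := fun c => ∑ t ∈ T with ∏ i, P (t i) = c, ∏ i, α (t i) with ha
  have h2 : ∀ y, F y ^ (r + 1) = ∑ c ∈ W, a c * χ y c := by
    intro y
    have e1 : F y ^ (r + 1) = ∏ _i : Fin (r + 1), F y := by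
      rw [Finset.prod_const, Finset.card_univ, Fintype.card_fin]
    have e2 : ∏ _i : Fin (r + 1), F y = ∑ t ∈ T, ∏ i, (α (t i) * χ y (P (t i))) := by
      rw [hF, hT]
      exact Finset.prod_univ_sum (fun _ : Fin (r + 1) => 𝒜) (fun _ x => α x * χ y (P x))
    rw [e1, e2, ← Finset.sum_fiberwise_of_maps_to hW]
    refine Finset.sum_congr rfl fun c _ => ?_
    rw [ha, Finset.sum_mul]
    refine Finset.sum_congr rfl fun t ht => ?_
    rw [Finset.prod_mul_distrib, ← map_prod, (Finset.mem_filter.1 ht).2]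
  choose ε hε1 hε2 using fun y : Y => exists_phase (F y ^ (r + 1))
  have h3 : ((∑ y ∈ ℬ, ‖F y‖ ^ (r + 1) : ℝ) : ℂ) = ∑ c ∈ W, a c * ∑ y ∈ ℬ, ε y * χ y c := by
    rw [Complex.ofReal_sum]
    have : ∀ y ∈ ℬ, ((‖F y‖ ^ (r + 1) : ℝ) : ℂ) = ∑ c ∈ W, a c * (ε y * χ y c) := by
      intro y _
      rw [← norm_pow, ← hε2 y, h2 y, Finset.mul_sum]
      refine Finset.sum_congr rfl fun c _ => ?_
      ring
    rw [Finset.sum_congr rfl this, Finset.sum_comm]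
    refine Finset.sum_congr rfl fun c _ => ?_
    rw [Finset.mul_sum]
  have h4 : (∑ y ∈ ℬ, ‖F y‖ ^ (r + 1)) ≤ ∑ c ∈ W, ‖a c‖ * ‖∑ y ∈ ℬ, ε y * χ y c‖ := by
    have h5 : (∑ y ∈ ℬ, ‖F y‖ ^ (r + 1)) = ‖((∑ y ∈ ℬ, ‖F y‖ ^ (r + 1) : ℝ) : ℂ)‖ := by
      rw [Complex.norm_real, Real.norm_of_nonneg (Finset.sum_nonneg fun y _ => by positivity)]
    rw [h5, h3]
    refine (norm_sum_le _ _).trans (Finset.sum_le_sum fun c _ => ?_)
    rw [norm_mul]
  have h6 : (∑ y ∈ ℬ, ‖F y‖ ^ (r + 1)) ^ 2 ≤ (∑ c ∈ W, ‖a c‖ ^ 2) * L := by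
    refine (pow_le_pow_left₀ (Finset.sum_nonneg fun y _ => by positivity) h4 2).trans ?_
    refine (Finset.sum_mul_sq_le_sq_mul_sq _ _ _).trans ?_
    exact mul_le_mul_of_nonneg_left (hL ε hε1) (Finset.sum_nonneg fun c _ => by positivity)
  have hL0 : 0 ≤ L := by
    refine le_trans ?_ (hL ε hε1)
    exact Finset.sum_nonneg fun c _ => by positivity
  have h7 : ∑ c ∈ W, ‖a c‖ ^ 2 ≤ U * (𝒜.card : ℝ) ^ (r + 1) := by
    have h8 : ∀ c ∈ W, ‖a c‖ ^ 2 ≤ U * ((T.filter (fun t => ∏ i, P (t i) = c)).card : ℝ) := by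
      intro c hc
      have h9 : ‖a c‖ ≤ ((T.filter (fun t => ∏ i, P (t i) = c)).card : ℝ) := by
        rw [ha]
        refine (norm_sum_le _ _).trans ?_
        refine (Finset.sum_le_card_nsmul _ _ 1 fun t _ => ?_).trans (by simp)
        rw [norm_prod]
        exact Finset.prod_le_one (fun i _ => norm_nonneg _) fun i _ => hα _
      rw [pow_two]
      exact mul_le_mul (h9.trans (hU c hc)) h9 (norm_nonneg _)
        ((Nat.cast_nonneg _).trans (hU c hc))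
    refine (Finset.sum_le_sum h8).trans ?_
    rw [← Finset.mul_sum, ← Nat.cast_sum]
    have h10 : T.card = ∑ c ∈ W, (T.filter (fun t => ∏ i, P (t i) = c)).card :=
      Finset.card_eq_sum_card_fiberwise hW
    rw [← h10, hT, Fintype.card_piFinset, Finset.prod_const, Finset.card_univ, Fintype.card_fin]
    push_cast
    exact le_refl _
  have h1 : (∑ y ∈ ℬ, ‖F y‖) ^ (r + 1) ≤ (ℬ.card : ℝ) ^ r * ∑ y ∈ ℬ, ‖F y‖ ^ (r + 1) :=
    pow_sum_le_card_mul_sum_pow (fun y _ => norm_nonneg _) _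
  have h11 : (∑ y ∈ ℬ, ‖F y‖) ^ (2 * (r + 1)) = ((∑ y ∈ ℬ, ‖F y‖) ^ (r + 1)) ^ 2 := by
    rw [← pow_mul, mul_comm]
  show (∑ y ∈ ℬ, ‖F y‖) ^ (2 * (r + 1)) ≤ _
  rw [h11]
  refine (pow_le_pow_left₀ (pow_nonneg (Finset.sum_nonneg fun y _ => norm_nonneg _) _) h1 2).trans ?_
  rw [mul_pow, ← pow_mul, mul_comm r 2, mul_assoc]
  refine mul_le_mul_of_nonneg_left ?_ (by positivity)
  exact h6.trans (mul_le_mul_of_nonneg_right h7 hL0)

/-! ### ideals -/

section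
variable {K : Type} [Field K] [NumberField K]

/-- the squarefree ideal of a finite set of places -/
noncomputable def II (A : Finset (Pl K)) : Ideal (𝓞 K) := ∏ q ∈ A, q.asIdeal

lemma norm_II (A : Finset (Pl K)) : Ideal.absNorm (II A) = NA A := by
  unfold II NA
  rw [map_prod]

lemma II_ne_bot (A : Finset (Pl K)) : II A ≠ ⊥ :=
  Finset.prod_ne_zero_iff.2 fun q _ => q.ne_bot

lemma dvd_pl (q p : Pl K) (h : q.asIdeal ∣ p.asIdeal) : q = p := by
  have h1 : p.asIdeal = q.asIdeal := p.isMaximal.eq_of_le q.isPrime.ne_top (Ideal.dvd_iff_le.1 h)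
  exact (HeightOneSpectrum.ext h1).symm

lemma dvd_II (q : Pl K) (A : Finset (Pl K)) : q.asIdeal ∣ II A ↔ q ∈ A := by
  constructor
  · intro h
    obtain ⟨p, hp, h1⟩ := (Prime.dvd_finsetProd_iff q.prime _).1 h
    rw [dvd_pl q p h1]
    exact hp
  · intro h
    exact Finset.dvd_prod_of_mem _ h

lemma II_inj {A B : Finset (Pl K)} (h : II A = II B) : A = B := by
  ext q
  rw [← dvd_II, ← dvd_II, h]

lemma mem_IX {x : ℝ} (hx : 0 ≤ x) (I : Ideal (𝓞 K)) :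
    I ∈ IX K x ↔ (Ideal.absNorm I : ℝ) ≤ x ∧ I ≠ ⊥ := by
  unfold IX
  rw [Finset.mem_filter, Set.Finite.mem_toFinset]
  show Ideal.absNorm I ≤ ⌊x⌋₊ ∧ I ≠ ⊥ ↔ _
  rw [Nat.le_floor_iff hx]

lemma NA_pos (A : Finset (Pl K)) : 1 ≤ NA A := by
  rw [← norm_II]
  exact Nat.pos_of_ne_zero fun h => II_ne_bot A (Ideal.absNorm_eq_zero_iff.1 h)

lemma norm_pl (q : Pl K) : 1 ≤ Ideal.absNorm q.asIdeal :=
  Nat.pos_of_ne_zero fun h => q.ne_bot (Ideal.absNorm_eq_zero_iff.1 h)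

lemma count_IX (K : Type) [Field K] [NumberField K] : ∃ C : ℝ, 1 ≤ C ∧ ∀ x : ℝ, 1 ≤ x →
    ((IX K x).card : ℝ) ≤ C * x := by
  obtain ⟨L, hL⟩ : ∃ L : ℝ, Tendsto (fun s : ℝ ↦
      (Nat.card {I : Ideal (𝓞 K) // (Ideal.absNorm I : ℝ) ≤ s} : ℝ) / s) atTop (𝓝 L) :=
    ⟨_, NumberField.Ideal.tendsto_norm_le_div_atTop K⟩
  have h1 : ∀ᶠ s : ℝ in atTop,
      (Nat.card {I : Ideal (𝓞 K) // (Ideal.absNorm I : ℝ) ≤ s} : ℝ) / s < L + 1 :=
    hL.eventually (gt_mem_nhds (by linarith))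
  obtain ⟨x₀, hx₀⟩ := (h1.and (eventually_ge_atTop 1)).exists_forall_of_atTop
  have hx1 : 1 ≤ x₀ := (hx₀ x₀ le_rfl).2
  have hfin : ∀ x : ℝ, {I : Ideal (𝓞 K) | (Ideal.absNorm I : ℝ) ≤ x}.Finite := by
    intro x
    refine (Ideal.finite_setOfPred_absNorm_le (S := 𝓞 K) ⌊x⌋₊).subset ?_
    intro I hI
    exact Nat.le_floor hI
  have hc : ∀ x : ℝ, 1 ≤ x → ((IX K x).card : ℝ) ≤
      (Nat.card {I : Ideal (𝓞 K) // (Ideal.absNorm I : ℝ) ≤ x} : ℝ) := by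
    intro x hx
    have h2 : Nat.card {I : Ideal (𝓞 K) // (Ideal.absNorm I : ℝ) ≤ x} = (hfin x).toFinset.card := by
      rw [← Set.ncard_eq_toFinset_card _ (hfin x)]
      rfl
    rw [h2]
    refine Nat.cast_le.2 (Finset.card_le_card ?_)
    intro I hI
    rw [Set.Finite.mem_toFinset]
    exact ((mem_IX (by linarith) I).1 hI).1
  refine ⟨max (max (L + 1) 1) ((IX K x₀).card : ℝ), le_max_of_le_left (le_max_right _ _), ?_⟩
  intro x hx
  by_cases h : x₀ ≤ x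
  · have h3 := (hx₀ x h).1
    rw [div_lt_iff₀ (by linarith)] at h3
    refine ((hc x hx).trans h3.le).trans ?_
    exact mul_le_mul_of_nonneg_right (le_max_of_le_left (le_max_left _ _)) (by linarith)
  · push Not at h
    have h4 : ((IX K x).card : ℝ) ≤ ((IX K x₀).card : ℝ) := by
      refine Nat.cast_le.2 (Finset.card_le_card ?_)
      intro I hI
      rw [mem_IX (by linarith)] at hI ⊢
      exact ⟨hI.1.trans h.le, hI.2⟩
    refine h4.trans ?_
    have h5 : ((IX K x₀).card : ℝ) ≤ max (max (L + 1) 1) ((IX K x₀).card : ℝ) := le_max_right _ _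
    have h6 : (0 : ℝ) ≤ max (max (L + 1) 1) ((IX K x₀).card : ℝ) := le_trans (Nat.cast_nonneg _) h5
    nlinarith

lemma card_le {M : ℝ} (hM : 1 ≤ M) {C : ℝ} (hC : ∀ x : ℝ, 1 ≤ x → ((IX K x).card : ℝ) ≤ C * x)
    (𝒜 : Finset (Finset (Pl K))) (h : ∀ A ∈ 𝒜, (NA A : ℝ) ≤ M) : (𝒜.card : ℝ) ≤ C * M := by
  refine le_trans ?_ (hC M hM)
  refine Nat.cast_le.2 (Finset.card_le_card_of_injOn (fun A => II A) ?_ ?_)
  · intro A hA
    show II A ∈ IX K M
    rw [mem_IX (by linarith), norm_II]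
    exact ⟨h A hA, II_ne_bot A⟩
  · intro A _ B _ hAB
    exact II_inj hAB

/-! ### the number of representations -/

lemma pow_card_le (k : ℝ) (hk : 1 ≤ k) (ε : ℝ) (hε : 0 < ε) : ∃ C : ℝ, 1 ≤ C ∧
    ∀ Q : Finset (Pl K), k ^ Q.card ≤ C * (NA Q : ℝ) ^ ε := by
  classical
  have hfin : {q : Pl K | (Ideal.absNorm q.asIdeal : ℝ) ≤ k ^ (1 / ε)}.Finite := by
    have h1 : {I : Ideal (𝓞 K) | Ideal.absNorm I ≤ ⌊k ^ (1 / ε)⌋₊}.Finite :=
      Ideal.finite_setOfPred_absNorm_le _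
    refine Set.Finite.of_finite_image (f := fun q : Pl K => q.asIdeal) (h1.subset ?_) ?_
    · rintro _ ⟨q, hq, rfl⟩
      exact Nat.le_floor hq
    · intro q _ q' _ h
      exact HeightOneSpectrum.ext h
  refine ⟨k ^ hfin.toFinset.card, one_le_pow₀ hk, ?_⟩
  intro Q
  have h1 : k ^ Q.card = ∏ _q ∈ Q, k := by rw [Finset.prod_const]
  have h2 : (NA Q : ℝ) ^ ε = ∏ q ∈ Q, (Ideal.absNorm q.asIdeal : ℝ) ^ ε := by
    unfold NA
    rw [Nat.cast_prod, Real.finsetProd_rpow]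
    intro q _
    positivity
  rw [h1, h2, ← Finset.prod_filter_mul_prod_filter_not Q (fun q => q ∈ hfin.toFinset)
    (fun _ => k), ← Finset.prod_filter_mul_prod_filter_not Q (fun q => q ∈ hfin.toFinset)
    (fun q => (Ideal.absNorm q.asIdeal : ℝ) ^ ε)]
  have h3 : ∏ _q ∈ Q with _q ∈ hfin.toFinset, k ≤ k ^ hfin.toFinset.card := by
    rw [Finset.prod_const]
    refine pow_le_pow_right₀ hk (Finset.card_le_card ?_)
    intro q hq
    exact (Finset.mem_filter.1 hq).2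
  have h4 : ∏ _q ∈ Q with _q ∉ hfin.toFinset, k ≤
      ∏ q ∈ Q with q ∉ hfin.toFinset, (Ideal.absNorm q.asIdeal : ℝ) ^ ε := by
    refine Finset.prod_le_prod (fun _ _ => by linarith) ?_
    intro q hq
    have h5 := (Finset.mem_filter.1 hq).2
    rw [Set.Finite.mem_toFinset, Set.mem_setOf_eq, not_le] at h5
    have h6 := Real.rpow_le_rpow (by positivity) h5.le hε.le
    rwa [← Real.rpow_mul (by linarith), one_div, inv_mul_cancel₀ hε.ne', Real.rpow_one] at h6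
  have h7 : (1 : ℝ) ≤ ∏ q ∈ Q with q ∈ hfin.toFinset, (Ideal.absNorm q.asIdeal : ℝ) ^ ε := by
    have h9 : ∏ _q ∈ Q with _q ∈ hfin.toFinset, (1 : ℝ) ≤
        ∏ q ∈ Q with q ∈ hfin.toFinset, (Ideal.absNorm q.asIdeal : ℝ) ^ ε := by
      refine Finset.prod_le_prod (fun _ _ => zero_le_one) fun q _ => ?_
      exact Real.one_le_rpow (by exact_mod_cast norm_pl q) hε.le
    rwa [Finset.prod_const_one] at h9
  have h8 : (0 : ℝ) ≤ ∏ q ∈ Q with q ∉ hfin.toFinset, (Ideal.absNorm q.asIdeal : ℝ) ^ ε :=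
    Finset.prod_nonneg fun q _ => by positivity
  calc (∏ _q ∈ Q with _q ∈ hfin.toFinset, k) * ∏ _q ∈ Q with _q ∉ hfin.toFinset, k
      ≤ k ^ hfin.toFinset.card * ∏ q ∈ Q with q ∉ hfin.toFinset, (Ideal.absNorm q.asIdeal : ℝ) ^ ε :=
        mul_le_mul h3 h4 (Finset.prod_nonneg fun _ _ => by linarith) (by positivity)
    _ ≤ k ^ hfin.toFinset.card * ((∏ q ∈ Q with q ∈ hfin.toFinset,
        (Ideal.absNorm q.asIdeal : ℝ) ^ ε) *
        ∏ q ∈ Q with q ∉ hfin.toFinset, (Ideal.absNorm q.asIdeal : ℝ) ^ ε) := by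
        refine mul_le_mul_of_nonneg_left ?_ (by positivity)
        nlinarith

open Classical in
/-- the number of the tuples with a given product -/
lemma rep_le (r : ℕ) (ε : ℝ) (hε : 0 < ε) : ∃ C : ℝ, 1 ≤ C ∧ ∀ (M : ℝ), 1 ≤ M →
    ∀ 𝒜 : Finset (Finset (Pl K)), (∀ A ∈ 𝒜, (NA A : ℝ) ≤ M) → ∀ c : Ideal (𝓞 K),
    (((Fintype.piFinset (fun _ : Fin (r + 1) => 𝒜)).filter
      (fun t => ∏ i, II (t i) = c)).card : ℝ) ≤ C * (M ^ (r + 1)) ^ ε := by
  obtain ⟨C, hC1, hC⟩ := pow_card_le (K := K) (2 ^ (r + 1)) (one_le_pow₀ (by norm_num)) ε hε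
  refine ⟨C, hC1, ?_⟩
  intro M hM 𝒜 h𝒜 c
  rcases Finset.eq_empty_or_nonempty ((Fintype.piFinset (fun _ : Fin (r + 1) => 𝒜)).filter
      (fun t => ∏ i, II (t i) = c)) with h0 | ⟨t₀, ht₀⟩
  · rw [h0, Finset.card_empty, Nat.cast_zero]
    positivity
  obtain ⟨ht1, ht2⟩ := Finset.mem_filter.1 ht₀
  rw [Fintype.mem_piFinset] at ht1
  set Q : Finset (Pl K) := Finset.univ.biUnion t₀ with hQ
  have hQmem : ∀ q, q ∈ Q ↔ q.asIdeal ∣ c := by
    intro q
    rw [hQ, Finset.mem_biUnion, ← ht2, Prime.dvd_finsetProd_iff q.prime]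
    simp only [dvd_II]
  have hsub : ((Fintype.piFinset (fun _ : Fin (r + 1) => 𝒜)).filter
      (fun t => ∏ i, II (t i) = c)) ⊆ Fintype.piFinset (fun _ : Fin (r + 1) => Q.powerset) := by
    intro t ht
    obtain ⟨_, ht3⟩ := Finset.mem_filter.1 ht
    rw [Fintype.mem_piFinset]
    intro i
    rw [Finset.mem_powerset]
    intro q hq
    rw [hQmem, ← ht3]
    exact dvd_trans ((dvd_II q _).2 hq) (Finset.dvd_prod_of_mem _ (Finset.mem_univ i))
  have hcard := Finset.card_le_card hsub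
  rw [Fintype.card_piFinset, Finset.prod_const, Finset.card_univ, Fintype.card_fin,
    Finset.card_powerset, ← pow_mul, mul_comm, pow_mul] at hcard
  have hcard' : (((Fintype.piFinset (fun _ : Fin (r + 1) => 𝒜)).filter
      (fun t => ∏ i, II (t i) = c)).card : ℝ) ≤ ((2 : ℝ) ^ (r + 1)) ^ Q.card := by
    exact_mod_cast hcard
  refine hcard'.trans ((hC Q).trans ?_)
  refine mul_le_mul_of_nonneg_left ?_ (by linarith)
  refine Real.rpow_le_rpow (by positivity) ?_ hε.le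
  have hdvd : II Q ∣ c := by
    have h1 := Finset.prod_primes_dvd (s := Q.image fun q => q.asIdeal) c (by
      intro a ha
      obtain ⟨q, _, rfl⟩ := Finset.mem_image.1 ha
      exact q.prime) (by
      intro a ha
      obtain ⟨q, hq, rfl⟩ := Finset.mem_image.1 ha
      exact (hQmem q).1 hq)
    rwa [Finset.prod_image (fun q _ q' _ h => HeightOneSpectrum.ext h)] at h1
  have hc0 : Ideal.absNorm c ≠ 0 := by
    rw [← ht2, map_prod]
    refine Finset.prod_ne_zero_iff.2 fun i _ => ?_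
    rw [norm_II]
    exact Nat.pos_iff_ne_zero.1 (NA_pos _)
  have h2 : NA Q ≤ Ideal.absNorm c := by
    rw [← norm_II]
    exact Nat.le_of_dvd (Nat.pos_of_ne_zero hc0) (map_dvd Ideal.absNorm hdvd)
  have h3 : (Ideal.absNorm c : ℝ) ≤ M ^ (r + 1) := by
    rw [← ht2, map_prod, Nat.cast_prod]
    refine (Finset.prod_le_prod (fun _ _ => Nat.cast_nonneg _) (g := fun _ => M) ?_).trans ?_
    · intro i _
      rw [norm_II]
      exact h𝒜 _ (ht1 i)
    · rw [Finset.prod_const, Finset.card_univ, Fintype.card_fin]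
  exact le_trans (by exact_mod_cast h2) h3

open Classical in
lemma rep_le_one (𝒜 : Finset (Finset (Pl K))) (c : Ideal (𝓞 K)) :
    (((Fintype.piFinset (fun _ : Fin (0 + 1) => 𝒜)).filter
      (fun t => ∏ i, II (t i) = c)).card : ℝ) ≤ 1 := by
  have : ((Fintype.piFinset (fun _ : Fin (0 + 1) => 𝒜)).filter
      (fun t => ∏ i, II (t i) = c)).card ≤ 1 := by
    rw [Finset.card_le_one]
    intro t ht t' ht'
    have h1 := (Finset.mem_filter.1 ht).2
    have h2 := (Finset.mem_filter.1 ht').2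
    rw [Fin.prod_univ_one] at h1 h2
    funext i
    rw [Fin.fin_one_eq_zero i]
    exact II_inj (h1.trans h2.symm)
  exact_mod_cast this

end

/-! ### the characters -/

section
variable {K : Type} [Field K] [NumberField K]

lemma ee_eq (ℓ : ℕ) [NeZero ℓ] (a : ZMod ℓ) : ee ℓ a = ZMod.stdAddChar a := by
  rw [ZMod.stdAddChar_apply, ZMod.toCircle_apply]
  rfl

lemma ee_add (ℓ : ℕ) [NeZero ℓ] (a b : ZMod ℓ) : ee ℓ (a + b) = ee ℓ a * ee ℓ b := by
  rw [ee_eq, ee_eq, ee_eq, AddChar.map_add_eq_mul]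

lemma ee_zero (ℓ : ℕ) [NeZero ℓ] : ee ℓ 0 = 1 := by
  rw [ee_eq, AddChar.map_zero_eq_one]

lemma ee_sum (ℓ : ℕ) [NeZero ℓ] {ι : Type} (s : Finset ι) (f : ι → ZMod ℓ) :
    ee ℓ (∑ i ∈ s, f i) = ∏ i ∈ s, ee ℓ (f i) := by
  classical
  induction s using Finset.induction_on with
  | empty => rw [Finset.sum_empty, Finset.prod_empty, ee_zero]
  | insert a s ha ih => rw [Finset.sum_insert ha, Finset.prod_insert ha, ee_add, ih]

lemma norm_ee (ℓ : ℕ) [NeZero ℓ] (a : ZMod ℓ) : ‖ee ℓ a‖ = 1 := by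
  rw [ee_eq, ZMod.stdAddChar_apply]
  exact Circle.norm_coe _

lemma coprime_congr {I : Ideal (𝓞 K)} {α β : 𝓞 K} (h : IsCoprime (Ideal.span {α}) I)
    (hab : β - α ∈ I) : IsCoprime (Ideal.span {β}) I := by
  rw [Ideal.isCoprime_iff_exists] at h ⊢
  obtain ⟨i, hi, k, hk, hik⟩ := h
  obtain ⟨u, rfl⟩ := Ideal.mem_span_singleton.1 hi
  refine ⟨β * u, Ideal.mul_mem_right _ _ (Ideal.mem_span_singleton_self β), k - (β - α) * u,
    sub_mem hk (Ideal.mul_mem_right _ _ hab), ?_⟩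
  rw [← hik]
  ring

lemma char_congr {𝔪 : Ideal (𝓞 K)} {η : Ideal (𝓞 K) →*₀ ℂ} (h : IsModChar 𝔪 (fun _ => 0) η)
    {α β : 𝓞 K} (hα : IsCoprime (Ideal.span {α}) 𝔪) (hab : β - α ∈ 𝔪) :
    η (Ideal.span {β}) = η (Ideal.span {α}) := by
  have h1 : (1 : 𝓞 K) ∉ 𝔪 := fun h1 => h.ne_top (Ideal.eq_top_of_isUnit_mem _ h1 isUnit_one)
  obtain ⟨i, hi, k, hk, hik⟩ := Ideal.isCoprime_iff_exists.1 hα
  obtain ⟨u, rfl⟩ := Ideal.mem_span_singleton.1 hi
  have key : ∀ γ : 𝓞 K, γ * u - 1 ∈ 𝔪 → η (Ideal.span {γ}) * η (Ideal.span {u}) = 1 := by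
    intro γ hγ
    have h0 : γ * u ≠ 0 := by
      intro h0
      rw [h0, zero_sub] at hγ
      exact h1 (by simpa using neg_mem hγ)
    rw [← map_mul, Ideal.span_singleton_mul_span_singleton, h.sig _ h0 hγ]
    unfold Pool.Agent.Y773.G.sg
    simp
  have e1 : α * u - 1 ∈ 𝔪 := by
    have : α * u - 1 = -k := by rw [← hik]; ring
    rw [this]
    exact neg_mem hk
  have e2 : β * u - 1 ∈ 𝔪 := by
    have : β * u - 1 = (β - α) * u + (α * u - 1) := by ring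
    rw [this]
    exact add_mem (Ideal.mul_mem_right _ _ hab) e1
  have h3 := key α e1
  have h4 := key β e2
  have h5 : η (Ideal.span {u}) ≠ 0 := fun h5 => by rw [h5, mul_zero] at h3; exact zero_ne_one h3
  exact mul_right_cancel₀ h5 (h4.trans h3.symm)

lemma crt {I J : Ideal (𝓞 K)} (h : IsCoprime I J) (α : 𝓞 K) :
    ∃ β : 𝓞 K, β - α ∈ I ∧ β - 1 ∈ J := by
  obtain ⟨i, hi, k, hk, hik⟩ := Ideal.isCoprime_iff_exists.1 h
  refine ⟨α * k + i, ?_, ?_⟩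
  · have : α * k + i - α = i * (1 - α) := by
      have : k = 1 - i := by rw [← hik]; ring
      rw [this]; ring
    rw [this]
    exact Ideal.mul_mem_right _ _ hi
  · have : α * k + i - 1 = k * (α - 1) := by
      have : i = 1 - k := by rw [← hik]; ring
      rw [this]; ring
    rw [this]
    exact Ideal.mul_mem_right _ _ hk

lemma coprime_pl {p q : Pl K} (h : p ≠ q) : IsCoprime p.asIdeal q.asIdeal := by
  rw [Ideal.isCoprime_iff_sup_eq]
  exact Ideal.IsMaximal.coprime_of_ne p.isMaximal q.isMaximal fun h1 => h (HeightOneSpectrum.ext h1)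

lemma coprime_II (q : Pl K) (B : Finset (Pl K)) : IsCoprime q.asIdeal (II B) ↔ q ∉ B := by
  unfold II
  rw [IsCoprime.prod_right_iff]
  constructor
  · intro h hq
    have h1 := h q hq
    rw [Ideal.isCoprime_iff_sup_eq, sup_idem] at h1
    exact q.isPrime.ne_top h1
  · intro h p hp
    exact coprime_pl (by rintro rfl; exact h hp)

/-- two characters which agree at the places agree on the ideals -/
lemma char_ext {𝔫 : Ideal (𝓞 K)} {η η' : Ideal (𝓞 K) →*₀ ℂ}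
    (h : ∀ q : Pl K, IsCoprime q.asIdeal 𝔫 → η q.asIdeal = η' q.asIdeal) :
    ∀ 𝔞 : Ideal (𝓞 K), IsCoprime 𝔞 𝔫 → η 𝔞 = η' 𝔞 := by
  intro 𝔞
  induction 𝔞 using UniqueFactorizationMonoid.induction_on_prime with
  | h₁ => intro _; rw [map_zero, map_zero]
  | h₂ x hx =>
    intro _
    have : x = 1 := by
      rw [Ideal.isUnit_iff] at hx
      rw [hx]
      exact Ideal.one_eq_top.symm
    rw [this, map_one, map_one]
  | h₃ a p ha hp ih =>
    intro hc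
    have hp0 : p ≠ ⊥ := hp.ne_zero
    have h1 := h ⟨p, Ideal.isPrime_of_prime hp, hp0⟩ (IsCoprime.of_mul_left_left hc)
    rw [map_mul, map_mul, ih (IsCoprime.of_mul_left_right hc)]
    exact congrArg (· * η' a) h1

variable {ℓ : ℕ} {S : Finset (Pl K)} {𝔪 : Ideal (𝓞 K)} {Λ : Type} [AddCommGroup Λ]
  {χ : Λ → Pl K → ZMod ℓ} {sy : Pl K → Pl K → ZMod ℓ}

lemma chi_zero (h : SymSys ℓ K S 𝔪 Λ χ sy) (q : Pl K) : χ 0 q = 0 := by
  have := h.add 0 0 q
  rw [add_zero] at this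
  exact left_eq_add.1 this

lemma syA_symm (h : SymSys ℓ K S 𝔪 Λ χ sy) {A B : Finset (Pl K)} (hA : Disjoint A S)
    (hB : Disjoint B S) (hAB : Disjoint A B) : syA sy A B = syA sy B A := by
  unfold syA
  rw [Finset.sum_comm]
  refine Finset.sum_congr rfl fun b hb => Finset.sum_congr rfl fun a ha => ?_
  refine h.symm a b (Finset.disjoint_left.1 hA ha) (Finset.disjoint_left.1 hB hb) ?_
  rintro rfl
  exact Finset.disjoint_left.1 hAB ha hb

/-- the character attached to `B` -/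
def IsCh (ℓ : ℕ) (S : Finset (Pl K)) (𝔪 : Ideal (𝓞 K)) (sy : Pl K → Pl K → ZMod ℓ) (j : ZMod ℓ)
    (B : Finset (Pl K)) (η : Ideal (𝓞 K) →*₀ ℂ) : Prop :=
  IsModChar (𝔪 * II B) (fun _ => 0) η ∧ (∀ 𝔞, IsCoprime 𝔞 (𝔪 * II B) → η 𝔞 ^ ℓ = 1) ∧
    ∀ q : Pl K, q ∉ S → q ∉ B → η q.asIdeal = ee ℓ (∑ b ∈ B, j * sy b q)

open Classical in
lemma exists_ch (h : SymSys ℓ K S 𝔪 Λ χ sy) {j : ZMod ℓ} (hj : j ≠ 0) (B : Finset (Pl K))
    (hB : Disjoint B S) : ∃ η : Ideal (𝓞 K) →*₀ ℂ, IsCh ℓ S 𝔪 sy j B η := by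
  obtain ⟨η, h1, h2, h3, -⟩ := h.char 0 (fun b => if b ∈ B then j else 0) B hB (by
    intro b
    by_cases hb : b ∈ B
    · simp [hb, hj]
    · simp [hb])
  refine ⟨η, h1, h2, ?_⟩
  intro q hq hqB
  rw [h3 q hq hqB, chi_zero h, zero_add]
  congr 1
  refine Finset.sum_congr rfl fun b hb => ?_
  rw [if_pos hb]

lemma norm_ch_le (hℓ : ℓ ≠ 0) {j : ZMod ℓ} {B : Finset (Pl K)} {η : Ideal (𝓞 K) →*₀ ℂ}
    (h : IsCh ℓ S 𝔪 sy j B η) (𝔞 : Ideal (𝓞 K)) : ‖η 𝔞‖ ≤ 1 := by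
  by_cases hc : IsCoprime 𝔞 (𝔪 * II B)
  · have h1 := h.2.1 𝔞 hc
    have h2 : ‖η 𝔞‖ ^ ℓ = 1 := by rw [← norm_pow, h1, norm_one]
    exact ((pow_eq_one_iff_of_nonneg (norm_nonneg _) hℓ).1 h2).le
  · have h1 : η 𝔞 = 0 := by
      by_contra h1
      exact hc ((h.1.supp 𝔞).1 h1)
    rw [h1, norm_zero]
    exact zero_le_one

open Classical in
lemma ch_II [NeZero ℓ] (h : SymSys ℓ K S 𝔪 Λ χ sy) {j : ZMod ℓ} {B : Finset (Pl K)}
    (hB : Disjoint B S) {η : Ideal (𝓞 K) →*₀ ℂ} (hη : IsCh ℓ S 𝔪 sy j B η)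
    {A : Finset (Pl K)} (hA : Disjoint A S) :
    η (II A) = if Disjoint A B then ee ℓ (j * syA sy A B) else 0 := by
  split_ifs with hAB
  · have h1 : η (II A) = ∏ q ∈ A, ee ℓ (∑ b ∈ B, j * sy b q) := by
      unfold II
      rw [map_prod]
      refine Finset.prod_congr rfl fun q hq => ?_
      exact hη.2.2 q (Finset.disjoint_left.1 hA hq) (Finset.disjoint_left.1 hAB hq)
    rw [h1, ← ee_sum, syA_symm h hA hB hAB]
    congr 1
    unfold syA
    rw [Finset.sum_comm, Finset.mul_sum]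
    refine Finset.sum_congr rfl fun b _ => ?_
    rw [Finset.mul_sum]
  · rw [Finset.not_disjoint_iff] at hAB
    obtain ⟨q, hqA, hqB⟩ := hAB
    unfold II
    rw [map_prod]
    refine Finset.prod_eq_zero hqA ?_
    by_contra h1
    have h2 := (hη.1.supp q.asIdeal).1 h1
    have h3 := IsCoprime.of_mul_right_right h2
    exact (coprime_II q B).1 h3 hqB

open Classical in
/-- the characters of different sets are different on the principal ideals -/
lemma ch_ne [NeZero ℓ] (h : SymSys ℓ K S 𝔪 Λ χ sy) {j : ZMod ℓ} (hj : j ≠ 0)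
    {B B' : Finset (Pl K)} (hB : Disjoint B S) (hB' : Disjoint B' S) (hne : B ≠ B')
    {η η' : Ideal (𝓞 K) →*₀ ℂ} (hη : IsCh ℓ S 𝔪 sy j B η) (hη' : IsCh ℓ S 𝔪 sy j B' η') :
    ∃ α : 𝓞 K, IsCoprime (Ideal.span {α}) ((𝔪 * II B) * (𝔪 * II B')) ∧
      η (Ideal.span {α}) ≠ η' (Ideal.span {α}) := by
  set Δ : Finset (Pl K) := (B \ B') ∪ (B' \ B) with hΔ
  have hΔS : Disjoint Δ S := by
    rw [hΔ, Finset.disjoint_union_left]
    exact ⟨hB.mono_left Finset.sdiff_subset, hB'.mono_left Finset.sdiff_subset⟩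
  have hΔne : Δ.Nonempty := by
    rw [Finset.nonempty_iff_ne_empty]
    intro h0
    rw [hΔ, Finset.union_eq_empty, Finset.sdiff_eq_empty_iff_subset,
      Finset.sdiff_eq_empty_iff_subset] at h0
    exact hne (Finset.Subset.antisymm h0.1 h0.2)
  set jj : Pl K → ZMod ℓ := fun b => (if b ∈ B then j else 0) - (if b ∈ B' then j else 0) with hjj
  obtain ⟨ψ, h1, h2, h3, -, h5⟩ := h.char 0 jj Δ hΔS (by
    intro b
    rw [hΔ, Finset.mem_union, Finset.mem_sdiff, Finset.mem_sdiff, hjj]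
    by_cases hb : b ∈ B <;> by_cases hb' : b ∈ B' <;> simp [hb, hb', hj])
  obtain ⟨α', hα1, hα2⟩ := h5 hΔne
  -- make it prime to the common part
  have hcop : IsCoprime (𝔪 * II Δ) (II (B ∩ B')) := by
    refine IsCoprime.prod_right fun b hb => ?_
    obtain ⟨hb1, hb2⟩ := Finset.mem_inter.1 hb
    refine IsCoprime.mul_left ?_ ?_
    · exact ((h.cop b).2 (Finset.disjoint_left.1 hB hb1)).symm
    · refine ((coprime_II b Δ).2 ?_).symm
      rw [hΔ, Finset.mem_union, Finset.mem_sdiff, Finset.mem_sdiff]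
      tauto
  obtain ⟨α, hα3, hα4⟩ := crt hcop α'
  have hα5 : IsCoprime (Ideal.span {α}) (𝔪 * II Δ) := coprime_congr hα1 hα3
  have hα6 : ψ (Ideal.span {α}) ≠ 1 := by
    rw [char_congr h1 hα1 hα3]
    exact hα2
  have hα7 : IsCoprime (Ideal.span {α}) (II (B ∩ B')) := by
    refine coprime_congr (α := 1) ?_ hα4
    rw [Ideal.span_singleton_one, ← Ideal.one_eq_top]
    exact isCoprime_one_left
  have hα8 : IsCoprime (Ideal.span {α}) 𝔪 := IsCoprime.of_mul_right_left hα5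
  have hα9 : IsCoprime (Ideal.span {α}) (II Δ) := IsCoprime.of_mul_right_right hα5
  have hpl : ∀ q : Pl K, q ∈ B ∨ q ∈ B' → IsCoprime (Ideal.span {α}) q.asIdeal := by
    intro q hq
    by_cases hq2 : q ∈ B ∩ B'
    · exact (IsCoprime.prod_right_iff.1 hα7) q hq2
    · refine (IsCoprime.prod_right_iff.1 hα9) q ?_
      rw [Finset.mem_inter] at hq2
      rw [hΔ, Finset.mem_union, Finset.mem_sdiff, Finset.mem_sdiff]
      tauto
  have hBc : IsCoprime (Ideal.span {α}) (II B) :=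
    IsCoprime.prod_right fun q hq => hpl q (Or.inl hq)
  have hBc' : IsCoprime (Ideal.span {α}) (II B') :=
    IsCoprime.prod_right fun q hq => hpl q (Or.inr hq)
  have hcc : IsCoprime (Ideal.span {α}) ((𝔪 * II B) * (𝔪 * II B')) :=
    (hα8.mul_right hBc).mul_right (hα8.mul_right hBc')
  refine ⟨α, hcc, ?_⟩
  intro heq
  -- `ψ η' = η` on the ideals prime to everything
  have h6 : ∀ 𝔞 : Ideal (𝓞 K), IsCoprime 𝔞 ((𝔪 * II B) * (𝔪 * II B')) → (ψ * η') 𝔞 = η 𝔞 := by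
    refine char_ext fun q hq => ?_
    have hqS : q ∉ S := (h.cop q).1 (IsCoprime.of_mul_right_left (IsCoprime.of_mul_right_left hq))
    have hqB : q ∉ B := (coprime_II q B).1
      (IsCoprime.of_mul_right_right (IsCoprime.of_mul_right_left hq))
    have hqB' : q ∉ B' := (coprime_II q B').1
      (IsCoprime.of_mul_right_right (IsCoprime.of_mul_right_right hq))
    have hqΔ : q ∉ Δ := by
      rw [hΔ, Finset.mem_union, Finset.mem_sdiff, Finset.mem_sdiff]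
      tauto
    show ψ q.asIdeal * η' q.asIdeal = η q.asIdeal
    rw [h3 q hqS hqΔ, hη'.2.2 q hqS hqB', hη.2.2 q hqS hqB, chi_zero h, zero_add, ← ee_add]
    congr 1
    have e1 : ∑ b ∈ B, j * sy b q = ∑ b ∈ B ∪ B', (if b ∈ B then j else 0) * sy b q := by
      rw [← Finset.sum_subset (Finset.subset_union_left : B ⊆ B ∪ B')]
      · exact Finset.sum_congr rfl fun b hb => by rw [if_pos hb]
      · intro b _ hb
        rw [if_neg hb, zero_mul]
    have e2 : ∑ b ∈ B', j * sy b q = ∑ b ∈ B ∪ B', (if b ∈ B' then j else 0) * sy b q := by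
      rw [← Finset.sum_subset (Finset.subset_union_right : B' ⊆ B ∪ B')]
      · exact Finset.sum_congr rfl fun b hb => by rw [if_pos hb]
      · intro b _ hb
        rw [if_neg hb, zero_mul]
    have e3 : ∑ b ∈ Δ, jj b * sy b q = ∑ b ∈ B ∪ B', jj b * sy b q := by
      refine Finset.sum_subset ?_ ?_
      · intro b hb
        rw [hΔ, Finset.mem_union, Finset.mem_sdiff, Finset.mem_sdiff] at hb
        rw [Finset.mem_union]
        tauto
      · intro b hb1 hb2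
        rw [hΔ, Finset.mem_union, Finset.mem_sdiff, Finset.mem_sdiff] at hb2
        rw [Finset.mem_union] at hb1
        have hb3 : b ∈ B ∧ b ∈ B' := by tauto
        rw [hjj]
        simp [hb3.1, hb3.2]
    rw [e1, e2, e3, ← Finset.sum_add_distrib]
    refine Finset.sum_congr rfl fun b _ => ?_
    rw [hjj]
    ring
  have h7 := h6 _ hcc
  have h8 : η' (Ideal.span {α}) ≠ 0 := (hη'.1.supp _).2 (hα8.mul_right hBc')
  rw [heq] at h7
  have h9 : ψ (Ideal.span {α}) * η' (Ideal.span {α}) = 1 * η' (Ideal.span {α}) := by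
    rw [one_mul]
    exact h7
  exact hα6 (mul_right_cancel₀ h8 h9)

end

/-! ### the bilinear sum -/

section
variable {K : Type} [Field K] [NumberField K] {ℓ : ℕ} {S : Finset (Pl K)} {𝔪 : Ideal (𝓞 K)}
  {Λ : Type} [AddCommGroup Λ] {χ : Λ → Pl K → ZMod ℓ} {sy : Pl K → Pl K → ZMod ℓ}

open Classical in
lemma step [NeZero ℓ] (hsys : SymSys ℓ K S 𝔪 Λ χ sy) {CL D C₁ : ℝ} (hCL : 1 ≤ CL) (hD : 1 ≤ D)
    (hLS : ∀ (ι : Type) [Fintype ι] (𝔪 : ι → Ideal (𝓞 K)) (η : ι → Ideal (𝓞 K) →*₀ ℂ) (R Y : ℝ),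
      1 ≤ R → 1 ≤ Y → (∀ i, IsModChar (𝔪 i) (fun _ => 0) (η i)) → (∀ i 𝔞, ‖η i 𝔞‖ ≤ 1) →
      (∀ i, (Ideal.absNorm (𝔪 i) : ℝ) ≤ R) →
      (∀ i j, i ≠ j → ∃ α : 𝓞 K, IsCoprime (Ideal.span {α}) (𝔪 i * 𝔪 j) ∧
        η i (Ideal.span {α}) ≠ η j (Ideal.span {α})) → ∀ ε : ι → ℂ, (∀ i, ‖ε i‖ ≤ 1) →
      ∑ 𝔠 ∈ IX K Y, ‖∑ i, ε i * η i 𝔠‖ ^ 2 ≤
        CL * (Fintype.card ι * Y + (Fintype.card ι : ℝ) ^ 2 * R ^ D * Y ^ (1 - 1 / D)))
    (hC₁ : 1 ≤ C₁) (hcount : ∀ x : ℝ, 1 ≤ x → ((IX K x).card : ℝ) ≤ C₁ * x)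
    (n : ℕ) (M N U : ℝ) (hM : 1 ≤ M) (hN : 1 ≤ N) (hU : 0 ≤ U)
    (hMN : N ^ (D + 1) ≤ (M ^ (n + 1)) ^ (1 / D))
    (𝒜 ℬ : Finset (Finset (Pl K))) (h𝒜 : ∀ A ∈ 𝒜, Disjoint A S ∧ (NA A : ℝ) ≤ M)
    (hℬ : ∀ B ∈ ℬ, Disjoint B S ∧ (NA B : ℝ) ≤ N)
    (hrep : ∀ c : Ideal (𝓞 K), (((Fintype.piFinset (fun _ : Fin (n + 1) => 𝒜)).filter
      (fun t => ∏ i, II (t i) = c)).card : ℝ) ≤ U)
    (α : Finset (Pl K) → ℂ) (hα : ∀ A, ‖α A‖ ≤ 1) (j : ZMod ℓ) (hj : j ≠ 0)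
    (η : Finset (Pl K) → Ideal (𝓞 K) →*₀ ℂ) (hη : ∀ B ∈ ℬ, IsCh ℓ S 𝔪 sy j B (η B)) :
    (∑ B ∈ ℬ, ‖∑ A ∈ 𝒜, α A * η B (II A)‖) ^ (2 * (n + 1)) ≤
      (C₁ ^ (2 * n) * C₁ ^ (n + 1) *
        (CL * (C₁ + C₁ ^ 2 * (Ideal.absNorm 𝔪 : ℝ) ^ D))) * U * (N ^ (2 * n) * N) *
        (M ^ (n + 1) * M ^ (n + 1)) := by
  have hℓ0 : ℓ ≠ 0 := NeZero.ne ℓ
  set c₀ : ℝ := (Ideal.absNorm 𝔪 : ℝ) with hc₀
  have hc1 : 1 ≤ c₀ := by
    have : 1 ≤ Ideal.absNorm 𝔪 :=
      Nat.pos_of_ne_zero fun h => hsys.ne_bot (Ideal.absNorm_eq_zero_iff.1 h)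
    rw [hc₀]
    exact_mod_cast this
  set Y : ℝ := M ^ (n + 1) with hY
  have hY1 : 1 ≤ Y := one_le_pow₀ hM
  have hbc : (ℬ.card : ℝ) ≤ C₁ * N := card_le hN hcount ℬ fun B hB => (hℬ B hB).2
  have hac : (𝒜.card : ℝ) ≤ C₁ * M := card_le hM hcount 𝒜 fun A hA => (h𝒜 A hA).2
  set L : ℝ := CL * ((ℬ.card : ℝ) * Y + (ℬ.card : ℝ) ^ 2 * (c₀ * N) ^ D * Y ^ (1 - 1 / D)) with hL
  have h1 := holder 𝒜 ℬ II (fun B => ((η B : Ideal (𝓞 K) →*₀ ℂ) : Ideal (𝓞 K) →* ℂ)) α hα n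
    (IX K Y) U L (by
      intro t ht
      rw [Fintype.mem_piFinset] at ht
      rw [mem_IX (by linarith)]
      constructor
      · rw [map_prod, Nat.cast_prod]
        refine (Finset.prod_le_prod (fun _ _ => Nat.cast_nonneg _) (g := fun _ => M) ?_).trans ?_
        · intro i _
          rw [norm_II]
          exact (h𝒜 _ (ht i)).2
        · rw [Finset.prod_const, Finset.card_univ, Fintype.card_fin]
      · exact Finset.prod_ne_zero_iff.2 fun i _ => II_ne_bot _)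
    (fun c _ => hrep c)
    (by
      intro ε hε
      have h2 := hLS ℬ (fun i => 𝔪 * II i.1) (fun i => η i.1) (c₀ * N) Y
        (one_le_mul_of_one_le_of_one_le hc1 hN) hY1 (fun i => (hη i.1 i.2).1)
        (fun i 𝔞 => norm_ch_le hℓ0 (hη i.1 i.2) 𝔞)
        (fun i => by
          rw [map_mul, norm_II]
          push_cast
          exact mul_le_mul_of_nonneg_left (hℬ i.1 i.2).2 (by linarith))
        (fun i i' hii => ch_ne hsys hj (hℬ i.1 i.2).1 (hℬ i'.1 i'.2).1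
          (fun h => hii (Subtype.ext h)) (hη i.1 i.2) (hη i'.1 i'.2))
        (fun i => ε i.1) (fun i => hε i.1)
      rw [Fintype.card_coe] at h2
      refine le_trans (le_of_eq ?_) h2
      refine Finset.sum_congr rfl fun c _ => ?_
      congr 2
      exact (Finset.sum_coe_sort ℬ (fun B => ε B * η B c)).symm)
  refine h1.trans ?_
  have hN0 : 0 < N := by linarith
  have hb0 : (0 : ℝ) ≤ ℬ.card := Nat.cast_nonneg _
  have ha0 : (0 : ℝ) ≤ 𝒜.card := Nat.cast_nonneg _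
  have e1 : (ℬ.card : ℝ) ^ (2 * n) ≤ C₁ ^ (2 * n) * N ^ (2 * n) := by
    rw [← mul_pow]
    exact pow_le_pow_left₀ hb0 hbc _
  have e2 : (𝒜.card : ℝ) ^ (n + 1) ≤ C₁ ^ (n + 1) * M ^ (n + 1) := by
    rw [← mul_pow]
    exact pow_le_pow_left₀ ha0 hac _
  have e3 : (ℬ.card : ℝ) ^ 2 * (c₀ * N) ^ D * Y ^ (1 - 1 / D) ≤ C₁ ^ 2 * c₀ ^ D * (N * Y) := by
    have f1 : (ℬ.card : ℝ) ^ 2 ≤ C₁ ^ 2 * N ^ 2 := by
      rw [← mul_pow]
      exact pow_le_pow_left₀ hb0 hbc _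
    have f2 : (c₀ * N) ^ D = c₀ ^ D * N ^ D := Real.mul_rpow (by linarith) hN0.le
    have f3 : Y ^ (1 - 1 / D) * N ^ (D + 1) ≤ Y := by
      have : Y ^ (1 - 1 / D) * N ^ (D + 1) ≤ Y ^ (1 - 1 / D) * Y ^ (1 / D) :=
        mul_le_mul_of_nonneg_left hMN (by positivity)
      refine this.trans (le_of_eq ?_)
      rw [← Real.rpow_add (by linarith)]
      have : 1 - 1 / D + 1 / D = 1 := by ring
      rw [this, Real.rpow_one]
    have f4 : N ^ 2 * N ^ D = N * N ^ (D + 1) := by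
      rw [Real.rpow_add hN0, Real.rpow_one]
      ring
    have f5 : 0 ≤ c₀ ^ D := by positivity
    have f6 : 0 ≤ Y ^ (1 - 1 / D) := by positivity
    calc (ℬ.card : ℝ) ^ 2 * (c₀ * N) ^ D * Y ^ (1 - 1 / D)
        ≤ (C₁ ^ 2 * N ^ 2) * (c₀ * N) ^ D * Y ^ (1 - 1 / D) := by
          refine mul_le_mul_of_nonneg_right (mul_le_mul_of_nonneg_right f1 ?_) f6
          positivity
      _ = C₁ ^ 2 * c₀ ^ D * (N * (Y ^ (1 - 1 / D) * N ^ (D + 1))) := by
          rw [f2]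
          have : C₁ ^ 2 * N ^ 2 * (c₀ ^ D * N ^ D) * Y ^ (1 - 1 / D) =
            C₁ ^ 2 * c₀ ^ D * (N ^ 2 * N ^ D) * Y ^ (1 - 1 / D) := by ring
          rw [this, f4]
          ring
      _ ≤ C₁ ^ 2 * c₀ ^ D * (N * Y) := by
          refine mul_le_mul_of_nonneg_left ?_ (by positivity)
          exact mul_le_mul_of_nonneg_left f3 hN0.le
  have e4 : L ≤ CL * (C₁ + C₁ ^ 2 * c₀ ^ D) * (N * Y) := by
    have hasc : CL * (C₁ + C₁ ^ 2 * c₀ ^ D) * (N * Y) =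
      CL * ((C₁ + C₁ ^ 2 * c₀ ^ D) * (N * Y)) := by ring
    rw [hL, hasc]
    refine mul_le_mul_of_nonneg_left ?_ (by linarith)
    have : (ℬ.card : ℝ) * Y ≤ C₁ * (N * Y) := by
      rw [← mul_assoc]
      exact mul_le_mul_of_nonneg_right hbc (by linarith)
    nlinarith
  have hL0 : 0 ≤ L := by
    rw [hL]
    positivity
  have hC0 : 0 ≤ C₁ ^ (2 * n) * N ^ (2 * n) := by positivity
  calc (ℬ.card : ℝ) ^ (2 * n) * (U * (𝒜.card : ℝ) ^ (n + 1)) * L
      ≤ (C₁ ^ (2 * n) * N ^ (2 * n)) * (U * (C₁ ^ (n + 1) * M ^ (n + 1))) *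
        (CL * (C₁ + C₁ ^ 2 * c₀ ^ D) * (N * Y)) := by
        refine mul_le_mul ?_ e4 hL0 (by positivity)
        refine mul_le_mul e1 (mul_le_mul_of_nonneg_left e2 hU) (by positivity) hC0
    _ = _ := by ring

end

theorem t_BL (h : S_LS) : S_BL := by
  classical
  intro ℓ hℓ K _ _ S 𝔪 Λ _ χ sy hsys
  haveI : NeZero ℓ := ⟨hℓ.ne_zero⟩
  obtain ⟨CL, D, hCL, hD, hLS⟩ := h K
  obtain ⟨C₁, hC₁, hcount⟩ := count_IX K
  set c₀ : ℝ := (Ideal.absNorm 𝔪 : ℝ) with hc₀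
  set C₂ : ℕ → ℝ := fun n => C₁ ^ (2 * n) * C₁ ^ (n + 1) * (CL * (C₁ + C₁ ^ 2 * c₀ ^ D)) with hC₂
  set E : ℝ := D * (D + 2) with hE
  have hE1 : 1 ≤ E := by rw [hE]; nlinarith
  set r : ℕ := ⌈E⌉₊ with hr
  have hrE : E ≤ (r : ℝ) + 1 := (Nat.le_ceil E).trans (by linarith)
  have hr0 : (0 : ℝ) < (r : ℝ) + 1 := by positivity
  set θ : ℝ := 1 / (4 * ((r : ℝ) + 1)) with hθ
  have hθ0 : 0 < θ := by positivity
  have hθ1 : 2 * θ ≤ 1 := by
    rw [hθ, mul_one_div, div_le_one (by positivity)]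
    have : (0 : ℝ) ≤ r := Nat.cast_nonneg _
    linarith
  set ε : ℝ := 1 / (2 * ((r : ℝ) + 1) * E) with hε
  have hε0 : 0 < ε := by positivity
  obtain ⟨Cε, hCε1, hCε⟩ := rep_le (K := K) r ε hε0
  set C₃ : ℝ := max 1 (max (C₂ 0) (C₂ r * Cε)) with hC₃
  have hC31 : 1 ≤ C₃ := le_max_left _ _
  have hC32 : C₂ 0 ≤ C₃ := (le_max_left _ _).trans (le_max_right _ _)
  have hC33 : C₂ r * Cε ≤ C₃ := (le_max_right _ _).trans (le_max_right _ _)
  -- the sum over the long variable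
  have core : ∀ M N : ℝ, 1 ≤ N → N ≤ M → ∀ 𝒜 ℬ : Finset (Finset (Pl K)),
      (∀ A ∈ 𝒜, Disjoint A S ∧ (NA A : ℝ) ≤ M) → (∀ B ∈ ℬ, Disjoint B S ∧ (NA B : ℝ) ≤ N) →
      ∀ α β : Finset (Pl K) → ℂ, (∀ A, ‖α A‖ ≤ 1) → (∀ B, ‖β B‖ ≤ 1) → ∀ j : ZMod ℓ, j ≠ 0 →
      ‖∑ A ∈ 𝒜, ∑ B ∈ ℬ, if Disjoint A B then α A * β B * ee ℓ (j * syA sy A B) else 0‖ ≤
        C₃ * M * N * N ^ (-θ) := by
    intro M N hN hNM 𝒜 ℬ h𝒜 hℬ α β hα hβ j hj
    have hM : 1 ≤ M := hN.trans hNM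
    have hN0 : 0 < N := by linarith
    have hM0 : 0 < M := by linarith
    have hex : ∀ B : Finset (Pl K), ∃ η : Ideal (𝓞 K) →*₀ ℂ, Disjoint B S → IsCh ℓ S 𝔪 sy j B η := by
      intro B
      by_cases hB : Disjoint B S
      · obtain ⟨η, hη⟩ := exists_ch hsys hj B hB
        exact ⟨η, fun _ => hη⟩
      · obtain ⟨η, hη⟩ := exists_ch hsys hj ∅ (Finset.disjoint_empty_left _)
        exact ⟨η, fun h => absurd h hB⟩
    choose η hη using hex
    have hη' : ∀ B ∈ ℬ, IsCh ℓ S 𝔪 sy j B (η B) := fun B hB => hη B (hℬ B hB).1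
    set X : ℝ := ∑ B ∈ ℬ, ‖∑ A ∈ 𝒜, α A * η B (II A)‖ with hX
    have hX0 : 0 ≤ X := Finset.sum_nonneg fun _ _ => norm_nonneg _
    have hSX : ‖∑ A ∈ 𝒜, ∑ B ∈ ℬ, if Disjoint A B then α A * β B * ee ℓ (j * syA sy A B) else 0‖ ≤
        X := by
      rw [Finset.sum_comm]
      refine (norm_sum_le _ _).trans (Finset.sum_le_sum fun B hB => ?_)
      have e1 : ∑ A ∈ 𝒜, (if Disjoint A B then α A * β B * ee ℓ (j * syA sy A B) else 0) =
          β B * ∑ A ∈ 𝒜, α A * η B (II A) := by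
        rw [Finset.mul_sum]
        refine Finset.sum_congr rfl fun A hA => ?_
        rw [ch_II hsys (hℬ B hB).1 (hη' B hB) (h𝒜 A hA).1]
        split_ifs with hAB
        · ring
        · ring
      rw [e1, norm_mul]
      have := hβ B
      have h0 := norm_nonneg (∑ A ∈ 𝒜, α A * η B (II A))
      nlinarith
    refine hSX.trans ?_
    have hpos : 0 ≤ C₃ * M * N * N ^ (-θ) := by positivity
    by_cases hbig : N ^ E ≤ M
    · -- very long: exponent one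
      have h1 := step hsys hCL hD hLS hC₁ hcount 0 M N 1 hM hN zero_le_one (by
        have f1 : N ^ (D + 1) ≤ N ^ (D + 2) := Real.rpow_le_rpow_of_exponent_le hN (by linarith)
        have f2 : N ^ (D + 2) = (N ^ E) ^ (1 / D) := by
          rw [← Real.rpow_mul hN0.le, hE]
          congr 1
          field_simp
        rw [f2] at f1
        refine f1.trans ?_
        rw [zero_add, pow_one]
        exact Real.rpow_le_rpow (by positivity) hbig (by positivity)) 𝒜 ℬ h𝒜 hℬ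
        (rep_le_one 𝒜) α hα j hj η hη'
      rw [← hX] at h1
      refine le_of_pow_le_pow_left₀ (n := 2 * (0 + 1)) (by norm_num) hpos (h1.trans ?_)
      have f3 : N ≤ (N * N ^ (-θ)) ^ 2 := by
        have : (N * N ^ (-θ)) ^ 2 = N ^ (2 - 2 * θ) := by
          rw [mul_pow, ← Real.rpow_natCast, ← Real.rpow_natCast, ← Real.rpow_mul hN0.le,
            ← Real.rpow_add hN0]
          congr 1
          push_cast
          ring
        rw [this]
        have f4 := Real.rpow_le_rpow_of_exponent_le hN (show (1 : ℝ) ≤ 2 - 2 * θ by linarith)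
        rwa [Real.rpow_one] at f4
      have f5 : C₂ 0 ≤ C₃ ^ 2 := hC32.trans (by nlinarith)
      have f6 : 0 ≤ C₂ 0 := by
        rw [hC₂]
        positivity
      calc C₂ 0 * 1 * (N ^ (2 * 0) * N) * (M ^ (0 + 1) * M ^ (0 + 1))
          = C₂ 0 * N * M ^ 2 := by ring
        _ ≤ C₃ ^ 2 * (N * N ^ (-θ)) ^ 2 * M ^ 2 := by
            refine mul_le_mul_of_nonneg_right ?_ (by positivity)
            exact mul_le_mul f5 f3 hN0.le (by positivity)
        _ = (C₃ * M * N * N ^ (-θ)) ^ (2 * (0 + 1)) := by ring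
    · push Not at hbig
      have h1 := step hsys hCL hD hLS hC₁ hcount r M N (Cε * (M ^ (r + 1)) ^ ε) hM hN (by positivity)
        (by
        have f1 : N ^ (D + 1) ≤ N ^ (((r : ℝ) + 1) * (1 / D)) := by
          refine Real.rpow_le_rpow_of_exponent_le hN ?_
          rw [mul_one_div, le_div_iff₀ (by linarith)]
          nlinarith
        refine f1.trans ?_
        rw [Real.rpow_mul hN0.le]
        refine Real.rpow_le_rpow (by positivity) ?_ (by positivity)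
        have : ((r : ℝ) + 1) = ((r + 1 : ℕ) : ℝ) := by push_cast; ring
        rw [this, Real.rpow_natCast]
        exact pow_le_pow_left₀ hN0.le hNM _) 𝒜 ℬ h𝒜 hℬ
        (hCε M hM 𝒜 fun A hA => (h𝒜 A hA).2) α hα j hj η hη'
      rw [← hX] at h1
      refine le_of_pow_le_pow_left₀ (n := 2 * (r + 1)) (by omega) hpos (h1.trans ?_)
      have f2 : (M ^ (r + 1)) ^ ε ≤ N ^ (1 / 2 : ℝ) := by
        have f3 : M ^ (r + 1) ≤ (N ^ E) ^ (r + 1) := pow_le_pow_left₀ hM0.le hbig.le _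
        refine (Real.rpow_le_rpow (by positivity) f3 hε0.le).trans (le_of_eq ?_)
        rw [← Real.rpow_natCast, ← Real.rpow_mul hN0.le, ← Real.rpow_mul hN0.le]
        congr 1
        rw [hε]
        push_cast
        field_simp
      have f4 : N ^ (1 / 2 : ℝ) * (N ^ (2 * r) * N) = (N * N ^ (-θ)) ^ (2 * (r + 1)) := by
        have g1 : N ^ (2 * r) * N = N ^ ((2 * (r : ℝ) + 1)) := by
          rw [Real.rpow_add hN0, Real.rpow_one]
          congr 1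
          rw [← Real.rpow_natCast]
          push_cast
          rfl
        have g2 : N * N ^ (-θ) = N ^ (1 - θ) := by
          rw [sub_eq_add_neg, Real.rpow_add hN0, Real.rpow_one]
        rw [g1, g2, ← Real.rpow_add hN0, ← Real.rpow_natCast, ← Real.rpow_mul hN0.le]
        congr 1
        rw [hθ]
        push_cast
        field_simp
        ring
      have f5 : C₂ r * Cε ≤ C₃ ^ (2 * (r + 1)) :=
        hC33.trans (le_self_pow₀ hC31 (by omega))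
      have f6 : 0 ≤ C₂ r := by
        rw [hC₂]
        positivity
      calc C₂ r * (Cε * (M ^ (r + 1)) ^ ε) * (N ^ (2 * r) * N) * (M ^ (r + 1) * M ^ (r + 1))
          = (C₂ r * Cε) * ((M ^ (r + 1)) ^ ε * (N ^ (2 * r) * N)) * M ^ (2 * (r + 1)) := by ring
        _ ≤ C₃ ^ (2 * (r + 1)) * (N ^ (1 / 2 : ℝ) * (N ^ (2 * r) * N)) * M ^ (2 * (r + 1)) := by
            refine mul_le_mul_of_nonneg_right ?_ (by positivity)
            refine mul_le_mul f5 ?_ (by positivity) (by positivity)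
            exact mul_le_mul_of_nonneg_right f2 (by positivity)
        _ = (C₃ * M * N * N ^ (-θ)) ^ (2 * (r + 1)) := by
            rw [f4, ← mul_pow, ← mul_pow]
            congr 1
            ring
  refine ⟨C₃, θ, by linarith, hθ0, ?_⟩
  intro M N hM hN 𝒜 ℬ h𝒜 hℬ α β hα hβ j hj
  have hlog : 1 ≤ (1 + Real.log M + Real.log N) ^ C₃ := by
    refine Real.one_le_rpow ?_ (by linarith)
    have h1 := Real.log_nonneg hM
    have h2 := Real.log_nonneg hN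
    linarith
  rcases le_total N M with hNM | hMN
  · have h1 := core M N hN hNM 𝒜 ℬ h𝒜 hℬ α β hα hβ j hj
    rw [min_eq_right hNM]
    refine h1.trans (le_mul_of_one_le_right ?_ hlog)
    positivity
  · have h1 := core N M hM hMN ℬ 𝒜 hℬ h𝒜 β α hβ hα j hj
    rw [min_eq_left hMN]
    have h2 : ∑ A ∈ 𝒜, ∑ B ∈ ℬ, (if Disjoint A B then α A * β B * ee ℓ (j * syA sy A B) else 0) =
        ∑ B ∈ ℬ, ∑ A ∈ 𝒜, if Disjoint B A then β B * α A * ee ℓ (j * syA sy B A) else 0 := by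
      rw [Finset.sum_comm]
      refine Finset.sum_congr rfl fun B hB => Finset.sum_congr rfl fun A hA => ?_
      by_cases hAB : Disjoint A B
      · rw [if_pos hAB, if_pos hAB.symm, syA_symm hsys (h𝒜 A hA).1 (hℬ B hB).1 hAB]
        ring
      · rw [if_neg hAB, if_neg fun h => hAB h.symm]
    rw [h2]
    have h3 : C₃ * N * M * M ^ (-θ) = C₃ * M * N * M ^ (-θ) := by ring
    rw [h3] at h1
    refine h1.trans (le_mul_of_one_le_right ?_ hlog)
    positivity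

end Pool.Agent.T3h73.SD.BL
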