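import Pool.Agent.T3h73.SD.Stm
import Pool.Agent.T3h73.SL.T_CNT
import Pool.Agent.T3h73.SL.T_PRD

/-! Project SD, task CARD (helper62): the exact orders for large finite sets of places. -/

set_option autoImplicit false
set_option linter.all false

namespace Pool.Agent.T3h73.SD.CARD

open IsDedekindDomain NumberField WithZero
open Pool.Agent.T3h73.SL (Pl IsP Pk loc Evn Sg)
open Pool.Agent.T3h73.SL.Cnt
open Pool.Agent.Y713.SE (Pw)

variable {K : Type} [Field K] [NumberField K]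

/-- elements which are independent modulo `ℓ`-th powers -/
def Bas (ℓ n : ℕ) (H : Subgroup Kˣ) : Prop :=
  ∃ g : Fin n → Kˣ, (∀ i, g i ∈ H) ∧
    ∀ (e : Fin n → ℤ) (z : Kˣ), ∏ i, g i ^ e i = z ^ ℓ → ∀ i, (ℓ : ℤ) ∣ e i

lemma Bas.index {ℓ n : ℕ} {H : Subgroup Kˣ} (h : Bas ℓ n H) (hf : (Pk ℓ Kˣ).relIndex H ≠ 0) :
    ℓ ^ n ≤ (Pk ℓ Kˣ).relIndex H := by
  classical
  obtain ⟨g, hg, hi⟩ := h
  have h4 : (Pk ℓ Kˣ).relIndex H = Nat.card (H ⧸ (Pk ℓ Kˣ).subgroupOf H) := rfl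
  rw [h4] at hf ⊢
  have hfin : Finite (H ⧸ (Pk ℓ Kˣ).subgroupOf H) := Nat.finite_of_card_ne_zero hf
  let F : (Fin n → Fin ℓ) → H ⧸ (Pk ℓ Kˣ).subgroupOf H := fun e =>
    QuotientGroup.mk ⟨∏ i, g i ^ ((e i : ℕ) : ℤ), prod_mem fun i _ => zpow_mem (hg i) _⟩
  have hF : Function.Injective F := by
    intro e e' hee
    have h1 := QuotientGroup.eq.1 hee
    rw [Subgroup.mem_subgroupOf] at h1
    obtain ⟨z, hz⟩ := h1
    have hz' : z ^ ℓ = (∏ i, g i ^ ((e i : ℕ) : ℤ))⁻¹ * ∏ i, g i ^ ((e' i : ℕ) : ℤ) := hz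
    have h2 : ∏ i, g i ^ (((e' i : ℕ) : ℤ) - ((e i : ℕ) : ℤ)) = z ^ ℓ := by
      rw [hz', ← Finset.prod_inv_distrib, ← Finset.prod_mul_distrib]
      refine Finset.prod_congr rfl fun i _ => ?_
      rw [zpow_sub, mul_comm]
    funext i
    obtain ⟨c, hc⟩ := hi _ z h2 i
    have h3 := (e i).2
    have h5 := (e' i).2
    have h6 : ((e' i : ℕ) : ℤ) - ((e i : ℕ) : ℤ) = ℓ * c := hc
    apply Fin.ext
    have h7 : c = 0 := by
      by_contra hc0
      rcases lt_or_gt_of_ne hc0 with h8 | h8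
      · have : (ℓ : ℤ) * c ≤ -ℓ := by nlinarith
        omega
      · have : (ℓ : ℤ) ≤ ℓ * c := by nlinarith
        omega
    rw [h7, mul_zero] at h6
    omega
  calc ℓ ^ n = Nat.card (Fin n → Fin ℓ) := by
        rw [Nat.card_fun, Nat.card_eq_fintype_card, Fintype.card_fin, Nat.card_eq_fintype_card,
          Fintype.card_fin]
    _ ≤ _ := Nat.card_le_card_of_injective F hF

lemma vl_pow_one {v : Pl K} {z : Kˣ} {ℓ : ℕ} (hℓ : ℓ ≠ 0) (h : vl v (z ^ ℓ) = 1) : vl v z = 1 := by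
  rw [map_pow] at h
  have h1 : ℓ • (Multiplicative.toAdd (vl v z)) = 0 := congrArg Multiplicative.toAdd h
  have h2 : Multiplicative.toAdd (vl v z) = 0 := by
    rw [nsmul_eq_mul, mul_eq_zero] at h1
    rcases h1 with h1 | h1
    · exact absurd h1 (by exact_mod_cast hℓ)
    · exact h1
  exact Multiplicative.toAdd.injective h2

/-- the units in `Kˣ` -/
noncomputable def io : (𝓞 K)ˣ →* Kˣ := Units.map (algebraMap (𝓞 K) K : 𝓞 K →* K)

lemma io_inj : Function.Injective (io (K := K)) :=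
  Units.map_injective (FaithfulSMul.algebraMap_injective (𝓞 K) K)

lemma vl_io (v : Pl K) (u : (𝓞 K)ˣ) : vl v (io u) = 1 := by
  rw [vl_one_iff]
  have h1 : ∀ u : (𝓞 K)ˣ, v.valuation K ((io u : Kˣ) : K) ≤ 1 := fun u =>
    HeightOneSpectrum.valuation_le_one v (u : 𝓞 K)
  refine le_antisymm (h1 u) ?_
  have h2 := h1 u⁻¹
  rw [map_inv, Units.val_inv_eq_inv_val, map_inv₀] at h2
  have h0 : v.valuation K ((io u : Kˣ) : K) ≠ 0 := (Valuation.ne_zero_iff _).2 (io u).ne_zero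
  by_contra h5
  exact absurd h2 (not_le.2 ((one_lt_inv₀ (zero_lt_iff.2 h0)).2 (not_le.1 h5)))

lemma exists_io {x : Kˣ} (hx : ∀ v : Pl K, vl v x = 1) : ∃ u : (𝓞 K)ˣ, io u = x := by
  have hv : ∀ v : Pl K, v.valuation K (x : K) = 1 := fun v => (vl_one_iff v x).1 (hx v)
  obtain ⟨a, ha⟩ := HeightOneSpectrum.mem_integers_of_valuation_le_one (R := 𝓞 K) K (x : K)
    (fun v => (hv v).le)
  obtain ⟨b, hb⟩ := HeightOneSpectrum.mem_integers_of_valuation_le_one (R := 𝓞 K) K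
    ((x⁻¹ : Kˣ) : K) (fun v => by
      rw [Units.val_inv_eq_inv_val, map_inv₀, hv v, inv_one])
  have hab : a * b = 1 := by
    apply FaithfulSMul.algebraMap_injective (𝓞 K) K
    rw [map_mul, ha, hb, map_one, Units.mul_inv]
  exact ⟨⟨a, b, hab, by rw [mul_comm]; exact hab⟩, Units.ext ha⟩

lemma bas_base {ℓ : ℕ} (hℓ : ℓ.Prime) {ζ : K} (hζ : IsPrimitiveRoot ζ ℓ) :
    Bas ℓ (Units.rank K + 1) (TU (∅ : Finset (Pl K))) := by
  classical
  have hne : NeZero ℓ := ⟨hℓ.ne_zero⟩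
  obtain ⟨t, ht⟩ := IsCyclic.exists_generator (α := Units.torsion K)
  refine ⟨Fin.cons (io (t : (𝓞 K)ˣ)) (fun i => io (Units.fundSystem K i)), ?_, ?_⟩
  · intro i v _
    refine Fin.cases ?_ (fun i => ?_) i
    · rw [Fin.cons_zero]; exact vl_io v _
    · rw [Fin.cons_succ]; exact vl_io v _
  · intro e z hez
    rw [Fin.prod_univ_succ] at hez
    simp only [Fin.cons_zero, Fin.cons_succ] at hez
    have hz : ∀ v : Pl K, vl v z = 1 := by
      intro v
      apply vl_pow_one hℓ.ne_zero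
      rw [← hez, map_mul, map_zpow, vl_io, one_zpow, one_mul, map_prod]
      refine Finset.prod_eq_one fun i _ => ?_
      rw [map_zpow, vl_io, one_zpow]
    obtain ⟨u, rfl⟩ := exists_io hz
    have h1 : (t : (𝓞 K)ˣ) ^ e 0 * ∏ i : Fin (Units.rank K), Units.fundSystem K i ^ e i.succ =
        u ^ ℓ := by
      apply io_inj
      rw [map_mul, map_zpow, map_prod, map_pow, ← hez]
      congr 1
      refine Finset.prod_congr rfl fun i _ => ?_
      rw [map_zpow]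
    obtain ⟨⟨ξ, f⟩, hξf, -⟩ := Units.exist_unique_eq_mul_prod K u
    have h2 : u ^ ℓ = ((ξ ^ ℓ : Units.torsion K) : (𝓞 K)ˣ) *
        ∏ i, Units.fundSystem K i ^ ((ℓ : ℤ) * f i) := by
      rw [hξf, mul_pow, ← Finset.prod_pow]
      congr 1
      refine Finset.prod_congr rfl fun i _ => ?_
      rw [mul_comm (ℓ : ℤ), zpow_mul, zpow_natCast]
    obtain ⟨y, -, hy⟩ := Units.exist_unique_eq_mul_prod K (u ^ ℓ)
    have h3 := hy (t ^ e 0, fun i => e i.succ) h1.symm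
    have h4 := hy (ξ ^ ℓ, fun i => (ℓ : ℤ) * f i) h2
    have h5 := h3.trans h4.symm
    rw [Prod.mk.injEq] at h5
    intro i
    refine Fin.cases ?_ (fun i => ?_) i
    · -- the torsion part
      obtain ⟨k, hk⟩ := Subgroup.mem_zpowers_iff.1 (ht ξ)
      have h6 : t ^ (e 0 - k * ℓ) = 1 := by
        rw [zpow_sub, h5.1, ← hk, zpow_mul, zpow_natCast, mul_inv_cancel]
      have h7 : (orderOf t : ℤ) ∣ e 0 - k * ℓ := orderOf_dvd_iff_zpow_eq_one.2 h6
      -- `ℓ` divides the order of `t`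
      have hζ' : IsPrimitiveRoot hζ.toInteger ℓ := hζ.toInteger_isPrimitiveRoot
      have hu : IsUnit hζ.toInteger := hζ'.isUnit hℓ.ne_zero
      have hζu : IsPrimitiveRoot hu.unit ℓ := by
        rw [← IsPrimitiveRoot.coe_units_iff]
        exact hζ'
      have hmem : hu.unit ∈ Units.torsion K := by
        rw [Units.torsion, CommGroup.mem_torsion]
        exact hζu.isOfFinOrder hℓ.ne_zero
      have h8 : orderOf (⟨hu.unit, hmem⟩ : Units.torsion K) = ℓ := by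
        rw [← Subgroup.orderOf_coe]
        exact hζu.eq_orderOf.symm
      have h9 : ℓ ∣ orderOf t := by
        rw [orderOf_eq_card_of_forall_mem_zpowers ht]
        conv_lhs => rw [← h8]
        exact orderOf_dvd_natCard _
      have h10 : (ℓ : ℤ) ∣ e 0 - k * ℓ := (Int.natCast_dvd_natCast.2 h9).trans h7
      have h11 : (ℓ : ℤ) ∣ k * ℓ := Dvd.intro_left k rfl
      have := dvd_add h10 h11
      rwa [sub_add_cancel] at this
    · have := congrFun h5.2 i
      exact ⟨f i, this⟩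

/-- an element with support `w` -/
lemma exists_supp (w : Pl K) : ∃ y : Kˣ, (∀ v, v ≠ w → vl v y = 1) ∧ vl w y ≠ 1 := by
  classical
  have hw : w.asIdeal ∈ nonZeroDivisors (Ideal (𝓞 K)) := mem_nonZeroDivisors_of_ne_zero w.ne_bot
  have h1 : ClassGroup.mk0 (⟨w.asIdeal, hw⟩ ^ Fintype.card (ClassGroup (𝓞 K))) = 1 := by
    rw [map_pow, pow_card_eq_one]
  have hh : Fintype.card (ClassGroup (𝓞 K)) ≠ 0 := Fintype.card_ne_zero
  rw [ClassGroup.mk0_eq_one_iff] at h1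
  obtain ⟨r, hr⟩ := h1
  have hr' : w.asIdeal ^ Fintype.card (ClassGroup (𝓞 K)) = Ideal.span {r} := hr
  have hr0 : r ≠ 0 := by
    rintro rfl
    rw [Ideal.span_singleton_eq_bot.2 rfl] at hr'
    exact pow_ne_zero _ w.ne_bot hr'
  have hrK : algebraMap (𝓞 K) K r ≠ 0 := by rw [Ne, FaithfulSMul.algebraMap_eq_zero_iff]; exact hr0
  have hv : ∀ v : Pl K, v.valuation K (algebraMap (𝓞 K) K r) =
      exp (-((Fintype.card (ClassGroup (𝓞 K)) * Pool.Agent.T3h73.SL.Ord.oi v w.asIdeal : ℕ) : ℤ)) := by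
    intro v
    rw [Pool.Agent.T3h73.SL.Ord.oi_span v hr0, ← hr', Pool.Agent.T3h73.SL.Ord.oi_pow v w.ne_bot]
  refine ⟨Units.mk0 _ hrK, fun v hvw => ?_, fun h => ?_⟩
  · rw [vl_one_iff, Units.val_mk0, hv v, Pool.Agent.T3h73.SL.Ord.oi_other hvw]
    simp
  · rw [vl_one_iff, Units.val_mk0, hv w, Pool.Agent.T3h73.SL.Ord.oi_self, mul_one,
      ← WithZero.exp_zero, WithZero.exp_inj] at h
    omega

lemma bas_step {ℓ n : ℕ} (hℓ : ℓ ≠ 0) {T : Finset (Pl K)} (w : Pl K) (hw : w ∉ T)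
    (h : Bas ℓ n (TU T)) (T' : Finset (Pl K)) (hT' : ∀ v, v ∉ T → v = w ∨ v ∉ T')
    (hT : ∀ v, v ∉ T' → v ∉ T ∧ v ≠ w) : Bas ℓ (n + 1) (TU T') := by
  obtain ⟨g, hg, hi⟩ := h
  obtain ⟨⟨a, ha⟩, hgen⟩ := IsCyclic.exists_generator (α := (TU T').map (vl w))
  obtain ⟨g0, hg0, hga⟩ := ha
  have ha1 : a ≠ 1 := by
    intro ha1
    obtain ⟨y, hy, hy'⟩ := exists_supp w
    have hyT : y ∈ TU T' := fun v hv => hy v (hT v hv).2
    obtain ⟨k, hk⟩ := Subgroup.mem_zpowers_iff.1 (hgen ⟨vl w y, ⟨y, hyT, rfl⟩⟩)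
    have hk' : a ^ k = vl w y := congrArg Subtype.val hk
    rw [ha1, one_zpow] at hk'
    exact hy' hk'.symm
  have hle : ∀ i, g i ∈ TU T' := fun i v hv => hg i v (hT v hv).1
  refine ⟨Fin.cons g0 g, ?_, ?_⟩
  · intro i
    refine Fin.cases ?_ (fun i => ?_) i
    · exact hg0
    · exact hle i
  · intro e z hez
    rw [Fin.prod_univ_succ] at hez
    simp only [Fin.cons_zero, Fin.cons_succ] at hez
    have hz : z ∈ TU T' := by
      intro v hv
      apply vl_pow_one hℓ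
      rw [← hez]
      exact (mul_mem (zpow_mem hg0 _) (prod_mem fun i _ => zpow_mem (hle i) _) :
        g0 ^ e 0 * ∏ i, g i ^ e i.succ ∈ TU T') v hv
    obtain ⟨c, hc⟩ := Subgroup.mem_zpowers_iff.1 (hgen ⟨vl w z, ⟨z, hz, rfl⟩⟩)
    have hc' : a ^ c = vl w z := congrArg Subtype.val hc
    have h1 : a ^ e 0 = a ^ (c * ℓ) := by
      have h2 := congrArg (vl w) hez
      rw [map_mul, map_zpow, hga, map_prod, map_pow, ← hc'] at h2
      rw [Finset.prod_eq_one (fun i _ => by rw [map_zpow, hg i w hw, one_zpow]), mul_one] at h2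
      rw [h2, zpow_mul, zpow_natCast]
    have h2 : e 0 = c * ℓ := by
      have h3 : (e 0) • (Multiplicative.toAdd a) = (c * ℓ) • Multiplicative.toAdd a :=
        congrArg Multiplicative.toAdd h1
      rw [smul_eq_mul, smul_eq_mul] at h3
      have h4 : Multiplicative.toAdd a ≠ 0 := fun h => ha1 (Multiplicative.toAdd.injective h)
      exact mul_right_cancel₀ h4 h3
    have h3 : ∏ i, g i ^ e i.succ = (z * (g0 ^ c)⁻¹) ^ ℓ := by
      rw [mul_pow, ← hez, h2, zpow_mul, zpow_natCast, inv_pow]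
      rw [mul_comm ((g0 ^ c) ^ ℓ), mul_inv_cancel_right]
    intro i
    refine Fin.cases ?_ (fun i => ?_) i
    · rw [h2]; exact Dvd.intro_left c rfl
    · exact hi _ _ h3 i

lemma bas_TU {ℓ : ℕ} (hℓ : ℓ.Prime) {ζ : K} (hζ : IsPrimitiveRoot ζ ℓ) (T : Finset (Pl K)) :
    Bas ℓ (Units.rank K + 1 + T.card) (TU T) := by
  classical
  induction T using Finset.induction_on with
  | empty => rw [Finset.card_empty, add_zero]; exact bas_base hℓ hζ
  | insert w T hw ih =>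
    rw [Finset.card_insert_of_notMem hw, ← add_assoc]
    apply bas_step hℓ.ne_zero w hw ih
    · intro v hv
      by_cases h : v = w
      · exact Or.inl h
      · exact Or.inr (by rw [Finset.mem_insert]; tauto)
    · intro v hv
      rw [Finset.mem_insert, not_or] at hv
      exact ⟨hv.2, hv.1⟩

lemma fin_above (ℓ : ℕ) (hℓ : ℓ ≠ 0) : {v : Pl K | v.valuation K (ℓ : K) ≠ 1}.Finite := by
  have h0 : (ℓ : K) ≠ 0 := by exact_mod_cast hℓ
  refine (HeightOneSpectrum.Support.finite (𝓞 K) ((ℓ : K)⁻¹)).subset ?_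
  intro v hv
  have h1 : v.valuation K (ℓ : K) ≤ 1 := by
    have := HeightOneSpectrum.valuation_le_one (K := K) v (ℓ : 𝓞 K)
    change v.valuation K (algebraMap (𝓞 K) K (ℓ : 𝓞 K)) ≤ 1 at this
    rwa [map_natCast] at this
  have h2 : v.valuation K (ℓ : K) < 1 := lt_of_le_of_ne h1 hv
  have h3 : v.valuation K (ℓ : K) ≠ 0 := (Valuation.ne_zero_iff _).2 h0
  show 1 < v.valuation K ((ℓ : K)⁻¹)
  rw [map_inv₀]
  exact (one_lt_inv₀ (zero_lt_iff.2 h3)).2 h2

theorem t_CARD (hVV : S_VV) : S_CARD := by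
  intro ℓ hℓ hℓ2 K _ _ ζ hζ
  classical
  obtain ⟨T₁, hT₁⟩ := Pool.Agent.T3h73.SL.Cnt.t_CNT ℓ hℓ hℓ2 K ζ hζ
  refine ⟨T₁ ∪ (fin_above (K := K) ℓ hℓ.ne_zero).toFinset, ?_, ?_⟩
  · intro v hv
    rw [Finset.mem_union]
    exact Or.inr ((fin_above (K := K) ℓ hℓ.ne_zero).mem_toFinset.2 hv)
  intro T hT
  have hℓT : ∀ v : Pl K, v.valuation K (ℓ : K) ≠ 1 → v ∈ T := fun v hv =>
    hT (Finset.mem_union.2 (Or.inr ((fin_above (K := K) ℓ hℓ.ne_zero).mem_toFinset.2 hv)))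
  obtain ⟨hA, hne, hle⟩ := hT₁ T (Finset.subset_union_left.trans hT)
  refine ⟨hA, hne, ?_⟩
  have hbas : Bas ℓ (Units.rank K + 1 + T.card) (Sg ℓ T (fun _ => ⊤) : Subgroup Kˣ) := by
    obtain ⟨g, hg, hi⟩ := bas_TU (K := K) hℓ hζ T
    refine ⟨g, fun i => ⟨fun v _ => Subgroup.mem_top _, fun v hv => ?_⟩, hi⟩
    have h1 := (vl_one_iff v (g i)).1 (hg i v hv)
    rw [h1]
    exact Pw.one
  have hlow := hbas.index hne
  have hreal : InfinitePlace.nrRealPlaces K = 0 :=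
    NumberField.InfinitePlace.IsPrimitiveRoot.nrRealPlaces_eq_zero_of_two_lt (lt_of_le_of_ne hℓ.two_le (Ne.symm hℓ2)) hζ
  have hn := InfinitePlace.card_add_two_mul_card_eq_rank K
  have hc := InfinitePlace.card_eq_nrRealPlaces_add_nrComplexPlaces K
  have hpos : 0 < Fintype.card (InfinitePlace K) := Fintype.card_pos
  have hr : Units.rank K + 1 = Fintype.card (InfinitePlace K) := by
    unfold Units.rank
    omega
  have hLT : LT ℓ T ^ 2 = ℓ ^ (2 * T.card + Module.finrank ℚ K) := by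
    apply le_antisymm hle
    calc ℓ ^ (2 * T.card + Module.finrank ℚ K) = (ℓ ^ (Units.rank K + 1 + T.card)) ^ 2 := by
          rw [← pow_mul]
          congr 1
          omega
      _ ≤ LT ℓ T ^ 2 := Nat.pow_le_pow_left hlow 2
  rw [hLT]
  -- the local orders
  have he : ∀ v : Pl K, ∃ e : ℕ, v.valuation K (ℓ : K) = WithZero.exp (-(e : ℤ)) := by
    intro v
    have h0 : (ℓ : K) ≠ 0 := by exact_mod_cast hℓ.ne_zero
    have h3 : v.valuation K (ℓ : K) ≠ 0 := (Valuation.ne_zero_iff _).2 h0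
    have h1 : v.valuation K (ℓ : K) ≤ 1 := by
      have := HeightOneSpectrum.valuation_le_one (K := K) v (ℓ : 𝓞 K)
      change v.valuation K (algebraMap (𝓞 K) K (ℓ : 𝓞 K)) ≤ 1 at this
      rwa [map_natCast] at this
    refine ⟨(-(WithZero.log (v.valuation K (ℓ : K)))).toNat, ?_⟩
    have h4 : WithZero.log (v.valuation K (ℓ : K)) ≤ 0 := by
      rw [← WithZero.log_one]
      exact (WithZero.log_le_log h3 one_ne_zero).2 h1
    rw [Int.toNat_of_nonneg (by omega), neg_neg, exp_log h3]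
  choose e he using he
  have hprd := Pool.Agent.T3h73.SL.Prd.t_PRD ℓ hℓ K T e hℓT he
  unfold VT
  rw [Finset.prod_congr rfl (fun v _ => hVV ℓ hℓ K ζ hζ v (e v) (he v)), Finset.prod_mul_distrib,
    hprd, Finset.prod_const, pow_add, ← pow_mul]

end Pool.Agent.T3h73.SD.CARD
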