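import Pool.Agent.T3h73.SD.Stm4

/-!
# Task CHS of project SD (helper73): the ray class characters given by the symbols
-/

set_option autoImplicit false
set_option linter.all false

open NumberField IsDedekindDomain Filter Topology

namespace Pool.Agent.T3h73.SD.CHS

open Pool.Agent.T3h73.SL (Pl IsP Pk loc)
open Pool.Agent.Y713.SE (Pw)
open Pool.Agent.Y773.G (IsModChar)

variable {K : Type} [Field K] [NumberField K]

theorem v_loc' (v : Pl K) (x : Kˣ) :
    (Valued.v ((loc v x : (v.adicCompletion K)ˣ) : v.adicCompletion K) :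
      WithZero (Multiplicative ℤ)) = v.valuation K (x : K) :=
  v.valuedAdicCompletion_eq_valuation' (x : K)

theorem pw_of_isP {ℓ : ℕ} {v : Pl K} {x : Kˣ} (h : IsP ℓ (loc v x)) :
    Pw ℓ (v.valuation K (x : K)) := by
  obtain ⟨z, hz⟩ := h
  rw [← v_loc', hz, Units.val_pow_eq_pow_val, map_pow]
  exact ⟨_, rfl⟩

theorem fin_val (x : Kˣ) : {v : Pl K | v.valuation K (x : K) ≠ 1}.Finite := by
  obtain ⟨a, b, hb, hab⟩ := IsFractionRing.div_surjective (A := 𝓞 K) (x : K)
  have hb0 : b ≠ 0 := nonZeroDivisors.ne_zero hb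
  have ha0 : a ≠ 0 := by
    rintro rfl
    rw [map_zero, zero_div] at hab
    exact x.ne_zero hab.symm
  have hfin : ∀ c : 𝓞 K, c ≠ 0 → {v : Pl K | v.valuation K (algebraMap (𝓞 K) K c) ≠ 1}.Finite := by
    intro c hc
    refine (Ideal.finite_factors (I := Ideal.span {c}) (by
      rw [Ne, Ideal.zero_eq_bot, Ideal.span_singleton_eq_bot]
      exact hc)).subset ?_
    intro v hv
    rw [Set.mem_ofPred_eq] at hv ⊢
    rw [← HeightOneSpectrum.valuation_lt_one_iff_dvd (K := K)]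
    exact lt_of_le_of_ne (v.valuation_le_one c) hv
  refine ((hfin a ha0).union (hfin b hb0)).subset ?_
  intro v hv
  rw [Set.mem_ofPred_eq] at hv
  by_contra hc
  rw [Set.mem_union, not_or, Set.mem_ofPred_eq, Set.mem_ofPred_eq, not_not, not_not] at hc
  apply hv
  rw [← hab, map_div₀, hc.1, hc.2, div_one]

section
variable {ℓ : ℕ} {sv : Pl K → Kˣ → Kˣ → ZMod ℓ}

/-- the family of characters given by `y` -/
noncomputable def chi (h : Sv ℓ K sv) (y : Kˣ) (v : Pl K) : Kˣ →* Mu ℓ where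
  toFun x := Multiplicative.ofAdd (sv v y x)
  map_one' := by
    have := h.mul_right v y 1 1
    rw [mul_one] at this
    have h0 : sv v y 1 = 0 := by
      have h2 : sv v y 1 + 0 = sv v y 1 + sv v y 1 := by rw [add_zero]; exact this
      exact (add_left_cancel h2).symm
    rw [h0]
    rfl
  map_mul' a b := by
    rw [h.mul_right]
    rfl

theorem chi_eq_one (h : Sv ℓ K sv) {y x : Kˣ} {v : Pl K} : chi h y v x = 1 ↔ sv v y x = 0 := by
  constructor
  · intro e
    exact congrArg Multiplicative.toAdd e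
  · intro e
    show Multiplicative.ofAdd (sv v y x) = 1
    rw [e]
    rfl

theorem pw_of_eq_one {v : Pl K} {x : Kˣ} (h : v.valuation K (x : K) = 1) :
    Pw ℓ (v.valuation K (x : K)) := by
  rw [h]
  exact Pw.one

theorem gc (hℓ : ℓ.Prime) (h : Sv ℓ K sv) (y : Kˣ) : GC ℓ (chi h y) := by
  classical
  have hℓ0 : (ℓ : K) ≠ 0 := by exact_mod_cast hℓ.ne_zero
  have hfl := fin_val (K := K) (Units.mk0 (ℓ : K) hℓ0)
  have hfy := fin_val (K := K) y
  refine ⟨?_, ?_, ?_⟩
  · intro v x hx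
    exact (chi_eq_one h).2 (h.pow_right v y x hx)
  · refine (hfl.union hfy).subset ?_
    intro v hv
    rw [Set.mem_ofPred_eq] at hv
    by_contra hc
    rw [Set.mem_union, not_or, Set.mem_ofPred_eq, Set.mem_ofPred_eq, not_not, not_not,
      Units.val_mk0] at hc
    apply hv
    intro x hx
    exact (chi_eq_one h).2 (h.unr v hc.1 y x (pw_of_eq_one hc.2) hx)
  · intro x
    have hfx := fin_val (K := K) x
    set B : Finset (Pl K) := ((hfl.union hfy).union hfx).toFinset with hB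
    have hmem : ∀ v, v ∉ B → v.valuation K (ℓ : K) = 1 ∧ v.valuation K (y : K) = 1 ∧
        v.valuation K (x : K) = 1 := by
      intro v hv
      rw [hB, Set.Finite.mem_toFinset] at hv
      simp only [Set.mem_union, Set.mem_ofPred_eq, not_or, not_not, Units.val_mk0] at hv
      exact ⟨hv.1.1, hv.1.2, hv.2⟩
    rw [finprod_eq_prod_of_mulSupport_subset (s := B)]
    · have h1 := h.prod B (fun v hv => by
        by_contra hc
        exact hv (hmem v hc).1) y x (fun v hv => ⟨pw_of_eq_one (hmem v hv).2.1,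
          pw_of_eq_one (hmem v hv).2.2⟩)
      have h2 : ∏ v ∈ B, chi h y v x = Multiplicative.ofAdd (∑ v ∈ B, sv v y x) := by
        rw [ofAdd_sum]
        rfl
      rw [h2, h1]
      rfl
    · intro v hv
      rw [Function.mem_mulSupport] at hv
      by_contra hc
      apply hv
      obtain ⟨e1, e2, e3⟩ := hmem v hc
      exact (chi_eq_one h).2 (h.unr v e1 y x (pw_of_eq_one e2) (pw_of_eq_one e3))

theorem exists_exp (v : Pl K) (x : Kˣ) : ∃ n : ℤ, v.valuation K (x : K) = WithZero.exp (-n) := by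
  have hx : v.valuation K (x : K) ≠ 0 := (Valuation.ne_zero_iff _).2 x.ne_zero
  refine ⟨-WithZero.log (v.valuation K (x : K)), ?_⟩
  rw [neg_neg, WithZero.exp_log hx]

/-- at a place where the valuation of `y` is not divisible by `ℓ`, the symbol is not trivial on the
units -/
theorem ram (hℓ : ℓ.Prime) (h : Sv ℓ K sv) {y : Kˣ} {b : Pl K}
    (hb : ¬ Pw ℓ (b.valuation K (y : K))) :
    ∃ x : Kˣ, b.valuation K (x : K) = 1 ∧ chi h y b x ≠ 1 := by
  haveI : Fact ℓ.Prime := ⟨hℓ⟩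
  by_contra hcon
  push Not at hcon
  obtain ⟨π₀, hπ₀⟩ := b.valuation_exists_uniformizer K
  have hπ0 : π₀ ≠ 0 := by
    rintro rfl
    rw [map_zero] at hπ₀
    exact WithZero.exp_ne_zero hπ₀.symm
  set π : Kˣ := Units.mk0 π₀ hπ0 with hπdef
  have hπ : b.valuation K (π : K) = WithZero.exp (-1 : ℤ) := hπ₀
  have hπn : ∀ n : ℤ, b.valuation K ((π ^ n : Kˣ) : K) = WithZero.exp (-n) := by
    intro n
    rw [Units.val_zpow_eq_zpow_val, map_zpow₀, hπ, ← WithZero.exp_zsmul]
    congr 1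
    simp
  have hval : ∀ (x : Kˣ) (n : ℤ), b.valuation K (x : K) = WithZero.exp (-n) →
      chi h y b x = chi h y b π ^ n := by
    intro x n hx
    have h1 : chi h y b (x * (π ^ n)⁻¹) = 1 := by
      apply hcon
      rw [Units.val_mul, Units.val_inv_eq_inv_val, map_mul, map_inv₀, hπn, hx,
        mul_inv_cancel₀ WithZero.exp_ne_zero]
    rw [map_mul, map_inv, mul_inv_eq_one, map_zpow] at h1
    exact h1
  obtain ⟨n, hn⟩ := exists_exp b y
  have h1 : chi h y b π ^ n = 1 := by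
    rw [← hval y n hn]
    exact (chi_eq_one h).2 (h.alt b y)
  have hnℓ : ¬ (ℓ : ℤ) ∣ n := by
    rintro ⟨k, rfl⟩
    apply hb
    refine ⟨WithZero.exp (-k), ?_⟩
    rw [hn, ← WithZero.exp_nsmul]
    congr 1
    simp
  have h2 : chi h y b π = 1 := by
    have h3 : (n : ZMod ℓ) * sv b y π = 0 := by
      have := congrArg Multiplicative.toAdd h1
      rw [toAdd_zpow, toAdd_one, zsmul_eq_mul] at this
      exact this
    rcases mul_eq_zero.1 h3 with h4 | h4
    · exact absurd ((ZMod.intCast_zmod_eq_zero_iff_dvd n ℓ).1 h4) hnℓ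
    · exact (chi_eq_one h).2 h4
  have h3 : ∀ x : Kˣ, sv b y x = 0 := by
    intro x
    obtain ⟨m, hm⟩ := exists_exp b x
    rw [← chi_eq_one h, hval x m hm, h2, one_zpow]
  exact hb (pw_of_isP (h.nd b y h3))

theorem ee_cast (hℓ : ℓ ≠ 0) (a : ℕ) :
    ee ℓ (a : ZMod ℓ) = Complex.exp (2 * Real.pi * Complex.I * a / ℓ) := by
  have hℓc : (ℓ : ℂ) ≠ 0 := by exact_mod_cast hℓ
  haveI : NeZero ℓ := ⟨hℓ⟩
  unfold ee
  rw [ZMod.val_natCast]
  have h1 : (a : ℂ) = (a % ℓ : ℕ) + (ℓ : ℂ) * (a / ℓ : ℕ) := by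
    exact_mod_cast (Nat.mod_add_div a ℓ).symm
  have h2 : 2 * (Real.pi : ℂ) * Complex.I * a / ℓ = 2 * Real.pi * Complex.I * ((a % ℓ : ℕ) : ℂ) / ℓ +
      ((a / ℓ : ℕ) : ℂ) * (2 * Real.pi * Complex.I) := by
    conv_lhs => rw [h1]
    field_simp
  rw [h2, Complex.exp_add, Complex.exp_nat_mul_two_pi_mul_I, mul_one]

end

theorem t_CHS (hMOD : S_MOD) (hLGP : S_LGP) : S_CHS := by
  intro ℓ hℓ hℓ2 K _ _ ζ hζ sv h S hS hSne
  obtain ⟨𝔪, hm0, -, hcop, hM⟩ := hMOD ℓ hℓ hℓ2 K ζ hζ S hS hSne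
  refine ⟨𝔪, hm0, hcop, ?_⟩
  intro B hB y hy
  have hunr : ∀ v, v ∉ S → v ∉ B → ∀ x : Kˣ, Pw ℓ (v.valuation K (x : K)) → chi h y v x = 1 := by
    intro v hvS hvB x hx
    refine (chi_eq_one h).2 (h.unr v ?_ y x ?_ hx)
    · by_contra hc
      exact hvS (hS v hc)
    · by_contra hc
      exact hvB ((hy v hvS).1 hc)
  obtain ⟨η, h1, h2, h3, h4, h5⟩ := hM B hB (chi h y) (gc hℓ h y) hunr
  refine ⟨η, h1, h2, ?_, ?_, ?_⟩
  · intro q hqS hqB π hπ
    obtain ⟨a, ha, ha'⟩ := h3 q hqS hqB π hπ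
    have e1 : sv q y π = (a : ZMod ℓ) := congrArg Multiplicative.toAdd ha
    rw [ha', e1, ee_cast hℓ.ne_zero]
  · intro hyP
    apply h4
    by_contra hc
    push Not at hc
    apply hyP
    refine hLGP ℓ hℓ K ζ hζ y fun v => h.nd v y fun x => ?_
    exact (chi_eq_one h).1 (hc v x)
  · rintro ⟨b, hb⟩
    apply h5
    have hbS : b ∉ S := Finset.disjoint_left.1 hB hb
    obtain ⟨x, hx1, hx2⟩ := ram hℓ h ((hy b hbS).2 hb)
    exact ⟨b, hb, x, hx1, hx2⟩

end Pool.Agent.T3h73.SD.CHS
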