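import Pool.Agent.T3h73.SD.Stm
import Pool.Agent.T3h73.SL.T_DEN1
import Pool.Agent.TeamU.B2

/-!
# Project SD, task DC (helper1): the places at which several characters are trivial
-/

set_option autoImplicit false
set_option linter.all false

namespace Pool.Agent.T3h73.SD.DC

open NumberField IsDedekindDomain Filter Topology
open Pool.Agent.T3h73.SL (Pl IsP Pk loc Evn Sg)
open Pool.Agent.Y713.SE (Pw)
open Pool.Agent.Y773.G (IsModChar)
open Pool.Agent.T3h73.SL.Den0 (fin_le psum le_one)
open Pool.Agent.T3h73.SL.Den1 (cond_sum)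

section sums

variable {K : Type} [Field K] [NumberField K]

/-- weighted sums over the primes -/
noncomputable def SS (f : Pl K → ℂ) (x : ℝ) : ℂ :=
  (∑ᶠ q ∈ {q : Pl K | (Ideal.absNorm q.asIdeal : ℝ) ≤ x},
    (Real.log (Ideal.absNorm q.asIdeal) : ℂ) * f q) / (x : ℂ)

theorem SS_eq (f : Pl K → ℂ) (x : ℝ) : SS f x =
    (∑ q ∈ (fin_le (K := K) x).toFinset, (Real.log (Ideal.absNorm q.asIdeal) : ℂ) * f q) / (x : ℂ) := by
  unfold SS
  rw [finsum_mem_eq_finite_toFinset_sum _ (fin_le x)]

theorem SS_add (f g : Pl K → ℂ) (x : ℝ) : SS (fun q => f q + g q) x = SS f x + SS g x := by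
  rw [SS_eq, SS_eq, SS_eq, ← add_div, ← Finset.sum_add_distrib]
  congr 1
  exact Finset.sum_congr rfl fun q _ => by ring

theorem SS_sum {ι : Type} (s : Finset ι) (f : ι → Pl K → ℂ) (x : ℝ) :
    SS (fun q => ∑ a ∈ s, f a q) x = ∑ a ∈ s, SS (f a) x := by
  simp only [SS_eq]
  rw [← Finset.sum_div, Finset.sum_comm]
  congr 1
  exact Finset.sum_congr rfl fun q _ => by rw [Finset.mul_sum]

theorem SS_fin (f : Pl K → ℂ) (T : Finset (Pl K)) (hf : ∀ q, q ∉ T → f q = 0) :
    Tendsto (SS f) atTop (𝓝 0) := by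
  classical
  set C : ℝ := ∑ q ∈ T, ‖(Real.log (Ideal.absNorm q.asIdeal) : ℂ) * f q‖ with hC
  have h1 : Tendsto (fun x : ℝ => C * x⁻¹) atTop (𝓝 0) := by
    have := tendsto_inv_atTop_zero.const_mul C
    simpa using this
  refine squeeze_zero_norm' ?_ h1
  refine (eventually_gt_atTop (0 : ℝ)).mono fun x hx => ?_
  rw [SS_eq, norm_div, Complex.norm_real, Real.norm_of_nonneg hx.le, div_eq_mul_inv]
  refine mul_le_mul_of_nonneg_right ?_ (by positivity)
  calc ‖∑ q ∈ (fin_le (K := K) x).toFinset, (Real.log (Ideal.absNorm q.asIdeal) : ℂ) * f q‖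
      ≤ ∑ q ∈ (fin_le (K := K) x).toFinset, ‖(Real.log (Ideal.absNorm q.asIdeal) : ℂ) * f q‖ :=
        norm_sum_le _ _
    _ = ∑ q ∈ (fin_le (K := K) x).toFinset ∩ T,
        ‖(Real.log (Ideal.absNorm q.asIdeal) : ℂ) * f q‖ := by
        symm
        refine Finset.sum_subset Finset.inter_subset_left fun q hq hq' => ?_
        have : q ∉ T := fun h => hq' (Finset.mem_inter.2 ⟨hq, h⟩)
        rw [hf q this, mul_zero, norm_zero]
    _ ≤ C := Finset.sum_le_sum_of_subset_of_nonneg Finset.inter_subset_right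
        fun _ _ _ => norm_nonneg _

end sums

section chars

variable {ℓ : ℕ} {K : Type} [Field K] [NumberField K]

theorem mulSupport_finite {χ : Pl K → (Kˣ →* Mu ℓ)} (h : GC ℓ χ) (x : Kˣ) :
    (Function.mulSupport fun v => χ v x).Finite := by
  refine ((Pool.Agent.TeamU.finite_valuation_ne_one (x : K) x.ne_zero).union h.unr).subset ?_
  intro v hv
  by_contra hcon
  simp only [Set.mem_union, Set.mem_setOf_eq, not_or, not_not] at hcon
  apply hv
  exact hcon.2 x (by rw [hcon.1]; exact Pw.one)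

theorem GC_prod {r : ℕ} {χ : Fin r → Pl K → (Kˣ →* Mu ℓ)} (h : ∀ i, GC ℓ (χ i)) (a : Fin r → ℕ) :
    GC ℓ (fun v => ∏ i, (χ i v) ^ (a i)) := by
  refine ⟨?_, ?_, ?_⟩
  · intro v x hx
    rw [MonoidHom.finsetProd_apply]
    refine Finset.prod_eq_one fun i _ => ?_
    rw [MonoidHom.pow_apply, (h i).loc v x hx, one_pow]
  · refine (Set.finite_iUnion fun i => (h i).unr).subset ?_
    intro v hv
    by_contra hcon
    apply hv
    intro x hx
    rw [MonoidHom.finsetProd_apply]
    refine Finset.prod_eq_one fun i _ => ?_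
    rw [Set.mem_iUnion, not_exists] at hcon
    have h1 := hcon i
    simp only [Set.mem_setOf_eq, not_not] at h1
    rw [MonoidHom.pow_apply, h1 x hx, one_pow]
  · intro x
    have h1 : ∀ v, (∏ i, (χ i v) ^ (a i)) x = ∏ i ∈ Finset.univ, (χ i v x) ^ (a i) := by
      intro v
      rw [MonoidHom.finsetProd_apply]
      exact Finset.prod_congr rfl fun i _ => MonoidHom.pow_apply _ _ _
    simp only [h1]
    rw [finprod_prod_comm]
    · refine Finset.prod_eq_one fun i _ => ?_
      rw [← finprod_pow (mulSupport_finite (h i) x), (h i).prod x, one_pow]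
    · intro i _
      refine (mulSupport_finite (h i) x).subset fun v hv => ?_
      intro h2
      apply hv
      show (χ i v x) ^ (a i) = 1
      have h3 : χ i v x = 1 := h2
      rw [h3, one_pow]

/-- a character which is unramified at `q` is trivial at `q` if it is trivial at a uniformizer -/
theorem triv_iff {χ : Kˣ →* Mu ℓ} {q : Pl K}
    (h : ∀ x : Kˣ, Pw ℓ (q.valuation K (x : K)) → χ x = 1) {π : Kˣ}
    (hπ : q.valuation K (π : K) = WithZero.exp (-1 : ℤ)) : (∀ x, χ x = 1) ↔ χ π = 1 := by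
  refine ⟨fun h1 => h1 π, fun h1 x => ?_⟩
  have hx0 : q.valuation K (x : K) ≠ 0 := (Valuation.ne_zero_iff _).2 x.ne_zero
  set n : ℤ := WithZero.log (q.valuation K (x : K)) with hn
  have h2 : q.valuation K ((x * π ^ n : Kˣ) : K) = 1 := by
    rw [Units.val_mul, map_mul, Units.val_zpow_eq_zpow_val, map_zpow₀, hπ, ← WithZero.exp_log hx0,
      ← hn, ← WithZero.exp_zsmul, ← WithZero.exp_add]
    simp
  have h3 := h (x * π ^ n) (by rw [h2]; exact Pw.one)
  rw [map_mul, map_zpow, h1, one_zpow, mul_one] at h3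
  exact h3

end chars

theorem t_DC (hMOD : S_MOD) : S_DC := by
  classical
  intro ℓ hℓ hℓ2 K _ _ ζ hζ r χ hχ hind
  haveI : NeZero ℓ := ⟨hℓ.ne_zero⟩
  -- the set of bad places
  have hfinℓ : {v : Pl K | v.valuation K (ℓ : K) ≠ 1}.Finite :=
    Pool.Agent.TeamU.finite_valuation_ne_one (ℓ : K) (Nat.cast_ne_zero.2 hℓ.ne_zero)
  have hfinχ : (⋃ i, {v : Pl K | ¬ ∀ x : Kˣ, Pw ℓ (v.valuation K (x : K)) → χ i v x = 1}).Finite :=
    Set.finite_iUnion fun i => (hχ i).unr
  obtain ⟨v₁⟩ : Nonempty (Pl K) := by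
    obtain ⟨M, hM⟩ := Ideal.exists_maximal (𝓞 K)
    exact ⟨⟨M, hM.isPrime, fun h0 => NumberField.RingOfIntegers.not_isField K
      (Ring.isField_iff_maximal_bot.2 (by rw [← h0]; exact hM))⟩⟩
  set T : Finset (Pl K) := insert v₁ (hfinℓ.toFinset ∪ hfinχ.toFinset) with hT
  have hTℓ : ∀ v : Pl K, v.valuation K (ℓ : K) ≠ 1 → v ∈ T := by
    intro v hv
    rw [hT, Finset.mem_insert, Finset.mem_union]
    exact Or.inr (Or.inl (hfinℓ.mem_toFinset.2 hv))
  have hTχ : ∀ i v, v ∉ T → ∀ x : Kˣ, Pw ℓ (v.valuation K (x : K)) → χ i v x = 1 := by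
    intro i v hv
    by_contra hcon
    apply hv
    rw [hT, Finset.mem_insert, Finset.mem_union]
    exact Or.inr (Or.inr (hfinχ.mem_toFinset.2 (Set.mem_iUnion.2 ⟨i, hcon⟩)))
  obtain ⟨𝔪, -, -, -, H⟩ := hMOD ℓ hℓ hℓ2 K ζ hζ T hTℓ ⟨v₁, Finset.mem_insert_self _ _⟩
  -- the products of the characters
  have hH := fun a : Fin r → ZMod ℓ => H ∅ (Finset.disjoint_empty_left _)
    (fun v => ∏ i, (χ i v) ^ (a i).val) (GC_prod hχ _) (by
      intro v hv _ x hx
      rw [MonoidHom.finsetProd_apply]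
      refine Finset.prod_eq_one fun i _ => ?_
      rw [MonoidHom.pow_apply, hTχ i v hv x hx, one_pow])
  choose η hη1 hη2 hη3 hη4 _ using hH
  -- the coefficients
  set c : (Fin r → ZMod ℓ) → Pl K → ℂ := fun a q => if a = 0 then 1 else η a q.asIdeal with hc
  have hlim : ∀ a, Tendsto (SS (c a)) atTop (𝓝 (if a = 0 then (1 : ℂ) else 0)) := by
    intro a
    by_cases ha : a = 0
    · rw [if_pos ha]
      have h1 := Pool.Agent.T3h73.SL.Den0.t_DEN0 K
      have h2 := (Complex.continuous_ofReal.tendsto _).comp h1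
      rw [Complex.ofReal_one] at h2
      refine h2.congr fun x => ?_
      rw [SS_eq, Function.comp_apply, finsum_mem_eq_finite_toFinset_sum _ (fin_le x)]
      push_cast
      congr 1
      refine Finset.sum_congr rfl fun q _ => ?_
      rw [hc]
      simp only [if_pos ha, mul_one]
    · rw [if_neg ha]
      have h1 : SS (c a) = SS (fun q => η a q.asIdeal) := by
        funext x
        rw [hc]
        simp only [if_neg ha]
      rw [h1]
      obtain ⟨δ, -, h0, -, T2⟩ := Pool.Agent.N864.RC.rc1 K _ _ _ (hη1 a)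
      have hle : ∀ 𝔞, ‖η a 𝔞‖ ≤ 1 := le_one hℓ.ne_zero (hη2 a) (hη1 a).supp
      have h3 := psum _ hle T2
      have hδ : δ = 0 := by
        apply h0
        apply hη4 a
        by_contra hcon
        push Not at hcon
        have h4 := hind (fun i => (a i).val) (by
          intro v x
          have h5 := hcon v x
          rw [MonoidHom.finsetProd_apply] at h5
          rw [← h5]
          exact Finset.prod_congr rfl fun i _ => (MonoidHom.pow_apply _ _ _).symm)
        apply ha
        funext i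
        have h5 := h4 i
        have h6 : (a i).val < ℓ := ZMod.val_lt _
        have h7 : (a i).val = 0 := Nat.eq_zero_of_dvd_of_lt h5 h6
        rw [Pi.zero_apply]
        exact (ZMod.val_eq_zero _).1 h7
      rw [hδ, Complex.ofReal_zero] at h3
      exact h3
  -- the indicator function
  have hval : ∀ q, q ∉ T → ∑ a, c a q = if (∀ i x, χ i q x = 1) then (ℓ : ℂ) ^ r else 0 := by
    intro q hq
    obtain ⟨p, hp⟩ := HeightOneSpectrum.valuation_exists_uniformizer K q
    have hp' : q.valuation K p = WithZero.exp (-1 : ℤ) := hp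
    have hp0 : p ≠ 0 := by
      rintro rfl
      rw [map_zero] at hp'
      exact WithZero.exp_ne_zero hp'.symm
    set π : Kˣ := Units.mk0 p hp0 with hπ'
    have hπ : q.valuation K (π : K) = WithZero.exp (-1 : ℤ) := hp'
    set b : Fin r → ZMod ℓ := fun i => Multiplicative.toAdd (χ i q π) with hb
    have hcv : ∀ a, c a q = ZMod.stdAddChar (∑ i, a i * b i) := by
      intro a
      by_cases ha : a = 0
      · rw [hc]
        simp only [if_pos ha]
        rw [ha]
        simp
      · rw [hc]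
        simp only [if_neg ha]
        obtain ⟨n, h1, h2⟩ := hη3 a q hq (Finset.notMem_empty q) π hπ
        have h3 : (n : ZMod ℓ) = ∑ i, a i * b i := by
          have h4 := congrArg Multiplicative.toAdd h1
          rw [toAdd_ofAdd, MonoidHom.finsetProd_apply, toAdd_prod] at h4
          rw [← h4]
          refine Finset.sum_congr rfl fun i _ => ?_
          rw [MonoidHom.pow_apply, toAdd_pow, nsmul_eq_mul, ZMod.natCast_zmod_val]
        rw [h2, ← h3]
        have h4 := ZMod.stdAddChar_coe (N := ℓ) (n : ℤ)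
        push_cast at h4
        rw [h4]
    rw [Finset.sum_congr rfl fun a _ => hcv a]
    have h1 : ∀ a : Fin r → ZMod ℓ, (ZMod.stdAddChar (∑ i, a i * b i) : ℂ) =
        ∏ i, (ZMod.stdAddChar (a i * b i) : ℂ) := by
      intro a
      have h2 : ∀ s : Finset (Fin r), (ZMod.stdAddChar (∑ i ∈ s, a i * b i) : ℂ) =
          ∏ i ∈ s, (ZMod.stdAddChar (a i * b i) : ℂ) := by
        intro s
        induction s using Finset.induction_on with
        | empty => simp
        | insert i s hi ih =>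
          rw [Finset.sum_insert hi, Finset.prod_insert hi, AddChar.map_add_eq_mul, ih]
      exact h2 Finset.univ
    rw [Finset.sum_congr rfl fun a _ => h1 a]
    have h2 : ∑ a : Fin r → ZMod ℓ, ∏ i, (ZMod.stdAddChar (a i * b i) : ℂ) =
        ∏ i, ∑ t : ZMod ℓ, (ZMod.stdAddChar (t * b i) : ℂ) := by
      rw [Finset.prod_univ_sum]
      rw [Fintype.piFinset_univ]
    rw [h2]
    have h3 : ∀ i, ∑ t : ZMod ℓ, (ZMod.stdAddChar (t * b i) : ℂ) =
        if b i = 0 then (ℓ : ℂ) else 0 := by
      intro i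
      rw [AddChar.sum_mulShift (b i) (ZMod.isPrimitive_stdAddChar ℓ), ZMod.card]
      split_ifs <;> simp
    rw [Finset.prod_congr rfl fun i _ => h3 i]
    have h4 : (∀ i x, χ i q x = 1) ↔ ∀ i, b i = 0 := by
      refine forall_congr' fun i => ?_
      rw [triv_iff (hTχ i q hq) hπ, hb]
      exact ⟨fun h => congrArg Multiplicative.toAdd h, fun h => congrArg Multiplicative.ofAdd h⟩
    by_cases hall : ∀ i, b i = 0
    · rw [if_pos (h4.2 hall), Finset.prod_congr rfl fun i _ => if_pos (hall i), Finset.prod_const,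
        Finset.card_univ, Fintype.card_fin]
    · rw [if_neg fun h => hall (h4.1 h)]
      push Not at hall
      obtain ⟨i, hi⟩ := hall
      exact Finset.prod_eq_zero (Finset.mem_univ i) (if_neg hi)
  set P : Pl K → ℂ := fun q => if (∀ i x, χ i q x = 1) then (ℓ : ℂ) ^ r else 0 with hP
  set E : Pl K → ℂ := fun q => P q - ∑ a, c a q with hE
  have hE0 : ∀ q, q ∉ T → E q = 0 := by
    intro q hq
    rw [hE]
    simp only
    rw [hval q hq, hP]
    simp
  have h1 : SS P = fun x => ∑ a, SS (c a) x + SS E x := by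
    funext x
    rw [← SS_sum, ← SS_add]
    congr 1
    funext q
    rw [hE]
    ring
  have h2 : Tendsto (SS P) atTop (𝓝 1) := by
    rw [h1]
    have h3 := (tendsto_finsetSum (Finset.univ : Finset (Fin r → ZMod ℓ))
      fun a _ => hlim a).add (SS_fin E T hE0)
    rw [Finset.sum_ite_eq' Finset.univ (0 : Fin r → ZMod ℓ) fun _ => (1 : ℂ),
      if_pos (Finset.mem_univ _), add_zero] at h3
    exact h3
  have h3 := (Complex.continuous_re.tendsto _).comp h2
  rw [Complex.one_re] at h3
  have h4 := h3.const_mul (((ℓ : ℝ) ^ r)⁻¹)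
  rw [mul_one, ← one_div] at h4
  unfold Dens
  refine h4.congr fun x => ?_
  rw [cond_sum (fun q => ∀ i x, χ i q x = 1), Function.comp_apply, SS_eq,
    finsum_mem_eq_finite_toFinset_sum _ (fin_le x)]
  have h5 : ((∑ q ∈ (fin_le (K := K) x).toFinset,
      (Real.log (Ideal.absNorm q.asIdeal) : ℂ) * P q) / (x : ℂ)) =
      (((ℓ : ℝ) ^ r * ((∑ q ∈ (fin_le (K := K) x).toFinset,
        if (∀ i x, χ i q x = 1) then Real.log (Ideal.absNorm q.asIdeal) else 0) / x) : ℝ) : ℂ) := by
    push_cast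
    rw [← mul_div_assoc, Finset.mul_sum]
    congr 1
    refine Finset.sum_congr rfl fun q _ => ?_
    rw [hP]
    simp only
    split_ifs
    · rw [Complex.natCast_log]; ring
    · simp
  rw [h5, Complex.ofReal_re]
  have : (ℓ : ℝ) ^ r ≠ 0 := pow_ne_zero _ (Nat.cast_ne_zero.2 hℓ.ne_zero)
  field_simp

end Pool.Agent.T3h73.SD.DC
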