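import Pool.Agent.T3h73.SD.DK1
import Pool.Agent.T3h73.SL.T_TAM

/-! Project SD, task DK (helper64): the places at which `w₁` (and `w₂`) are `ℓ`-th powers. -/

set_option autoImplicit false
set_option linter.all false

open NumberField IsDedekindDomain Filter Topology Polynomial

namespace Pool.Agent.T3h73.SD.DK

open Pool.Agent.T3h73.SD
open Pool.Agent.T3h73.SL (Pl IsP Pk loc Evn S_DEN0 S_DEN2)
open Pool.Agent.T3h73.SL.Den0 (fin_le)
open Pool.Agent.T3h73.SL.Den1 (cond_sum)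
open Pool.Agent.Y713.SE (Pw)

variable {K : Type} [Field K] [NumberField K]

lemma fin_val' (x : Kˣ) : {v : Pl K | v.valuation K (x : K) ≠ 1}.Finite := by
  have h1 := HeightOneSpectrum.Support.finite (𝓞 K) (x : K)
  have h2 := HeightOneSpectrum.Support.finite (𝓞 K) ((x⁻¹ : Kˣ) : K)
  refine (h1.union h2).subset fun v hv => ?_
  rcases lt_or_gt_of_ne hv with h | h
  · right
    change 1 < v.valuation K ((x⁻¹ : Kˣ) : K)
    rw [Units.val_inv_eq_inv_val, map_inv₀]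
    have h0 : v.valuation K (x : K) ≠ 0 := (Valuation.ne_zero_iff _).2 x.ne_zero
    exact (one_lt_inv₀ (zero_lt_iff.2 h0)).2 h
  · left
    exact h

/-- in a commutative group in which `P` contains all `ℓ`-th powers -/
lemma mem_of_coprime {G : Type} [CommGroup G] {ℓ : ℕ} (P : Subgroup G) (hP : ∀ x, x ^ ℓ ∈ P)
    {b : G} {m : ℕ} (hm : Nat.Coprime m ℓ) (h : b ^ m ∈ P) : b ∈ P := by
  have h1 : (QuotientGroup.mk b : G ⧸ P) ^ m = 1 := (QuotientGroup.eq_one_iff (b ^ m)).2 h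
  have h2 : (QuotientGroup.mk b : G ⧸ P) ^ ℓ = 1 := (QuotientGroup.eq_one_iff (b ^ ℓ)).2 (hP b)
  have h3 : orderOf (QuotientGroup.mk b : G ⧸ P) ∣ 1 := by
    rw [← Nat.coprime_iff_gcd_eq_one.1 hm]
    exact Nat.dvd_gcd (orderOf_dvd_of_pow_eq_one h1) (orderOf_dvd_of_pow_eq_one h2)
  rw [Nat.dvd_one, orderOf_eq_one_iff] at h3
  exact (QuotientGroup.eq_one_iff b).1 h3

/-- `Evn / Pk` is cyclic of order `ℓ` -/
lemma exists_pow {ℓ : ℕ} (hℓ : ℓ.Prime) (ζ : K) (hζ : IsPrimitiveRoot ζ ℓ) (v : Pl K)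
    (hv : v.valuation K (ℓ : K) = 1) (a b : (v.adicCompletion K)ˣ) (ha : a ∈ Evn ℓ v)
    (hb : b ∈ Evn ℓ v) (hb' : ¬ IsP ℓ b) : ∃ j < ℓ, IsP ℓ (a * b ^ j) := by
  obtain ⟨hi1, hi2⟩ := Pool.Agent.T3h73.SL.Tam.t_TAM ℓ hℓ K ζ hζ v hv
  have hle : Pk ℓ (v.adicCompletion K)ˣ ≤ Evn ℓ v := by
    rintro _ ⟨z, rfl⟩
    change Pw ℓ (Valued.v (((z ^ ℓ : (v.adicCompletion K)ˣ) : v.adicCompletion K)))
    rw [Units.val_pow_eq_pow_val, map_pow]
    exact Pw.pow _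
  have h1 := Subgroup.relIndex_mul_index hle
  rw [hi1, hi2, pow_two] at h1
  have h2 : (Pk ℓ (v.adicCompletion K)ˣ).relIndex (Evn ℓ v) = ℓ :=
    Nat.eq_of_mul_eq_mul_right hℓ.pos h1
  have h3 : Nat.card (Evn ℓ v ⧸ (Pk ℓ (v.adicCompletion K)ˣ).subgroupOf (Evn ℓ v)) = ℓ := h2
  have hPk : ∀ x : (v.adicCompletion K)ˣ, x ∈ Pk ℓ (v.adicCompletion K)ˣ ↔ IsP ℓ x := fun x =>
    ⟨fun ⟨z, hz⟩ => ⟨z, hz.symm⟩, fun ⟨z, hz⟩ => ⟨z, hz.symm⟩⟩
  have hne : (QuotientGroup.mk (⟨b, hb⟩ : Evn ℓ v) :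
      Evn ℓ v ⧸ (Pk ℓ (v.adicCompletion K)ˣ).subgroupOf (Evn ℓ v)) ≠ 1 := by
    rw [Ne, QuotientGroup.eq_one_iff, Subgroup.mem_subgroupOf, hPk]
    exact hb'
  haveI : Fact ℓ.Prime := ⟨hℓ⟩
  obtain ⟨k, hk⟩ := mem_zpowers_of_prime_card (g' := (QuotientGroup.mk (⟨a, ha⟩ : Evn ℓ v)⁻¹ :
      Evn ℓ v ⧸ (Pk ℓ (v.adicCompletion K)ˣ).subgroupOf (Evn ℓ v))) h3 hne
  change (QuotientGroup.mk (⟨b, hb⟩ : Evn ℓ v) :
      Evn ℓ v ⧸ (Pk ℓ (v.adicCompletion K)ˣ).subgroupOf (Evn ℓ v)) ^ k = _ at hk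
  have h4 : IsP ℓ (a * b ^ k) := by
    rw [← QuotientGroup.mk_zpow, eq_comm, QuotientGroup.eq, Subgroup.mem_subgroupOf, hPk] at hk
    simpa using hk
  have hl0 : (0 : ℤ) < ℓ := by exact_mod_cast hℓ.pos
  refine ⟨(k % ℓ).toNat, ?_, ?_⟩
  · have h5 := Int.emod_lt_of_pos k hl0
    have h6 := Int.emod_nonneg k hl0.ne'
    omega
  · obtain ⟨z, hz⟩ := h4
    have h6 := Int.emod_nonneg k hl0.ne'
    refine ⟨z * b ^ (-(k / ℓ)), ?_⟩
    have h7 : (b ^ (k % (ℓ : ℤ)).toNat : (v.adicCompletion K)ˣ) = b ^ (k % (ℓ : ℤ)) := by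
      rw [← zpow_natCast, Int.toNat_of_nonneg h6]
    have h8 : k % (ℓ : ℤ) = k + (-(k / ℓ)) * ℓ := by
      have := Int.emod_add_mul_ediv k ℓ
      linarith
    rw [h7, h8, zpow_add, zpow_mul, zpow_natCast, ← mul_assoc, hz, mul_pow]

open Classical in
/-- the indicator of a proposition -/
noncomputable def ind (P : Prop) : ℝ := if P then 1 else 0

lemma ind_pos {P : Prop} (h : P) : ind P = 1 := if_pos h
lemma ind_neg {P : Prop} (h : ¬ P) : ind P = 0 := if_neg h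

/-- the number of lines -/
lemma local_count {ℓ : ℕ} (hℓ : ℓ.Prime) (ζ : K) (hζ : IsPrimitiveRoot ζ ℓ) (v : Pl K)
    (hv : v.valuation K (ℓ : K) = 1) (w₁ w₂ : Kˣ) (h₁ : v.valuation K (w₁ : K) = 1)
    (h₂ : v.valuation K (w₂ : K) = 1) :
    ind (IsP ℓ (loc v w₂)) + ∑ j ∈ Finset.range ℓ, ind (IsP ℓ (loc v (w₁ * w₂ ^ j))) =
      1 + ℓ * ind (IsP ℓ (loc v w₁) ∧ IsP ℓ (loc v w₂)) := by
  have hev : ∀ w : Kˣ, v.valuation K (w : K) = 1 → loc v w ∈ Evn ℓ v := by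
    intro w hw
    change Pw ℓ (Valued.v (((loc v w : (v.adicCompletion K)ˣ) : v.adicCompletion K)))
    have h1 : Valued.v (((loc v w : (v.adicCompletion K)ˣ) : v.adicCompletion K)) =
        v.valuation K (w : K) := HeightOneSpectrum.valuedAdicCompletion_eq_valuation' v (w : K)
    rw [h1, hw]
    exact Pw.one
  have hPk : ∀ x : (v.adicCompletion K)ˣ, x ∈ Pk ℓ (v.adicCompletion K)ˣ ↔ IsP ℓ x := fun x =>
    ⟨fun ⟨z, hz⟩ => ⟨z, hz.symm⟩, fun ⟨z, hz⟩ => ⟨z, hz.symm⟩⟩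
  by_cases hb : IsP ℓ (loc v w₂)
  · rw [ind_pos hb]
    have h1 : ∀ j ∈ Finset.range ℓ, ind (IsP ℓ (loc v (w₁ * w₂ ^ j))) =
        ind (IsP ℓ (loc v w₁) ∧ IsP ℓ (loc v w₂)) := by
      intro j _
      obtain ⟨z, hz⟩ := hb
      have h2 : IsP ℓ (loc v (w₁ * w₂ ^ j)) ↔ IsP ℓ (loc v w₁) ∧ IsP ℓ (loc v w₂) := by
        have h3 : loc v (w₁ * w₂ ^ j) = loc v w₁ * (z ^ j) ^ ℓ := by
          rw [map_mul, map_pow, hz, ← pow_mul, ← pow_mul, mul_comm ℓ j]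
        rw [h3, Pool.Agent.T3h73.SL.Den2.isP_mul_pow]
        exact ⟨fun h => ⟨h, ⟨z, hz⟩⟩, fun h => h.1⟩
      simp only [h2]
    rw [Finset.sum_congr rfl h1, Finset.sum_const, Finset.card_range, nsmul_eq_mul]
  · rw [ind_neg hb, ind_neg (fun h => hb h.2), zero_add, mul_zero, add_zero]
    obtain ⟨j, hj, hP⟩ := exists_pow hℓ ζ hζ v hv (loc v w₁) (loc v w₂) (hev w₁ h₁) (hev w₂ h₂) hb
    rw [Finset.sum_eq_single j]
    · apply ind_pos
      rw [map_mul, map_pow]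
      exact hP
    · intro i hi hij
      apply ind_neg
      intro hi'
      rw [map_mul, map_pow] at hi'
      rw [← hPk] at hi' hP
      have hpw : ∀ x : (v.adicCompletion K)ˣ, x ^ ℓ ∈ Pk ℓ (v.adicCompletion K)ˣ := fun x =>
        ⟨x, rfl⟩
      apply hb
      rw [← hPk]
      have hi1 := Finset.mem_range.1 hi
      rcases lt_or_gt_of_ne hij with h | h
      · have h4 : (loc v w₂) ^ (j - i) ∈ Pk ℓ (v.adicCompletion K)ˣ := by
          have h5 := mul_mem hP (inv_mem hi')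
          have h6 : loc v w₁ * loc v w₂ ^ j * (loc v w₁ * loc v w₂ ^ i)⁻¹ =
              loc v w₂ ^ (j - i) := by
            rw [pow_sub _ h.le, mul_inv, mul_mul_mul_comm, mul_inv_cancel, one_mul]
          rwa [h6] at h5
        refine mem_of_coprime _ hpw ?_ h4
        refine Nat.Coprime.symm ((Nat.Prime.coprime_iff_not_dvd hℓ).2 fun hd => ?_)
        have := Nat.le_of_dvd (by omega) hd
        omega
      · have h4 : (loc v w₂) ^ (i - j) ∈ Pk ℓ (v.adicCompletion K)ˣ := by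
          have h5 := mul_mem hi' (inv_mem hP)
          have h6 : loc v w₁ * loc v w₂ ^ i * (loc v w₁ * loc v w₂ ^ j)⁻¹ =
              loc v w₂ ^ (i - j) := by
            rw [pow_sub _ h.le, mul_inv, mul_mul_mul_comm, mul_inv_cancel, one_mul]
          rwa [h6] at h5
        refine mem_of_coprime _ hpw ?_ h4
        refine Nat.Coprime.symm ((Nat.Prime.coprime_iff_not_dvd hℓ).2 fun hd => ?_)
        have := Nat.le_of_dvd (by omega) hd
        omega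
    · intro h
      exact absurd (Finset.mem_range.2 hj) h

/-- the density of the places at which `w` is an `ℓ`-th power -/
theorem dens_one {ℓ : ℕ} (hℓ : ℓ.Prime) (ζ : K) (hζ : IsPrimitiveRoot ζ ℓ) (w : Kˣ)
    (hw : ¬ IsP ℓ w) : Dens (fun q : Pl K => IsP ℓ (loc q w)) (1 / ℓ) := by
  have h1 := lower Pool.Agent.T3h73.SL.Den0.t_DEN0 ℓ hℓ K ζ hζ w hw
  have h2 := Pool.Agent.T3h73.SL.Den2.t_DEN2 Pool.Agent.T3h73.SL.Den0.t_DEN0 ℓ hℓ K ζ hζ w hw
  unfold Dens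
  rw [Metric.tendsto_atTop]
  intro ε hε
  have h3 := ((h1 (ε / 2) (by linarith)).and (h2 (ε / 2) (by linarith))).and
    (eventually_gt_atTop (0 : ℝ))
  obtain ⟨X, hX⟩ := eventually_atTop.1 h3
  refine ⟨X, fun x hx => ?_⟩
  obtain ⟨⟨h4, h5⟩, h6⟩ := hX x hx
  rw [Real.dist_eq, abs_lt]
  constructor
  · rw [lt_sub_iff_add_lt, lt_div_iff₀ h6]
    refine lt_of_lt_of_le ?_ h4
    have : (-ε + 1 / (ℓ : ℝ)) < 1 / ℓ - ε / 2 := by linarith
    exact mul_lt_mul_of_pos_right this h6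
  · rw [sub_lt_iff_lt_add, div_lt_iff₀ h6]
    refine lt_of_le_of_lt h5 ?_
    have : 1 / (ℓ : ℝ) + ε / 2 < ε + 1 / ℓ := by linarith
    exact mul_lt_mul_of_pos_right this h6

theorem t_DK : S_DK := by
  classical
  intro ℓ hℓ K _ _ ζ hζ w₁ w₂ hw₁
  refine ⟨dens_one hℓ ζ hζ w₁ hw₁, fun hind => ?_⟩
  have hw2 : ¬ IsP ℓ w₂ := by
    intro h
    have h1 := (hind 0 1 (by rw [pow_zero, one_mul, pow_one]; exact h)).2
    exact hℓ.one_lt.ne' (Nat.dvd_one.1 h1)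
  have hwj : ∀ j : ℕ, ¬ IsP ℓ (w₁ * w₂ ^ j) := by
    intro j h
    have h1 := (hind 1 j (by rw [pow_one]; exact h)).1
    exact hℓ.one_lt.ne' (Nat.dvd_one.1 h1)
  have hℓK : (ℓ : K) ≠ 0 := Nat.cast_ne_zero.2 hℓ.ne_zero
  have hbad : {v : Pl K | v.valuation K ((Units.mk0 (ℓ : K) hℓK : Kˣ) : K) ≠ 1 ∨
      v.valuation K (w₁ : K) ≠ 1 ∨ v.valuation K (w₂ : K) ≠ 1}.Finite :=
    (fin_val' _).union ((fin_val' _).union (fin_val' _))
  -- the indicator functions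
  let I : (Pl K → Prop) → Pl K → ℝ := fun P q => ind (P q)
  let e : Pl K → ℝ := fun q => I (fun q => IsP ℓ (loc q w₂)) q +
    ∑ j ∈ Finset.range ℓ, I (fun q => IsP ℓ (loc q (w₁ * w₂ ^ j))) q - 1 -
    ℓ * I (fun q => IsP ℓ (loc q w₁) ∧ IsP ℓ (loc q w₂)) q
  have he0 : ∀ q, q ∉ hbad.toFinset → e q = 0 := by
    intro q hq
    rw [Set.Finite.mem_toFinset, Set.mem_setOf_eq] at hq
    push Not at hq
    have h1 := local_count hℓ ζ hζ q hq.1 w₁ w₂ hq.2.1 hq.2.2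
    simp only [e, I]
    linarith
  let S : (Pl K → Prop) → ℝ → ℝ := fun P x =>
    ∑ q ∈ (fin_le (K := K) x).toFinset, I P q * Real.log (Ideal.absNorm q.asIdeal)
  have hS : ∀ (P : Pl K → Prop) (d : ℝ), Dens P d ↔ Tendsto (fun x => S P x / x) atTop (𝓝 d) := by
    intro P d
    unfold Dens
    refine tendsto_congr fun x => ?_
    congr 1
    rw [cond_sum P, finsum_mem_eq_finite_toFinset_sum _ (fin_le x)]
    refine Finset.sum_congr rfl fun q _ => ?_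
    simp only [I]
    by_cases hP : P q
    · rw [if_pos hP, ind_pos hP, one_mul]
    · rw [if_neg hP, ind_neg hP, zero_mul]
  have hkey : ∀ x : ℝ, S (fun q => IsP ℓ (loc q w₁) ∧ IsP ℓ (loc q w₂)) x =
      (S (fun q => IsP ℓ (loc q w₂)) x +
        ∑ j ∈ Finset.range ℓ, S (fun q => IsP ℓ (loc q (w₁ * w₂ ^ j))) x - S (fun _ => True) x -
        ∑ q ∈ (fin_le (K := K) x).toFinset, e q * Real.log (Ideal.absNorm q.asIdeal)) / ℓ := by
    intro x
    have hℓ0 : (ℓ : ℝ) ≠ 0 := Nat.cast_ne_zero.2 hℓ.ne_zero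
    rw [eq_div_iff hℓ0]
    simp only [S]
    rw [Finset.sum_comm, ← Finset.sum_add_distrib, ← Finset.sum_sub_distrib,
      ← Finset.sum_sub_distrib, Finset.sum_mul]
    refine Finset.sum_congr rfl fun q _ => ?_
    rw [← Finset.sum_mul]
    simp only [e]
    have hT : I (fun _ => True) q = 1 := ind_pos trivial
    rw [hT]
    ring
  have herr : Tendsto (fun x : ℝ => (∑ q ∈ (fin_le (K := K) x).toFinset,
      e q * Real.log (Ideal.absNorm q.asIdeal)) / x) atTop (𝓝 0) := by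
    have h1 : Tendsto (fun x : ℝ => (∑ q ∈ hbad.toFinset,
      |e q * Real.log (Ideal.absNorm q.asIdeal)|) / x) atTop (𝓝 0) :=
      tendsto_const_nhds.div_atTop tendsto_id
    refine squeeze_zero_norm' ?_ h1
    filter_upwards [eventually_gt_atTop (0 : ℝ)] with x hx
    rw [norm_div, Real.norm_of_nonneg hx.le]
    refine div_le_div_of_nonneg_right ?_ hx.le
    refine (norm_sum_le _ _).trans ?_
    rw [← Finset.sum_filter_add_sum_filter_not _ (fun q => q ∉ hbad.toFinset)]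
    rw [Finset.sum_eq_zero, zero_add]
    · refine Finset.sum_le_sum_of_subset_of_nonneg ?_ fun _ _ _ => abs_nonneg _
      intro q hq
      exact not_not.1 (Finset.mem_filter.1 hq).2
    · intro q hq
      rw [he0 q (Finset.mem_filter.1 hq).2, zero_mul, norm_zero]
  rw [hS]
  have hall : Tendsto (fun x => S (fun _ => True) x / x) atTop (𝓝 1) := by
    refine (Pool.Agent.T3h73.SL.Den0.t_DEN0 K).congr fun x => ?_
    rw [finsum_mem_eq_finite_toFinset_sum _ (fin_le x)]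
    congr 1
    refine Finset.sum_congr rfl fun q _ => ?_
    simp [I, ind_pos]
  have h2 := (hS _ _).1 (dens_one hℓ ζ hζ w₂ hw2)
  have h3 : Tendsto (fun x => ∑ j ∈ Finset.range ℓ,
      S (fun q => IsP ℓ (loc q (w₁ * w₂ ^ j))) x / x) atTop
      (𝓝 (∑ _j ∈ Finset.range ℓ, (1 / (ℓ : ℝ)))) :=
    tendsto_finset_sum _ fun j _ => (hS _ _).1 (dens_one hℓ ζ hζ _ (hwj j))
  have h4 := (((h2.add h3).sub hall).sub herr).div_const (ℓ : ℝ)
  have h5 : (1 / (ℓ : ℝ) + ∑ _j ∈ Finset.range ℓ, (1 / (ℓ : ℝ)) - 1 - 0) / ℓ = 1 / ℓ ^ 2 := by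
    have hℓ0 : (ℓ : ℝ) ≠ 0 := Nat.cast_ne_zero.2 hℓ.ne_zero
    rw [Finset.sum_const, Finset.card_range, nsmul_eq_mul]
    field_simp
    ring
  rw [h5] at h4
  refine h4.congr fun x => ?_
  rw [hkey x, ← Finset.sum_div]
  ring

end Pool.Agent.T3h73.SD.DK
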