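import Mathlib

/-! Project SD, task EUL (helper62): infinite products. -/

set_option autoImplicit false
set_option linter.all false

open Filter Topology

namespace Pool.Agent.T3h73.SD.EUL

lemma norm_one_add_le (z : ℂ) : ‖1 + z‖ ≤ Real.exp (z.re + ‖z‖ ^ 2 / 2) := by
  have h1 : ‖1 + z‖ ^ 2 = 1 + (2 * z.re + ‖z‖ ^ 2) := by
    rw [← Complex.normSq_eq_norm_sq, ← Complex.normSq_eq_norm_sq, Complex.normSq_apply,
      Complex.normSq_apply]
    simp only [Complex.add_re, Complex.one_re, Complex.add_im, Complex.one_im]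
    ring
  have h2 : ‖1 + z‖ ^ 2 ≤ Real.exp (z.re + ‖z‖ ^ 2 / 2) ^ 2 := by
    rw [h1, ← Real.exp_nat_mul]
    have h3 := Real.add_one_le_exp (2 * z.re + ‖z‖ ^ 2)
    have h4 : ((2 : ℕ) : ℝ) * (z.re + ‖z‖ ^ 2 / 2) = 2 * z.re + ‖z‖ ^ 2 := by
      push_cast
      ring
    rw [h4]
    linarith
  exact (pow_le_pow_iff_left₀ (norm_nonneg _) (Real.exp_pos _).le two_ne_zero).1 h2

/-- an upper bound for an infinite product -/
lemma prod_le {ι : Type*} {f : ι → ℝ} {g : ι → ℝ} {P G : ℝ} (hf0 : ∀ i, 0 ≤ f i)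
    (hfg : ∀ i, f i ≤ Real.exp (g i)) (hP : HasProd f P) (hG : HasSum g G) : P ≤ Real.exp G := by
  have h1 : Tendsto (fun s : Finset ι => Real.exp (∑ i ∈ s, g i)) atTop (𝓝 (Real.exp G)) :=
    (Real.continuous_exp.tendsto _).comp hG
  refine le_of_tendsto_of_tendsto' hP h1 fun s => ?_
  rw [Real.exp_sum]
  exact Finset.prod_le_prod (fun i _ => hf0 i) fun i _ => hfg i

lemma le_prod {ι : Type*} {f : ι → ℝ} {g : ι → ℝ} {P G : ℝ}
    (hfg : ∀ i, Real.exp (g i) ≤ f i) (hP : HasProd f P) (hG : HasSum g G) : Real.exp G ≤ P := by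
  have h1 : Tendsto (fun s : Finset ι => Real.exp (∑ i ∈ s, g i)) atTop (𝓝 (Real.exp G)) :=
    (Real.continuous_exp.tendsto _).comp hG
  refine le_of_tendsto_of_tendsto' h1 hP fun s => ?_
  rw [Real.exp_sum]
  exact Finset.prod_le_prod (fun i _ => (Real.exp_pos _).le) fun i _ => hfg i

open Classical in
theorem core {ι : Type*} (w : ι → ℂ) (hw : Summable fun i => ‖w i‖) (hw1 : ∀ i, ‖w i‖ < 1) (L : ℂ)
    (hL : HasProd (fun i => (1 - w i)⁻¹) L) (m : ℕ) (hm : 1 ≤ m) (F : Finset ι) :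
    ‖∑' A : Finset ι, ∏ i ∈ A, (if i ∈ F then 0 else w i / m)‖ ≤
      max 1 ‖L‖ * Real.exp (∑' i, ‖w i‖ ^ 2 + ∑ i ∈ F, ‖w i‖) := by
  have hm0 : (0 : ℝ) < m := by exact_mod_cast hm
  have hm1 : (1 : ℝ) ≤ m := by exact_mod_cast hm
  set z : ι → ℂ := fun i => if i ∈ F then 0 else w i / m with hz
  have hzw : ∀ i, ‖z i‖ ≤ ‖w i‖ := by
    intro i
    simp only [hz]
    split_ifs
    · rw [norm_zero]; exact norm_nonneg _
    · rw [norm_div, Complex.norm_natCast]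
      exact div_le_self (norm_nonneg _) hm1
  have hzs : Summable fun i => ‖z i‖ := hw.of_nonneg_of_le (fun i => norm_nonneg _) hzw
  have hP : HasProd (fun i => 1 + z i) (∑' A : Finset ι, ∏ i ∈ A, z i) :=
    hasProd_one_add_of_hasSum_prod (summable_finsetProd_of_summable_norm hzs).hasSum
  have hwsq : Summable fun i => ‖w i‖ ^ 2 := by
    refine hw.of_nonneg_of_le (fun i => sq_nonneg _) fun i => ?_
    rw [sq]
    exact mul_le_of_le_one_right (norm_nonneg _) (hw1 i).le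
  have hzsq : Summable fun i => ‖z i‖ ^ 2 :=
    hwsq.of_nonneg_of_le (fun i => sq_nonneg _) fun i =>
      pow_le_pow_left₀ (norm_nonneg _) (hzw i) 2
  have hwr : Summable fun i => (w i).re := hw.of_norm_bounded fun i => by
    rw [Real.norm_eq_abs]; exact Complex.abs_re_le_norm _
  have hzr : Summable fun i => (z i).re := hzs.of_norm_bounded fun i => by
    rw [Real.norm_eq_abs]; exact Complex.abs_re_le_norm _
  -- upper bound
  have h1 : ‖∑' A : Finset ι, ∏ i ∈ A, z i‖ ≤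
      Real.exp (∑' i, (z i).re + (∑' i, ‖z i‖ ^ 2) / 2) :=
    prod_le (fun i => norm_nonneg _) (fun i => norm_one_add_le (z i)) hP.norm
      (hzr.hasSum.add (hzsq.hasSum.div_const 2))
  -- lower bound
  have h2 : Real.exp (∑' i, (w i).re - (∑' i, ‖w i‖ ^ 2) / 2) ≤ ‖L‖ := by
    refine le_prod (fun i => ?_) hL.norm (hwr.hasSum.sub (hwsq.hasSum.div_const 2))
    have h3 := norm_one_add_le (-w i)
    rw [norm_neg, Complex.neg_re] at h3
    have h4 : 0 < ‖1 - w i‖ := by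
      rw [norm_pos_iff, sub_ne_zero]
      intro h5
      have := hw1 i
      rw [← h5, norm_one] at this
      exact lt_irrefl _ this
    rw [norm_inv, le_inv_comm₀ (Real.exp_pos _) h4, ← Real.exp_neg]
    have h5 : -((w i).re - ‖w i‖ ^ 2 / 2) = -(w i).re + ‖w i‖ ^ 2 / 2 := by ring
    rw [h5]
    exact h3
  have hLpos : 0 < ‖L‖ := lt_of_lt_of_le (Real.exp_pos _) h2
  have h3 : ∑' i, (w i).re ≤ Real.log ‖L‖ + (∑' i, ‖w i‖ ^ 2) / 2 := by
    have := (Real.le_log_iff_exp_le hLpos).2 h2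
    linarith
  -- the real parts
  have h4 : ∑' i, (z i).re = (∑' i, (w i).re - ∑ i ∈ F, (w i).re) / m := by
    have h5 : HasSum (fun i => if i ∈ F then (w i).re else 0) (∑ i ∈ F, (w i).re) := by
      have := hasSum_sum_of_ne_finset_zero (f := fun i => if i ∈ F then (w i).re else 0) (s := F)
        (fun i hi => if_neg hi) (L := SummationFilter.unconditional _)
      convert this using 1
      exact Finset.sum_congr rfl fun i hi => (if_pos hi).symm
    have h6 := (hwr.hasSum.sub h5).div_const (m : ℝ)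
    rw [← h6.tsum_eq]
    refine tsum_congr fun i => ?_
    simp only [hz]
    split_ifs with hi
    · simp
    · rw [sub_zero, Complex.div_natCast_re]
  have h5 : - ∑ i ∈ F, (w i).re ≤ ∑ i ∈ F, ‖w i‖ := by
    rw [← Finset.sum_neg_distrib]
    exact Finset.sum_le_sum fun i _ => (neg_le_abs _).trans (Complex.abs_re_le_norm _)
  have hQ0 : 0 ≤ ∑' i, ‖w i‖ ^ 2 := tsum_nonneg fun i => sq_nonneg _
  have h6 : ∑' i, ‖z i‖ ^ 2 ≤ ∑' i, ‖w i‖ ^ 2 :=
    hzsq.tsum_le_tsum (fun i => pow_le_pow_left₀ (norm_nonneg _) (hzw i) 2) hwsq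
  have hFn : 0 ≤ ∑ i ∈ F, ‖w i‖ := Finset.sum_nonneg fun i _ => norm_nonneg _
  have hlog : Real.log ‖L‖ ≤ Real.log (max 1 ‖L‖) :=
    Real.log_le_log hLpos (le_max_right _ _)
  have hlog0 : 0 ≤ Real.log (max 1 ‖L‖) := Real.log_nonneg (le_max_left _ _)
  have h7 : ∑' i, (z i).re ≤ Real.log (max 1 ‖L‖) + (∑' i, ‖w i‖ ^ 2) / 2 + ∑ i ∈ F, ‖w i‖ := by
    rw [h4]
    have h8 : 0 ≤ Real.log (max 1 ‖L‖) + (∑' i, ‖w i‖ ^ 2) / 2 + ∑ i ∈ F, ‖w i‖ := by positivity
    calc (∑' i, (w i).re - ∑ i ∈ F, (w i).re) / m ≤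
        (Real.log (max 1 ‖L‖) + (∑' i, ‖w i‖ ^ 2) / 2 + ∑ i ∈ F, ‖w i‖) / m := by
          apply div_le_div_of_nonneg_right _ hm0.le
          linarith
      _ ≤ _ := div_le_self h8 hm1
  calc ‖∑' A : Finset ι, ∏ i ∈ A, z i‖ ≤
      Real.exp (∑' i, (z i).re + (∑' i, ‖z i‖ ^ 2) / 2) := h1
    _ ≤ Real.exp (Real.log (max 1 ‖L‖) + (∑' i, ‖w i‖ ^ 2 + ∑ i ∈ F, ‖w i‖)) := by
        apply Real.exp_le_exp.2
        linarith
    _ = _ := by rw [Real.exp_add, Real.exp_log (by positivity)]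

end Pool.Agent.T3h73.SD.EUL
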