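import Pool.Agent.T3h73.SD.Stm2
import Pool.Agent.T3h73.SD.EULa
import Pool.Agent.Y773.AB.Res

/-! Project SD, task EUL (helper62): the sums over one variable. -/

set_option autoImplicit false
set_option linter.all false

open NumberField IsDedekindDomain Filter Topology

namespace Pool.Agent.T3h73.SD.EUL

open Pool.Agent.T3h73.SL (Pl)
open Pool.Agent.Y773.G (IsModChar)
open Pool.Agent.Y773 (LI)

lemma ee_eq {ℓ : ℕ} [NeZero ℓ] (a : ZMod ℓ) : ee ℓ a = (ZMod.toCircle a : ℂ) := by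
  rw [ZMod.toCircle_apply, ee]

lemma ee_add {ℓ : ℕ} [NeZero ℓ] (a b : ZMod ℓ) : ee ℓ (a + b) = ee ℓ a * ee ℓ b := by
  rw [ee_eq, ee_eq, ee_eq, AddChar.map_add_eq_mul]
  rfl

lemma ee_zero {ℓ : ℕ} [NeZero ℓ] : ee ℓ 0 = 1 := by
  rw [ee_eq, AddChar.map_zero_eq_one]
  rfl

lemma ee_sum {ℓ : ℕ} [NeZero ℓ] {ι : Type*} (A : Finset ι) (f : ι → ZMod ℓ) :
    ee ℓ (∑ i ∈ A, f i) = ∏ i ∈ A, ee ℓ (f i) := by
  classical
  induction A using Finset.induction_on with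
  | empty => rw [Finset.sum_empty, Finset.prod_empty, ee_zero]
  | insert a A ha ih => rw [Finset.sum_insert ha, Finset.prod_insert ha, ee_add, ih]

section
variable {K : Type} [Field K] [NumberField K]

lemma two_le_N (q : Pl K) : 2 ≤ Ideal.absNorm q.asIdeal :=
  Pool.Agent.Y773.AB.norm_prime_ge q.prime

/-- the places and the prime ideals -/
def ePl (K : Type) [Field K] [NumberField K] : Pl K ≃ {𝔭 : Ideal (𝓞 K) // Prime 𝔭} where
  toFun q := ⟨q.asIdeal, q.prime⟩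
  invFun 𝔭 := ⟨𝔭.1, Ideal.isPrime_of_prime 𝔭.2, 𝔭.2.ne_zero⟩
  left_inv q := rfl
  right_inv 𝔭 := rfl

lemma sum_N {σ : ℝ} (hσ : 1 < σ) : Summable fun q : Pl K => (Ideal.absNorm q.asIdeal : ℝ) ^ (-σ) := by
  have h1 := Pool.Agent.Y772.DK.nr_summable K hσ
  exact h1.comp_injective (i := fun q : Pl K => q.asIdeal) (fun q q' h => HeightOneSpectrum.ext h)

lemma NA_pos (A : Finset (Pl K)) : 1 ≤ NA A := by
  unfold NA
  exact Finset.one_le_prod' fun q _ => by have := two_le_N q; omega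

lemma one_le_gA (A : Finset (Pl K)) : 1 ≤ gA A := by
  unfold gA
  have : ∏ q ∈ A, (1 : ℝ) ≤ ∏ q ∈ A, (1 + 1 / (Ideal.absNorm q.asIdeal : ℝ)) :=
    Finset.prod_le_prod (fun _ _ => zero_le_one) fun q _ => by
      have : (0 : ℝ) ≤ 1 / (Ideal.absNorm q.asIdeal : ℝ) := by positivity
      linarith
  rwa [Finset.prod_const_one] at this

lemma exp_le_sq {x : ℝ} (h0 : 0 ≤ x) (h1 : x ≤ 1 / 2) : Real.exp x ≤ (1 + x) ^ 2 := by
  have h2 : 0 < 1 - x := by linarith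
  have h3 : Real.exp x ≤ (1 - x)⁻¹ := by
    have h4 := Real.add_one_le_exp (-x)
    rw [le_inv_comm₀ (Real.exp_pos _) h2, ← Real.exp_neg]
    linarith
  refine h3.trans ?_
  rw [inv_le_iff_one_le_mul₀ h2]
  nlinarith [mul_nonneg h0 h0, mul_nonneg (mul_nonneg h0 h0) h0]

lemma exp_sum_le (F : Finset (Pl K)) :
    Real.exp (∑ q ∈ F, 1 / (Ideal.absNorm q.asIdeal : ℝ)) ≤ gA F ^ 2 := by
  unfold gA
  rw [Real.exp_sum, ← Finset.prod_pow]
  refine Finset.prod_le_prod (fun q _ => (Real.exp_pos _).le) fun q _ => ?_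
  have h2 : (2 : ℝ) ≤ Ideal.absNorm q.asIdeal := by exact_mod_cast two_le_N q
  apply exp_le_sq (by positivity)
  rw [div_le_div_iff₀ (by linarith) two_pos]
  linarith

lemma NA_rpow (A : Finset (Pl K)) (s : ℝ) :
    (NA A : ℝ) ^ s = ∏ q ∈ A, (Ideal.absNorm q.asIdeal : ℝ) ^ s := by
  unfold NA
  rw [Nat.cast_prod, Real.finset_prod_rpow _ _ fun q _ => by positivity]

lemma absNorm_prod (B : Finset (Pl K)) : Ideal.absNorm (∏ b ∈ B, b.asIdeal) = NA B := by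
  unfold NA
  rw [map_prod]

end

open Classical in
theorem t_EUL (hLU : S_LU) : S_EUL := by
  intro ℓ hℓ K _ _ S 𝔪 Λ _ χ sy hsys m hm
  have hne : NeZero ℓ := ⟨hℓ.ne_zero⟩
  obtain ⟨C₀, hC₀, hLU⟩ := hLU K
  have hN𝔪 : 1 ≤ Ideal.absNorm 𝔪 := by
    rw [Nat.one_le_iff_ne_zero, Ne, Ideal.absNorm_eq_zero_iff]
    exact hsys.ne_bot
  have hlog𝔪 : 0 ≤ Real.log (Ideal.absNorm 𝔪) := Real.log_nonneg (by exact_mod_cast hN𝔪)
  set Q₀ : ℝ := ∑' q : Pl K, (Ideal.absNorm q.asIdeal : ℝ) ^ (-(2 : ℝ)) with hQ₀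
  set C₁ : ℝ := max 1 (C₀ * (1 + Real.log (Ideal.absNorm 𝔪)) ^ C₀) with hC₁
  have hC₁1 : 1 ≤ C₁ := le_max_left _ _
  set C : ℝ := max (C₁ * Real.exp Q₀) (max C₀ 2) with hC
  have hCC₀ : C₀ ≤ C := (le_max_left _ _).trans (le_max_right _ _)
  have hC2 : 2 ≤ C := (le_max_right _ _).trans (le_max_right _ _)
  refine ⟨C, by linarith, ?_⟩
  intro h j B F hBS hjB hnt s hs1 hs2
  obtain ⟨η, hη, hηℓ, hηq, hηnt, -⟩ := hsys.char h j B hBS hjB
  -- the values of the character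
  have hη1 : ∀ 𝔞, ‖η 𝔞‖ ≤ 1 := by
    intro 𝔞
    by_cases h0 : η 𝔞 = 0
    · rw [h0, norm_zero]; exact zero_le_one
    · have h1 := hηℓ 𝔞 ((hη.supp 𝔞).1 h0)
      exact (Complex.norm_eq_one_of_pow_eq_one h1 hℓ.ne_zero).le
  have hηS : ∀ q : Pl K, q ∈ S → η q.asIdeal = 0 := by
    intro q hq
    by_contra h0
    have h1 := (hη.supp _).1 h0
    have h2 : IsCoprime q.asIdeal 𝔪 := IsCoprime.of_mul_right_left h1
    exact ((hsys.cop q).1 h2) hq
  have hηB : ∀ q : Pl K, q ∈ B → η q.asIdeal = 0 := by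
    intro q hq
    by_contra h0
    have h1 := (hη.supp _).1 h0
    have h2 : IsCoprime q.asIdeal (∏ b ∈ B, b.asIdeal) := IsCoprime.of_mul_right_right h1
    have h3 : IsCoprime q.asIdeal q.asIdeal :=
      (IsCoprime.prod_right_iff.1 h2) q hq
    rw [isCoprime_self] at h3
    exact q.prime.not_unit h3
  -- the Euler product
  set w : Pl K → ℂ := fun q => η q.asIdeal * ((Ideal.absNorm q.asIdeal : ℕ) : ℂ) ^ (-(s : ℂ)) with hw
  have hnorm : ∀ q : Pl K, ‖((Ideal.absNorm q.asIdeal : ℕ) : ℂ) ^ (-(s : ℂ))‖ =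
      (Ideal.absNorm q.asIdeal : ℝ) ^ (-s) := by
    intro q
    rw [Complex.norm_natCast_cpow_of_pos (by have := two_le_N q; omega), Complex.neg_re,
      Complex.ofReal_re]
  have hcpow : ∀ q : Pl K, ((Ideal.absNorm q.asIdeal : ℕ) : ℂ) ^ (-(s : ℂ)) =
      (((Ideal.absNorm q.asIdeal : ℝ) ^ (-s) : ℝ) : ℂ) := by
    intro q
    rw [Complex.ofReal_cpow (by positivity)]
    push_cast
    rfl
  have hwle : ∀ q, ‖w q‖ ≤ (Ideal.absNorm q.asIdeal : ℝ) ^ (-s) := by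
    intro q
    simp only [hw]
    rw [norm_mul, hnorm]
    exact mul_le_of_le_one_left (by positivity) (hη1 _)
  have hws : Summable fun q => ‖w q‖ :=
    (sum_N (K := K) hs1).of_nonneg_of_le (fun q => norm_nonneg _) hwle
  have hNs : ∀ q : Pl K, (Ideal.absNorm q.asIdeal : ℝ) ^ (-s) ≤ 1 / (Ideal.absNorm q.asIdeal : ℝ) := by
    intro q
    have h2 : (2 : ℝ) ≤ Ideal.absNorm q.asIdeal := by exact_mod_cast two_le_N q
    rw [one_div, ← Real.rpow_neg_one]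
    exact Real.rpow_le_rpow_of_exponent_le (by linarith) (by linarith)
  have hw1 : ∀ q, ‖w q‖ < 1 := by
    intro q
    have h2 : (2 : ℝ) ≤ Ideal.absNorm q.asIdeal := by exact_mod_cast two_le_N q
    refine lt_of_le_of_lt ((hwle q).trans (hNs q)) ?_
    rw [div_lt_one (by linarith)]
    linarith
  have hL : HasProd (fun q : Pl K => (1 - w q)⁻¹) (LI η (s : ℂ)) := by
    have h1 := Pool.Agent.Y773.AB.hasProd_prime hη1 (s := (s : ℂ)) (by simpa using hs1)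
    rw [← (ePl K).hasProd_iff] at h1
    exact h1
  have hcore := core w hws hw1 _ hL m hm F
  -- the terms
  have hterm : ∀ A : Finset (Pl K), (if Disjoint A S ∧ Disjoint A B ∧ Disjoint A F then
      ((((m : ℝ) ^ A.card)⁻¹ * (NA A : ℝ) ^ (-s) : ℝ) : ℂ) *
        ee ℓ (∑ q ∈ A, (χ h q + ∑ b ∈ B, j b * sy b q)) else 0) =
      ∏ q ∈ A, (if q ∈ F then 0 else w q / m) := by
    intro A
    split_ifs with hA
    · obtain ⟨hAS, hAB, hAF⟩ := hA
      have h1 : ∀ q ∈ A, (if q ∈ F then 0 else w q / m) =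
          ((((m : ℝ))⁻¹ * (Ideal.absNorm q.asIdeal : ℝ) ^ (-s) : ℝ) : ℂ) *
            ee ℓ (χ h q + ∑ b ∈ B, j b * sy b q) := by
        intro q hq
        rw [if_neg (Finset.disjoint_left.1 hAF hq)]
        simp only [hw]
        rw [hηq q (Finset.disjoint_left.1 hAS hq) (Finset.disjoint_left.1 hAB hq), hcpow]
        push_cast
        ring
      rw [Finset.prod_congr rfl h1, Finset.prod_mul_distrib, ← ee_sum, ← Complex.ofReal_prod,
        Finset.prod_mul_distrib, Finset.prod_const, NA_rpow, inv_pow]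
    · symm
      have h2 : ∃ q ∈ A, q ∈ S ∨ q ∈ B ∨ q ∈ F := by
        by_contra hcon
        push Not at hcon
        apply hA
        exact ⟨Finset.disjoint_left.2 fun q hq => (hcon q hq).1,
          Finset.disjoint_left.2 fun q hq => (hcon q hq).2.1,
          Finset.disjoint_left.2 fun q hq => (hcon q hq).2.2⟩
      obtain ⟨q, hq, h3⟩ := h2
      apply Finset.prod_eq_zero hq
      rcases h3 with h3 | h3 | h3
      · simp only [hw]
        rw [hηS q h3, zero_mul, zero_div, ite_self]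
      · simp only [hw]
        rw [hηB q h3, zero_mul, zero_div, ite_self]
      · rw [if_pos h3]
  rw [tsum_congr hterm]
  refine hcore.trans ?_
  -- the bounds
  have hB1 : (1 : ℝ) ≤ NA B := by exact_mod_cast NA_pos B
  have hlogB : 0 ≤ Real.log (NA B) := Real.log_nonneg hB1
  have hY : 1 ≤ 1 + Real.log (NA B) := by linarith
  have hG := one_le_gA F
  have hLle : ‖LI η (s : ℂ)‖ ≤ C₀ * (1 + Real.log (Ideal.absNorm 𝔪)) ^ C₀ *
      (1 + Real.log (NA B)) ^ C₀ := by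
    have hnt' : ∃ 𝔞, IsCoprime 𝔞 (𝔪 * ∏ b ∈ B, b.asIdeal) ∧ η 𝔞 ≠ 1 := hηnt hnt
    refine (hLU _ η hη hnt' s hs1 hs2).trans ?_
    rw [mul_assoc]
    apply mul_le_mul_of_nonneg_left _ hC₀.le
    rw [← Real.mul_rpow (by linarith) (by linarith)]
    apply Real.rpow_le_rpow _ _ hC₀.le
    · have : 0 ≤ Real.log (Ideal.absNorm (𝔪 * ∏ b ∈ B, b.asIdeal)) := Real.log_natCast_nonneg _
      linarith
    · rw [map_mul, absNorm_prod, Nat.cast_mul, Real.log_mul (by positivity) (by positivity)]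
      nlinarith [mul_nonneg hlog𝔪 hlogB]
  have hmax : max 1 ‖LI η (s : ℂ)‖ ≤ C₁ * (1 + Real.log (NA B)) ^ C := by
    have hY' : 1 ≤ (1 + Real.log (NA B)) ^ C := Real.one_le_rpow hY (by linarith)
    have hYY : (1 + Real.log (NA B)) ^ C₀ ≤ (1 + Real.log (NA B)) ^ C :=
      Real.rpow_le_rpow_of_exponent_le hY hCC₀
    apply max_le
    · nlinarith
    · refine hLle.trans ?_
      have h1 : 0 ≤ C₀ * (1 + Real.log (Ideal.absNorm 𝔪)) ^ C₀ := by
        have : 0 ≤ (1 + Real.log (Ideal.absNorm 𝔪)) ^ C₀ := Real.rpow_nonneg (by linarith) _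
        positivity
      exact mul_le_mul (le_max_right _ _) hYY (Real.rpow_nonneg (by linarith) _) (by linarith)
  have hQ : ∑' q, ‖w q‖ ^ 2 ≤ Q₀ := by
    have hs2' : Summable fun q : Pl K => (Ideal.absNorm q.asIdeal : ℝ) ^ (-(2 : ℝ)) :=
      sum_N (K := K) (by norm_num)
    have h1 : ∀ q : Pl K, ‖w q‖ ^ 2 ≤ (Ideal.absNorm q.asIdeal : ℝ) ^ (-(2 : ℝ)) := by
      intro q
      have h2 : (2 : ℝ) ≤ Ideal.absNorm q.asIdeal := by exact_mod_cast two_le_N q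
      have h3 := (hwle q).trans (hNs q)
      have h4 : ‖w q‖ ^ 2 ≤ (1 / (Ideal.absNorm q.asIdeal : ℝ)) ^ 2 :=
        pow_le_pow_left₀ (norm_nonneg _) h3 2
      refine h4.trans (le_of_eq ?_)
      rw [Real.rpow_neg (by linarith), Real.rpow_two, one_div, inv_pow]
    exact Summable.tsum_le_tsum h1 (hs2'.of_nonneg_of_le (fun q => sq_nonneg _) h1) hs2'
  have hF : ∑ q ∈ F, ‖w q‖ ≤ ∑ q ∈ F, 1 / (Ideal.absNorm q.asIdeal : ℝ) :=
    Finset.sum_le_sum fun q _ => (hwle q).trans (hNs q)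
  have hexp : Real.exp (∑' q, ‖w q‖ ^ 2 + ∑ q ∈ F, ‖w q‖) ≤ Real.exp Q₀ * gA F ^ C := by
    calc Real.exp (∑' q, ‖w q‖ ^ 2 + ∑ q ∈ F, ‖w q‖) ≤
        Real.exp (Q₀ + ∑ q ∈ F, 1 / (Ideal.absNorm q.asIdeal : ℝ)) :=
          Real.exp_le_exp.2 (add_le_add hQ hF)
      _ = Real.exp Q₀ * Real.exp (∑ q ∈ F, 1 / (Ideal.absNorm q.asIdeal : ℝ)) := Real.exp_add _ _
      _ ≤ Real.exp Q₀ * gA F ^ (2 : ℕ) := mul_le_mul_of_nonneg_left (exp_sum_le F) (Real.exp_pos _).le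
      _ ≤ Real.exp Q₀ * gA F ^ C := by
          apply mul_le_mul_of_nonneg_left _ (Real.exp_pos _).le
          rw [← Real.rpow_natCast]
          exact Real.rpow_le_rpow_of_exponent_le hG (by exact_mod_cast hC2)
  have hYn : 0 ≤ (1 + Real.log (NA B)) ^ C := Real.rpow_nonneg (by linarith) _
  have hGn : 0 ≤ gA F ^ C := Real.rpow_nonneg (by linarith) _
  calc max 1 ‖LI η (s : ℂ)‖ * Real.exp (∑' q, ‖w q‖ ^ 2 + ∑ q ∈ F, ‖w q‖) ≤
      (C₁ * (1 + Real.log (NA B)) ^ C) * (Real.exp Q₀ * gA F ^ C) :=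
        mul_le_mul hmax hexp (Real.exp_pos _).le (by positivity)
    _ = (C₁ * Real.exp Q₀) * (1 + Real.log (NA B)) ^ C * gA F ^ C := by ring
    _ ≤ C * (1 + Real.log (NA B)) ^ C * gA F ^ C := by
        apply mul_le_mul_of_nonneg_right _ hGn
        exact mul_le_mul_of_nonneg_right (le_max_left _ _) hYn

end Pool.Agent.T3h73.SD.EUL
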