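import Pool.Agent.T3h73.SD.Stm

/-!
# Task FTPG of project SD (helper73): a map respecting independence and collinearity is linear up to
scalars
-/

set_option autoImplicit false

namespace Pool.Agent.T3h73.SD.FTPG

open Submodule

/-- linear independence of a pair -/
def I2 (F : Type*) [Field F] {V : Type*} [AddCommGroup V] [Module F V] (a b : V) : Prop :=
  ∀ x y : F, x • a + y • b = 0 → x = 0 ∧ y = 0

/-- linear independence of a triple -/
def I3 (F : Type*) [Field F] {V : Type*} [AddCommGroup V] [Module F V] (a b c : V) : Prop :=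
  ∀ x y z : F, x • a + y • b + z • c = 0 → x = 0 ∧ y = 0 ∧ z = 0

variable {F : Type*} [Field F] {V W : Type*} [AddCommGroup V] [Module F V] [AddCommGroup W]
  [Module F W]

theorem i2_iff {a b : V} : I2 F a b ↔ LinearIndependent F ![a, b] :=
  (LinearIndependent.pair_iff).symm

theorem i3_iff {a b c : V} : I3 F a b c ↔ LinearIndependent F ![a, b, c] := by
  rw [Fintype.linearIndependent_iff]
  constructor
  · intro h g hg
    rw [Fin.sum_univ_three] at hg
    have := h (g 0) (g 1) (g 2) (by simpa using hg)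
    intro i
    fin_cases i
    · exact this.1
    · exact this.2.1
    · exact this.2.2
  · intro h x y z hg
    have := h ![x, y, z] (by rw [Fin.sum_univ_three]; simpa using hg)
    exact ⟨this 0, this 1, this 2⟩

theorem I2.symm {a b : V} (h : I2 F a b) : I2 F b a := fun x y e =>
  (h y x (by rw [add_comm]; exact e)).symm

theorem I2.add {a b : V} (h : I2 F a b) (t : F) : I2 F (a + t • b) b := by
  intro x y e
  obtain ⟨h1, h2⟩ := h x (x * t + y) (by linear_combination (norm := module) e)
  subst h1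
  exact ⟨rfl, by simpa using h2⟩

theorem I3.ab {a b c : V} (h : I3 F a b c) : I2 F a b := by
  intro x y e
  obtain ⟨h1, h2, -⟩ := h x y 0 (by linear_combination (norm := module) e)
  exact ⟨h1, h2⟩

theorem I3.ac {a b c : V} (h : I3 F a b c) : I2 F a c := by
  intro x y e
  obtain ⟨h1, -, h2⟩ := h x 0 y (by linear_combination (norm := module) e)
  exact ⟨h1, h2⟩

theorem I3.bc {a b c : V} (h : I3 F a b c) : I2 F b c := by
  intro x y e
  obtain ⟨-, h1, h2⟩ := h 0 x y (by linear_combination (norm := module) e)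
  exact ⟨h1, h2⟩

theorem I2.ne {a b : V} (h : I2 F a b) : a ≠ 0 := by
  rintro rfl
  have := (h 1 0 (by simp)).1
  exact one_ne_zero this

/-- the hypotheses on `f` -/
structure Hyp (F : Type*) [Field F] {V W : Type*} [AddCommGroup V] [Module F V] [AddCommGroup W]
    [Module F W] (f : V → W) : Prop where
  ne : ∀ v, v ≠ 0 → f v ≠ 0
  ind : ∀ a b, I2 F a b → I2 F (f a) (f b)
  col : ∀ a b, I2 F a b → ∀ x y : F, x • a + y • b ≠ 0 →
    ∃ s t : F, f (x • a + y • b) = s • f a + t • f b

variable {f : V → W}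

theorem col' (H : Hyp F f) {a b : V} (h : I2 F a b) :
    ∃ s t : F, f (a + b) = s • f a + t • f b := by
  have := H.col a b h 1 1 (by
    intro e
    have := (h 1 1 e).1
    exact one_ne_zero this)
  simpa using this

theorem ind3 [Finite F] (H : Hyp F f) {a b c : V} (h : I3 F a b c) :
    I3 F (f a) (f b) (f c) := by
  have hab := h.ab
  have hfab := H.ind _ _ hab
  have key : ∀ t : F, ∃ s r : F, s ≠ 0 ∧ f (a + t • b) = s • (f a + r • f b) := by
    intro t
    have hne : (1 : F) • a + t • b ≠ 0 := by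
      intro e
      exact one_ne_zero (hab 1 t e).1
    obtain ⟨s, r, hsr⟩ := H.col a b hab 1 t hne
    rw [one_smul] at hsr
    have hs : s ≠ 0 := by
      rintro rfl
      have h1 := H.ind _ _ (hab.add t)
      have := (h1 1 (-r) (by rw [hsr]; module)).1
      exact one_ne_zero this
    refine ⟨s, r / s, hs, ?_⟩
    rw [hsr, smul_add, smul_smul, mul_div_cancel₀ _ hs]
  choose s r hs hsr using key
  have hinj : Function.Injective r := by
    intro t t' e
    by_contra hne
    have hI : I2 F (a + t • b) (a + t' • b) := by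
      intro x y e
      obtain ⟨h1, h2⟩ := hab (x + y) (x * t + y * t') (by linear_combination (norm := module) e)
      have hy : y = -x := by linear_combination h1
      subst hy
      have h3 : x * (t - t') = 0 := by linear_combination h2
      rcases mul_eq_zero.1 h3 with h4 | h4
      · exact ⟨h4, by rw [h4, neg_zero]⟩
      · exact absurd (sub_eq_zero.1 h4) hne
    have hf := H.ind _ _ hI
    have := (hf (s t') (-(s t)) (by rw [hsr, hsr, e]; module)).1
    exact hs t' this
  have hsurj : Function.Surjective r := Finite.injective_iff_surjective.1 hinj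
  intro x y z e
  have hz : z = 0 := by
    by_contra hz
    have hx : x ≠ 0 := by
      rintro rfl
      have := (H.ind _ _ h.bc y z (by linear_combination (norm := module) e)).2
      exact hz this
    obtain ⟨t, ht⟩ := hsurj (y / x)
    have hI : I2 F (a + t • b) c := by
      intro p q e'
      obtain ⟨h1, -, h3⟩ := h p (p * t) q (by linear_combination (norm := module) e')
      exact ⟨h1, h3⟩
    have hf := H.ind _ _ hI
    have h1 : f a + (y / x) • f b = (s t)⁻¹ • f (a + t • b) := by
      rw [hsr t, ht, smul_smul, inv_mul_cancel₀ (hs t), one_smul]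
    have h2 : x • (f a + (y / x) • f b) = x • f a + y • f b := by
      rw [smul_add, smul_smul, mul_div_cancel₀ _ hx]
    have := (hf (x * (s t)⁻¹) z (by
      rw [mul_smul, ← h1, h2, e])).2
    exact hz this
  subst hz
  obtain ⟨h1, h2⟩ := hfab x y (by linear_combination (norm := module) e)
  exact ⟨h1, h2, rfl⟩

theorem exF (H : Hyp F f) {e v : V} (h : I2 F e v) :
    ∃ c d : F, c ≠ 0 ∧ d ≠ 0 ∧ c • f v + f e = d • f (v + e) := by
  obtain ⟨a, b, hab⟩ := col' H h.symm
  have ha : a ≠ 0 := by
    rintro rfl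
    have h1 : I2 F (v + e) e := by simpa using h.symm.add 1
    have := (H.ind _ _ h1 1 (-b) (by rw [hab]; module)).1
    exact one_ne_zero this
  have hb : b ≠ 0 := by
    rintro rfl
    have h1 : I2 F (e + v) v := by simpa using h.add 1
    rw [add_comm] at h1
    have := (H.ind _ _ h1 1 (-a) (by rw [hab]; module)).1
    exact one_ne_zero this
  refine ⟨a / b, b⁻¹, div_ne_zero ha hb, inv_ne_zero hb, ?_⟩
  rw [hab, smul_add, smul_smul, smul_smul, inv_mul_cancel₀ hb, one_smul, div_eq_inv_mul]

open Classical in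
/-- the normalised multiple of `f v` -/
noncomputable def Fm (H : Hyp F f) (e v : V) : W :=
  if h : I2 F e v then (exF H h).choose • f v else 0

theorem Fm_spec (H : Hyp F f) {e v : V} (h : I2 F e v) :
    ∃ c d : F, c ≠ 0 ∧ d ≠ 0 ∧ Fm H e v = c • f v ∧ c • f v + f e = d • f (v + e) := by
  refine ⟨(exF H h).choose, (exF H h).choose_spec.choose, (exF H h).choose_spec.choose_spec.1,
    (exF H h).choose_spec.choose_spec.2.1, ?_, (exF H h).choose_spec.choose_spec.2.2⟩
  rw [Fm, dif_pos h]

theorem add3 [Finite F] (H : Hyp F f) {e v w : V} (h : I3 F e v w) :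
    Fm H e (v + w) = Fm H e v + Fm H e w := by
  have hev := h.ab
  have hew := h.ac
  have hvw := h.bc
  have hevw : I2 F e (v + w) := by
    intro x y e'
    obtain ⟨h1, h2, -⟩ := h x y y (by linear_combination (norm := module) e')
    exact ⟨h1, h2⟩
  have hve_w : I2 F (v + e) w := by
    intro x y e'
    obtain ⟨h1, -, h2⟩ := h x x y (by linear_combination (norm := module) e')
    exact ⟨h1, h2⟩
  have hwe_v : I2 F (w + e) v := by
    intro x y e'
    obtain ⟨h1, h2, -⟩ := h x y x (by linear_combination (norm := module) e')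
    exact ⟨h1, h2⟩
  have hf := ind3 H h
  obtain ⟨c1, d1, hc1, hd1, e1, g1⟩ := Fm_spec H hev
  obtain ⟨c2, d2, hc2, hd2, e2, g2⟩ := Fm_spec H hew
  obtain ⟨c3, d3, hc3, hd3, e3, g3⟩ := Fm_spec H hevw
  obtain ⟨α, β, k1⟩ := col' H hve_w
  obtain ⟨γ, δ, k2⟩ := col' H hwe_v
  obtain ⟨μ, ν, k3⟩ := col' H hvw
  have q1 : f (v + e) = d1⁻¹ • (c1 • f v + f e) := by
    rw [g1, smul_smul, inv_mul_cancel₀ hd1, one_smul]
  have q2 : f (w + e) = d2⁻¹ • (c2 • f w + f e) := by
    rw [g2, smul_smul, inv_mul_cancel₀ hd2, one_smul]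
  have x1 : v + e + w = v + w + e := by abel
  have x2 : w + e + v = v + w + e := by abel
  rw [x1, q1] at k1
  rw [x2, q2] at k2
  have k4 : α • (d1⁻¹ • (c1 • f v + f e)) + β • f w =
      γ • (d2⁻¹ • (c2 • f w + f e)) + δ • f v := k1.symm.trans k2
  obtain ⟨r1, r2, r3⟩ := hf (α * d1⁻¹ - γ * d2⁻¹) (α * d1⁻¹ * c1 - δ) (β - γ * d2⁻¹ * c2)
    (by linear_combination (norm := module) k4)
  have k5 : f (v + w + e) = (α * d1⁻¹) • (f e + c1 • f v + c2 • f w) := by
    rw [k1]
    have : β = α * d1⁻¹ * c2 := by linear_combination r3 - c2 * r1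
    rw [this]
    module
  rw [e1, e2, e3]
  rw [k3, k5] at g3
  obtain ⟨s1, s2, s3⟩ := hf (1 - d3 * (α * d1⁻¹)) (c3 * μ - d3 * (α * d1⁻¹) * c1)
    (c3 * ν - d3 * (α * d1⁻¹) * c2) (by linear_combination (norm := module) g3)
  rw [k3]
  have t1 : c3 * μ = c1 := by linear_combination s2 - c1 * s1
  have t2 : c3 * ν = c2 := by linear_combination s3 - c2 * s1
  rw [smul_add, smul_smul, smul_smul, t1, t2]

theorem i3_of {e v u : V} (h : I2 F e v) (hu : u ∉ span F {e, v}) : I3 F e v u := by
  intro x y z e'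
  have hz : z = 0 := by
    by_contra hz
    apply hu
    rw [mem_span_pair]
    refine ⟨-(z⁻¹ * x), -(z⁻¹ * y), ?_⟩
    have : u = z⁻¹ • (z • u) := by rw [smul_smul, inv_mul_cancel₀ hz, one_smul]
    rw [this, show z • u = -(x • e + y • v) by linear_combination (norm := module) e']
    module
  subst hz
  obtain ⟨h1, h2⟩ := h x y (by linear_combination (norm := module) e')
  exact ⟨h1, h2, rfl⟩

theorem dep {e v : V} (he : e ≠ 0) (h : ¬ I2 F e v) : ∃ k : F, v = k • e := by
  by_contra hk
  push Not at hk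
  apply h
  intro x y e'
  have hy : y = 0 := by
    by_contra hy
    apply hk (-(y⁻¹ * x))
    have : v = y⁻¹ • (y • v) := by rw [smul_smul, inv_mul_cancel₀ hy, one_smul]
    rw [this, show y • v = -(x • e) by linear_combination (norm := module) e']
    module
  subst hy
  rw [zero_smul, add_zero] at e'
  rcases smul_eq_zero.1 e' with h1 | h1
  · exact ⟨h1, rfl⟩
  · exact absurd h1 he

theorem i2_of {e u : V} (he : e ≠ 0) (hu : u ∉ span F {e}) : I2 F e u := by
  by_contra h
  obtain ⟨k, rfl⟩ := dep he h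
  exact hu (smul_mem _ _ (mem_span_singleton_self e))

theorem ex3 {g : Fin 3 → V} (hg : LinearIndependent F g) {a b c : V} (h : ¬ I3 F a b c) :
    ∃ u : V, u ∉ span F {a, b, c} := by
  by_contra hu
  push Not at hu
  apply h
  rw [i3_iff, linearIndependent_iff_card_le_finrank_span]
  have hr : Set.range ![a, b, c] = {a, b, c} := by
    ext x
    simp only [Set.mem_range, Set.mem_insert_iff, Set.mem_singleton_iff]
    constructor
    · rintro ⟨i, rfl⟩
      fin_cases i <;> simp
    · rintro (rfl | rfl | rfl)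
      · exact ⟨0, rfl⟩
      · exact ⟨1, rfl⟩
      · exact ⟨2, rfl⟩
  rw [Set.finrank, hr]
  have h1 : span F (Set.range g) ≤ span F {a, b, c} := by
    rw [span_le]
    rintro _ ⟨i, rfl⟩
    exact hu _
  have : Module.Finite F (span F ({a, b, c} : Set V)) :=
    Module.Finite.span_of_finite F (Set.toFinite _)
  have h2 := Submodule.finrank_mono h1
  rw [finrank_span_eq_card hg] at h2
  exact h2

theorem ex2 {g : Fin 3 → V} (hg : LinearIndependent F g) (a b : V) :
    ∃ u : V, u ∉ span F {a, b} := by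
  obtain ⟨u, hu⟩ := ex3 hg (a := a) (b := b) (c := b) (by
    intro h
    have := (h 0 1 (-1) (by module)).2.1
    exact one_ne_zero this)
  refine ⟨u, fun h => hu ?_⟩
  refine span_mono ?_ h
  intro x hx
  simp only [Set.mem_insert_iff, Set.mem_singleton_iff] at hx ⊢
  tauto

theorem lemB [Finite F] (H : Hyp F f) {e v u : V} (h : I2 F e v) (hu : u ∉ span F {e, v}) :
    Fm H e (v + u) - Fm H e u = Fm H e v := by
  rw [add3 H (i3_of h hu)]
  abel

theorem lemA0 [Finite F] (H : Hyp F f) {e u u' : V} (k : F) (h : I2 F e u)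
    (hu : u' ∉ span F {e, u}) :
    Fm H e (k • e + u) - Fm H e u = Fm H e (k • e + u') - Fm H e u' := by
  have h3 := i3_of h hu
  have i1 : I3 F e (k • e + u) u' := by
    intro x y z e'
    obtain ⟨h1, h2, h3⟩ := h3 (x + y * k) y z (by linear_combination (norm := module) e')
    subst h2
    exact ⟨by simpa using h1, rfl, h3⟩
  have i2 : I3 F e (k • e + u') u := by
    intro x y z e'
    obtain ⟨h1, h2, h3⟩ := h3 (x + y * k) z y (by linear_combination (norm := module) e')
    subst h3
    exact ⟨by simpa using h1, rfl, h2⟩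
  have a1 := add3 H i1
  have a2 := add3 H i2
  rw [show k • e + u' + u = k • e + u + u' by abel, a1] at a2
  rw [sub_eq_sub_iff_add_eq_add]
  exact a2

theorem not_mem_single {e v u : V} (hu : u ∉ span F {e, v}) : u ∉ span F {e} := by
  intro h
  apply hu
  refine span_mono ?_ h
  intro x hx
  simp only [Set.mem_insert_iff, Set.mem_singleton_iff] at hx ⊢
  exact Or.inl hx

theorem lemA [Finite F] (H : Hyp F f) {g : Fin 3 → V} (hg : LinearIndependent F g) {e v u u' : V}
    (he : e ≠ 0) (hu : u ∉ span F {e, v}) (hu' : u' ∉ span F {e, v}) :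
    Fm H e (v + u) - Fm H e u = Fm H e (v + u') - Fm H e u' := by
  by_cases h : I2 F e v
  · rw [lemB H h hu, lemB H h hu']
  · obtain ⟨k, rfl⟩ := dep he h
    have h1 := i2_of he (not_mem_single hu)
    have h1' := i2_of he (not_mem_single hu')
    by_cases hc : u' ∈ span F {e, u}
    · obtain ⟨w, hw⟩ := ex2 hg e u
      have hw' : w ∉ span F {e, u'} := by
        intro hh
        apply hw
        have : span F {e, u'} ≤ span F {e, u} := by
          rw [span_le]
          intro x hx
          simp only [Set.mem_insert_iff, Set.mem_singleton_iff] at hx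
          rcases hx with rfl | rfl
          · exact subset_span (by simp)
          · exact hc
        exact this hh
      rw [lemA0 H k h1 hw, lemA0 H k h1' hw']
    · exact lemA0 H k h1 hc

/-- the linear map -/
noncomputable def Ph (H : Hyp F f) {g : Fin 3 → V} (hg : LinearIndependent F g) (e v : V) : W :=
  Fm H e (v + (ex2 hg e v).choose) - Fm H e (ex2 hg e v).choose

theorem Ph_eq [Finite F] (H : Hyp F f) {g : Fin 3 → V} (hg : LinearIndependent F g) {e v u : V}
    (he : e ≠ 0) (hu : u ∉ span F {e, v}) :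
    Ph H hg e v = Fm H e (v + u) - Fm H e u :=
  lemA H hg he (ex2 hg e v).choose_spec hu

theorem Ph_eq' [Finite F] (H : Hyp F f) {g : Fin 3 → V} (hg : LinearIndependent F g) {e v : V}
    (h : I2 F e v) : Ph H hg e v = Fm H e v :=
  lemB H h (ex2 hg e v).choose_spec

theorem Ph_add [Finite F] (H : Hyp F f) {g : Fin 3 → V} (hg : LinearIndependent F g) {e : V}
    (he : e ≠ 0) (v w : V) : Ph H hg e (v + w) = Ph H hg e v + Ph H hg e w := by
  by_cases h : I3 F e v w
  · have hevw : I2 F e (v + w) := by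
      intro x y e'
      obtain ⟨h1, h2, -⟩ := h x y y (by linear_combination (norm := module) e')
      exact ⟨h1, h2⟩
    rw [Ph_eq' H hg h.ab, Ph_eq' H hg h.ac, Ph_eq' H hg hevw, add3 H h]
  · obtain ⟨u, hu⟩ := ex3 hg h
    have me : e ∈ span F {e, v, w} := subset_span (by simp)
    have mv : v ∈ span F {e, v, w} := subset_span (by simp)
    have mw : w ∈ span F {e, v, w} := subset_span (by simp)
    have c1 : u ∉ span F {e, v + w} := by
      intro hh
      apply hu
      rw [mem_span_pair] at hh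
      obtain ⟨a, b, rfl⟩ := hh
      exact add_mem (smul_mem _ _ me) (smul_mem _ _ (add_mem mv mw))
    have c2 : w + u ∉ span F {e, v} := by
      intro hh
      apply hu
      rw [mem_span_pair] at hh
      obtain ⟨a, b, hab⟩ := hh
      rw [show u = a • e + b • v - w by rw [hab]; abel]
      exact sub_mem (add_mem (smul_mem _ _ me) (smul_mem _ _ mv)) mw
    have c3 : u ∉ span F {e, w} := by
      intro hh
      apply hu
      rw [mem_span_pair] at hh
      obtain ⟨a, b, rfl⟩ := hh
      exact add_mem (smul_mem _ _ me) (smul_mem _ _ mw)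
    rw [Ph_eq H hg he c1, Ph_eq H hg he c2, Ph_eq H hg he c3, ← add_assoc v w u]
    abel

theorem Ph_ne [Finite F] (H : Hyp F f) {g : Fin 3 → V} (hg : LinearIndependent F g) {e : V}
    (he : e ≠ 0) (v : V) (hv : v ≠ 0) : Ph H hg e v ≠ 0 ∧ ∃ a : F, Ph H hg e v = a • f v := by
  by_cases h : I2 F e v
  · obtain ⟨c, d, hc, hd, e1, g1⟩ := Fm_spec H h
    rw [Ph_eq' H hg h, e1]
    exact ⟨smul_ne_zero hc (H.ne v hv), c, rfl⟩
  · obtain ⟨k, rfl⟩ := dep he h
    have hk : k ≠ 0 := by
      rintro rfl
      exact hv (zero_smul _ _)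
    have key : ∀ u : V, u ∉ span F {e, k • e} → Ph H hg e (k • e) ≠ 0 ∧
        ∃ s t : F, Ph H hg e (k • e) = s • f (k • e) + t • f u := by
      intro u hu
      have h1 := i2_of he (not_mem_single hu)
      have h2 : I2 F (k • e + u) u := by
        intro x y e'
        obtain ⟨a1, a2⟩ := h1 (x * k) (x + y) (by linear_combination (norm := module) e')
        have hx : x = 0 := by
          rcases mul_eq_zero.1 a1 with h | h
          · exact h
          · exact absurd h hk
        subst hx
        exact ⟨rfl, by simpa using a2⟩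
      have h3 : I2 F (k • e) u := by
        intro x y e'
        obtain ⟨a1, a2⟩ := h1 (x * k) y (by linear_combination (norm := module) e')
        rcases mul_eq_zero.1 a1 with h | h
        · exact ⟨h, a2⟩
        · exact absurd h hk
      have h4 : I2 F e (k • e + u) := by
        intro x y e'
        obtain ⟨a1, a2⟩ := h1 (x + y * k) y (by linear_combination (norm := module) e')
        subst a2
        exact ⟨by simpa using a1, rfl⟩
      obtain ⟨c1, d1, hc1, hd1, e1, g1⟩ := Fm_spec H h4
      obtain ⟨c2, d2, hc2, hd2, e2, g2⟩ := Fm_spec H h1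
      obtain ⟨s, t, hst⟩ := col' H h3
      rw [Ph_eq H hg he hu, e1, e2]
      constructor
      · intro hh
        have := (H.ind _ _ h2 c1 (-c2) (by linear_combination (norm := module) hh)).1
        exact hc1 this
      · refine ⟨c1 * s, c1 * t - c2, ?_⟩
        rw [hst]
        module
    obtain ⟨u, hu⟩ := ex2 hg e (k • e)
    obtain ⟨n1, s, t, hst⟩ := key u hu
    have h1 := i2_of he (not_mem_single hu)
    obtain ⟨u', hu'⟩ := ex2 hg e u
    have hu'' : u' ∉ span F {e, k • e} := by
      intro hh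
      apply hu'
      rw [mem_span_pair] at hh ⊢
      obtain ⟨a, b, rfl⟩ := hh
      exact ⟨a + b * k, 0, by module⟩
    obtain ⟨-, s', t', hst'⟩ := key u' hu''
    have h3 := i3_of h1 hu'
    have h4 : I3 F (k • e) u u' := by
      intro x y z e'
      obtain ⟨a1, a2, a3⟩ := h3 (x * k) y z (by linear_combination (norm := module) e')
      rcases mul_eq_zero.1 a1 with h | h
      · exact ⟨h, a2, a3⟩
      · exact absurd h hk
    have h5 := ind3 H h4
    rw [hst] at hst'
    obtain ⟨-, b2, -⟩ := h5 (s - s') t (-t') (by linear_combination (norm := module) hst')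
    refine ⟨n1, s, ?_⟩
    rw [hst, b2, zero_smul, add_zero]

theorem main (ℓ : ℕ) [Fact ℓ.Prime] (V W : Type) [AddCommGroup V] [Module (ZMod ℓ) V]
    [AddCommGroup W] [Module (ZMod ℓ) W] (f : V → W) (h0 : ∀ v, v ≠ 0 → f v ≠ 0)
    (h2 : ∀ v₁ v₂ : V, LinearIndependent (ZMod ℓ) ![v₁, v₂] →
      LinearIndependent (ZMod ℓ) ![f v₁, f v₂])
    (h3 : ∀ v₁ v₂ v₃ : V, LinearIndependent (ZMod ℓ) ![v₁, v₂] → v₃ ≠ 0 →
      v₃ ∈ Submodule.span (ZMod ℓ) {v₁, v₂} → f v₃ ∈ Submodule.span (ZMod ℓ) {f v₁, f v₂})
    (h4 : ∃ v : Fin 3 → V, LinearIndependent (ZMod ℓ) v) :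
    ∃ Φ : V →ₗ[ZMod ℓ] W, ∀ v, v ≠ 0 → Φ v ≠ 0 ∧ ∃ a : ZMod ℓ, Φ v = a • f v := by
  have H : Hyp (ZMod ℓ) f := by
    refine ⟨h0, fun a b h => i2_iff.2 (h2 a b (i2_iff.1 h)), ?_⟩
    intro a b h x y hne
    have := h3 a b _ (i2_iff.1 h) hne (by
      rw [mem_span_pair]
      exact ⟨x, y, rfl⟩)
    rw [mem_span_pair] at this
    obtain ⟨s, t, hst⟩ := this
    exact ⟨s, t, hst.symm⟩
  obtain ⟨g, hg⟩ := h4
  have he : g 0 ≠ 0 := hg.ne_zero 0
  let Φ : V →+ W := AddMonoidHom.mk' (Ph H hg (g 0)) (Ph_add H hg he)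
  exact ⟨Φ.toZModLinearMap ℓ, fun v hv => Ph_ne H hg he v hv⟩

theorem t_FTPG : S_FTPG := fun ℓ _ V W _ _ _ _ f h0 h2 h3 h4 => main ℓ V W f h0 h2 h3 h4

end Pool.Agent.T3h73.SD.FTPG
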