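import Pool.Agent.T3h73.SD.Stm3

/-!
# KAP: Euler's series for the limiting proportion (helper59)
-/

set_option autoImplicit false
set_option linter.all false

open Filter Topology

namespace Pool.Agent.T3h73.SD.KAP

/-- the q-Pochhammer symbol -/
noncomputable def qp (q : ℝ) (j : ℕ) : ℝ := ∏ i ∈ Finset.range j, (1 - q ^ (i + 1))

theorem geo_le {q : ℝ} (h0 : 0 ≤ q) (h1 : q ≤ 1 / 2) (n : ℕ) :
    ∑ i ∈ Finset.range n, q ^ (i + 1) ≤ q / (1 - q) := by
  have h2 : ∀ i, q ^ (i + 1) = q ^ i * q := fun i => pow_succ q i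
  simp_rw [h2]
  rw [← Finset.sum_mul, div_eq_mul_inv, mul_comm]
  apply mul_le_mul_of_nonneg_left _ h0
  rw [← tsum_geometric_of_lt_one h0 (by linarith)]
  exact Summable.sum_le_tsum _ (fun i _ => pow_nonneg h0 i)
    (summable_geometric_of_lt_one h0 (by linarith))

theorem qp_pos {q : ℝ} (h0 : 0 ≤ q) (h1 : q ≤ 1 / 2) (j : ℕ) : 0 < qp q j := by
  unfold qp
  apply Finset.prod_pos
  intro i _
  have : q ^ (i + 1) ≤ q := pow_le_of_le_one h0 (by linarith) (by omega)
  linarith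

theorem qp_inv_le {q : ℝ} (h0 : 0 ≤ q) (h1 : q ≤ 1 / 2) (j : ℕ) : (qp q j)⁻¹ ≤ Real.exp 2 := by
  have key : ∀ j, (qp q j)⁻¹ ≤ Real.exp (2 * ∑ i ∈ Finset.range j, q ^ (i + 1)) := by
    intro j
    induction j with
    | zero => simp [qp]
    | succ j ih =>
      have h2 : qp q (j + 1) = qp q j * (1 - q ^ (j + 1)) := by
        unfold qp; rw [Finset.prod_range_succ]
      rw [h2, mul_inv, Finset.sum_range_succ, mul_add, Real.exp_add]
      have h3 : q ^ (j + 1) ≤ q := pow_le_of_le_one h0 (by linarith) (by omega)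
      have h4 : 0 ≤ q ^ (j + 1) := pow_nonneg h0 _
      apply mul_le_mul ih _ _ (Real.exp_pos _).le
      · have h5 : 2 * q ^ (j + 1) + 1 ≤ Real.exp (2 * q ^ (j + 1)) := Real.add_one_le_exp _
        refine le_trans ?_ h5
        rw [inv_le_iff_one_le_mul₀ (by linarith)]
        nlinarith
      · rw [inv_nonneg]; linarith
  refine (key j).trans ?_
  apply Real.exp_le_exp.2
  have h2 := geo_le h0 h1 j
  have h3 : q / (1 - q) ≤ 1 := by
    rw [div_le_one (by linarith)]
    linarith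
  linarith

/-- Euler's series -/
noncomputable def FF (q z : ℝ) : ℝ := ∑' j : ℕ, z ^ j / qp q j

theorem summ {q z : ℝ} (h0 : 0 ≤ q) (h1 : q ≤ 1 / 2) (hz : |z| < 1) :
    Summable fun j : ℕ => z ^ j / qp q j := by
  apply Summable.of_norm_bounded (g := fun j => |z| ^ j * Real.exp 2)
    ((summable_geometric_of_lt_one (abs_nonneg z) hz).mul_right _)
  intro j
  rw [norm_div, norm_pow, Real.norm_eq_abs, Real.norm_eq_abs, abs_of_pos (qp_pos h0 h1 j),
    div_eq_mul_inv]
  exact mul_le_mul_of_nonneg_left (qp_inv_le h0 h1 j) (pow_nonneg (abs_nonneg _) _)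

theorem FF_eq {q z : ℝ} (h0 : 0 ≤ q) (h1 : q ≤ 1 / 2) (hz : |z| < 1) :
    FF q (q * z) = (1 - z) * FF q z := by
  have hqz : |q * z| < 1 := by
    rw [abs_mul, abs_of_nonneg h0]
    nlinarith [abs_nonneg z]
  have hs1 := summ h0 h1 hz
  have hs2 := summ h0 h1 hqz
  have h2 : FF q z - FF q (q * z) = z * FF q z := by
    unfold FF
    rw [← hs1.tsum_sub hs2, (hs1.sub hs2).tsum_eq_zero_add, ← tsum_mul_left]
    simp only [pow_zero, sub_self, zero_add]
    apply tsum_congr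
    intro j
    have h3 : qp q (j + 1) = qp q j * (1 - q ^ (j + 1)) := by
      unfold qp; rw [Finset.prod_range_succ]
    have h4 := (qp_pos h0 h1 j).ne'
    have h5 := (qp_pos h0 h1 (j + 1)).ne'
    rw [h3] at h5
    have h6 : 1 - q ^ (j + 1) ≠ 0 := right_ne_zero_of_mul h5
    rw [h3, mul_pow]
    field_simp
    ring
  linarith

theorem FF_iter {q : ℝ} (h0 : 0 ≤ q) (h1 : q ≤ 1 / 2) (n : ℕ) :
    FF q (-q ^ (n + 1)) = (∏ i ∈ Finset.range n, (1 + q ^ (i + 1))) * FF q (-q) := by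
  induction n with
  | zero => simp
  | succ n ih =>
    have h2 : -q ^ (n + 1 + 1) = q * (-q ^ (n + 1)) := by ring
    have h3 : |(-q ^ (n + 1))| < 1 := by
      rw [abs_neg, abs_of_nonneg (pow_nonneg h0 _)]
      exact pow_lt_one₀ h0 (by linarith) (by omega)
    rw [h2, FF_eq h0 h1 h3, ih, Finset.prod_range_succ]
    ring

theorem FF_lim {q : ℝ} (h0 : 0 ≤ q) (h1 : q ≤ 1 / 2) :
    Tendsto (fun n : ℕ => FF q (-q ^ (n + 1))) atTop (𝓝 1) := by
  have h2 : (1 : ℝ) = ∑' j : ℕ, (if j = 0 then (1 : ℝ) else 0) := by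
    rw [tsum_ite_eq]
  rw [h2]
  apply tendsto_tsum_of_dominated_convergence (bound := fun j => (1 / 2 : ℝ) ^ j * Real.exp 2)
    ((summable_geometric_of_lt_one (by norm_num) (by norm_num)).mul_right _)
  · intro j
    split_ifs with hj
    · subst hj
      simp [qp]
    · have h3 : Tendsto (fun n : ℕ => q ^ (n + 1)) atTop (𝓝 0) :=
        (tendsto_pow_atTop_nhds_zero_of_lt_one h0 (by linarith)).comp (tendsto_add_atTop_nat 1)
      have h4 := ((h3.neg).pow j).div_const (qp q j)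
      rw [neg_zero, zero_pow hj, zero_div] at h4
      exact h4
  · refine Filter.Eventually.of_forall fun n j => ?_
    rw [norm_div, norm_pow, Real.norm_eq_abs, Real.norm_eq_abs, abs_of_pos (qp_pos h0 h1 j),
      div_eq_mul_inv, abs_neg, abs_of_nonneg (pow_nonneg h0 _)]
    have h3 : q ^ (n + 1) ≤ q := pow_le_of_le_one h0 (by linarith) (by omega)
    exact mul_le_mul (pow_le_pow_left₀ (pow_nonneg h0 _) (h3.trans h1) _) (qp_inv_le h0 h1 j)
      (inv_nonneg.2 (qp_pos h0 h1 j).le) (by positivity)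

theorem term_eq {ℓ : ℝ} (hℓ : 2 ≤ ℓ) (j : ℕ) : ℓ ^ (j * (j - 1) / 2) /
    ∏ i ∈ Finset.range j, (ℓ ^ (i + 1) - 1) = (ℓ⁻¹) ^ j / qp ℓ⁻¹ j := by
  have hl0 : 0 < ℓ := by linarith
  induction j with
  | zero => simp [qp]
  | succ j ih =>
    rw [Nat.triangle_succ, pow_add, Finset.prod_range_succ]
    have h3 : qp ℓ⁻¹ (j + 1) = qp ℓ⁻¹ j * (1 - ℓ⁻¹ ^ (j + 1)) := by
      unfold qp; rw [Finset.prod_range_succ]
    rw [h3, pow_succ ℓ⁻¹ j, mul_div_mul_comm, mul_div_mul_comm, ih]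
    congr 1
    have h4 : 1 < ℓ ^ (j + 1) := one_lt_pow₀ (by linarith) (by omega)
    have h5 : ℓ ^ (j + 1) - 1 ≠ 0 := by linarith
    have h6 : (1 : ℝ) - ℓ⁻¹ ^ j * ℓ⁻¹ ≠ 0 := by
      rw [← pow_succ, inv_pow]
      have := inv_lt_one_of_one_lt₀ h4
      linarith
    rw [div_eq_div_iff h5 h6, inv_pow]
    field_simp
    ring

theorem hasProd {q : ℝ} (h0 : 0 ≤ q) (h1 : q ≤ 1 / 2) :
    Tendsto (fun n : ℕ => ∏ i ∈ Finset.range n, (1 + q ^ (i + 1))⁻¹) atTop
      (𝓝 (∏' i : ℕ, (1 + q ^ (i + 1))⁻¹)) := by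
  have h2 : ∀ i : ℕ, (1 + q ^ (i + 1))⁻¹ = 1 + -(q ^ (i + 1) / (1 + q ^ (i + 1))) := by
    intro i
    have : 0 ≤ q ^ (i + 1) := pow_nonneg h0 _
    field_simp
    ring
  have h3 : Summable fun i : ℕ => ‖-(q ^ (i + 1) / (1 + q ^ (i + 1)))‖ := by
    apply Summable.of_nonneg_of_le (f := fun i => q ^ (i + 1)) (fun _ => norm_nonneg _)
    · intro i
      have : 0 ≤ q ^ (i + 1) := pow_nonneg h0 _
      rw [norm_neg, Real.norm_eq_abs, abs_of_nonneg (by positivity)]
      exact div_le_self this (by linarith)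
    · exact (summable_nat_add_iff 1).2 (summable_geometric_of_lt_one h0 (by linarith))
  have h4 : Multipliable fun i : ℕ => (1 + q ^ (i + 1))⁻¹ := by
    simp_rw [h2]
    exact multipliable_one_add_of_summable h3
  exact h4.hasProd.tendsto_prod_nat

theorem t_KAP : S_KAP := by
  intro ℓ hℓ
  have hl : (2 : ℝ) ≤ ℓ := by exact_mod_cast hℓ
  have hl0 : (0 : ℝ) < ℓ := by linarith
  obtain ⟨q, hq⟩ : ∃ q : ℝ, q = (ℓ : ℝ)⁻¹ := ⟨_, rfl⟩
  have h0 : 0 < q := by rw [hq]; exact inv_pos.2 hl0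
  have h1 : q ≤ 1 / 2 := by
    rw [hq, one_div]
    exact inv_anti₀ (by norm_num) hl
  have hk : kap ℓ = ∏' i : ℕ, (1 + q ^ (i + 1))⁻¹ := by
    unfold kap
    simp_rw [hq, inv_pow]
  have hlim := hasProd h0.le h1
  rw [← hk] at hlim
  refine ⟨?_, ?_, ?_⟩
  · have h2 : Real.exp (-1) ≤ kap ℓ := by
      refine ge_of_tendsto' hlim fun n => ?_
      rw [Finset.prod_inv_distrib, Real.exp_neg]
      apply inv_anti₀ (Finset.prod_pos fun i _ => by positivity)
      have h3 : ∏ i ∈ Finset.range n, (1 + q ^ (i + 1)) ≤ Real.exp (∑ i ∈ Finset.range n, q ^ (i + 1)) := by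
        rw [Real.exp_sum]
        refine Finset.prod_le_prod (fun i _ => by positivity) fun i _ => ?_
        rw [add_comm]
        exact Real.add_one_le_exp _
      refine h3.trans (Real.exp_le_exp.2 ((geo_le h0.le h1 n).trans ?_))
      rw [div_le_one (by linarith)]
      linarith
    exact lt_of_lt_of_le (Real.exp_pos _) h2
  · refine ge_of_tendsto' hlim fun n => ?_
    have h2 : 1 - ∑ i ∈ Finset.range n, q ^ (i + 1) ≤ ∏ i ∈ Finset.range n, (1 + q ^ (i + 1))⁻¹ := by
      induction n with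
      | zero => simp
      | succ n ih =>
        rw [Finset.sum_range_succ, Finset.prod_range_succ]
        have h3 : 0 < q ^ (n + 1) := pow_pos h0 _
        have h4 : (1 : ℝ) - q ^ (n + 1) ≤ (1 + q ^ (n + 1))⁻¹ := by
          have h6 : (1 + q ^ (n + 1))⁻¹ - (1 - q ^ (n + 1)) = (q ^ (n + 1)) ^ 2 / (1 + q ^ (n + 1)) := by
            field_simp
            ring
          have h7 : 0 ≤ (q ^ (n + 1)) ^ 2 / (1 + q ^ (n + 1)) := by positivity
          linarith
        have h5 : ∏ i ∈ Finset.range n, (1 + q ^ (i + 1))⁻¹ ≤ 1 := by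
          apply Finset.prod_le_one (fun i _ => by positivity)
          intro i _
          apply inv_le_one_of_one_le₀
          have : 0 < q ^ (i + 1) := pow_pos h0 _
          linarith
        have h6 : 0 < ∏ i ∈ Finset.range n, (1 + q ^ (i + 1))⁻¹ :=
          Finset.prod_pos fun i _ => by positivity
        nlinarith
    refine le_trans ?_ h2
    have h3 := geo_le h0.le h1 n
    have h4 : q / (1 - q) = 1 / ((ℓ : ℝ) - 1) := by
      rw [hq]
      have : (ℓ : ℝ) - 1 ≠ 0 := by linarith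
      field_simp
    linarith
  · have h2 : kap ℓ = FF q (-q) := by
      have h3 : Tendsto (fun n : ℕ => (∏ i ∈ Finset.range n, (1 + q ^ (i + 1))⁻¹) *
          FF q (-q ^ (n + 1))) atTop (𝓝 (kap ℓ * 1)) := hlim.mul (FF_lim h0.le h1)
      have h4 : (fun n : ℕ => (∏ i ∈ Finset.range n, (1 + q ^ (i + 1))⁻¹) *
          FF q (-q ^ (n + 1))) = fun _ => FF q (-q) := by
        funext n
        rw [FF_iter h0.le h1, ← mul_assoc, Finset.prod_inv_distrib, inv_mul_cancel₀, one_mul]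
        exact (Finset.prod_pos fun i _ => by positivity).ne'
      rw [h4, mul_one] at h3
      exact tendsto_nhds_unique h3 tendsto_const_nhds |>.symm ▸ rfl
    rw [h2]
    have h3 : |(-q)| < 1 := by
      rw [abs_neg, abs_of_pos h0]
      linarith
    have h4 := (summ h0.le h1 h3).hasSum.tendsto_sum_nat
    have h5 := h4.comp (tendsto_add_atTop_nat 1)
    refine h5.congr fun J => ?_
    simp only [Function.comp]
    refine Finset.sum_congr rfl fun j _ => ?_
    rw [mul_div_assoc, term_eq hl, ← hq, neg_pow, mul_div_assoc]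

end Pool.Agent.T3h73.SD.KAP
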