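import Pool.Agent.T3h73.SD.Stm3

/-!
# LAG: Lagrangian subspaces (helper59)
-/

set_option autoImplicit false
set_option linter.all false

open Filter Topology

namespace Pool.Agent.T3h73.SD.LAG

section

variable {ℓ : ℕ} [Fact ℓ.Prime] {V : Type} [AddCommGroup V]
  [Module (ZMod ℓ) V] [Finite V] (ψ : V →ₗ[ZMod ℓ] V →ₗ[ZMod ℓ] ZMod ℓ)

theorem anti (halt : ∀ x, ψ x x = 0) (x y : V) : ψ x y = - ψ y x := by
  have h := halt (x + y)
  rw [map_add, map_add, LinearMap.add_apply, LinearMap.add_apply, halt, halt, zero_add, add_zero] at h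
  exact eq_neg_of_add_eq_zero_right h

theorem nondeg (halt : ∀ x, ψ x x = 0) (hnd : ∀ x, (∀ y, ψ x y = 0) → x = 0) :
    LinearMap.BilinForm.Nondegenerate ψ := by
  refine ⟨hnd, fun y hy => hnd y fun x => ?_⟩
  rw [anti ψ halt, hy, neg_zero]

theorem card_pow (W : Submodule (ZMod ℓ) V) : Nat.card W = ℓ ^ Module.finrank (ZMod ℓ) W := by
  rw [Module.natCard_eq_pow_finrank (K := ZMod ℓ) (V := W), Nat.card_zmod]

theorem card_powV : Nat.card V = ℓ ^ Module.finrank (ZMod ℓ) V := by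
  rw [Module.natCard_eq_pow_finrank (K := ZMod ℓ) (V := V), Nat.card_zmod]

theorem le_orth {L : Submodule (ZMod ℓ) V} (h : ∀ x ∈ L, ∀ y ∈ L, ψ x y = 0) :
    L ≤ LinearMap.BilinForm.orthogonal ψ L := by
  intro x hx
  rw [LinearMap.BilinForm.mem_orthogonal_iff]
  intro y hy
  exact h y hy x hx

end

theorem t_LAG : S_LAG := by
  classical
  intro ℓ _ hℓ V _ _ _ ψ halt hnd
  have hprime : ℓ.Prime := Fact.out
  have hN := nondeg ψ halt hnd
  have hfd : Module.Finite (ZMod ℓ) V := Module.Finite.of_finite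
  constructor
  · intro I hI
    have hfinite : Finite (Submodule (ZMod ℓ) V) := Finite.of_injective
      (fun W : Submodule (ZMod ℓ) V => (W : Set V)) SetLike.coe_injective
    obtain ⟨L, hL⟩ := (Set.toFinite {L : Submodule (ZMod ℓ) V | I ≤ L ∧
      ∀ x ∈ L, ∀ y ∈ L, ψ x y = 0}).exists_maximal ⟨I, le_rfl, hI⟩
    obtain ⟨hIL, hiso⟩ := hL.prop
    have horth : LinearMap.BilinForm.orthogonal ψ L = L := by
      apply le_antisymm _ (le_orth ψ hiso)
      intro x hx
      rw [LinearMap.BilinForm.mem_orthogonal_iff] at hx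
      have hx' : ∀ y ∈ L, ψ y x = 0 := hx
      have h1 : L ⊔ Submodule.span (ZMod ℓ) {x} ∈ {L : Submodule (ZMod ℓ) V | I ≤ L ∧
          ∀ x ∈ L, ∀ y ∈ L, ψ x y = 0} := by
        refine ⟨hIL.trans le_sup_left, ?_⟩
        intro a ha b hb
        obtain ⟨l, hl, c, hc, rfl⟩ := Submodule.mem_sup.1 ha
        obtain ⟨l', hl', c', hc', rfl⟩ := Submodule.mem_sup.1 hb
        obtain ⟨r, rfl⟩ := Submodule.mem_span_singleton.1 hc
        obtain ⟨r', rfl⟩ := Submodule.mem_span_singleton.1 hc'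
        simp only [map_add, map_smul, LinearMap.add_apply, LinearMap.smul_apply, halt,
          hiso l hl l' hl', hx' l hl, smul_zero, add_zero, zero_add]
        rw [anti ψ halt x l', hx' l' hl', neg_zero, smul_zero]
      have h2 := hL.le_of_ge h1 le_sup_left
      exact h2 (Submodule.mem_sup_right (Submodule.mem_span_singleton_self x))
    refine ⟨L, hIL, hiso, ?_⟩
    have h1 := LinearMap.BilinForm.finrank_orthogonal (B := ψ) hN L
    rw [horth] at h1
    have h2 := Submodule.finrank_le L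
    rw [card_pow (ℓ := ℓ) L, card_powV (ℓ := ℓ) (V := V), ← pow_mul]
    congr 1
    omega
  · intro L hiso hcard
    have hdim : Module.finrank (ZMod ℓ) V = 2 * Module.finrank (ZMod ℓ) L := by
      rw [card_pow (ℓ := ℓ) L, card_powV (ℓ := ℓ) (V := V), ← pow_mul] at hcard
      have := Nat.pow_right_injective hprime.two_le hcard
      omega
    obtain ⟨M, hM⟩ := Submodule.exists_isCompl L
    have hdM : Module.finrank (ZMod ℓ) L + Module.finrank (ZMod ℓ) M = Module.finrank (ZMod ℓ) V :=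
      Submodule.finrank_add_eq_of_isCompl hM
    have hvm : ∀ v : V, ∃ l ∈ L, ∃ m ∈ M, l + m = v := by
      intro v
      have : v ∈ L ⊔ M := by rw [hM.sup_eq_top]; trivial
      obtain ⟨l, hl, m, hm, h⟩ := Submodule.mem_sup.1 this
      exact ⟨l, hl, m, hm, h⟩
    let res : V →ₗ[ZMod ℓ] Module.Dual (ZMod ℓ) M := (LinearMap.lcomp (ZMod ℓ) (ZMod ℓ) M.subtype).comp ψ
    have hres : ∀ v (m : M), res v m = ψ v m := fun v m => rfl
    let Φ : L →ₗ[ZMod ℓ] Module.Dual (ZMod ℓ) M := res.comp L.subtype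
    have hΦ : Function.Injective Φ := by
      rw [← LinearMap.ker_eq_bot, LinearMap.ker_eq_bot']
      intro l hl
      apply Subtype.ext
      apply hnd
      intro v
      obtain ⟨l', hl', m, hm, rfl⟩ := hvm v
      rw [map_add, hiso l l.2 l' hl', zero_add]
      exact DFunLike.congr_fun hl ⟨m, hm⟩
    have hfr : Module.finrank (ZMod ℓ) L = Module.finrank (ZMod ℓ) (Module.Dual (ZMod ℓ) M) := by
      rw [Subspace.dual_finrank_eq]
      omega
    let e := LinearEquiv.ofInjectiveOfFinrankEq Φ hΦ hfr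
    have he : ∀ l, e l = Φ l := fun l => rfl
    let f : M →ₗ[ZMod ℓ] L := (e.symm : Module.Dual (ZMod ℓ) M →ₗ[ZMod ℓ] L).comp
      ((-(2 : ZMod ℓ)⁻¹) • (res.comp M.subtype))
    have hf : ∀ m m' : M, ψ (f m : V) m' = -(2 : ZMod ℓ)⁻¹ * ψ (m : V) m' := by
      intro m m'
      have h1 : Φ (f m) = (-(2 : ZMod ℓ)⁻¹) • (res (m : V)) := by
        rw [← he]
        exact e.apply_symm_apply _
      exact DFunLike.congr_fun h1 m'
    have htwo : (2 : ZMod ℓ) ≠ 0 := by
      intro h
      have h1 : ((2 : ℕ) : ZMod ℓ) = 0 := by exact_mod_cast h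
      rw [ZMod.natCast_eq_zero_iff] at h1
      exact hℓ ((Nat.prime_dvd_prime_iff_eq hprime Nat.prime_two).1 h1)
    let g : M →ₗ[ZMod ℓ] V := M.subtype + L.subtype.comp f
    have hg : ∀ m : M, g m = (m : V) + (f m : V) := fun m => rfl
    refine ⟨LinearMap.range g, ⟨?_, ?_⟩, ?_⟩
    · rw [Submodule.disjoint_def]
      rintro x hx ⟨m, rfl⟩
      rw [hg] at hx ⊢
      have h1 : (m : V) ∈ L := by
        have := L.sub_mem hx (f m).2
        rwa [add_sub_cancel_right] at this
      have h2 : (m : V) = 0 := (Submodule.disjoint_def.1 hM.disjoint) m h1 m.2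
      have h3 : m = 0 := Subtype.ext h2
      rw [h3, map_zero]
      simp
    · rw [codisjoint_iff, eq_top_iff]
      intro v _
      obtain ⟨l, hl, m, hm, rfl⟩ := hvm v
      have h1 : l + m = (l - (f ⟨m, hm⟩ : V)) + g ⟨m, hm⟩ := by
        rw [hg]
        show l + m = l - (f ⟨m, hm⟩ : V) + (m + (f ⟨m, hm⟩ : V))
        abel
      rw [h1]
      exact Submodule.add_mem_sup (L.sub_mem hl (f ⟨m, hm⟩).2) ⟨_, rfl⟩
    · rintro _ ⟨m, rfl⟩ _ ⟨m', rfl⟩
      rw [hg, hg, map_add, map_add, LinearMap.add_apply, LinearMap.add_apply,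
        hiso _ (f m).2 _ (f m').2, hf, anti ψ halt (m : V) (f m' : V), hf,
        anti ψ halt (m' : V) (m : V)]
      field_simp
      ring

end Pool.Agent.T3h73.SD.LAG
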