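import Pool.Agent.T3h73.SD.Stm
import Pool.Agent.T3h73.SL.T_WA
import Pool.Agent.T3h73.SL.T_DEN0
import Pool.Agent.T3h73.SL.T_DEN2

/-! Project SD, task REC (helper20): reciprocity for the Kummer symbols. -/

set_option autoImplicit false
set_option linter.all false

open NumberField IsDedekindDomain Polynomial Filter

namespace Pool.Agent.T3h73.SD.REC

open Pool.Agent.T3h73.SL (Pl IsP Pk loc Evn Sg S_WA S_DEN0 S_DEN2)
open Pool.Agent.Y713.SE (Pw)
open Pool.Agent.T3h73.SL.Den0 (fin_le)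
open Pool.Agent.T3h73.SL.Den1 (cond_sum)

/-! ### finite group theory -/

/-- an embedding of the group of the values -/
noncomputable def iota (ℓ : ℕ) [NeZero ℓ] : Mu ℓ →* ℂˣ :=
  MonoidHom.toHomUnits (ZMod.stdAddChar (N := ℓ)).toMonoidHom

lemma iota_inj (ℓ : ℕ) [NeZero ℓ] {a b : Mu ℓ} (h : iota ℓ a = iota ℓ b) : a = b := by
  have h1 := congrArg (Units.val) h
  have h2 : (ZMod.stdAddChar (N := ℓ)) (Multiplicative.toAdd a) =
      (ZMod.stdAddChar (N := ℓ)) (Multiplicative.toAdd b) := h1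
  exact Multiplicative.toAdd.injective (ZMod.injective_stdAddChar h2)

/-- duality: if the pairing on `Λ / P` is non degenerate on the left and `N` has the right index, the
annihilator of `Λ` is as small as possible -/
theorem duality {A : Type} [CommGroup A] (ℓ : ℕ) (hℓ : ℓ.Prime) (Λ N P : Subgroup A)
    (B : A →* A →* Mu ℓ) (hidx : P.relIndex Λ ^ 2 = N.index) (h0 : P.relIndex Λ ≠ 0)
    (hN : ∀ w ∈ Λ, ∀ x ∈ N, B w x = 1) (hΛ : ∀ w ∈ Λ, ∀ x ∈ Λ, B w x = 1)
    (hP : ∀ w ∈ P, ∀ x, B w x = 1)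
    (hnd : ∀ w ∈ Λ, (∀ x, B w x = 1) → w ∈ P)
    (hNP : ∀ w ∈ Λ, w ∈ N → w ∈ P) (hPN : P ≤ N)
    (x : A) (hx : ∀ w ∈ Λ, B w x = 1) : x ∈ Λ ⊔ N := by
  classical
  haveI : NeZero ℓ := ⟨hℓ.ne_zero⟩
  set M : Subgroup A := Λ ⊔ N with hM
  have e1 : N.relIndex M = P.relIndex Λ := by
    rw [hM, Subgroup.relIndex_sup_right]
    have : N ⊓ Λ = P ⊓ Λ := by
      ext y
      simp only [Subgroup.mem_inf]
      exact ⟨fun h => ⟨hNP y h.2 h.1, h.2⟩, fun h => ⟨hPN h.1, h.2⟩⟩
    rw [← Subgroup.inf_relIndex_right, this, Subgroup.inf_relIndex_right]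
  have e2 : M.index = P.relIndex Λ := by
    have h1 := Subgroup.relIndex_mul_index (le_sup_right : N ≤ M)
    rw [e1, ← hidx, pow_two] at h1
    exact Nat.eq_of_mul_eq_mul_left (Nat.pos_of_ne_zero h0) h1
  haveI : M.FiniteIndex := ⟨by rw [e2]; exact h0⟩
  haveI : Finite (A ⧸ M) := inferInstance
  have hB : ∀ w : Λ, ∀ y ∈ M, ((iota ℓ).comp (B (w : A))) y = 1 := by
    intro w y hy
    obtain ⟨a, ha, b, hb, rfl⟩ := Subgroup.mem_sup.1 hy
    show iota ℓ (B (w : A) (a * b)) = 1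
    rw [map_mul, hΛ w w.2 a ha, hN w w.2 b hb, one_mul, map_one]
  let F : Λ →* (A ⧸ M →* ℂˣ) :=
    { toFun := fun w => QuotientGroup.lift M ((iota ℓ).comp (B (w : A))) (hB w)
      map_one' := by
        ext y
        show ((iota ℓ (B ((1 : Λ) : A) y) : ℂˣ) : ℂ) = ((1 : ℂˣ) : ℂ)
        rw [OneMemClass.coe_one, map_one, MonoidHom.one_apply, map_one]
      map_mul' := by
        intro a b
        ext y
        show ((iota ℓ (B ((a * b : Λ) : A) y) : ℂˣ) : ℂ) =
          ((iota ℓ (B (a : A) y) * iota ℓ (B (b : A) y) : ℂˣ) : ℂ)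
        rw [Subgroup.coe_mul, map_mul, MonoidHom.mul_apply, map_mul] }
  have hF : ∀ (w : Λ) (y : A), F w (QuotientGroup.mk y) = iota ℓ (B (w : A) y) := fun w y => rfl
  have hker : F.ker = P.subgroupOf Λ := by
    ext w
    rw [MonoidHom.mem_ker, Subgroup.mem_subgroupOf]
    constructor
    · intro h
      refine hnd w w.2 fun y => ?_
      have := DFunLike.congr_fun h (QuotientGroup.mk y)
      rw [hF] at this
      exact iota_inj ℓ (this.trans (by rw [map_one]; rfl))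
    · intro h
      ext y
      show ((F w (QuotientGroup.mk y) : ℂˣ) : ℂ) = ((1 : ℂˣ) : ℂ)
      rw [hF, hP _ h y, map_one]
  have hcard : Nat.card F.range = Nat.card (A ⧸ M →* ℂˣ) := by
    rw [← Subgroup.index_ker, hker, CommGroup.card_monoidHom_of_hasEnoughRootsOfUnity]
    show P.relIndex Λ = M.index
    rw [e2]
  haveI : Finite (A ⧸ M →* ℂˣ) := by
    refine Nat.finite_of_card_ne_zero ?_
    rw [CommGroup.card_monoidHom_of_hasEnoughRootsOfUnity]
    exact Nat.card_pos.ne'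
  have htop : F.range = ⊤ := Subgroup.eq_top_of_card_eq _ hcard
  by_contra hxM
  have hx1 : (QuotientGroup.mk x : A ⧸ M) ≠ 1 := by
    rw [Ne, QuotientGroup.eq_one_iff]
    exact hxM
  obtain ⟨φ, hφ⟩ := CommGroup.exists_apply_ne_one_of_hasEnoughRootsOfUnity (A ⧸ M) ℂ hx1
  obtain ⟨w, hw⟩ : φ ∈ F.range := by rw [htop]; trivial
  apply hφ
  rw [← hw, hF, hx w w.2, map_one]

/-! ### the elements which are powers at the places of `T` -/

section
variable (ℓ : ℕ) {K : Type} [Field K] [NumberField K]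

/-- the map to the product of the local groups modulo powers -/
noncomputable def mp (T : Finset (Pl K)) : Kˣ →* ∀ v : T, (v.1.adicCompletion K)ˣ ⧸ Pk ℓ _ :=
  Pi.monoidHom fun v => (QuotientGroup.mk' (Pk ℓ (v.1.adicCompletion K)ˣ)).comp (loc v.1)

lemma mem_Pk {G : Type} [CommGroup G] (x : G) : x ∈ Pk ℓ G ↔ IsP ℓ x := by
  constructor
  · rintro ⟨z, hz⟩; exact ⟨z, hz.symm⟩
  · rintro ⟨z, hz⟩; exact ⟨z, hz.symm⟩

lemma mem_ker_mp (T : Finset (Pl K)) (x : Kˣ) : x ∈ (mp ℓ T).ker ↔ ∀ v ∈ T, IsP ℓ (loc v x) := by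
  rw [MonoidHom.mem_ker]
  constructor
  · intro h v hv
    have h1 := congrFun h ⟨v, hv⟩
    rw [← mem_Pk, ← QuotientGroup.eq_one_iff]
    exact h1
  · intro h
    funext v
    show (QuotientGroup.mk (loc v.1 x) : (v.1.adicCompletion K)ˣ ⧸ Pk ℓ _) = 1
    rw [QuotientGroup.eq_one_iff, mem_Pk]
    exact h v.1 v.2

lemma index_mp (hℓ : ℓ.Prime) (T : Finset (Pl K)) : (mp ℓ T).ker.index = VT ℓ T := by
  classical
  have hs : Function.Surjective (mp ℓ T) := by
    intro f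
    obtain ⟨x, hx⟩ := Pool.Agent.T3h73.SL.Wa.t_WA ℓ hℓ K T
      (fun v => if hv : v ∈ T then Quotient.out (f ⟨v, hv⟩) else 1)
    refine ⟨x, ?_⟩
    funext v
    obtain ⟨z, hz⟩ := hx v.1 v.2
    show (QuotientGroup.mk (loc v.1 x) : (v.1.adicCompletion K)ˣ ⧸ Pk ℓ _) = f v
    rw [hz, dif_pos v.2]
    rw [QuotientGroup.mk_mul_of_mem _ ((mem_Pk ℓ _).2 ⟨z, rfl⟩)]
    exact Quotient.out_eq (f v)
  rw [Subgroup.index_ker, MonoidHom.range_eq_top.2 hs, Subgroup.card_top, Nat.card_pi]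
  exact Finset.prod_coe_sort T (fun v => (Pk ℓ (v.adicCompletion K)ˣ).index)

end

/-! ### the global step -/

lemma isP_of_ae (ℓ : ℕ) (hℓ : ℓ.Prime) {K : Type} [Field K] [NumberField K] (ζ : K)
    (hζ : IsPrimitiveRoot ζ ℓ) (e : Kˣ) (v₀ : Pl K) (h : ∀ v, v ≠ v₀ → IsP ℓ (loc v e)) :
    IsP ℓ e := by
  classical
  by_contra hy
  have hlog : ∀ q : Pl K, 0 ≤ Real.log (Ideal.absNorm q.asIdeal) := fun q =>
    Real.log_natCast_nonneg _
  have T0 := Pool.Agent.T3h73.SL.Den0.t_DEN0 K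
  have T2 := Pool.Agent.T3h73.SL.Den2.t_DEN2 Pool.Agent.T3h73.SL.Den0.t_DEN0 ℓ hℓ K ζ hζ e hy (1 / 18)
    (by norm_num)
  have hℓ3 : 1 / (ℓ : ℝ) ≤ 1 / 2 := by
    have : (2 : ℝ) ≤ ℓ := by exact_mod_cast hℓ.two_le
    exact one_div_le_one_div_of_le (by norm_num) this
  set C : ℝ := Real.log (Ideal.absNorm v₀.asIdeal) with hC
  have E0 : ∀ᶠ x : ℝ in atTop, 1 - 1 / 18 < (∑ᶠ q ∈ {q : Pl K | (Ideal.absNorm q.asIdeal : ℝ) ≤ x},
    Real.log (Ideal.absNorm q.asIdeal)) / x := T0.eventually (lt_mem_nhds (by norm_num))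
  have E3 : ∀ᶠ x : ℝ in atTop, C / x < 1 / 18 :=
    (tendsto_const_nhds.div_atTop tendsto_id).eventually (gt_mem_nhds (by norm_num))
  obtain ⟨x, e0, e2, e3, e4⟩ := (E0.and (T2.and (E3.and (eventually_gt_atTop (0 : ℝ))))).exists
  rw [lt_div_iff₀ e4] at e0
  rw [div_lt_iff₀ e4] at e3
  have key : (∑ᶠ q ∈ {q : Pl K | (Ideal.absNorm q.asIdeal : ℝ) ≤ x},
      Real.log (Ideal.absNorm q.asIdeal)) ≤ C +
      (∑ᶠ q ∈ {q : Pl K | (Ideal.absNorm q.asIdeal : ℝ) ≤ x ∧
    IsP ℓ (loc q e)}, Real.log (Ideal.absNorm q.asIdeal)) := by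
    rw [cond_sum (fun q => IsP ℓ (loc q e)),
      finsum_mem_eq_finite_toFinset_sum _ (fin_le x),
      finsum_mem_eq_finite_toFinset_sum _ (fin_le x)]
    have h3 : ∑ q ∈ (fin_le (K := K) x).toFinset,
        (if q = v₀ then Real.log (Ideal.absNorm q.asIdeal) else 0) ≤ C := by
      rw [← Finset.sum_filter, hC]
      refine le_trans (Finset.sum_le_sum_of_subset_of_nonneg (t := {v₀}) ?_ fun q _ _ => hlog q) ?_
      · intro q hq
        exact Finset.mem_singleton.2 (Finset.mem_filter.1 hq).2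
      · rw [Finset.sum_singleton]
    refine le_trans ?_ (add_le_add_left h3 _)
    rw [← Finset.sum_add_distrib]
    refine Finset.sum_le_sum fun q _ => ?_
    have hq := hlog q
    by_cases c1 : q = v₀
    · rw [if_pos c1]
      split_ifs <;> linarith
    · rw [if_neg c1, if_pos (h q c1)]
      linarith
  nlinarith

/-! ### the theorem -/

lemma pw_of_isP (ℓ : ℕ) {K : Type} [Field K] [NumberField K] (v : Pl K) (x : Kˣ)
    (h : IsP ℓ (loc v x)) : Pw ℓ (v.valuation K (x : K)) := by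
  obtain ⟨z, hz⟩ := h
  refine ⟨Valued.v (z : v.adicCompletion K), ?_⟩
  have h1 : (Valued.v (algebraMap K (v.adicCompletion K) (x : K)) : WithZero (Multiplicative ℤ)) =
      v.valuation K (x : K) := Pool.Agent.H723R3.valued_algebraMap v _
  rw [← h1, ← map_pow]
  exact congrArg _ (congrArg Units.val hz)

lemma isP_mul {ℓ : ℕ} {G : Type} [CommGroup G] {x y : G} (hx : IsP ℓ x) (hy : IsP ℓ y) :
    IsP ℓ (x * y) := by
  obtain ⟨a, rfl⟩ := hx
  obtain ⟨b, rfl⟩ := hy
  exact ⟨a * b, (mul_pow _ _ _).symm⟩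

lemma isP_div {ℓ : ℕ} {G : Type} [CommGroup G] {x y : G} (hx : IsP ℓ x) (hy : IsP ℓ y) :
    IsP ℓ (x / y) := by
  obtain ⟨a, rfl⟩ := hx
  obtain ⟨b, rfl⟩ := hy
  exact ⟨a / b, (div_pow _ _ _).symm⟩

lemma isP_loc {ℓ : ℕ} {K : Type} [Field K] [NumberField K] (v : Pl K) {x : Kˣ} (hx : IsP ℓ x) :
    IsP ℓ (loc v x) := by
  obtain ⟨a, rfl⟩ := hx
  exact ⟨loc v a, map_pow _ _ _⟩

theorem t_REC (h1 : S_LNG) (h2 : S_PHI) (h3 : S_CARD) : S_REC := by
  classical
  intro ℓ hℓ hℓ2 K _ _ ζ hζ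
  obtain ⟨ψ, hψ⟩ := h2 ℓ hℓ hℓ2 K ζ hζ
  obtain ⟨T₀, hT0, hcard⟩ := h3 ℓ hℓ hℓ2 K ζ hζ
  have hLN : ∀ v w x, LN ℓ v w x → ψ v w x = 1 := fun v w x h => (hψ w).2.1 v x h
  have hx : ∀ v w x, IsP ℓ (loc v x) → ψ v w x = 1 := fun v w x h => (hψ w).1.loc v x h
  have hw : ∀ v w x, IsP ℓ (loc v w) → ψ v w x = 1 := fun v w x h => hLN v w x (Or.inl h)
  have hww : ∀ v w, ψ v w w = 1 := by
    intro v w
    obtain ⟨G, _, s, hs, -, hs1, -⟩ := h1 ℓ hℓ hℓ2 K ζ hζ v
    exact hLN v w w ((hs w w).1 (hs1 w))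
  have htame : ∀ v, v.valuation K (ℓ : K) = 1 → ∀ w x : Kˣ, Pw ℓ (v.valuation K (w : K)) →
      Pw ℓ (v.valuation K (x : K)) → ψ v w x = 1 := by
    intro v hv w x hw hx
    obtain ⟨G, _, s, hs, -, -, -, hs1, -⟩ := h1 ℓ hℓ hℓ2 K ζ hζ v
    exact hLN v w x ((hs w x).1 (hs1 hv w x hw hx))
  have hprod : ∀ w x, ∏ᶠ v, ψ v w x = 1 := fun w x => (hψ w).1.prod x
  refine ⟨ψ, hLN, hx, hw, hww, htame, hprod, ?_⟩
  -- skew symmetry
  have hskew : ∀ v w x, ψ v w x = 1 → ψ v x w = 1 := by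
    intro v w x h
    have h4 := hww v (w * x)
    simp only [map_mul, MonoidHom.mul_apply, hww, h, one_mul, mul_one] at h4
    exact h4
  intro v₀ w₀ hw₀
  have hw₀' : ∀ w, ψ v₀ w w₀ = 1 := fun w => hskew v₀ w₀ w (hw₀ w)
  -- the product over a finite set
  have hfin : ∀ (T : Finset (Pl K)) (w x : Kˣ), (∀ v, v ∉ T → ψ v w x = 1) →
      ∏ v ∈ T, ψ v w x = 1 := by
    intro T w x h
    rw [← hprod w x]
    refine (finprod_eq_prod_of_mulSupport_subset _ ?_).symm
    intro v hv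
    by_contra hvT
    exact hv (h v hvT)
  -- the annihilator
  have key : ∀ T : Finset (Pl K), T₀ ⊆ T → ∀ r : Kˣ,
      (∀ w ∈ Sg ℓ T (fun _ => ⊤), ∏ v ∈ T, ψ v w r = 1) →
      ∃ e ∈ Sg ℓ T (fun _ => (⊤ : Subgroup _)), ∃ k : Kˣ, (∀ v ∈ T, IsP ℓ (loc v k)) ∧ e * k = r := by
    intro T hT r hr
    obtain ⟨hm, hL0, hL⟩ := hcard T hT
    have htam : ∀ v, v ∉ T → v.valuation K (ℓ : K) = 1 := by
      intro v hv
      by_contra h
      exact hv (hT (hT0 v h))
    let B : Kˣ →* Kˣ →* Mu ℓ := ∏ v ∈ T, ψ v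
    have hB : ∀ w x, B w x = ∏ v ∈ T, ψ v w x := by
      intro w x
      show (∏ v ∈ T, ψ v) w x = _
      rw [MonoidHom.finset_prod_apply, MonoidHom.finset_prod_apply]
    have hSg : ∀ w, w ∈ Sg ℓ T (fun _ => (⊤ : Subgroup _)) ↔
        ∀ v, v ∉ T → Pw ℓ (v.valuation K (w : K)) :=
      fun w => ⟨fun h => h.2, fun h => ⟨fun v _ => trivial, h⟩⟩
    -- nondegenerate on the left
    have hnd : ∀ w ∈ Sg ℓ T (fun _ => (⊤ : Subgroup _)), (∀ x, B w x = 1) → IsP ℓ w := by
      intro w hwS hwB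
      have hwT : ∀ v ∈ T, ∀ x, ψ v w x = 1 := by
        intro v hv x
        obtain ⟨y, hy⟩ := Pool.Agent.T3h73.SL.Wa.t_WA ℓ hℓ K T
          (fun u => if u = v then loc u x else 1)
        have h5 := hwB y
        rw [hB, ← Finset.mul_prod_erase T _ hv] at h5
        have h6 : ∏ u ∈ T.erase v, ψ u w y = 1 := by
          refine Finset.prod_eq_one fun u hu => ?_
          obtain ⟨hu1, hu2⟩ := Finset.mem_erase.1 hu
          obtain ⟨z, hz⟩ := hy u hu2
          rw [if_neg hu1, one_mul] at hz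
          exact hx u w y ⟨z, hz⟩
        rw [h6, mul_one] at h5
        obtain ⟨z, hz⟩ := hy v hv
        rw [if_pos rfl] at hz
        have h7 : ψ v w (y / x) = 1 := by
          refine hx v w _ ⟨z, ?_⟩
          rw [_root_.map_div, hz, mul_div_cancel_left]
        have h8 : ψ v w y = ψ v w (y / x) * ψ v w x := by rw [← map_mul, div_mul_cancel]
        rw [h5, h7, one_mul] at h8
        exact h8.symm
      refine (hψ w).2.2 fun q x => ?_
      by_cases hq : q ∈ T
      · exact hwT q hq x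
      · -- a uniformizer at `q`
        obtain ⟨π, hπ⟩ := hm (fun v => if v = q then 1 else 0)
          (Set.Finite.subset (Set.finite_singleton q) (by
            intro v hv
            by_contra hvq
            exact hv (if_neg hvq)))
        have hπq : q.valuation K (π : K) = WithZero.exp (-1 : ℤ) := by
          have := hπ q hq
          rwa [if_pos rfl] at this
        have hπv : ∀ v, v ∉ T → v ≠ q → v.valuation K (π : K) = 1 := by
          intro v hv hvq
          have := hπ v hv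
          rwa [if_neg hvq, neg_zero, WithZero.exp_zero] at this
        have h9 : ψ q w π = 1 := by
          have h10 := hfin (insert q T) w π (by
            intro v hv
            rw [Finset.mem_insert, not_or] at hv
            refine htame v (htam v hv.2) w π (hwS.2 v hv.2) ?_
            rw [hπv v hv.2 hv.1]
            exact Pw.one)
          rw [Finset.prod_insert hq, Finset.prod_eq_one (fun v hv => hwT v hv π), mul_one] at h10
          exact h10
        -- `x = π ^ n * y`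
        have hx0 : q.valuation K (x : K) ≠ 0 := (Valuation.ne_zero_iff _).2 x.ne_zero
        set n : ℤ := WithZero.log (q.valuation K (x : K)) with hn
        have hxn : q.valuation K (x : K) = WithZero.exp n := (WithZero.exp_log hx0).symm
        have h11 : q.valuation K ((x * π ^ n : Kˣ) : K) = 1 := by
          rw [Units.val_mul, Units.val_zpow_eq_zpow_val, map_mul, map_zpow₀, hxn, hπq,
            ← WithZero.exp_zsmul, ← WithZero.exp_add]
          have : n + n • (-1 : ℤ) = 0 := by simp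
          rw [this, WithZero.exp_zero]
        have h12 : ψ q w (x * π ^ n) = 1 := by
          refine htame q (htam q hq) w _ (hwS.2 q hq) ?_
          rw [h11]
          exact Pw.one
        rw [map_mul, map_zpow, h9, one_zpow, mul_one] at h12
        exact h12
    have hd := duality ℓ hℓ (Sg ℓ T (fun _ => (⊤ : Subgroup _))) (mp ℓ T).ker (Pk ℓ Kˣ) B
      (by rw [index_mp ℓ hℓ T]; exact hL) hL0
      (by
        intro w _ x hxN
        rw [mem_ker_mp] at hxN
        rw [hB]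
        exact Finset.prod_eq_one fun v hv => hx v w x (hxN v hv))
      (by
        intro w hwS x hxS
        rw [hB]
        refine hfin T w x fun v hv => htame v (htam v hv) w x (hwS.2 v hv) (hxS.2 v hv))
      (by
        intro w hwP x
        rw [mem_Pk] at hwP
        rw [hB]
        exact Finset.prod_eq_one fun v hv => hw v w x (isP_loc v hwP))
      (by
        intro w hwS hwB
        rw [mem_Pk]
        exact hnd w hwS hwB)
      (by
        intro w hwS hwN
        rw [mem_ker_mp] at hwN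
        rw [mem_Pk]
        refine hnd w hwS fun x => ?_
        rw [hB]
        exact Finset.prod_eq_one fun v hv => hw v w x (hwN v hv))
      (by
        intro w hwP
        rw [mem_Pk] at hwP
        rw [mem_ker_mp]
        exact fun v _ => isP_loc v hwP)
      r (by
        intro w hwS
        rw [hB]
        exact hr w hwS)
    obtain ⟨e, he, k, hk, hek⟩ := Subgroup.mem_sup.1 hd
    exact ⟨e, he, k, (mem_ker_mp ℓ T k).1 hk, hek⟩
  -- elements which are powers at the places of `T` other than `v₀`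
  have good : ∀ T : Finset (Pl K), T₀ ⊆ T → v₀ ∈ T → ∃ e : Kˣ,
      (∀ v, v ≠ v₀ → Pw ℓ (v.valuation K (e : K))) ∧ (∀ v ∈ T, v ≠ v₀ → IsP ℓ (loc v e)) ∧
      IsP ℓ (loc v₀ (e / w₀)) := by
    intro T hT hv₀
    obtain ⟨r, hr⟩ := Pool.Agent.T3h73.SL.Wa.t_WA ℓ hℓ K T
      (fun u => if u = v₀ then loc u w₀ else 1)
    have hr1 : ∀ v ∈ T, v ≠ v₀ → IsP ℓ (loc v r) := by
      intro v hv hvv
      obtain ⟨z, hz⟩ := hr v hv
      rw [if_neg hvv, one_mul] at hz
      exact ⟨z, hz⟩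
    have hr2 : IsP ℓ (loc v₀ (r / w₀)) := by
      obtain ⟨z, hz⟩ := hr v₀ hv₀
      rw [if_pos rfl] at hz
      exact ⟨z, by rw [_root_.map_div, hz, mul_div_cancel_left]⟩
    obtain ⟨e, he, k, hk, hek⟩ := key T hT r (by
      intro w _
      rw [← Finset.mul_prod_erase T _ hv₀]
      have h6 : ∏ u ∈ T.erase v₀, ψ u w r = 1 := by
        refine Finset.prod_eq_one fun u hu => ?_
        obtain ⟨hu1, hu2⟩ := Finset.mem_erase.1 hu
        exact hx u w r (hr1 u hu2 hu1)
      rw [h6, mul_one]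
      have h8 : ψ v₀ w r = ψ v₀ w (r / w₀) * ψ v₀ w w₀ := by rw [← map_mul, div_mul_cancel]
      rw [h8, hx v₀ w _ hr2, hw₀', one_mul])
    have he1 : e = r / k := by rw [← hek, mul_div_cancel_right]
    have he2 : ∀ v ∈ T, v ≠ v₀ → IsP ℓ (loc v e) := by
      intro v hv hvv
      rw [he1, _root_.map_div]
      exact isP_div (hr1 v hv hvv) (hk v hv)
    refine ⟨e, ?_, he2, ?_⟩
    · intro v hvv
      by_cases hv : v ∈ T
      · exact pw_of_isP ℓ v e (he2 v hv hvv)
      · exact he.2 v hv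
    · have : e / w₀ = (r / w₀) / k := by rw [he1]; exact div_right_comm _ _ _
      rw [this, _root_.map_div]
      exact isP_div hr2 (hk v₀ hv₀)
  -- one element for all places
  have one : ∃ e : Kˣ, (∀ v, v ≠ v₀ → IsP ℓ (loc v e)) ∧ IsP ℓ (loc v₀ (e / w₀)) := by
    by_contra hno
    push Not at hno
    have hb : ∀ e : Kˣ, ∃ v : Pl K, IsP ℓ (loc v₀ (e / w₀)) → v ≠ v₀ ∧ ¬ IsP ℓ (loc v e) := by
      intro e
      by_cases he : IsP ℓ (loc v₀ (e / w₀))
      · by_contra hcon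
        push Not at hcon
        refine hno e (fun v hv => ?_) he
        by_contra h
        exact h ((hcon v).2 hv)
      · exact ⟨v₀, fun h => absurd h he⟩
    choose b hb using hb
    set T₁ : Finset (Pl K) := insert v₀ T₀ with hT1
    set Λ := Sg ℓ T₁ (fun _ => (⊤ : Subgroup _)) with hΛ
    have hfi : ((Pk ℓ Kˣ).subgroupOf Λ).index ≠ 0 := (hcard T₁ (Finset.subset_insert _ _)).2.1
    haveI : ((Pk ℓ Kˣ).subgroupOf Λ).FiniteIndex := ⟨hfi⟩
    haveI : Fintype (Λ ⧸ (Pk ℓ Kˣ).subgroupOf Λ) := Fintype.ofFinite _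
    set T : Finset (Pl K) := T₁ ∪ Finset.univ.image
      (fun c : Λ ⧸ (Pk ℓ Kˣ).subgroupOf Λ => b (Quotient.out c : Λ)) with hT
    obtain ⟨e, he1, he2, he3⟩ := good T ((Finset.subset_insert _ _).trans Finset.subset_union_left)
      (Finset.mem_union_left _ (Finset.mem_insert_self _ _))
    have heΛ : e ∈ Λ := by
      refine ⟨fun v _ => trivial, fun v hv => he1 v ?_⟩
      rintro rfl
      exact hv (Finset.mem_insert_self _ _)
    set c : Λ ⧸ (Pk ℓ Kˣ).subgroupOf Λ := QuotientGroup.mk ⟨e, heΛ⟩ with hc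
    set e' : Λ := Quotient.out c with he'
    have h13 : (QuotientGroup.mk e' : Λ ⧸ (Pk ℓ Kˣ).subgroupOf Λ) = QuotientGroup.mk ⟨e, heΛ⟩ :=
      Quotient.out_eq c
    have h14 : IsP ℓ ((e' : Kˣ) / e) := by
      rw [QuotientGroup.eq] at h13
      have h15 : ((e' : Kˣ)⁻¹ * e) ∈ Pk ℓ Kˣ := h13
      have h16 := inv_mem h15
      rw [mul_inv_rev, inv_inv, mul_comm, ← div_eq_mul_inv] at h16
      exact (mem_Pk ℓ _).1 h16
    have h17 : IsP ℓ (loc v₀ ((e' : Kˣ) / w₀)) := by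
      have : (e' : Kˣ) / w₀ = (e' : Kˣ) / e * (e / w₀) := (div_mul_div_cancel _ _ _).symm
      rw [this, map_mul]
      exact isP_mul (isP_loc v₀ h14) he3
    obtain ⟨h18, h19⟩ := hb (e' : Kˣ) h17
    apply h19
    have : (e' : Kˣ) = (e' : Kˣ) / e * e := (div_mul_cancel _ _).symm
    rw [this, map_mul]
    refine isP_mul (isP_loc _ h14) ?_
    rw [← this]
    exact he2 _ (Finset.mem_union_right _ (Finset.mem_image_of_mem _ (Finset.mem_univ c))) h18
  obtain ⟨e, he1, he2⟩ := one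
  have he3 : IsP ℓ e := isP_of_ae ℓ hℓ ζ hζ e v₀ he1
  have : w₀ = e / (e / w₀) := (div_div_self' _ _).symm
  rw [this, _root_.map_div]
  exact isP_div (isP_loc v₀ he3) he2

end Pool.Agent.T3h73.SD.REC
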