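import Pool.Agent.T3h73.SD.Stm4
import Pool.Agent.T3h73.SD.T_REC

/-! Project SD, task LGP (helper91): an element which is everywhere locally an `ℓ`-th power. -/

set_option autoImplicit false
set_option linter.all false

open NumberField IsDedekindDomain

namespace Pool.Agent.T3h73.SD.LGP

open Pool.Agent.T3h73.SL (Pl IsP loc)

theorem exists_pl (K : Type) [Field K] [NumberField K] : Nonempty (Pl K) := by
  obtain ⟨M, hM⟩ := Ideal.exists_maximal (𝓞 K)
  exact ⟨⟨M, hM.isPrime,
    Ring.ne_bot_of_isMaximal_of_not_isField hM (RingOfIntegers.not_isField K)⟩⟩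

theorem t_LGP : S_LGP := by
  intro ℓ hℓ K _ _ ζ hζ y h
  obtain ⟨v₀⟩ := exists_pl K
  exact Pool.Agent.T3h73.SD.REC.isP_of_ae ℓ hℓ ζ hζ y v₀ fun v _ => h v

end Pool.Agent.T3h73.SD.LGP
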