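import Pool.Agent.T3h73.SD.LngC
import Pool.Agent.T3h73.SL.T_WA

/-!
# Task LNG (helper25): local norms and the local symbol
-/

set_option autoImplicit false
set_option linter.all false

open Polynomial NumberField IsDedekindDomain WithZero

namespace Pool.Agent.T3h73.SD.LNG

open Pool.Agent.H552R3.SymBr
open Pool.Agent.T3h73.SL
open Pool.Agent.Y713.SE (Pw)

section local_

variable {ℓ : ℕ} (hℓ : ℓ.Prime) {K : Type} [Field K] [NumberField K] {ζ : K} (hζ : IsPrimitiveRoot ζ ℓ)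
  (v : Pl K)

theorem val_l : (Valued.v : Valuation (v.adicCompletion K) (WithZero (Multiplicative ℤ)))
    (ℓ : v.adicCompletion K) = v.valuation K (ℓ : K) := by
  have h5 := HeightOneSpectrum.valuedAdicCompletion_eq_valuation' v (ℓ : K)
  rw [← h5]
  have h6 : (ℓ : v.adicCompletion K) = algebraMap K (v.adicCompletion K) (ℓ : K) := by
    rw [map_natCast]
  rw [h6]
  rfl

theorem exists_unif : ∃ π : (v.adicCompletion K)ˣ,
    (Valued.v : Valuation (v.adicCompletion K) (WithZero (Multiplicative ℤ))) (π : v.adicCompletion K) =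
      WithZero.exp (-1 : ℤ) := by
  obtain ⟨p, hp⟩ := v.valuation_exists_uniformizer K
  have h5 := HeightOneSpectrum.valuedAdicCompletion_eq_valuation' v p
  rw [hp] at h5
  refine ⟨Units.mk0 (algebraMap K (v.adicCompletion K) p) ?_, ?_⟩
  · intro h0
    have h6 : (Valued.v : Valuation (v.adicCompletion K) (WithZero (Multiplicative ℤ)))
      (algebraMap K (v.adicCompletion K) p) = WithZero.exp (-1 : ℤ) := h5
    rw [h0, map_zero] at h6
    exact WithZero.exp_ne_zero h6.symm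
  · rw [Units.val_mk0]; exact h5

theorem not_pw (hℓ : ℓ.Prime) : ¬ Pw ℓ (WithZero.exp (-1 : ℤ)) := by
  rintro ⟨β, hβ⟩
  have hβ0 : β ≠ 0 := by
    rintro rfl
    rw [zero_pow hℓ.ne_zero] at hβ
    exact WithZero.exp_ne_zero hβ
  rw [← WithZero.exp_log hβ0, ← WithZero.exp_nsmul] at hβ
  have h9 := WithZero.exp_injective hβ
  rw [nsmul_eq_mul] at h9
  have h10 : (ℓ : ℤ) ∣ 1 := ⟨-WithZero.log β, by linarith⟩
  have h11 := Int.le_of_dvd one_pos h10
  have := hℓ.two_le
  omega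

/-- an element of valuation divisible by `ℓ` is a unit times an `ℓ`-th power -/
theorem evn_unit (hℓ : ℓ.Prime) (a : (v.adicCompletion K)ˣ)
    (ha : Pw ℓ ((Valued.v : Valuation (v.adicCompletion K) (WithZero (Multiplicative ℤ))) (a : v.adicCompletion K))) :
    ∃ u z : (v.adicCompletion K)ˣ,
      (Valued.v : Valuation (v.adicCompletion K) (WithZero (Multiplicative ℤ))) (u : v.adicCompletion K) = 1 ∧
        a = u * z ^ ℓ := by
  obtain ⟨π, hπ⟩ := exists_unif v
  obtain ⟨β, hβ⟩ := ha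
  have hβ0 : β ≠ 0 := by
    rintro rfl
    rw [zero_pow hℓ.ne_zero, Valuation.zero_iff] at hβ
    exact a.ne_zero hβ
  set m := WithZero.log β with hm
  have hβm : β = WithZero.exp m := (WithZero.exp_log hβ0).symm
  have hz : (Valued.v : Valuation (v.adicCompletion K) (WithZero (Multiplicative ℤ)))
      ((π ^ (-m) : (v.adicCompletion K)ˣ) : v.adicCompletion K) = WithZero.exp m := by
    rw [Units.val_zpow_eq_zpow_val, map_zpow₀, hπ, ← WithZero.exp_zsmul]
    congr 1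
    simp
  refine ⟨a * ((π ^ (-m)) ^ ℓ)⁻¹, π ^ (-m), ?_, by rw [inv_mul_cancel_right]⟩
  rw [Units.val_mul, Units.val_inv_eq_inv_val, Units.val_pow_eq_pow_val, map_mul, map_inv₀, map_pow, hz, hβ, hβm,
    mul_inv_cancel₀ (pow_ne_zero _ WithZero.exp_ne_zero)]

end local_

section tame

variable {ℓ : ℕ} (hℓ : ℓ.Prime) (hℓ2 : ℓ ≠ 2) {K : Type} [Field K] [NumberField K] {ζ : K}
  (hζ : IsPrimitiveRoot ζ ℓ) (v : Pl K) (hv : v.valuation K (ℓ : K) = 1)

theorem hens_tame (hℓ : ℓ.Prime) {z : v.adicCompletion K} (hz : IsPrimitiveRoot z ℓ)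
    (hv : v.valuation K (ℓ : K) = 1) (x : (v.adicCompletion K)ˣ)
    (hx : (Valued.v : Valuation (v.adicCompletion K) (WithZero (Multiplicative ℤ)))
      ((x : v.adicCompletion K) - 1) < 1) : IsP ℓ x := by
  refine Hens.t_HENS ℓ hℓ K v z hz x ?_
  have h1 := Cyc.val_prime (Valued.v : Valuation (v.adicCompletion K) (WithZero (Multiplicative ℤ))) hℓ hz
  rw [val_l, hv] at h1
  have h2 : (Valued.v : Valuation (v.adicCompletion K) (WithZero (Multiplicative ℤ))) (1 - z) = 1 := by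
    have h3 : ℓ - 1 ≠ 0 := by have := hℓ.two_le; omega
    rcases lt_trichotomy ((Valued.v : Valuation (v.adicCompletion K) (WithZero (Multiplicative ℤ))) (1 - z)) 1
      with h | h | h
    · exact absurd h1.symm (pow_lt_one₀ zero_le' h h3).ne
    · exact h
    · exact absurd h1.symm (one_lt_pow₀ h h3).ne'
  rw [h2, one_pow]
  exact hx

theorem norm_evn (hℓ : ℓ.Prime) {z : v.adicCompletion K} (hz : IsPrimitiveRoot z ℓ)
    (hv : v.valuation K (ℓ : K) = 1) (a b : (v.adicCompletion K)ˣ)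
    (ha : Pw ℓ ((Valued.v : Valuation (v.adicCompletion K) (WithZero (Multiplicative ℤ))) (a : v.adicCompletion K)))
    (hap : ¬ IsP ℓ a) (h : symCl hℓ.pos hz a b = 1) :
    Pw ℓ ((Valued.v : Valuation (v.adicCompletion K) (WithZero (Multiplicative ℤ))) (b : v.adicCompletion K)) := by
  obtain ⟨u, y, hu, rfl⟩ := evn_unit v hℓ a ha
  rw [symCl_mul_left, sym_pow_left hℓ hz, mul_one] at h
  have hup : ¬ IsP ℓ u := by
    rintro ⟨w, rfl⟩
    exact hap ⟨w * y, by rw [mul_pow]⟩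
  rcases (sym_iff hℓ hz u b).1 h with h1 | ⟨c, hc⟩
  · exact absurd h1 hup
  · have := norm_tame (Valued.v : Valuation (v.adicCompletion K) (WithZero (Multiplicative ℤ))) hℓ
      (fun x hx => hens_tame v hℓ hz hv x hx) u hu hup c (by rw [hc]; exact b.ne_zero)
    rwa [hc] at this

include hζ in
theorem relIndex_evn (hℓ : ℓ.Prime) (hv : v.valuation K (ℓ : K) = 1) :
    (Pk ℓ (v.adicCompletion K)ˣ).relIndex (Evn ℓ v) = ℓ := by
  obtain ⟨h1, h2⟩ := Tam.t_TAM ℓ hℓ K ζ hζ v hv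
  have hle : Pk ℓ (v.adicCompletion K)ˣ ≤ Evn ℓ v := by
    rintro x ⟨z, rfl⟩
    show Pw ℓ (Valued.v ((z ^ ℓ : (v.adicCompletion K)ˣ) : v.adicCompletion K))
    rw [Units.val_pow_eq_pow_val, map_pow]
    exact Pw.pow _
  have h3 := Subgroup.relIndex_mul_index hle
  rw [h1, h2, sq] at h3
  exact Nat.eq_of_mul_eq_mul_right hℓ.pos h3

include hζ in
theorem exists_unit_nonp (hℓ : ℓ.Prime) (hv : v.valuation K (ℓ : K) = 1) :
    ∃ a : (v.adicCompletion K)ˣ,
      Pw ℓ ((Valued.v : Valuation (v.adicCompletion K) (WithZero (Multiplicative ℤ))) (a : v.adicCompletion K)) ∧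
      ¬ IsP ℓ a := by
  by_contra hn
  push Not at hn
  have h1 := relIndex_evn hζ v hℓ hv
  have h2 : (Pk ℓ (v.adicCompletion K)ˣ).relIndex (Evn ℓ v) = 1 := by
    rw [Subgroup.relIndex_eq_one]
    intro x hx
    obtain ⟨z, rfl⟩ := hn x hx
    exact ⟨z, rfl⟩
  rw [h1] at h2
  exact hℓ.one_lt.ne' h2

include hζ in
theorem sym_evn (hℓ : ℓ.Prime) (hℓ2 : ℓ ≠ 2) {z : v.adicCompletion K} (hz : IsPrimitiveRoot z ℓ)
    (hv : v.valuation K (ℓ : K) = 1) (a b : (v.adicCompletion K)ˣ)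
    (ha : Pw ℓ ((Valued.v : Valuation (v.adicCompletion K) (WithZero (Multiplicative ℤ))) (a : v.adicCompletion K)))
    (hb : Pw ℓ ((Valued.v : Valuation (v.adicCompletion K) (WithZero (Multiplicative ℤ))) (b : v.adicCompletion K))) :
    symCl hℓ.pos hz a b = 1 := by
  by_cases hap : IsP ℓ a
  · exact sym_left_of_isP hℓ hz a b hap
  · have hle : Pk ℓ (v.adicCompletion K)ˣ ≤ Evn ℓ v := by
      rintro x ⟨z, rfl⟩
      show Pw ℓ (Valued.v ((z ^ ℓ : (v.adicCompletion K)ˣ) : v.adicCompletion K))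
      rw [Units.val_pow_eq_pow_val, map_pow]
      exact Pw.pow _
    set M := Pk ℓ (v.adicCompletion K)ˣ ⊔ Subgroup.zpowers a with hM
    have hME : M ≤ Evn ℓ v := sup_le hle (by rw [Subgroup.zpowers_le]; exact ha)
    have h3 := Subgroup.relIndex_mul_relIndex _ _ _ (show Pk ℓ (v.adicCompletion K)ˣ ≤ M from le_sup_left) hME
    rw [relIndex_evn hζ v hℓ hv] at h3
    have h4 : M.relIndex (Evn ℓ v) = 1 := by
      rcases (Nat.dvd_prime hℓ).1 ⟨_, h3.symm⟩ with h5 | h5
      · exfalso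
        rw [Subgroup.relIndex_eq_one] at h5
        obtain ⟨y, hy⟩ := h5 (hM ▸ Subgroup.mem_sup_right (Subgroup.mem_zpowers a))
        exact hap ⟨y, hy.symm⟩
      · rw [h5] at h3
        exact Nat.eq_of_mul_eq_mul_left hℓ.pos (by rw [h3, mul_one])
    rw [Subgroup.relIndex_eq_one] at h4
    obtain ⟨p, hp, q, hq, rfl⟩ := Subgroup.mem_sup.1 (h4 hb)
    obtain ⟨y, rfl⟩ := hp
    obtain ⟨i, rfl⟩ := Subgroup.mem_zpowers_iff.1 hq
    have e1 : symCl hℓ.pos hz a ((powMonoidHom ℓ) y) = 1 := sym_pow_right hℓ hz a y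
    have e2 : symCl hℓ.pos hz a (a ^ i) = symR hℓ.pos hz a (a ^ i) := rfl
    have e3 : symR hℓ.pos hz a a = symCl hℓ.pos hz a a := rfl
    rw [symCl_mul_right, e1, one_mul, e2, map_zpow, e3, sym_self hℓ hz hℓ2, one_zpow]

include hζ in
theorem nondeg_tame (hℓ : ℓ.Prime) (hℓ2 : ℓ ≠ 2) {z : v.adicCompletion K} (hz : IsPrimitiveRoot z ℓ)
    (hv : v.valuation K (ℓ : K) = 1) (a : (v.adicCompletion K)ˣ) (h : ∀ b, symCl hℓ.pos hz a b = 1) :
    IsP ℓ a := by
  by_contra hap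
  obtain ⟨π, hπ⟩ := exists_unif v
  by_cases ha : Pw ℓ ((Valued.v : Valuation (v.adicCompletion K) (WithZero (Multiplicative ℤ)))
      (a : v.adicCompletion K))
  · have h1 := norm_evn v hℓ hz hv a π ha hap (h π)
    rw [hπ] at h1
    exact not_pw hℓ h1
  · obtain ⟨u, hu, hup⟩ := exists_unit_nonp hζ v hℓ hv
    exact ha (norm_evn v hℓ hz hv u a hu hup (by rw [symCl_anti, h u, inv_one]))

end tame

theorem nondeg_wild (hVV : S_VV) {ℓ : ℕ} (hℓ : ℓ.Prime) (hℓ2 : ℓ ≠ 2) {K : Type} [Field K] [NumberField K]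
    {ζ : K} (hζ : IsPrimitiveRoot ζ ℓ) (v : Pl K) {z : v.adicCompletion K} (hzr : IsPrimitiveRoot z ℓ)
    (hv : v.valuation K (ℓ : K) ≠ 1) (a : (v.adicCompletion K)ˣ) (h : ∀ b, symCl hℓ.pos hzr a b = 1) :
    IsP ℓ a := by
  by_contra hap
  have hF := Fin.t_FIN ℓ hℓ K v
  haveI : CharZero (v.adicCompletion K) := algebraRat.charZero _
  set V : Valuation (v.adicCompletion K) (WithZero (Multiplicative ℤ)) := Valued.v with hV
  have hvl : V (ℓ : v.adicCompletion K) = v.valuation K (ℓ : K) := val_l v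
  have hVp := Cyc.val_prime V hℓ hzr
  have hz1 : V (1 - z) ≤ 1 := by
    refine (Valuation.map_sub _ _ _).trans (max_le (by rw [map_one]) ?_)
    rw [Cyc.val_root V hℓ hzr.pow_eq_one]
  have hzne : (1 - z) ≠ 0 := by
    rw [sub_ne_zero]
    exact (hzr.ne_one hℓ.one_lt).symm
  have hz2 : V (1 - z) < 1 := by
    refine lt_of_le_of_ne hz1 fun h1 => hv ?_
    rw [← hvl, hVp, h1, one_pow]
  obtain ⟨m, hm⟩ : ∃ m : ℤ, V (1 - z) = WithZero.exp m :=
    ⟨_, (WithZero.exp_log ((Valuation.ne_zero_iff _).2 hzne)).symm⟩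
  have hm0 : m < 0 := by
    rw [hm, ← WithZero.exp_zero, WithZero.exp_lt_exp] at hz2
    exact hz2
  obtain ⟨e₀, he₀⟩ : ∃ e₀ : ℕ, m = -(e₀ : ℤ) := ⟨m.natAbs, by omega⟩
  rw [he₀] at hm
  have hl1 : V (ℓ : v.adicCompletion K) = WithZero.exp (-(((ℓ - 1) * e₀ : ℕ) : ℤ)) := by
    rw [hVp, hm, ← WithZero.exp_nsmul]
    congr 1
    push_cast
    simp
  have hzl : V (1 - z) ^ ℓ = WithZero.exp (-((ℓ * e₀ : ℕ) : ℤ)) := by
    rw [hm, ← WithZero.exp_nsmul]
    congr 1
    push_cast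
    simp
  obtain ⟨π, hπ⟩ := exists_unif v
  have hcard := Res.t_RES K v
  have hq : Ideal.absNorm v.asIdeal ≠ 0 := by
    rw [Ne, Ideal.absNorm_eq_zero_iff]
    exact v.ne_bot
  haveI : Finite (IsLocalRing.ResidueField V.valuationSubring) := by
    refine Nat.finite_of_card_ne_zero ?_
    rw [hcard]
    exact hq
  -- the unit
  obtain ⟨u, hu1, hu2, hu3⟩ := Unr.t_UNR ℓ hℓ (v.adicCompletion K) V (π : v.adicCompletion K) hπ
    inferInstance z hzr hz2
  have hsu : symCl hℓ.pos hzr u π ≠ 1 := by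
    intro h0
    obtain ⟨c, hc⟩ := Nrm.t_NRM ℓ hℓ (v.adicCompletion K) z hzr u π hu2 h0
    have h1 := hu3 c (by rw [hc]; exact π.ne_zero)
    rw [hc, hπ] at h1
    exact not_pw hℓ h1
  -- the functional
  let s : (v.adicCompletion K)ˣ → (v.adicCompletion K)ˣ → BrauerGroup.{0, 0} (v.adicCompletion K) :=
    fun a b => symCl hℓ.pos hzr a b
  have hsl : ∀ a b c, s (a * b) c = s a c * s b c := fun a b c => symCl_mul_left hℓ.pos hzr a b c
  have hsr : ∀ a b c, s a (b * c) = s a b * s a c := fun a b c => symCl_mul_right hℓ.pos hzr a b c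
  have hsn : ∀ a b, s a b ^ ℓ = 1 := fun a b => Big.symCl_pow_n hℓ.pos hzr a b
  obtain ⟨f, hf⟩ := exists_func hℓ (powMonoidHom ℓ : BrauerGroup.{0, 0} (v.adicCompletion K) →* _).ker
    (fun t => Subtype.ext t.2) ⟨s u π, hsn u π⟩ (fun h0 => hsu (congrArg Subtype.val h0))
  let s' := push s hsl hsr hsn f
  have hs' : ∀ a b, s' a b = f ⟨s a b, hsn a b⟩ := fun a b => rfl
  have hs'1 : ∀ a b, s a b = 1 → s' a b = 1 := by
    intro a b hab
    rw [hs']
    have : (⟨s a b, hsn a b⟩ : (powMonoidHom ℓ : BrauerGroup.{0, 0} (v.adicCompletion K) →* _).ker) = 1 :=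
      Subtype.ext hab
    rw [this, map_one]
  -- the isotropic subgroup
  obtain ⟨L, hPL, hL, hLi⟩ := iso_sub hℓ (Pk ℓ (v.adicCompletion K)ˣ) hF (fun a => ⟨a, rfl⟩) s'
    (fun a => hs'1 a a (sym_self hℓ hzr hℓ2 a))
    (fun a ha b => hs'1 a b (by obtain ⟨y, rfl⟩ := ha; exact sym_pow_left hℓ hzr y b)) a
    (fun ha => hap (by obtain ⟨y, hy⟩ := ha; exact ⟨y, hy.symm⟩)) (fun b => hs'1 a b (h b))
  rw [hVV ℓ hℓ K ζ hζ v ((ℓ - 1) * e₀) (by rw [← hvl, hl1])] at hLi
  have hL0 : L.index ≠ 0 := by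
    intro h0
    have h1 := Subgroup.index_dvd_of_le hPL
    rw [h0, zero_dvd_iff] at h1
    exact hF h1
  have key := Locc.t_LOCC ℓ hℓ (v.adicCompletion K) V e₀ (Ideal.absNorm v.asIdeal) π hπ hcard hq (by omega) hl1
    (fun x hx => Hens.t_HENS ℓ hℓ K v z hzr x (by rw [← hzl] at hx; exact hx))
    (ULift.{1} (Multiplicative (ZMod ℓ))) (fun a b => ULift.up (s' a b))
    (fun a b c => by
      apply ULift.ext
      show s' (a * b) c = s' a c * s' b c
      rw [map_mul, MonoidHom.mul_apply])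
    (fun a b c => by
      apply ULift.ext
      show s' a (b * c) = s' a b * s' a c
      rw [map_mul])
    (fun a b hab => by
      apply ULift.ext
      exact hs'1 a b (symCl_steinberg hℓ.pos hzr b a (by linear_combination hab)))
    (fun a b => by
      apply ULift.ext
      show s' a b ^ ℓ = 1
      rw [hs', ← map_pow]
      have : (⟨s a b, hsn a b⟩ : (powMonoidHom ℓ : BrauerGroup.{0, 0} (v.adicCompletion K) →* _).ker) ^ ℓ = 1 :=
        Subtype.ext (hsn a b)
      rw [this, map_one])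
    ⟨u, by rw [← hzl]; exact hu1, fun h0 => hf (congrArg ULift.down h0)⟩ L hL0
    (fun x => hPL ⟨x, rfl⟩) (fun x hx y hy => by
      apply ULift.ext
      exact hL x hx y hy)
  exact absurd hLi (not_lt.2 key)

theorem t_LNG (hVV : S_VV) : S_LNG := by
  intro ℓ hℓ hℓ2 K _ _ ζ hζ v
  classical
  set z : v.adicCompletion K := algebraMap K (v.adicCompletion K) ζ with hz
  have hzr : IsPrimitiveRoot z ℓ := hζ.map_of_injective (algebraMap K (v.adicCompletion K)).injective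
  have hval : ∀ w : Kˣ, (Valued.v : Valuation (v.adicCompletion K) (WithZero (Multiplicative ℤ)))
      ((loc v w : (v.adicCompletion K)ˣ) : v.adicCompletion K) = v.valuation K (w : K) := fun w =>
    HeightOneSpectrum.valuedAdicCompletion_eq_valuation' v (w : K)
  let S : Kˣ →* Kˣ →* BrauerGroup.{0, 0} (v.adicCompletion K) :=
    MonoidHom.mk' (fun w => (symR hℓ.pos hzr (loc v w)).comp (loc v)) (fun a b => by
      ext c
      show symCl hℓ.pos hzr (loc v (a * b)) (loc v c) = symCl hℓ.pos hzr (loc v a) (loc v c) *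
        symCl hℓ.pos hzr (loc v b) (loc v c)
      rw [map_mul, symCl_mul_left])
  have hS : ∀ w x, S w x = symCl hℓ.pos hzr (loc v w) (loc v x) := fun w x => rfl
  refine ⟨BrauerGroup.{0, 0} (v.adicCompletion K), inferInstance, S, ?_, ?_, ?_, ?_, ?_, ?_⟩
  · intro w x
    rw [hS]
    exact sym_iff hℓ hzr (loc v w) (loc v x)
  · intro w x
    rw [hS]
    exact Big.symCl_pow_n hℓ.pos hzr _ _
  · intro w
    rw [hS]
    exact sym_self hℓ hzr hℓ2 _
  · intro w x hx
    rw [hS]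
    exact sym_right_of_isP hℓ hzr _ _ hx
  · intro hv w x hw hx
    rw [hS]
    exact sym_evn hζ v hℓ hℓ2 hzr hv _ _ (by rw [hval]; exact hw) (by rw [hval]; exact hx)
  · intro w hw
    have hall : ∀ b, symCl hℓ.pos hzr (loc v w) b = 1 := by
      intro b
      obtain ⟨x, hx⟩ := Wa.t_WA ℓ hℓ K {v} (Function.update (fun _ => 1) v b)
      obtain ⟨y, hy⟩ := hx v (Finset.mem_singleton_self v)
      rw [Function.update_self] at hy
      have h1 := hw x
      rw [hS, hy, symCl_mul_right, sym_pow_right hℓ hzr, mul_one] at h1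
      exact h1
    by_cases hv : v.valuation K (ℓ : K) = 1
    · exact nondeg_tame hζ v hℓ hℓ2 hzr hv _ hall
    · exact nondeg_wild hVV hℓ hℓ2 hζ v hzr hv _ hall

end Pool.Agent.T3h73.SD.LNG
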