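import Pool.Agent.T3h73.SD.Stm2
import Pool.Agent.Y773.HG.Per

/-!
# Task LS of project SD (helper73): a large sieve inequality for ray class characters
-/

set_option autoImplicit false

open NumberField Module IsDedekindDomain
open scoped nonZeroDivisors

namespace Pool.Agent.T3h73.SD.LS

section combi

open Finset

/-- the cube -/
noncomputable def box (I : Type) [Fintype I] [DecidableEq I] (L : ℕ) : Finset (I → ℤ) :=
  Fintype.piFinset fun _ => Icc (-(L : ℤ)) L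

section
variable {I : Type} [Fintype I] [DecidableEq I]

theorem card_box (L : ℕ) : (box I L).card = (2 * L + 1) ^ Fintype.card I := by
  rw [box, Fintype.card_piFinset]
  simp only [Int.card_Icc, prod_const, card_univ]
  congr 1
  omega

theorem card_slab (L m : ℕ) (k : I) :
    (Fintype.piFinset (Function.update (fun _ : I => Icc (-(L : ℤ)) L) k
      (Ico (-(L : ℤ)) (-(L : ℤ) + m)))).card = m * (2 * L + 1) ^ (Fintype.card I - 1) := by
  rw [Fintype.card_piFinset]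
  have h1 : ∀ i, (Function.update (fun _ : I => Icc (-(L : ℤ)) L) k
      (Ico (-(L : ℤ)) (-(L : ℤ) + m)) i).card =
      Function.update (fun _ : I => 2 * L + 1) k m i := by
    intro i
    by_cases h : i = k
    · subst h
      simp
    · rw [Function.update_of_ne h, Function.update_of_ne h, Int.card_Icc]
      omega
  rw [prod_congr rfl fun i _ => h1 i, prod_update_of_mem (mem_univ k), prod_const]
  congr 2
  rw [card_sdiff_of_subset (by simp)]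
  simp

theorem card_sdiff_le (L m : ℕ) (z : I → ℤ) (hz : ∀ k, 0 ≤ z k ∧ z k ≤ m) :
    (box I L \ (box I L).image (fun a => a + z)).card ≤
      Fintype.card I * (m * (2 * L + 1) ^ (Fintype.card I - 1)) := by
  have h1 : box I L \ (box I L).image (fun a => a + z) ⊆ (univ : Finset I).biUnion fun k =>
      Fintype.piFinset (Function.update (fun _ : I => Icc (-(L : ℤ)) L) k
        (Ico (-(L : ℤ)) (-(L : ℤ) + m))) := by
    intro a ha
    rw [mem_sdiff, mem_image] at ha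
    obtain ⟨ha, hn⟩ := ha
    have ha' : ∀ k, -(L : ℤ) ≤ a k ∧ a k ≤ L := by
      intro k
      rw [box, Fintype.mem_piFinset] at ha
      simpa using ha k
    have h2 : ∃ k, a k - z k < -(L : ℤ) := by
      by_contra hc
      push Not at hc
      apply hn
      refine ⟨a - z, ?_, by simp⟩
      rw [box, Fintype.mem_piFinset]
      intro k
      rw [mem_Icc]
      exact ⟨hc k, by have := ha' k; have := hz k; simp only [Pi.sub_apply]; omega⟩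
    obtain ⟨k, hk⟩ := h2
    rw [mem_biUnion]
    refine ⟨k, mem_univ k, ?_⟩
    rw [Fintype.mem_piFinset]
    intro i
    by_cases h : i = k
    · subst h
      rw [Function.update_self, mem_Ico]
      have := ha' i
      have := hz i
      omega
    · rw [Function.update_of_ne h, mem_Icc]
      exact ha' i
  refine (card_le_card h1).trans ((card_biUnion_le).trans ?_)
  rw [sum_congr rfl fun k _ => card_slab L m k, sum_const, card_univ, smul_eq_mul]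

theorem box_shift (L m : ℕ) (z : I → ℤ) (hz : ∀ k, 0 ≤ z k ∧ z k ≤ m) (g : (I → ℤ) → ℂ)
    (hg : ∀ a, ‖g a‖ ≤ 1) :
    ‖∑ a ∈ box I L, g a - ∑ a ∈ box I L, g (a + z)‖ ≤
      2 * (Fintype.card I * (m * (2 * L + 1) ^ (Fintype.card I - 1)) : ℕ) := by
  have hinj : Function.Injective (fun a : I → ℤ => a + z) := fun a b h => by simpa using h
  set B := box I L with hB
  set B' := B.image (fun a => a + z) with hB'
  have h1 : ∑ a ∈ B, g (a + z) = ∑ a ∈ B', g a := by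
    rw [hB', sum_image fun a _ b _ h => hinj h]
  have hcard : B'.card = B.card := card_image_of_injective _ hinj
  have h2 : (B' \ B).card = (B \ B').card := by
    have e1 := card_sdiff_add_card_inter B' B
    have e2 := card_sdiff_add_card_inter B B'
    rw [inter_comm] at e1
    omega
  have h3 : ∑ a ∈ B, g a - ∑ a ∈ B', g a = ∑ a ∈ B \ B', g a - ∑ a ∈ B' \ B, g a := by
    have e1 := sum_inter_add_sum_sdiff B B' g
    have e2 := sum_inter_add_sum_sdiff B' B g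
    rw [inter_comm] at e2
    rw [← e1, ← e2]
    ring
  have h4 : ∀ s : Finset (I → ℤ), ‖∑ a ∈ s, g a‖ ≤ s.card := by
    intro s
    refine (norm_sum_le _ _).trans ((sum_le_sum fun a _ => hg a).trans ?_)
    simp
  have h5 : ((B \ B').card : ℝ) ≤ (Fintype.card I * (m * (2 * L + 1) ^ (Fintype.card I - 1)) : ℕ) := by
    exact_mod_cast card_sdiff_le L m z hz
  rw [h1, h3]
  refine (norm_sub_le _ _).trans ?_
  have := h4 (B \ B')
  have := h4 (B' \ B)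
  rw [h2] at this
  linarith

theorem offdiag (L m : ℕ) {Q : Type} [Fintype Q] [Nonempty Q] (z : Q → I → ℤ)
    (hz : ∀ r k, 0 ≤ z r k ∧ z r k ≤ m) (g : (I → ℤ) → ℂ) (hg : ∀ a, ‖g a‖ ≤ 1)
    (hs : ∀ a, ∑ r, g (a + z r) = 0) :
    ‖∑ a ∈ box I L, g a‖ ≤ 2 * (Fintype.card I * (m * (2 * L + 1) ^ (Fintype.card I - 1)) : ℕ) := by
  have h1 : ∑ r : Q, ∑ a ∈ box I L, g (a + z r) = 0 := by
    rw [sum_comm]
    exact sum_eq_zero fun a _ => hs a
  have h2 : (Fintype.card Q : ℂ) * ∑ a ∈ box I L, g a =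
      ∑ r : Q, (∑ a ∈ box I L, g a - ∑ a ∈ box I L, g (a + z r)) := by
    rw [sum_sub_distrib, h1, sub_zero, sum_const, card_univ, nsmul_eq_mul]
  have h3 : (Fintype.card Q : ℝ) * ‖∑ a ∈ box I L, g a‖ ≤ (Fintype.card Q : ℝ) *
      (2 * (Fintype.card I * (m * (2 * L + 1) ^ (Fintype.card I - 1)) : ℕ)) := by
    calc (Fintype.card Q : ℝ) * ‖∑ a ∈ box I L, g a‖
        = ‖(Fintype.card Q : ℂ) * ∑ a ∈ box I L, g a‖ := by
          rw [norm_mul, Complex.norm_natCast]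
      _ ≤ ∑ r : Q, ‖∑ a ∈ box I L, g a - ∑ a ∈ box I L, g (a + z r)‖ := by
          rw [h2]
          exact norm_sum_le _ _
      _ ≤ ∑ r : Q, (2 * (Fintype.card I * (m * (2 * L + 1) ^ (Fintype.card I - 1)) : ℕ) : ℝ) :=
          sum_le_sum fun r _ => box_shift L m (z r) (hz r) g hg
      _ = _ := by
          rw [sum_const, card_univ, nsmul_eq_mul]
  have h4 : (0 : ℝ) < Fintype.card Q := by exact_mod_cast Fintype.card_pos
  exact le_of_mul_le_mul_left h3 h4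

/-- the sum of squares over the cube -/
theorem sumsq {ι : Type} [Fintype ι] (L : ℕ) (P : ι → (I → ℤ) → ℂ) (ε : ι → ℂ)
    (hP : ∀ i a, ‖P i a‖ ≤ 1) (hε : ∀ i, ‖ε i‖ ≤ 1) (E : ℝ) (hE : 0 ≤ E)
    (h : ∀ i j, i ≠ j → ‖∑ a ∈ box I L, P i a * (starRingEnd ℂ) (P j a)‖ ≤ E) :
    ∑ a ∈ box I L, ‖∑ i, ε i * P i a‖ ^ 2 ≤
      Fintype.card ι * (2 * L + 1) ^ Fintype.card I + (Fintype.card ι : ℝ) ^ 2 * E := by
  classical
  have h1 : ((∑ a ∈ box I L, ‖∑ i, ε i * P i a‖ ^ 2 : ℝ) : ℂ) =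
      ∑ i, ∑ j, ε i * (starRingEnd ℂ) (ε j) *
        ∑ a ∈ box I L, P i a * (starRingEnd ℂ) (P j a) := by
    push_cast
    have : ∀ a, ((‖∑ i, ε i * P i a‖ : ℝ) : ℂ) ^ 2 = ∑ i, ∑ j, ε i * (starRingEnd ℂ) (ε j) *
        (P i a * (starRingEnd ℂ) (P j a)) := by
      intro a
      rw [← Complex.mul_conj', map_sum, sum_mul_sum]
      refine sum_congr rfl fun i _ => sum_congr rfl fun j _ => ?_
      rw [map_mul]
      ring
    simp_rw [this]
    rw [sum_comm]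
    refine sum_congr rfl fun i _ => ?_
    rw [sum_comm]
    refine sum_congr rfl fun j _ => ?_
    rw [mul_sum]
  have h2 : ∑ a ∈ box I L, ‖∑ i, ε i * P i a‖ ^ 2 ≤
      ∑ i : ι, ∑ j : ι, ‖∑ a ∈ box I L, P i a * (starRingEnd ℂ) (P j a)‖ := by
    have h3 : ∑ a ∈ box I L, ‖∑ i, ε i * P i a‖ ^ 2 =
        ‖((∑ a ∈ box I L, ‖∑ i, ε i * P i a‖ ^ 2 : ℝ) : ℂ)‖ := by
      rw [Complex.norm_real, Real.norm_of_nonneg (sum_nonneg fun a _ => by positivity)]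
    rw [h3, h1]
    refine (norm_sum_le _ _).trans (sum_le_sum fun i _ => ?_)
    refine (norm_sum_le _ _).trans (sum_le_sum fun j _ => ?_)
    rw [norm_mul, norm_mul, RCLike.norm_conj]
    have : ‖ε i‖ * ‖ε j‖ ≤ 1 := by
      have := hε i
      have := hε j
      nlinarith [norm_nonneg (ε i), norm_nonneg (ε j)]
    calc _ ≤ 1 * ‖∑ a ∈ box I L, P i a * (starRingEnd ℂ) (P j a)‖ := by
          gcongr
      _ = _ := one_mul _
  refine h2.trans ?_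
  have h3 : ∀ i : ι, ∑ j : ι, ‖∑ a ∈ box I L, P i a * (starRingEnd ℂ) (P j a)‖ ≤
      (2 * L + 1) ^ Fintype.card I + Fintype.card ι * E := by
    intro i
    rw [← add_sum_erase univ _ (mem_univ i)]
    refine add_le_add ?_ ?_
    · refine (norm_sum_le _ _).trans ?_
      calc ∑ a ∈ box I L, ‖P i a * (starRingEnd ℂ) (P i a)‖ ≤ ∑ a ∈ box I L, (1 : ℝ) := by
            refine sum_le_sum fun a _ => ?_
            rw [norm_mul, RCLike.norm_conj]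
            nlinarith [hP i a, norm_nonneg (P i a)]
        _ = _ := by
            rw [sum_const, nsmul_eq_mul, mul_one, card_box]
            push_cast
            rfl
    · calc ∑ j ∈ univ.erase i, ‖∑ a ∈ box I L, P i a * (starRingEnd ℂ) (P j a)‖
          ≤ ∑ j ∈ univ.erase i, E := sum_le_sum fun j hj => h i j (ne_of_mem_erase hj).symm
        _ = ((univ.erase i).card : ℝ) * E := by rw [sum_const, nsmul_eq_mul]
        _ ≤ Fintype.card ι * E := by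
            refine mul_le_mul_of_nonneg_right ?_ hE
            exact_mod_cast card_le_univ _
  calc ∑ i : ι, ∑ j : ι, ‖∑ a ∈ box I L, P i a * (starRingEnd ℂ) (P j a)‖
      ≤ ∑ i : ι, (((2 * L + 1) ^ Fintype.card I : ℝ) + Fintype.card ι * E) :=
        sum_le_sum fun i _ => h3 i
    _ = _ := by
      rw [sum_const, card_univ, nsmul_eq_mul]
      ring

end


end combi
section units

open NumberField.mixedEmbedding NumberField.mixedEmbedding.fundamentalCone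

theorem absNorm_eq {K : Type} [Field K] [NumberField K] (α : 𝓞 K) :
    (Ideal.absNorm (Ideal.span {α}) : ℝ) = mixedEmbedding.norm (mixedEmbedding K (α : K)) := by
  rw [norm_eq_norm, Ideal.absNorm_span_singleton, ← Algebra.coe_norm_int]
  rw [Rat.cast_abs, Rat.cast_intCast, Nat.cast_natAbs, Int.cast_abs]

theorem unit_adj (K : Type) [Field K] [NumberField K] : ∃ C : ℝ, 1 ≤ C ∧ ∀ α : 𝓞 K, α ≠ 0 →
    ∃ u : (𝓞 K)ˣ, ∀ i, |((RingOfIntegers.basis K).repr ((u : 𝓞 K) * α) i : ℝ)| ≤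
      C * (Ideal.absNorm (Ideal.span {α}) : ℝ) ^ (1 / (finrank ℚ K : ℝ)) := by
  classical
  obtain ⟨B, hB⟩ := isBounded_iff_forall_norm_le.mp (isBounded_normLeOne K)
  let f : (i : Free.ChooseBasisIndex ℤ (𝓞 K)) → (mixedSpace K →L[ℝ] ℝ) := fun i =>
    LinearMap.toContinuousLinearMap ((latticeBasis K).coord i)
  have hf : ∀ i x, |(latticeBasis K).repr x i| ≤ ‖f i‖ * ‖x‖ := by
    intro i x
    have := (f i).le_opNorm x
    rwa [Real.norm_eq_abs] at this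
  refine ⟨1 + (∑ i, ‖f i‖) * |B|, ?_, ?_⟩
  · have : 0 ≤ (∑ i, ‖f i‖) * |B| := by positivity
    linarith
  intro α hα
  set N : ℝ := (Ideal.absNorm (Ideal.span {α}) : ℝ) with hN
  have hNe := absNorm_eq α
  rw [← hN] at hNe
  have hN0 : 0 < N := by
    rw [hN]
    have : Ideal.absNorm (Ideal.span {α}) ≠ 0 := by
      rw [Ne, Ideal.absNorm_eq_zero_iff, Ideal.span_singleton_eq_bot]
      exact hα
    exact_mod_cast Nat.pos_of_ne_zero this
  have hx : mixedEmbedding.norm (mixedEmbedding K (α : K)) ≠ 0 := by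
    rw [← hNe]
    exact hN0.ne'
  obtain ⟨u, hu⟩ := exists_unit_smul_mem hx
  refine ⟨u, fun i => ?_⟩
  set n : ℝ := (finrank ℚ K : ℝ) with hn
  have hn0 : (finrank ℚ K) ≠ 0 := finrank_pos.ne'
  set t : ℝ := (N ^ (1 / n))⁻¹ with ht
  have hNn : 0 < N ^ (1 / n) := Real.rpow_pos_of_pos hN0 _
  have ht0 : 0 < t := inv_pos.2 hNn
  set y : mixedSpace K := t • (u • mixedEmbedding K (α : K)) with hy
  have hyc : y ∈ fundamentalCone K := smul_mem_of_mem hu ht0.ne'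
  have hyn : mixedEmbedding.norm y = 1 := by
    rw [hy, mixedEmbedding.norm_smul, norm_unit_smul, ← hNe, abs_of_pos ht0, ht, inv_pow,
      ← Real.rpow_natCast, ← Real.rpow_mul hN0.le, ← hn, one_div_mul_cancel (by rw [hn]; exact_mod_cast hn0),
      Real.rpow_one, inv_mul_cancel₀ hN0.ne']
  have hyb : ‖y‖ ≤ B := hB y ⟨hyc, hyn.le⟩
  have hm : mixedEmbedding K (((u : 𝓞 K) * α : 𝓞 K) : K) = (N ^ (1 / n)) • y := by
    rw [hy, smul_smul, ht, mul_inv_cancel₀ hNn.ne', one_smul, unitSMul_smul, ← map_mul]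
    rfl
  have h1 : (((RingOfIntegers.basis K).repr ((u : 𝓞 K) * α) i : ℤ) : ℝ) =
      (latticeBasis K).repr (mixedEmbedding K (((u : 𝓞 K) * α : 𝓞 K) : K)) i := by
    rw [latticeBasis_repr_apply]
    have := integralBasis_repr_apply K ((u : 𝓞 K) * α) i
    rw [this]
    simp
  rw [h1]
  refine (hf i _).trans ?_
  rw [hm, _root_.norm_smul, Real.norm_of_nonneg hNn.le]
  have h2 : ‖f i‖ ≤ ∑ i, ‖f i‖ := Finset.single_le_sum (fun i _ => norm_nonneg (f i)) (Finset.mem_univ i)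
  have h3 : ‖y‖ ≤ |B| := hyb.trans (le_abs_self B)
  calc ‖f i‖ * (N ^ (1 / n) * ‖y‖) ≤ (∑ i, ‖f i‖) * (N ^ (1 / n) * |B|) := by gcongr
    _ ≤ (1 + (∑ i, ‖f i‖) * |B|) * N ^ (1 / n) := by nlinarith


end units

open Pool.Agent.Y773.G (IsModChar Ps sg)
open Pool.Agent.Y773 (qt)

section
variable {K : Type} [Field K] [NumberField K]

theorem sg_zero (x : K) : sg (fun _ : InfinitePlace K => 0) x = 1 := by
  unfold sg
  simp

theorem Ps_zero (η : Ideal (𝓞 K) →*₀ ℂ) (𝔟 : Ideal (𝓞 K)) (x : 𝓞 K) :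
    Ps η (fun _ => 0) 𝔟 x = η (qt 𝔟 x) := by
  unfold Ps
  rw [sg_zero, mul_one]

theorem qt_zero {𝔟 : Ideal (𝓞 K)} {x : 𝓞 K} (η : Ideal (𝓞 K) →*₀ ℂ) (h : x ∉ 𝔟) :
    η (qt 𝔟 x) = 0 := by
  rw [← Ps_zero]
  exact Pool.Agent.Y773.G.Ps_of_notMem h

theorem per {𝔪 : Ideal (𝓞 K)} {η : Ideal (𝓞 K) →*₀ ℂ} (h : IsModChar 𝔪 (fun _ => 0) η)
    {𝔟 : Ideal (𝓞 K)} (h𝔟 : 𝔟 ≠ ⊥) {x y : 𝓞 K} (hxy : x - y ∈ 𝔟 * 𝔪) :
    η (qt 𝔟 x) = η (qt 𝔟 y) := by
  rw [← Ps_zero, ← Ps_zero]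
  exact h.per h𝔟 hxy

/-- the product of two characters on the elements of `𝔟` -/
noncomputable def gg (η₁ η₂ : Ideal (𝓞 K) →*₀ ℂ) (𝔟 : Ideal (𝓞 K)) (x : 𝓞 K) : ℂ :=
  η₁ (qt 𝔟 x) * (starRingEnd ℂ) (η₂ (qt 𝔟 x))

theorem sum_quot {𝔪₁ 𝔪₂ 𝔟 𝔮 : Ideal (𝓞 K)} (h𝔮 : 𝔮 = 𝔟 * (𝔪₁ * 𝔪₂))
    {η₁ η₂ : Ideal (𝓞 K) →*₀ ℂ} (h𝔟 : 𝔟 ≠ ⊥)
    (h1 : IsModChar 𝔪₁ (fun _ => 0) η₁) (h2 : IsModChar 𝔪₂ (fun _ => 0) η₂)
    (hn1 : ∀ 𝔞, ‖η₁ 𝔞‖ ≤ 1) (hn2 : ∀ 𝔞, ‖η₂ 𝔞‖ ≤ 1) {α : 𝓞 K}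
    (hc : IsCoprime (Ideal.span {α}) (𝔪₁ * 𝔪₂))
    (hα : η₁ (Ideal.span {α}) ≠ η₂ (Ideal.span {α}))
    [Fintype (𝓞 K ⧸ 𝔮)] (x : 𝓞 K) (z : (𝓞 K ⧸ 𝔮) → 𝓞 K)
    (hz : ∀ r, Ideal.Quotient.mk 𝔮 (z r) = r) :
    ∑ r, gg η₁ η₂ 𝔟 (x + z r) = 0 := by
  classical
  have l1 : 𝔮 ≤ 𝔟 * 𝔪₁ := Ideal.le_of_dvd (by
    rw [h𝔮]
    exact mul_dvd_mul_left _ (dvd_mul_right _ _))
  have l2 : 𝔮 ≤ 𝔟 * 𝔪₂ := Ideal.le_of_dvd (by
    rw [h𝔮]
    exact mul_dvd_mul_left _ (dvd_mul_left _ _))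
  have hper : ∀ {a b : 𝓞 K}, a - b ∈ 𝔮 → gg η₁ η₂ 𝔟 a = gg η₁ η₂ 𝔟 b := by
    intro a b hab
    unfold gg
    rw [per h1 h𝔟 (l1 hab), per h2 h𝔟 (l2 hab)]
  -- the function on the quotient
  set G : 𝓞 K ⧸ 𝔮 → ℂ := fun r => gg η₁ η₂ 𝔟 (z r) with hG
  have hGm : ∀ a : 𝓞 K, G (Ideal.Quotient.mk 𝔮 a) = gg η₁ η₂ 𝔟 a := by
    intro a
    refine hper ?_
    rw [← Ideal.Quotient.eq, hz]
  have hx : ∀ r, gg η₁ η₂ 𝔟 (x + z r) = G (Ideal.Quotient.mk 𝔮 x + r) := by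
    intro r
    rw [← hGm, map_add, hz]
  rw [Finset.sum_congr rfl fun r _ => hx r]
  rw [Fintype.sum_equiv (Equiv.addLeft (Ideal.Quotient.mk 𝔮 x))
    (fun r => G (Ideal.Quotient.mk 𝔮 x + r)) G (fun r => rfl)]
  -- the classes of the elements of 𝔟
  set s : Finset (𝓞 K ⧸ 𝔮) := Finset.univ.filter fun r => ∃ a ∈ 𝔟, Ideal.Quotient.mk 𝔮 a = r with hs
  have hG0 : ∀ r, r ∉ s → G r = 0 := by
    intro r hr
    have : z r ∉ 𝔟 := fun h => hr (by
      rw [hs, Finset.mem_filter]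
      exact ⟨Finset.mem_univ _, z r, h, hz r⟩)
    rw [hG]
    simp only
    unfold gg
    rw [qt_zero η₁ this, zero_mul]
  have hsum : ∑ r, G r = ∑ r ∈ s, G r := by
    refine (Finset.sum_subset (Finset.subset_univ s) fun r _ hr => hG0 r hr).symm
  set T : 𝓞 K ⧸ 𝔮 → 𝓞 K ⧸ 𝔮 := fun r => Ideal.Quotient.mk 𝔮 α * r with hT
  have hTs : ∀ r ∈ s, T r ∈ s := by
    intro r hr
    rw [hs, Finset.mem_filter] at hr ⊢
    obtain ⟨-, a, ha, rfl⟩ := hr
    exact ⟨Finset.mem_univ _, α * a, Ideal.mul_mem_left _ _ ha, by rw [hT]; simp⟩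
  have hTi : Set.InjOn T s := by
    intro r hr r' hr' he
    rw [hs, Finset.coe_filter, Set.mem_ofPred_eq] at hr hr'
    obtain ⟨-, a, ha, rfl⟩ := hr
    obtain ⟨-, b, hb, rfl⟩ := hr'
    simp only [hT] at he
    rw [← map_mul, ← map_mul, Ideal.Quotient.eq] at he
    rw [Ideal.Quotient.eq]
    obtain ⟨𝔞, h𝔞⟩ := Pool.Agent.Y773.G.mem_iff_exists_mul.mp (𝔟.sub_mem ha hb)
    have e1 : 𝔮 ∣ Ideal.span {α * a - α * b} := by
      rw [Ideal.dvd_span_singleton]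
      exact he
    rw [← mul_sub, ← Ideal.span_singleton_mul_span_singleton, ← h𝔞, h𝔮] at e1
    have e2 : 𝔪₁ * 𝔪₂ ∣ Ideal.span {α} * 𝔞 := by
      have : 𝔟 * (𝔪₁ * 𝔪₂) ∣ 𝔟 * (Ideal.span {α} * 𝔞) := by
        convert e1 using 1
        ring
      exact (mul_dvd_mul_iff_left h𝔟).1 this
    have e3 : 𝔪₁ * 𝔪₂ ∣ 𝔞 := hc.symm.dvd_of_dvd_mul_left e2
    rw [← Ideal.dvd_span_singleton, ← h𝔞, h𝔮, mul_comm 𝔞 𝔟]
    exact mul_dvd_mul_left _ e3
  have himg : s.image T = s := by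
    refine Finset.eq_of_subset_of_card_le (Finset.image_subset_iff.2 hTs) ?_
    rw [Finset.card_image_of_injOn hTi]
  set c : ℂ := η₁ (Ideal.span {α}) * (starRingEnd ℂ) (η₂ (Ideal.span {α})) with hcdef
  have hGT : ∀ r ∈ s, G (T r) = c * G r := by
    intro r hr
    rw [hs, Finset.mem_filter] at hr
    obtain ⟨-, a, ha, rfl⟩ := hr
    simp only [hT]
    rw [← map_mul, hGm, hGm]
    obtain ⟨𝔞, h𝔞⟩ := Pool.Agent.Y773.G.mem_iff_exists_mul.mp ha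
    have e1 : (Ideal.span {α} * 𝔞) * 𝔟 = Ideal.span {α * a} := by
      rw [mul_assoc, h𝔞, Ideal.span_singleton_mul_span_singleton]
    unfold gg
    rw [Pool.Agent.Y773.qt_eq h𝔟 h𝔞, Pool.Agent.Y773.qt_eq h𝔟 e1, map_mul, map_mul, map_mul, hcdef]
    ring
  have hfin : ∑ r ∈ s, G r = c * ∑ r ∈ s, G r := by
    conv_lhs => rw [← himg, Finset.sum_image hTi]
    rw [Finset.mul_sum]
    exact Finset.sum_congr rfl hGT
  have hc1 : c ≠ 1 := by
    intro h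
    apply hα
    have e1 := hn1 (Ideal.span {α})
    have e2 := hn2 (Ideal.span {α})
    set u := η₁ (Ideal.span {α})
    set v := η₂ (Ideal.span {α})
    have e3 : ‖u‖ * ‖v‖ = 1 := by
      have := congrArg norm h
      rwa [hcdef, norm_mul, RCLike.norm_conj, norm_one] at this
    have e4 : ‖v‖ = 1 := by nlinarith [norm_nonneg u, norm_nonneg v]
    have e5 : (starRingEnd ℂ) v * v = 1 := by
      rw [mul_comm, Complex.mul_conj, Complex.normSq_eq_norm_sq, e4]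
      simp
    calc u = u * ((starRingEnd ℂ) v * v) := by rw [e5, mul_one]
      _ = c * v := by rw [hcdef]; ring
      _ = v := by rw [h, one_mul]
  rw [hsum]
  have : (1 - c) * ∑ r ∈ s, G r = 0 := by linear_combination hfin
  rcases mul_eq_zero.1 this with h | h
  · exact absurd (sub_eq_zero.1 h).symm hc1
  · exact h

end

section
variable (K : Type) [Field K] [NumberField K]

/-- chosen representatives of the ideal classes -/
noncomputable def rpc (c : ClassGroup (𝓞 K)) : Ideal (𝓞 K) :=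
  ((ClassGroup.mk0_surjective c).choose : Ideal (𝓞 K))

theorem rpc_ne_bot (c : ClassGroup (𝓞 K)) : rpc K c ≠ ⊥ :=
  nonZeroDivisors.ne_zero (ClassGroup.mk0_surjective c).choose.2

theorem mk0_rpc (c : ClassGroup (𝓞 K)) :
    ClassGroup.mk0 ⟨rpc K c, mem_nonZeroDivisors_of_ne_zero (rpc_ne_bot K c)⟩ = c :=
  (ClassGroup.mk0_surjective c).choose_spec

/-- the element with given coordinates -/
noncomputable def xx (a : Free.ChooseBasisIndex ℤ (𝓞 K) → ℤ) : 𝓞 K :=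
  (RingOfIntegers.basis K).equivFun.symm a

theorem xx_add (a b : Free.ChooseBasisIndex ℤ (𝓞 K) → ℤ) : xx K (a + b) = xx K a + xx K b :=
  map_add _ _ _

theorem xx_repr (x : 𝓞 K) : xx K (fun i => (RingOfIntegers.basis K).repr x i) = x :=
  (RingOfIntegers.basis K).equivFun.symm_apply_apply x

theorem xx_mod (a : Free.ChooseBasisIndex ℤ (𝓞 K) → ℤ) (m : ℕ) :
    xx K a = xx K (fun k => a k % m) + (m : 𝓞 K) * xx K (fun k => a k / m) := by
  have h1 : a = (fun k => a k % m) + (m : ℤ) • (fun k => a k / m) := by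
    funext k
    simp only [Pi.add_apply, Pi.smul_apply, smul_eq_mul]
    exact (Int.emod_add_mul_ediv (a k) m).symm
  have h2 : (m : 𝓞 K) * xx K (fun k => a k / m) = xx K ((m : ℤ) • (fun k => a k / m)) := by
    unfold xx
    rw [map_smul, zsmul_eq_mul]
    simp
  rw [h2, ← xx_add, ← h1]

open scoped Classical in
theorem cover : ∃ C : ℝ, 1 ≤ C ∧ ∀ Y : ℝ, 1 ≤ Y → ∀ 𝔠 ∈ Pool.Agent.N912.RC.IX K Y,
    ∃ c : ClassGroup (𝓞 K), ∃ a ∈ box (Free.ChooseBasisIndex ℤ (𝓞 K))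
      ⌊C * Y ^ (1 / (finrank ℚ K : ℝ))⌋₊, qt (rpc K c) (xx K a) = 𝔠 := by
  obtain ⟨C₁, hC₁, h⟩ := unit_adj K
  set S : ℝ := ∑ c, (Ideal.absNorm (rpc K c) : ℝ) ^ (1 / (finrank ℚ K : ℝ)) with hS
  have hle : ∀ c, (Ideal.absNorm (rpc K c) : ℝ) ^ (1 / (finrank ℚ K : ℝ)) ≤ S := fun c =>
    Finset.single_le_sum (f := fun c => (Ideal.absNorm (rpc K c) : ℝ) ^ (1 / (finrank ℚ K : ℝ)))
      (fun c _ => by positivity) (Finset.mem_univ c)
  have hN1 : ∀ c, (1 : ℝ) ≤ (Ideal.absNorm (rpc K c) : ℝ) := by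
    intro c
    have : Ideal.absNorm (rpc K c) ≠ 0 := by
      rw [Ne, Ideal.absNorm_eq_zero_iff]
      exact rpc_ne_bot K c
    exact_mod_cast Nat.pos_of_ne_zero this
  have hS1 : 1 ≤ S := (Real.one_le_rpow (hN1 1) (by positivity)).trans (hle 1)
  have hC1S : 1 ≤ C₁ * S := by nlinarith
  refine ⟨C₁ * S, hC1S, ?_⟩
  intro Y hY 𝔠 h𝔠
  unfold Pool.Agent.N912.RC.IX at h𝔠
  rw [Finset.mem_filter, Set.Finite.mem_toFinset, Set.mem_ofPred_eq] at h𝔠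
  obtain ⟨hcY, hc0⟩ := h𝔠
  have hcY' : (Ideal.absNorm 𝔠 : ℝ) ≤ Y :=
    (Nat.le_floor_iff (by linarith)).1 hcY
  set c : ClassGroup (𝓞 K) := (ClassGroup.mk0 ⟨𝔠, mem_nonZeroDivisors_of_ne_zero hc0⟩)⁻¹ with hc
  refine ⟨c, ?_⟩
  have hp : (𝔠 * rpc K c).IsPrincipal := by
    have e1 : ClassGroup.mk0 (⟨𝔠, mem_nonZeroDivisors_of_ne_zero hc0⟩ *
        ⟨rpc K c, mem_nonZeroDivisors_of_ne_zero (rpc_ne_bot K c)⟩ : (Ideal (𝓞 K))⁰) = 1 := by
      rw [map_mul, mk0_rpc, hc, mul_inv_cancel]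
    rw [ClassGroup.mk0_eq_one_iff] at e1
    exact e1
  obtain ⟨α, hα⟩ := hp
  rw [Ideal.submodule_span_eq] at hα
  have hα0 : α ≠ 0 := by
    rintro rfl
    rw [Ideal.span_singleton_eq_bot.mpr rfl] at hα
    exact mul_ne_zero hc0 (rpc_ne_bot K c) hα
  obtain ⟨u, hu⟩ := h α hα0
  refine ⟨fun i => (RingOfIntegers.basis K).repr ((u : 𝓞 K) * α) i, ?_, ?_⟩
  · rw [box, Fintype.mem_piFinset]
    intro i
    have h1 := hu i
    have h2 : (Ideal.absNorm (Ideal.span {α}) : ℝ) ^ (1 / (finrank ℚ K : ℝ)) ≤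
        S * Y ^ (1 / (finrank ℚ K : ℝ)) := by
      rw [← hα, map_mul, Nat.cast_mul, Real.mul_rpow (by positivity) (by positivity), mul_comm]
      have e1 : (Ideal.absNorm 𝔠 : ℝ) ^ (1 / (finrank ℚ K : ℝ)) ≤ Y ^ (1 / (finrank ℚ K : ℝ)) :=
        Real.rpow_le_rpow (by positivity) hcY' (by positivity)
      exact mul_le_mul (hle c) e1 (by positivity) (by linarith)
    have h3 : |((RingOfIntegers.basis K).repr ((u : 𝓞 K) * α) i : ℝ)| ≤
        C₁ * S * Y ^ (1 / (finrank ℚ K : ℝ)) := by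
      refine h1.trans ?_
      rw [mul_assoc]
      exact mul_le_mul_of_nonneg_left h2 (by linarith)
    have h4 : ((RingOfIntegers.basis K).repr ((u : 𝓞 K) * α) i).natAbs ≤
        ⌊C₁ * S * Y ^ (1 / (finrank ℚ K : ℝ))⌋₊ := by
      apply Nat.le_floor
      rw [Nat.cast_natAbs, Int.cast_abs]
      exact h3
    rw [Finset.mem_Icc]
    omega
  · rw [xx_repr]
    refine Pool.Agent.Y773.qt_eq (rpc_ne_bot K c) ?_
    rw [hα]
    exact (Ideal.span_singleton_mul_left_unit u.isUnit α).symm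

open scoped Classical in
theorem pair_bound {ι : Type} [Fintype ι] (𝔪 : ι → Ideal (𝓞 K)) (η : ι → Ideal (𝓞 K) →*₀ ℂ)
    (hη : ∀ i, IsModChar (𝔪 i) (fun _ => 0) (η i)) (hn : ∀ i 𝔞, ‖η i 𝔞‖ ≤ 1) (𝔟 : Ideal (𝓞 K))
    (h𝔟 : 𝔟 ≠ ⊥) (i j : ι)
    (hij : ∃ α : 𝓞 K, IsCoprime (Ideal.span {α}) (𝔪 i * 𝔪 j) ∧
      η i (Ideal.span {α}) ≠ η j (Ideal.span {α})) (L : ℕ) :
    ‖∑ a ∈ box (Free.ChooseBasisIndex ℤ (𝓞 K)) L, η i (qt 𝔟 (xx K a)) *
      (starRingEnd ℂ) (η j (qt 𝔟 (xx K a)))‖ ≤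
      2 * (finrank ℚ K * (Ideal.absNorm (𝔟 * (𝔪 i * 𝔪 j)) * (2 * L + 1) ^ (finrank ℚ K - 1)) : ℕ) := by
  obtain ⟨α, hc, hα⟩ := hij
  set 𝔮 : Ideal (𝓞 K) := 𝔟 * (𝔪 i * 𝔪 j) with h𝔮
  have h𝔮0 : 𝔮 ≠ ⊥ := mul_ne_zero h𝔟 (mul_ne_zero (hη i).ne_bot (hη j).ne_bot)
  have : Finite (𝓞 K ⧸ 𝔮) := Ideal.finiteQuotientOfFreeOfNeBot _ h𝔮0
  have : Fintype (𝓞 K ⧸ 𝔮) := Fintype.ofFinite _
  have hm0 : 0 < Ideal.absNorm 𝔮 := by
    refine Nat.pos_of_ne_zero ?_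
    rw [Ne, Ideal.absNorm_eq_zero_iff]
    exact h𝔮0
  set m := Ideal.absNorm 𝔮 with hm
  have hcard : Fintype.card (Free.ChooseBasisIndex ℤ (𝓞 K)) = finrank ℚ K := by
    rw [← finrank_eq_card_chooseBasisIndex, RingOfIntegers.rank]
  rw [← hcard]
  let y : (𝓞 K ⧸ 𝔮) → 𝓞 K := fun r => Quotient.out r
  let z : (𝓞 K ⧸ 𝔮) → (Free.ChooseBasisIndex ℤ (𝓞 K) → ℤ) := fun r k =>
    (RingOfIntegers.basis K).repr (y r) k % m
  have hy : ∀ r, Ideal.Quotient.mk 𝔮 (y r) = r := fun r => Quotient.out_eq r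
  have hz : ∀ r, Ideal.Quotient.mk 𝔮 (xx K (z r)) = r := by
    intro r
    conv_rhs => rw [← hy r]
    rw [Ideal.Quotient.eq]
    have e1 := xx_mod K (fun k => (RingOfIntegers.basis K).repr (y r) k) m
    rw [xx_repr] at e1
    have e2 : xx K (z r) - y r = -((m : 𝓞 K) *
        xx K (fun k => (RingOfIntegers.basis K).repr (y r) k / m)) := by
      conv_lhs => rw [e1]
      simp only [z]
      ring
    rw [e2]
    exact 𝔮.neg_mem (Ideal.mul_mem_right _ _ (Ideal.absNorm_mem 𝔮))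
  refine offdiag L m (Q := 𝓞 K ⧸ 𝔮) z ?_ _ ?_ ?_
  · intro r k
    have hm' : (0 : ℤ) < (m : ℤ) := by exact_mod_cast hm0
    exact ⟨Int.emod_nonneg _ hm'.ne', (Int.emod_lt_of_pos _ hm').le⟩
  · intro a
    rw [norm_mul, RCLike.norm_conj]
    exact mul_le_one₀ (hn _ _) (norm_nonneg _) (hn _ _)
  · intro a
    have := sum_quot h𝔮 h𝔟 (hη i) (hη j) (hn i) (hn j) hc hα (xx K a) (fun r => xx K (z r)) hz
    simp_rw [← xx_add] at this
    exact this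

end

/-- LS -/
theorem t_LS : S_LS := by
  classical
  intro K _ _
  obtain ⟨C, hC, hcov⟩ := cover K
  set n : ℕ := finrank ℚ K with hn
  have hn0 : 0 < n := finrank_pos
  have hnR : (0 : ℝ) < n := by exact_mod_cast hn0
  obtain ⟨S, hS⟩ : ∃ S : ℝ, S = ∑ c, (Ideal.absNorm (rpc K c) : ℝ) := ⟨_, rfl⟩
  have hle : ∀ c, (Ideal.absNorm (rpc K c) : ℝ) ≤ S := fun c => by
    rw [hS]
    exact Finset.single_le_sum (f := fun c => (Ideal.absNorm (rpc K c) : ℝ))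
      (fun c _ => Nat.cast_nonneg _) (Finset.mem_univ c)
  have hS0 : 0 ≤ S := by
    rw [hS]
    exact Finset.sum_nonneg fun c _ => Nat.cast_nonneg _
  obtain ⟨h, hh⟩ : ∃ h : ℝ, h = ((Fintype.card (ClassGroup (𝓞 K)) : ℕ) : ℝ) := ⟨_, rfl⟩
  have hh1 : 1 ≤ h := by
    rw [hh]
    exact_mod_cast Fintype.card_pos
  obtain ⟨A, hA⟩ : ∃ A : ℝ, A = (3 * C) ^ n := ⟨_, rfl⟩
  obtain ⟨B, hB⟩ : ∃ B : ℝ, B = 2 * n * S * (3 * C) ^ (n - 1) := ⟨_, rfl⟩
  have hA1 : 1 ≤ A := by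
    rw [hA]
    exact one_le_pow₀ (by linarith)
  have hB0 : 0 ≤ B := by
    rw [hB]
    exact mul_nonneg (mul_nonneg (mul_nonneg (by norm_num) hnR.le) hS0)
      (pow_nonneg (by linarith) _)
  refine ⟨h * (A + B), n + 2, by nlinarith, by linarith, ?_⟩
  intro ι _ 𝔪 η R Y hR hY hη hnη hmR hij ε hε
  set F : Ideal (𝓞 K) → ℂ := fun 𝔠 => ∑ i, ε i * η i 𝔠 with hF
  obtain ⟨y, hy⟩ : ∃ y : ℝ, y = Y ^ (1 / (n : ℝ)) := ⟨_, rfl⟩
  have hy1 : 1 ≤ y := by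
    rw [hy]
    exact Real.one_le_rpow hY (by positivity)
  have hCy : 1 ≤ C * y := by nlinarith
  obtain ⟨L, hL⟩ : ∃ L : ℕ, L = ⌊C * y⌋₊ := ⟨_, rfl⟩
  have hLb : (2 * (L : ℝ) + 1) ≤ 3 * C * y := by
    have := Nat.floor_le (by linarith : 0 ≤ C * y)
    rw [← hL] at this
    linarith
  have hyn : y ^ n = Y := by
    rw [hy, ← Real.rpow_natCast, ← Real.rpow_mul (by linarith), one_div_mul_cancel hnR.ne',
      Real.rpow_one]
  have hyn1 : y ^ (n - 1) = Y ^ (1 - 1 / (n : ℝ)) := by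
    rw [hy, ← Real.rpow_natCast, ← Real.rpow_mul (by linarith)]
    congr 1
    rw [Nat.cast_sub hn0]
    field_simp
    simp
  -- the sum over the ideals
  have step1 : ∑ 𝔠 ∈ Pool.Agent.N912.RC.IX K Y, ‖F 𝔠‖ ^ 2 ≤
      ∑ c : ClassGroup (𝓞 K), ∑ a ∈ box (Free.ChooseBasisIndex ℤ (𝓞 K)) L,
        ‖F (qt (rpc K c) (xx K a))‖ ^ 2 := by
    rw [← Finset.sum_product']
    have hex : ∀ 𝔠 : Pool.Agent.N912.RC.IX K Y, ∃ p : ClassGroup (𝓞 K) ×
        (Free.ChooseBasisIndex ℤ (𝓞 K) → ℤ),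
        p ∈ (Finset.univ : Finset (ClassGroup (𝓞 K))) ×ˢ
          box (Free.ChooseBasisIndex ℤ (𝓞 K)) L ∧ qt (rpc K p.1) (xx K p.2) = 𝔠 := by
      intro 𝔠
      obtain ⟨c, a, ha, hca⟩ := hcov Y hY 𝔠 𝔠.2
      rw [← hy, ← hL] at ha
      exact ⟨(c, a), Finset.mem_product.2 ⟨Finset.mem_univ _, ha⟩, hca⟩
    choose p hp1 hp2 using hex
    have hpi : Function.Injective p := by
      intro 𝔠 𝔡 h
      apply Subtype.ext
      rw [← hp2 𝔠, ← hp2 𝔡, h]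
    rw [← Finset.sum_coe_sort]
    have e1 : ∑ 𝔠 : Pool.Agent.N912.RC.IX K Y, ‖F 𝔠‖ ^ 2 =
        ∑ q ∈ Finset.univ.image p, ‖F (qt (rpc K q.1) (xx K q.2))‖ ^ 2 := by
      rw [Finset.sum_image fun a _ b _ h => hpi h]
      refine Finset.sum_congr rfl fun 𝔠 _ => ?_
      rw [hp2]
    rw [e1]
    refine Finset.sum_le_sum_of_subset_of_nonneg ?_ (fun _ _ _ => by positivity)
    intro q hq
    rw [Finset.mem_image] at hq
    obtain ⟨𝔠, -, rfl⟩ := hq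
    exact hp1 𝔠
  obtain ⟨E, hE⟩ : ∃ E : ℝ, E = B * R ^ 2 * Y ^ (1 - 1 / (n : ℝ)) := ⟨_, rfl⟩
  have hE0 : 0 ≤ E := by
    rw [hE]
    positivity
  have step2 : ∀ c : ClassGroup (𝓞 K), ∑ a ∈ box (Free.ChooseBasisIndex ℤ (𝓞 K)) L,
      ‖F (qt (rpc K c) (xx K a))‖ ^ 2 ≤
        Fintype.card ι * (A * Y) + (Fintype.card ι : ℝ) ^ 2 * E := by
    intro c
    have hcard : Fintype.card (Free.ChooseBasisIndex ℤ (𝓞 K)) = n := by
      rw [← finrank_eq_card_chooseBasisIndex, RingOfIntegers.rank]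
    have e1 := sumsq L (fun i a => η i (qt (rpc K c) (xx K a))) ε (fun i a => hnη i _) hε E hE0 ?_
    · refine e1.trans ?_
      rw [hcard]
      have e2 : (2 * (L : ℝ) + 1) ^ n ≤ A * Y := by
        calc (2 * (L : ℝ) + 1) ^ n ≤ (3 * C * y) ^ n := by gcongr
          _ = A * Y := by rw [mul_pow, hyn, hA]
      gcongr
    · intro i j hne
      refine (pair_bound K 𝔪 η hη hnη (rpc K c) (rpc_ne_bot K c) i j (hij i j hne) L).trans ?_
      rw [hE, hB, map_mul, map_mul]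
      push_cast
      have e2 : (2 * (L : ℝ) + 1) ^ (n - 1) ≤ (3 * C) ^ (n - 1) * Y ^ (1 - 1 / (n : ℝ)) := by
        calc (2 * (L : ℝ) + 1) ^ (n - 1) ≤ (3 * C * y) ^ (n - 1) := by gcongr
          _ = _ := by rw [mul_pow, hyn1]
      calc 2 * ((n : ℝ) * ((Ideal.absNorm (rpc K c) : ℝ) * ((Ideal.absNorm (𝔪 i) : ℝ) *
            (Ideal.absNorm (𝔪 j) : ℝ)) * (2 * (L : ℝ) + 1) ^ (n - 1)))
          ≤ 2 * ((n : ℝ) * (S * (R * R) * ((3 * C) ^ (n - 1) * Y ^ (1 - 1 / (n : ℝ))))) := by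
            gcongr
            · exact hle c
            · exact hmR i
            · exact hmR j
        _ = _ := by ring
  have hYD : Y ^ (1 - 1 / (n : ℝ)) ≤ Y ^ (1 - 1 / ((n : ℝ) + 2)) := by
    refine Real.rpow_le_rpow_of_exponent_le hY ?_
    have : 1 / ((n : ℝ) + 2) ≤ 1 / (n : ℝ) := one_div_le_one_div_of_le hnR (by linarith)
    linarith
  have hRD : R ^ 2 ≤ R ^ ((n : ℝ) + 2) := by
    rw [← Real.rpow_natCast]
    exact Real.rpow_le_rpow_of_exponent_le hR (by push_cast; linarith)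
  have hE' : E ≤ B * (R ^ ((n : ℝ) + 2) * Y ^ (1 - 1 / ((n : ℝ) + 2))) := by
    rw [hE, mul_assoc]
    gcongr
  refine step1.trans ((Finset.sum_le_sum fun c _ => step2 c).trans ?_)
  rw [Finset.sum_const, Finset.card_univ, nsmul_eq_mul, ← hh]
  obtain ⟨k, hk⟩ : ∃ k : ℝ, k = (Fintype.card ι : ℝ) := ⟨_, rfl⟩
  have hk0 : 0 ≤ k := by
    rw [hk]
    exact Nat.cast_nonneg _
  rw [← hk]
  obtain ⟨W, hW⟩ : ∃ W : ℝ, W = R ^ ((n : ℝ) + 2) * Y ^ (1 - 1 / ((n : ℝ) + 2)) := ⟨_, rfl⟩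
  have hW0 : 0 ≤ W := by
    rw [hW]
    positivity
  rw [← hW] at hE'
  have e3 : k * (A * Y) + k ^ 2 * E ≤ (A + B) * (k * Y + k ^ 2 * W) := by
    have e4 : k ^ 2 * E ≤ k ^ 2 * (B * W) := by gcongr
    have e5 : 0 ≤ B * (k * Y) := by positivity
    have e6 : 0 ≤ A * (k ^ 2 * W) := by positivity
    nlinarith
  calc h * (k * (A * Y) + k ^ 2 * E) ≤ h * ((A + B) * (k * Y + k ^ 2 * W)) := by gcongr
    _ = h * (A + B) * (k * Y + k ^ 2 * R ^ ((n : ℝ) + 2) * Y ^ (1 - 1 / ((n : ℝ) + 2))) := by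
      rw [hW]
      ring

end Pool.Agent.T3h73.SD.LS
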