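import Pool.Agent.T3h73.SD.Stm2
import Pool.Agent.Y773.HG.Ent

/-!
# LU: upper bound for the L-functions of ray class characters near `1` (helper71)

The theta function `Ftot` of a character satisfies `‖Ftot t‖ ≤ C / t`, `‖Ftot t‖ ≤ C / t ^ 3` with `C`
depending on `K` only, and, by the reflection formula, `‖Ftot t‖ ≤ C m ^ B t ^ 2`.
-/

set_option autoImplicit false
set_option linter.all false

open NumberField Complex Filter Topology MeasureTheory Set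
open NumberField.Units NumberField.Units.dirichletUnitTheorem

namespace Pool.Agent.T3h73.SD.LU

open Pool.Agent.Y773.G
open Pool.Agent.Y773 (absNorm_span_nat LI FT rp rp_ne_bot reps_rp Dd Dd_pos Dd_mem mm mm_pos mm_mem Reps qt rz G0 g0 el
  cube)

variable {K : Type} [Field K] [NumberField K]

/-- the trivial signature -/
abbrev e0 (K : Type) [Field K] [NumberField K] : InfinitePlace K → ℕ := fun _ => 0

/-- the function `1` away from `0` -/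
noncomputable def u1 (K : Type) [Field K] [NumberField K] : 𝓞 K → ℂ := rz (fun _ => 1)

lemma he0 : ∀ w, e0 K w ≤ 1 := fun _ => zero_le_one

lemma norm_u1_le (x : 𝓞 K) : ‖u1 K x‖ ≤ 1 := norm_rz_le (B := 1) (fun _ => by simp) x

lemma GM_nonneg (a : InfinitePlace K → ℝ) (x : K) : 0 ≤ GM (e0 K) a x := by
  unfold GM G0
  refine Finset.prod_nonneg fun φ _ => ?_
  unfold g0 eM
  simp only [pow_zero, one_mul]
  exact (Real.exp_pos _).le

/-- comparison of the theta series -/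
lemma norm_th_le' {Ψ : 𝓞 K → ℂ} {B : ℝ} (hB : ∀ x, ‖Ψ x‖ ≤ B) (h0 : Ψ 0 = 0)
    (y : InfinitePlace K → ℝ) : ‖th (e0 K) Ψ y‖ ≤ B * (th (e0 K) (u1 K) y).re := by
  have ha : ∀ w, 0 < Real.exp (y w / 2) := fun w => Real.exp_pos _
  have hs := summable_th he0 hB ha
  have hs1 := summable_th he0 (norm_u1_le (K := K)) ha
  have hB0 : 0 ≤ B := (norm_nonneg _).trans (hB 0)
  have hre : (th (e0 K) (u1 K) y).re =
      ∑' x : 𝓞 K, (u1 K x * ((GM (e0 K) (fun w => Real.exp (y w / 2)) (x : K) : ℝ) : ℂ)).re := by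
    unfold th
    rw [Complex.re_tsum hs1]
  have hs2 : Summable fun x : 𝓞 K =>
      (u1 K x * ((GM (e0 K) (fun w => Real.exp (y w / 2)) (x : K) : ℝ) : ℂ)).re :=
    (Complex.hasSum_re hs1.hasSum).summable
  rw [hre, ← tsum_mul_left]
  unfold th
  refine (norm_tsum_le_tsum_norm hs.norm).trans (Summable.tsum_le_tsum (fun x => ?_) hs.norm
    (hs2.mul_left B))
  have hg := GM_nonneg (fun w => Real.exp (y w / 2)) (x : K)
  rw [norm_mul, Complex.norm_real, Real.norm_of_nonneg hg]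
  by_cases hx : x = 0
  · subst hx
    rw [h0, u1, rz_zero]
    simp
  · have h1 : u1 K x = 1 := by
      unfold u1 rz
      rw [if_neg hx]
    rw [h1, one_mul, Complex.ofReal_re]
    exact mul_le_mul_of_nonneg_right (hB x) hg

/-- comparison of the integrals -/
lemma norm_hf_le {Ψ : 𝓞 K → ℂ} {B : ℝ} (hB : ∀ x, ‖Ψ x‖ ≤ B) (h0 : Ψ 0 = 0) (t : ℝ) :
    ‖hf (e0 K) Ψ t‖ ≤ B * ‖hf (e0 K) (u1 K) t‖ := by
  have hB0 : 0 ≤ B := (norm_nonneg _).trans (hB 0)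
  rw [hf_eq, hf_eq]
  have hc : ∀ {Φ : 𝓞 K → ℂ} {A : ℝ}, (∀ x, ‖Φ x‖ ≤ A) → Continuous fun θ : Fin (rank K) → ℝ =>
      th (e0 K) Φ (el K ((2 / Module.finrank ℚ K) * Real.log t, θ)) := by
    intro Φ A hA
    have h1 : Continuous (el K) := (el K).continuous_of_finiteDimensional
    exact (continuous_th he0 hA).comp (h1.comp (by fun_prop))
  have h1 := (hc hB)
  have h2 := (hc (norm_u1_le (K := K)))
  refine (norm_integral_le_integral_norm _).trans ?_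
  have h3 : ∫ θ in Icc (0 : Fin (rank K) → ℝ) 1,
      ‖th (e0 K) Ψ (el K ((2 / Module.finrank ℚ K) * Real.log t, θ))‖ ≤
      ∫ θ in Icc (0 : Fin (rank K) → ℝ) 1,
        B * (th (e0 K) (u1 K) (el K ((2 / Module.finrank ℚ K) * Real.log t, θ))).re := by
    refine setIntegral_mono ?_ ?_ fun θ => norm_th_le' hB h0 _
    · exact h1.norm.integrableOn_Icc
    · exact (continuous_const.mul (Complex.continuous_re.comp h2)).integrableOn_Icc
  refine h3.trans ?_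
  rw [integral_const_mul]
  refine mul_le_mul_of_nonneg_left ?_ hB0
  have h4 := integral_re (𝕜 := ℂ) (h2.integrableOn_Icc (μ := volume) (a := (0 : Fin (rank K) → ℝ))
    (b := 1))
  simp only [RCLike.re_eq_complex_re] at h4
  rw [h4]
  exact (le_abs_self _).trans (Complex.abs_re_le_norm _)

lemma nice_u1 : Nice (e0 K) (u1 K) := by
  refine rz_nice he0 (fun _ _ => rfl) (B := 1) (fun _ => by simp) fun u x => ?_
  simp [sg]

lemma eqv_one : Eqv (e0 K) (fun _ : 𝓞 K => (1 : ℂ)) := fun u x => by simp [sg]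

/-- the majorant, away from `0` -/
lemma Hr_large {a : ℝ} (ha : 0 < a) : ∃ C : ℝ, 0 < C ∧ ∀ t : ℝ, a ≤ t →
    ‖hf (e0 K) (u1 K) t‖ ≤ C / t ^ 3 := by
  obtain ⟨c, hc⟩ := (hf_decay (nice_u1 (K := K)) (-3)).bound
  obtain ⟨X, hX⟩ := eventually_atTop.mp hc
  have hcont : ContinuousOn (hf (e0 K) (u1 K)) (Icc a (max X a)) :=
    (continuousOn_hf he0 norm_u1_le).mono fun t ht => lt_of_lt_of_le ha ht.1
  obtain ⟨C, hC⟩ := isCompact_Icc.exists_bound_of_continuousOn hcont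
  refine ⟨|c| + |C| * (max X a) ^ 3 + 1, by positivity, fun t ht => ?_⟩
  have ht0 : 0 < t := lt_of_lt_of_le ha ht
  rw [le_div_iff₀ (by positivity)]
  by_cases h : t ≤ max X a
  · have h1 := hC t ⟨ht, h⟩
    have h2 : t ^ 3 ≤ (max X a) ^ 3 := pow_le_pow_left₀ ht0.le h 3
    calc ‖hf (e0 K) (u1 K) t‖ * t ^ 3 ≤ |C| * (max X a) ^ 3 :=
          mul_le_mul (h1.trans (le_abs_self _)) h2 (by positivity) (abs_nonneg _)
      _ ≤ _ := by linarith [abs_nonneg c]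
  · push Not at h
    have h1 := hX t ((le_max_left X a).trans h.le)
    rw [Real.norm_of_nonneg (Real.rpow_nonneg ht0.le _), Real.rpow_neg ht0.le] at h1
    have h3 : t ^ (3 : ℝ) = t ^ 3 := by exact_mod_cast Real.rpow_natCast t 3
    rw [h3] at h1
    have h4 : c * (t ^ 3)⁻¹ * t ^ 3 = c := by field_simp
    calc ‖hf (e0 K) (u1 K) t‖ * t ^ 3 ≤ c * (t ^ 3)⁻¹ * t ^ 3 :=
          mul_le_mul_of_nonneg_right h1 (by positivity)
      _ = c := h4
      _ ≤ _ := by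
        have : 0 ≤ |C| * (max X a) ^ 3 := by positivity
        linarith [le_abs_self c]

/-- the majorant near `0` -/
lemma Hr_small (K : Type) [Field K] [NumberField K] : ∃ C : ℝ, 0 < C ∧ ∀ t : ℝ, 0 < t → t ≤ 1 →
    ‖hf (e0 K) (u1 K) t‖ ≤ C / t := by
  obtain ⟨V, hV0, hV⟩ := hf_fe K
  have hone : ∀ x : 𝓞 K, ‖(fun _ => (1 : ℂ)) x‖ ≤ (1 : ℝ) := fun _ => by simp
  have hFT : ∀ x, ‖FT (Dd K) 1 (fun _ : 𝓞 K => (1 : ℂ)) x‖ ≤
      Nat.card (𝓞 K ⧸ Ideal.span {((1 : ℕ) : 𝓞 K)}) * 1 :=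
    norm_FT_le one_pos zero_le_one hone
  set A : ℝ := Nat.card (𝓞 K ⧸ Ideal.span {((1 : ℕ) : 𝓞 K)}) * 1 with hA
  have hA0 : 0 ≤ A := by positivity
  have hn : (0 : ℝ) < ((1 * Dd K : ℕ) : ℝ) ^ (Module.finrank ℚ K) := by
    have := Dd_pos (K := K)
    have h2 : (0 : ℝ) < ((1 * Dd K : ℕ) : ℝ) := by
      rw [one_mul]
      exact_mod_cast this
    positivity
  set M : ℝ := ((1 * Dd K : ℕ) : ℝ) ^ (Module.finrank ℚ K) with hM
  obtain ⟨C1, hC1, hb⟩ := Hr_large (K := K) (a := M⁻¹) (by positivity)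
  -- bound for the Fourier transform
  have h1 : ∀ t : ℝ, 1 ≤ t → ‖hf (e0 K) (FT (Dd K) 1 (fun _ : 𝓞 K => (1 : ℂ))) (t / M)‖ ≤
      A * ‖(G00 (e0 K) : ℂ)‖ + A * (C1 * M ^ 3) := by
    intro t ht
    rw [hf_rz he0 hFT]
    refine (norm_add_le _ _).trans (add_le_add ?_ ?_)
    · rw [norm_mul]
      exact mul_le_mul_of_nonneg_right (hFT 0) (norm_nonneg _)
    · refine (norm_hf_le (norm_rz_le hFT) (rz_zero _) _).trans (mul_le_mul_of_nonneg_left ?_ hA0)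
      have h2 : M⁻¹ ≤ t / M := by
        rw [inv_eq_one_div]
        gcongr
      refine (hb _ h2).trans ?_
      rw [div_pow, div_div_eq_mul_div]
      refine div_le_self (by positivity) ?_
      exact one_le_pow₀ ht
  set B1 : ℝ := A * ‖(G00 (e0 K) : ℂ)‖ + A * (C1 * M ^ 3) with hB1
  have hB1' : 0 ≤ B1 := by positivity
  refine ⟨V⁻¹ * B1 + ‖(G00 (e0 K) : ℂ)‖ + 1, by positivity, fun t ht ht1 => ?_⟩
  have ht' : 1 ≤ 1 / t := by
    rw [le_div_iff₀ ht]; linarith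
  have h2 := hV (e0 K) he0 (fun _ _ => rfl) (fun _ => (1 : ℂ)) 1 hone eqv_one 1 (Dd K) one_pos Dd_pos
    Dd_mem (fun _ _ => rfl) (1 / t) (by positivity)
  rw [one_div_one_div, ← hM] at h2
  have h3 := hf_rz (he0 (K := K)) hone t
  have h4 : hf (e0 K) (u1 K) t = hf (e0 K) (fun _ : 𝓞 K => (1 : ℂ)) t - 1 * G00 (e0 K) := by
    rw [h3]
    unfold u1
    ring
  rw [h4]
  refine (norm_sub_le _ _).trans ?_
  have h5 : ‖hf (e0 K) (fun _ : 𝓞 K => (1 : ℂ)) t‖ ≤ V⁻¹ * (1 / t) * B1 := by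
    rw [h2, norm_mul, norm_mul, norm_mul, norm_mul]
    have e1 : ‖((V⁻¹ : ℝ) : ℂ)‖ = V⁻¹ := by
      rw [Complex.norm_real, Real.norm_of_nonneg (by positivity)]
    have e2 : ‖(((1 : ℕ) : ℂ) ^ (Module.finrank ℚ K))⁻¹‖ = 1 := by simp
    have e3 : ‖(-I) ^ (∑ φ : K →+* ℂ, eM (e0 K) φ)‖ = 1 := by
      rw [norm_pow, norm_neg, Complex.norm_I, one_pow]
    have e4 : ‖((1 / t : ℝ) : ℂ)‖ = 1 / t := by
      rw [Complex.norm_real, Real.norm_of_nonneg (by positivity)]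
    rw [e1, e2, e3, e4, mul_one, mul_one]
    exact mul_le_mul_of_nonneg_left (h1 _ ht') (by positivity)
  rw [one_mul, le_div_iff₀ ht]
  have h6 : V⁻¹ * (1 / t) * B1 * t = V⁻¹ * B1 := by field_simp
  calc (‖hf (e0 K) (fun _ : 𝓞 K => (1 : ℂ)) t‖ + ‖(G00 (e0 K) : ℂ)‖) * t
      ≤ (V⁻¹ * (1 / t) * B1 + ‖(G00 (e0 K) : ℂ)‖) * t := by gcongr
    _ = V⁻¹ * B1 + ‖(G00 (e0 K) : ℂ)‖ * t := by rw [add_mul, h6]
    _ ≤ V⁻¹ * B1 + ‖(G00 (e0 K) : ℂ)‖ * 1 := by gcongr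
    _ ≤ _ := by linarith

/-- the bounds for the majorant -/
lemma Hr_bound (K : Type) [Field K] [NumberField K] : ∃ C : ℝ, 0 < C ∧ ∀ t : ℝ, 0 < t →
    ‖hf (e0 K) (u1 K) t‖ ≤ C / t ∧ ‖hf (e0 K) (u1 K) t‖ ≤ C / t ^ 3 := by
  obtain ⟨C1, h1, hC1⟩ := Hr_small K
  obtain ⟨C2, h2, hC2⟩ := Hr_large (K := K) one_pos
  refine ⟨max C1 C2, lt_max_of_lt_left h1, fun t ht => ?_⟩
  rcases le_total t 1 with h | h
  · have h3 := hC1 t ht h
    constructor
    · exact h3.trans (by gcongr; exact le_max_left _ _)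
    · refine h3.trans ?_
      have : t ^ 3 ≤ t := by
        calc t ^ 3 ≤ t ^ 1 := pow_le_pow_of_le_one ht.le h (by norm_num)
          _ = t := pow_one t
      calc C1 / t ≤ C1 / t ^ 3 := by gcongr
        _ ≤ _ := by gcongr; exact le_max_left _ _
  · have h3 := hC2 t h
    constructor
    · refine h3.trans ?_
      have : t ≤ t ^ 3 := by
        calc t = t ^ 1 := (pow_one t).symm
          _ ≤ t ^ 3 := pow_le_pow_right₀ h (by norm_num)
      calc C2 / t ^ 3 ≤ C2 / t := by gcongr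
        _ ≤ _ := by gcongr; exact le_max_right _ _
    · exact h3.trans (by gcongr; exact le_max_right _ _)

/-- the norms of the representatives of the classes are at least one -/
lemma one_le_rp (c : ClassGroup (𝓞 K)) : (1 : ℝ) ≤ (Ideal.absNorm (rp K c) : ℝ) := by
  have : Ideal.absNorm (rp K c) ≠ 0 := by
    rw [Ne, Ideal.absNorm_eq_zero_iff]
    exact rp_ne_bot c
  exact_mod_cast Nat.one_le_iff_ne_zero.mpr this

/-- bounds for the total theta function, independent of the character -/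
lemma Ftot_bound (K : Type) [Field K] [NumberField K] : ∃ C : ℝ, 0 < C ∧
    ∀ (𝔪 : Ideal (𝓞 K)) (η : Ideal (𝓞 K) →*₀ ℂ), IsModChar 𝔪 (e0 K) η → ∀ t : ℝ, 0 < t →
    ‖Ftot η (e0 K) (rp K) t‖ ≤ C / t ∧ ‖Ftot η (e0 K) (rp K) t‖ ≤ C / t ^ 3 := by
  obtain ⟨C, hC, h⟩ := Hr_bound K
  set S : ℝ := ∑ c : ClassGroup (𝓞 K), (Ideal.absNorm (rp K c) : ℝ) ^ 3 with hS
  have hS0 : 0 < S := Finset.sum_pos (fun c _ => by
    have := one_le_rp c
    positivity) Finset.univ_nonempty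
  refine ⟨C * S, by positivity, fun 𝔪 η hη t ht => ?_⟩
  have h1 : ∀ c, ‖hf (e0 K) (Ps η (e0 K) (rp K c)) ((Ideal.absNorm (rp K c) : ℝ)⁻¹ * t)‖ ≤
      ‖hf (e0 K) (u1 K) ((Ideal.absNorm (rp K c) : ℝ)⁻¹ * t)‖ := fun c => by
    have := norm_hf_le (K := K) (norm_Ps_le (e := e0 K) hη.norm_le_one (rp K c))
      (hη.nice (rp_ne_bot c)).zero ((Ideal.absNorm (rp K c) : ℝ)⁻¹ * t)
    simpa using this
  have h2 : ‖Ftot η (e0 K) (rp K) t‖ ≤
      ∑ c, ‖hf (e0 K) (u1 K) ((Ideal.absNorm (rp K c) : ℝ)⁻¹ * t)‖ := by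
    unfold Ftot
    exact (norm_sum_le _ _).trans (Finset.sum_le_sum fun c _ => h1 c)
  constructor
  · refine h2.trans ?_
    rw [hS, Finset.mul_sum, Finset.sum_div]
    refine Finset.sum_le_sum fun c _ => ?_
    have hN := one_le_rp c
    have h3 := (h ((Ideal.absNorm (rp K c) : ℝ)⁻¹ * t) (by positivity)).1
    refine h3.trans ?_
    have h4 : C / ((Ideal.absNorm (rp K c) : ℝ)⁻¹ * t) = C * (Ideal.absNorm (rp K c) : ℝ) / t := by
      field_simp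
    rw [h4]
    gcongr
    calc (Ideal.absNorm (rp K c) : ℝ) = (Ideal.absNorm (rp K c) : ℝ) ^ 1 := (pow_one _).symm
      _ ≤ _ := pow_le_pow_right₀ hN (by norm_num)
  · refine h2.trans ?_
    rw [hS, Finset.mul_sum, Finset.sum_div]
    refine Finset.sum_le_sum fun c _ => ?_
    have hN := one_le_rp c
    have h3 := (h ((Ideal.absNorm (rp K c) : ℝ)⁻¹ * t) (by positivity)).2
    refine h3.trans (le_of_eq ?_)
    field_simp

/-- the bound from the reflection formula -/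
lemma Ftot_small (K : Type) [Field K] [NumberField K] : ∃ (C : ℝ) (E : ℕ), 0 < C ∧
    ∀ (𝔪 : Ideal (𝓞 K)) (η : Ideal (𝓞 K) →*₀ ℂ), IsModChar 𝔪 (e0 K) η →
    (∃ 𝔞, IsCoprime 𝔞 𝔪 ∧ η 𝔞 ≠ 1) → ∀ t : ℝ, 0 < t →
    ‖Ftot η (e0 K) (rp K) t‖ ≤ C * (Ideal.absNorm 𝔪 : ℝ) ^ E * t ^ 2 := by
  obtain ⟨C, hC, hH⟩ := Hr_bound K
  obtain ⟨V, hV0, hV⟩ := hf_fe K
  obtain ⟨n, hn⟩ : ∃ n, n = Module.finrank ℚ K := ⟨_, rfl⟩
  obtain ⟨P, hP⟩ : ∃ P : ℝ, P = ∏ c : ClassGroup (𝓞 K), (Ideal.absNorm (rp K c) : ℝ) := ⟨_, rfl⟩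
  have hP0 : 0 < P := by
    rw [hP]
    exact Finset.prod_pos fun c _ => lt_of_lt_of_le one_pos (one_le_rp c)
  obtain ⟨q, hq⟩ : ∃ q, q = Fintype.card (ClassGroup (𝓞 K)) := ⟨_, rfl⟩
  have hD0 : (0 : ℝ) < Dd K := by exact_mod_cast Dd_pos (K := K)
  have hpos : 0 < V⁻¹ * C * q * ((P * Dd K) ^ n) ^ 3 + 1 := by
    have : 0 ≤ V⁻¹ * C * q * ((P * Dd K) ^ n) ^ 3 := by positivity
    linarith
  refine ⟨V⁻¹ * C * q * ((P * Dd K) ^ n) ^ 3 + 1, q * n * 3, hpos, fun 𝔪 η hη hn1 t ht => ?_⟩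
  obtain ⟨m, hm⟩ : ∃ m, m = mm (rp K) 𝔪 := ⟨_, rfl⟩
  have hm0 : 0 < m := hm ▸ mm_pos (𝔟 := rp K) rp_ne_bot hη.ne_bot
  have hm0' : (0 : ℝ) < m := by exact_mod_cast hm0
  have hmP : (m : ℝ) = P * (Ideal.absNorm 𝔪 : ℝ) ^ q := by
    rw [hm, mm, hP, hq]
    push_cast
    simp_rw [map_mul]
    push_cast
    rw [Finset.prod_mul_distrib, Finset.prod_const, Finset.card_univ]
  obtain ⟨M, hM⟩ : ∃ M : ℝ, M = ((m * Dd K : ℕ) : ℝ) ^ n := ⟨_, rfl⟩
  have hM0 : 0 < M := by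
    rw [hM]
    have : (0 : ℝ) < ((m * Dd K : ℕ) : ℝ) := by push_cast; positivity
    positivity
  have hA : (Nat.card (𝓞 K ⧸ Ideal.span {(m : 𝓞 K)}) : ℝ) = (m : ℝ) ^ n := by
    have h1 : Nat.card (𝓞 K ⧸ Ideal.span {(m : 𝓞 K)}) = Ideal.absNorm (Ideal.span {(m : 𝓞 K)}) := rfl
    rw [h1, absNorm_span_nat, hn]
    push_cast
    rfl
  have hPs : ∀ c x, ‖Ps η (e0 K) (rp K c) x‖ ≤ 1 := fun c => norm_Ps_le (e := e0 K) hη.norm_le_one _
  have hFT : ∀ c x, ‖FT (Dd K) m (Ps η (e0 K) (rp K c)) x‖ ≤ (m : ℝ) ^ n := fun c x => by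
    have := norm_FT_le (D := Dd K) hm0 zero_le_one (hPs c) x
    rwa [hA, mul_one] at this
  obtain ⟨κ, hκ⟩ : ∃ κ : ℂ, κ = ((V⁻¹ : ℝ) : ℂ) * ((m : ℂ) ^ (Module.finrank ℚ K))⁻¹ *
    (-I) ^ (∑ φ : K →+* ℂ, eM (e0 K) φ) := ⟨_, rfl⟩
  have hκn : ‖κ‖ = V⁻¹ * ((m : ℝ) ^ n)⁻¹ := by
    rw [hκ, norm_mul, norm_mul, norm_pow, norm_neg, Complex.norm_I, one_pow, mul_one, norm_inv,
      norm_pow, Complex.norm_natCast, Complex.norm_real, Real.norm_of_nonneg (by positivity), hn]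
  -- the formula
  have h1 : Ftot η (e0 K) (rp K) t = ∑ c, κ * (((Ideal.absNorm (rp K c) : ℝ) / t : ℝ) : ℂ) *
      hf (e0 K) (rz (FT (Dd K) m (Ps η (e0 K) (rp K c)))) ((Ideal.absNorm (rp K c) : ℝ) / t / M) := by
    have h2 : ∀ c, hf (e0 K) (Ps η (e0 K) (rp K c)) ((Ideal.absNorm (rp K c) : ℝ)⁻¹ * t) =
        κ * (((Ideal.absNorm (rp K c) : ℝ) / t : ℝ) : ℂ) *
          hf (e0 K) (rz (FT (Dd K) m (Ps η (e0 K) (rp K c)))) ((Ideal.absNorm (rp K c) : ℝ) / t / M) +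
        (κ / t * G00 (e0 K)) * ((Ideal.absNorm (rp K c) : ℂ) *
          FT (Dd K) m (Ps η (e0 K) (rp K c)) 0) := by
      intro c
      have hN := one_le_rp c
      have h3 := hV (e0 K) he0 (fun _ _ => rfl) _ 1 (hPs c) (hη.nice (rp_ne_bot c)).unit m (Dd K) hm0
        Dd_pos Dd_mem (hη.per_m (rp_ne_bot c) (hm ▸ mm_mem _ _ c))
        ((Ideal.absNorm (rp K c) : ℝ) / t) (by positivity)
      have h4 : 1 / ((Ideal.absNorm (rp K c) : ℝ) / t) = (Ideal.absNorm (rp K c) : ℝ)⁻¹ * t := by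
        field_simp
      rw [h4, ← hn, ← hM, hn, ← hκ] at h3
      rw [h3, hf_rz he0 (hFT c) ((Ideal.absNorm (rp K c) : ℝ) / t / M)]
      push_cast
      ring
    unfold Ftot
    simp_rw [h2]
    have h5 := hη.const_zero hn1 (D := Dd K)
    rw [← hm] at h5
    rw [Finset.sum_add_distrib, ← Finset.mul_sum, mul_assoc (κ / t), h5, mul_zero, add_zero]
  rw [h1]
  have h5 : ∀ c, ‖κ * (((Ideal.absNorm (rp K c) : ℝ) / t : ℝ) : ℂ) *
      hf (e0 K) (rz (FT (Dd K) m (Ps η (e0 K) (rp K c)))) ((Ideal.absNorm (rp K c) : ℝ) / t / M)‖ ≤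
      V⁻¹ * C * M ^ 3 * t ^ 2 := by
    intro c
    have hN := one_le_rp c
    generalize (Ideal.absNorm (rp K c) : ℝ) = N at hN ⊢
    have hN0 : 0 < N := by linarith
    rw [norm_mul, norm_mul, hκn, Complex.norm_real, Real.norm_of_nonneg (by positivity)]
    have h6 := norm_hf_le (K := K) (norm_rz_le (hFT c)) (rz_zero _) (N / t / M)
    have h7 := (hH (N / t / M) (by positivity)).2
    calc V⁻¹ * ((m : ℝ) ^ n)⁻¹ * (N / t) *
        ‖hf (e0 K) (rz (FT (Dd K) m (Ps η (e0 K) (rp K c)))) (N / t / M)‖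
        ≤ V⁻¹ * ((m : ℝ) ^ n)⁻¹ * (N / t) * ((m : ℝ) ^ n * (C / (N / t / M) ^ 3)) := by
          gcongr
          exact h6.trans (by gcongr)
      _ = V⁻¹ * C * M ^ 3 * t ^ 2 * (N ^ 2)⁻¹ := by
          field_simp
      _ ≤ V⁻¹ * C * M ^ 3 * t ^ 2 * 1 := by
          gcongr
          exact inv_le_one_of_one_le₀ (one_le_pow₀ hN)
      _ = _ := mul_one _
  refine (norm_sum_le _ _).trans ((Finset.sum_le_sum fun c _ => h5 c).trans ?_)
  rw [Finset.sum_const, Finset.card_univ, ← hq, nsmul_eq_mul]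
  have h8 : M = (P * Dd K) ^ n * ((Ideal.absNorm 𝔪 : ℝ) ^ (q * n)) := by
    rw [hM]
    push_cast
    rw [hmP, pow_mul]
    ring
  have h9 : M ^ 3 = ((P * Dd K) ^ n) ^ 3 * (Ideal.absNorm 𝔪 : ℝ) ^ (q * n * 3) := by
    rw [h8, mul_pow, ← pow_mul (Ideal.absNorm 𝔪 : ℝ)]
  rw [h9]
  have h10 : 0 ≤ (Ideal.absNorm 𝔪 : ℝ) ^ (q * n * 3) * t ^ 2 := by positivity
  nlinarith [h10]

/-- interpolation -/
lemma interp {x a b θ : ℝ} (hx : 0 ≤ x) (h1 : x ≤ a) (h2 : x ≤ b) (h0 : 0 ≤ θ) (hθ : θ ≤ 1) :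
    x ≤ a ^ (1 - θ) * b ^ θ := by
  calc x = x ^ (1 - θ) * x ^ θ := by
        rcases eq_or_lt_of_le hx with h | h
        · rw [← h]
          rcases eq_or_lt_of_le h0 with h3 | h3
          · rw [← h3]; simp
          · rw [Real.zero_rpow h3.ne', mul_zero]
        · rw [← Real.rpow_add h]; simp
    _ ≤ _ := by
      have h3 : 0 ≤ 1 - θ := by linarith
      have h4 : 0 ≤ a := hx.trans h1
      gcongr

/-- the bound for the Mellin transform -/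
lemma mellin_bound {F : ℝ → ℂ} {C A R : ℝ} {E : ℕ} (hC : 1 ≤ C) (hA : 1 ≤ A) (hR : 1 ≤ R)
    (h1 : ∀ t : ℝ, 0 < t → ‖F t‖ ≤ C / t ∧ ‖F t‖ ≤ C / t ^ 3)
    (h2 : ∀ t : ℝ, 0 < t → ‖F t‖ ≤ A * R ^ E * t ^ 2) {s : ℝ} (hs : 1 < s) (hs2 : s ≤ 2)
    (hm : MellinConvergent F s) :
    ‖mellin F s‖ ≤ (C * A * Real.exp E + C) * (1 + Real.log R) := by
  have hL : 0 ≤ Real.log R := Real.log_nonneg hR
  obtain ⟨L, hLd⟩ : ∃ L, L = Real.log R := ⟨_, rfl⟩
  rw [← hLd] at hL ⊢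
  obtain ⟨θ, hθ⟩ : ∃ θ : ℝ, θ = 1 / (1 + L) := ⟨_, rfl⟩
  have hθ0 : 0 < θ := by rw [hθ]; positivity
  have hθ1 : θ ≤ 1 := by
    rw [hθ, div_le_one (by positivity)]
    linarith
  have hR0 : 0 < R := by linarith
  have hRE : (R ^ E : ℝ) ^ θ ≤ Real.exp E := by
    rw [← Real.rpow_natCast, ← Real.rpow_mul hR0.le, Real.rpow_def_of_pos hR0, ← hLd]
    apply Real.exp_le_exp.mpr
    rw [hθ]
    have : L * (E * (1 / (1 + L))) = E * (L / (1 + L)) := by field_simp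
    rw [this]
    have h3 : L / (1 + L) ≤ 1 := by
      rw [div_le_one (by positivity)]
      linarith
    calc (E : ℝ) * (L / (1 + L)) ≤ E * 1 := by gcongr
      _ = E := mul_one _
  -- the pointwise bounds
  have hb1 : ∀ t ∈ Ioc (0 : ℝ) 1, ‖(t : ℂ) ^ ((s : ℂ) - 1) • F t‖ ≤
      C * A * Real.exp E * t ^ (3 * θ - 1) := by
    intro t ht
    have ht0 : 0 < t := ht.1
    have h3 : ‖(t : ℂ) ^ ((s : ℂ) - 1)‖ ≤ 1 := by
      rw [Complex.norm_cpow_eq_rpow_re_of_pos ht0]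
      refine Real.rpow_le_one ht0.le ht.2 ?_
      simp
      linarith
    have h4 := interp (norm_nonneg (F t)) (h1 t ht0).1 (h2 t ht0) hθ0.le hθ1
    rw [norm_smul]
    calc ‖(t : ℂ) ^ ((s : ℂ) - 1)‖ * ‖F t‖ ≤ 1 * ((C / t) ^ (1 - θ) * (A * R ^ E * t ^ 2) ^ θ) := by
          gcongr
      _ = (C ^ (1 - θ) * A ^ θ * (R ^ E) ^ θ) * (t ^ (3 * θ - 1)) := by
          have hA0 : 0 ≤ A := by linarith
          have hC0 : 0 ≤ C := by linarith
          rw [one_mul, Real.mul_rpow (by positivity) (by positivity),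
            Real.mul_rpow hA0 (by positivity), Real.div_rpow hC0 ht0.le]
          have e1 : (t ^ 2 : ℝ) ^ θ = t ^ (2 * θ) := by
            rw [← Real.rpow_natCast, ← Real.rpow_mul ht0.le]
            norm_num
          have e2 : t ^ (3 * θ - 1) = t ^ (2 * θ) * (t ^ (1 - θ))⁻¹ := by
            rw [← Real.rpow_neg ht0.le, ← Real.rpow_add ht0]
            congr 1
            ring
          rw [e1, e2]
          ring
      _ ≤ (C * A * Real.exp E) * (t ^ (3 * θ - 1)) := by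
          have e3 : C ^ (1 - θ) ≤ C := by
            calc C ^ (1 - θ) ≤ C ^ (1 : ℝ) := Real.rpow_le_rpow_of_exponent_le hC (by linarith)
              _ = C := Real.rpow_one C
          have e4 : A ^ θ ≤ A := by
            calc A ^ θ ≤ A ^ (1 : ℝ) := Real.rpow_le_rpow_of_exponent_le hA hθ1
              _ = A := Real.rpow_one A
          gcongr
  have hb2 : ∀ t ∈ Ioi (1 : ℝ), ‖(t : ℂ) ^ ((s : ℂ) - 1) • F t‖ ≤ C * t ^ (-2 : ℝ) := by
    intro t ht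
    have ht1 : 1 < t := ht
    have ht0 : 0 < t := by linarith
    rw [norm_smul, Complex.norm_cpow_eq_rpow_re_of_pos ht0]
    have h3 : t ^ ((s : ℂ) - 1).re ≤ t := by
      calc t ^ ((s : ℂ) - 1).re ≤ t ^ (1 : ℝ) := by
            refine Real.rpow_le_rpow_of_exponent_le ht1.le ?_
            simp
            linarith
        _ = t := Real.rpow_one t
    calc t ^ ((s : ℂ) - 1).re * ‖F t‖ ≤ t * (C / t ^ 3) := by
          gcongr
          exact (h1 t ht0).2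
      _ = C * t ^ (-2 : ℝ) := by
          rw [Real.rpow_neg ht0.le]
          have : t ^ (2 : ℝ) = t ^ 2 := by exact_mod_cast Real.rpow_natCast t 2
          rw [this]
          field_simp
  have hint : IntegrableOn (fun t : ℝ => (t : ℂ) ^ ((s : ℂ) - 1) • F t) (Ioi 0) := hm
  have hi1 : IntegrableOn (fun t : ℝ => (t : ℂ) ^ ((s : ℂ) - 1) • F t) (Ioc 0 1) :=
    hint.mono_set Ioc_subset_Ioi_self
  have hi2 : IntegrableOn (fun t : ℝ => (t : ℂ) ^ ((s : ℂ) - 1) • F t) (Ioi 1) :=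
    hint.mono_set (Ioi_subset_Ioi zero_le_one)
  have hsplit : mellin F s = (∫ t in Ioc (0 : ℝ) 1, (t : ℂ) ^ ((s : ℂ) - 1) • F t) +
      ∫ t in Ioi (1 : ℝ), (t : ℂ) ^ ((s : ℂ) - 1) • F t := by
    unfold mellin
    rw [← setIntegral_union (Ioc_disjoint_Ioi le_rfl) measurableSet_Ioi hi1 hi2,
      Ioc_union_Ioi_eq_Ioi zero_le_one]
  rw [hsplit]
  refine (norm_add_le _ _).trans ?_
  have hg1 : IntegrableOn (fun t : ℝ => C * A * Real.exp E * t ^ (3 * θ - 1)) (Ioc 0 1) := by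
    refine Integrable.const_mul ?_ _
    have := intervalIntegral.intervalIntegrable_rpow' (a := 0) (b := 1) (r := 3 * θ - 1) (by linarith)
    rwa [intervalIntegrable_iff_integrableOn_Ioc_of_le zero_le_one] at this
  have hg2 : IntegrableOn (fun t : ℝ => C * t ^ (-2 : ℝ)) (Ioi 1) :=
    (integrableOn_Ioi_rpow_of_lt (by norm_num) one_pos).const_mul _
  have hn1 : ‖∫ t in Ioc (0 : ℝ) 1, (t : ℂ) ^ ((s : ℂ) - 1) • F t‖ ≤
      C * A * Real.exp E * (1 / (3 * θ)) := by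
    refine (norm_integral_le_of_norm_le hg1
      ((ae_restrict_iff' measurableSet_Ioc).mpr (Eventually.of_forall hb1))).trans (le_of_eq ?_)
    rw [integral_const_mul, ← intervalIntegral.integral_of_le zero_le_one,
      integral_rpow (Or.inl (by linarith))]
    congr 1
    rw [Real.one_rpow, Real.zero_rpow (by linarith)]
    ring
  have hn2 : ‖∫ t in Ioi (1 : ℝ), (t : ℂ) ^ ((s : ℂ) - 1) • F t‖ ≤ C := by
    refine (norm_integral_le_of_norm_le hg2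
      ((ae_restrict_iff' measurableSet_Ioi).mpr (Eventually.of_forall hb2))).trans (le_of_eq ?_)
    rw [integral_const_mul, integral_Ioi_rpow_of_lt (by norm_num) one_pos]
    norm_num
  have h5 : 1 / (3 * θ) ≤ 1 + L := by
    rw [hθ]
    have : 1 / (3 * (1 / (1 + L))) = (1 + L) / 3 := by field_simp
    rw [this]
    linarith
  have h6 : 0 ≤ C * A * Real.exp E := by positivity
  nlinarith [mul_le_mul_of_nonneg_left h5 h6]

theorem t_LU : S_LU := by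
  intro K _ _
  obtain ⟨c, hc, hmel⟩ := mellin_Ftot K
  obtain ⟨C1, hC1, hF1⟩ := Ftot_bound K
  obtain ⟨C2, E, hC2, hF2⟩ := Ftot_small K
  -- the gamma factors
  obtain ⟨G, hG⟩ := (isCompact_Icc (a := (1 : ℝ)) (b := 2)).exists_bound_of_continuousOn
    (f := fun s : ℝ => ∏ φ : K →+* ℂ, (Complex.Gammaℝ ((s : ℂ) + ex (e0 K) φ))⁻¹)
    (((differentiable_gam (K := K) (ex (e0 K))).continuous.comp
      Complex.continuous_ofReal).continuousOn)
  obtain ⟨C, hCd⟩ : ∃ C : ℝ, C = max C1 1 := ⟨_, rfl⟩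
  obtain ⟨A, hAd⟩ : ∃ A : ℝ, A = max C2 1 := ⟨_, rfl⟩
  have hC : 1 ≤ C := hCd ▸ le_max_right _ _
  have hA : 1 ≤ A := hAd ▸ le_max_right _ _
  have hC1C : C1 ≤ C := hCd ▸ le_max_left _ _
  have hC2A : C2 ≤ A := hAd ▸ le_max_left _ _
  obtain ⟨T, hT⟩ : ∃ T : ℝ, T = c⁻¹ * |G| * (C * A * Real.exp E + C) := ⟨_, rfl⟩
  have hT0 : 0 ≤ T := by rw [hT]; positivity
  refine ⟨T + 1, by positivity, fun 𝔪 η hη hn s hs1 hs2 => ?_⟩
  have hN : (1 : ℝ) ≤ (Ideal.absNorm 𝔪 : ℝ) := by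
    have : Ideal.absNorm 𝔪 ≠ 0 := by
      rw [Ne, Ideal.absNorm_eq_zero_iff]
      exact hη.ne_bot
    exact_mod_cast Nat.one_le_iff_ne_zero.mpr this
  have hNice : ∀ c, Nice (e0 K) (Ps η (e0 K) (rp K c)) := fun c => hη.nice (rp_ne_bot c)
  have hs' : 1 < (s : ℂ).re := by simpa using hs1
  obtain ⟨hm, hmeq⟩ := hmel (rp K) reps_rp (e0 K) η hη.norm_le_one hNice (s : ℂ) hs'
  have hb := mellin_bound (F := Ftot η (e0 K) (rp K)) (R := (Ideal.absNorm 𝔪 : ℝ)) (E := E) hC hA hN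
    (fun t ht => ⟨((hF1 𝔪 η hη t ht).1).trans (by gcongr), ((hF1 𝔪 η hη t ht).2).trans (by gcongr)⟩)
    (fun t ht => (hF2 𝔪 η hη hn t ht).trans (by gcongr)) hs1 hs2 hm
  have h3 := gam_ne_zero (K := K) (ex (e0 K)) (s := (s : ℂ)) (by linarith)
  have hc' : (c : ℂ) ≠ 0 := by exact_mod_cast hc.ne'
  have h4 : LI η (s : ℂ) = (c : ℂ)⁻¹ * (∏ φ : K →+* ℂ, (Complex.Gammaℝ ((s : ℂ) + ex (e0 K) φ))⁻¹) *
      mellin (Ftot η (e0 K) (rp K)) s := by
    rw [hmeq, Finset.prod_inv_distrib]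
    field_simp
  have hL : 0 ≤ Real.log (Ideal.absNorm 𝔪 : ℝ) := Real.log_nonneg hN
  rw [h4, norm_mul, norm_mul, norm_inv, Complex.norm_real, Real.norm_of_nonneg hc.le]
  have h5 := (hG s ⟨hs1.le, hs2⟩).trans (le_abs_self G)
  calc c⁻¹ * ‖∏ φ : K →+* ℂ, (Complex.Gammaℝ ((s : ℂ) + ex (e0 K) φ))⁻¹‖ *
        ‖mellin (Ftot η (e0 K) (rp K)) s‖
      ≤ c⁻¹ * |G| * ((C * A * Real.exp E + C) * (1 + Real.log (Ideal.absNorm 𝔪 : ℝ))) := by
        gcongr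
    _ = T * (1 + Real.log (Ideal.absNorm 𝔪 : ℝ)) := by rw [hT]; ring
    _ ≤ (T + 1) * (1 + Real.log (Ideal.absNorm 𝔪 : ℝ)) ^ (T + 1) := by
        have h6 : (1 + Real.log (Ideal.absNorm 𝔪 : ℝ)) ≤
            (1 + Real.log (Ideal.absNorm 𝔪 : ℝ)) ^ (T + 1) := by
          calc (1 + Real.log (Ideal.absNorm 𝔪 : ℝ)) =
              (1 + Real.log (Ideal.absNorm 𝔪 : ℝ)) ^ (1 : ℝ) := (Real.rpow_one _).symm
            _ ≤ _ := Real.rpow_le_rpow_of_exponent_le (by linarith) (by linarith)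
        have h7 : 0 ≤ 1 + Real.log (Ideal.absNorm 𝔪 : ℝ) := by linarith
        exact mul_le_mul (by linarith) h6 h7 (by linarith)

end Pool.Agent.T3h73.SD.LU
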