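import Pool.Agent.T3h73.SD.Stm4

/-! Project SD, task LZ (helper85): large sets `S`. -/

set_option autoImplicit false
set_option linter.all false

namespace Pool.Agent.T3h73.SD.LZ

open NumberField IsDedekindDomain Filter Topology
open Pool.Agent.T3h73.SL (Pl IsP Pk loc Good2 LC Sg)
open Pool.Agent.Y713.SE (Pw)

lemma exists_pl (K : Type) [Field K] [NumberField K] : Nonempty (Pl K) := by
  obtain ⟨M, hM⟩ := Ideal.exists_maximal (𝓞 K)
  have h : M ≠ ⊥ := Ring.ne_bot_of_isMaximal_of_not_isField hM (RingOfIntegers.not_isField K)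
  exact ⟨⟨M, hM.isPrime, h⟩⟩

/-- the right argument of the symbol as a homomorphism -/
noncomputable def svr {ℓ : ℕ} {K : Type} [Field K] [NumberField K]
    {sv : Pl K → Kˣ → Kˣ → ZMod ℓ} (h : Sv ℓ K sv) (v : Pl K) (x : Kˣ) :
    Kˣ →* Multiplicative (ZMod ℓ) :=
  MonoidHom.mk' (fun y => Multiplicative.ofAdd (sv v x y)) (fun y y' => by
    show Multiplicative.ofAdd (sv v x (y * y')) = _
    rw [h.mul_right]
    rfl)

lemma svr_one {ℓ : ℕ} {K : Type} [Field K] [NumberField K]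
    {sv : Pl K → Kˣ → Kˣ → ZMod ℓ} (h : Sv ℓ K sv) (v : Pl K) (x y : Kˣ) :
    svr h v x y = 1 ↔ sv v x y = 0 := Iff.rfl

lemma inj {ℓ : ℕ} (hℓ : ℓ.Prime) {K : Type} [Field K] [NumberField K]
    {sv : Pl K → Kˣ → Kˣ → ZMod ℓ} (h : Sv ℓ K sv) {S : Finset (Pl K)}
    (hS : ∀ v : Pl K, v.valuation K (ℓ : K) ≠ 1 → v ∈ S)
    (hgen : ∀ m : Pl K → ℤ, {v | m v ≠ 0}.Finite →
      ∃ x : Kˣ, ∀ v, v ∉ S → v.valuation K (x : K) = WithZero.exp (-(m v)))
    (hLG : ∀ y : Kˣ, (∀ v : Pl K, IsP ℓ (loc v y)) → IsP ℓ y)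
    (x : Kˣ) (hx : ∀ v ∈ S, IsP ℓ (loc v x)) (hx' : ∀ v, v ∉ S → Pw ℓ (v.valuation K (x : K))) :
    IsP ℓ x := by
  classical
  refine hLG x fun q => ?_
  by_cases hq : q ∈ S
  · exact hx q hq
  apply h.nd
  intro y''
  have hqℓ : q.valuation K (ℓ : K) = 1 := by
    by_contra hc
    exact hq (hS q hc)
  obtain ⟨y, hy⟩ := hgen (fun v => if v = q then 1 else 0) (by
    refine (Set.finite_singleton q).subset fun v hv => ?_
    by_contra hc
    rw [Set.mem_singleton_iff] at hc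
    exact hv (if_neg hc))
  have hyq : q.valuation K (y : K) = WithZero.exp (-1 : ℤ) := by
    have := hy q hq
    rwa [if_pos rfl] at this
  -- the symbol with y
  have h1 : sv q x y = 0 := by
    have h2 := h.prod (insert q S) (fun v hv => Finset.mem_insert_of_mem (hS v hv)) x y (by
      intro v hv
      rw [Finset.mem_insert, not_or] at hv
      refine ⟨hx' v hv.2, ?_⟩
      rw [hy v hv.2, if_neg hv.1, neg_zero, WithZero.exp_zero]
      exact Pw.one)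
    rw [Finset.sum_insert hq, Finset.sum_eq_zero (fun v hv => h.pow_left v x y (hx v hv)),
      add_zero] at h2
    exact h2
  have h0 : q.valuation K (y'' : K) ≠ 0 := (Valuation.ne_zero_iff _).2 y''.ne_zero
  set n : ℤ := -(WithZero.log (q.valuation K (y'' : K))) with hn
  have hyy : q.valuation K (y'' : K) = WithZero.exp (-n) := by
    rw [hn, neg_neg, WithZero.exp_log h0]
  have h3 : q.valuation K ((y'' * (y ^ n)⁻¹ : Kˣ) : K) = 1 := by
    rw [Units.val_mul, Units.val_inv_eq_inv_val, Units.val_zpow_eq_zpow_val, map_mul, map_inv₀,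
      map_zpow₀, hyy, hyq, ← WithZero.exp_zsmul, ← WithZero.exp_neg, ← WithZero.exp_add]
    rw [show -n + -(n • (-1 : ℤ)) = 0 by simp, WithZero.exp_zero]
  have h4 : sv q x (y'' * (y ^ n)⁻¹) = 0 := h.unr q hqℓ _ _ (hx' q hq) (by
    rw [h3]; exact Pw.one)
  have h5 : svr h q x y'' = svr h q x (y'' * (y ^ n)⁻¹) * svr h q x y ^ n := by
    rw [← map_zpow, ← map_mul, inv_mul_cancel_right]
  rw [← svr_one h, h5, (svr_one h _ _ _).2 h4, (svr_one h _ _ _).2 h1, one_zpow, one_mul]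

lemma card_image {ℓ : ℕ} {K : Type} [Field K] [NumberField K] {S : Finset (Pl K)}
    (hinj : ∀ x : Kˣ, (∀ v ∈ S, IsP ℓ (loc v x)) →
      (∀ v, v ∉ S → Pw ℓ (v.valuation K (x : K))) → IsP ℓ x)
    {V : Type} {cl : Kˣ → V} (hcl : ∀ x y, cl x = cl y ↔ ∀ v ∈ S, IsP ℓ (loc v (x * y⁻¹))) :
    (cl '' (Sg ℓ S (fun _ => ⊤) : Set Kˣ)).ncard = LT ℓ S := by
  have key : ∀ a b : Sg ℓ S (fun _ : Pl K => (⊤ : Subgroup _)),
      a⁻¹ * b ∈ (Pk ℓ Kˣ).subgroupOf (Sg ℓ S (fun _ => ⊤)) ↔ cl a = cl b := by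
    intro a b
    rw [Subgroup.mem_subgroupOf, hcl]
    constructor
    · rintro ⟨z, hz⟩ v hv
      have hz' : z ^ ℓ = (a : Kˣ)⁻¹ * (b : Kˣ) := hz
      refine ⟨loc v z⁻¹, ?_⟩
      rw [← map_pow, inv_pow, hz']
      congr 1
      rw [mul_inv, inv_inv]
    · intro h
      obtain ⟨z, hz⟩ := hinj ((a : Kˣ) * (b : Kˣ)⁻¹) h (fun v hv => by
        exact ((a * b⁻¹ : Sg ℓ S (fun _ : Pl K => (⊤ : Subgroup _))).2).2 v hv)
      refine ⟨z⁻¹, ?_⟩
      show z⁻¹ ^ ℓ = (a : Kˣ)⁻¹ * (b : Kˣ)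
      rw [inv_pow, ← hz, mul_inv, inv_inv]
  let F : (Sg ℓ S (fun _ : Pl K => (⊤ : Subgroup _))) ⧸
      (Pk ℓ Kˣ).subgroupOf (Sg ℓ S (fun _ => ⊤)) →
      ↥(cl '' (Sg ℓ S (fun _ => ⊤) : Set Kˣ)) :=
    Quotient.lift (fun x => ⟨cl x, x, x.2, rfl⟩) (fun a b hab => by
      apply Subtype.ext
      exact (key a b).1 (QuotientGroup.leftRel_apply.1 hab))
  have hF : Function.Bijective F := by
    constructor
    · intro a b
      induction a using QuotientGroup.induction_on with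
      | H a =>
        induction b using QuotientGroup.induction_on with
        | H b =>
          intro h
          exact QuotientGroup.eq.2 ((key a b).2 (congrArg Subtype.val h))
    · rintro ⟨_, x, hx, rfl⟩
      exact ⟨QuotientGroup.mk ⟨x, hx⟩, rfl⟩
  have h1 := Nat.card_eq_of_bijective F hF
  show (cl '' (Sg ℓ S (fun _ => ⊤) : Set Kˣ)).ncard =
    Nat.card ((Sg ℓ S (fun _ => ⊤) : Subgroup Kˣ) ⧸ (Pk ℓ Kˣ).subgroupOf (Sg ℓ S (fun _ => ⊤)))
  rw [h1]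
  rfl

theorem t_LZ (hCARD : S_CARD) (hSV : S_SV) (hLGP : S_LGP) : S_LZ := by
  intro ℓ hℓ hℓ2 K _ _ ζ hζ
  classical
  obtain ⟨T₁, hT₁, hT₂⟩ := hCARD ℓ hℓ hℓ2 K ζ hζ
  obtain ⟨v₀⟩ := exists_pl K
  obtain ⟨sv, hsv⟩ := hSV ℓ hℓ hℓ2 K ζ hζ
  refine ⟨insert v₀ T₁, fun S hS => ?_⟩
  have hTS : T₁ ⊆ S := (Finset.subset_insert _ _).trans hS
  have hℓS : ∀ v : Pl K, v.valuation K (ℓ : K) ≠ 1 → v ∈ S := fun v hv => hTS (hT₁ v hv)
  obtain ⟨hgen, hne, hcard⟩ := hT₂ S hTS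
  have hinj := inj hℓ hsv hℓS hgen (hLGP ℓ hℓ K ζ hζ)
  refine ⟨⟨v₀, hS (Finset.mem_insert_self _ _)⟩, hℓS, hgen, hinj, fun V cl hcl => ?_⟩
  rw [card_image hinj hcl, hcard]

end Pool.Agent.T3h73.SD.LZ
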