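import Pool.Agent.T3h73.SD.Stm3

/-!
# MAINU: the contribution of a maximal unlinked set (helper71)

With `x⁰ + X` the maximal unlinked set and `x^a = (c^a, κ^a)` a basis of `X`, the conditions mean
`(-w̃, π z̃) = ∑ λ_a ⊗ x^a` with `λ_a ∈ L0`; translation by elements of `LL ∩ L1` shows that only the
`w̃` with values in `M = π(LL)` contribute, and then the phase is zero.
-/

set_option autoImplicit false
set_option linter.all false

open NumberField IsDedekindDomain Filter Topology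

namespace Pool.Agent.T3h73.SD.MAINU

lemma ee_eq (ℓ : ℕ) [NeZero ℓ] (a : ZMod ℓ) : ee ℓ a = ZMod.stdAddChar a := by
  rw [ZMod.stdAddChar_apply, ZMod.toCircle_apply]
  rfl

lemma ee_add (ℓ : ℕ) [NeZero ℓ] (a b : ZMod ℓ) : ee ℓ (a + b) = ee ℓ a * ee ℓ b := by
  rw [ee_eq, ee_eq, ee_eq, AddChar.map_add_eq_mul]

lemma ee_zero (ℓ : ℕ) [NeZero ℓ] : ee ℓ 0 = 1 := by
  rw [ee_eq, AddChar.map_zero_eq_one]

lemma ee_ne_one {ℓ : ℕ} [NeZero ℓ] {a : ZMod ℓ} (ha : a ≠ 0) : ee ℓ a ≠ 1 := by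
  rw [ee_eq]
  intro h
  apply ha
  have := ZMod.injective_stdAddChar (N := ℓ) (a₁ := a) (a₂ := 0) (by
    rw [h, AddChar.map_zero_eq_one])
  exact this

section lin
variable {ℓ : ℕ} [Fact ℓ.Prime] {V : Type} [AddCommGroup V] [Module (ZMod ℓ) V]
  {ψ : V →ₗ[ZMod ℓ] V →ₗ[ZMod ℓ] ZMod ℓ} {L0 L1 LL : Submodule (ZMod ℓ) V}
  {π : V →ₗ[ZMod ℓ] L0} {u : L0} {d1 : V}

lemma anti (h : Lin ℓ V ψ L0 L1 LL π u d1) (x y : V) : ψ x y = - ψ y x := by
  have h1 := h.alt (x + y)
  simp only [map_add, LinearMap.add_apply, h.alt, zero_add, add_zero] at h1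
  exact eq_neg_of_add_eq_zero_right (by rw [add_comm] at h1; rw [add_comm]; exact h1)

lemma pi_L1 (h : Lin ℓ V ψ L0 L1 LL π u d1) {x : V} (hx : x ∈ L1) : π x = 0 := by
  have h1 := h.proj x
  have h2 : (π x : V) ∈ L1 := by
    have := L1.sub_mem hx h1
    simpa using this
  have h3 := Submodule.disjoint_def.mp h.compl.disjoint _ (π x).2 h2
  exact_mod_cast h3

lemma pi_L0 (h : Lin ℓ V ψ L0 L1 LL π u d1) (x : L0) : π (x : V) = x := by
  have h1 := h.proj x
  have h2 : (x : V) - (π (x : V) : V) ∈ L0 := L0.sub_mem x.2 (π (x : V)).2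
  have h3 := Submodule.disjoint_def.mp h.compl.disjoint _ h2 h1
  exact (Subtype.ext (sub_eq_zero.mp h3)).symm

/-- pairing with `L1` -/
lemma psi_L1 (h : Lin ℓ V ψ L0 L1 LL π u d1) (x : V) {y : V} (hy : y ∈ L1) :
    ψ x y = ψ (π x : V) y := by
  have h1 := h.iso1 _ (h.proj x) y hy
  rw [map_sub, LinearMap.sub_apply, sub_eq_zero] at h1
  exact h1

/-- the Lagrangian subspaces are their own orthogonals -/
lemma orth [Finite V] (h : Lin ℓ V ψ L0 L1 LL π u d1) (w : L0)
    (hw : ∀ y : V, y ∈ LL → y ∈ L1 → ψ y (w : V) = 0) : ∃ l : V, l ∈ LL ∧ π l = w := by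
  classical
  have hfin : Module.Finite (ZMod ℓ) V := Module.Finite.of_finite
  let B : LinearMap.BilinForm (ZMod ℓ) V := ψ
  have hrefl : B.IsRefl := by
    intro x y hxy
    have : ψ y x = - ψ x y := anti h y x
    change ψ y x = 0
    have h0 : ψ x y = 0 := hxy
    rw [this, h0, neg_zero]
  have hnd : B.Nondegenerate := by
    refine ⟨fun x hx => h.nd x hx, fun x hx => h.nd x fun y => ?_⟩
    rw [anti h x y]
    have : ψ y x = 0 := hx y
    rw [this, neg_zero]
  have hle : ∀ L : Submodule (ZMod ℓ) V, (∀ x ∈ L, ∀ y ∈ L, ψ x y = 0) → L ≤ B.orthogonal L := by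
    intro L hL x hx
    rw [LinearMap.BilinForm.mem_orthogonal_iff]
    exact fun n hn => hL n hn x hx
  have hfr : ∀ L : Submodule (ZMod ℓ) V, Module.finrank (ZMod ℓ) (B.orthogonal L) =
      Module.finrank (ZMod ℓ) V - Module.finrank (ZMod ℓ) L := fun L =>
    LinearMap.BilinForm.finrank_orthogonal hnd L
  have hsum := Submodule.finrank_add_eq_of_isCompl h.compl
  have hleV : ∀ L : Submodule (ZMod ℓ) V, Module.finrank (ZMod ℓ) L ≤ Module.finrank (ZMod ℓ) V :=
    fun L => Submodule.finrank_le L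
  have h0 := Submodule.finrank_mono (hle L0 h.iso0)
  have h1 := Submodule.finrank_mono (hle L1 h.iso1)
  rw [hfr] at h0 h1
  have hLL : Module.finrank (ZMod ℓ) LL = Module.finrank (ZMod ℓ) L0 := by
    have h2 := h.card
    rw [Module.natCard_eq_pow_finrank (K := ZMod ℓ), Module.natCard_eq_pow_finrank (K := ZMod ℓ)
      (V := L0), Nat.card_zmod] at h2
    exact Nat.pow_right_injective (Fact.out : ℓ.Prime).two_le h2
  have oL : B.orthogonal LL = LL := by
    refine (Submodule.eq_of_le_of_finrank_eq (hle LL h.isoL) ?_).symm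
    rw [hfr]
    have := hleV LL
    omega
  have o1 : B.orthogonal L1 = L1 := by
    refine (Submodule.eq_of_le_of_finrank_eq (hle L1 h.iso1) ?_).symm
    rw [hfr]
    have := hleV LL
    omega
  have h3 : B.orthogonal (LL ⊔ L1) ≤ LL ⊓ L1 := by
    intro x hx
    rw [LinearMap.BilinForm.mem_orthogonal_iff] at hx
    have hx1 : x ∈ LL := by
      rw [← oL, LinearMap.BilinForm.mem_orthogonal_iff]
      exact fun n hn => hx n (Submodule.mem_sup_left hn)
    have hx2 : x ∈ L1 := by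
      rw [← o1, LinearMap.BilinForm.mem_orthogonal_iff]
      exact fun n hn => hx n (Submodule.mem_sup_right hn)
    exact ⟨hx1, hx2⟩
  have h4 : (w : V) ∈ B.orthogonal (LL ⊓ L1) := by
    rw [LinearMap.BilinForm.mem_orthogonal_iff]
    exact fun n hn => hw n hn.1 hn.2
  have h5 : (w : V) ∈ LL ⊔ L1 := by
    rw [← LinearMap.BilinForm.orthogonal_orthogonal hnd hrefl (LL ⊔ L1)]
    rw [LinearMap.BilinForm.mem_orthogonal_iff] at h4 ⊢
    exact fun n hn => h4 n (h3 hn)
  obtain ⟨l, hl, l1, hl1, hll⟩ := Submodule.mem_sup.mp h5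
  refine ⟨l, hl, ?_⟩
  rw [← pi_L0 h w, ← hll, map_add, pi_L1 h hl1, add_zero]

end lin

section col
variable {ℓ : ℕ} [Fact ℓ.Prime] {k : ℕ}

/-- the symmetric form on the colours -/
def BW (ℓ k : ℕ) [Fact ℓ.Prime] : LinearMap.BilinForm (ZMod ℓ) (Cl ℓ k) :=
  LinearMap.mk₂ (ZMod ℓ) (fun x y : Cl ℓ k => ∑ i, (x.1 i * y.2 i + y.1 i * x.2 i))
    (fun x x' y => by
      simp only [Prod.fst_add, Prod.snd_add, Pi.add_apply]
      rw [← Finset.sum_add_distrib]
      exact Finset.sum_congr rfl fun i _ => by ring)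
    (fun c x y => by
      simp only [Prod.smul_fst, Prod.smul_snd, Pi.smul_apply, smul_eq_mul]
      rw [Finset.mul_sum]
      exact Finset.sum_congr rfl fun i _ => by ring)
    (fun x y y' => by
      simp only [Prod.fst_add, Prod.snd_add, Pi.add_apply]
      rw [← Finset.sum_add_distrib]
      exact Finset.sum_congr rfl fun i _ => by ring)
    (fun c x y => by
      simp only [Prod.smul_fst, Prod.smul_snd, Pi.smul_apply, smul_eq_mul]
      rw [Finset.mul_sum]
      exact Finset.sum_congr rfl fun i _ => by ring)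

lemma BW_apply (x y : Cl ℓ k) : BW ℓ k x y = ∑ i, (x.1 i * y.2 i + y.1 i * x.2 i) := rfl

lemma BW_symm (x y : Cl ℓ k) : BW ℓ k x y = BW ℓ k y x := by
  rw [BW_apply, BW_apply]
  exact Finset.sum_congr rfl fun i _ => by ring

/-- a maximal totally isotropic subspace is its own orthogonal -/
lemma col_orth (X : Submodule (ZMod ℓ) (Cl ℓ k))
    (hX1 : ∀ x ∈ X, ∀ y ∈ X, ∑ i, (x.1 i * y.2 i + y.1 i * x.2 i) = 0)
    (hX3 : Module.finrank (ZMod ℓ) X = k) (v : Cl ℓ k)
    (hv : ∀ x ∈ X, ∑ i, (x.1 i * v.2 i + v.1 i * x.2 i) = 0) : v ∈ X := by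
  classical
  have hnd' : ∀ x : Cl ℓ k, (∀ y, BW ℓ k x y = 0) → x = 0 := by
    intro x hx
    refine Prod.ext (funext fun i => ?_) (funext fun i => ?_)
    · have := hx (0, Pi.single i 1)
      rw [BW_apply] at this
      simpa [Pi.single_apply] using this
    · have := hx (Pi.single i 1, 0)
      rw [BW_apply] at this
      simpa [Pi.single_apply] using this
  have hnd : (BW ℓ k).Nondegenerate := by
    refine ⟨fun x hx => hnd' x hx, fun x hx => hnd' x fun y => ?_⟩
    rw [BW_symm]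
    exact hx y
  have hle : X ≤ (BW ℓ k).orthogonal X := by
    intro x hx
    rw [LinearMap.BilinForm.mem_orthogonal_iff]
    exact fun n hn => hX1 n hn x hx
  have h1 : Module.finrank (ZMod ℓ) (Cl ℓ k) = k + k := by
    rw [Module.finrank_prod, Module.finrank_fintype_fun_eq_card, Fintype.card_fin]
  have h2 : (BW ℓ k).orthogonal X = X := by
    refine (Submodule.eq_of_le_of_finrank_eq hle ?_).symm
    rw [LinearMap.BilinForm.finrank_orthogonal hnd, h1, hX3]
    omega
  rw [← h2, LinearMap.BilinForm.mem_orthogonal_iff]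
  exact fun n hn => hv n hn

/-- coordinates for a subspace of the colours -/
lemma col_coord (X : Submodule (ZMod ℓ) (Cl ℓ k)) (hX3 : Module.finrank (ZMod ℓ) X = k) :
    ∃ (x : Fin k → Cl ℓ k) (A A' : Fin k → Fin k → ZMod ℓ), (∀ a, x a ∈ X) ∧
      (∀ v ∈ X, v = ∑ a, (∑ i, (A a i * v.1 i + A' a i * v.2 i)) • x a) ∧
      ∀ a b, ∑ i, (A a i * (x b).1 i + A' a i * (x b).2 i) = if a = b then 1 else 0 := by
  classical
  let b : Module.Basis (Fin k) (ZMod ℓ) X := Module.finBasisOfFinrankEq (ZMod ℓ) X hX3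
  obtain ⟨g, hg⟩ := LinearMap.exists_leftInverse_of_injective X.subtype
    (LinearMap.ker_eq_bot.mpr X.subtype_injective)
  have hg' : ∀ v : X, g (v : Cl ℓ k) = v := fun v => LinearMap.congr_fun hg v
  have hexp : ∀ v : Cl ℓ k, v = ∑ i, v.1 i • ((Pi.single i 1, 0) : Cl ℓ k) +
      ∑ i, v.2 i • ((0, Pi.single i 1) : Cl ℓ k) := by
    intro v
    refine Prod.ext (funext fun j => ?_) (funext fun j => ?_)
    · simp [Prod.fst_sum, Finset.sum_apply, Pi.single_apply]
    · simp [Prod.snd_sum, Finset.sum_apply, Pi.single_apply]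
  have hco : ∀ (a : Fin k) (v : Cl ℓ k), b.repr (g v) a =
      ∑ i, (b.repr (g (Pi.single i 1, 0)) a * v.1 i + b.repr (g (0, Pi.single i 1)) a * v.2 i) := by
    intro a v
    conv_lhs => rw [hexp v]
    simp only [map_add, map_sum, map_smul, Finsupp.add_apply, Finsupp.finsetSum_apply,
      Finsupp.smul_apply, smul_eq_mul]
    rw [← Finset.sum_add_distrib]
    exact Finset.sum_congr rfl fun i _ => by ring
  refine ⟨fun a => b a, fun a i => b.repr (g (Pi.single i 1, 0)) a,
    fun a i => b.repr (g (0, Pi.single i 1)) a, fun a => (b a).2, fun v hv => ?_, fun a c => ?_⟩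
  · simp_rw [← hco]
    have h1 := b.sum_repr (g v)
    have h2 := congrArg (fun y : X => (y : Cl ℓ k)) h1
    simp only [AddSubmonoidClass.coe_finsetSum, SetLike.val_smul] at h2
    rw [h2, hg' ⟨v, hv⟩]
  · rw [← hco a (b c), hg' (b c), b.repr_self, Finsupp.single_apply]
    simp only [eq_comm]

end col

section core
variable {ℓ : ℕ} [Fact ℓ.Prime] {V : Type} [AddCommGroup V] [Module (ZMod ℓ) V]
  {ψ : V →ₗ[ZMod ℓ] V →ₗ[ZMod ℓ] ZMod ℓ} {L0 L1 LL : Submodule (ZMod ℓ) V}
  {π : V →ₗ[ZMod ℓ] L0} {u : L0} {d1 : V} {k : ℕ}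

/-- coordinates with values in `L0` -/
lemma L0_coord (h : Lin ℓ V ψ L0 L1 LL π u d1) (X : Submodule (ZMod ℓ) (Cl ℓ k))
    (hX1 : ∀ x ∈ X, ∀ y ∈ X, ∑ i, (x.1 i * y.2 i + y.1 i * x.2 i) = 0)
    (hX3 : Module.finrank (ZMod ℓ) X = k) (x : Fin k → Cl ℓ k) (A A' : Fin k → Fin k → ZMod ℓ)
    (hv : ∀ v ∈ X, v = ∑ a, (∑ i, (A a i * v.1 i + A' a i * v.2 i)) • x a)
    (p r : Fin k → L0) (hc : ∀ y ∈ X, ∑ i, (y.1 i • r i + y.2 i • p i) = 0) :
    (∀ i, p i = ∑ a, (x a).1 i • (∑ j, (A a j • p j + A' a j • r j))) ∧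
    ∀ i, r i = ∑ a, (x a).2 i • (∑ j, (A a j • p j + A' a j • r j)) := by
  have hsep : ∀ l l' : L0, (∀ v : V, ψ (l : V) v = ψ (l' : V) v) → l = l' := by
    intro l l' hl
    have h1 := h.nd ((l : V) - l') fun y => by
      rw [map_sub, LinearMap.sub_apply, hl y, sub_self]
    exact Subtype.ext (sub_eq_zero.mp h1)
  have hmem : ∀ v : V, ((fun i => ψ (p i : V) v, fun i => ψ (r i : V) v) : Cl ℓ k) ∈ X := by
    intro v
    refine col_orth X hX1 hX3 _ fun y hy => ?_
    have h1 := congrArg (fun l : L0 => ψ (l : V) v) (hc y hy)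
    simp only [AddSubmonoidClass.coe_finsetSum, Submodule.coe_add, SetLike.val_smul, map_sum,
      LinearMap.sum_apply, map_add, map_smul, LinearMap.add_apply, LinearMap.smul_apply, smul_eq_mul,
      Submodule.coe_zero, map_zero, LinearMap.zero_apply] at h1
    simp only
    rw [← h1]
    exact Finset.sum_congr rfl fun i _ => by ring
  have hcoord : ∀ (v : V) (c : Fin k → ZMod ℓ),
      ψ ((∑ a, c a • (∑ j, (A a j • p j + A' a j • r j)) : L0) : V) v =
      ∑ a, (∑ j, (A a j * ψ (p j : V) v + A' a j * ψ (r j : V) v)) * c a := by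
    intro v c
    simp only [AddSubmonoidClass.coe_finsetSum, Submodule.coe_add, SetLike.val_smul, map_sum,
      LinearMap.sum_apply, map_add, map_smul, LinearMap.add_apply, LinearMap.smul_apply, smul_eq_mul]
    exact Finset.sum_congr rfl fun a _ => mul_comm _ _
  constructor
  · intro i
    refine hsep _ _ fun v => ?_
    have h1 := congrArg (fun w : Cl ℓ k => w.1 i) (hv _ (hmem v))
    simp only [Prod.fst_sum, Finset.sum_apply, Prod.smul_fst, Pi.smul_apply, smul_eq_mul] at h1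
    rw [h1, hcoord v fun a => (x a).1 i]
  · intro i
    refine hsep _ _ fun v => ?_
    have h1 := congrArg (fun w : Cl ℓ k => w.2 i) (hv _ (hmem v))
    simp only [Prod.snd_sum, Finset.sum_apply, Prod.smul_snd, Pi.smul_apply, smul_eq_mul] at h1
    rw [h1, hcoord v fun a => (x a).2 i]

/-- the phase is zero -/
lemma phase_zero (hℓ : ℓ ≠ 2) (h : Lin ℓ V ψ L0 L1 LL π u d1) (X : Submodule (ZMod ℓ) (Cl ℓ k))
    (hX1 : ∀ x ∈ X, ∀ y ∈ X, ∑ i, (x.1 i * y.2 i + y.1 i * x.2 i) = 0)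
    (hX3 : Module.finrank (ZMod ℓ) X = k) (w : Fin k → L0) (z : Fin k → LL)
    (hw : ∀ i, ∃ l : V, l ∈ LL ∧ π l = w i)
    (hc : ∀ y ∈ X, ∑ i, (y.1 i • π (z i : V) - y.2 i • w i) = 0) :
    ∑ i, ψ (z i : V) (w i : V) = 0 := by
  obtain ⟨x, A, A', hxX, hv, -⟩ := col_coord X hX3
  choose l hl hlw using hw
  obtain ⟨hp, hr⟩ := L0_coord h X hX1 hX3 x A A' hv (fun i => - w i) (fun i => π (z i : V))
    (fun y hy => by
      rw [← hc y hy]
      exact Finset.sum_congr rfl fun i _ => by rw [smul_neg, sub_eq_add_neg])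
  obtain ⟨lam, hlam⟩ : ∃ lam : Fin k → L0, lam = fun a =>
    ∑ j, (A a j • (- w j) + A' a j • π (z j : V)) := ⟨_, rfl⟩
  have hlam' : ∀ a, ∑ j, (A a j • (- w j) + A' a j • π (z j : V)) = lam a := fun a => by rw [hlam]
  simp_rw [hlam'] at hp hr
  -- the lifts
  obtain ⟨m, hm⟩ : ∃ m : Fin k → V, m = fun a => ∑ j, (A a j • (- l j) + A' a j • (z j : V)) :=
    ⟨_, rfl⟩
  have hmL : ∀ a, m a ∈ LL := by
    intro a
    rw [hm]
    refine Submodule.sum_mem _ fun j _ => LL.add_mem (LL.smul_mem _ (LL.neg_mem (hl j)))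
      (LL.smul_mem _ (z j).2)
  have hmπ : ∀ a, π (m a) = lam a := by
    intro a
    rw [hm, hlam]
    simp only [map_sum, map_add, map_smul, map_neg, hlw]
  have hρ : ∀ a, m a - (lam a : V) ∈ L1 := fun a => by rw [← hmπ]; exact h.proj _
  -- the symmetric form
  have hsym : ∀ a b, ψ (lam b : V) (m a - (lam a : V)) = ψ (lam a : V) (m b - (lam b : V)) := by
    intro a b
    have h1 : ψ (m b) (m a) = 0 := h.isoL _ (hmL b) _ (hmL a)
    have h2 : ψ (lam b : V) (lam a : V) = 0 := h.iso0 _ (lam b).2 _ (lam a).2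
    have h2' : ψ (lam a : V) (lam b : V) = 0 := h.iso0 _ (lam a).2 _ (lam b).2
    have h3 : ψ (m b - (lam b : V)) (m a - (lam a : V)) = 0 := h.iso1 _ (hρ b) _ (hρ a)
    have h4 := anti h (lam a : V) (m b)
    simp only [map_sub, LinearMap.sub_apply, h1, h2, h2'] at h3 ⊢
    rw [h4]
    linear_combination (-1 : ZMod ℓ) * h3
  have hw' : ∀ i, w i = - ∑ a, (x a).1 i • lam a := fun i => by rw [← hp i, neg_neg]
  have hψ : ∀ i a, ψ (z i : V) (lam a : V) =
      - ∑ b, (x b).2 i * ψ (lam b : V) (m a - (lam a : V)) := by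
    intro i a
    have h1 : ψ (z i : V) (m a) = 0 := h.isoL _ (z i).2 _ (hmL a)
    have h2 := psi_L1 h (z i : V) (hρ a)
    have h3 : ψ (π (z i : V) : V) (m a - (lam a : V)) =
        ∑ b, (x b).2 i * ψ (lam b : V) (m a - (lam a : V)) := by
      rw [hr i]
      simp only [AddSubmonoidClass.coe_finsetSum, SetLike.val_smul, map_sum,
        LinearMap.sum_apply, map_smul, LinearMap.smul_apply, smul_eq_mul]
    rw [← h3, ← h2, map_sub, h1]
    ring
  have hq : ∑ i, ψ (z i : V) (w i : V) =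
      ∑ a, ∑ b, (∑ i, (x a).1 i * (x b).2 i) * ψ (lam b : V) (m a - (lam a : V)) := by
    have h1 : ∀ i, ψ (z i : V) (w i : V) =
        ∑ a, ∑ b, (x a).1 i * (x b).2 i * ψ (lam b : V) (m a - (lam a : V)) := by
      intro i
      rw [hw' i]
      simp only [Submodule.coe_neg, AddSubmonoidClass.coe_finsetSum, SetLike.val_smul, map_neg,
        map_sum, map_smul, smul_eq_mul]
      rw [← Finset.sum_neg_distrib]
      refine Finset.sum_congr rfl fun a _ => ?_
      rw [hψ i a, mul_neg, neg_neg, Finset.mul_sum]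
      exact Finset.sum_congr rfl fun b _ => by ring
    simp_rw [h1, Finset.sum_mul]
    rw [Finset.sum_comm]
    refine Finset.sum_congr rfl fun a _ => ?_
    rw [Finset.sum_comm]
  have hD : ∀ a b, ∑ i, (x a).1 i * (x b).2 i = - ∑ i, (x b).1 i * (x a).2 i := by
    intro a b
    have := hX1 _ (hxX a) _ (hxX b)
    rw [Finset.sum_add_distrib] at this
    exact eq_neg_of_add_eq_zero_left this
  have hneg : ∑ i, ψ (z i : V) (w i : V) = - ∑ i, ψ (z i : V) (w i : V) := by
    conv_rhs => rw [hq, Finset.sum_comm, ← Finset.sum_neg_distrib]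
    rw [hq]
    refine Finset.sum_congr rfl fun a _ => ?_
    rw [← Finset.sum_neg_distrib]
    refine Finset.sum_congr rfl fun b _ => ?_
    rw [hD a b, hsym a b, neg_mul]
  have h2 : (2 : ZMod ℓ) ≠ 0 := by
    intro h2
    have h3 : ((2 : ℕ) : ZMod ℓ) = 0 := by exact_mod_cast h2
    rw [ZMod.natCast_eq_zero_iff] at h3
    have h4 := Nat.le_of_dvd two_pos h3
    have h5 := (Fact.out : ℓ.Prime).two_le
    omega
  have h6 : (2 : ZMod ℓ) * ∑ i, ψ (z i : V) (w i : V) = 0 := by
    linear_combination hneg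
  exact (mul_eq_zero.mp h6).resolve_left h2

/-- the condition -/
def Cnd (X : Submodule (ZMod ℓ) (Cl ℓ k)) (LL : Submodule (ZMod ℓ) V) (π : V →ₗ[ZMod ℓ] L0)
    (w : Fin k → L0) (z : Fin k → LL) : Prop :=
  ∀ y ∈ X, ∑ i, (y.1 i • π (z i : V) - y.2 i • w i) = 0

open Classical in
/-- only the `w` with values in `π(LL)` contribute -/
lemma vanish [Fintype V] (h : Lin ℓ V ψ L0 L1 LL π u d1) (X : Submodule (ZMod ℓ) (Cl ℓ k))
    (w : Fin k → L0) (j : Fin k) (hw : ¬ ∃ l : V, l ∈ LL ∧ π l = w j) :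
    ∑ z : Fin k → LL, (if Cnd X LL π w z then
      ee ℓ (∑ i, ψ (z i : V) (w i : V)) else 0) = 0 := by
  have hy : ∃ y : V, y ∈ LL ∧ y ∈ L1 ∧ ψ y (w j : V) ≠ 0 := by
    by_contra hcon
    push Not at hcon
    exact hw (orth h (w j) hcon)
  obtain ⟨y, hyL, hy1, hyw⟩ := hy
  obtain ⟨F, hF⟩ : ∃ F : (Fin k → LL) → ℂ, F = fun z =>
      (if Cnd X LL π w z then ee ℓ (∑ i, ψ (z i : V) (w i : V)) else 0) := ⟨_, rfl⟩
  have hshift : ∀ z, F (z + Pi.single j ⟨y, hyL⟩) = ee ℓ (ψ y (w j : V)) * F z := by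
    intro z
    rw [hF]
    simp only
    have h1 : ∀ i, π (((z + Pi.single j (⟨y, hyL⟩ : LL) : Fin k → LL) i : LL) : V) =
        π (z i : V) := by
      intro i
      rw [Pi.add_apply, Submodule.coe_add, map_add]
      by_cases hij : i = j
      · subst hij
        rw [Pi.single_eq_same, pi_L1 h hy1, add_zero]
      · rw [Pi.single_eq_of_ne hij, Submodule.coe_zero, map_zero, add_zero]
    have h1' : Cnd X LL π w (z + Pi.single j (⟨y, hyL⟩ : LL)) ↔ Cnd X LL π w z := by
      unfold Cnd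
      simp_rw [h1]
    have h2 : ∑ i, ψ (((z + Pi.single j (⟨y, hyL⟩ : LL) : Fin k → LL) i : LL) : V) (w i : V) =
        ψ y (w j : V) + ∑ i, ψ (z i : V) (w i : V) := by
      simp only [Pi.add_apply, Submodule.coe_add, map_add, LinearMap.add_apply]
      rw [Finset.sum_add_distrib, add_comm]
      congr 1
      rw [Finset.sum_eq_single j]
      · rw [Pi.single_eq_same]
      · intro i _ hij
        rw [Pi.single_eq_of_ne hij, Submodule.coe_zero, map_zero, LinearMap.zero_apply]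
      · intro hj
        exact absurd (Finset.mem_univ j) hj
    rw [h2, ee_add]
    by_cases hC : Cnd X LL π w z
    · rw [if_pos hC, if_pos (h1'.mpr hC)]
    · rw [if_neg hC, if_neg (fun hh => hC (h1'.mp hh)), mul_zero]
  have hsum : ∑ z, F z = ee ℓ (ψ y (w j : V)) * ∑ z, F z := by
    conv_lhs => rw [← Equiv.sum_comp (Equiv.addRight (Pi.single j (⟨y, hyL⟩ : LL)))]
    rw [Finset.mul_sum]
    exact Finset.sum_congr rfl fun z _ => hshift z
  have hne := ee_ne_one hyw
  have h0 : (1 - ee ℓ (ψ y (w j : V))) * ∑ z, F z = 0 := by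
    linear_combination hsum
  rcases mul_eq_zero.mp h0 with h1 | h1
  · exact absurd (sub_eq_zero.mp h1).symm hne
  · rw [hF] at h1
    exact h1

/-- the number of the remaining terms -/
lemma count [Finite V] (h : Lin ℓ V ψ L0 L1 LL π u d1) (X : Submodule (ZMod ℓ) (Cl ℓ k))
    (hX1 : ∀ x ∈ X, ∀ y ∈ X, ∑ i, (x.1 i * y.2 i + y.1 i * x.2 i) = 0)
    (hX3 : Module.finrank (ZMod ℓ) X = k) :
    Nat.card {p : (Fin k → L0) × (Fin k → LL) // (∀ i, ∃ l : V, l ∈ LL ∧ π l = p.1 i) ∧
      Cnd X LL π p.1 p.2} = Nat.card L0 ^ k := by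
  classical
  obtain ⟨x, A, A', hxX, hv, hdual⟩ := col_coord X hX3
  let M : Submodule (ZMod ℓ) L0 := LL.map π
  let N : Submodule (ZMod ℓ) V := LL ⊓ L1
  have hM : ∀ m : M, ∃ l : LL, π (l : V) = m := by
    intro m
    obtain ⟨l, hl, hlm⟩ := m.2
    exact ⟨⟨l, hl⟩, hlm⟩
  choose σ hσ using hM
  -- first bijection
  have hMN : Nat.card M * Nat.card N = Nat.card LL := by
    rw [← Nat.card_prod]
    refine Nat.card_congr (Equiv.ofBijective
      (fun q : M × N => σ q.1 + ⟨(q.2 : V), q.2.2.1⟩) ⟨?_, ?_⟩)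
    · rintro ⟨m, y⟩ ⟨m', y'⟩ hh
      simp only at hh
      have h1 := congrArg (fun l : LL => (l : V)) hh
      simp only [Submodule.coe_add] at h1
      have h2 := congrArg π h1
      rw [map_add, map_add, hσ, hσ, pi_L1 h y.2.2, pi_L1 h y'.2.2, add_zero, add_zero] at h2
      have h3 : m = m' := Subtype.ext h2
      subst h3
      have h4 := add_left_cancel h1
      rw [Subtype.ext h4]
    · intro l
      have hm : π (l : V) ∈ M := ⟨l, l.2, rfl⟩
      have hy : ((l : V) - σ ⟨_, hm⟩) ∈ N := by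
        refine ⟨LL.sub_mem l.2 (σ ⟨_, hm⟩).2, ?_⟩
        have h1 := h.proj ((l : V) - σ ⟨_, hm⟩)
        rw [map_sub, hσ, sub_self] at h1
        simpa using h1
      refine ⟨(⟨_, hm⟩, ⟨_, hy⟩), Subtype.ext ?_⟩
      simp
  have hlam : ∀ (lam : Fin k → M) (c : Fin k → ZMod ℓ), (∑ a, c a • (lam a : L0)) ∈ M :=
    fun lam c => Submodule.sum_mem _ fun a _ => M.smul_mem _ (lam a).2
  -- second bijection
  let Φ : (Fin k → M) × (Fin k → N) → {p : (Fin k → L0) × (Fin k → LL) //
      (∀ i, ∃ l : V, l ∈ LL ∧ π l = p.1 i) ∧ Cnd X LL π p.1 p.2} := fun q =>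
    ⟨(fun i => - ∑ a, (x a).1 i • (q.1 a : L0), fun i =>
      σ ⟨∑ a, (x a).2 i • (q.1 a : L0), hlam q.1 _⟩ + ⟨(q.2 i : V), (q.2 i).2.1⟩), by
      constructor
      · intro i
        have h1 : - ∑ a, (x a).1 i • (q.1 a : L0) ∈ M := M.neg_mem (hlam q.1 _)
        obtain ⟨l, hl, hll⟩ := h1
        exact ⟨l, hl, hll⟩
      · intro y hy
        have h1 : ∀ i, π ((σ ⟨∑ a, (x a).2 i • (q.1 a : L0), hlam q.1 _⟩ +
            ⟨(q.2 i : V), (q.2 i).2.1⟩ : LL) : V) = ∑ a, (x a).2 i • (q.1 a : L0) := by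
          intro i
          rw [Submodule.coe_add, map_add, hσ, pi_L1 h (q.2 i).2.2, add_zero]
        simp only [h1]
        have h2 : ∀ i, y.1 i • ∑ a, (x a).2 i • (q.1 a : L0) -
            y.2 i • (- ∑ a, (x a).1 i • (q.1 a : L0)) =
            ∑ a, (y.1 i * (x a).2 i + (x a).1 i * y.2 i) • (q.1 a : L0) := by
          intro i
          rw [smul_neg, sub_neg_eq_add, Finset.smul_sum, Finset.smul_sum, ← Finset.sum_add_distrib]
          refine Finset.sum_congr rfl fun a _ => ?_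
          rw [smul_smul, smul_smul, add_smul, mul_comm (y.2 i)]
        simp_rw [h2]
        rw [Finset.sum_comm]
        refine Finset.sum_eq_zero fun a _ => ?_
        rw [← Finset.sum_smul, hX1 y hy _ (hxX a), zero_smul]⟩
  have hΦ : Function.Bijective Φ := by
    constructor
    · rintro ⟨lam, y⟩ ⟨lam', y'⟩ hh
      have h1 := congrArg (fun q : {p : (Fin k → L0) × (Fin k → LL) //
        (∀ i, ∃ l : V, l ∈ LL ∧ π l = p.1 i) ∧ Cnd X LL π p.1 p.2} => q.1) hh
      have h2 := fun i => congrFun (congrArg Prod.fst h1) i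
      have h3 := fun i => congrFun (congrArg Prod.snd h1) i
      simp only [Φ, neg_inj] at h2 h3
      have h4 : ∀ i, ∑ a, (x a).2 i • (lam a : L0) = ∑ a, (x a).2 i • (lam' a : L0) := by
        intro i
        have h5 := congrArg (fun l : LL => π (l : V)) (h3 i)
        simp only [Submodule.coe_add, map_add, hσ, pi_L1 h (y i).2.2, pi_L1 h (y' i).2.2,
          add_zero] at h5
        exact h5
      have hrec : ∀ (lam : Fin k → M) (b : Fin k), ∑ i, (A b i • ∑ a, (x a).1 i • (lam a : L0) +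
          A' b i • ∑ a, (x a).2 i • (lam a : L0)) = lam b := by
        intro lam b
        have h5 : ∀ i, A b i • ∑ a, (x a).1 i • (lam a : L0) +
            A' b i • ∑ a, (x a).2 i • (lam a : L0) =
            ∑ a, (A b i * (x a).1 i + A' b i * (x a).2 i) • (lam a : L0) := by
          intro i
          rw [Finset.smul_sum, Finset.smul_sum, ← Finset.sum_add_distrib]
          refine Finset.sum_congr rfl fun a _ => ?_
          rw [smul_smul, smul_smul, add_smul]
        simp_rw [h5]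
        rw [Finset.sum_comm]
        simp_rw [← Finset.sum_smul, hdual]
        simp
      have h6 : lam = lam' := by
        funext b
        refine Subtype.ext ?_
        rw [← hrec lam b, ← hrec lam' b]
        refine Finset.sum_congr rfl fun i _ => ?_
        rw [h2 i, h4 i]
      subst h6
      refine Prod.ext rfl (funext fun i => ?_)
      have h7 := add_left_cancel (h3 i)
      exact Subtype.ext (congrArg (fun l : LL => (l : V)) h7)
    · rintro ⟨⟨w, z⟩, hw, hc⟩
      simp only at hw hc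
      obtain ⟨hp, hr⟩ := L0_coord h X hX1 hX3 x A A' hv (fun i => - w i) (fun i => π (z i : V))
        (fun y hy => by
          rw [← hc y hy]
          exact Finset.sum_congr rfl fun i _ => by rw [smul_neg, sub_eq_add_neg])
      have hwM : ∀ i, w i ∈ M := fun i => by
        obtain ⟨l, hl, hlw⟩ := hw i
        exact ⟨l, hl, hlw⟩
      have hzM : ∀ i, π (z i : V) ∈ M := fun i => ⟨z i, (z i).2, rfl⟩
      let lam : Fin k → M := fun a => ⟨∑ j, (A a j • (- w j) + A' a j • π (z j : V)),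
        Submodule.sum_mem _ fun j _ => M.add_mem (M.smul_mem _ (M.neg_mem (hwM j)))
          (M.smul_mem _ (hzM j))⟩
      have hlr : ∀ i, ∑ a, (x a).2 i • (lam a : L0) = π (z i : V) := fun i => (hr i).symm
      have hlp : ∀ i, - ∑ a, (x a).1 i • (lam a : L0) = w i := fun i => by
        rw [← neg_neg (w i)]
        exact congrArg Neg.neg (hp i).symm
      have hyN : ∀ i, ((z i : V) - σ ⟨∑ a, (x a).2 i • (lam a : L0), hlam lam _⟩) ∈ N := by
        intro i
        refine ⟨LL.sub_mem (z i).2 (σ _).2, ?_⟩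
        have h1 := h.proj ((z i : V) - σ ⟨∑ a, (x a).2 i • (lam a : L0), hlam lam _⟩)
        have h0 : π (z i : V) - (((⟨∑ a, (x a).2 i • (lam a : L0), hlam lam _⟩ : M) : M) : L0) = 0 :=
          sub_eq_zero.mpr (hlr i).symm
        rw [map_sub, hσ, h0, Submodule.coe_zero, sub_zero] at h1
        exact h1
      refine ⟨(lam, fun i => ⟨_, hyN i⟩), Subtype.ext (Prod.ext (funext fun i => ?_)
        (funext fun i => Subtype.ext ?_))⟩
      · exact hlp i
      · simp [Φ]
  rw [← Nat.card_congr (Equiv.ofBijective Φ hΦ), Nat.card_prod, Nat.card_fun, Nat.card_fun,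
    Nat.card_fin, ← mul_pow, hMN, h.card]

open Classical in
/-- the sum after the change of variables -/
theorem core_sum (hℓ : ℓ ≠ 2) [Fintype V] (h : Lin ℓ V ψ L0 L1 LL π u d1)
    (X : Submodule (ZMod ℓ) (Cl ℓ k))
    (hX1 : ∀ x ∈ X, ∀ y ∈ X, ∑ i, (x.1 i * y.2 i + y.1 i * x.2 i) = 0)
    (hX3 : Module.finrank (ZMod ℓ) X = k) :
    ∑ w : Fin k → L0, ∑ z : Fin k → LL, (if Cnd X LL π w z then
      ee ℓ (∑ i, ψ (z i : V) (w i : V)) else 0) = (Nat.card L0 : ℂ) ^ k := by
  have h1 : ∀ w : Fin k → L0, ∑ z : Fin k → LL, (if Cnd X LL π w z then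
      ee ℓ (∑ i, ψ (z i : V) (w i : V)) else 0) = ∑ z : Fin k → LL,
      (if (∀ i, ∃ l : V, l ∈ LL ∧ π l = w i) ∧ Cnd X LL π w z then (1 : ℂ) else 0) := by
    intro w
    by_cases hw : ∀ i, ∃ l : V, l ∈ LL ∧ π l = w i
    · refine Finset.sum_congr rfl fun z _ => ?_
      by_cases hc : Cnd X LL π w z
      · rw [if_pos hc, if_pos ⟨hw, hc⟩, phase_zero hℓ h X hX1 hX3 w z hw hc, ee_zero]
      · rw [if_neg hc, if_neg fun hh => hc hh.2]
    · have hw' := hw
      push Not at hw'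
      obtain ⟨j, hj⟩ := hw'
      have h2 := vanish h X w j (by
        rintro ⟨l, hl, hlw⟩
        exact hj l hl hlw)
      rw [h2]
      refine (Finset.sum_eq_zero fun z _ => ?_).symm
      rw [if_neg fun hh => hw hh.1]
  simp_rw [h1]
  rw [← Finset.sum_product', Finset.sum_boole]
  have h3 := count h X hX1 hX3
  rw [Nat.card_eq_fintype_card, Fintype.card_subtype] at h3
  rw [← Nat.cast_pow, ← h3]
  rfl

/-- **MAINU** -/
theorem t_MAINU (hUNL : S_UNL) : S_MAINU := by
  classical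
  intro ℓ _ hℓ V _ _ _ ψ L0 L1 LL π u d1 h k U hU hUc
  obtain ⟨x₀, X, hX1, hX2, hX3, hUX⟩ := (hUNL ℓ hℓ k U hU).2 hUc
  obtain ⟨d, hd⟩ : ∃ d : LL, (d : V) = (u : V) + d1 := ⟨⟨_, h.d_mem⟩, rfl⟩
  have hπd : π (d : V) = u := by
    rw [hd, map_add, pi_L0 h, pi_L1 h h.d1_mem, add_zero]
  -- the value of `α`
  obtain ⟨α₀, hα₀⟩ : ∃ α₀ : (Fin k → L0) → (Fin k → LL) → L0, α₀ = fun w z =>
    - ∑ i, x₀.1 i • π (z i : V) + ∑ i, x₀.2 i • w i - (∑ i, x₀.2 i * x₀.1 i) • u := ⟨_, rfl⟩
  -- the conditions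
  have hcond : ∀ (w : Fin k → L0) (α : L0) (z : Fin k → LL),
      (∀ a ∈ U, hc π u w α z a = 0) ↔ (α = α₀ w z ∧
        Cnd X LL π (fun i => w i - x₀.1 i • u) (fun i => z i + x₀.2 i • d)) := by
    intro w α z
    have hdiff : ∀ y ∈ X, hc π u w α z (x₀ + y) = hc π u w α z x₀ +
        ∑ i, (y.1 i • π ((z i + x₀.2 i • d : LL) : V) - y.2 i • (w i - x₀.1 i • u)) := by
      intro y hy
      have h2 := hX2 y hy
      have e1 : ∑ i, (x₀ + y).2 i * (x₀ + y).1 i = ∑ i, x₀.2 i * x₀.1 i +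
          ∑ i, (y.1 i * x₀.2 i + y.2 i * x₀.1 i) := by
        have : ∑ i, (x₀ + y).2 i * (x₀ + y).1 i = ∑ i, x₀.2 i * x₀.1 i +
          ∑ i, (y.1 i * x₀.2 i + y.2 i * x₀.1 i) + ∑ i, y.1 i * y.2 i := by
          rw [← Finset.sum_add_distrib, ← Finset.sum_add_distrib]
          refine Finset.sum_congr rfl fun i _ => ?_
          simp only [Prod.fst_add, Prod.snd_add, Pi.add_apply]
          ring
        rw [this, h2, add_zero]
      have e2 : ∑ i, (y.1 i • π ((z i + x₀.2 i • d : LL) : V) - y.2 i • (w i - x₀.1 i • u)) =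
          ∑ i, y.1 i • π (z i : V) - ∑ i, y.2 i • w i +
            (∑ i, (y.1 i * x₀.2 i + y.2 i * x₀.1 i)) • u := by
        rw [Finset.sum_smul, ← Finset.sum_sub_distrib, ← Finset.sum_add_distrib]
        refine Finset.sum_congr rfl fun i _ => ?_
        rw [Submodule.coe_add, Submodule.coe_smul, map_add, map_smul, hπd]
        module
      unfold hc
      rw [e1, e2]
      simp only [Prod.fst_add, Prod.snd_add, Pi.add_apply, add_smul, Finset.sum_add_distrib]
      abel
    have hx₀ : hc π u w α z x₀ = 0 ↔ α = α₀ w z := by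
      unfold hc
      rw [hα₀]
      simp only
      constructor
      · intro hh
        rw [← sub_eq_zero, ← hh]
        abel
      · intro hh
        rw [hh]
        abel
    constructor
    · intro hall
      have h1 : hc π u w α z x₀ = 0 := hall x₀ ((hUX x₀).mpr (by rw [sub_self]; exact X.zero_mem))
      refine ⟨hx₀.mp h1, fun y hy => ?_⟩
      have h2 := hall (x₀ + y) ((hUX _).mpr (by rwa [add_sub_cancel_left]))
      rw [hdiff y hy, h1, zero_add] at h2
      exact h2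
    · rintro ⟨h1, h2⟩ a ha
      have h3 := hdiff (a - x₀) ((hUX a).mp ha)
      rw [add_sub_cancel] at h3
      rw [h3, hx₀.mpr h1, zero_add]
      exact h2 _ ((hUX a).mp ha)
  -- the phase
  have hphase : ∀ (w : Fin k → L0) (z : Fin k → LL),
      - ψ (α₀ w z : V) d1 + ∑ i, ψ (z i : V) (w i : V) =
        ∑ i, ψ ((z i + x₀.2 i • d : LL) : V) ((w i - x₀.1 i • u : L0) : V) := by
    intro w z
    have e1 : ∀ i, ψ (z i : V) (u : V) = - ψ (π (z i : V) : V) d1 := by
      intro i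
      have h1 : ψ (z i : V) (d : V) = 0 := h.isoL _ (z i).2 _ d.2
      rw [hd, map_add, psi_L1 h (z i : V) h.d1_mem] at h1
      exact eq_neg_of_add_eq_zero_left h1
    have e2 : ∀ i, ψ (d : V) (w i : V) = - ψ (w i : V) d1 := by
      intro i
      rw [hd, map_add, LinearMap.add_apply, h.iso0 _ u.2 _ (w i).2, zero_add, anti h]
    have e3 : ψ (d : V) (u : V) = - ψ (u : V) d1 := by
      rw [hd, map_add, LinearMap.add_apply, h.alt, zero_add, anti h]
    have e4 : - ψ (α₀ w z : V) d1 = ∑ i, (x₀.1 i * ψ (π (z i : V) : V) d1 - x₀.2 i * ψ (w i : V) d1 +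
        x₀.2 i * x₀.1 i * ψ (u : V) d1) := by
      rw [hα₀]
      simp only [Submodule.coe_add, Submodule.coe_sub, Submodule.coe_neg, Submodule.coe_smul,
        AddSubmonoidClass.coe_finsetSum, map_add, map_sub, map_neg, map_sum, map_smul,
        LinearMap.add_apply, LinearMap.sub_apply, LinearMap.neg_apply, LinearMap.sum_apply,
        LinearMap.smul_apply, smul_eq_mul, Finset.sum_add_distrib, Finset.sum_sub_distrib,
        Finset.sum_mul]
      ring
    rw [e4, ← Finset.sum_add_distrib]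
    refine Finset.sum_congr rfl fun i _ => ?_
    simp only [Submodule.coe_add, Submodule.coe_sub, Submodule.coe_smul, map_add, map_sub,
      map_smul, LinearMap.add_apply, LinearMap.sub_apply, LinearMap.smul_apply, smul_eq_mul, e1, e2,
      e3]
    ring
  -- the sum over `α`
  have hα : ∀ (w : Fin k → L0), ∑ α : L0, ∑ z : Fin k → LL,
      (if ∀ a ∈ U, hc π u w α z a = 0 then
        ee ℓ (- ψ (α : V) d1 + ∑ i, ψ (z i : V) (w i : V)) else 0) =
      ∑ z : Fin k → LL, (if Cnd X LL π (fun i => w i - x₀.1 i • u) (fun i => z i + x₀.2 i • d) then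
        ee ℓ (∑ i, ψ ((z i + x₀.2 i • d : LL) : V) ((w i - x₀.1 i • u : L0) : V)) else 0) := by
    intro w
    rw [Finset.sum_comm]
    refine Finset.sum_congr rfl fun z _ => ?_
    rw [Finset.sum_eq_single (α₀ w z)]
    · by_cases hC : Cnd X LL π (fun i => w i - x₀.1 i • u) (fun i => z i + x₀.2 i • d)
      · rw [if_pos hC, if_pos ((hcond w _ z).mpr ⟨rfl, hC⟩), hphase]
      · rw [if_neg hC, if_neg (fun hh => hC ((hcond w _ z).mp hh).2)]
    · intro α _ hne
      rw [if_neg fun hh => hne ((hcond w α z).mp hh).1]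
    · intro hh
      exact absurd (Finset.mem_univ _) hh
  have hfin : ∀ w : Fin k → L0, ∑ z : Fin k → LL,
      (if Cnd X LL π (fun i => w i - x₀.1 i • u) (fun i => z i + x₀.2 i • d) then
        ee ℓ (∑ i, ψ ((z i + x₀.2 i • d : LL) : V) ((w i - x₀.1 i • u : L0) : V)) else 0) =
      ∑ z : Fin k → LL, (if Cnd X LL π (fun i => w i - x₀.1 i • u) z then
        ee ℓ (∑ i, ψ (z i : V) ((w i - x₀.1 i • u : L0) : V)) else 0) := fun w =>
    Equiv.sum_comp (Equiv.addRight (fun i => x₀.2 i • d : Fin k → LL))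
      (fun z : Fin k → LL => (if Cnd X LL π (fun i => w i - x₀.1 i • u) z then
        ee ℓ (∑ i, ψ (z i : V) ((w i - x₀.1 i • u : L0) : V)) else 0))
  have hfin2 := Equiv.sum_comp (Equiv.subRight (fun i => x₀.1 i • u : Fin k → L0))
      (fun w : Fin k → L0 => ∑ z : Fin k → LL, (if Cnd X LL π w z then
        ee ℓ (∑ i, ψ (z i : V) (w i : V)) else 0))
  have hcore := core_sum hℓ h X hX1 hX3
  calc _ = ∑ w : Fin k → L0, ∑ z : Fin k → LL, (if Cnd X LL π (fun i => w i - x₀.1 i • u) z then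
        ee ℓ (∑ i, ψ (z i : V) ((w i - x₀.1 i • u : L0) : V)) else 0) := by
        refine Finset.sum_congr rfl fun w _ => ?_
        rw [← hfin w, ← hα w]
    _ = _ := hfin2
    _ = _ := by
      rw [← hcore]

end core

end Pool.Agent.T3h73.SD.MAINU
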