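import Pool.Agent.T3h73.SD.Mdl3

/-! Project SD, task MDL (helper87): the model. -/

set_option autoImplicit false
set_option linter.all false

open NumberField IsDedekindDomain Polynomial

namespace Pool.Agent.T3h73.SD.MDL

open Pool.Agent.T3h73.SL (Pl IsP Pk loc Good2 LC Sg Evn Lo val_loc LC_mul_pow self_mem_LC)
open Pool.Agent.Y713.SE (Pw)

/-- the elements satisfying the local conditions at the places of `S` -/
def HS {K : Type} [Field K] [NumberField K] (S : Finset (Pl K))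
    (L : ∀ v : Pl K, Subgroup (v.adicCompletion K)ˣ) : Subgroup Kˣ where
  carrier := {x | ∀ v ∈ S, loc v x ∈ L v}
  mul_mem' := by
    intro a b ha hb v hv
    rw [map_mul]
    exact mul_mem (ha v hv) (hb v hv)
  one_mem' := by
    intro v hv
    rw [map_one]
    exact one_mem _
  inv_mem' := by
    intro a ha v hv
    rw [map_inv]
    exact inv_mem (ha v hv)

theorem t_MDL (hSV : S_SV) (hCHS : S_CHS) (hVSP : S_VSP) (hLZ : S_LZ) (hLAG : S_LAG) : S_MDL := by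
  classical
  intro ℓ hfact hℓ2 K _ _ ζ hζ
  have hpr : ℓ.Prime := hfact.out
  have hpos : 0 < ℓ := hpr.pos
  haveI : NeZero ℓ := ⟨hpr.ne_zero⟩
  obtain ⟨sv, H⟩ := hSV ℓ hpr hℓ2 K ζ hζ
  obtain ⟨T₀, hT₀⟩ := hLZ ℓ hpr hℓ2 K ζ hζ
  refine ⟨T₀, fun S hS η => ?_⟩
  obtain ⟨hSne, hab, hgen, hinj, hcard⟩ := hT₀ S hS
  obtain ⟨𝔪, h𝔪0, h𝔪c, h𝔪⟩ := hCHS ℓ hpr hℓ2 K ζ hζ sv H S hab hSne
  obtain ⟨V, i1, i2, i3, ψ, cl, c1, c2, c3, c4, c5, c6, c7⟩ := hVSP ℓ hpr hℓ2 K ζ hζ sv H S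
  have C : Ctx ℓ K sv S V ψ cl := ⟨hpr, H, hab, hgen, hinj, c1, c2, c3, c6⟩
  -- the global classes
  obtain ⟨L0, hL0⟩ : ∃ L0, L0 = clS c1 ℓ (Sg ℓ S (fun _ => ⊤)) := ⟨_, rfl⟩
  have z0 : ∀ z, z ∈ L0 ↔ ∃ x, (∀ v, v ∉ S → (ℓ : ℤ) ∣ od v x) ∧ cl x = z := by
    intro z
    rw [hL0, mem_clS]
    constructor
    · rintro ⟨x, hx, hxz⟩
      exact ⟨x, fun v hv => (pw_od hpos v x).1 (hx.2 v hv), hxz⟩
    · rintro ⟨x, hx, hxz⟩
      exact ⟨x, ⟨fun v _ => Subgroup.mem_top _, fun v hv => (pw_od hpos v x).2 (hx v hv)⟩, hxz⟩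
  have iso0 : ∀ x ∈ L0, ∀ y ∈ L0, ψ x y = 0 := by
    intro x hx y hy
    obtain ⟨a, ha, rfl⟩ := (z0 x).1 hx
    obtain ⟨b, hb, rfl⟩ := (z0 y).1 hy
    exact C.prodS a b ha hb
  have card0 : Nat.card L0 ^ 2 = Nat.card V := by
    have h1 : Nat.card L0 = (cl '' (Sg ℓ S (fun _ => ⊤) : Set Kˣ)).ncard := by
      rw [hL0]
      exact Nat.card_coe_set_eq _
    rw [h1, c7]
    refine hcard V cl fun x y => ?_
    rw [← c3, c1, cl_inv c1, add_neg_eq_zero]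
  obtain ⟨hlag1, hlag2⟩ := hLAG ℓ hℓ2 V ψ c4 c5
  obtain ⟨L1, hcompl, iso1⟩ := hlag2 L0 iso0 card0
  obtain ⟨π, hπ⟩ : ∃ π : V →ₗ[ZMod ℓ] L0, ∀ x, x - (π x : V) ∈ L1 :=
    ⟨Submodule.projectionOnto L0 L1 hcompl, fun x => Submodule.sub_projection_mem hcompl x⟩
  -- the local conditions
  obtain ⟨I, hI⟩ : ∃ I, I = clS c1 ℓ (HS S (fun v => LC ℓ v (loc v η))) := ⟨_, rfl⟩
  have isoI : ∀ x ∈ I, ∀ y ∈ I, ψ x y = 0 := by
    intro x hx y hy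
    rw [hI] at hx hy
    obtain ⟨a, ha, rfl⟩ := hx
    obtain ⟨b, hb, rfl⟩ := hy
    rw [c6]
    exact Finset.sum_eq_zero fun v hv => isoLC H hpr hℓ2 hζ v η a b (ha v hv) (hb v hv)
  obtain ⟨LL, hILL, isoL, cardL⟩ := hlag1 I isoI
  have zL : ∀ x : Kˣ, (∀ v ∈ S, loc v x ∈ LC ℓ v (loc v η)) → cl x ∈ LL := by
    intro x hx
    apply hILL
    rw [hI]
    exact ⟨x, hx, rfl⟩
  -- uniformizers
  have hP : ∀ q : Pl K, ∃ p : Kˣ, (∀ v, v ∉ S → v ≠ q → od v p = 0) ∧ (q ∉ S → od q p = -1) ∧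
      cl p ∈ L1 := by
    intro q
    obtain ⟨y, hy⟩ := hgen (Pi.single (M := fun _ : Pl K => ℤ) q 1)
      ((Set.finite_singleton q).subset (by
        intro v hv
        by_contra hc
        exact hv (Pi.single_eq_of_ne hc _)))
    obtain ⟨x, hx, hx'⟩ := (z0 _).1 (π (cl y)).2
    obtain ⟨x0, hx0, hx0'⟩ := C.unit_rep x hx
    refine ⟨y * x0⁻¹, fun v hv hvq => ?_, fun hq => ?_, ?_⟩
    · rw [od_mul, od_inv, hx0' v hv, od_eq (hy v hv), Pi.single_eq_of_ne hvq]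
      simp
    · rw [od_mul, od_inv, hx0' q hq, od_eq (hy q hq), Pi.single_eq_same]
      simp
    · rw [c1, cl_inv c1, hx0, hx', ← sub_eq_add_neg]
      exact hπ _
  choose P pP pP1 pL using hP
  obtain ⟨u, hu⟩ : ∃ u, u = π (cl η) := ⟨_, rfl⟩
  obtain ⟨d1, hd1⟩ : ∃ d1, d1 = cl η - (u : V) := ⟨_, rfl⟩
  have d1m : d1 ∈ L1 := by
    rw [hd1, hu]
    exact hπ _
  have he : (u : V) + d1 = cl η := by
    rw [hd1, add_sub_cancel]
  have C2 : Ctx2 ℓ K sv S V ψ cl η L0 L1 LL P u d1 :=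
    ⟨C, z0, hcompl, iso1, zL, pP, pP1, pL, d1m, he⟩
  have hpw1 : ∀ (v : Pl K) (δ : Kˣ), Pw ℓ (v.valuation K (δ : K) * WithZero.exp (1 : ℤ)) →
      (ℓ : ℤ) ∣ od v δ + 1 := by
    intro v δ h
    rw [val_od, ← WithZero.exp_add, pw_exp' hpos] at h
    exact h
  refine ⟨𝔪, V, i1, i2, i3, ψ, L0, L1, LL, π, u, d1, fun q => cl (P q),
    fun p q => sv q (P p) (P q), ⟨⟨c4, c5, hcompl, iso0, iso1, isoL, ?_, hπ, d1m, ?_⟩,
      fun q _ => pL q, ⟨h𝔪0, h𝔪c, ?_, ?_, ?_⟩⟩, ?_, ?_, hinj⟩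
  · exact Nat.pow_left_injective (n := 2) (by norm_num) (cardL.trans card0.symm)
  · rw [he]
    exact zL η fun v hv => self_mem_LC v _
  · intro h h' q
    show ψ ((h + h' : L0) : V) (cl (P q)) = _
    rw [Submodule.coe_add, map_add, LinearMap.add_apply]
  · intro p q hp hq hpq
    exact C2.symm hp hq hpq
  · intro h j B hB hj
    exact C2.char 𝔪 h𝔪 h j B hB hj
  · intro δ B h1 hB h2 h3
    have h2' : ∀ v ∈ B, (ℓ : ℤ) ∣ od v δ + 1 := fun v hv => hpw1 v δ (h2 v hv)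
    have h3' : ∀ v, v ∉ S → v ∉ B → (ℓ : ℤ) ∣ od v δ := fun v hv hvB =>
      (pw_od hpos v δ).1 (h3 v hv hvB)
    exact ⟨(C2.sum δ B h1 h2' h3').1, fun hne hn => C2.good hℓ2 hζ δ B hB h1 h2' h3' hne hn⟩
  · intro B hB hs
    exact C2.exists_delta B hB hs

end Pool.Agent.T3h73.SD.MDL
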