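import Pool.Agent.T3h73.SD.Stm
import Pool.Agent.T3h73.SL.T_CHR
import Pool.Agent.T3h73.SL.T_HENS
import Pool.Agent.T3h73.SL.T_NB
import Pool.Agent.T3h73.SL.T_WA
import Pool.Agent.T3h73.SL.T_CYC
import Pool.Agent.T3h73.SL.T_FIN

/-!
# Project SD: the ray class characters of a character of the ideles (`S_MOD`)
-/

set_option autoImplicit false
set_option linter.all false

open NumberField IsDedekindDomain Polynomial Filter

namespace Pool.Agent.T3h73.SD.MOD

open Pool.Agent.T3h73.SL (Pl IsP Pk loc Evn Sg)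
open Pool.Agent.T3h73.SL.Chr (v_loc mI mI_mul mI_one mI_prime mI_span exists_m un un_spec)
open Pool.Agent.Y713.SE (Pw)
open Pool.Agent.Y773.G (IsModChar sg)

variable {K : Type} [Field K] [NumberField K]

/-- the valuation of `1 - ζ` at a place not above `ℓ` -/
lemma val_one_sub {ℓ : ℕ} (hℓ : ℓ.Prime) {ζ : K} (hζ : IsPrimitiveRoot ζ ℓ) (v : Pl K)
    (hv : v.valuation K (ℓ : K) = 1) : v.valuation K (1 - ζ) = 1 := by
  have h1 : v.valuation K ζ = 1 := Pool.Agent.T3h73.SL.Cyc.val_root _ hℓ hζ.pow_eq_one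
  have hle : v.valuation K (1 - ζ) ≤ 1 := by
    refine (Valuation.map_sub _ _ _).trans ?_
    rw [map_one, h1, max_self]
  by_contra hne
  have hlt : v.valuation K (1 - ζ) < 1 := lt_of_le_of_ne hle hne
  have h2 := Pool.Agent.T3h73.SL.Cyc.t_CYC ℓ hℓ K (v.valuation K) ζ hζ hlt
  rw [hv] at h2
  have h3 : v.valuation K (1 - ζ) ^ (ℓ - 1) < 1 := pow_lt_one₀ zero_le' hlt (by
    have := hℓ.two_le; omega)
  rw [← h2] at h3
  exact lt_irrefl _ h3

/-- at a place not above `ℓ` an element congruent to `1` is an `ℓ`-th power -/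
lemma isP_of_lt {ℓ : ℕ} (hℓ : ℓ.Prime) {ζ : K} (hζ : IsPrimitiveRoot ζ ℓ) (v : Pl K)
    (hv : v.valuation K (ℓ : K) = 1) (x : Kˣ) (hx : v.valuation K ((x : K) - 1) < 1) :
    IsP ℓ (loc v x) := by
  have hinj : Function.Injective (algebraMap K (v.adicCompletion K)) := (algebraMap K _).injective
  have hζ' : IsPrimitiveRoot (algebraMap K (v.adicCompletion K) ζ) ℓ := hζ.map_of_injective hinj
  refine Pool.Agent.T3h73.SL.Hens.t_HENS ℓ hℓ K v _ hζ' (loc v x) ?_
  have e1 : (Valued.v (1 - algebraMap K (v.adicCompletion K) ζ) : WithZero (Multiplicative ℤ)) =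
      v.valuation K (1 - ζ) := by
    have h : 1 - algebraMap K (v.adicCompletion K) ζ = algebraMap K (v.adicCompletion K) (1 - ζ) := by
      rw [map_sub, map_one]
    rw [h]
    exact v.valuedAdicCompletion_eq_valuation' (1 - ζ)
  have e2 : (Valued.v (((loc v x : (v.adicCompletion K)ˣ) : v.adicCompletion K) - 1) :
      WithZero (Multiplicative ℤ)) = v.valuation K ((x : K) - 1) := by
    have h : ((loc v x : (v.adicCompletion K)ˣ) : v.adicCompletion K) - 1 =
        algebraMap K (v.adicCompletion K) ((x : K) - 1) := by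
      rw [map_sub, map_one]; rfl
    rw [h]
    exact v.valuedAdicCompletion_eq_valuation' ((x : K) - 1)
  rw [e1, e2, val_one_sub hℓ hζ v hv, one_pow]
  exact hx

/-! ### the character on the exponents -/

section char

variable {ℓ : ℕ} {χ : Pl K → (Kˣ →* Mu ℓ)}

lemma chi_eq_of_div {v : Pl K} (h : ∀ x : Kˣ, Pw ℓ (v.valuation K (x : K)) → χ v x = 1) {x y : Kˣ}
    (hxy : v.valuation K (x : K) = v.valuation K (y : K)) : χ v x = χ v y := by
  have h1 : χ v (x * y⁻¹) = 1 := by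
    apply h
    have hy : v.valuation K (y : K) ≠ 0 := (Valuation.ne_zero_iff _).2 y.ne_zero
    rw [Units.val_mul, Units.val_inv_eq_inv_val, map_mul, map_inv₀, hxy, mul_inv_cancel₀ hy]
    exact Pw.one
  rw [map_mul, map_inv, mul_inv_eq_one] at h1
  exact h1

lemma chi_val {v : Pl K} (h : ∀ x : Kˣ, Pw ℓ (v.valuation K (x : K)) → χ v x = 1) {x : Kˣ} {n : ℤ}
    (hx : v.valuation K (x : K) = WithZero.exp (-n)) : χ v x = χ v (un v) ^ n := by
  rw [← map_zpow]
  apply chi_eq_of_div h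
  rw [hx, Units.val_zpow_eq_zpow_val, map_zpow₀, un_spec, ← WithZero.exp_zsmul]
  congr 1
  simp

open Classical in
/-- the values on the places outside `U` -/
noncomputable def fU (χ : Pl K → (Kˣ →* Mu ℓ)) (U : Finset (Pl K)) (v : Pl K) : Mu ℓ :=
  if v ∈ U then 1 else χ v (un v)

/-- the character on the exponents -/
noncomputable def EE (χ : Pl K → (Kˣ →* Mu ℓ)) (U : Finset (Pl K)) (m : Pl K →₀ ℤ) : Mu ℓ :=
  m.prod fun v n => fU χ U v ^ n

lemma EE_add (U : Finset (Pl K)) (m m' : Pl K →₀ ℤ) : EE χ U (m + m') = EE χ U m * EE χ U m' := by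
  classical
  exact Finsupp.prod_add_index' (fun v => zpow_zero _) (fun v n n' => zpow_add _ _ _)

lemma EE_zero (U : Finset (Pl K)) : EE χ U 0 = 1 := Finsupp.prod_zero_index

lemma EE_single (U : Finset (Pl K)) (v : Pl K) : EE χ U (Finsupp.single v 1) = fU χ U v := by
  unfold EE
  rw [Finsupp.prod_single_index (zpow_zero _), zpow_one]

/-- the values at the principal ideals -/
lemma EE_prin (hχ : GC ℓ χ) (U : Finset (Pl K))
    (hU : ∀ v, v ∉ U → ∀ x : Kˣ, Pw ℓ (v.valuation K (x : K)) → χ v x = 1) {x : Kˣ} {m : Pl K →₀ ℤ}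
    (hm : ∀ v, v ∉ U → v.valuation K (x : K) = WithZero.exp (-(m v))) :
    EE χ U m * ∏ v ∈ U, χ v x = 1 := by
  classical
  have hv : ∀ v, v ∉ U → χ v x = fU χ U v ^ m v := by
    intro v hv
    rw [chi_val (hU v hv) (hm v hv), fU, if_neg hv]
  have h1 := hχ.prod x
  rw [finprod_eq_prod_of_mulSupport_subset (s := m.support ∪ U) _ (by
    intro v hvs
    rw [Function.mem_mulSupport] at hvs
    by_contra hcon
    rw [Finset.coe_union, Set.mem_union, not_or, Finset.mem_coe, Finset.mem_coe] at hcon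
    apply hvs
    rw [hv v hcon.2, Finsupp.notMem_support_iff.1 hcon.1, zpow_zero])] at h1
  have h2 : EE χ U m = ∏ v ∈ m.support ∪ U, fU χ U v ^ m v := by
    unfold EE Finsupp.prod
    refine Finset.prod_subset Finset.subset_union_left fun v _ hv => ?_
    rw [Finsupp.notMem_support_iff.1 hv]
    exact zpow_zero _
  have h3 : ∏ v ∈ U, χ v x = ∏ v ∈ m.support ∪ U, if v ∈ U then χ v x else 1 := by
    rw [Finset.prod_ite_mem, Finset.inter_eq_right.2 Finset.subset_union_right]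
  rw [h2, h3, ← Finset.prod_mul_distrib]
  refine Eq.trans (Finset.prod_congr rfl fun v _ => ?_) h1
  by_cases hvU : v ∈ U
  · rw [if_pos hvU, fU, if_pos hvU, one_zpow, one_mul]
  · rw [if_neg hvU, mul_one, hv v hvU]

lemma EE_pow (U : Finset (Pl K)) (m : Pl K →₀ ℤ) : EE χ U m ^ ℓ = 1 := by
  apply Multiplicative.toAdd.injective
  rw [toAdd_pow, toAdd_one, nsmul_eq_mul]
  have : ((ℓ : ℕ) : ZMod ℓ) = 0 := ZMod.natCast_self ℓ
  rw [this, zero_mul]

end char

/-- the value of the character -/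
noncomputable def ev (ℓ : ℕ) [NeZero ℓ] : Mu ℓ →* ℂ where
  toFun a := ZMod.stdAddChar (Multiplicative.toAdd a)
  map_one' := by rw [toAdd_one, AddChar.map_zero_eq_one]
  map_mul' a b := by rw [toAdd_mul, AddChar.map_add_eq_mul]

lemma ev_ne (ℓ : ℕ) [NeZero ℓ] (a : Mu ℓ) : ev ℓ a ≠ 0 := by
  intro h
  have h1 : ev ℓ (a * a⁻¹) = 0 := by rw [map_mul, h, zero_mul]
  rw [mul_inv_cancel, map_one] at h1
  exact one_ne_zero h1

lemma ev_inj (ℓ : ℕ) [NeZero ℓ] {a : Mu ℓ} (h : ev ℓ a = 1) : a = 1 := by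
  have h1 : ZMod.stdAddChar (Multiplicative.toAdd a) = ZMod.stdAddChar (0 : ZMod ℓ) := by
    rw [AddChar.map_zero_eq_one]
    exact h
  exact Multiplicative.toAdd.injective (ZMod.injective_stdAddChar h1)

lemma ev_val (ℓ : ℕ) [NeZero ℓ] (a : Mu ℓ) :
    ev ℓ a = Complex.exp (2 * Real.pi * Complex.I * ((Multiplicative.toAdd a : ZMod ℓ).val : ℕ) / ℓ) := by
  have h := ZMod.stdAddChar_coe (N := ℓ) (((Multiplicative.toAdd a : ZMod ℓ).val : ℕ) : ℤ)
  rw [Int.cast_natCast, ZMod.natCast_val, ZMod.cast_id', id] at h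
  exact h

/-- an integer close to an element of valuation one -/
lemma exists_int (v : Pl K) (x : Kˣ) (hx : v.valuation K (x : K) = 1) :
    ∃ a : 𝓞 K, v.valuation K ((a : K) - x) < 1 := by
  obtain ⟨a, ha⟩ := Pool.Agent.T3h73.SL.Fin.approx v 1 ((loc v x : (v.adicCompletion K)ˣ) :
    v.adicCompletion K) (by rw [v_loc, hx])
  refine ⟨a, ?_⟩
  have h : algebraMap (𝓞 K) (v.adicCompletion K) a - ((loc v x : (v.adicCompletion K)ˣ) :
      v.adicCompletion K) = algebraMap K (v.adicCompletion K) ((a : K) - x) := by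
    rw [map_sub]; rfl
  rw [h] at ha
  have h2 : v.valuation K ((a : K) - x) ≤ WithZero.exp (-((1 : ℕ) : ℤ)) := by
    rw [← v.valuedAdicCompletion_eq_valuation' ((a : K) - x)]
    exact ha
  refine lt_of_le_of_lt h2 ?_
  rw [← WithZero.exp_zero, WithZero.exp_lt_exp]
  norm_num

lemma cop_of_ne {v w : Pl K} (h : v ≠ w) : IsCoprime v.asIdeal w.asIdeal := by
  rw [Ideal.isCoprime_iff_sup_eq]
  exact v.isMaximal.coprime_of_ne w.isMaximal fun h' => h (HeightOneSpectrum.ext h')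

lemma not_cop_of_le {v : Pl K} {𝔞 : Ideal (𝓞 K)} (h : 𝔞 ≤ v.asIdeal) : ¬ IsCoprime v.asIdeal 𝔞 := by
  intro hc
  rw [Ideal.isCoprime_iff_sup_eq, sup_eq_left.2 h] at hc
  exact v.isPrime.ne_top hc

theorem t_MOD : S_MOD := by
  classical
  intro ℓ hℓ hℓ2 K _ _ ζ hζ T hT hTne
  haveI : NeZero ℓ := ⟨hℓ.ne_zero⟩
  choose N hN1 hN using fun v : Pl K => Pool.Agent.T3h73.SL.Nb.t_NB ℓ hℓ K v
  obtain ⟨𝔪, h𝔪⟩ : ∃ 𝔪 : Ideal (𝓞 K), 𝔪 = ∏ v ∈ T, v.asIdeal ^ N v := ⟨_, rfl⟩
  have hbot : 𝔪 ≠ ⊥ := by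
    rw [h𝔪, ← Ideal.zero_eq_bot]
    exact Finset.prod_ne_zero_iff.2 fun v _ => pow_ne_zero _ v.ne_bot
  have hdvd : ∀ v ∈ T, 𝔪 ≤ v.asIdeal ^ N v := by
    intro v hv
    rw [h𝔪]
    exact Ideal.le_of_dvd (Finset.dvd_prod_of_mem _ hv)
  have hle : ∀ v ∈ T, 𝔪 ≤ v.asIdeal := fun v hv =>
    (hdvd v hv).trans (Ideal.pow_le_self (by have := hN1 v; omega))
  have htop : 𝔪 ≠ ⊤ := by
    obtain ⟨v, hv⟩ := hTne
    intro h
    have h1 := hle v hv
    rw [h, top_le_iff] at h1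
    exact v.isPrime.ne_top h1
  have hcop : ∀ v : Pl K, IsCoprime v.asIdeal 𝔪 ↔ v ∉ T := by
    intro v
    constructor
    · intro h hv
      exact not_cop_of_le (hle v hv) h
    · intro hv
      rw [h𝔪]
      refine IsCoprime.prod_right fun w hw => IsCoprime.pow_right (cop_of_ne ?_)
      rintro rfl
      exact hv hw
  -- the elements congruent to `1`
  have hT1 : ∀ v ∈ T, ∀ (x : 𝓞 K) (y : Kˣ), (y : K) = (x : K) → x - 1 ∈ 𝔪 → IsP ℓ (loc v y) := by
    intro v hv x y hy hx1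
    refine hN v y ?_
    have h2 : x - 1 ∈ v.asIdeal ^ N v := hdvd v hv hx1
    have h3 := (v.intValuation_le_pow_iff_mem (x - 1) (N v)).2 h2
    rw [← v.valuation_of_algebraMap (K := K)] at h3
    change v.valuation K (algebraMap (𝓞 K) K (x - 1)) ≤ _ at h3
    rw [map_sub, map_one] at h3
    rw [hy]
    exact h3
  have hB1 : ∀ b, b ∉ T → ∀ (x : 𝓞 K) (y : Kˣ), (y : K) = (x : K) → x - 1 ∈ b.asIdeal →
      IsP ℓ (loc b y) := by
    intro b hb x y hy hx1
    have hbℓ : b.valuation K (ℓ : K) = 1 := by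
      by_contra h
      exact hb (hT b h)
    refine isP_of_lt hℓ hζ b hbℓ y ?_
    have h3 := (b.valuation_lt_one_iff_mem (K := K) (x - 1)).2 hx1
    change b.valuation K (algebraMap (𝓞 K) K (x - 1)) < _ at h3
    rw [map_sub, map_one] at h3
    rw [hy]
    exact h3
  refine ⟨𝔪, hbot, htop, hcop, ?_⟩
  intro B hBT χ hχ hun
  obtain ⟨𝔫, h𝔫⟩ : ∃ 𝔫 : Ideal (𝓞 K), 𝔫 = 𝔪 * ∏ b ∈ B, b.asIdeal := ⟨_, rfl⟩
  rw [← h𝔫]
  have hnT : 𝔫 ≤ 𝔪 := by rw [h𝔫]; exact Ideal.mul_le_left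
  have hnB : ∀ b ∈ B, 𝔫 ≤ b.asIdeal := by
    intro b hb
    rw [h𝔫]
    exact Ideal.mul_le_right.trans (Ideal.le_of_dvd (Finset.dvd_prod_of_mem _ hb))
  have hnbot : 𝔫 ≠ ⊥ := by
    rw [h𝔫, ← Ideal.zero_eq_bot]
    refine mul_ne_zero ?_ (Finset.prod_ne_zero_iff.2 fun v _ => v.ne_bot)
    rw [Ideal.zero_eq_bot]
    exact hbot
  have hntop : 𝔫 ≠ ⊤ := fun h => htop (top_le_iff.1 (h ▸ hnT))
  have hncop : ∀ v : Pl K, v ∉ T → v ∉ B → IsCoprime v.asIdeal 𝔫 := by
    intro v hv hvB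
    rw [h𝔫]
    refine IsCoprime.mul_right ((hcop v).2 hv) (IsCoprime.prod_right fun w hw => cop_of_ne ?_)
    rintro rfl
    exact hvB hw
  have hne0 : ∀ 𝔞 : Ideal (𝓞 K), IsCoprime 𝔞 𝔫 → 𝔞 ≠ 0 := by
    rintro 𝔞 h rfl
    rw [Ideal.isCoprime_iff_sup_eq, Ideal.zero_eq_bot, bot_sup_eq] at h
    exact hntop h
  obtain ⟨U, hUd⟩ : ∃ U : Finset (Pl K), U = T ∪ B := ⟨_, rfl⟩
  have hU : ∀ v, v ∉ U → ∀ x : Kˣ, Pw ℓ (v.valuation K (x : K)) → χ v x = 1 := by
    intro v hv
    rw [hUd, Finset.mem_union, not_or] at hv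
    exact hun v hv.1 hv.2
  -- the character
  let η : Ideal (𝓞 K) →*₀ ℂ :=
    { toFun := fun 𝔞 => if IsCoprime 𝔞 𝔫 then ev ℓ (EE χ U (mI 𝔞)) else 0
      map_zero' := by
        rw [if_neg]
        intro h
        exact hne0 0 h rfl
      map_one' := by
        rw [if_pos isCoprime_one_left, mI_one, EE_zero, map_one]
      map_mul' := by
        intro 𝔞 𝔟
        by_cases ha : IsCoprime 𝔞 𝔫
        · by_cases hb : IsCoprime 𝔟 𝔫
          · rw [if_pos (IsCoprime.mul_left ha hb), if_pos ha, if_pos hb, mI_mul (hne0 _ ha) (hne0 _ hb),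
              EE_add, map_mul]
          · rw [if_neg (fun h => hb (IsCoprime.mul_left_iff.1 h).2), if_neg hb, mul_zero]
        · rw [if_neg (fun h => ha (IsCoprime.mul_left_iff.1 h).1), if_neg ha, zero_mul] }
  have hη : ∀ 𝔞, IsCoprime 𝔞 𝔫 → η 𝔞 = ev ℓ (EE χ U (mI 𝔞)) := fun 𝔞 h => if_pos h
  have hη0 : ∀ 𝔞, ¬ IsCoprime 𝔞 𝔫 → η 𝔞 = 0 := fun 𝔞 h => if_neg h
  have hηq : ∀ q : Pl K, q ∉ T → q ∉ B → η q.asIdeal = ev ℓ (χ q (un q)) := by
    intro q hq hqB
    rw [hη _ (hncop q hq hqB), mI_prime, EE_single, fU, if_neg]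
    rw [hUd, Finset.mem_union, not_or]
    exact ⟨hq, hqB⟩
  refine ⟨η, ⟨hnbot, hntop, fun _ => Nat.zero_le _, fun _ _ => rfl, ?_, ?_⟩, ?_, ?_, ?_, ?_⟩
  · intro 𝔞
    constructor
    · intro h
      by_contra hcon
      exact h (hη0 𝔞 hcon)
    · intro h
      rw [hη 𝔞 h]
      exact ev_ne _ _
  · intro x hx0 hx1
    have hco : IsCoprime (Ideal.span {x}) 𝔫 := by
      rw [Ideal.isCoprime_iff_exists]
      exact ⟨x, Ideal.mem_span_singleton_self x, 1 - x, by
        rw [← neg_sub]; exact neg_mem hx1, by ring⟩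
    have hsg : sg (K := K) (fun _ => 0) (x : K) = 1 := by
      unfold sg
      exact Finset.prod_eq_one fun w _ => pow_zero _
    rw [hη _ hco, hsg]
    have hxK : (x : K) ≠ 0 := by
      exact_mod_cast hx0
    have h1 := EE_prin hχ U hU (x := Units.mk0 (x : K) hxK) (fun v _ => mI_span x hx0 v)
    rw [Finset.prod_eq_one, mul_one] at h1
    · rw [h1, map_one]
    · intro v hv
      apply hχ.loc
      rw [hUd, Finset.mem_union] at hv
      by_cases hvT : v ∈ T
      · exact hT1 v hvT x _ rfl (hnT hx1)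
      · exact hB1 v hvT x _ rfl (hnB v (hv.resolve_left hvT) hx1)
  · intro 𝔞 h
    rw [hη 𝔞 h, ← map_pow, EE_pow, map_one]
  · intro q hq hqB π hπ
    refine ⟨(Multiplicative.toAdd (χ q π) : ZMod ℓ).val, ?_, ?_⟩
    · rw [ZMod.natCast_val, ZMod.cast_id', id, ofAdd_toAdd]
    · rw [hηq q hq hqB, ← ev_val]
      congr 1
      exact chi_eq_of_div (hun q hq hqB) (by rw [hπ, un_spec])
  · rintro ⟨v₀, x₀, hx₀⟩
    by_contra hcon
    push Not at hcon
    -- the character is trivial outside `U`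
    have h1 : ∀ v, v ∉ U → ∀ x, χ v x = 1 := by
      intro v hv x
      have hv' : v ∉ T ∧ v ∉ B := by
        rw [hUd, Finset.mem_union, not_or] at hv
        exact hv
      have h2 : χ v (un v) = 1 := by
        apply ev_inj ℓ
        rw [← hηq v hv'.1 hv'.2]
        exact hcon _ (hncop v hv'.1 hv'.2)
      obtain ⟨m, hm⟩ := exists_m x
      rw [chi_val (hU v hv) (hm v), h2, one_zpow]
    have hv₀ : v₀ ∈ U := by
      by_contra h
      exact hx₀ (h1 v₀ h x₀)
    obtain ⟨x, hx⟩ := Pool.Agent.T3h73.SL.Wa.t_WA ℓ hℓ K U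
      (fun v => if v = v₀ then loc v x₀ else 1)
    have h3 := hχ.prod x
    rw [finprod_eq_single _ v₀] at h3
    · apply hx₀
      obtain ⟨z, hz⟩ := hx v₀ hv₀
      rw [if_pos rfl] at hz
      have h4 : χ v₀ (x * x₀⁻¹) = 1 := by
        apply hχ.loc
        refine ⟨z, ?_⟩
        rw [map_mul, map_inv, hz, mul_comm (loc v₀ x₀), mul_inv_cancel_right]
      rw [map_mul, map_inv, h3, one_mul, inv_eq_one] at h4
      exact h4
    · intro v hv
      by_cases hvU : v ∈ U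
      · obtain ⟨z, hz⟩ := hx v hvU
        rw [if_neg hv, one_mul] at hz
        exact hχ.loc v x ⟨z, hz⟩
      · exact h1 v hvU x
  · rintro ⟨b, hb, x, hbx, hχx⟩
    have hbT : b ∉ T := fun h => Finset.disjoint_left.1 hBT hb h
    obtain ⟨a, ha⟩ := exists_int b x hbx
    -- the rest of the modulus
    obtain ⟨𝔯, h𝔯⟩ : ∃ 𝔯 : Ideal (𝓞 K), 𝔯 = 𝔪 * ∏ c ∈ B.erase b, c.asIdeal := ⟨_, rfl⟩
    have hnr : 𝔫 = 𝔯 * b.asIdeal := by
      rw [h𝔫, h𝔯, mul_assoc, Finset.prod_erase_mul _ _ hb]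
    have hrm : 𝔯 ≤ 𝔪 := by rw [h𝔯]; exact Ideal.mul_le_left
    have hrB : ∀ c ∈ B, c ≠ b → 𝔯 ≤ c.asIdeal := by
      intro c hc hcb
      rw [h𝔯]
      exact Ideal.mul_le_right.trans (Ideal.le_of_dvd (Finset.dvd_prod_of_mem _
        (Finset.mem_erase.2 ⟨hcb, hc⟩)))
    have hbr : IsCoprime b.asIdeal 𝔯 := by
      rw [h𝔯]
      refine IsCoprime.mul_right ((hcop b).2 hbT) (IsCoprime.prod_right fun w hw => cop_of_ne ?_)
      exact (Finset.mem_erase.1 hw).1.symm
    obtain ⟨e, he, f, hf, hef⟩ := Ideal.isCoprime_iff_exists.1 hbr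
    obtain ⟨α, hα⟩ : ∃ α : 𝓞 K, α = a * f + e := ⟨_, rfl⟩
    have hα1 : α - 1 ∈ 𝔯 := by
      have : α - 1 = (a - 1) * f := by rw [hα]; linear_combination hef
      rw [this]
      exact Ideal.mul_mem_left _ _ hf
    have hαa : α - a ∈ b.asIdeal := by
      have : α - a = (1 - a) * e := by rw [hα]; linear_combination a * hef
      rw [this]
      exact Ideal.mul_mem_left _ _ he
    have hαx : b.valuation K ((α : K) - x) < 1 := by
      have h3 := (b.valuation_lt_one_iff_mem (K := K) (α - a)).2 hαa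
      change b.valuation K (algebraMap (𝓞 K) K (α - a)) < _ at h3
      rw [map_sub] at h3
      have e1 : (α : K) - x = ((α : K) - a) + ((a : K) - x) := by ring
      rw [e1]
      exact (Valuation.map_add _ _ _).trans_lt (max_lt h3 ha)
    have hbα : b.valuation K (α : K) = 1 := by
      have e1 : (α : K) = ((α : K) - x) + x := by ring
      rw [e1, Valuation.map_add_eq_of_lt_right _ (by rw [hbx]; exact hαx), hbx]
    have hα0 : α ≠ 0 := by
      rintro rfl
      rw [show ((0 : 𝓞 K) : K) = 0 from map_zero _, map_zero] at hbα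
      exact zero_ne_one hbα
    have hαK : (α : K) ≠ 0 := by exact_mod_cast hα0
    have hαb : α ∉ b.asIdeal := by
      intro h
      have h3 := (b.valuation_lt_one_iff_mem (K := K) α).2 h
      exact absurd hbα (ne_of_lt h3)
    have hco : IsCoprime (Ideal.span {α}) 𝔫 := by
      rw [hnr]
      refine IsCoprime.mul_right ?_ ?_
      · rw [Ideal.isCoprime_iff_exists]
        exact ⟨α, Ideal.mem_span_singleton_self α, 1 - α, by
          rw [← neg_sub]; exact neg_mem hα1, by ring⟩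
      · rw [Ideal.isCoprime_iff_sup_eq, sup_comm]
        refine b.isMaximal.out.2 _ (lt_of_le_not_ge le_sup_left fun h => hαb (h ?_))
        exact (le_sup_right : Ideal.span {α} ≤ b.asIdeal ⊔ Ideal.span {α})
          (Ideal.mem_span_singleton_self α)
    refine ⟨α, hco, ?_⟩
    rw [hη _ hco]
    intro h
    have h1 := EE_prin hχ U hU (x := Units.mk0 (α : K) hαK) (fun v _ => mI_span α hα0 v)
    rw [ev_inj ℓ h, one_mul, Finset.prod_eq_single b] at h1
    · apply hχx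
      have h4 : χ b (Units.mk0 (α : K) hαK * x⁻¹) = 1 := by
        apply hχ.loc
        refine isP_of_lt hℓ hζ b (by by_contra h; exact hbT (hT b h)) _ ?_
        have e1 : ((Units.mk0 (α : K) hαK * x⁻¹ : Kˣ) : K) - 1 = ((α : K) - x) * (x : K)⁻¹ := by
          rw [Units.val_mul, Units.val_inv_eq_inv_val, Units.val_mk0, sub_mul, mul_inv_cancel₀ x.ne_zero]
        rw [e1, map_mul, map_inv₀, hbx, inv_one, mul_one]
        exact hαx
      rw [map_mul, map_inv, h1, one_mul, inv_eq_one] at h4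
      exact h4
    · intro v hv hvb
      apply hχ.loc
      rw [hUd, Finset.mem_union] at hv
      by_cases hvT : v ∈ T
      · exact hT1 v hvT α _ rfl (hrm hα1)
      · exact hB1 v hvT α _ rfl (hrB v (hv.resolve_left hvT) hvb hα1)
    · intro h
      exact absurd (by rw [hUd]; exact Finset.mem_union_right _ hb) h

end Pool.Agent.T3h73.SD.MOD
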