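import Pool.Agent.T3h73.SD.Stm
import Pool.Agent.T3h73.SL.T_WA

/-! Project SD, task PHI (helper64): characters attached linearly to the elements of `K^*`. -/

set_option autoImplicit false
set_option linter.all false

open NumberField IsDedekindDomain Polynomial Filter

namespace Pool.Agent.T3h73.SD.PHI

open Pool.Agent.T3h73.SD
open Pool.Agent.T3h73.SL (Pl IsP Pk loc Evn Sg S_WA)
open Pool.Agent.Y713.SE (Pw)

section norms

/-- the norms from `k(a^(1/ℓ))` depend only on the class of `a` -/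
noncomputable def homA {k : Type} [Field k] (ℓ : ℕ) (a b z : k) (h : a = b * z ^ ℓ) :
    AdjoinRoot (X ^ ℓ - C a : k[X]) →ₐ[k] AdjoinRoot (X ^ ℓ - C b : k[X]) :=
  AdjoinRoot.liftAlgHom _ (Algebra.ofId k _) (algebraMap k _ z * AdjoinRoot.root (X ^ ℓ - C b : k[X]))
    (by
      have h1 : (AdjoinRoot.root (X ^ ℓ - C b : k[X])) ^ ℓ =
          algebraMap k (AdjoinRoot (X ^ ℓ - C b : k[X])) b := by
        have h2 := AdjoinRoot.eval₂_root (X ^ ℓ - C b : k[X])
        rw [eval₂_sub, eval₂_X_pow, eval₂_C, sub_eq_zero] at h2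
        exact h2
      rw [eval₂_sub, eval₂_X_pow, eval₂_C, sub_eq_zero, mul_pow, h1, h]
      change _ = algebraMap k (AdjoinRoot (X ^ ℓ - C b : k[X])) (b * z ^ ℓ)
      rw [map_mul, map_pow, mul_comm])

lemma homA_root {k : Type} [Field k] (ℓ : ℕ) (a b z : k) (h : a = b * z ^ ℓ) :
    homA ℓ a b z h (AdjoinRoot.root _) = algebraMap k _ z * AdjoinRoot.root (X ^ ℓ - C b : k[X]) := by
  unfold homA
  rw [AdjoinRoot.liftAlgHom_root]

noncomputable def equivA {k : Type} [Field k] (ℓ : ℕ) (a b z : k) (hz : z ≠ 0) (h : a = b * z ^ ℓ) :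
    AdjoinRoot (X ^ ℓ - C a : k[X]) ≃ₐ[k] AdjoinRoot (X ^ ℓ - C b : k[X]) :=
  AlgEquiv.ofAlgHom (homA ℓ a b z h) (homA ℓ b a z⁻¹ (by
      rw [h, mul_assoc, ← mul_pow, mul_inv_cancel₀ hz, one_pow, mul_one]))
    (by
      apply AdjoinRoot.algHom_ext
      rw [AlgHom.comp_apply, homA_root, map_mul, homA_root, AlgHom.commutes, ← mul_assoc, ← map_mul,
        inv_mul_cancel₀ hz, map_one, one_mul]
      rfl)
    (by
      apply AdjoinRoot.algHom_ext
      rw [AlgHom.comp_apply, homA_root, map_mul, homA_root, AlgHom.commutes, ← mul_assoc, ← map_mul,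
        mul_inv_cancel₀ hz, map_one, one_mul]
      rfl)

end norms

section

variable {ℓ : ℕ} {K : Type} [Field K] [NumberField K]

lemma isP_mul {G : Type} [CommGroup G] {x y : G} (hx : IsP ℓ x) (hy : IsP ℓ y) :
    IsP ℓ (x * y) := by
  obtain ⟨a, rfl⟩ := hx
  obtain ⟨b, rfl⟩ := hy
  exact ⟨a * b, (mul_pow a b ℓ).symm⟩

lemma isP_pow {G : Type} [CommGroup G] {x : G} (hx : IsP ℓ x) (n : ℕ) : IsP ℓ (x ^ n) := by
  obtain ⟨a, rfl⟩ := hx
  exact ⟨a ^ n, by rw [← pow_mul, ← pow_mul, mul_comm]⟩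

/-- being a norm depends only on the class of `w` -/
lemma LN_congr {v : Pl K} {w w' z x : Kˣ} (h : w = w' * z ^ ℓ) (hx : LN ℓ v w x) :
    LN ℓ v w' x := by
  rcases hx with hx | ⟨c, hc⟩
  · left
    have h1 : loc v w' = loc v w * (loc v z⁻¹) ^ ℓ := by
      rw [h, map_mul, map_pow, mul_assoc, ← mul_pow, ← map_mul, mul_inv_cancel, map_one, one_pow,
        mul_one]
    rw [h1]
    exact isP_mul hx ⟨_, rfl⟩
  · right
    have h1 : ((loc v w : (v.adicCompletion K)ˣ) : v.adicCompletion K) =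
        (loc v w' : (v.adicCompletion K)ˣ) * ((loc v z : (v.adicCompletion K)ˣ) :
          v.adicCompletion K) ^ ℓ := by
      rw [h, map_mul, map_pow]
      rfl
    refine ⟨equivA ℓ _ _ _ (loc v z).ne_zero h1 c, ?_⟩
    rw [← hc]
    exact (Algebra.norm_eq_of_algEquiv (equivA ℓ _ _ _ (loc v z).ne_zero h1) c)

/-! ### densities -/

lemma fin_le (x : ℝ) : {q : Pl K | (Ideal.absNorm q.asIdeal : ℝ) ≤ x}.Finite := by
  have h1 := Ideal.finite_setOfPred_absNorm_le (S := 𝓞 K) ⌊x⌋₊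
  refine (Set.Finite.preimage (f := fun q : Pl K => q.asIdeal) ?_ h1).subset ?_
  · intro a _ b _ hab
    exact HeightOneSpectrum.ext hab
  · intro q hq
    exact Nat.le_floor hq

/-- the places of norm at most `x` with property `P` -/
def SS (P : Pl K → Prop) (x : ℝ) : Set (Pl K) :=
  {q : Pl K | (Ideal.absNorm q.asIdeal : ℝ) ≤ x ∧ P q}

lemma fin_leP (P : Pl K → Prop) (x : ℝ) : (SS P x).Finite :=
  (fin_le x).subset fun _ hq => hq.1

lemma dens_mono {P Q : Pl K → Prop} {a b : ℝ} (h : ∀ q, P q → Q q) (hP : Dens P a)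
    (hQ : Dens Q b) : a ≤ b := by
  refine le_of_tendsto_of_tendsto hP hQ ?_
  filter_upwards [eventually_gt_atTop 0] with x hx
  refine div_le_div_of_nonneg_right ?_ hx.le
  change (∑ᶠ q ∈ SS P x, Real.log (Ideal.absNorm q.asIdeal)) ≤
    ∑ᶠ q ∈ SS Q x, Real.log (Ideal.absNorm q.asIdeal)
  rw [finsum_mem_eq_finite_toFinset_sum _ (fin_leP P x),
    finsum_mem_eq_finite_toFinset_sum _ (fin_leP Q x)]
  refine Finset.sum_le_sum_of_subset_of_nonneg ?_ fun q _ _ => Real.log_natCast_nonneg _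
  intro q hq
  rw [Set.Finite.mem_toFinset] at hq ⊢
  exact ⟨hq.1, h q hq.2⟩

lemma dens_or {P Q : Pl K → Prop} {a b c : ℝ} (hP : Dens P a) (hQ : Dens Q b)
    (hPQ : Dens (fun q => P q ∧ Q q) c) : Dens (fun q => P q ∨ Q q) (a + b - c) := by
  have h1 := (hP.add hQ).sub hPQ
  refine h1.congr fun x => ?_
  have h2 := finsum_mem_union_inter
    (f := fun q : Pl K => Real.log (Ideal.absNorm q.asIdeal)) (fin_leP P x) (fin_leP Q x)
  have h3 : SS P x ∪ SS Q x = SS (fun q => P q ∨ Q q) x := by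
    ext q
    simp only [Set.mem_union, SS, Set.mem_setOf_eq]
    tauto
  have h4 : SS P x ∩ SS Q x = SS (fun q => P q ∧ Q q) x := by
    ext q
    simp only [Set.mem_inter_iff, SS, Set.mem_setOf_eq]
    tauto
  rw [h3, h4] at h2
  change (∑ᶠ q ∈ SS P x, Real.log (Ideal.absNorm q.asIdeal)) / x +
    (∑ᶠ q ∈ SS Q x, Real.log (Ideal.absNorm q.asIdeal)) / x -
    (∑ᶠ q ∈ SS (fun q => P q ∧ Q q) x, Real.log (Ideal.absNorm q.asIdeal)) / x =
    (∑ᶠ q ∈ SS (fun q => P q ∨ Q q) x, Real.log (Ideal.absNorm q.asIdeal)) / x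
  rw [← add_div, ← sub_div, ← h2, add_sub_cancel_right]

/-! ### global characters -/

lemma fin_val (x : Kˣ) : {v : Pl K | v.valuation K (x : K) ≠ 1}.Finite := by
  have h1 := HeightOneSpectrum.Support.finite (𝓞 K) (x : K)
  have h2 := HeightOneSpectrum.Support.finite (𝓞 K) ((x⁻¹ : Kˣ) : K)
  refine (h1.union h2).subset fun v hv => ?_
  rcases lt_or_gt_of_ne hv with h | h
  · right
    change 1 < v.valuation K ((x⁻¹ : Kˣ) : K)
    rw [Units.val_inv_eq_inv_val, map_inv₀]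
    have h0 : v.valuation K (x : K) ≠ 0 := (Valuation.ne_zero_iff _).2 x.ne_zero
    exact (one_lt_inv₀ (zero_lt_iff.2 h0)).2 h
  · left
    exact h

lemma fin_supp {χ : Pl K → (Kˣ →* Mu ℓ)} (h : GC ℓ χ) (x : Kˣ) :
    (Function.mulSupport fun v => χ v x).Finite := by
  refine (h.unr.union (fin_val x)).subset fun v hv => ?_
  by_contra hc
  simp only [Set.mem_union, Set.mem_setOf_eq, not_or, not_not] at hc
  apply hv
  apply hc.1 x
  rw [hc.2]
  exact Pw.one

lemma GC_one : GC ℓ (fun _ : Pl K => (1 : Kˣ →* Mu ℓ)) where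
  loc _ _ _ := rfl
  unr := by
    convert Set.finite_empty
    ext v
    simp
  prod x := by simp

lemma GC_pow {χ : Pl K → (Kˣ →* Mu ℓ)} (h : GC ℓ χ) (n : ℕ) : GC ℓ (fun v => χ v ^ n) where
  loc v x hx := by
    rw [MonoidHom.pow_apply, h.loc v x hx, one_pow]
  unr := by
    refine h.unr.subset fun v hv hc => hv fun x hx => ?_
    rw [MonoidHom.pow_apply, hc x hx, one_pow]
  prod x := by
    have h1 : (∏ᶠ v : Pl K, (χ v ^ n) x) = (∏ᶠ v : Pl K, χ v x) ^ n := by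
      rw [finprod_pow (fin_supp h x)]
      rfl
    rw [h1, h.prod, one_pow]

end

/-! ### three places -/

lemma exists_place (K : Type) [Field K] [NumberField K] (p : ℕ) (hp : p.Prime) :
    ∃ v : Pl K, (p : 𝓞 K) ∈ v.asIdeal := by
  have hp' : Prime (p : ℤ) := Nat.prime_iff_prime_int.1 hp
  have : (Ideal.span {(p : ℤ)}).IsPrime := (Ideal.span_singleton_prime hp'.ne_zero).2 hp'
  obtain ⟨⟨P, hP1, hP2⟩⟩ := Ideal.nonempty_primesOver (S := 𝓞 K) (Ideal.span {(p : ℤ)})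
  have h3 : (p : 𝓞 K) ∈ P := by
    have h4 : (p : ℤ) ∈ Ideal.comap (algebraMap ℤ (𝓞 K)) P := by
      have h5 := hP2.over
      rw [Ideal.under_def] at h5
      rw [← h5]
      exact Ideal.mem_span_singleton_self _
    simpa using h4
  refine ⟨⟨P, hP1, ?_⟩, h3⟩
  rintro rfl
  rw [Ideal.mem_bot] at h3
  exact hp.ne_zero (by exact_mod_cast h3)

lemma infinite_pl (K : Type) [Field K] [NumberField K] : Infinite (Pl K) := by
  have h1 : ∀ p : Nat.Primes, ∃ v : Pl K, ((p : ℕ) : 𝓞 K) ∈ v.asIdeal := fun p =>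
    exists_place K p p.2
  choose v hv using h1
  have hinj : Function.Injective v := by
    intro p q hpq
    by_contra hne
    have hne' : (p : ℕ) ≠ q := fun h => hne (Subtype.ext h)
    have hc : Nat.Coprime p q := (Nat.coprime_primes p.2 q.2).2 hne'
    have hc' := Nat.isCoprime_iff_coprime.2 hc
    obtain ⟨a, b, hab⟩ := hc'
    have h2 : (1 : 𝓞 K) ∈ (v p).asIdeal := by
      have h3 : (a : 𝓞 K) * ((p : ℕ) : 𝓞 K) + (b : 𝓞 K) * ((q : ℕ) : 𝓞 K) = 1 := by
        exact_mod_cast congrArg (Int.cast : ℤ → 𝓞 K) hab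
      rw [← h3]
      refine Ideal.add_mem _ (Ideal.mul_mem_left _ _ (hv p)) (Ideal.mul_mem_left _ _ ?_)
      rw [hpq]
      exact hv q
    exact (v p).isPrime.ne_top ((Ideal.eq_top_iff_one _).2 h2)
  have : Infinite Nat.Primes := inferInstance
  exact Infinite.of_injective v hinj

/-- elements with prescribed valuations modulo `ℓ` -/
lemma exists_val {ℓ : ℕ} (hℓ : ℓ.Prime) {K : Type} [Field K] [NumberField K] {n : ℕ}
    (v : Fin n → Pl K) (hv : Function.Injective v) (i : Fin n) :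
    ∃ x : Kˣ, ∀ j : Fin n, ∃ m : ℤ,
      WithZero.log ((v j).valuation K (x : K)) = (if i = j then 1 else 0) + ℓ * m := by
  classical
  obtain ⟨π, hπ⟩ := (v i).valuation_exists_uniformizer K
  have hπ0 : π ≠ 0 := by
    rintro rfl
    rw [map_zero] at hπ
    exact WithZero.zero_ne_coe hπ
  obtain ⟨x, hx⟩ := Pool.Agent.T3h73.SL.Wa.t_WA ℓ hℓ K (Finset.univ.image v)
    (fun w => if w = v i then loc w (Units.mk0 π hπ0)⁻¹ else 1)
  refine ⟨x, fun j => ?_⟩
  obtain ⟨z, hz⟩ := hx (v j) (Finset.mem_image_of_mem v (Finset.mem_univ j))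
  have hval : ∀ y : Kˣ, Valued.v ((loc (v j) y : ((v j).adicCompletion K)ˣ) :
      (v j).adicCompletion K) = (v j).valuation K (y : K) := fun y =>
    HeightOneSpectrum.valuedAdicCompletion_eq_valuation' (v j) (y : K)
  have h1 := congrArg (fun u : ((v j).adicCompletion K)ˣ =>
    WithZero.log (Valued.v (u : (v j).adicCompletion K))) hz
  change WithZero.log (Valued.v ((loc (v j) x : ((v j).adicCompletion K)ˣ) :
      (v j).adicCompletion K)) = _ at h1
  rw [hval] at h1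
  rw [h1]
  have hz0 : Valued.v (z : (v j).adicCompletion K) ≠ 0 := (Valuation.ne_zero_iff _).2 z.ne_zero
  refine ⟨WithZero.log (Valued.v (z : (v j).adicCompletion K)), ?_⟩
  rw [Units.val_mul, map_mul, Units.val_pow_eq_pow_val, map_pow]
  by_cases hij : i = j
  · subst hij
    rw [if_pos rfl, if_pos rfl, hval, WithZero.log_mul ?_ (pow_ne_zero _ hz0), WithZero.log_pow]
    · congr 1
      · rw [Units.val_inv_eq_inv_val, map_inv₀, WithZero.log_inv, Units.val_mk0, hπ]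
        rfl
    · exact (Valuation.ne_zero_iff _).2 (Units.ne_zero _)
  · rw [if_neg (fun h => hij (hv h).symm), if_neg hij, Units.val_one, map_one, one_mul,
      WithZero.log_pow, zero_add]
    simp

/-! ### the main argument -/

section main

variable {ℓ : ℕ} {K : Type} [Field K] [NumberField K]

/-- `K^* / K^*ℓ`, additively -/
def VK (ℓ : ℕ) (K : Type) [Field K] : Type := Additive (Kˣ ⧸ Pk ℓ Kˣ)

instance (ℓ : ℕ) (K : Type) [Field K] : AddCommGroup (VK ℓ K) :=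
  inferInstanceAs (AddCommGroup (Additive (Kˣ ⧸ Pk ℓ Kˣ)))

/-- families of characters, additively -/
def WK (ℓ : ℕ) (K : Type) [Field K] [NumberField K] : Type :=
  Additive (Pl K → (Kˣ →* Mu ℓ))

instance (ℓ : ℕ) (K : Type) [Field K] [NumberField K] : AddCommGroup (WK ℓ K) :=
  inferInstanceAs (AddCommGroup (Additive (Pl K → (Kˣ →* Mu ℓ))))

/-- the class of an element -/
def mk (ℓ : ℕ) {K : Type} [Field K] (w : Kˣ) : VK ℓ K :=
  Additive.ofMul (QuotientGroup.mk w : Kˣ ⧸ Pk ℓ Kˣ)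

lemma mk_mul (x y : Kˣ) : mk ℓ (x * y) = mk ℓ x + mk ℓ y := rfl
lemma mk_pow (x : Kˣ) (n : ℕ) : mk ℓ (x ^ n) = n • mk ℓ x := rfl
lemma mk_surj (v : VK ℓ K) : ∃ w : Kˣ, mk ℓ w = v := by
  obtain ⟨w, hw⟩ := QuotientGroup.mk_surjective (Additive.toMul v)
  exact ⟨w, congrArg Additive.ofMul hw⟩
lemma mk_eq_zero (w : Kˣ) : mk ℓ w = 0 ↔ IsP ℓ w := by
  have h1 : mk ℓ w = 0 ↔ (QuotientGroup.mk w : Kˣ ⧸ Pk ℓ Kˣ) = 1 := Iff.rfl
  rw [h1, QuotientGroup.eq_one_iff]
  constructor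
  · rintro ⟨z, hz⟩
    exact ⟨z, hz.symm⟩
  · rintro ⟨z, hz⟩
    exact ⟨z, hz.symm⟩

lemma nsmul_VK (v : VK ℓ K) : ℓ • v = 0 := by
  obtain ⟨w, rfl⟩ := mk_surj v
  rw [← mk_pow, mk_eq_zero]
  exact ⟨w, rfl⟩

lemma nsmul_WK (v : WK ℓ K) : ℓ • v = 0 := by
  change Additive.ofMul ((Additive.toMul v) ^ ℓ) = Additive.ofMul 1
  congr 1
  funext p
  ext x
  rw [Pi.pow_apply, MonoidHom.pow_apply, Pi.one_apply, MonoidHom.one_apply]
  change Multiplicative.ofAdd (ℓ • Multiplicative.toAdd (Additive.toMul v p x)) = 1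
  rw [← Nat.cast_smul_eq_nsmul (ZMod ℓ), ZMod.natCast_self, zero_smul]
  rfl

theorem core (hFI : S_FI) (hDC : S_DC) (hDK : S_DK) (hF : S_FTPG) (ℓ : ℕ) [Fact ℓ.Prime]
    (hℓ : ℓ.Prime) (hℓ2 : ℓ ≠ 2) (K : Type) [Field K] [NumberField K] (ζ : K)
    (hζ : IsPrimitiveRoot ζ ℓ) [Module (ZMod ℓ) (VK ℓ K)] [Module (ZMod ℓ) (WK ℓ K)] :
    ∃ ψ : Pl K → (Kˣ →* Kˣ →* Mu ℓ), ∀ w : Kˣ, GC ℓ (fun v => ψ v w) ∧
    (∀ v x, LN ℓ v w x → ψ v w x = 1) ∧ ((∀ v x, ψ v w x = 1) → IsP ℓ w) := by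
  classical
  have hcV : ∀ (n : ℕ) (v : VK ℓ K), (n : ZMod ℓ) • v = n • v := fun n v =>
    Nat.cast_smul_eq_nsmul (ZMod ℓ) n v
  have hcW : ∀ (n : ℕ) (v : WK ℓ K), (n : ZMod ℓ) • v = n • v := fun n v =>
    Nat.cast_smul_eq_nsmul (ZMod ℓ) n v
  have hval : ∀ a : ZMod ℓ, ((a.val : ℕ) : ZMod ℓ) = a := fun a => ZMod.natCast_zmod_val a
  -- the characters
  choose χ hχ using fun (w : Kˣ) (hw : ¬ IsP ℓ w) => hFI ℓ hℓ hℓ2 K ζ hζ w hw
  choose rep hrep using fun v : VK ℓ K => mk_surj v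
  have hnp : ∀ v : VK ℓ K, v ≠ 0 → ¬ IsP ℓ (rep v) := fun v hv hc =>
    hv (by rw [← hrep v]; exact (mk_eq_zero _).2 hc)
  let f : VK ℓ K → WK ℓ K := fun v =>
    if h : v = 0 then 0 else Additive.ofMul (χ (rep v) (hnp v h))
  have hf : ∀ v (h : v ≠ 0), f v = Additive.ofMul (χ (rep v) (hnp v h)) := fun v h => dif_neg h
  -- `f v` at a place and an element
  let ev : WK ℓ K → Pl K → (Kˣ →* Mu ℓ) := fun F => Additive.toMul F
  have ev_nsmul : ∀ (n : ℕ) (F : WK ℓ K) (q : Pl K), ev (n • F) q = ev F q ^ n := fun _ _ _ => rfl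
  have ev_add : ∀ (F G : WK ℓ K) (q : Pl K), ev (F + G) q = ev F q * ev G q := fun _ _ _ => rfl
  have hGC : ∀ v, v ≠ 0 → GC ℓ (ev (f v)) := fun v hv => by
    rw [hf v hv]; exact (hχ _ (hnp v hv)).1
  have hLN : ∀ v, v ≠ 0 → ∀ q x, LN ℓ q (rep v) x → ev (f v) q x = 1 := fun v hv => by
    rw [hf v hv]; exact (hχ _ (hnp v hv)).2.1
  have hne : ∀ v, v ≠ 0 → f v ≠ 0 := by
    intro v hv h0
    obtain ⟨q, x, hqx⟩ := (hχ _ (hnp v hv)).2.2
    rw [hf v hv] at h0
    apply hqx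
    have h1 := congrFun (congrArg Additive.toMul h0) q
    change χ (rep v) (hnp v hv) q = 1 at h1
    rw [h1]
    rfl
  have htriv : ∀ v, v ≠ 0 → ∀ q, IsP ℓ (loc q (rep v)) → ev (f v) q = 1 := by
    intro v hv q hq
    ext x
    rw [hLN v hv q x (Or.inl hq)]
    rfl
  -- several linearly independent characters
  have hDC' : ∀ (r : ℕ) (F : Fin r → WK ℓ K), (∀ i, GC ℓ (ev (F i))) →
      LinearIndependent (ZMod ℓ) F → Dens (fun q : Pl K => ∀ i, ev (F i) q = 1) (1 / ℓ ^ r) := by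
    intro r F hF1 hF2
    have h1 := hDC ℓ hℓ hℓ2 K ζ hζ r (fun i => ev (F i)) hF1 (by
      intro a ha i
      rw [Fintype.linearIndependent_iff] at hF2
      have h2 : ∑ i, ((a i : ℕ) : ZMod ℓ) • F i = 0 := by
        have h3 : ∑ i, ((a i : ℕ) : ZMod ℓ) • F i = Additive.ofMul (∏ i, (ev (F i)) ^ a i) := by
          rw [ofMul_prod]
          exact Finset.sum_congr rfl fun i _ => by rw [hcW]; rfl
        rw [h3]
        change Additive.ofMul _ = Additive.ofMul 1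
        congr 1
        funext q
        ext x
        rw [Finset.prod_apply, MonoidHom.finset_prod_apply]
        exact ha q x
      have h4 := hF2 _ h2 i
      exact (ZMod.natCast_eq_zero_iff _ _).1 h4)
    have h5 : (fun q : Pl K => ∀ (i : Fin r) (x : Kˣ), ev (F i) q x = 1) =
        fun q : Pl K => ∀ i, ev (F i) q = 1 := by
      funext q
      refine propext (forall_congr' fun i => ?_)
      exact ⟨fun h => MonoidHom.ext h, fun h x => by rw [h]; rfl⟩
    rw [h5] at h1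
    exact h1
  -- two independent elements
  have hDK' : ∀ v₁ v₂ : VK ℓ K, LinearIndependent (ZMod ℓ) ![v₁, v₂] →
      Dens (fun q : Pl K => IsP ℓ (loc q (rep v₁))) (1 / ℓ) ∧
      Dens (fun q : Pl K => IsP ℓ (loc q (rep v₂))) (1 / ℓ) ∧
      Dens (fun q : Pl K => IsP ℓ (loc q (rep v₁)) ∧ IsP ℓ (loc q (rep v₂))) (1 / ℓ ^ 2) := by
    intro v₁ v₂ hli
    have h1 : v₁ ≠ 0 := hli.ne_zero 0
    have h2 : v₂ ≠ 0 := hli.ne_zero 1
    refine ⟨(hDK ℓ hℓ K ζ hζ _ (rep v₂) (hnp v₁ h1)).1, (hDK ℓ hℓ K ζ hζ _ (rep v₂) (hnp v₂ h2)).1,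
      (hDK ℓ hℓ K ζ hζ _ (rep v₂) (hnp v₁ h1)).2 ?_⟩
    intro a b hab
    rw [← mk_eq_zero, mk_mul, mk_pow, mk_pow, hrep, hrep, ← hcV, ← hcV] at hab
    rw [LinearIndependent.pair_iff] at hli
    obtain ⟨ha, hb⟩ := hli _ _ hab
    exact ⟨(ZMod.natCast_eq_zero_iff _ _).1 ha, (ZMod.natCast_eq_zero_iff _ _).1 hb⟩
  have hℓ1 : (1 : ℝ) < ℓ := by exact_mod_cast hℓ.one_lt
  have hℓ0 : (0 : ℝ) < ℓ := by linarith
  -- independent classes give independent characters
  have hind : ∀ v₁ v₂ : VK ℓ K, LinearIndependent (ZMod ℓ) ![v₁, v₂] →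
      LinearIndependent (ZMod ℓ) ![f v₁, f v₂] := by
    intro v₁ v₂ hli
    have h1 : v₁ ≠ 0 := hli.ne_zero 0
    have h2 : v₂ ≠ 0 := hli.ne_zero 1
    by_contra hc
    rw [LinearIndependent.pair_iff' (hne v₁ h1)] at hc
    push Not at hc
    obtain ⟨a, ha⟩ := hc
    obtain ⟨d1, d2, d3⟩ := hDK' v₁ v₂ hli
    have h3 := dens_or d1 d2 d3
    have h4 := hDC' 1 ![f v₂] (by
      intro i
      fin_cases i
      exact hGC v₂ h2) (by
      rw [linearIndependent_unique_iff]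
      exact hne v₂ h2)
    have h5 := dens_mono (P := fun q : Pl K => IsP ℓ (loc q (rep v₁)) ∨ IsP ℓ (loc q (rep v₂)))
      (Q := fun q : Pl K => ∀ i : Fin 1, ev ((![f v₂] : Fin 1 → WK ℓ K) i) q = 1) (by
        intro q hq i
        fin_cases i
        change ev (f v₂) q = 1
        rcases hq with hq | hq
        · rw [← ha, ← hval a, hcW, ev_nsmul, htriv v₁ h1 q hq, one_pow]
        · exact htriv v₂ h2 q hq) h3 h4
    rw [pow_one] at h5
    have h6 : (1 : ℝ) / ℓ ≤ 1 / ℓ ^ 2 := by linarith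
    rw [div_le_div_iff₀ hℓ0 (by positivity)] at h6
    nlinarith
  obtain ⟨Φ, hΦ⟩ := hF ℓ (VK ℓ K) (WK ℓ K) f hne hind (by
    intro v₁ v₂ v₃ hli h3 hv₃
    have h1 : v₁ ≠ 0 := hli.ne_zero 0
    have h2 : v₂ ≠ 0 := hli.ne_zero 1
    by_contra hc
    have hli3 : LinearIndependent (ZMod ℓ) ![f v₃, f v₁, f v₂] := by
      refine linearIndependent_fin_cons.2 ⟨hind v₁ v₂ hli, ?_⟩
      rw [Matrix.range_cons, Matrix.range_cons, Matrix.range_empty, Set.union_empty]
      exact hc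
    obtain ⟨d1, d2, d3⟩ := hDK' v₁ v₂ hli
    have h4 := hDC' 3 ![f v₃, f v₁, f v₂] (by
      intro i
      fin_cases i
      · exact hGC v₃ h3
      · exact hGC v₁ h1
      · exact hGC v₂ h2) hli3
    have h5 := dens_mono (P := fun q : Pl K => IsP ℓ (loc q (rep v₁)) ∧ IsP ℓ (loc q (rep v₂)))
      (Q := fun q : Pl K => ∀ i : Fin 3, ev ((![f v₃, f v₁, f v₂] : Fin 3 → WK ℓ K) i) q = 1) (by
        intro q hq i
        fin_cases i
        · change ev (f v₃) q = 1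
          apply htriv v₃ h3 q
          obtain ⟨a, b, hab⟩ := Submodule.mem_span_pair.1 hv₃
          have h6 : mk ℓ (rep v₁ ^ a.val * rep v₂ ^ b.val) = mk ℓ (rep v₃) := by
            rw [mk_mul, mk_pow, mk_pow, hrep, hrep, hrep, ← hcV, ← hcV, hval, hval, hab]
          have h7 : (rep v₁ ^ a.val * rep v₂ ^ b.val)⁻¹ * rep v₃ ∈ Pk ℓ Kˣ :=
            QuotientGroup.eq.1 (congrArg Additive.toMul h6)
          obtain ⟨z, hz⟩ := h7
          change z ^ ℓ = _ at hz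
          have h8 : rep v₃ = rep v₁ ^ a.val * rep v₂ ^ b.val * z ^ ℓ := by
            rw [hz, mul_inv_cancel_left]
          rw [h8, map_mul, map_mul, map_pow, map_pow, map_pow]
          exact isP_mul (isP_mul (isP_pow hq.1 _) (isP_pow hq.2 _)) ⟨_, rfl⟩
        · exact htriv v₁ h1 q hq.1
        · exact htriv v₂ h2 q hq.2) d3 h4
    rw [div_le_div_iff₀ (by positivity) (by positivity)] at h5
    have h9 : (ℓ : ℝ) ^ 3 = ℓ ^ 2 * ℓ := by ring
    have h10 : (0 : ℝ) < (ℓ : ℝ) ^ 2 := by positivity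
    nlinarith) (by
    haveI := infinite_pl K
    let v : Fin 3 ↪ Pl K := (Fin.valEmbedding).trans (Infinite.natEmbedding (Pl K))
    choose x hx using exists_val hℓ v v.injective
    refine ⟨fun i => mk ℓ (x i), ?_⟩
    rw [Fintype.linearIndependent_iff]
    intro g hg j
    have h1 : mk ℓ (∏ i, x i ^ (g i).val) = 0 := by
      have h2 : mk ℓ (∏ i, x i ^ (g i).val) = ∑ i, (g i).val • mk ℓ (x i) := by
        simp only [Fin.prod_univ_three, Fin.sum_univ_three, mk_mul, mk_pow]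
      rw [h2, ← hg]
      refine Finset.sum_congr rfl fun i _ => ?_
      rw [← hcV, hval]
    rw [mk_eq_zero] at h1
    obtain ⟨z, hz⟩ := h1
    choose m hm using fun i => hx i j
    have hxn : ∀ i, (v j).valuation K (x i : K) ≠ 0 := fun i =>
      (Valuation.ne_zero_iff _).2 (x i).ne_zero
    have hz0 : (v j).valuation K (z : K) ≠ 0 := (Valuation.ne_zero_iff _).2 z.ne_zero
    have h3 := congrArg (fun u : Kˣ => WithZero.log ((v j).valuation K (u : K))) hz
    simp only [Fin.prod_univ_three, Units.val_mul, Units.val_pow_eq_pow_val, map_mul, map_pow] at h3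
    rw [WithZero.log_mul (mul_ne_zero (pow_ne_zero _ (hxn 0)) (pow_ne_zero _ (hxn 1)))
      (pow_ne_zero _ (hxn 2)), WithZero.log_mul (pow_ne_zero _ (hxn 0)) (pow_ne_zero _ (hxn 1)),
      WithZero.log_pow, WithZero.log_pow, WithZero.log_pow, WithZero.log_pow, hm 0, hm 1, hm 2] at h3
    have h4 : (ℓ : ℤ) ∣ ((g j).val : ℤ) := by
      refine ⟨WithZero.log ((v j).valuation K (z : K)) - (g 0).val * m 0 - (g 1).val * m 1 -
        (g 2).val * m 2, ?_⟩
      simp only [nsmul_eq_mul] at h3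
      fin_cases j
      · simp at h3 ⊢
        linarith
      · simp at h3 ⊢
        linarith
      · simp at h3 ⊢
        linarith
    have h5 : ((g j).val : ZMod ℓ) = 0 := by
      rw [ZMod.natCast_eq_zero_iff]
      exact_mod_cast h4
    rw [hval] at h5
    exact h5)
  -- the family
  have hΦ0 : ∀ w : Kˣ, mk ℓ w = 0 → Φ (mk ℓ w) = 0 := fun w hw => by rw [hw, map_zero]
  refine ⟨fun q =>
    { toFun := fun w => ev (Φ (mk ℓ w)) q
      map_one' := by
        have : mk ℓ (1 : Kˣ) = 0 := (mk_eq_zero _).2 ⟨1, (one_pow ℓ).symm⟩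
        rw [hΦ0 _ this]
        rfl
      map_mul' := fun w w' => by
        rw [mk_mul, map_add, ev_add] }, fun w => ?_⟩
  change GC ℓ (ev (Φ (mk ℓ w))) ∧ (∀ q x, LN ℓ q w x → ev (Φ (mk ℓ w)) q x = 1) ∧
    ((∀ q x, ev (Φ (mk ℓ w)) q x = 1) → IsP ℓ w)
  by_cases hw : mk ℓ w = 0
  · rw [hΦ0 w hw]
    exact ⟨GC_one, fun q x _ => rfl, fun _ => (mk_eq_zero w).1 hw⟩
  · obtain ⟨hΦ1, a, ha⟩ := hΦ _ hw
    rw [← hval a, hcW] at ha
    have he : ev (Φ (mk ℓ w)) = fun q => ev (f (mk ℓ w)) q ^ a.val := by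
      funext q
      rw [ha, ev_nsmul]
    refine ⟨?_, fun q x hx => ?_, fun h => ?_⟩
    · rw [he]
      exact GC_pow (hGC _ hw) _
    · rw [he]
      change (ev (f (mk ℓ w)) q ^ a.val) x = 1
      have h1 : LN ℓ q (rep (mk ℓ w)) x := by
        have h2 : (rep (mk ℓ w))⁻¹ * w ∈ Pk ℓ Kˣ :=
          QuotientGroup.eq.1 (congrArg Additive.toMul (hrep (mk ℓ w)))
        obtain ⟨z, hz⟩ := h2
        change z ^ ℓ = _ at hz
        exact LN_congr (z := z) (by rw [hz, mul_inv_cancel_left]) hx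
      rw [MonoidHom.pow_apply, hLN _ hw q x h1, one_pow]
    · exfalso
      apply hΦ1
      change Additive.ofMul (ev (Φ (mk ℓ w))) = Additive.ofMul 1
      congr 1
      funext q
      ext x
      rw [h q x]
      rfl

theorem t_PHI (hFI : S_FI) (hDC : S_DC) (hDK : S_DK) (hF : S_FTPG) : S_PHI := by
  intro ℓ hℓ hℓ2 K _ _ ζ hζ
  haveI : Fact ℓ.Prime := ⟨hℓ⟩
  letI mV : Module (ZMod ℓ) (VK ℓ K) := AddCommGroup.zmodModule nsmul_VK
  letI mW : Module (ZMod ℓ) (WK ℓ K) := AddCommGroup.zmodModule nsmul_WK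
  exact core hFI hDC hDK hF ℓ hℓ hℓ2 K ζ hζ

end main

end Pool.Agent.T3h73.SD.PHI
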