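import Pool.Agent.T3h73.SD.Stm4

/-! Project SD, task SV (helper91): the local symbols with values in `ZMod ℓ`. -/

set_option autoImplicit false
set_option linter.all false

open NumberField IsDedekindDomain

namespace Pool.Agent.T3h73.SD.SV

open Pool.Agent.T3h73.SL (Pl IsP loc)
open Pool.Agent.Y713.SE (Pw)

theorem t_SV (hREC : S_REC) : S_SV := by
  intro ℓ hℓ hℓ2 K _ _ ζ hζ
  obtain ⟨ψ, h1, h2, h3, h4, h5, h6, h7⟩ := hREC ℓ hℓ hℓ2 K ζ hζ
  refine ⟨fun v x y => Multiplicative.toAdd (ψ v x y), ?_⟩
  refine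
    { mul_left := fun v x x' y => ?_
      mul_right := fun v x y y' => ?_
      alt := fun v x => ?_
      ln := fun v x y h => ?_
      pow_left := fun v x y h => ?_
      pow_right := fun v x y h => ?_
      unr := fun v hv x y hx hy => ?_
      nd := fun v x h => ?_
      prod := fun B hB x y h => ?_ }
  · rw [map_mul, MonoidHom.mul_apply, toAdd_mul]
  · rw [map_mul, toAdd_mul]
  · rw [h4 v x, toAdd_one]
  · rw [h1 v x y h, toAdd_one]
  · rw [h3 v x y h, toAdd_one]
  · rw [h2 v x y h, toAdd_one]
  · rw [h5 v hv x y hx hy, toAdd_one]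
  · exact h7 v x fun y => Multiplicative.toAdd.injective (by rw [h y, toAdd_one])
  · rw [← toAdd_prod]
    have h8 := h6 x y
    rw [finprod_eq_prod_of_mulSupport_subset (s := B) _ ?_] at h8
    · rw [h8, toAdd_one]
    · intro v hv
      rw [Function.mem_mulSupport] at hv
      by_contra hvB
      refine hv (h5 v ?_ x y (h v hvB).1 (h v hvB).2)
      by_contra h9
      exact hvB (hB v h9)

end Pool.Agent.T3h73.SD.SV
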