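import Pool.Agent.T3h73.SD.TUN2
import Pool.Agent.Helper832_EG.PD6

/-!
# Project SD, task TUN: the index of the norms of the units outside `T` in a Kummer extension
-/

set_option autoImplicit false
set_option linter.all false

open NumberField IsDedekindDomain Polynomial Module

namespace Pool.Agent.T3h73.SD.TUN

open Pool.Agent.T3h73.SL (Pl IsP Pk loc)
open Pool.Agent.Y713.SE (Pw)
open Pool.Agent.TeamU (Over SE SU act act_mul val_act val_act' over_act exists_act val_over
  over_unique b2_exists_over b2_exists_under over_finite SE_finite over_mem_SE_iff liesOver_of_over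
  su_fg su_rank finrank_additive_congr finite_valuation_ne_one)

section fin
variable {K M : Type} [Field K] [NumberField K] [Field M] [NumberField M] [Algebra K M]

theorem not_mem_SE (T : Finset (Pl K)) (P : Pl M) :
    P ∉ SE M T ↔ ∀ v ∈ T, ¬ v.asIdeal.map (algebraMap (𝓞 K) (𝓞 M)) ≤ P.asIdeal := by
  constructor
  · intro h v hv hle
    apply h
    refine ⟨v, hv, ?_⟩
    rw [Ideal.map_le_iff_le_comap] at hle
    haveI : v.asIdeal.IsMaximal := v.isPrime.isMaximal v.ne_bot
    haveI := P.isPrime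
    have h1 : (P.asIdeal.comap (algebraMap (𝓞 K) (𝓞 M))).IsPrime := inferInstance
    exact (Ideal.IsMaximal.eq_of_le inferInstance h1.ne_top hle).symm
  · rintro h ⟨v, hv, hP⟩
    apply h v hv
    rw [Ideal.map_le_iff_le_comap]
    exact (Eq.symm hP).le

theorem count {ℓ : ℕ} (hℓ : ℓ.Prime) (hg : IsGalois K M) (hd : finrank K M = ℓ)
    [DecidablePred fun v : Pl K => {P : Pl M | Over P v}.ncard = 1] (T : Finset (Pl K)) :
    (SE M T).ncard + (ℓ - 1) * (T.filter fun v => {P : Pl M | Over P v}.ncard = 1).card =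
      ℓ * T.card := by
  classical
  induction T using Finset.induction_on with
  | empty =>
    have h : SE M (∅ : Finset (Pl K)) = ∅ := by
      ext P; simp [SE]
    rw [h]; simp
  | insert v T hv ih =>
    have h1 : SE M (insert v T) = {P : Pl M | Over P v} ∪ SE M T := by
      ext P
      constructor
      · rintro ⟨u, hu, hP⟩
        rcases Finset.mem_insert.1 hu with rfl | hu
        · left; exact hP
        · right; exact ⟨u, hu, hP⟩
      · rintro (hP | ⟨u, hu, hP⟩)
        · exact ⟨v, Finset.mem_insert_self _ _, hP⟩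
        · exact ⟨u, Finset.mem_insert_of_mem hu, hP⟩
    have hdis : Disjoint {P : Pl M | Over P v} (SE M T) := by
      rw [Set.disjoint_left]
      rintro P hP ⟨u, hu, hP'⟩
      rw [over_unique hP' hP] at hu
      exact hv hu
    rw [h1, Set.ncard_union_eq hdis (over_finite v) (SE_finite T), Finset.filter_insert,
      Finset.card_insert_of_notMem hv, mul_add, mul_one, ← ih]
    rcases ncard_cases (M := M) hℓ hg hd v with h | h
    · rw [if_pos h, h, Finset.card_insert_of_notMem
        (fun hm => hv (Finset.mem_filter.1 hm).1)]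
      have := hℓ.pos
      obtain ⟨m, rfl⟩ : ∃ m, ℓ = m + 1 := ⟨ℓ - 1, by omega⟩
      rw [Nat.add_sub_cancel]
      ring
    · rw [if_neg (by rw [h]; exact hℓ.ne_one), h]
      ring

/-- the norm on an abelian group with an automorphism -/
def nu {U : Type} [CommGroup U] (p : ℕ) (s : U →* U) : U →* U where
  toFun u := ∏ i ∈ Finset.range p, s^[i] u
  map_one' := Finset.prod_eq_one fun i _ => iterate_map_one s i
  map_mul' a b := by
    rw [← Finset.prod_mul_distrib]
    exact Finset.prod_congr rfl fun i _ => iterate_map_mul s i a b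

/-- the first cohomology of the units outside `T` is trivial -/
theorem h90T {σ : M ≃ₐ[K] M} (hg : IsGalois K M)
    (hgen : ∀ τ : M ≃ₐ[K] M, τ ∈ Subgroup.zpowers σ) {T : Finset (Pl K)}
    (hcl : ∀ m : Pl K → ℤ, {v | m v ≠ 0}.Finite →
      ∃ x : Kˣ, ∀ v, v ∉ T → v.valuation K (x : K) = WithZero.exp (-(m v)))
    (hunr : ∀ (P : Pl M) (v : Pl K), Over P v → v ∉ T → ∀ x : K,
      P.valuation M (algebraMap K M x) = v.valuation K x)
    (u : Mˣ) (hu : u ∈ (SE M T).unit M) (hn : Algebra.norm K (u : M) = 1) :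
    ∃ y ∈ (SE M T).unit M, (u : M) = σ (y : M) / (y : M) := by
  classical
  haveI : FiniteDimensional K M := Module.Finite.of_restrictScalars_finite ℚ K M
  haveI : IsCyclic (M ≃ₐ[K] M) := ⟨σ, hgen⟩
  obtain ⟨y₀, hy₀⟩ := groupCohomology.exists_div_of_norm_eq_one hgen hn
  set y : M := ((y₀⁻¹ : Mˣ) : M) with hy
  have hy0 : y ≠ 0 := (y₀⁻¹ : Mˣ).ne_zero
  have hyu : (u : M) = σ y / y := by
    rw [← hy₀, hy, Units.val_inv_eq_inv_val, map_inv₀, div_inv_eq_mul, inv_mul_eq_div]
  have hval : ∀ P : Pl M, P ∉ SE M T → P.valuation M (σ y) = P.valuation M y := by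
    intro P hP
    have h1 : P.valuation M (u : M) = 1 := hu P hP
    rw [hyu, map_div₀, div_eq_one_iff_eq ((Valuation.ne_zero_iff _).mpr hy0)] at h1
    exact h1
  have hpow : ∀ (n : ℕ) (P : Pl M), P ∉ SE M T → P.valuation M ((σ ^ n) y) = P.valuation M y := by
    intro n
    induction n with
    | zero => intro P _; rfl
    | succ n ih =>
      intro P hP
      have h1 := val_act' σ.symm P ((σ ^ n) y)
      rw [AlgEquiv.symm_symm] at h1
      have h2 := val_act' σ.symm P y
      rw [AlgEquiv.symm_symm] at h2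
      rw [pow_succ', AlgEquiv.mul_apply, ← h1, ih, h2, hval P hP]
      intro h3
      apply hP
      obtain ⟨v, hv⟩ := b2_exists_under (M := K) P
      rw [over_mem_SE_iff hv]
      rwa [over_mem_SE_iff (over_act σ.symm hv)] at h3
  have hex : ∀ v : Pl K, ∃ P : Pl M, Over P v := fun v => b2_exists_over v
  choose Pv hPv using hex
  have hcon : ∀ (v : Pl K) (P : Pl M), v ∉ T → Over P v →
      P.valuation M y = (Pv v).valuation M y := by
    intro v P hv hP
    obtain ⟨τ, hτ⟩ := exists_act (k := K) (hPv v) hP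
    have hPS : Pv v ∉ SE M T := by rw [over_mem_SE_iff (hPv v)]; exact hv
    rw [← hτ, val_act']
    have h1 : (τ.symm : M ≃ₐ[K] M) ∈ Submonoid.powers σ :=
      mem_powers_iff_mem_zpowers.2 (hgen _)
    obtain ⟨n, hn'⟩ := h1
    rw [← hn']
    exact hpow n _ hPS
  have hn0 : ∀ v, (Pv v).valuation M y ≠ 0 := fun v => (Valuation.ne_zero_iff _).mpr hy0
  let m : Pl K → ℤ := fun v => -WithZero.log ((Pv v).valuation M y)
  have hm : ∀ v, WithZero.exp (-(m v)) = (Pv v).valuation M y := fun v => by
    show WithZero.exp (-(-WithZero.log ((Pv v).valuation M y))) = _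
    rw [neg_neg, WithZero.exp_log (hn0 v)]
  have hfin : {v | m v ≠ 0}.Finite := by
    refine Set.Finite.of_finite_image (f := Pv) ((finite_valuation_ne_one y hy0).subset ?_) ?_
    · rintro _ ⟨v, hv, rfl⟩
      intro h
      apply hv
      show -WithZero.log ((Pv v).valuation M y) = 0
      rw [h, WithZero.log_one, neg_zero]
    · intro v _ w _ h
      exact over_unique (hPv v) (h ▸ hPv w)
  obtain ⟨α, hα⟩ := hcl m hfin
  have hα0 : algebraMap K M (α : K) ≠ 0 := by
    rw [Ne, FaithfulSMul.algebraMap_eq_zero_iff]; exact α.ne_zero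
  refine ⟨Units.mk0 (y / algebraMap K M (α : K)) (div_ne_zero hy0 hα0), ?_, ?_⟩
  · intro P hP
    obtain ⟨v, hv⟩ := b2_exists_under (M := K) P
    have hvS : v ∉ T := by rw [over_mem_SE_iff hv] at hP; exact hP
    rw [Units.val_mk0, map_div₀, hunr P v hv hvS, hα v hvS, hm, hcon v P hvS hv,
      div_self (hn0 v)]
  · rw [Units.val_mk0, map_div₀, AlgEquiv.commutes, div_div_div_cancel_right₀ hα0]
    exact hyu

end fin

theorem t_TUN (hH : S_HERB) : S_TUN := by
  classical
  intro ℓ hℓ hodd K _ _ ζ hζ w hw T hTl hTw hT M _ _ _ r hr hd E N hE hN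
  haveI : FiniteDimensional K M := Module.Finite.of_restrictScalars_finite ℚ K M
  obtain ⟨hg, σ, hσ, hgen, ho⟩ := exists_gen hℓ hζ hw hr hd
  haveI := hg
  haveI : IsTotallyComplex K := NumberField.nrRealPlaces_eq_zero_iff.1
    (NumberField.InfinitePlace.IsPrimitiveRoot.nrRealPlaces_eq_zero_of_two_lt
      (lt_of_le_of_ne hℓ.two_le (Ne.symm hodd)) hζ)
  haveI : IsTotallyComplex M := isTotallyComplex_of_algebra K M
  have hunr : ∀ (P : Pl M) (v : Pl K), Over P v → v ∉ T → ∀ x : K,
      P.valuation M (algebraMap K M x) = v.valuation K x := by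
    intro P v hP hv x
    refine unr hℓ hζ hr hd hg hσ hgen ho ?_ (hTw v hv) hP x
    by_contra h
    exact hv (hTl v h)
  set U : Subgroup Mˣ := (SE M T).unit M with hU
  have hUmem : ∀ x : Mˣ, x ∈ U ↔ ∀ P : Pl M, P ∉ SE M T → P.valuation M (x : M) = 1 :=
    fun x => Iff.rfl
  obtain ⟨SF, hSF⟩ : ∃ SF : Finset (Pl M), (SF : Set (Pl M)) = SE M T :=
    ⟨(SE_finite T).toFinset, by simp⟩
  haveI hUfin : Module.Finite ℤ (Additive U) := by
    rw [hU, ← hSF]; exact su_fg SF
  have hUrank : finrank ℤ (Additive U) = Units.rank M + (SE M T).ncard := by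
    rw [hU, ← hSF, Set.ncard_coe_finset]; exact su_rank SF
  -- stability
  have hstab : ∀ x ∈ U, Units.map (σ : M →* M) x ∈ U := by
    intro x hx P hP
    have h1 := val_act' σ.symm P (x : M)
    rw [AlgEquiv.symm_symm] at h1
    change P.valuation M (σ (x : M)) = 1
    rw [← h1]
    apply hx
    intro h3
    apply hP
    obtain ⟨v, hv⟩ := b2_exists_under (M := K) P
    rw [over_mem_SE_iff hv]
    rwa [over_mem_SE_iff (over_act σ.symm hv)] at h3
  let s : U →* U := ((Units.map (σ : M →* M)).comp U.subtype).codRestrict U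
    (fun x => hstab x x.2)
  have hsval : ∀ u : U, (((s u : U) : Mˣ) : M) = σ ((u : Mˣ) : M) := fun u => rfl
  have hsit : ∀ (i : ℕ) (u : U), (((s^[i] u : U) : Mˣ) : M) = (σ ^ i) ((u : Mˣ) : M) := by
    intro i u
    induction i with
    | zero => rfl
    | succ i ih => rw [Function.iterate_succ_apply', hsval, ih, pow_succ', AlgEquiv.mul_apply]
  have hsℓ : ∀ u, s^[ℓ] u = u := by
    intro u
    apply Subtype.ext
    apply Units.ext
    rw [hsit, ← ho, pow_orderOf_eq_one, AlgEquiv.one_apply]
  let δ : U →* U := s / MonoidHom.id U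
  have hδ : ∀ u, δ u = s u / u := fun u => rfl
  let ν : U →* U := nu ℓ s
  have hν : ∀ u, ν u = ∏ i ∈ Finset.range ℓ, s^[i] u := fun u => rfl
  have hνval : ∀ u : U, (((ν u : U) : Mˣ) : M) = algebraMap K M (Algebra.norm K ((u : Mˣ) : M)) := by
    intro u
    rw [norm_eq hg hgen ho, hν]
    have h1 : (((∏ i ∈ Finset.range ℓ, s^[i] u : U) : Mˣ) : M) =
        ∏ i ∈ Finset.range ℓ, (((s^[i] u : U) : Mˣ) : M) := by
      rw [Subgroup.val_finset_prod, Units.coe_prod]
    rw [h1]
    exact Finset.prod_congr rfl fun i _ => hsit i u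
  -- transport to `K`
  let iM : Kˣ →* Mˣ := Units.map (algebraMap K M : K →* M)
  have hiM : Function.Injective iM := Units.map_injective (algebraMap K M).injective
  have hker : ∀ u : U, u ∈ δ.ker ↔ σ ((u : Mˣ) : M) = ((u : Mˣ) : M) := by
    intro u
    rw [MonoidHom.mem_ker, hδ, div_eq_one]
    constructor
    · intro h
      exact congrArg (fun z : U => ((z : Mˣ) : M)) h
    · intro h
      exact Subtype.ext (Units.ext h)
  have hmapV : E.map iM = δ.ker.map U.subtype := by
    ext x
    constructor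
    · rintro ⟨y, hy, rfl⟩
      refine ⟨⟨iM y, ?_⟩, ?_, rfl⟩
      · intro P hP
        obtain ⟨v, hv⟩ := b2_exists_under (M := K) P
        have hvS : v ∉ T := by rw [over_mem_SE_iff hv] at hP; exact hP
        change P.valuation M (algebraMap K M (y : K)) = 1
        rw [hunr P v hv hvS]
        exact (hE y).1 hy v hvS
      · change (⟨iM y, _⟩ : U) ∈ δ.ker
        rw [hker]
        exact σ.commutes (y : K)
    · rintro ⟨u, hu, rfl⟩
      obtain ⟨y, hy⟩ := fixed hg hgen ((hker u).1 hu)
      have hy0 : y ≠ 0 := by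
        rintro rfl
        rw [map_zero] at hy
        exact (u : Mˣ).ne_zero hy.symm
      refine ⟨Units.mk0 y hy0, ?_, ?_⟩
      · refine (hE _).2 fun v hv => ?_
        obtain ⟨P, hP⟩ := b2_exists_over (E := M) v
        have hPS : P ∉ SE M T := by rw [over_mem_SE_iff hP]; exact hv
        rw [Units.val_mk0, ← hunr P v hP hv, hy]
        exact u.2 P hPS
      · apply Units.ext
        exact hy
  have hmapN : N.map iM = ν.range.map U.subtype := by
    ext x
    constructor
    · rintro ⟨y, hy, rfl⟩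
      obtain ⟨z, hz, hzy⟩ := (hN y).1 hy
      have hz0 : z ≠ 0 := by
        rintro rfl
        rw [Algebra.norm_zero] at hzy
        exact y.ne_zero hzy.symm
      have hzU : Units.mk0 z hz0 ∈ U := fun P hP => hz P ((not_mem_SE T P).1 hP)
      refine ⟨ν ⟨Units.mk0 z hz0, hzU⟩, ⟨_, rfl⟩, ?_⟩
      apply Units.ext
      change (((ν ⟨Units.mk0 z hz0, hzU⟩ : U) : Mˣ) : M) = algebraMap K M (y : K)
      rw [hνval, ← hzy]
      rfl
    · rintro ⟨_, ⟨u, rfl⟩, rfl⟩
      have hn0 : Algebra.norm K ((u : Mˣ) : M) ≠ 0 := Algebra.norm_ne_zero_iff.2 (u : Mˣ).ne_zero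
      refine ⟨Units.mk0 (Algebra.norm K ((u : Mˣ) : M)) hn0, ?_, ?_⟩
      · refine (hN _).2 ⟨((u : Mˣ) : M), fun P hP => ?_, rfl⟩
        exact u.2 P ((not_mem_SE T P).2 hP)
      · apply Units.ext
        exact (hνval u).symm
  have hrel : N.relIndex E = ν.range.relIndex δ.ker := by
    rw [← Subgroup.relIndex_map_map_of_injective _ _ hiM, hmapN, hmapV,
      Subgroup.relIndex_map_map_of_injective _ _ U.subtype_injective]
  have hET : E = SU T := by
    ext x
    exact hE x
  have hVrank : finrank ℤ (Additive δ.ker) = Units.rank K + T.card := by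
    rw [← su_rank T, ← hET]
    apply finrank_additive_congr
    exact (δ.ker.equivMapOfInjective U.subtype U.subtype_injective).trans
      ((MulEquiv.subgroupCongr hmapV.symm).trans (E.equivMapOfInjective iM hiM).symm)
  have h90 : ν.ker ≤ δ.range := by
    intro u hu
    have h1 : Algebra.norm K ((u : Mˣ) : M) = 1 := by
      apply (algebraMap K M).injective
      rw [← hνval, (MonoidHom.mem_ker).1 hu, map_one]
      rfl
    obtain ⟨y, hy, hyu⟩ := h90T hg hgen hT hunr (u : Mˣ) u.2 h1
    refine ⟨⟨y, hy⟩, ?_⟩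
    apply Subtype.ext
    apply Units.ext
    rw [hδ, Subgroup.coe_div, Units.val_div_eq_div_val]
    exact hyu.symm
  have h91 : δ.range.relIndex ν.ker = 1 := Subgroup.relIndex_eq_one.2 h90
  -- the ranks
  have hr1 := Pool.Agent.Helper832_EG.finrank_units K
  have hr2 := Pool.Agent.Helper832_EG.finrank_units M
  rw [Units.finrank_eq] at hr1 hr2
  have hr3 : finrank ℚ K * finrank K M = finrank ℚ M := Module.finrank_mul_finrank ℚ K M
  have hr4 : Units.rank M + 1 = ℓ * (Units.rank K + 1) := by
    rw [hd, ← hr1, ← hr2] at hr3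
    have : 2 * (Units.rank M + 1) = 2 * (ℓ * (Units.rank K + 1)) := by
      rw [← hr3]; ring
    omega
  have hc := count (M := M) hℓ hg hd T
  set t := (T.filter fun v => {P : Pl M | Over P v}.ncard = 1).card with ht
  have key := hH U ℓ hℓ s δ ν hsℓ hδ hν t (by
    rw [hUrank, hVrank]
    calc Units.rank M + (SE M T).ncard + (ℓ - 1) * t + 1 =
        (Units.rank M + 1) + ((SE M T).ncard + (ℓ - 1) * t) := by ring
      _ = ℓ * (Units.rank K + 1) + ℓ * T.card := by rw [hc, hr4]
      _ = ℓ * (Units.rank K + T.card + 1) := by ring)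
  rw [h91, mul_one, ← hrel] at key
  refine ⟨key.1.trans (Nat.pow_le_pow_right hℓ.pos ?_), key.2⟩
  have h5 : Nat.card {v : T // ¬ IsP ℓ (loc (v : Pl K) w)} =
      (T.filter fun v => ¬ IsP ℓ (loc v w)).card := by
    rw [← Nat.card_eq_finsetCard]
    exact Nat.card_congr ⟨fun v => ⟨v.1.1, Finset.mem_filter.2 ⟨v.1.2, v.2⟩⟩,
      fun v => ⟨⟨v.1, (Finset.mem_filter.1 v.2).1⟩, (Finset.mem_filter.1 v.2).2⟩,
      fun v => rfl, fun v => rfl⟩
  rw [h5, ht]
  refine Finset.card_le_card fun v hv => ?_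
  rw [Finset.mem_filter] at hv ⊢
  exact ⟨hv.1, fun h => split hℓ hodd hζ hr hg hσ hgen ho h hv.2⟩

end Pool.Agent.T3h73.SD.TUN
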