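import Pool.Agent.T3h73.SD.Stm2
import Pool.Agent.H921R2.TatePole.Dedekind

/-! From colourings to families of sets (TUP). -/

set_option autoImplicit false
set_option linter.all false

open NumberField IsDedekindDomain Filter Topology

namespace Pool.Agent.T3h73.SD.TUP

open Pool.Agent.T3h73.SD
open Pool.Agent.T3h73.SL (Pl)

variable {K : Type} [Field K] [NumberField K]

theorem norm_ee (ℓ : ℕ) (a : ZMod ℓ) : ‖ee ℓ a‖ = 1 := by
  unfold ee
  have h : (2 * Real.pi * Complex.I * (a.val : ℂ) / ℓ : ℂ) =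
      ((2 * Real.pi * a.val / ℓ : ℝ) : ℂ) * Complex.I := by
    push_cast
    ring
  rw [h, Complex.norm_exp_ofReal_mul_I]

theorem two_le (q : Pl K) : 2 ≤ Ideal.absNorm q.asIdeal := H921R2.TatePole.two_le_nm q

theorem pos (q : Pl K) : (0 : ℝ) < Ideal.absNorm q.asIdeal := by
  have := two_le q
  exact_mod_cast (by omega : 0 < Ideal.absNorm q.asIdeal)

theorem NA_pos (A : Finset (Pl K)) : (0 : ℝ) < NA A := by
  unfold NA
  push_cast
  exact Finset.prod_pos fun q _ => pos q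

theorem one_le_NA (A : Finset (Pl K)) : (1 : ℝ) ≤ NA A := by
  have h : 0 < NA A := by exact_mod_cast NA_pos A
  exact_mod_cast h

theorem NA_rpow (A : Finset (Pl K)) (s : ℝ) :
    (NA A : ℝ) ^ (-s) = ∏ q ∈ A, (Ideal.absNorm q.asIdeal : ℝ) ^ (-s) := by
  unfold NA
  push_cast
  exact (Real.finset_prod_rpow A _ (fun q _ => (pos q).le) (-s)).symm

/-- the weight as a product -/
theorem w_eq (m : ℕ) (s : ℝ) (A : Finset (Pl K)) :
    ((m : ℝ) ^ A.card)⁻¹ * (NA A : ℝ) ^ (-s) =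
      ∏ q ∈ A, ((m : ℝ)⁻¹ * (Ideal.absNorm q.asIdeal : ℝ) ^ (-s)) := by
  rw [Finset.prod_mul_distrib, Finset.prod_const, NA_rpow, inv_pow]

theorem summable_pow {s : ℝ} (hs : 1 < s) (c : ℝ) (hc : 0 ≤ c) :
    Summable fun A : Finset (Pl K) => c ^ A.card * (NA A : ℝ) ^ (-s) := by
  have h1 := H921R2.TatePole.nm_summable (K := K) hs
  have h2 : Summable fun q : Pl K => c * (Ideal.absNorm q.asIdeal : ℝ) ^ (-s) := h1.mul_left c
  have h3 := summable_finsetProd_of_summable_nonneg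
    (f := fun q : Pl K => c * (Ideal.absNorm q.asIdeal : ℝ) ^ (-s))
    (fun q => mul_nonneg hc (Real.rpow_nonneg (pos q).le _)) h2
  refine h3.congr fun A => ?_
  rw [Finset.prod_mul_distrib, Finset.prod_const, NA_rpow]

variable {C : Type} [Fintype C]

open Classical in
/-- the family of a colouring -/
noncomputable def Ph (x : Σ P : Finset (Pl K), (P → C)) (c : C) : Finset (Pl K) :=
  (Finset.univ.filter fun q : x.1 => x.2 q = c).map (Function.Embedding.subtype _)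

open Classical in
theorem mem_Ph {x : Σ P : Finset (Pl K), (P → C)} {c : C} {q : Pl K} :
    q ∈ Ph x c ↔ ∃ hq : q ∈ x.1, x.2 ⟨q, hq⟩ = c := by
  unfold Ph
  simp only [Finset.mem_map, Finset.mem_filter, Finset.mem_univ, true_and,
    Function.Embedding.coe_subtype, Subtype.exists]
  constructor
  · rintro ⟨a, ha, h1, rfl⟩
    exact ⟨ha, h1⟩
  · rintro ⟨hq, h1⟩
    exact ⟨q, hq, h1, rfl⟩

open Classical in
theorem sum_Ph {M : Type} [AddCommMonoid M] (x : Σ P : Finset (Pl K), (P → C))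
    (F : C → Pl K → M) : ∑ c, ∑ q ∈ Ph x c, F c q = ∑ q : x.1, F (x.2 q) q := by
  unfold Ph
  simp only [Finset.sum_map, Finset.sum_filter, Function.Embedding.coe_subtype]
  rw [Finset.sum_comm]
  refine Finset.sum_congr rfl fun q _ => ?_
  rw [Finset.sum_ite_eq Finset.univ (x.2 q) fun c => F c q, if_pos (Finset.mem_univ _)]

open Classical in
theorem prod_Ph {M : Type} [CommMonoid M] (x : Σ P : Finset (Pl K), (P → C))
    (F : Pl K → M) : ∏ c, ∏ q ∈ Ph x c, F q = ∏ q ∈ x.1, F q := by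
  unfold Ph
  simp only [Finset.prod_map, Finset.prod_filter, Function.Embedding.coe_subtype]
  rw [Finset.prod_comm]
  rw [← Finset.prod_coe_sort x.1]
  refine Finset.prod_congr rfl fun q _ => ?_
  rw [Finset.prod_ite_eq Finset.univ (x.2 q) fun _ => F q, if_pos (Finset.mem_univ _)]

open Classical in
theorem Ph_inj : Function.Injective (Ph : (Σ P : Finset (Pl K), (P → C)) → C → Finset (Pl K)) := by
  rintro ⟨P, col⟩ ⟨P', col'⟩ h
  have hP : P = P' := by
    ext q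
    constructor
    · intro hq
      have h1 : q ∈ Ph ⟨P, col⟩ (col ⟨q, hq⟩) := mem_Ph.2 ⟨hq, rfl⟩
      rw [h] at h1
      exact (mem_Ph.1 h1).1
    · intro hq
      have h1 : q ∈ Ph ⟨P', col'⟩ (col' ⟨q, hq⟩) := mem_Ph.2 ⟨hq, rfl⟩
      rw [← h] at h1
      exact (mem_Ph.1 h1).1
  subst hP
  congr
  funext q
  have h1 : (q : Pl K) ∈ Ph ⟨P, col⟩ (col q) := mem_Ph.2 ⟨q.2, rfl⟩
  rw [h] at h1
  exact (mem_Ph.1 h1).2.symm

open Classical in
theorem Ph_disj (x : Σ P : Finset (Pl K), (P → C)) (c c' : C) (h : c ≠ c') :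
    Disjoint (Ph x c) (Ph x c') := by
  rw [Finset.disjoint_left]
  intro q h1 h2
  obtain ⟨_, h3⟩ := mem_Ph.1 h1
  obtain ⟨_, h4⟩ := mem_Ph.1 h2
  exact h (h3.symm.trans h4)

open Classical in
theorem Ph_surj {A : C → Finset (Pl K)} (h : ∀ c c', c ≠ c' → Disjoint (A c) (A c')) :
    ∃ x : Σ P : Finset (Pl K), (P → C), Ph x = A := by
  have h1 : ∀ q : (Finset.univ.biUnion A : Finset (Pl K)), ∃ c, (q : Pl K) ∈ A c := fun q => by
    obtain ⟨c, _, hc⟩ := Finset.mem_biUnion.1 q.2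
    exact ⟨c, hc⟩
  choose col hcol using h1
  refine ⟨⟨Finset.univ.biUnion A, col⟩, ?_⟩
  funext c
  ext q
  rw [mem_Ph]
  constructor
  · rintro ⟨hq, h2⟩
    have h3 : q ∈ A (col ⟨q, hq⟩) := hcol ⟨q, hq⟩
    rwa [show col ⟨q, hq⟩ = c from h2] at h3
  · intro hq
    have h2 : q ∈ Finset.univ.biUnion A := Finset.mem_biUnion.2 ⟨c, Finset.mem_univ _, hq⟩
    refine ⟨h2, ?_⟩
    by_contra h3
    exact Finset.disjoint_left.1 (h _ _ h3) (hcol ⟨q, h2⟩) hq

open Classical in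
theorem tup_Ph (S : Finset (Pl K)) (x : Σ P : Finset (Pl K), (P → C)) :
    Tup S (Ph x) ↔ Disjoint x.1 S := by
  unfold Tup
  constructor
  · rintro ⟨h, -⟩
    rw [Finset.disjoint_left]
    intro q hq
    exact Finset.disjoint_left.1 (h (x.2 ⟨q, hq⟩)) (mem_Ph.2 ⟨hq, rfl⟩)
  · intro h
    refine ⟨fun c => ?_, Ph_disj x⟩
    rw [Finset.disjoint_left]
    intro q hq
    obtain ⟨h1, -⟩ := mem_Ph.1 hq
    exact Finset.disjoint_left.1 h h1

open Classical in
/-- the term of the family of a colouring -/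
theorem trm_Ph {ℓ : ℕ} {Λ : Type} (χ : Λ → Pl K → ZMod ℓ) (sy : Pl K → Pl K → ZMod ℓ)
    (R : C → C → ZMod ℓ) (hR : ∀ a, R a a = 0) (m : ℕ) (h : C → Λ) (s : ℝ)
    (x : Σ P : Finset (Pl K), (P → C)) :
    trm χ sy R m h s (Ph x) = ((((m : ℝ) ^ x.1.card)⁻¹ * (NA x.1 : ℝ) ^ (-s) : ℝ) : ℂ) *
      ee ℓ (∑ q : x.1, χ (h (x.2 q)) q +
        ∑ p : x.1, ∑ q : x.1, if p = q then 0 else R (x.2 p) (x.2 q) * sy p q) := by
  unfold trm
  congr 2
  · congr 1
    simp only [w_eq]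
    exact prod_Ph x _
  · congr 1
    · exact sum_Ph x fun c q => χ (h c) q
    · have h1 : ∀ c c' : C, (if c = c' then 0 else R c c' * syA sy (Ph x c) (Ph x c')) =
          ∑ p ∈ Ph x c, ∑ q ∈ Ph x c', if c = c' then 0 else R c c' * sy p q := by
        intro c c'
        unfold syA
        split_ifs
        · simp
        · rw [Finset.mul_sum]
          exact Finset.sum_congr rfl fun p _ => by rw [Finset.mul_sum]
      simp only [h1]
      have h2 : ∀ c : C, ∑ c' : C, ∑ p ∈ Ph x c, ∑ q ∈ Ph x c',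
          (if c = c' then 0 else R c c' * sy p q) =
          ∑ p ∈ Ph x c, ∑ q : x.1, if c = x.2 q then 0 else R c (x.2 q) * sy p q := by
        intro c
        rw [Finset.sum_comm]
        refine Finset.sum_congr rfl fun p _ => ?_
        exact sum_Ph x fun c' q => if c = c' then 0 else R c c' * sy p q
      rw [Finset.sum_congr rfl fun c _ => h2 c]
      rw [sum_Ph x fun c p => ∑ q : x.1, if c = x.2 q then 0 else R c (x.2 q) * sy p q]
      refine Finset.sum_congr rfl fun p _ => Finset.sum_congr rfl fun q _ => ?_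
      by_cases hpq : p = q
      · rw [if_pos hpq, if_pos (by rw [hpq])]
      · rw [if_neg hpq]
        split_ifs with h3
        · rw [h3, hR, zero_mul]
        · rfl

open Classical in
theorem norm_trm_le {ℓ : ℕ} {Λ : Type} (χ : Λ → Pl K → ZMod ℓ) (sy : Pl K → Pl K → ZMod ℓ)
    (R : C → C → ZMod ℓ) (hR : ∀ a, R a a = 0) (m : ℕ) (hm : 1 ≤ m) (h : C → Λ) (s : ℝ)
    (x : Σ P : Finset (Pl K), (P → C)) :
    ‖trm χ sy R m h s (Ph x)‖ ≤ (NA x.1 : ℝ) ^ (-s) := by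
  rw [trm_Ph χ sy R hR, norm_mul, norm_ee, mul_one, Complex.norm_real]
  have h1 : (1 : ℝ) ≤ (m : ℝ) ^ x.1.card := one_le_pow₀ (by exact_mod_cast hm)
  have h2 : 0 ≤ (NA x.1 : ℝ) ^ (-s) := Real.rpow_nonneg (NA_pos _).le _
  rw [Real.norm_of_nonneg (mul_nonneg (inv_nonneg.2 (by linarith)) h2)]
  exact mul_le_of_le_one_left h2 (inv_le_one_of_one_le₀ h1)

open Classical in
theorem summable_sig {s : ℝ} (hs : 1 < s) :
    Summable fun x : Σ P : Finset (Pl K), (P → C) => (NA x.1 : ℝ) ^ (-s) := by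
  rw [summable_sigma_of_nonneg fun x => Real.rpow_nonneg (NA_pos _).le _]
  refine ⟨fun P => (hasSum_fintype _).summable, ?_⟩
  refine (summable_pow hs (Fintype.card C) (Nat.cast_nonneg _)).congr fun P => ?_
  rw [tsum_fintype]
  change _ = ∑ b : P → C, (NA P : ℝ) ^ (-s)
  rw [Finset.sum_const, Finset.card_univ, Fintype.card_fun, Fintype.card_coe, nsmul_eq_mul]
  push_cast
  rfl

open Classical in
/-- the term, extended by zero -/
noncomputable def tz {ℓ : ℕ} (S : Finset (Pl K)) {Λ : Type} (χ : Λ → Pl K → ZMod ℓ)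
    (sy : Pl K → Pl K → ZMod ℓ) (R : C → C → ZMod ℓ) (m : ℕ) (h : C → Λ) (s : ℝ)
    (A : C → Finset (Pl K)) : ℂ := if Tup S A then trm χ sy R m h s A else 0

open Classical in
theorem summable_sig_tz {ℓ : ℕ} (S : Finset (Pl K)) {Λ : Type} (χ : Λ → Pl K → ZMod ℓ)
    (sy : Pl K → Pl K → ZMod ℓ) (R : C → C → ZMod ℓ) (hR : ∀ a, R a a = 0) (m : ℕ) (hm : 1 ≤ m)
    (h : C → Λ) {s : ℝ} (hs : 1 < s) :
    Summable fun x : Σ P : Finset (Pl K), (P → C) => tz S χ sy R m h s (Ph x) := by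
  refine Summable.of_norm_bounded (summable_sig (C := C) hs) fun x => ?_
  unfold tz
  split_ifs
  · exact norm_trm_le χ sy R hR m hm h s x
  · rw [norm_zero]
    exact Real.rpow_nonneg (NA_pos _).le _

open Classical in
theorem tz_off {ℓ : ℕ} (S : Finset (Pl K)) {Λ : Type} (χ : Λ → Pl K → ZMod ℓ)
    (sy : Pl K → Pl K → ZMod ℓ) (R : C → C → ZMod ℓ) (m : ℕ) (h : C → Λ) (s : ℝ)
    (A : C → Finset (Pl K)) (hA : A ∉ Set.range (Ph : (Σ P : Finset (Pl K), (P → C)) → _)) :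
    tz S χ sy R m h s A = 0 := by
  unfold tz
  rw [if_neg]
  intro hT
  exact hA (Ph_surj hT.2)

open Classical in
/-- absolute convergence of the sum over the families -/
theorem summable_tz {ℓ : ℕ} (S : Finset (Pl K)) {Λ : Type} (χ : Λ → Pl K → ZMod ℓ)
    (sy : Pl K → Pl K → ZMod ℓ) (R : C → C → ZMod ℓ) (hR : ∀ a, R a a = 0) (m : ℕ) (hm : 1 ≤ m)
    (h : C → Λ) {s : ℝ} (hs : 1 < s) : Summable (tz S χ sy R m h s) :=
  (Ph_inj.summable_iff fun A hA => tz_off S χ sy R m h s A hA).1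
    (summable_sig_tz S χ sy R hR m hm h hs)

open Classical in
theorem Mh_eq {ℓ : ℕ} (S : Finset (Pl K)) {Λ : Type} (χ : Λ → Pl K → ZMod ℓ)
    (sy : Pl K → Pl K → ZMod ℓ) (R : C → C → ZMod ℓ) (hR : ∀ a, R a a = 0) (m : ℕ) (hm : 1 ≤ m)
    (h : C → Λ) {s : ℝ} (hs : 1 < s) : Mh S χ sy R m h s = ∑' A, tz S χ sy R m h s A := by
  rw [← Ph_inj.tsum_eq (f := tz S χ sy R m h s)]
  · rw [(summable_sig_tz S χ sy R hR m hm h hs).tsum_sigma]
    unfold Mh
    refine tsum_congr fun P => ?_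
    rw [tsum_fintype]
    split_ifs with hP
    · rw [Finset.mul_sum]
      refine Finset.sum_congr rfl fun col _ => ?_
      unfold tz
      rw [if_pos ((tup_Ph S ⟨P, col⟩).2 hP), trm_Ph χ sy R hR]
    · refine (Finset.sum_eq_zero fun col _ => ?_).symm
      unfold tz
      rw [if_neg fun hT => hP ((tup_Ph S ⟨P, col⟩).1 hT)]
  · intro A hA
    by_contra hc
    exact hA (tz_off S χ sy R m h s A hc)

open Classical in
/-- the part of the term with large sets exactly in `W` -/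
noncomputable def gW {ℓ : ℕ} (S : Finset (Pl K)) {Λ : Type} (χ : Λ → Pl K → ZMod ℓ)
    (sy : Pl K → Pl K → ZMod ℓ) (R : C → C → ZMod ℓ) (m : ℕ) (h : C → Λ) (Z s : ℝ)
    (W : Finset C) (A : C → Finset (Pl K)) : ℂ :=
  if ∀ c, c ∈ W ↔ Z < (NA (A c) : ℝ) then tz S χ sy R m h s A else 0

open Classical in
theorem MW_eq {ℓ : ℕ} (S : Finset (Pl K)) {Λ : Type} (χ : Λ → Pl K → ZMod ℓ)
    (sy : Pl K → Pl K → ZMod ℓ) (R : C → C → ZMod ℓ) (m : ℕ) (h : C → Λ) (Z s : ℝ)
    (W : Finset C) : MW S χ sy R m h Z W s = ∑' A, gW S χ sy R m h Z s W A := by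
  unfold MW
  refine tsum_congr fun A => ?_
  unfold gW tz
  by_cases h1 : ∀ c, c ∈ W ↔ Z < (NA (A c) : ℝ)
  · by_cases h2 : Tup S A
    · rw [if_pos ⟨h2, h1⟩, if_pos h1, if_pos h2]
    · rw [if_neg fun h3 => h2 h3.1, if_pos h1, if_neg h2]
  · rw [if_neg fun h3 => h1 h3.2, if_neg h1]

open Classical in
theorem gW_summable {ℓ : ℕ} (S : Finset (Pl K)) {Λ : Type} (χ : Λ → Pl K → ZMod ℓ)
    (sy : Pl K → Pl K → ZMod ℓ) (R : C → C → ZMod ℓ) (hR : ∀ a, R a a = 0) (m : ℕ) (hm : 1 ≤ m)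
    (h : C → Λ) (Z : ℝ) {s : ℝ} (hs : 1 < s) (W : Finset C) :
    Summable (gW S χ sy R m h Z s W) := by
  refine Summable.of_norm_bounded (summable_tz S χ sy R hR m hm h hs).norm fun A => ?_
  unfold gW
  split_ifs
  · exact le_rfl
  · rw [norm_zero]
    exact norm_nonneg _

open Classical in
theorem gW_sum {ℓ : ℕ} (S : Finset (Pl K)) {Λ : Type} (χ : Λ → Pl K → ZMod ℓ)
    (sy : Pl K → Pl K → ZMod ℓ) (R : C → C → ZMod ℓ) (m : ℕ) (h : C → Λ) (Z s : ℝ)
    (A : C → Finset (Pl K)) :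
    ∑ W : Finset C, gW S χ sy R m h Z s W A = tz S χ sy R m h s A := by
  rw [Finset.sum_eq_single (Finset.univ.filter fun c => Z < (NA (A c) : ℝ))]
  · unfold gW
    rw [if_pos]
    intro c
    rw [Finset.mem_filter]
    exact ⟨fun h1 => h1.2, fun h1 => ⟨Finset.mem_univ _, h1⟩⟩
  · intro W _ hW
    unfold gW
    rw [if_neg]
    intro h1
    apply hW
    ext c
    rw [h1, Finset.mem_filter]
    exact ⟨fun h1 => ⟨Finset.mem_univ _, h1⟩, fun h1 => h1.2⟩
  · intro h1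
    exact absurd (Finset.mem_univ _) h1

theorem t_TUP : S_TUP := by
  intro ℓ _ K _ _ S Λ χ sy C _ R m h hm hR s Z hs _
  have h1 := Summable.tsum_finsetSum (s := Finset.univ) (f := gW S χ sy R m h Z s)
    fun W _ => gW_summable S χ sy R hR m hm h Z hs W
  rw [Mh_eq S χ sy R hR m hm h hs, Finset.sum_congr rfl fun W _ => MW_eq S χ sy R m h Z s W, ← h1]
  exact tsum_congr fun A => (gW_sum S χ sy R m h Z s A).symm

end Pool.Agent.T3h73.SD.TUP
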