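import Pool.Agent.T3h73.SD.Stm4
import Pool.Agent.T3h73.SL.T_WA
import Pool.Agent.T3h73.SL.T_FIN

/-! Project SD, task VSP (helper91): the space of the local classes at the places of `S`. -/

set_option autoImplicit false
set_option linter.all false

open NumberField IsDedekindDomain

namespace Pool.Agent.T3h73.SD.VSP

open Pool.Agent.T3h73.SL (Pl IsP Pk loc)
open Pool.Agent.Y713.SE (Pw)

section
variable {ℓ : ℕ} {K : Type} [Field K] [NumberField K]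

theorem isP_iff {G : Type} [CommGroup G] (x : G) : IsP ℓ x ↔ x ∈ Pk ℓ G := by
  constructor
  · rintro ⟨z, rfl⟩
    exact ⟨z, rfl⟩
  · rintro ⟨z, rfl⟩
    exact ⟨z, rfl⟩

/-- the map to the product of the local classes -/
noncomputable def toLoc (ℓ : ℕ) (S : Finset (Pl K)) :
    Kˣ →* ∀ v : S, ((v : Pl K).adicCompletion K)ˣ ⧸ Pk ℓ ((v : Pl K).adicCompletion K)ˣ :=
  MonoidHom.pi fun v => (QuotientGroup.mk' (Pk ℓ ((v : Pl K).adicCompletion K)ˣ)).comp (loc (v : Pl K))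

theorem mem_ker (S : Finset (Pl K)) (x : Kˣ) :
    x ∈ (toLoc ℓ S).ker ↔ ∀ v ∈ S, IsP ℓ (loc v x) := by
  rw [MonoidHom.mem_ker, funext_iff]
  constructor
  · intro h v hv
    have h1 := h ⟨v, hv⟩
    rw [isP_iff]
    exact (QuotientGroup.eq_one_iff _).1 h1
  · rintro h ⟨v, hv⟩
    exact (QuotientGroup.eq_one_iff _).2 ((isP_iff _).1 (h v hv))

theorem toLoc_surj (hℓ : ℓ.Prime) (S : Finset (Pl K)) : Function.Surjective (toLoc (K := K) ℓ S) := by
  classical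
  intro c
  choose d hd using fun v : S => QuotientGroup.mk_surjective (c v)
  obtain ⟨x, hx⟩ := Pool.Agent.T3h73.SL.Wa.t_WA ℓ hℓ K S
    (fun v => if h : v ∈ S then d ⟨v, h⟩ else 1)
  refine ⟨x, ?_⟩
  funext v
  obtain ⟨z, hz⟩ := hx v.1 v.2
  rw [← hd v]
  show QuotientGroup.mk (loc (v : Pl K) x) = _
  rw [hz, dif_pos v.2, eq_comm, QuotientGroup.eq]
  exact ⟨z, by simp⟩

theorem card_quot (hℓ : ℓ.Prime) (S : Finset (Pl K)) :
    Nat.card (Kˣ ⧸ (toLoc (K := K) ℓ S).ker) = VT ℓ S := by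
  classical
  have h1 : Nat.card (Kˣ ⧸ (toLoc (K := K) ℓ S).ker) = (toLoc (K := K) ℓ S).ker.index := rfl
  rw [h1, Subgroup.index_ker, MonoidHom.range_eq_top.2 (toLoc_surj hℓ S), Subgroup.card_top,
    Nat.card_pi]
  unfold VT
  rw [← Finset.prod_coe_sort S]
  rfl

theorem VT_ne (hℓ : ℓ.Prime) (S : Finset (Pl K)) : VT ℓ S ≠ 0 := by
  unfold VT
  rw [Finset.prod_ne_zero_iff]
  intro v _
  exact Pool.Agent.T3h73.SL.Fin.t_FIN ℓ hℓ K v

theorem core (hℓ : ℓ.Prime) {sv : Pl K → Kˣ → Kˣ → ZMod ℓ} (hsv : Sv ℓ K sv) (S : Finset (Pl K))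
    (V : Type) [iV : AddCommGroup V] (hsm : ∀ x : V, ℓ • x = 0) (cl : Kˣ → V)
    (hclmul : ∀ x y, cl (x * y) = cl x + cl y) (hclsurj : Function.Surjective cl)
    (hcl0 : ∀ x, cl x = 0 ↔ ∀ v ∈ S, IsP ℓ (loc v x)) (hcard : Nat.card V = VT ℓ S) :
    ∃ (_ : Module (ZMod ℓ) V) (_ : Finite V) (ψ : V →ₗ[ZMod ℓ] V →ₗ[ZMod ℓ] ZMod ℓ),
      (∀ x, ψ x x = 0) ∧ (∀ x, (∀ y, ψ x y = 0) → x = 0) ∧
      ∀ x y, ψ (cl x) (cl y) = ∑ v ∈ S, sv v x y := by
  classical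
  obtain ⟨iM⟩ : Nonempty (Module (ZMod ℓ) V) := ⟨AddCommGroup.zmodModule hsm⟩
  have hcleq : ∀ x y, cl x = cl y → ∀ v ∈ S, IsP ℓ (loc v (x⁻¹ * y)) := by
    intro x y h
    rw [← hcl0]
    have h1 := hclmul x (x⁻¹ * y)
    rw [mul_inv_cancel_left, ← h] at h1
    exact (left_eq_add.1 h1)
  let b : Kˣ → Kˣ → ZMod ℓ := fun x y => ∑ v ∈ S, sv v x y
  have hbl : ∀ x x' y, b (x * x') y = b x y + b x' y := by
    intro x x' y
    show ∑ v ∈ S, _ = ∑ v ∈ S, _ + ∑ v ∈ S, _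
    rw [← Finset.sum_add_distrib]
    exact Finset.sum_congr rfl fun v _ => hsv.mul_left v x x' y
  have hbr : ∀ x y y', b x (y * y') = b x y + b x y' := by
    intro x y y'
    show ∑ v ∈ S, _ = ∑ v ∈ S, _ + ∑ v ∈ S, _
    rw [← Finset.sum_add_distrib]
    exact Finset.sum_congr rfl fun v _ => hsv.mul_right v x y y'
  have hb0l : ∀ x y, (∀ v ∈ S, IsP ℓ (loc v x)) → b x y = 0 := fun x y h =>
    Finset.sum_eq_zero fun v hv => hsv.pow_left v x y (h v hv)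
  have hb0r : ∀ x y, (∀ v ∈ S, IsP ℓ (loc v y)) → b x y = 0 := fun x y h =>
    Finset.sum_eq_zero fun v hv => hsv.pow_right v x y (h v hv)
  have hcongl : ∀ x x' y, cl x = cl x' → b x y = b x' y := by
    intro x x' y h
    have h1 := hbl x (x⁻¹ * x') y
    rw [mul_inv_cancel_left, hb0l _ y (hcleq x x' h), add_zero] at h1
    exact h1.symm
  have hcongr : ∀ x y y', cl y = cl y' → b x y = b x y' := by
    intro x y y' h
    have h1 := hbr x y (y⁻¹ * y')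
    rw [mul_inv_cancel_left, hb0r x _ (hcleq y y' h), add_zero] at h1
    exact h1.symm
  choose r hr using hclsurj
  let f : V → V → ZMod ℓ := fun x y => b (r x) (r y)
  have hf : ∀ x y, f (cl x) (cl y) = b x y := by
    intro x y
    show b (r (cl x)) (r (cl y)) = b x y
    rw [hcongl _ x _ (hr _), hcongr _ _ y (hr _)]
  have hfl : ∀ x x' y, f (x + x') y = f x y + f x' y := by
    intro x x' y
    rw [← hr x, ← hr x', ← hr y, ← hclmul, hf, hf, hf, hbl]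
  have hfr : ∀ x y y', f x (y + y') = f x y + f x y' := by
    intro x y y'
    rw [← hr x, ← hr y, ← hr y', ← hclmul, hf, hf, hf, hbr]
  let fl : V → V →+ ZMod ℓ := fun y => AddMonoidHom.mk' (fun x => f x y) fun x x' => hfl x x' y
  let fr : V → V →+ ZMod ℓ := fun x => AddMonoidHom.mk' (f x) (hfr x)
  let ψ : V →ₗ[ZMod ℓ] V →ₗ[ZMod ℓ] ZMod ℓ := LinearMap.mk₂ (ZMod ℓ) f hfl
    (fun c x y => ZMod.map_smul (fl y) c x) hfr (fun c x y => ZMod.map_smul (fr x) c y)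
  have hψ : ∀ x y, ψ x y = f x y := fun x y => rfl
  refine ⟨iM, ?_, ψ, ?_, ?_, fun x y => hf x y⟩
  · exact Nat.finite_of_card_ne_zero (by rw [hcard]; exact VT_ne hℓ S)
  · intro x
    rw [← hr x, hψ, hf]
    exact Finset.sum_eq_zero fun v _ => hsv.alt v _
  · intro x hx
    rw [← hr x, hcl0]
    intro v₀ hv₀
    apply hsv.nd
    intro y
    obtain ⟨y', hy'⟩ := Pool.Agent.T3h73.SL.Wa.t_WA ℓ hℓ K S
      (fun v => if v = v₀ then loc v y else 1)
    have h1 : b (r x) y' = 0 := by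
      rw [← hf, hr x]
      exact hx (cl y')
    have h2 : b (r x) y' = sv v₀ (r x) y' := by
      refine Finset.sum_eq_single_of_mem v₀ hv₀ fun v hv hne => ?_
      obtain ⟨z, hz⟩ := hy' v hv
      rw [if_neg hne, one_mul] at hz
      exact hsv.pow_right v _ _ ⟨z, hz⟩
    obtain ⟨z, hz⟩ := hy' v₀ hv₀
    rw [if_pos rfl] at hz
    have h3 := hsv.mul_right v₀ (r x) y (y⁻¹ * y')
    rw [mul_inv_cancel_left, hsv.pow_right v₀ (r x) (y⁻¹ * y') ⟨z, by
      rw [map_mul, map_inv, hz, inv_mul_cancel_left]⟩, add_zero] at h3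
    rw [← h3, ← h2, h1]

end

theorem t_VSP : S_VSP := by
  intro ℓ hℓ hℓ2 K _ _ ζ hζ sv hsv S
  have hmem : ∀ x, x ∈ (toLoc (K := K) ℓ S).ker ↔ ∀ v ∈ S, IsP ℓ (loc v x) := mem_ker S
  have hsm : ∀ x : Additive (Kˣ ⧸ (toLoc (K := K) ℓ S).ker), ℓ • x = 0 := by
    intro x
    obtain ⟨a, ha⟩ := QuotientGroup.mk_surjective (Additive.toMul x)
    have h1 : (Additive.toMul x) ^ ℓ = 1 := by
      rw [← ha, ← QuotientGroup.mk_pow, QuotientGroup.eq_one_iff, hmem]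
      intro v _
      exact ⟨loc v a, by rw [map_pow]⟩
    exact congrArg Additive.ofMul h1
  have hclsurj : Function.Surjective (fun x : Kˣ =>
      (Additive.ofMul (QuotientGroup.mk x : Kˣ ⧸ (toLoc (K := K) ℓ S).ker))) := by
    intro x
    obtain ⟨a, ha⟩ := QuotientGroup.mk_surjective (Additive.toMul x)
    exact ⟨a, congrArg Additive.ofMul ha⟩
  have hcl0 : ∀ x : Kˣ, (Additive.ofMul (QuotientGroup.mk x : Kˣ ⧸ (toLoc (K := K) ℓ S).ker)) = 0 ↔
      ∀ v ∈ S, IsP ℓ (loc v x) := by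
    intro x
    rw [← hmem]
    exact QuotientGroup.eq_one_iff x
  obtain ⟨iM, iF, ψ, h1, h2, h3⟩ := core hℓ hsv S (Additive (Kˣ ⧸ (toLoc (K := K) ℓ S).ker)) hsm
    (fun x => Additive.ofMul (QuotientGroup.mk x)) (fun x y => rfl) hclsurj hcl0
    (card_quot hℓ S)
  exact ⟨_, _, iM, iF, ψ, _, fun x y => rfl, hclsurj, hcl0, h1, h2, h3, card_quot hℓ S⟩

end Pool.Agent.T3h73.SD.VSP
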