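import Pool.Agent.T3h73.SD.Stm
import Pool.Agent.T3h73.SL.T_TAM
import Pool.Agent.T3h73.SL.T_LOCC
import Pool.Agent.T3h73.SL.T_CYC
import Pool.Agent.Helper832_EG.PD2

/-!
# Project SD, task VV (helper1): the order of `K_v^* / K_v^{*ℓ}`
-/

set_option autoImplicit false
set_option linter.all false

namespace Pool.Agent.T3h73.SD.VV

open IsDedekindDomain NumberField WithZero Polynomial
open Pool.Agent.T3h73.SL (Pl IsP Pk loc Evn Sg)
open Pool.Agent.T3h73.SL.Nwt (vv vv_nat newton)
open Pool.Agent.T3h73.SL.Tam (Un mem_Un Un_pow evn_index evn_eq exists_val finite_res red red_surj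
  red_eq_one O)
open Pool.Agent.T3h73.SL.Locc (U mem_U mem_U' U_le f f_surj f_one f_one' κ)

section near

variable {L : Type} [Field L] [NumberField L] (v : HeightOneSpectrum (𝓞 L))

/-- elements close to `1` are `n`-th powers of elements close to `1` -/
theorem near_pow' (n : ℕ) (hn : n ≠ 0) (y : v.adicCompletion L)
    (hy : vv v (y - 1) < vv v (n : v.adicCompletion L) ^ 2) : ∃ z, y = z ^ n ∧
      vv v (z - 1) * vv v (n : v.adicCompletion L) ≤ vv v (y - 1) := by
  set a : v.adicCompletion L := (n : v.adicCompletion L) with ha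
  haveI : CharZero (v.adicCompletion L) :=
    charZero_of_injective_algebraMap (algebraMap L (v.adicCompletion L)).injective
  have ha0 : a ≠ 0 := by
    rw [ha, Nat.cast_ne_zero]; exact hn
  have hva : vv v a ≠ 0 := (Valuation.ne_zero_iff _).2 ha0
  set c : v.adicCompletion L := (y - 1) / a ^ 2 with hc
  have hcv : vv v c < 1 := by
    rw [hc, map_div₀, map_pow]
    rw [div_lt_one₀ (by exact pow_pos (zero_lt_iff.2 hva) 2)]
    exact hy
  let g : (v.adicCompletion L)[X] :=
    ∑ i ∈ Finset.range (n - 1), C ((n.choose (i + 2) : v.adicCompletion L) * a ^ i) * X ^ (i + 2)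
  let h : (v.adicCompletion L)[X] := X + g - C c
  have hgc : ∀ i, vv v (g.coeff i) ≤ 1 := by
    intro i
    rw [finset_sum_coeff]
    refine Valuation.map_sum_le _ fun j _ => ?_
    rw [coeff_C_mul, coeff_X_pow]
    split_ifs
    · rw [mul_one, map_mul, map_pow]
      exact mul_le_one' (vv_nat v _) (pow_le_one' (vv_nat v _) _)
    · rw [mul_zero, map_zero]; exact zero_le_one
  have hh : ∀ i, vv v (h.coeff i) ≤ 1 := by
    intro i
    rw [coeff_sub, coeff_add]
    refine (Valuation.map_sub _ _ _).trans (max_le ((Valuation.map_add _ _ _).trans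
      (max_le ?_ (hgc i))) ?_)
    · rw [coeff_X]
      split_ifs
      · rw [map_one]
      · rw [map_zero]; exact zero_le_one
    · rw [coeff_C]
      split_ifs
      · exact hcv.le
      · rw [map_zero]; exact zero_le_one
  have hg0 : g.eval 0 = 0 := by
    rw [eval_finset_sum]
    refine Finset.sum_eq_zero fun i _ => ?_
    simp
  have hgd : g.derivative.eval 0 = 0 := by
    simp only [g]
    rw [derivative_sum, eval_finset_sum]
    refine Finset.sum_eq_zero fun i _ => ?_
    rw [derivative_C_mul, derivative_X_pow]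
    simp
  obtain ⟨t, htb, ht⟩ := newton v h hh 0 (by rw [map_zero]; exact zero_le_one) c hcv (by
      simp only [h]
      rw [eval_sub, eval_add, eval_X, hg0, eval_C, zero_add, zero_sub, Valuation.map_neg]) (by
      simp only [h]
      rw [derivative_sub, derivative_add, derivative_X, derivative_C, sub_zero, eval_add, eval_one,
        hgd, add_zero, map_one])
  rw [sub_zero] at htb
  have h2 : y = 1 + a ^ 2 * c := by
    rw [hc]; field_simp; ring
  refine ⟨1 + a * t, ?_, ?_⟩
  · have h1 : t + ∑ i ∈ Finset.range (n - 1), (n.choose (i + 2) : v.adicCompletion L) * a ^ i *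
        t ^ (i + 2) = c := by
      have : h.eval t = t + (∑ i ∈ Finset.range (n - 1),
          (n.choose (i + 2) : v.adicCompletion L) * a ^ i * t ^ (i + 2)) - c := by
        simp only [h, g]
        rw [eval_sub, eval_add, eval_X, eval_C, eval_finset_sum]
        congr 2
        refine Finset.sum_congr rfl fun i _ => ?_
        simp
      rw [this] at ht
      exact sub_eq_zero.1 ht
    rw [h2, ← h1, add_comm 1 (a * t), add_pow]
    obtain ⟨m, rfl⟩ : ∃ m, n = m + 1 := ⟨n - 1, by omega⟩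
    rw [Finset.sum_range_succ', Finset.sum_range_succ']
    simp only [Nat.add_sub_cancel, pow_zero, one_pow, mul_one, zero_add, Nat.choose_zero_right,
      Nat.cast_one, Nat.choose_one_right, pow_one]
    rw [mul_add, Finset.mul_sum]
    have h3 : ∀ i ∈ Finset.range m, a ^ 2 * (((m + 1).choose (i + 2) : v.adicCompletion L) * a ^ i *
        t ^ (i + 2)) = (a * t) ^ (i + 1 + 1) * ((m + 1).choose (i + 1 + 1) : v.adicCompletion L) := by
      intro i _
      ring
    rw [Finset.sum_congr rfl h3]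
    rw [← ha]
    ring
  · have h3 : 1 + a * t - 1 = a * t := by ring
    have h4 : y - 1 = a ^ 2 * c := by rw [h2]; ring
    rw [h3, h4, map_mul, map_mul, map_pow]
    calc vv v a * vv v t * vv v a = vv v a ^ 2 * vv v t := by
          rw [sq, mul_assoc, mul_comm (vv v t), ← mul_assoc]
      _ ≤ vv v a ^ 2 * vv v c := mul_le_mul_right htb _

end near

section chain

variable {k : Type} [Field k] (v : Valuation k (WithZero (Multiplicative ℤ))) (π : kˣ)
  (hπ : v (π : k) = exp (-1 : ℤ))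

include hπ in
theorem U_step (i : ℕ) (hi : 1 ≤ i) : (U v (i + 1)).relIndex (U v i) = Nat.card (κ v) := by
  have h1 : (U v (i + 1)).subgroupOf (U v i) = (f v π hπ i hi).ker := by
    ext x
    rw [Subgroup.mem_subgroupOf, MonoidHom.mem_ker]
    exact ⟨f_one' v π hπ i hi x, f_one v π hπ i hi x⟩
  unfold Subgroup.relIndex
  rw [h1, Subgroup.index_ker, MonoidHom.range_eq_top.2 (f_surj v π hπ i hi)]
  rw [Nat.card_congr (Subgroup.topEquiv (G := Multiplicative (κ v))).toEquiv]
  exact Nat.card_congr Multiplicative.toAdd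

include hπ in
theorem U_chain (i : ℕ) (hi : 1 ≤ i) (n : ℕ) :
    (U v (i + n)).relIndex (U v i) = Nat.card (κ v) ^ n := by
  induction n with
  | zero => rw [add_zero, pow_zero, Subgroup.relIndex_self]
  | succ n ih =>
    rw [← Subgroup.relIndex_mul_relIndex (U v (i + (n + 1))) (U v (i + n)) (U v i)
      (U_le v (by omega)) (U_le v (by omega)), ih, ← add_assoc, U_step v π hπ (i + n) (by omega),
      pow_succ, mul_comm]

/-- no torsion near one -/
theorem U_tors {ℓ : ℕ} (hℓ : ℓ.Prime) (e N : ℕ) (he : v (ℓ : k) = exp (-(e : ℤ))) (hN : e < N)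
    (x : kˣ) (hx : x ∈ U v N) (hx1 : x ^ ℓ = 1) : x = 1 := by
  by_contra hne
  haveI : Fact ℓ.Prime := ⟨hℓ⟩
  have h1 : orderOf x = ℓ := orderOf_eq_prime hx1 hne
  have h2 : IsPrimitiveRoot (x : k) ℓ := by
    have h3 : IsPrimitiveRoot x ℓ := by rw [← h1]; exact IsPrimitiveRoot.orderOf x
    exact IsPrimitiveRoot.coe_units_iff.2 h3
  have h3 := Pool.Agent.T3h73.SL.Cyc.val_prime v hℓ h2
  have h4 : v (1 - (x : k)) ≤ exp (-(N : ℤ)) := by
    rw [Valuation.map_sub_swap]; exact hx.2
  have h5 : v (1 - (x : k)) ≤ 1 := h4.trans (Pool.Agent.T3h73.SL.Locc.exp_le_one N)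
  have h6 : v (1 - (x : k)) ^ (ℓ - 1) ≤ v (1 - (x : k)) := by
    obtain ⟨m, hm⟩ : ∃ m, ℓ - 1 = m + 1 := ⟨ℓ - 2, by have := hℓ.two_le; omega⟩
    rw [hm, pow_succ]
    exact mul_le_of_le_one_left' (pow_le_one' h5 m)
  rw [← h3, he] at h6
  have h7 := h6.trans h4
  rw [exp_le_exp] at h7
  omega

/-- powers of elements near one -/
theorem U_pow {ℓ : ℕ} (hℓ : ℓ.Prime) (e N : ℕ) (he : v (ℓ : k) = exp (-(e : ℤ))) (hN : e < N)
    (hint : ∀ n : ℕ, v (n : k) ≤ 1) (x : kˣ) (hx : x ∈ U v N) : x ^ ℓ ∈ U v (N + e) := by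
  rw [mem_U' v (by omega), Units.val_pow_eq_pow_val]
  set t : k := (x : k) - 1 with ht
  have htN : v t ≤ exp (-(N : ℤ)) := hx.2
  have ht1 : v t ≤ 1 := htN.trans (Pool.Agent.T3h73.SL.Locc.exp_le_one N)
  have h1 : (x : k) ^ ℓ - 1 = t ^ ℓ + ℓ * (t * ∑ j ∈ Finset.Ioo 0 ℓ, t ^ (j - 1) *
      1 ^ (ℓ - j - 1) * ((ℓ.choose j / ℓ : ℕ) : k)) := by
    have h2 : (x : k) = t + 1 := by rw [ht]; ring
    rw [h2, add_pow_prime_eq hℓ]
    ring
  rw [h1]
  refine (Valuation.map_add _ _ _).trans (max_le ?_ ?_)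
  · rw [map_pow]
    obtain ⟨m, hm⟩ : ∃ m, ℓ = m + 2 := ⟨ℓ - 2, by have := hℓ.two_le; omega⟩
    calc v t ^ ℓ = v t ^ m * (v t * v t) := by rw [hm, pow_add, sq]
      _ ≤ 1 * (exp (-(N : ℤ)) * exp (-(N : ℤ))) :=
          mul_le_mul' (pow_le_one' ht1 m) (mul_le_mul' htN htN)
      _ ≤ exp (-((N + e : ℕ) : ℤ)) := by
          rw [one_mul, ← exp_add, exp_le_exp]
          push_cast
          omega
  · rw [map_mul, he]
    have h2 : v (t * ∑ j ∈ Finset.Ioo 0 ℓ, t ^ (j - 1) * 1 ^ (ℓ - j - 1) *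
        ((ℓ.choose j / ℓ : ℕ) : k)) ≤ exp (-(N : ℤ)) := by
      rw [map_mul]
      refine (mul_le_mul' htN (Valuation.map_sum_le _ fun j hj => ?_)).trans (mul_one _).le
      rw [one_pow, mul_one, map_mul, map_pow]
      exact mul_le_one' (pow_le_one' ht1 _) (hint _)
    refine (mul_le_mul_right h2 _).trans ?_
    rw [← exp_add, exp_le_exp]
    push_cast
    omega

end chain

section main

variable {K : Type} [Field K] [NumberField K] (v : Pl K)

theorem map_pow_U {ℓ : ℕ} (hℓ : ℓ.Prime) (e N : ℕ)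
    (he : vv v (ℓ : v.adicCompletion K) = exp (-(e : ℤ))) (hN : e < N) :
    (U (vv v) N).map (powMonoidHom ℓ : (v.adicCompletion K)ˣ →* (v.adicCompletion K)ˣ) =
      U (vv v) (N + e) := by
  ext y
  constructor
  · rintro ⟨x, hx, rfl⟩
    exact U_pow (vv v) hℓ e N he hN (vv_nat v) x hx
  · intro hy
    have h1 : vv v ((y : v.adicCompletion K) - 1) < vv v (ℓ : v.adicCompletion K) ^ 2 := by
      refine hy.2.trans_lt ?_
      rw [he, ← exp_nsmul, exp_lt_exp]
      push_cast
      simp only [nsmul_eq_mul]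
      push_cast
      omega
    obtain ⟨z, hz, hz1⟩ := near_pow' v ℓ hℓ.ne_zero _ h1
    have hz0 : z ≠ 0 := by
      rintro rfl
      rw [zero_pow hℓ.ne_zero] at hz
      exact y.ne_zero hz
    refine ⟨Units.mk0 z hz0, ?_, ?_⟩
    · rw [SetLike.mem_coe, mem_U' _ (by omega)]
      show vv v (z - 1) ≤ _
      rw [he] at hz1
      have h2 := hz1.trans hy.2
      have h3 : exp (-((N + e : ℕ) : ℤ)) = exp (-(N : ℤ)) * exp (-(e : ℤ)) := by
        rw [← exp_add]; congr 1; push_cast; ring
      rw [h3] at h2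
      exact le_of_mul_le_mul_right h2 exp_pos
    · apply Units.ext
      exact hz.symm

theorem U_le_Un (i : ℕ) : U (vv v) i ≤ Un v := fun x hx => hx.1

theorem U_one_index : (U (vv v) 1).relIndex (Un v) ≠ 0 := by
  haveI := finite_res v
  have h1 : (U (vv v) 1).subgroupOf (Un v) = (red v).ker := by
    ext x
    rw [Subgroup.mem_subgroupOf, MonoidHom.mem_ker, red_eq_one, mem_U' _ le_rfl]
    constructor
    · intro h
      exact h.trans_lt (Pool.Agent.T3h73.SL.Locc.exp_lt_one le_rfl)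
    · intro h
      rcases eq_or_ne (vv v (((x : (v.adicCompletion K)ˣ) : v.adicCompletion K) - 1)) 0 with h0 | h0
      · rw [h0]; exact zero_le
      · rw [← exp_log h0] at h ⊢
        rw [← exp_zero, exp_lt_exp] at h
        rw [exp_le_exp]
        push_cast
        omega
  unfold Subgroup.relIndex
  rw [h1, Subgroup.index_ker]
  exact Nat.card_pos.ne'

end main

theorem t_VV : S_VV := by
  intro ℓ hℓ K _ _ ζ hζ v e he
  haveI := finite_res v
  have he' : vv v (ℓ : v.adicCompletion K) = exp (-(e : ℤ)) := by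
    rw [← he, ← Pool.Agent.H723R3.valued_algebraMap]
    congr 1
    exact (map_natCast (algebraMap K (v.adicCompletion K)) ℓ).symm
  have hζ' : IsPrimitiveRoot (algebraMap K (v.adicCompletion K) ζ) ℓ :=
    hζ.map_of_injective (algebraMap K (v.adicCompletion K)).injective
  obtain ⟨π, hπ⟩ := exists_val v (-1)
  have hle : Pk ℓ (v.adicCompletion K)ˣ ≤ Evn ℓ v := by
    rw [← evn_eq v hℓ.ne_zero]; exact le_sup_right
  rw [← Subgroup.relIndex_mul_index hle, evn_index v hℓ.ne_zero, ← evn_eq v hℓ.ne_zero,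
    Subgroup.relIndex_sup_right]
  -- powers of units
  set F : Un v →* Un v := powMonoidHom ℓ with hF
  have hPF : (Pk ℓ (v.adicCompletion K)ˣ).subgroupOf (Un v) = F.range := by
    ext x
    rw [Subgroup.mem_subgroupOf]
    constructor
    · rintro ⟨z, hz⟩
      have hz' : z ^ ℓ = (x : (v.adicCompletion K)ˣ) := hz
      have hzU : z ∈ Un v := Un_pow v hℓ.ne_zero (by rw [hz']; exact x.2)
      exact ⟨⟨z, hzU⟩, Subtype.ext hz'⟩
    · rintro ⟨z, hz⟩
      exact ⟨(z : (v.adicCompletion K)ˣ), congrArg Subtype.val hz⟩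
  set B : Subgroup (Un v) := (U (vv v) (e + 1)).subgroupOf (Un v) with hB
  have hBmap : B.map F = (U (vv v) (e + 1 + e)).subgroupOf (Un v) := by
    ext x
    rw [Subgroup.mem_subgroupOf, ← map_pow_U v hℓ e (e + 1) he' (by omega)]
    constructor
    · rintro ⟨y, hy, rfl⟩
      exact ⟨(y : (v.adicCompletion K)ˣ), hy, rfl⟩
    · rintro ⟨y, hy, hyx⟩
      exact ⟨⟨y, U_le_Un v _ hy⟩, hy, Subtype.ext hyx⟩
  have hBi : B.index ≠ 0 := by
    have h1 : (U (vv v) (e + 1)).relIndex (Un v) ≠ 0 := by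
      rw [← Subgroup.relIndex_mul_relIndex (U (vv v) (e + 1)) (U (vv v) 1) (Un v)
        (U_le _ (by omega)) (U_le_Un v 1), add_comm e 1, U_chain (vv v) π hπ 1 le_rfl e]
      exact mul_ne_zero (pow_ne_zero _ Nat.card_pos.ne') (U_one_index v)
    exact h1
  have hfB : B.map F ≤ B := by
    rw [hBmap, hB]
    exact Subgroup.comap_mono (U_le _ (by omega))
  have hk : B ⊓ F.ker = ⊥ := by
    rw [eq_bot_iff]
    rintro x ⟨hx1, hx2⟩
    have h1 : (x : (v.adicCompletion K)ˣ) ^ ℓ = 1 := congrArg Subtype.val hx2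
    exact Subtype.ext (U_tors (vv v) hℓ e (e + 1) he' (by omega) _ hx1 h1)
  have hidx := Pool.Agent.Helper832_EG.index_range_eq F B hBi hfB hk
  have hker : Nat.card F.ker = ℓ := by
    haveI : NeZero ℓ := ⟨hℓ.ne_zero⟩
    rw [← hζ'.card_rootsOfUnity, ← Subgroup.card_map_of_injective (Subgroup.subtype_injective (Un v))]
    congr 1
    have : (F.ker.map (Un v).subtype) = rootsOfUnity ℓ (v.adicCompletion K) := by
      ext x
      rw [mem_rootsOfUnity]
      constructor
      · rintro ⟨y, hy, rfl⟩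
        exact congrArg Subtype.val hy
      · intro hx
        have hxU : x ∈ Un v := Un_pow v hℓ.ne_zero (by rw [hx]; exact one_mem _)
        exact ⟨⟨x, hxU⟩, Subtype.ext hx, rfl⟩
    rw [this]
  unfold Subgroup.relIndex
  rw [hPF, hidx, hker, hBmap, hB, Subgroup.relIndex_subgroupOf (U_le_Un v _),
    U_chain (vv v) π hπ (e + 1) (by omega) e]
  have hq : Nat.card (κ (vv v)) = Ideal.absNorm v.asIdeal :=
    Pool.Agent.T3h73.SL.Res.card_residue v
  rw [hq]
  ring

end Pool.Agent.T3h73.SD.VV
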