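import Pool.Agent.T3h73.SD.T_AN
import Pool.Agent.T3h73.SD.T_AN1
import Pool.Agent.T3h73.SD.T_AN2
import Pool.Agent.T3h73.SD.T_AN3
import Pool.Agent.T3h73.SD.T_BL
import Pool.Agent.T3h73.SD.T_CARD
import Pool.Agent.T3h73.SD.T_CHS
import Pool.Agent.T3h73.SD.T_CNTU
import Pool.Agent.T3h73.SD.T_DC
import Pool.Agent.T3h73.SD.T_DIST
import Pool.Agent.T3h73.SD.T_DK
import Pool.Agent.T3h73.SD.T_EUL
import Pool.Agent.T3h73.SD.T_EXP
import Pool.Agent.T3h73.SD.T_FI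
import Pool.Agent.T3h73.SD.T_FTPG
import Pool.Agent.T3h73.SD.T_HERB
import Pool.Agent.T3h73.SD.T_KAP
import Pool.Agent.T3h73.SD.T_LAG
import Pool.Agent.T3h73.SD.T_LGP
import Pool.Agent.T3h73.SD.T_LNG
import Pool.Agent.T3h73.SD.T_LS
import Pool.Agent.T3h73.SD.T_LU
import Pool.Agent.T3h73.SD.T_LZ
import Pool.Agent.T3h73.SD.T_MAINU
import Pool.Agent.T3h73.SD.T_MASS
import Pool.Agent.T3h73.SD.T_MDL
import Pool.Agent.T3h73.SD.T_MOD
import Pool.Agent.T3h73.SD.T_MOM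
import Pool.Agent.T3h73.SD.T_PHI
import Pool.Agent.T3h73.SD.T_REC
import Pool.Agent.T3h73.SD.T_SV
import Pool.Agent.T3h73.SD.T_T0L
import Pool.Agent.T3h73.SD.T_TUN
import Pool.Agent.T3h73.SD.T_TUP
import Pool.Agent.T3h73.SD.T_TYP
import Pool.Agent.T3h73.SD.T_UNL
import Pool.Agent.T3h73.SD.T_VSP
import Pool.Agent.T3h73.SD.T_VV
import Pool.Agent.T3h73.SD.Full5

/-! Project SD: all the parts together. -/

set_option autoImplicit false
set_option linter.all false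

namespace Pool.Agent.T3h73.SD

theorem all_CARD : S_CARD := CARD.t_CARD VV.t_VV

theorem all_LNG : S_LNG := LNG.t_LNG VV.t_VV

theorem all_DC : S_DC := DC.t_DC MOD.t_MOD

theorem all_FI : S_FI := FI.t_FI all_LNG (TUN.t_TUN HERB.t_HERB)

theorem all_PHI : S_PHI := PHI.t_PHI all_FI all_DC DK.t_DK FTPG.t_FTPG

theorem all_REC : S_REC := REC.t_REC all_LNG all_PHI all_CARD

theorem all_SV : S_SV := SV.t_SV all_REC

theorem all_CHS : S_CHS := CHS.t_CHS MOD.t_MOD LGP.t_LGP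

theorem all_LZ : S_LZ := LZ.t_LZ all_CARD all_SV LGP.t_LGP

theorem all_MDL : S_MDL := MDL.t_MDL all_SV all_CHS VSP.t_VSP all_LZ LAG.t_LAG

theorem all_AN : S_AN :=
  AN.t_AN TUP.t_TUP (AN1.t_AN1 (BL.t_BL LS.t_LS)) AN2.t_AN2 (AN3.t_AN3 (EUL.t_EUL LU.t_LU)) T0L.t_T0L

theorem all_MOM : S_MOM :=
  MOM.t_MOM all_AN (EXP.t_EXP MASS.t_MASS) UNL.t_UNL (CNTU.t_CNTU UNL.t_UNL) (MAINU.t_MAINU UNL.t_UNL)

theorem all_DIST : S_DIST := DIST.t_DIST all_MOM KAP.t_KAP T0L.t_T0L MASS.t_MASS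

theorem all_TYP : S_TYP := TYP.t_TYP all_MDL all_DIST all_MOM T0L.t_T0L

end Pool.Agent.T3h73.SD
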