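import Pool.Agent.T3h73.SD.Fam
import Pool.Agent.T3h73.SD.T_TUP

/-! Task AN3 of project SD: splitting off one set of a family. -/

set_option autoImplicit false
set_option linter.all false

open NumberField IsDedekindDomain Filter Topology

namespace Pool.Agent.T3h73.SD.AN3

open Pool.Agent.T3h73.SD
open Pool.Agent.T3h73.SL (Pl)
open Pool.Agent.T3h73.SD.Fam (wt wt_nonneg norm_ee norm_trm pi_sum)
open Pool.Agent.T3h73.SD.TUP (one_le_NA)

theorem ee_eq (ℓ : ℕ) [NeZero ℓ] (a : ZMod ℓ) : ee ℓ a = ZMod.stdAddChar a := by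
  rw [ZMod.stdAddChar_apply, ZMod.toCircle_apply]
  rfl

theorem ee_add (ℓ : ℕ) [NeZero ℓ] (a b : ZMod ℓ) : ee ℓ (a + b) = ee ℓ a * ee ℓ b := by
  rw [ee_eq, ee_eq, ee_eq, AddChar.map_add_eq_mul]

theorem ee_zero (ℓ : ℕ) [NeZero ℓ] : ee ℓ 0 = 1 := by
  rw [ee_eq, AddChar.map_zero_eq_one]

variable {K : Type} [Field K] [NumberField K] {ℓ : ℕ} {S : Finset (Pl K)} {𝔪 : Ideal (𝓞 K)}
  {Λ : Type} [AddCommGroup Λ] {χ : Λ → Pl K → ZMod ℓ} {sy : Pl K → Pl K → ZMod ℓ}
  {C : Type} [Fintype C]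

theorem chi_zero (h : SymSys ℓ K S 𝔪 Λ χ sy) (q : Pl K) : χ 0 q = 0 := by
  have := h.add 0 0 q
  rw [add_zero] at this
  exact left_eq_add.1 this

theorem syA_symm (h : SymSys ℓ K S 𝔪 Λ χ sy) {A B : Finset (Pl K)} (hA : Disjoint A S)
    (hB : Disjoint B S) (hAB : Disjoint A B) : syA sy A B = syA sy B A := by
  unfold syA
  rw [Finset.sum_comm]
  refine Finset.sum_congr rfl fun b hb => Finset.sum_congr rfl fun a ha => ?_
  refine h.symm a b (Finset.disjoint_left.1 hA ha) (Finset.disjoint_left.1 hB hb) ?_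
  rintro rfl
  exact Finset.disjoint_left.1 hAB ha hb

open Classical in
/-- the exponent of the part of a family with colours in `I` -/
noncomputable def ex (χ : Λ → Pl K → ZMod ℓ) (sy : Pl K → Pl K → ZMod ℓ) (R : C → C → ZMod ℓ)
    (h : C → Λ) (I : Finset C) (A : C → Finset (Pl K)) : ZMod ℓ :=
  ∑ c ∈ I, ∑ q ∈ A c, χ (h c) q +
    ∑ c ∈ I, ∑ c' ∈ I, if c = c' then 0 else R c c' * syA sy (A c) (A c')

open Classical in
theorem trm_eq (R : C → C → ZMod ℓ) (m : ℕ) (h : C → Λ) (s : ℝ) (A : C → Finset (Pl K)) :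
    trm χ sy R m h s A = ((∏ c, wt m s (A c) : ℝ) : ℂ) * ee ℓ (ex χ sy R h Finset.univ A) := rfl

open Classical in
theorem ex_insert (R : C → C → ZMod ℓ) (h : C → Λ) (I : Finset C) (a : C) (ha : a ∉ I)
    (A : C → Finset (Pl K)) : ex χ sy R h (insert a I) A = ex χ sy R h I A +
      (∑ q ∈ A a, χ (h a) q +
        ∑ c ∈ I, (R a c * syA sy (A a) (A c) + R c a * syA sy (A c) (A a))) := by
  unfold ex
  have hne : ∀ c ∈ I, a ≠ c := fun c hc e => ha (e ▸ hc)
  rw [Finset.sum_insert ha, Finset.sum_insert ha, Finset.sum_insert ha, if_pos rfl, zero_add]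
  have h1 : ∑ c ∈ I, (if a = c then 0 else R a c * syA sy (A a) (A c)) =
      ∑ c ∈ I, R a c * syA sy (A a) (A c) :=
    Finset.sum_congr rfl fun c hc => if_neg (hne c hc)
  have h2 : ∑ c ∈ I, ∑ c' ∈ insert a I, (if c = c' then 0 else R c c' * syA sy (A c) (A c')) =
      ∑ c ∈ I, R c a * syA sy (A c) (A a) +
        ∑ c ∈ I, ∑ c' ∈ I, if c = c' then 0 else R c c' * syA sy (A c) (A c') := by
    rw [← Finset.sum_add_distrib]
    refine Finset.sum_congr rfl fun c hc => ?_
    rw [Finset.sum_insert ha, if_neg (hne c hc).symm]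
  rw [h1, h2, Finset.sum_add_distrib]
  ring

open Classical in
theorem ex_congr (R : C → C → ZMod ℓ) (h : C → Λ) (I : Finset C) {A A' : C → Finset (Pl K)}
    (hA : ∀ c ∈ I, A c = A' c) : ex χ sy R h I A = ex χ sy R h I A' := by
  unfold ex
  congr 1
  · exact Finset.sum_congr rfl fun c hc => by rw [hA c hc]
  · exact Finset.sum_congr rfl fun c hc => Finset.sum_congr rfl fun c' hc' => by
      rw [hA c hc, hA c' hc']

section coef

variable (k : C → ZMod ℓ) (I : Finset C) (A : C → Finset (Pl K))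

open Classical in
/-- the coefficients of the places -/
noncomputable def coef (b : Pl K) : ZMod ℓ := ∑ c ∈ I, if b ∈ A c then k c else 0

open Classical in
noncomputable def BB : Finset (Pl K) := (I.filter fun c => k c ≠ 0).biUnion A

open Classical in
noncomputable def FF : Finset (Pl K) := (I.filter fun c => k c = 0).biUnion A

variable {k I A}

open Classical in
theorem coef_mem (hd : ∀ c ∈ I, ∀ c' ∈ I, c ≠ c' → Disjoint (A c) (A c')) {c : C} (hc : c ∈ I)
    {b : Pl K} (hb : b ∈ A c) : coef k I A b = k c := by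
  unfold coef
  rw [Finset.sum_eq_single c]
  · rw [if_pos hb]
  · intro c' hc' hne
    rw [if_neg]
    intro hb'
    exact Finset.disjoint_left.1 (hd c' hc' c hc hne) hb' hb
  · intro h
    exact absurd hc h

open Classical in
theorem coef_ne (hd : ∀ c ∈ I, ∀ c' ∈ I, c ≠ c' → Disjoint (A c) (A c')) (b : Pl K) :
    coef k I A b ≠ 0 ↔ b ∈ BB k I A := by
  unfold BB
  rw [Finset.mem_biUnion]
  constructor
  · intro h1
    unfold coef at h1
    obtain ⟨c, hc, h2⟩ := Finset.exists_ne_zero_of_sum_ne_zero h1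
    by_cases hb : b ∈ A c
    · rw [if_pos hb] at h2
      exact ⟨c, Finset.mem_filter.2 ⟨hc, h2⟩, hb⟩
    · rw [if_neg hb] at h2
      exact absurd rfl h2
  · rintro ⟨c, hc, hb⟩
    rw [Finset.mem_filter] at hc
    rw [coef_mem hd hc.1 hb]
    exact hc.2

open Classical in
theorem sum_BB (hd : ∀ c ∈ I, ∀ c' ∈ I, c ≠ c' → Disjoint (A c) (A c')) (f : Pl K → ZMod ℓ) :
    ∑ b ∈ BB k I A, coef k I A b * f b = ∑ c ∈ I, k c * ∑ b ∈ A c, f b := by
  unfold BB
  rw [Finset.sum_biUnion]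
  · have h1 : ∀ c ∈ I.filter (fun c => k c ≠ 0), ∑ b ∈ A c, coef k I A b * f b =
        k c * ∑ b ∈ A c, f b := by
      intro c hc
      rw [Finset.mul_sum]
      refine Finset.sum_congr rfl fun b hb => ?_
      rw [coef_mem hd (Finset.mem_filter.1 hc).1 hb]
    rw [Finset.sum_congr rfl h1, Finset.sum_filter]
    refine Finset.sum_congr rfl fun c _ => ?_
    split_ifs with h2
    · rfl
    · rw [not_not] at h2
      rw [h2, zero_mul]
  · intro c hc c' hc' hne
    exact hd c (Finset.mem_filter.1 hc).1 c' (Finset.mem_filter.1 hc').1 hne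

open Classical in
theorem disj_iff (X : Finset (Pl K)) :
    (∀ c ∈ I, Disjoint X (A c)) ↔ Disjoint X (BB k I A) ∧ Disjoint X (FF k I A) := by
  unfold BB FF
  rw [Finset.disjoint_biUnion_right, Finset.disjoint_biUnion_right]
  constructor
  · intro h
    exact ⟨fun c hc => h c (Finset.mem_filter.1 hc).1, fun c hc => h c (Finset.mem_filter.1 hc).1⟩
  · rintro ⟨h1, h2⟩ c hc
    by_cases h3 : k c = 0
    · exact h2 c (Finset.mem_filter.2 ⟨hc, h3⟩)
    · exact h1 c (Finset.mem_filter.2 ⟨hc, h3⟩)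

open Classical in
theorem gA_pos (A : Finset (Pl K)) : 1 ≤ gA A := by
  unfold gA
  refine Finset.one_le_prod fun q _ => ?_
  have : 0 ≤ 1 / (Ideal.absNorm q.asIdeal : ℝ) := by positivity
  linarith

open Classical in
theorem gA_FF (hd : ∀ c ∈ I, ∀ c' ∈ I, c ≠ c' → Disjoint (A c) (A c')) :
    gA (FF k I A) ≤ ∏ c ∈ I, gA (A c) := by
  unfold FF
  have h1 : gA ((I.filter fun c => k c = 0).biUnion A) =
      ∏ c ∈ I.filter (fun c => k c = 0), gA (A c) := by
    unfold gA
    rw [Finset.prod_biUnion]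
    intro c hc c' hc' hne
    exact hd c (Finset.mem_filter.1 hc).1 c' (Finset.mem_filter.1 hc').1 hne
  rw [h1]
  exact Finset.prod_le_prod_of_subset_of_one_le (Finset.filter_subset _ _)
    (fun c _ => (zero_le_one.trans (gA_pos _))) fun c _ _ => gA_pos _

open Classical in
theorem NA_BB (hd : ∀ c ∈ I, ∀ c' ∈ I, c ≠ c' → Disjoint (A c) (A c')) {Z : ℝ} (hZ : 1 ≤ Z)
    (hk : ∀ c ∈ I, k c ≠ 0 → (NA (A c) : ℝ) ≤ Z) :
    Real.log (NA (BB k I A)) ≤ Fintype.card C * Real.log Z := by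
  unfold BB
  have h1 : (NA ((I.filter fun c => k c ≠ 0).biUnion A) : ℝ) =
      ∏ c ∈ I.filter (fun c => k c ≠ 0), (NA (A c) : ℝ) := by
    unfold NA
    rw [Finset.prod_biUnion]
    · push_cast
      rfl
    · intro c hc c' hc' hne
      exact hd c (Finset.mem_filter.1 hc).1 c' (Finset.mem_filter.1 hc').1 hne
  rw [h1, Real.log_prod (fun c _ => (zero_lt_one.trans_le (one_le_NA _)).ne')]
  have hlZ : 0 ≤ Real.log Z := Real.log_nonneg hZ
  calc ∑ c ∈ I.filter (fun c => k c ≠ 0), Real.log (NA (A c))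
      ≤ ∑ c ∈ I.filter (fun c => k c ≠ 0), Real.log Z := by
        refine Finset.sum_le_sum fun c hc => ?_
        rw [Finset.mem_filter] at hc
        exact Real.log_le_log (zero_lt_one.trans_le (one_le_NA _)) (hk c hc.1 hc.2)
    _ = (I.filter fun c => k c ≠ 0).card * Real.log Z := by
        rw [Finset.sum_const, nsmul_eq_mul]
    _ ≤ _ := by
        refine mul_le_mul_of_nonneg_right ?_ hlZ
        exact_mod_cast Finset.card_le_univ _

end coef

/-- the sets which may be put in place of `A a` -/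
def Inn (S : Finset (Pl K)) (I : Finset C) (A : C → Finset (Pl K)) (X : Finset (Pl K)) : Prop :=
  Disjoint X S ∧ ∀ c ∈ I, Disjoint X (A c)

open Classical in
/-- the term after a change of one set -/
theorem trm_update (hs : SymSys ℓ K S 𝔪 Λ χ sy) [NeZero ℓ] (R : C → C → ZMod ℓ) (m : ℕ) (h : C → Λ)
    (s : ℝ) (A : C → Finset (Pl K)) (a : C) (X : Finset (Pl K))
    (hd : ∀ c ∈ Finset.univ.erase a, ∀ c' ∈ Finset.univ.erase a, c ≠ c' → Disjoint (A c) (A c'))
    (hS : ∀ c ∈ Finset.univ.erase a, Disjoint (A c) S) (hX : Inn S (Finset.univ.erase a) A X) :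
    trm χ sy R m h s (Function.update A a X) =
      (((∏ c ∈ Finset.univ.erase a, wt m s (A c) : ℝ) : ℂ) *
        ee ℓ (ex χ sy R h (Finset.univ.erase a) A)) *
      (((wt m s X : ℝ) : ℂ) * ee ℓ (∑ q ∈ X, (χ (h a) q +
        ∑ b ∈ BB (fun c => R a c + R c a) (Finset.univ.erase a) A,
          coef (fun c => R a c + R c a) (Finset.univ.erase a) A b * sy b q))) := by
  have hne : ∀ c ∈ Finset.univ.erase a, c ≠ a := fun c hc => (Finset.mem_erase.1 hc).1
  have hup : ∀ c ∈ Finset.univ.erase a, Function.update A a X c = A c := fun c hc =>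
    Function.update_of_ne (hne c hc) X A
  have hprod : ∏ c, wt m s (Function.update A a X c) =
      (∏ c ∈ Finset.univ.erase a, wt m s (A c)) * wt m s X := by
    rw [← Finset.mul_prod_erase Finset.univ _ (Finset.mem_univ a), Function.update_self, mul_comm]
    congr 1
    exact Finset.prod_congr rfl fun c hc => by rw [hup c hc]
  have hex : ex χ sy R h Finset.univ (Function.update A a X) =
      ex χ sy R h (Finset.univ.erase a) A + ∑ q ∈ X, (χ (h a) q +
        ∑ b ∈ BB (fun c => R a c + R c a) (Finset.univ.erase a) A,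
          coef (fun c => R a c + R c a) (Finset.univ.erase a) A b * sy b q) := by
    have h1 : (Finset.univ : Finset C) = insert a (Finset.univ.erase a) :=
      (Finset.insert_erase (Finset.mem_univ a)).symm
    rw [show ex χ sy R h Finset.univ (Function.update A a X) =
      ex χ sy R h (insert a (Finset.univ.erase a)) (Function.update A a X) by rw [← h1],
      ex_insert R h _ a (Finset.notMem_erase a _), ex_congr R h _ hup, Function.update_self]
    have h3 : ∑ q ∈ X, (χ (h a) q +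
        ∑ b ∈ BB (fun c => R a c + R c a) (Finset.univ.erase a) A,
          coef (fun c => R a c + R c a) (Finset.univ.erase a) A b * sy b q) =
        ∑ q ∈ X, χ (h a) q + ∑ q ∈ X,
        ∑ b ∈ BB (fun c => R a c + R c a) (Finset.univ.erase a) A,
          coef (fun c => R a c + R c a) (Finset.univ.erase a) A b * sy b q :=
      Finset.sum_add_distrib
    rw [h3]
    congr 2
    have h2 : ∀ q ∈ X, ∑ b ∈ BB (fun c => R a c + R c a) (Finset.univ.erase a) A,
          coef (fun c => R a c + R c a) (Finset.univ.erase a) A b * sy b q =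
        ∑ c ∈ Finset.univ.erase a, (R a c + R c a) * ∑ b ∈ A c, sy b q := fun q _ =>
      sum_BB hd fun b => sy b q
    rw [Finset.sum_congr rfl h2, Finset.sum_comm]
    refine Finset.sum_congr rfl fun c hc => ?_
    rw [hup c hc, syA_symm hs hX.1 (hS c hc) (hX.2 c hc), ← add_mul, ← Finset.mul_sum]
    congr 1
    unfold syA
    rw [Finset.sum_comm]
  rw [trm_eq, hprod, hex, ee_add]
  push_cast
  ring

open Classical in
/-- the sum over one set of a family -/
theorem inner (hs : SymSys ℓ K S 𝔪 Λ χ sy) [NeZero ℓ] (R : C → C → ZMod ℓ) (m : ℕ) (hm : 1 ≤ m)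
    (h : C → Λ) {E : ℝ} (hE0 : 0 < E)
    (hE : ∀ (h : Λ) (j : Pl K → ZMod ℓ) (B F : Finset (Pl K)), Disjoint B S →
      (∀ b, j b ≠ 0 ↔ b ∈ B) → (h ≠ 0 ∨ B.Nonempty) → ∀ s : ℝ, 1 < s → s ≤ 2 →
      ‖∑' A : Finset (Pl K), if Disjoint A S ∧ Disjoint A B ∧ Disjoint A F then
        ((((m : ℝ) ^ A.card)⁻¹ * (NA A : ℝ) ^ (-s) : ℝ) : ℂ) *
          ee ℓ (∑ q ∈ A, (χ h q + ∑ b ∈ B, j b * sy b q)) else 0‖ ≤
        E * (1 + Real.log (NA B)) ^ E * gA F ^ E)
    {C₁ : ℝ} (hC₁ : 0 ≤ C₁) {s Z : ℝ} (hs1 : 1 < s) (hs2 : s ≤ 2) (hZ : 1 ≤ Z)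
    (hsum : Summable fun A : Finset (Pl K) => wt m s A)
    (hsm : ∑' A : Finset (Pl K), (if (NA A : ℝ) ≤ Z then wt m s A else 0) ≤
      C₁ * (1 + Real.log Z))
    (A : C → Finset (Pl K)) (a : C)
    (hd : ∀ c ∈ Finset.univ.erase a, ∀ c' ∈ Finset.univ.erase a, c ≠ c' → Disjoint (A c) (A c'))
    (hS : ∀ c ∈ Finset.univ.erase a, Disjoint (A c) S)
    (hk : ∀ c ∈ Finset.univ.erase a, R a c + R c a ≠ 0 → (NA (A c) : ℝ) ≤ Z)
    (hn : h a ≠ 0 ∨ ∃ c, c ≠ a ∧ R a c + R c a ≠ 0 ∧ (A c).Nonempty) :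
    ‖∑' X : Finset (Pl K), if Inn S (Finset.univ.erase a) A X ∧ Z < (NA X : ℝ) then
      trm χ sy R m h s (Function.update A a X) else 0‖ ≤
      (∏ c ∈ Finset.univ.erase a, wt m s (A c)) *
        (E * (1 + Fintype.card C * Real.log Z) ^ E * (∏ c ∈ Finset.univ.erase a, gA (A c)) ^ E +
          C₁ * (1 + Real.log Z)) := by
  set k : C → ZMod ℓ := fun c => R a c + R c a with hkd
  set I := Finset.univ.erase a with hI
  set B := BB k I A with hB
  set F := FF k I A with hF
  set j := coef k I A with hj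
  have hBS : Disjoint B S := by
    rw [hB]
    unfold BB
    rw [Finset.disjoint_biUnion_left]
    exact fun c hc => hS c (Finset.mem_filter.1 hc).1
  have hBn : h a ≠ 0 ∨ B.Nonempty := by
    rcases hn with h1 | ⟨c, h1, h2, b, h3⟩
    · exact Or.inl h1
    · refine Or.inr ⟨b, ?_⟩
      rw [hB]
      unfold BB
      exact Finset.mem_biUnion.2 ⟨c, Finset.mem_filter.2
        ⟨Finset.mem_erase.2 ⟨h1, Finset.mem_univ _⟩, h2⟩, h3⟩
  have hfull := hE (h a) j B F hBS (coef_ne hd) hBn s hs1 hs2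
  set G : Finset (Pl K) → ℂ := fun X => ((wt m s X : ℝ) : ℂ) *
    ee ℓ (∑ q ∈ X, (χ (h a) q + ∑ b ∈ B, j b * sy b q)) with hG
  have hGn : ∀ X, ‖G X‖ = wt m s X := by
    intro X
    simp only [hG]
    rw [norm_mul, norm_ee, mul_one, Complex.norm_real, Real.norm_of_nonneg (wt_nonneg m s X)]
  set c0 : ℂ := ((∏ c ∈ I, wt m s (A c) : ℝ) : ℂ) * ee ℓ (ex χ sy R h I A) with hc0
  have hc0n : ‖c0‖ = ∏ c ∈ I, wt m s (A c) := by
    rw [hc0, norm_mul, norm_ee, mul_one, Complex.norm_real,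
      Real.norm_of_nonneg (Finset.prod_nonneg fun c _ => wt_nonneg m s _)]
  have hterm : ∀ X, (if Inn S I A X ∧ Z < (NA X : ℝ) then
      trm χ sy R m h s (Function.update A a X) else 0) =
      c0 * ((if Disjoint X S ∧ Disjoint X B ∧ Disjoint X F then G X else 0) -
        (if (Disjoint X S ∧ Disjoint X B ∧ Disjoint X F) ∧ (NA X : ℝ) ≤ Z then G X else 0)) := by
    intro X
    have hiff : Inn S I A X ↔ Disjoint X S ∧ Disjoint X B ∧ Disjoint X F := by
      unfold Inn
      rw [disj_iff (k := k)]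
    by_cases h1 : Inn S I A X
    · have h2 := hiff.1 h1
      rcases lt_or_ge Z (NA X : ℝ) with h3 | h3
      · rw [if_pos ⟨h1, h3⟩, if_pos h2, if_neg fun h4 => absurd h4.2 (not_le.2 h3), sub_zero]
        exact trm_update hs R m h s A a X hd hS h1
      · rw [if_neg fun h4 => absurd h4.2 (not_lt.2 h3), if_pos h2, if_pos ⟨h2, h3⟩, sub_self,
          mul_zero]
    · have h2 : ¬ (Disjoint X S ∧ Disjoint X B ∧ Disjoint X F) := fun h3 => h1 (hiff.2 h3)
      rw [if_neg fun h4 => h1 h4.1, if_neg h2, if_neg fun h4 => h2 h4.1, sub_zero, mul_zero]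
  have hf1 : Summable fun X : Finset (Pl K) =>
      if Disjoint X S ∧ Disjoint X B ∧ Disjoint X F then G X else 0 := by
    refine Summable.of_norm_bounded hsum fun X => ?_
    split_ifs
    · exact (hGn X).le
    · rw [norm_zero]
      exact wt_nonneg m s X
  have hf2 : Summable fun X : Finset (Pl K) =>
      if (Disjoint X S ∧ Disjoint X B ∧ Disjoint X F) ∧ (NA X : ℝ) ≤ Z then G X else 0 := by
    refine Summable.of_norm_bounded hsum fun X => ?_
    split_ifs
    · exact (hGn X).le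
    · rw [norm_zero]
      exact wt_nonneg m s X
  have hf3 : Summable fun A : Finset (Pl K) => if (NA A : ℝ) ≤ Z then wt m s A else 0 := by
    refine Summable.of_nonneg_of_le (fun X => ?_) (fun X => ?_) hsum
    · split_ifs
      · exact wt_nonneg m s X
      · exact le_rfl
    · split_ifs
      · exact le_rfl
      · exact wt_nonneg m s X
  rw [tsum_congr hterm, tsum_mul_left, hf1.tsum_sub hf2, norm_mul, hc0n]
  refine mul_le_mul_of_nonneg_left ?_ (Finset.prod_nonneg fun c _ => wt_nonneg m s _)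
  refine (norm_sub_le _ _).trans (add_le_add ?_ ?_)
  · refine hfull.trans ?_
    have hlB0 : 0 ≤ Real.log (NA B) := Real.log_nonneg (one_le_NA B)
    have hlB := NA_BB (k := k) hd hZ hk
    have hgF := gA_FF (k := k) hd
    have hgF1 : 1 ≤ gA F := gA_pos F
    have hlZ : 0 ≤ Real.log Z := Real.log_nonneg hZ
    have e1 : (1 + Real.log (NA B)) ^ E ≤ (1 + Fintype.card C * Real.log Z) ^ E :=
      Real.rpow_le_rpow (by linarith) (by linarith) hE0.le
    have e2 : gA F ^ E ≤ (∏ c ∈ I, gA (A c)) ^ E :=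
      Real.rpow_le_rpow (by linarith) hgF hE0.le
    have e3 : 0 ≤ (1 + Fintype.card C * Real.log Z) ^ E := Real.rpow_nonneg (by positivity) _
    exact mul_le_mul (mul_le_mul_of_nonneg_left e1 hE0.le) e2
      (Real.rpow_nonneg (by linarith) _) (mul_nonneg hE0.le e3)
  · refine le_trans (tsum_of_norm_bounded hf3.hasSum fun X => ?_) hsm
    by_cases h1 : (NA X : ℝ) ≤ Z
    · rw [if_pos h1]
      split_ifs
      · exact (hGn X).le
      · rw [norm_zero]
        exact wt_nonneg m s X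
    · rw [if_neg h1, if_neg fun h2 => h1 h2.2, norm_zero]

end Pool.Agent.T3h73.SD.AN3
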