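import Pool.Agent.T3h73.SD.An3A

/-! Task AN3 of project SD: the sum over the families with a set which gives cancellation. -/

set_option autoImplicit false
set_option linter.all false

open NumberField IsDedekindDomain Filter Topology

namespace Pool.Agent.T3h73.SD.AN3

open Pool.Agent.T3h73.SD
open Pool.Agent.T3h73.SL (Pl)
open Pool.Agent.T3h73.SD.Fam (wt wt_nonneg norm_ee norm_trm pi_sum)
open Pool.Agent.T3h73.SD.TUP (one_le_NA tz summable_tz)

/-- the two bounds for sums over one finite set, with a weight -/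
theorem one_varD (K : Type) [Field K] [NumberField K] (m : ℕ) (hm : 1 ≤ m) (D : ℝ) (hD : 0 ≤ D) :
    ∃ C : ℝ, 1 ≤ C ∧
    (∀ s : ℝ, 1 < s → s ≤ 2 → Summable (fun A : Finset (Pl K) => wt m s A * gA A ^ D) ∧
      ∑' A : Finset (Pl K), wt m s A * gA A ^ D ≤ C * (1 / (s - 1)) ^ (1 / (m : ℝ))) ∧
    ∀ (Z : ℝ), 1 ≤ Z → ∀ s : ℝ, 1 < s →
      Summable (fun A : Finset (Pl K) => if (NA A : ℝ) ≤ Z then wt m s A * gA A ^ D else 0) ∧
      ∑' A : Finset (Pl K), (if (NA A : ℝ) ≤ Z then wt m s A * gA A ^ D else 0) ≤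
        C * (1 + Real.log Z) := by
  obtain ⟨C₁, hC₁, h1, -⟩ := MASS.t_MASS K m D hm hD
  obtain ⟨C₂, hC₂, h2, -⟩ := MASS.t_MASS K 1 D le_rfl hD
  have hm0 : (0 : ℝ) < m := by exact_mod_cast hm
  have hm1 : (1 : ℝ) ≤ m := by exact_mod_cast hm
  have hg : ∀ A : Finset (Pl K), 0 ≤ gA A ^ D := fun A =>
    Real.rpow_nonneg (zero_le_one.trans (gA_pos A)) _
  have hcard : ∀ A : Finset (Pl K), ((m : ℝ) ^ A.card)⁻¹ ≤ 1 := fun A =>
    inv_le_one_of_one_le₀ (one_le_pow₀ hm1)
  have hs1 : ∀ s : ℝ, 1 < s → s ≤ 2 →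
      Summable (fun A : Finset (Pl K) => (NA A : ℝ) ^ (-s) * gA A ^ D) := by
    intro s hs hs2
    refine (h2 s hs hs2).1.congr fun A => ?_
    rw [Nat.cast_one, one_pow, one_mul]
  have ht1 : ∀ s : ℝ, 1 < s → s ≤ 2 →
      ∑' A : Finset (Pl K), (NA A : ℝ) ^ (-s) * gA A ^ D ≤ C₂ * (1 / (s - 1)) := by
    intro s hs hs2
    have h3 := (h2 s hs hs2).2
    have e : ∀ A : Finset (Pl K), (((1 : ℕ) : ℝ) ^ A.card)⁻¹ * (NA A : ℝ) ^ (-s) *
        gA A ^ D = (NA A : ℝ) ^ (-s) * gA A ^ D := by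
      intro A
      rw [Nat.cast_one, one_pow, inv_one, one_mul]
    rw [tsum_congr e] at h3
    simpa using h3
  have hle1 : ∀ (s : ℝ) (A : Finset (Pl K)), wt m s A * gA A ^ D ≤ (NA A : ℝ) ^ (-s) * gA A ^ D := by
    intro s A
    refine mul_le_mul_of_nonneg_right ?_ (hg A)
    unfold wt
    exact mul_le_of_le_one_left (by positivity) (hcard A)
  have hn1 : ∀ (s : ℝ) (A : Finset (Pl K)), 0 ≤ wt m s A * gA A ^ D := fun s A =>
    mul_nonneg (wt_nonneg m s A) (hg A)
  refine ⟨C₁ + Real.exp 1 * C₂ + 1, by positivity |> fun (h : 0 ≤ C₁ + Real.exp 1 * C₂) =>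
    by linarith, ?_, ?_⟩
  · intro s hs hs2
    have hs0 : 0 < s - 1 := by linarith
    constructor
    · exact Summable.of_nonneg_of_le (hn1 s) (hle1 s) (hs1 s hs hs2)
    · have h3 := (h1 s hs hs2).2
      refine h3.trans (mul_le_mul_of_nonneg_right ?_ (by positivity))
      have : 0 ≤ Real.exp 1 * C₂ := by positivity
      linarith
  · intro Z hZ s hs
    have hlZ : 0 ≤ Real.log Z := Real.log_nonneg hZ
    have h1Z : 0 < 1 + Real.log Z := by linarith
    set s' : ℝ := 1 + 1 / (1 + Real.log Z) with hs'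
    have hs1' : 1 < s' := by
      rw [hs']
      have : 0 < 1 / (1 + Real.log Z) := by positivity
      linarith
    have hs2' : s' ≤ 2 := by
      rw [hs']
      have : 1 / (1 + Real.log Z) ≤ 1 := by rw [div_le_one h1Z]; linarith
      linarith
    have hterm : ∀ A : Finset (Pl K), (if (NA A : ℝ) ≤ Z then wt m s A * gA A ^ D else 0) ≤
        Real.exp 1 * ((NA A : ℝ) ^ (-s') * gA A ^ D) := by
      intro A
      have hN1 : (1 : ℝ) ≤ (NA A : ℝ) := one_le_NA A
      have hN0 : (0 : ℝ) < (NA A : ℝ) := by linarith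
      split_ifs with h
      · refine (hle1 s A).trans ?_
        rw [← mul_assoc]
        refine mul_le_mul_of_nonneg_right ?_ (hg A)
        have h4 : (NA A : ℝ) ^ (-s) ≤ (NA A : ℝ) ^ (s' - 1) * (NA A : ℝ) ^ (-s') := by
          rw [← Real.rpow_add hN0]
          exact Real.rpow_le_rpow_of_exponent_le hN1 (by linarith)
        refine h4.trans (mul_le_mul_of_nonneg_right ?_ (by positivity))
        rw [Real.rpow_def_of_pos hN0]
        apply Real.exp_le_exp.mpr
        have h5 : Real.log (NA A : ℝ) ≤ Real.log Z := Real.log_le_log hN0 h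
        have h6 : s' - 1 = 1 / (1 + Real.log Z) := by rw [hs']; ring
        rw [h6, mul_one_div, div_le_one h1Z]
        linarith
      · have := hg A
        positivity
    have hnn : ∀ A : Finset (Pl K), 0 ≤ (if (NA A : ℝ) ≤ Z then wt m s A * gA A ^ D else 0) := by
      intro A; split_ifs
      · exact hn1 s A
      · exact le_rfl
    have hsum := Summable.of_nonneg_of_le hnn hterm ((hs1 s' hs1' hs2').mul_left (Real.exp 1))
    refine ⟨hsum, ?_⟩
    refine (Summable.tsum_le_tsum hterm hsum ((hs1 s' hs1' hs2').mul_left (Real.exp 1))).trans ?_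
    rw [tsum_mul_left]
    have h7 := ht1 s' hs1' hs2'
    have h8 : 1 / (s' - 1) = 1 + Real.log Z := by rw [hs']; simp
    rw [h8] at h7
    calc Real.exp 1 * ∑' A : Finset (Pl K), (NA A : ℝ) ^ (-s') * gA A ^ D
        ≤ Real.exp 1 * (C₂ * (1 + Real.log Z)) := mul_le_mul_of_nonneg_left h7 (by positivity)
      _ = (Real.exp 1 * C₂) * (1 + Real.log Z) := by ring
      _ ≤ _ := mul_le_mul_of_nonneg_right (by linarith) h1Z.le

variable {K : Type} [Field K] [NumberField K] {ℓ : ℕ} {S : Finset (Pl K)} {𝔪 : Ideal (𝓞 K)}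
  {Λ : Type} [AddCommGroup Λ] {χ : Λ → Pl K → ZMod ℓ} {sy : Pl K → Pl K → ZMod ℓ}
  {C : Type} [Fintype C]

open Classical in
/-- families: all sets but one, and one set -/
noncomputable def e2 (β : Type) (a : C) : (({j : C // j ≠ a} → β) × β) ≃ (C → β) :=
  (Equiv.prodComm _ _).trans (Equiv.funSplitAt a β).symm

open Classical in
theorem e2_apply (β : Type) (a : C) (x : ({j : C // j ≠ a} → β)) (y y' : β) :
    e2 β a (x, y) = Function.update (e2 β a (x, y')) a y := by
  funext c
  unfold e2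
  simp only [Equiv.trans_apply, Equiv.prodComm_apply, Prod.swap_prod_mk,
    Equiv.funSplitAt_symm_apply]
  by_cases h : c = a
  · subst h
    simp
  · rw [Function.update_of_ne h]
    simp [h]

open Classical in
theorem e2_val (β : Type) (a : C) (x : ({j : C // j ≠ a} → β)) (y : β) (c : {j : C // j ≠ a}) :
    e2 β a (x, y) c = x c := by
  unfold e2
  simp only [Equiv.trans_apply, Equiv.prodComm_apply, Prod.swap_prod_mk,
    Equiv.funSplitAt_symm_apply]
  rw [dif_neg c.2]

open Classical in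
theorem outer (hs : SymSys ℓ K S 𝔪 Λ χ sy) [NeZero ℓ] (R : C → C → ZMod ℓ) (hR : ∀ a, R a a = 0)
    (m : ℕ) (hm : 1 ≤ m) (h : C → Λ) {E : ℝ} (hE0 : 0 < E)
    (hE : ∀ (h : Λ) (j : Pl K → ZMod ℓ) (B F : Finset (Pl K)), Disjoint B S →
      (∀ b, j b ≠ 0 ↔ b ∈ B) → (h ≠ 0 ∨ B.Nonempty) → ∀ s : ℝ, 1 < s → s ≤ 2 →
      ‖∑' A : Finset (Pl K), if Disjoint A S ∧ Disjoint A B ∧ Disjoint A F then
        ((((m : ℝ) ^ A.card)⁻¹ * (NA A : ℝ) ^ (-s) : ℝ) : ℂ) *
          ee ℓ (∑ q ∈ A, (χ h q + ∑ b ∈ B, j b * sy b q)) else 0‖ ≤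
        E * (1 + Real.log (NA B)) ^ E * gA F ^ E)
    {C₁ : ℝ} (hC₁ : 0 ≤ C₁) {s Z u : ℝ} (hs1 : 1 < s) (hs2 : s ≤ 2) (hZ : 1 ≤ Z) (hu : 1 ≤ u)
    (hsum : Summable fun A : Finset (Pl K) => wt m s A)
    (hsm : ∑' A : Finset (Pl K), (if (NA A : ℝ) ≤ Z then wt m s A else 0) ≤
      C₁ * (1 + Real.log Z))
    {C₂ : ℝ} (hC₂ : 1 ≤ C₂)
    (hw : Summable (fun A : Finset (Pl K) => wt m s A * gA A ^ E))
    (hw2 : ∑' A : Finset (Pl K), wt m s A * gA A ^ E ≤ C₂ * u ^ (1 / (m : ℝ)))
    (hz : Summable (fun A : Finset (Pl K) => if (NA A : ℝ) ≤ Z then wt m s A * gA A ^ E else 0))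
    (hz2 : ∑' A : Finset (Pl K), (if (NA A : ℝ) ≤ Z then wt m s A * gA A ^ E else 0) ≤
      C₂ * (1 + Real.log Z))
    (W : Finset C) (a : C) (ha : a ∈ W) (hW : ∀ c ∈ W, R a c + R c a = 0)
    (Q : (C → Finset (Pl K)) → Prop) (hQ : ∀ A X, Q (Function.update A a X) ↔ Q A)
    (hQn : ∀ A, Q A → h a ≠ 0 ∨ ∃ c, c ≠ a ∧ R a c + R c a ≠ 0 ∧ (A c).Nonempty) :
    ‖∑' A : C → Finset (Pl K), if (Tup S A ∧ ∀ c, c ∈ W ↔ Z < (NA (A c) : ℝ)) ∧ Q A then
      trm χ sy R m h s A else 0‖ ≤
      (E * (1 + Fintype.card C * Real.log Z) ^ E + C₁ * (1 + Real.log Z)) *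
        ((C₂ * (1 + Real.log Z)) ^ Fintype.card C * (u ^ (1 / (m : ℝ))) ^ (W.card - 1)) := by
  set I : Finset C := Finset.univ.erase a with hI
  have hlZ : 0 ≤ Real.log Z := Real.log_nonneg hZ
  set Bd : ℝ := E * (1 + Fintype.card C * Real.log Z) ^ E + C₁ * (1 + Real.log Z) with hBd
  have hBd0 : 0 ≤ Bd := by
    have : 0 ≤ (1 + Fintype.card C * Real.log Z) ^ E := Real.rpow_nonneg (by positivity) _
    positivity
  set F : (C → Finset (Pl K)) → ℂ := fun A =>
    if (Tup S A ∧ ∀ c, c ∈ W ↔ Z < (NA (A c) : ℝ)) ∧ Q A then trm χ sy R m h s A else 0 with hF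
  have hFs : Summable F := by
    refine Summable.of_norm_bounded (summable_tz S χ sy R hR m hm h hs1).norm fun A => ?_
    simp only [hF]
    unfold tz
    by_cases h1 : (Tup S A ∧ ∀ c, c ∈ W ↔ Z < (NA (A c) : ℝ)) ∧ Q A
    · rw [if_pos h1, if_pos h1.1.1]
    · rw [if_neg h1, norm_zero]
      exact norm_nonneg _
  have hg : ∀ A : Finset (Pl K), 1 ≤ gA A ^ E := fun A => Real.one_le_rpow (gA_pos A) hE0.le
  -- the weights
  set t : {j : C // j ≠ a} → Finset (Pl K) → ℝ := fun c A =>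
    if (c : C) ∈ W then wt m s A * gA A ^ E else
      (if (NA A : ℝ) ≤ Z then wt m s A * gA A ^ E else 0) with ht
  have hwg : ∀ A : Finset (Pl K), 0 ≤ wt m s A * gA A ^ E := fun A =>
    mul_nonneg (wt_nonneg m s A) (zero_le_one.trans (hg A))
  have ht0 : ∀ c A, 0 ≤ t c A := by
    intro c A
    simp only [ht]
    split_ifs
    · exact hwg A
    · exact hwg A
    · exact le_rfl
  have hts : ∀ c, Summable (t c) := by
    intro c
    by_cases hc : (c : C) ∈ W
    · simpa only [ht, if_pos hc] using hw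
    · simpa only [ht, if_neg hc] using hz
  obtain ⟨hp1, hp2⟩ := pi_sum t ht0 hts
  -- the sum over the other sets
  have hsplit : ∑' A, F A = ∑' A' : {j : C // j ≠ a} → Finset (Pl K),
      ∑' X : Finset (Pl K), F (e2 (Finset (Pl K)) a (A', X)) := by
    rw [← (e2 (Finset (Pl K)) a).tsum_eq F]
    exact ((e2 (Finset (Pl K)) a).summable_iff.2 hFs).tsum_prod
  have hin : ∀ A' : {j : C // j ≠ a} → Finset (Pl K),
      ‖∑' X : Finset (Pl K), F (e2 (Finset (Pl K)) a (A', X))‖ ≤ Bd * ∏ c, t c (A' c) := by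
    intro A'
    set A0 := e2 (Finset (Pl K)) a (A', ∅) with hA0
    have hup : ∀ X, e2 (Finset (Pl K)) a (A', X) = Function.update A0 a X := fun X =>
      e2_apply _ a A' X ∅
    have hval : ∀ c : {j : C // j ≠ a}, A0 c = A' c := fun c => e2_val _ a A' ∅ c
    have hne : ∀ c ∈ I, c ≠ a := fun c hc => (Finset.mem_erase.1 hc).1
    have hmem : ∀ c, c ≠ a → c ∈ I := fun c hc => Finset.mem_erase.2 ⟨hc, Finset.mem_univ _⟩
    have hupn : ∀ X c, c ≠ a → Function.update A0 a X c = A0 c := fun X c hc =>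
      Function.update_of_ne hc X A0
    have hprodI : ∀ f : C → Finset (Pl K) → ℝ, ∏ c ∈ I, f c (A0 c) =
        ∏ c : {j : C // j ≠ a}, f c (A' c) := by
      intro f
      rw [Finset.prod_subtype I (p := fun c => c ≠ a) (fun c => ⟨hne c, hmem c⟩)
        (fun c => f c (A0 c))]
      exact Finset.prod_congr rfl fun c _ => by rw [hval]
    have hrhs0 : 0 ≤ Bd * ∏ c, t c (A' c) :=
      mul_nonneg hBd0 (Finset.prod_nonneg fun c _ => ht0 c _)
    by_cases hout : (∀ c ∈ I, Disjoint (A0 c) S) ∧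
      (∀ c ∈ I, ∀ c' ∈ I, c ≠ c' → Disjoint (A0 c) (A0 c')) ∧
      (∀ c ∈ I, (c ∈ W ↔ Z < (NA (A0 c) : ℝ))) ∧ Q A0
    · obtain ⟨hS, hd, hL, hQ0⟩ := hout
      have hiff : ∀ X, ((Tup S (Function.update A0 a X) ∧
          ∀ c, c ∈ W ↔ Z < (NA (Function.update A0 a X c) : ℝ)) ∧ Q (Function.update A0 a X)) ↔
          (Inn S I A0 X ∧ Z < (NA X : ℝ)) := by
        intro X
        constructor
        · rintro ⟨⟨hT, h1⟩, -⟩
          refine ⟨⟨?_, fun c hc => ?_⟩, ?_⟩
          · have := hT.1 a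
            rwa [Function.update_self] at this
          · have := hT.2 a c (hne c hc).symm
            rwa [Function.update_self, hupn X c (hne c hc)] at this
          · have := (h1 a).1 ha
            rwa [Function.update_self] at this
        · rintro ⟨⟨h1, h2⟩, h3⟩
          refine ⟨⟨⟨fun c => ?_, fun c c' hcc => ?_⟩, fun c => ?_⟩, (hQ A0 X).2 hQ0⟩
          · by_cases hc : c = a
            · rw [hc, Function.update_self]
              exact h1
            · rw [hupn X c hc]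
              exact hS c (hmem c hc)
          · by_cases hc : c = a
            · have hc' : c' ≠ a := fun h4 => hcc (hc.trans h4.symm)
              rw [hc, Function.update_self, hupn X c' hc']
              exact h2 c' (hmem c' hc')
            · rw [hupn X c hc]
              by_cases hc' : c' = a
              · rw [hc', Function.update_self]
                exact (h2 c (hmem c hc)).symm
              · rw [hupn X c' hc']
                exact hd c (hmem c hc) c' (hmem c' hc') hcc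
          · by_cases hc : c = a
            · rw [hc, Function.update_self]
              exact ⟨fun _ => h3, fun _ => ha⟩
            · rw [hupn X c hc]
              exact hL c (hmem c hc)
      have hFX : ∀ X, F (e2 (Finset (Pl K)) a (A', X)) =
          if Inn S I A0 X ∧ Z < (NA X : ℝ) then trm χ sy R m h s (Function.update A0 a X) else 0 := by
        intro X
        rw [hup X]
        simp only [hF]
        exact if_congr (hiff X) rfl rfl
      rw [tsum_congr hFX]
      have hkZ : ∀ c ∈ I, R a c + R c a ≠ 0 → (NA (A0 c) : ℝ) ≤ Z := by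
        intro c hc h1
        by_contra h2
        exact h1 (hW c ((hL c hc).2 (not_le.1 h2)))
      have hinn := inner hs R m hm h hE0 hE hC₁ hs1 hs2 hZ hsum hsm A0 a hd hS hkZ (hQn A0 hQ0)
      refine hinn.trans ?_
      have hg1 : (∏ c ∈ I, gA (A0 c)) ^ E = ∏ c ∈ I, gA (A0 c) ^ E :=
        (Real.finset_prod_rpow I _ (fun c _ => zero_le_one.trans (gA_pos _)) E).symm
      have hg2 : 1 ≤ ∏ c ∈ I, gA (A0 c) ^ E := Finset.one_le_prod fun c _ => hg _
      have hwp : 0 ≤ ∏ c ∈ I, wt m s (A0 c) := Finset.prod_nonneg fun c _ => wt_nonneg m s _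
      have e1 : E * (1 + Fintype.card C * Real.log Z) ^ E * (∏ c ∈ I, gA (A0 c)) ^ E +
          C₁ * (1 + Real.log Z) ≤ Bd * ∏ c ∈ I, gA (A0 c) ^ E := by
        rw [hg1, hBd, add_mul]
        have : C₁ * (1 + Real.log Z) ≤ C₁ * (1 + Real.log Z) * ∏ c ∈ I, gA (A0 c) ^ E :=
          le_mul_of_one_le_right (by positivity) hg2
        linarith
      calc (∏ c ∈ I, wt m s (A0 c)) * (E * (1 + Fintype.card C * Real.log Z) ^ E *
            (∏ c ∈ I, gA (A0 c)) ^ E + C₁ * (1 + Real.log Z))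
          ≤ (∏ c ∈ I, wt m s (A0 c)) * (Bd * ∏ c ∈ I, gA (A0 c) ^ E) :=
            mul_le_mul_of_nonneg_left e1 hwp
        _ = Bd * ∏ c ∈ I, (wt m s (A0 c) * gA (A0 c) ^ E) := by
            rw [Finset.prod_mul_distrib]
            ring
        _ = Bd * ∏ c : {j : C // j ≠ a}, (wt m s (A' c) * gA (A' c) ^ E) := by
            rw [hprodI fun _ X => wt m s X * gA X ^ E]
        _ ≤ Bd * ∏ c, t c (A' c) := by
            refine mul_le_mul_of_nonneg_left (le_of_eq ?_) hBd0
            refine Finset.prod_congr rfl fun c _ => ?_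
            simp only [ht]
            by_cases hc : (c : C) ∈ W
            · rw [if_pos hc]
            · rw [if_neg hc, if_pos]
              have h1 := hL c (hmem c c.2)
              rw [hval c] at h1
              exact not_lt.1 fun h2 => hc (h1.2 h2)
    · have hFX : ∀ X, F (e2 (Finset (Pl K)) a (A', X)) = 0 := by
        intro X
        rw [hup X]
        simp only [hF]
        rw [if_neg]
        rintro ⟨⟨hT, h1⟩, h2⟩
        apply hout
        refine ⟨fun c hc => ?_, fun c hc c' hc' hcc => ?_, fun c hc => ?_, (hQ A0 X).1 h2⟩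
        · have := hT.1 c
          rwa [hupn X c (hne c hc)] at this
        · have := hT.2 c c' hcc
          rwa [hupn X c (hne c hc), hupn X c' (hne c' hc')] at this
        · have := h1 c
          rwa [hupn X c (hne c hc)] at this
      rw [tsum_congr hFX, tsum_zero, norm_zero]
      exact hrhs0
  rw [hsplit]
  refine (tsum_of_norm_bounded (hp1.mul_left Bd).hasSum hin).trans ?_
  rw [tsum_mul_left]
  refine mul_le_mul_of_nonneg_left (hp2.trans ?_) hBd0
  set U : ℝ := u ^ (1 / (m : ℝ)) with hU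
  have hU1 : 1 ≤ U := Real.one_le_rpow hu (by positivity)
  set P : ℝ := C₂ * (1 + Real.log Z) with hP
  have hP1 : 1 ≤ P := by
    have : 1 ≤ 1 + Real.log Z := by linarith
    nlinarith
  have hb1 : ∏ c : {j : C // j ≠ a}, ∑' A, t c A ≤
      ∏ c : {j : C // j ≠ a}, P * (if (c : C) ∈ W then U else 1) := by
    refine Finset.prod_le_prod (fun c _ => tsum_nonneg (ht0 c)) fun c _ => ?_
    by_cases hc : (c : C) ∈ W
    · simp only [ht, if_pos hc]
      refine hw2.trans (mul_le_mul_of_nonneg_right ?_ (by linarith))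
      rw [hP]
      exact le_mul_of_one_le_right (by linarith) (by linarith)
    · simp only [ht, if_neg hc, mul_one]
      exact hz2
  refine hb1.trans ?_
  have hb2 : ∏ c : {j : C // j ≠ a}, P * (if (c : C) ∈ W then U else 1) =
      ∏ c ∈ I, P * (if c ∈ W then U else 1) := by
    rw [Finset.prod_subtype I (p := fun c => c ≠ a)
      (fun c => ⟨fun hc => (Finset.mem_erase.1 hc).1,
        fun hc => Finset.mem_erase.2 ⟨hc, Finset.mem_univ _⟩⟩)
      (fun c => P * (if c ∈ W then U else 1))]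
  rw [hb2, Finset.prod_mul_distrib, Finset.prod_const, Finset.prod_ite_mem, Finset.prod_const]
  have hcard : (I ∩ W).card = W.card - 1 := by
    rw [hI, Finset.erase_inter, Finset.univ_inter, Finset.card_erase_of_mem ha]
  rw [hcard]
  refine mul_le_mul_of_nonneg_right ?_ (pow_nonneg (by linarith) _)
  exact pow_le_pow_right₀ hP1 (Finset.card_le_univ _)

end Pool.Agent.T3h73.SD.AN3
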