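import Pool.Agent.T3h73.SD.Stm
import Pool.Agent.T3h73.SL.T_DEN2
import Pool.Agent.T3h73.SL.Nwt

/-! Project SD, task DK, part 1 (helper64): the lower bound for the density of the places at which
`y` is an `ℓ`-th power. -/

set_option autoImplicit false
set_option linter.all false

open NumberField IsDedekindDomain Filter Topology Polynomial

namespace Pool.Agent.T3h73.SD.DK

open Pool.Agent.T3h73.SD
open Pool.Agent.T3h73.SL (Pl IsP Pk loc Evn S_DEN0 S_DEN2)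
open Pool.Agent.T3h73.SL.Den0 (fin_le SP mem_SP sum_eq norm_pos)
open Pool.Agent.T3h73.SL.Den1 (cond_sum)
open Pool.Agent.T3h73.SL.Den2 (isP_mul_pow fin_mem)
open Pool.Agent.Y773 (VM cc)
open Pool.Agent.Y772.DK (NN NN_finite cc_mul sum_VM_le)

/-- the primes whose norm is not a prime number contribute little -/
theorem nonprime (E : Type) [Field E] [NumberField E] : ∃ C : ℝ, ∀ x : ℝ, 1 ≤ x →
    ∑ᶠ Q ∈ {Q : Pl E | (Ideal.absNorm Q.asIdeal : ℝ) ≤ x},
      (if (Ideal.absNorm Q.asIdeal).Prime then 0 else Real.log (Ideal.absNorm Q.asIdeal)) ≤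
      C * Real.sqrt x := by
  classical
  obtain ⟨C, hC⟩ := Chebyshev.psi_sub_theta_le_mul_sqrt
  refine ⟨Module.finrank ℚ E * C, fun x hx => ?_⟩
  rw [sum_eq (fun 𝔞 : Ideal (𝓞 E) => if (Ideal.absNorm 𝔞).Prime then (0 : ℝ) else
    Real.log (Ideal.absNorm 𝔞)) x]
  have h1 : ∀ n ∈ Finset.Icc 1 ⌊x⌋₊, ∑ 𝔞 ∈ SP E n, (if (Ideal.absNorm 𝔞).Prime then (0 : ℝ) else
      Real.log (Ideal.absNorm 𝔞)) ≤
      Module.finrank ℚ E * (if n.Prime then 0 else ArithmeticFunction.vonMangoldt n) := by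
    intro n hn
    have hn1 := (Finset.mem_Icc.1 hn).1
    by_cases hp : n.Prime
    · rw [if_pos hp, mul_zero]
      refine le_of_eq (Finset.sum_eq_zero fun 𝔞 h𝔞 => ?_)
      rw [(mem_SP.1 h𝔞).1, if_pos hp]
    · rw [if_neg hp]
      have hVM : ∀ 𝔞 ∈ SP E n, (if (Ideal.absNorm 𝔞).Prime then (0 : ℝ) else
          Real.log (Ideal.absNorm 𝔞)) = VM 𝔞 := by
        intro 𝔞 h𝔞
        obtain ⟨h1, h2⟩ := mem_SP.1 h𝔞
        have h3 : 𝔞 ≠ ⊥ := by
          rintro rfl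
          rw [Ideal.absNorm_bot] at h1
          omega
        have h4 := Pool.Agent.Y772.DK.VM_pow (k := 1) (Ideal.prime_of_isPrime h3 h2) one_ne_zero
        rw [pow_one] at h4
        rw [if_neg (by rw [h1]; exact hp), h4]
      rw [Finset.sum_congr rfl hVM]
      refine le_trans ?_ (sum_VM_le (K := E) n)
      rw [finsum_mem_eq_finite_toFinset_sum _ (NN_finite n)]
      unfold SP
      exact Finset.sum_le_sum_of_subset_of_nonneg (Finset.filter_subset _ _)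
        fun _ _ _ => Pool.Agent.Y772.DK.VM_nonneg _
  refine (Finset.sum_le_sum h1).trans ?_
  rw [← Finset.mul_sum]
  have h4 : ∑ n ∈ Finset.Icc 1 ⌊x⌋₊, (if n.Prime then 0 else ArithmeticFunction.vonMangoldt n) =
      Chebyshev.psi x - Chebyshev.theta x := by
    rw [Chebyshev.psi_sub_theta_eq_sum_not_prime, Finset.sum_filter]
    have : Finset.Icc 1 ⌊x⌋₊ = Finset.Ioc 0 ⌊x⌋₊ := by
      ext n
      simp only [Finset.mem_Icc, Finset.mem_Ioc]
      omega
    rw [this]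
    refine Finset.sum_congr rfl fun n _ => ?_
    by_cases hp : n.Prime <;> simp [hp]
  rw [h4, mul_assoc]
  exact mul_le_mul_of_nonneg_left (hC x) (Nat.cast_nonneg _)

section

variable {K E : Type} [Field K] [NumberField K] [Field E] [NumberField E] [Algebra K E]

/-- the prime of `K` below -/
noncomputable def below (Q : Pl E) : Pl K where
  asIdeal := Q.asIdeal.comap (algebraMap (𝓞 K) (𝓞 E))
  isPrime := inferInstance
  ne_bot := by
    intro h
    have h1 : ((Ideal.absNorm Q.asIdeal : ℕ) : 𝓞 K) ∈ Q.asIdeal.comap (algebraMap (𝓞 K) (𝓞 E)) := by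
      rw [Ideal.mem_comap, map_natCast]
      exact Ideal.absNorm_mem _
    rw [h, Ideal.mem_bot, Nat.cast_eq_zero, Ideal.absNorm_eq_zero_iff] at h1
    exact Q.ne_bot h1

lemma mem_below (Q : Pl E) (a : 𝓞 K) :
    a ∈ (below (K := K) Q).asIdeal ↔ algebraMap (𝓞 K) (𝓞 E) a ∈ Q.asIdeal := Iff.rfl

/-- a prime of prime norm has the same norm as the prime below -/
lemma norm_below (Q : Pl E) (hp : (Ideal.absNorm Q.asIdeal).Prime) :
    Ideal.absNorm (below (K := K) Q).asIdeal = Ideal.absNorm Q.asIdeal := by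
  have h1 : Ideal.absNorm Q.asIdeal = Nat.card (𝓞 E ⧸ Q.asIdeal) := by
    rw [Ideal.absNorm_apply, Submodule.cardQuot_apply]
  have h2 : Ideal.absNorm (below (K := K) Q).asIdeal = Nat.card (𝓞 K ⧸ (below (K := K) Q).asIdeal) := by
    rw [Ideal.absNorm_apply, Submodule.cardQuot_apply]
  let f : 𝓞 K ⧸ (below (K := K) Q).asIdeal →+* 𝓞 E ⧸ Q.asIdeal :=
    Ideal.quotientMap Q.asIdeal (algebraMap (𝓞 K) (𝓞 E)) le_rfl
  have hf : Function.Injective f := Ideal.quotientMap_injective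
  have h3 : Nat.card (𝓞 K ⧸ (below (K := K) Q).asIdeal) ∣ Nat.card (𝓞 E ⧸ Q.asIdeal) :=
    AddSubgroup.card_dvd_of_injective f.toAddMonoidHom hf
  rw [← h1, ← h2] at h3
  rcases (Nat.dvd_prime hp).1 h3 with h | h
  · exact absurd (Ideal.absNorm_eq_one_iff.1 h) (below (K := K) Q).isPrime.ne_top
  · exact h

/-- a residue class modulo a prime of prime norm contains an integer -/
lemma exists_int (Q : Pl E) (hp : (Ideal.absNorm Q.asIdeal).Prime) (α : 𝓞 E) :
    ∃ n : ℤ, α - (n : 𝓞 E) ∈ Q.asIdeal := by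
  have h1 : Nat.card (𝓞 E ⧸ Q.asIdeal) = Ideal.absNorm Q.asIdeal := by
    rw [Ideal.absNorm_apply, Submodule.cardQuot_apply]
  have hne : (1 : 𝓞 E ⧸ Q.asIdeal) ≠ 0 := by
    haveI := Q.isPrime
    exact one_ne_zero
  haveI : Fact (Ideal.absNorm Q.asIdeal).Prime := ⟨hp⟩
  obtain ⟨n, hn⟩ := mem_zmultiples_of_prime_card (g' := (Ideal.Quotient.mk Q.asIdeal α)) h1 hne
  refine ⟨n, ?_⟩
  rw [← Ideal.Quotient.eq, map_intCast, ← hn]
  simp

/-- the number of primes above `q` -/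
lemma ncard_le [IsGalois K E] {ℓ : ℕ} (hℓ : ℓ ≠ 0) (hd : Module.finrank K E = ℓ) (q : Pl K) :
    (q.asIdeal.primesOver (𝓞 E)).Finite ∧ (q.asIdeal.primesOver (𝓞 E)).ncard ≤ ℓ := by
  haveI : IsGaloisGroup Gal(E/K) K E := inferInstance
  haveI : IsGaloisGroup Gal(E/K) (𝓞 K) (𝓞 E) := inferInstance
  haveI := q.isPrime
  have hcard : Nat.card Gal(E/K) = ℓ := by rw [IsGalois.card_aut_eq_finrank, hd]
  have hfund := Ideal.ncard_primesOver_mul_ramificationIdxIn_mul_inertiaDegIn q.asIdeal (𝓞 E) Gal(E/K)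
  rw [hcard] at hfund
  have h1 : (q.asIdeal.primesOver (𝓞 E)).ncard ∣ ℓ := ⟨_, hfund.symm⟩
  refine ⟨Set.finite_of_ncard_ne_zero ?_, Nat.le_of_dvd (Nat.pos_of_ne_zero hℓ) h1⟩
  intro h
  rw [h, zero_mul] at hfund
  exact hℓ hfund.symm

lemma mem_over (Q : Pl E) : Q.asIdeal ∈ (below (K := K) Q).asIdeal.primesOver (𝓞 E) :=
  ⟨Q.isPrime, ⟨rfl⟩⟩

/-- the count -/
theorem count [IsGalois K E] {ℓ : ℕ} (hℓ : ℓ ≠ 0) (hd : Module.finrank K E = ℓ)
    (B : Finset (Pl E)) (A : Finset (Pl K)) (hB : ∀ Q ∈ B, below Q ∈ A ∧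
      Ideal.absNorm (below (K := K) Q).asIdeal = Ideal.absNorm Q.asIdeal) :
    ∑ Q ∈ B, Real.log (Ideal.absNorm Q.asIdeal) ≤
      ℓ * ∑ q ∈ A, Real.log (Ideal.absNorm q.asIdeal) := by
  classical
  have h1 : ∑ Q ∈ B, Real.log (Ideal.absNorm Q.asIdeal) =
      ∑ q ∈ A, ∑ Q ∈ B.filter (fun Q => below Q = q), Real.log (Ideal.absNorm Q.asIdeal) :=
    (Finset.sum_fiberwise_of_maps_to (fun Q hQ => (hB Q hQ).1) _).symm
  rw [h1, Finset.mul_sum]
  refine Finset.sum_le_sum fun q hq => ?_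
  have h2 : ∑ Q ∈ B.filter (fun Q => below Q = q), Real.log (Ideal.absNorm Q.asIdeal) =
      ((B.filter (fun Q => below Q = q)).card : ℝ) * Real.log (Ideal.absNorm q.asIdeal) := by
    rw [← nsmul_eq_mul, ← Finset.sum_const]
    refine Finset.sum_congr rfl fun Q hQ => ?_
    obtain ⟨h3, h4⟩ := Finset.mem_filter.1 hQ
    rw [← (hB Q h3).2, h4]
  rw [h2]
  refine mul_le_mul_of_nonneg_right ?_ (Real.log_natCast_nonneg _)
  obtain ⟨hfin, hle⟩ := ncard_le (E := E) hℓ hd q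
  have h5 : (B.filter (fun Q => below Q = q)).card ≤ (q.asIdeal.primesOver (𝓞 E)).ncard := by
    rw [Set.ncard_eq_toFinset_card _ hfin]
    refine Finset.card_le_card_of_injOn (fun Q => Q.asIdeal) ?_ ?_
    · intro Q hQ
      rw [Finset.mem_coe, Finset.mem_filter] at hQ
      rw [Set.Finite.coe_toFinset, ← hQ.2]
      exact mem_over Q
    · intro Q _ Q' _ h
      exact HeightOneSpectrum.ext h
  exact_mod_cast h5.trans hle

/-- at a prime of prime norm `w` is an `ℓ`-th power -/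
theorem isP_of {ℓ : ℕ} (hℓ : ℓ.Prime) (Q : Pl E) (hp : (Ideal.absNorm Q.asIdeal).Prime) {w : 𝓞 K}
    {α : 𝓞 E} (hα : α ^ ℓ = algebraMap (𝓞 K) (𝓞 E) w)
    (hw : w ∉ (below (K := K) Q).asIdeal) (hl : (ℓ : 𝓞 K) ∉ (below (K := K) Q).asIdeal)
    (u : Kˣ) (hu : (u : K) = w) : IsP ℓ (loc (below (K := K) Q) u) := by
  set q : Pl K := below Q with hq
  obtain ⟨n, hn⟩ := exists_int Q hp α
  have h1 : ((n : 𝓞 K)) ^ ℓ - w ∈ q.asIdeal := by
    rw [hq, mem_below, map_sub, map_pow, map_intCast, ← hα]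
    have h2 : ((n : 𝓞 E)) ^ ℓ - α ^ ℓ = -(α ^ ℓ - (n : 𝓞 E) ^ ℓ) := by ring
    rw [h2]
    refine neg_mem ?_
    obtain ⟨c, hc⟩ := sub_dvd_pow_sub_pow α (n : 𝓞 E) ℓ
    rw [hc]
    exact Ideal.mul_mem_right _ _ hn
  have hval : ∀ a : 𝓞 K, (Valued.v (algebraMap (𝓞 K) (q.adicCompletion K) a) :
      WithZero (Multiplicative ℤ)) = q.valuation K (a : K) := fun a =>
    HeightOneSpectrum.valuedAdicCompletion_eq_valuation (K := K) q a
  have hone : ∀ a : 𝓞 K, a ∉ q.asIdeal → (Valued.v (algebraMap (𝓞 K) (q.adicCompletion K) a) :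
      WithZero (Multiplicative ℤ)) = 1 := by
    intro a ha
    rw [hval, HeightOneSpectrum.valuation_of_algebraMap]
    refine le_antisymm (q.intValuation_le_one a) ?_
    by_contra h
    push Not at h
    rw [HeightOneSpectrum.intValuation_lt_one_iff_mem] at h
    exact ha h
  have hnq : (n : 𝓞 K) ∉ q.asIdeal := by
    intro h
    apply hw
    have h3 : w = (n : 𝓞 K) ^ ℓ - ((n : 𝓞 K) ^ ℓ - w) := by ring
    rw [h3]
    exact sub_mem (Ideal.pow_mem_of_mem _ h _ hℓ.pos) h1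
  set W : q.adicCompletion K := algebraMap (𝓞 K) (q.adicCompletion K) w with hW
  set N : q.adicCompletion K := algebraMap (𝓞 K) (q.adicCompletion K) (n : 𝓞 K) with hN
  have hW1 : (Valued.v W : WithZero (Multiplicative ℤ)) = 1 := hone w hw
  have hN1 : (Valued.v N : WithZero (Multiplicative ℤ)) = 1 := hone _ hnq
  have hN0 : N ≠ 0 := by
    intro h
    rw [h, map_zero] at hN1
    exact zero_ne_one hN1
  have hlt : (Valued.v (W / N ^ ℓ - 1) : WithZero (Multiplicative ℤ)) < 1 := by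
    have h4 : W / N ^ ℓ - 1 = (W - N ^ ℓ) / N ^ ℓ := by
      field_simp
    rw [h4, map_div₀, map_pow, hN1, one_pow, div_one, Valuation.map_sub_swap, hW, hN, ← map_pow,
      ← map_sub, hval, HeightOneSpectrum.valuation_of_algebraMap,
      HeightOneSpectrum.intValuation_lt_one_iff_mem]
    exact h1
  have hl1 : (Valued.v ((ℓ : ℕ) : q.adicCompletion K) : WithZero (Multiplicative ℤ)) = 1 := by
    have h5 := hone (ℓ : 𝓞 K) hl
    rwa [map_natCast] at h5
  obtain ⟨z, hz⟩ := Pool.Agent.T3h73.SL.Nwt.near_pow q ℓ hℓ.ne_zero (W / N ^ ℓ) (by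
    change (Valued.v (W / N ^ ℓ - 1) : WithZero (Multiplicative ℤ)) <
      (Valued.v ((ℓ : ℕ) : q.adicCompletion K) : WithZero (Multiplicative ℤ)) ^ 2
    rw [hl1, one_pow]
    exact hlt)
  have hW0 : W ≠ 0 := by
    intro h
    rw [h, map_zero] at hW1
    exact zero_ne_one hW1
  have hzN : (z * N) ^ ℓ = W := by
    rw [mul_pow, ← hz]
    field_simp
  have hzN0 : z * N ≠ 0 := by
    intro h
    rw [h, zero_pow hℓ.ne_zero] at hzN
    exact hW0 hzN.symm
  refine ⟨Units.mk0 (z * N) hzN0, ?_⟩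
  apply Units.ext
  rw [Units.val_pow_eq_pow_val, Units.val_mk0, hzN]
  change algebraMap K (q.adicCompletion K) (u : K) = algebraMap (𝓞 K) (q.adicCompletion K) w
  rw [hu]
  exact (IsScalarTower.algebraMap_apply (𝓞 K) K (q.adicCompletion K) w).symm

end

/-- the lower bound -/
theorem lower (h0 : S_DEN0) : ∀ (ℓ : ℕ) (_ : ℓ.Prime) (K : Type) [Field K] [NumberField K] (ζ : K)
    (_ : IsPrimitiveRoot ζ ℓ) (y : Kˣ), ¬ IsP ℓ y → ∀ ε : ℝ, 0 < ε →
    ∀ᶠ x : ℝ in Filter.atTop, (1 / (ℓ : ℝ) - ε) * x ≤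
      (∑ᶠ q ∈ {q : Pl K | (Ideal.absNorm q.asIdeal : ℝ) ≤ x ∧
        IsP ℓ (loc q y)}, Real.log (Ideal.absNorm q.asIdeal)) := by
  classical
  intro ℓ hℓ K _ _ ζ hζ y hy ε hε
  -- replace `y` by an integer
  obtain ⟨a, b, hb0, hab⟩ := IsFractionRing.div_surjective (A := 𝓞 K) (y : K)
  have hb : (b : K) ≠ 0 := by
    have := nonZeroDivisors.ne_zero hb0
    exact RingOfIntegers.coe_ne_zero_iff.2 this
  have ha : (a : K) ≠ 0 := by
    intro h
    apply y.ne_zero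
    rw [← hab]
    show (a : K) / b = 0
    rw [h, zero_div]
  set w : 𝓞 K := a * b ^ (ℓ - 1) with hw
  have hwy : (w : K) = y * (b : K) ^ ℓ := by
    have h1 : (y : K) = (a : K) / b := hab.symm
    have h2 : ((a * b ^ (ℓ - 1) : 𝓞 K) : K) = (a : K) * (b : K) ^ (ℓ - 1) := by
      show algebraMap (𝓞 K) K (a * b ^ (ℓ - 1)) = _
      rw [map_mul, map_pow]
    rw [h1, hw, h2]
    obtain ⟨m, hm⟩ : ∃ m, ℓ = m + 1 := ⟨ℓ - 1, by have := hℓ.pos; omega⟩
    rw [hm, Nat.add_sub_cancel, pow_succ]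
    field_simp
  have hw0 : w ≠ 0 := by
    intro h
    have : (w : K) = 0 := by rw [h]; rfl
    rw [hwy] at this
    exact mul_ne_zero y.ne_zero (pow_ne_zero _ hb) this
  have hyw : Units.mk0 (w : K) (RingOfIntegers.coe_ne_zero_iff.2 hw0) = y * (Units.mk0 (b : K) hb) ^ ℓ := by
    ext
    rw [Units.val_mk0, Units.val_mul, Units.val_pow_eq_pow_val, Units.val_mk0, hwy]
  have hwP : ∀ c : K, c ^ ℓ ≠ w := by
    intro c hc
    apply hy
    rw [← isP_mul_pow y (Units.mk0 (b : K) hb), ← hyw]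
    have hc0 : c ≠ 0 := by
      rintro rfl
      rw [zero_pow hℓ.ne_zero] at hc
      exact RingOfIntegers.coe_ne_zero_iff.2 hw0 hc.symm
    refine ⟨Units.mk0 c hc0, ?_⟩
    ext
    rw [Units.val_mk0, Units.val_pow_eq_pow_val, Units.val_mk0, hc]
  -- the extension
  have hirr : Irreducible (X ^ ℓ - C (w : K) : K[X]) := X_pow_sub_C_irreducible_of_prime hℓ hwP
  haveI := Fact.mk hirr
  have hsplit := isSplittingField_AdjoinRoot_X_pow_sub_C ⟨ζ, (mem_primitiveRoots hℓ.pos).2 hζ⟩ hirr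
  set E := AdjoinRoot (X ^ ℓ - C (w : K) : K[X]) with hE
  haveI : CharZero E := charZero_of_injective_algebraMap (algebraMap K E).injective
  haveI : FiniteDimensional K E := (AdjoinRoot.powerBasis hirr.ne_zero).finite
  haveI : NumberField E := NumberField.of_module_finite K E
  haveI : IsGalois K E := isGalois_of_isSplittingField_X_pow_sub_C
    ⟨ζ, (mem_primitiveRoots hℓ.pos).2 hζ⟩ hirr E
  have hd : Module.finrank K E = ℓ :=
    finrank_of_isSplittingField_X_pow_sub_C ⟨ζ, (mem_primitiveRoots hℓ.pos).2 hζ⟩ hirr E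
  have hrt : (AdjoinRoot.root (X ^ ℓ - C (w : K) : K[X])) ^ ℓ = algebraMap K E (w : K) := by
    have := AdjoinRoot.eval₂_root (X ^ ℓ - C (w : K) : K[X])
    rw [eval₂_sub, eval₂_X_pow, eval₂_C, sub_eq_zero] at this
    exact this
  have hint : IsIntegral ℤ (AdjoinRoot.root (X ^ ℓ - C (w : K) : K[X])) := by
    refine IsIntegral.of_pow hℓ.pos ?_
    rw [hrt]
    exact (RingOfIntegers.isIntegral_coe w).algebraMap
  set α : 𝓞 E := ⟨_, hint⟩ with hα
  have hαw : α ^ ℓ = algebraMap (𝓞 K) (𝓞 E) w := by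
    apply RingOfIntegers.coe_injective
    rw [map_pow]
    exact hrt
  have hwE : algebraMap (𝓞 K) (𝓞 E) w ≠ 0 := by
    rw [Ne, FaithfulSMul.algebraMap_eq_zero_iff]; exact hw0
  have hlE : (ℓ : 𝓞 E) ≠ 0 := Nat.cast_ne_zero.2 hℓ.ne_zero
  have hbad : {Q : Pl E | algebraMap (𝓞 K) (𝓞 E) w ∈ Q.asIdeal ∨ (ℓ : 𝓞 E) ∈ Q.asIdeal}.Finite :=
    (fin_mem hwE).union (fin_mem hlE)
  set C' : ℝ := ∑ Q ∈ hbad.toFinset, Real.log (Ideal.absNorm Q.asIdeal) with hC'
  obtain ⟨C₁, hC₁⟩ := nonprime E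
  have hℓR : (0 : ℝ) < ℓ := Nat.cast_pos.2 hℓ.pos
  have hlog : ∀ q : Pl K, 0 ≤ Real.log (Ideal.absNorm q.asIdeal) := fun q =>
    Real.log_natCast_nonneg _
  have hlogE : ∀ q : Pl E, 0 ≤ Real.log (Ideal.absNorm q.asIdeal) := fun q =>
    Real.log_natCast_nonneg _
  have T0 := h0 E
  have E0 : ∀ᶠ x : ℝ in atTop, 1 - ℓ * (ε / 3) <
      (∑ᶠ Q ∈ {Q : Pl E | (Ideal.absNorm Q.asIdeal : ℝ) ≤ x},
        Real.log (Ideal.absNorm Q.asIdeal)) / x :=
    T0.eventually (lt_mem_nhds (by nlinarith))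
  have E1 : ∀ᶠ x : ℝ in atTop, C' / x < ℓ * (ε / 3) :=
    (tendsto_const_nhds.div_atTop tendsto_id).eventually (gt_mem_nhds (by positivity))
  have E2 : ∀ᶠ x : ℝ in atTop, C₁ * (Real.sqrt x)⁻¹ < ℓ * (ε / 3) := by
    have h1 : Tendsto (fun x : ℝ => C₁ * (Real.sqrt x)⁻¹) atTop (𝓝 0) := by
      simpa using Real.tendsto_sqrt_atTop.inv_tendsto_atTop.const_mul C₁
    exact h1.eventually (gt_mem_nhds (by positivity))
  filter_upwards [E0, E1, E2, eventually_ge_atTop (1 : ℝ)] with x e0 e1 e2 e3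
  have hx0 : (0 : ℝ) < x := by linarith
  rw [lt_div_iff₀ hx0] at e0
  rw [div_lt_iff₀ hx0] at e1
  have e2' : C₁ * Real.sqrt x < ℓ * (ε / 3) * x := by
    have hs : 0 < Real.sqrt x := Real.sqrt_pos.2 hx0
    have h1 : C₁ * Real.sqrt x = C₁ * (Real.sqrt x)⁻¹ * x := by
      rw [mul_assoc]
      congr 1
      rw [inv_mul_eq_div, eq_div_iff hs.ne', Real.mul_self_sqrt hx0.le]
    rw [h1]
    exact mul_lt_mul_of_pos_right e2 hx0
  set A : Finset (Pl K) := (fin_le (K := K) x).toFinset.filter fun q => IsP ℓ (loc q y) with hA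
  set F : Finset (Pl E) := (fin_le (K := E) x).toFinset with hF
  set B : Finset (Pl E) := (F.filter fun Q => (Ideal.absNorm Q.asIdeal).Prime).filter
    fun Q => Q ∉ hbad.toFinset with hB
  have h1 : (∑ᶠ Q ∈ {Q : Pl E | (Ideal.absNorm Q.asIdeal : ℝ) ≤ x},
      Real.log (Ideal.absNorm Q.asIdeal)) ≤ C₁ * Real.sqrt x + C' +
      ∑ Q ∈ B, Real.log (Ideal.absNorm Q.asIdeal) := by
    have h2 := hC₁ x e3
    rw [finsum_mem_eq_finite_toFinset_sum _ (fin_le x)] at h2 ⊢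
    rw [← hF] at h2 ⊢
    have h3 : ∑ Q ∈ F, Real.log (Ideal.absNorm Q.asIdeal) =
        ∑ Q ∈ F, (if (Ideal.absNorm Q.asIdeal).Prime then 0 else
          Real.log (Ideal.absNorm Q.asIdeal)) +
        ∑ Q ∈ F.filter (fun Q => (Ideal.absNorm Q.asIdeal).Prime),
          Real.log (Ideal.absNorm Q.asIdeal) := by
      rw [Finset.sum_filter, ← Finset.sum_add_distrib]
      refine Finset.sum_congr rfl fun Q _ => ?_
      split_ifs <;> simp
    rw [h3, add_assoc]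
    refine add_le_add h2 ?_
    rw [← Finset.sum_filter_add_sum_filter_not _ (fun Q => Q ∉ hbad.toFinset), ← hB, add_comm]
    refine add_le_add (Finset.sum_le_sum_of_subset_of_nonneg ?_ fun q _ _ => hlogE q) le_rfl
    intro q hq
    exact not_not.1 (Finset.mem_filter.1 hq).2
  have h2 : ∑ Q ∈ B, Real.log (Ideal.absNorm Q.asIdeal) ≤
      ℓ * ∑ q ∈ A, Real.log (Ideal.absNorm q.asIdeal) := by
    refine count (K := K) (E := E) hℓ.ne_zero hd B A fun Q hQ => ?_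
    rw [hB, Finset.mem_filter, Finset.mem_filter, hF, Set.Finite.mem_toFinset,
      Set.Finite.mem_toFinset, Set.mem_setOf_eq, Set.mem_setOf_eq] at hQ
    obtain ⟨⟨hQ1, hQ2⟩, hQ3⟩ := hQ
    push Not at hQ3
    refine ⟨?_, norm_below Q hQ2⟩
    rw [hA, Finset.mem_filter, Set.Finite.mem_toFinset, Set.mem_setOf_eq, norm_below Q hQ2]
    refine ⟨hQ1, ?_⟩
    have h3 := isP_of hℓ Q hQ2 hαw (by rw [mem_below]; exact hQ3.1)
      (by rw [mem_below, map_natCast]; exact hQ3.2)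
      (Units.mk0 (w : K) (RingOfIntegers.coe_ne_zero_iff.2 hw0)) rfl
    rw [hyw, map_mul, map_pow] at h3
    exact (isP_mul_pow _ _).1 h3
  have h3 : (∑ᶠ q ∈ {q : Pl K | (Ideal.absNorm q.asIdeal : ℝ) ≤ x ∧
      IsP ℓ (loc q y)}, Real.log (Ideal.absNorm q.asIdeal)) =
      ∑ q ∈ A, Real.log (Ideal.absNorm q.asIdeal) := by
    rw [cond_sum (fun q => IsP ℓ (loc q y)), finsum_mem_eq_finite_toFinset_sum _ (fin_le x),
      ← Finset.sum_filter]
  refine le_trans ?_ (le_of_eq h3.symm)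
  have h4 : (1 / (ℓ : ℝ) - ε) * x = (1 - ℓ * ε) * x / ℓ := by
    field_simp
  rw [h4, div_le_iff₀ hℓR]
  have e0' := le_trans e0.le h1
  nlinarith

end Pool.Agent.T3h73.SD.DK
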