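import Pool.Agent.T3h73.SL.Def

/-!
# Superelliptic curves with two finite branch points: the definitions used in the density statement
-/

set_option autoImplicit false

open NumberField IsDedekindDomain

namespace Pool.Agent.T3h73.SD.Def

section
variable {K : Type} [Field K] [NumberField K]

/-- The order of `δ` at the place `v`, reduced modulo `ℓ` to `{0, ..., ℓ - 1}`. -/
noncomputable def ordm (ℓ : ℕ) (v : HeightOneSpectrum (𝓞 K)) (δ : Kˣ) : ℕ :=
  ((-WithZero.log (v.valuation K (δ : K))) % (ℓ : ℤ)).toNat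

/-- The height `∏ N(v) ^ (ord_v(δ) mod ℓ)` of `δ`, which depends only on the class of `δ` modulo `ℓ`-th
powers. -/
noncomputable def ht (ℓ : ℕ) (δ : Kˣ) : ℝ :=
  ∏ᶠ v : HeightOneSpectrum (𝓞 K), (Ideal.absNorm v.asIdeal : ℝ) ^ ordm ℓ v δ

/-- `δ` and `η` differ by an `ℓ`-th power in the completions at the places of `S`. -/
def Near (ℓ : ℕ) (S : Finset (HeightOneSpectrum (𝓞 K))) (η δ : Kˣ) : Prop :=
  ∀ v ∈ S, ∃ z : v.adicCompletion K,
    algebraMap K (v.adicCompletion K) δ = algebraMap K (v.adicCompletion K) η * z ^ ℓ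

/-- The sum of the terms `ht ^ (-s)` over all the classes of `Kˣ` modulo `ℓ`-th powers which consist of
elements with the property `Q`. -/
noncomputable def csum (ℓ : ℕ) (Q : Kˣ → Prop) (s : ℝ) : ℝ :=
  open Classical in
  ∑' c : Kˣ ⧸ (powMonoidHom ℓ : Kˣ →* Kˣ).range,
    if ∀ δ : Kˣ, (δ : Kˣ ⧸ (powMonoidHom ℓ : Kˣ →* Kˣ).range) = c → Q δ then
      ht ℓ (Quotient.out c) ^ (-s) else 0

end

end Pool.Agent.T3h73.SD.Def
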