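import Pool.Agent.T3h73.SD.T_MASS

/-!
Sums over families of finite sets of places: tools for the tasks AN1 and AN2 of project SD.
-/

set_option autoImplicit false

open NumberField IsDedekindDomain Filter Topology

namespace Pool.Agent.T3h73.SD.Fam

open Pool.Agent.T3h73.SL (Pl)
open Pool.Agent.H921R2.TatePole
open Pool.Agent.T3h73.SD.MASS (NA_rpow one_le_nm one_le_NA)

/-- sums over families of products -/
theorem pi_sum {C α : Type} [Fintype C] (f : C → α → ℝ) (hf : ∀ c a, 0 ≤ f c a)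
    (hs : ∀ c, Summable (f c)) :
    Summable (fun A : C → α => ∏ c, f c (A c)) ∧
      ∑' A : C → α, ∏ c, f c (A c) ≤ ∏ c, ∑' a, f c a := by
  classical
  have key : ∀ T : Finset (C → α), ∑ A ∈ T, ∏ c, f c (A c) ≤ ∏ c, ∑' a, f c a := by
    intro T
    have h1 : ∑ A ∈ T, ∏ c, f c (A c) ≤
        ∑ A ∈ Fintype.piFinset (fun c => T.image (fun A => A c)), ∏ c, f c (A c) := by
      refine Finset.sum_le_sum_of_subset_of_nonneg ?_ fun A _ _ => Finset.prod_nonneg fun c _ => hf c _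
      intro A hA
      rw [Fintype.mem_piFinset]
      intro c
      exact Finset.mem_image_of_mem _ hA
    refine h1.trans ?_
    rw [← Finset.prod_univ_sum]
    refine Finset.prod_le_prod (fun c _ => Finset.sum_nonneg fun a _ => hf c a) fun c _ => ?_
    exact (hs c).sum_le_tsum _ fun a _ => hf c a
  have hs' : Summable (fun A : C → α => ∏ c, f c (A c)) :=
    summable_of_sum_le (fun A => Finset.prod_nonneg fun c _ => hf c _) key
  exact ⟨hs', hs'.tsum_le_of_sum_le key⟩

theorem norm_ee (ℓ : ℕ) (a : ZMod ℓ) : ‖ee ℓ a‖ = 1 := by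
  unfold ee
  rw [Complex.norm_exp]
  have : (2 * (Real.pi : ℂ) * Complex.I * (a.val : ℂ) / ℓ).re = 0 := by
    have h : (2 * (Real.pi : ℂ) * Complex.I * (a.val : ℂ) / ℓ) =
        ((2 * Real.pi * a.val / ℓ : ℝ) : ℂ) * Complex.I := by push_cast; ring
    rw [h, Complex.re_ofReal_mul, Complex.I_re, mul_zero]
  rw [this, Real.exp_zero]

section
variable {K : Type} [Field K] [NumberField K]

/-- the weight of a finite set -/
noncomputable def wt (m : ℕ) (s : ℝ) (A : Finset (Pl K)) : ℝ :=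
  ((m : ℝ) ^ A.card)⁻¹ * (NA A : ℝ) ^ (-s)

theorem wt_nonneg (m : ℕ) (s : ℝ) (A : Finset (Pl K)) : 0 ≤ wt m s A := by
  unfold wt; positivity

theorem norm_trm {ℓ : ℕ} {Λ : Type} (χ : Λ → Pl K → ZMod ℓ) (sy : Pl K → Pl K → ZMod ℓ)
    {C : Type} [Fintype C] (R : C → C → ZMod ℓ) (m : ℕ) (h : C → Λ) (s : ℝ)
    (A : C → Finset (Pl K)) : ‖trm χ sy R m h s A‖ = ∏ c, wt m s (A c) := by
  unfold trm
  rw [norm_mul, norm_ee, mul_one, Complex.norm_real, Real.norm_eq_abs,
    abs_of_nonneg (Finset.prod_nonneg fun c _ => by positivity)]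
  rfl

variable (K) in
/-- the two bounds for sums over one finite set -/
theorem one_var (m : ℕ) (hm : 1 ≤ m) : ∃ C : ℝ, 1 ≤ C ∧
    (∀ s : ℝ, 1 < s → s ≤ 2 → Summable (fun A : Finset (Pl K) => wt m s A) ∧
      ∑' A : Finset (Pl K), wt m s A ≤ C * (1 / (s - 1)) ^ (1 / (m : ℝ))) ∧
    ∀ (Z : ℝ), 1 ≤ Z → ∀ s : ℝ, 1 < s →
      Summable (fun A : Finset (Pl K) => if (NA A : ℝ) ≤ Z then wt m s A else 0) ∧
      ∑' A : Finset (Pl K), (if (NA A : ℝ) ≤ Z then wt m s A else 0) ≤ C * (1 + Real.log Z) := by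
  obtain ⟨C₁, hC₁, h1, -⟩ := MASS.t_MASS K m 0 hm le_rfl
  obtain ⟨C₂, hC₂, h2, -⟩ := MASS.t_MASS K 1 0 le_rfl le_rfl
  have hm0 : (0 : ℝ) < m := by exact_mod_cast hm
  have hm1 : (1 : ℝ) ≤ m := by exact_mod_cast hm
  have hwt1 : ∀ (m : ℕ) (s : ℝ) (A : Finset (Pl K)),
      ((m : ℝ) ^ A.card)⁻¹ * (NA A : ℝ) ^ (-s) * gA A ^ (0 : ℝ) = wt m s A := by
    intro m s A
    rw [Real.rpow_zero, mul_one]; rfl
  have hcard : ∀ A : Finset (Pl K), ((m : ℝ) ^ A.card)⁻¹ ≤ 1 := fun A =>
    inv_le_one_of_one_le₀ (one_le_pow₀ hm1)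
  -- summability for `m = 1`
  have hs1 : ∀ s : ℝ, 1 < s → s ≤ 2 → Summable (fun A : Finset (Pl K) => (NA A : ℝ) ^ (-s)) := by
    intro s hs hs2
    refine (h2 s hs hs2).1.congr fun A => ?_
    rw [Real.rpow_zero, mul_one, Nat.cast_one, one_pow, one_mul]
  have ht1 : ∀ s : ℝ, 1 < s → s ≤ 2 →
      ∑' A : Finset (Pl K), (NA A : ℝ) ^ (-s) ≤ C₂ * (1 / (s - 1)) := by
    intro s hs hs2
    have h3 := (h2 s hs hs2).2
    have e : ∀ A : Finset (Pl K), (((1 : ℕ) : ℝ) ^ A.card)⁻¹ * (NA A : ℝ) ^ (-s) *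
        gA A ^ (0 : ℝ) = (NA A : ℝ) ^ (-s) := by
      intro A
      rw [Real.rpow_zero, mul_one, Nat.cast_one, one_pow, inv_one, one_mul]
    rw [tsum_congr e] at h3
    simpa using h3
  refine ⟨C₁ + Real.exp 1 * C₂ + 1, by positivity |> fun (h : 0 ≤ C₁ + Real.exp 1 * C₂) =>
    by linarith, ?_, ?_⟩
  · intro s hs hs2
    have hs0 : 0 < s - 1 := by linarith
    constructor
    · refine Summable.of_nonneg_of_le (fun A => wt_nonneg m s A) (fun A => ?_) (hs1 s hs hs2)
      unfold wt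
      exact mul_le_of_le_one_left (by positivity) (hcard A)
    · have h3 := (h1 s hs hs2).2
      rw [tsum_congr (hwt1 m s)] at h3
      refine h3.trans (mul_le_mul_of_nonneg_right ?_ (by positivity))
      have : 0 ≤ Real.exp 1 * C₂ := by positivity
      linarith
  · intro Z hZ s hs
    have hlZ : 0 ≤ Real.log Z := Real.log_nonneg hZ
    have h1Z : 0 < 1 + Real.log Z := by linarith
    set s' : ℝ := 1 + 1 / (1 + Real.log Z) with hs'
    have hs1' : 1 < s' := by
      rw [hs']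
      have : 0 < 1 / (1 + Real.log Z) := by positivity
      linarith
    have hs2' : s' ≤ 2 := by
      rw [hs']
      have : 1 / (1 + Real.log Z) ≤ 1 := by rw [div_le_one h1Z]; linarith
      linarith
    have hterm : ∀ A : Finset (Pl K), (if (NA A : ℝ) ≤ Z then wt m s A else 0) ≤
        Real.exp 1 * (NA A : ℝ) ^ (-s') := by
      intro A
      have hN1 : (1 : ℝ) ≤ (NA A : ℝ) := one_le_NA A
      have hN0 : (0 : ℝ) < (NA A : ℝ) := by linarith
      split_ifs with h
      · have h3 : wt m s A ≤ (NA A : ℝ) ^ (-s) := by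
          unfold wt
          exact mul_le_of_le_one_left (by positivity) (hcard A)
        refine h3.trans ?_
        have h4 : (NA A : ℝ) ^ (-s) ≤ (NA A : ℝ) ^ (s' - 1) * (NA A : ℝ) ^ (-s') := by
          rw [← Real.rpow_add hN0]
          exact Real.rpow_le_rpow_of_exponent_le hN1 (by linarith)
        refine h4.trans (mul_le_mul_of_nonneg_right ?_ (by positivity))
        rw [Real.rpow_def_of_pos hN0]
        apply Real.exp_le_exp.mpr
        have h5 : Real.log (NA A : ℝ) ≤ Real.log Z := Real.log_le_log hN0 h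
        have h6 : s' - 1 = 1 / (1 + Real.log Z) := by rw [hs']; ring
        rw [h6, mul_one_div, div_le_one h1Z]
        linarith
      · positivity
    have hnn : ∀ A : Finset (Pl K), 0 ≤ (if (NA A : ℝ) ≤ Z then wt m s A else 0) := by
      intro A; split_ifs
      · exact wt_nonneg m s A
      · exact le_rfl
    have hsum := Summable.of_nonneg_of_le hnn hterm ((hs1 s' hs1' hs2').mul_left (Real.exp 1))
    refine ⟨hsum, ?_⟩
    refine (Summable.tsum_le_tsum hterm hsum ((hs1 s' hs1' hs2').mul_left (Real.exp 1))).trans ?_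
    rw [tsum_mul_left]
    have h7 := ht1 s' hs1' hs2'
    have h8 : 1 / (s' - 1) = 1 + Real.log Z := by rw [hs']; simp
    rw [h8] at h7
    calc Real.exp 1 * ∑' A : Finset (Pl K), (NA A : ℝ) ^ (-s')
        ≤ Real.exp 1 * (C₂ * (1 + Real.log Z)) := mul_le_mul_of_nonneg_left h7 (by positivity)
      _ = (Real.exp 1 * C₂) * (1 + Real.log Z) := by ring
      _ ≤ _ := mul_le_mul_of_nonneg_right (by linarith) h1Z.le

end

/-- powers beat logarithms at `s → 1` -/
theorem lim_log (κ ε : ℝ) (hκ : 0 < κ) (hε : 0 < ε) (N : ℕ) :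
    Tendsto (fun s : ℝ => (s - 1) ^ ε * (1 + κ * Real.log (1 / (s - 1))) ^ N) (𝓝[>] 1) (𝓝 0) := by
  -- with `u = log (1/(s-1)) → ∞`: `exp (- ε u) (1 + κ u)^N → 0`
  have hu : Tendsto (fun s : ℝ => Real.log (1 / (s - 1))) (𝓝[>] 1) atTop := by
    refine Real.tendsto_log_atTop.comp ?_
    have h1 : Tendsto (fun s : ℝ => s - 1) (𝓝[>] 1) (𝓝[>] 0) := by
      rw [tendsto_nhdsWithin_iff]
      constructor
      · have : Tendsto (fun s : ℝ => s - 1) (𝓝 1) (𝓝 (1 - 1)) :=
          (continuous_id.sub continuous_const).tendsto 1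
        rw [sub_self] at this
        exact this.mono_left nhdsWithin_le_nhds
      · filter_upwards [self_mem_nhdsWithin] with s hs
        have hs' : (1 : ℝ) < s := hs
        change (0 : ℝ) < s - 1
        linarith
    simpa using! tendsto_inv_nhdsGT_zero.comp h1
  have h2 : Tendsto (fun u : ℝ => Real.exp (-ε * u) * (1 + κ * u) ^ N) atTop (𝓝 0) := by
    have h3 : Tendsto (fun w : ℝ => w ^ N * Real.exp (-w)) atTop (𝓝 0) :=
      Real.tendsto_pow_mul_exp_neg_atTop_nhds_zero N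
    have h4 : Tendsto (fun u : ℝ => (ε / κ) * (1 + κ * u)) atTop atTop := by
      refine Tendsto.const_mul_atTop (by positivity) ?_
      exact tendsto_atTop_add_const_left _ _ (tendsto_id.const_mul_atTop hκ)
    have h5 := (h3.comp h4).const_mul ((κ / ε) ^ N * Real.exp (ε / κ))
    rw [mul_zero] at h5
    refine h5.congr fun u => ?_
    simp only [Function.comp_apply]
    have e1 : Real.exp (-(ε / κ * (1 + κ * u))) = Real.exp (-(ε / κ)) * Real.exp (-ε * u) := by
      rw [← Real.exp_add]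
      congr 1
      field_simp
      ring
    rw [e1, mul_pow, Real.exp_neg]
    have e2 : (κ / ε) ^ N * (ε / κ) ^ N = 1 := by
      rw [← mul_pow]
      have : κ / ε * (ε / κ) = 1 := by field_simp
      rw [this, one_pow]
    calc (κ / ε) ^ N * Real.exp (ε / κ) * ((ε / κ) ^ N * (1 + κ * u) ^ N *
          ((Real.exp (ε / κ))⁻¹ * Real.exp (-ε * u)))
        = ((κ / ε) ^ N * (ε / κ) ^ N) * (Real.exp (ε / κ) * (Real.exp (ε / κ))⁻¹) *
          (Real.exp (-ε * u) * (1 + κ * u) ^ N) := by ring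
      _ = _ := by rw [e2, mul_inv_cancel₀ (Real.exp_ne_zero _)]; ring
  refine (h2.comp hu).congr' ?_
  filter_upwards [self_mem_nhdsWithin] with s hs
  have hs0 : 0 < s - 1 := sub_pos.mpr hs
  simp only [Function.comp_apply]
  congr 1
  rw [Real.rpow_def_of_pos hs0, one_div, Real.log_inv]
  congr 1
  ring

end Pool.Agent.T3h73.SD.Fam
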