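import Mathlib

set_option autoImplicit false
set_option linter.all false

open Polynomial

namespace Pool.Agent.T3h73.SD.FI

theorem gen_hom (k V : Type) [Field k] [AddCommGroup V] [Module k V] (a : V) (ha : a ≠ 0) :
    ∃ φ : V →+ k, φ a ≠ 0 := by
  by_contra hc
  push Not at hc
  have h2 : ∀ φ : Module.Dual k V, φ a = 0 := fun φ => hc φ.toAddMonoidHom
  exact ha ((Module.forall_dual_apply_eq_zero_iff k a).1 h2)

theorem exists_hom {ℓ : ℕ} (hℓ : ℓ.Prime) (V : Type) [AddCommGroup V] (h : ∀ x : V, ℓ • x = 0)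
    (a : V) (ha : a ≠ 0) : ∃ φ : V →+ ZMod ℓ, φ a ≠ 0 := by
  haveI := Fact.mk hℓ
  letI := AddCommGroup.zmodModule h
  exact gen_hom (ZMod ℓ) V a ha

/-- a proper subgroup containing the `ℓ`-th powers is in the kernel of a non-trivial character -/
theorem elem_char {ℓ : ℕ} (hℓ : ℓ.Prime) {A : Type} [CommGroup A] (H : Subgroup A) (hH : H ≠ ⊤)
    (hp : ∀ a : A, a ^ ℓ ∈ H) :
    ∃ χ : A →* Multiplicative (ZMod ℓ), (∀ a ∈ H, χ a = 1) ∧ ∃ a, χ a ≠ 1 := by
  haveI := Fact.mk hℓ
  obtain ⟨a, ha⟩ : ∃ a, a ∉ H := by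
    by_contra h
    push Not at h
    exact hH (eq_top_iff.2 fun x _ => h x)
  have hz : ∀ x : Additive (A ⧸ H), ℓ • x = 0 := by
    intro x
    obtain ⟨y, hy⟩ := QuotientGroup.mk_surjective (Additive.toMul x)
    apply Additive.toMul.injective
    rw [toMul_nsmul, ← hy, toMul_zero, ← QuotientGroup.mk_pow]
    exact (QuotientGroup.eq_one_iff _).2 (hp y)
  have h0 : Additive.ofMul (QuotientGroup.mk a : A ⧸ H) ≠ 0 := by
    intro h
    apply ha
    rw [← QuotientGroup.eq_one_iff]
    exact h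
  obtain ⟨φ, hφ⟩ := exists_hom hℓ _ hz _ h0
  refine ⟨{ toFun := fun x => Multiplicative.ofAdd (φ (Additive.ofMul (QuotientGroup.mk x : A ⧸ H)))
            map_one' := ?_
            map_mul' := ?_ }, ?_, a, ?_⟩
  · rw [QuotientGroup.mk_one, ofMul_one, map_zero, ofAdd_zero]
  · intro x y
    rw [QuotientGroup.mk_mul, ofMul_mul, map_add, ofAdd_add]
  · intro x hx
    show Multiplicative.ofAdd (φ (Additive.ofMul (QuotientGroup.mk x : A ⧸ H))) = 1
    rw [(QuotientGroup.eq_one_iff x).2 hx, ofMul_one, map_zero, ofAdd_zero]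
  · intro h
    apply hφ
    exact Multiplicative.ofAdd.injective h

/-- the abstract form of the first inequality: characters of the factors `U ⧸ N i` whose product is
trivial on `E` -/
theorem exists_chars {ℓ : ℕ} (hℓ : ℓ.Prime) {ι : Type} [Fintype ι] [DecidableEq ι] {U : Type}
    [CommGroup U] (N : ι → Subgroup U) (hN0 : ∀ i, (N i).index ≠ 0) (hp : ∀ i, ∀ x : U, x ^ ℓ ∈ N i)
    (E : Subgroup U) (hE : ∀ F : Set U, F.Finite → F ⊆ E → ∃ E' NE : Subgroup U, F ⊆ E' ∧
      (∀ i, NE ≤ N i) ∧ ℓ * NE.relIndex E' ≤ ℓ ^ Nat.card {i // N i ≠ ⊤} ∧ NE.relIndex E' ≠ 0) :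
    ∃ χ : ι → (U →* Multiplicative (ZMod ℓ)), (∀ i, ∀ x ∈ N i, χ i x = 1) ∧ (∀ x ∈ E, ∏ i, χ i x = 1) ∧
      ∃ i x, χ i x ≠ 1 := by
  classical
  -- the quotient
  let q : ∀ i, U →* U ⧸ N i := fun i => QuotientGroup.mk' (N i)
  have hqs : ∀ i, Function.Surjective (q i) := fun i => QuotientGroup.mk'_surjective _
  let dg : U →* (∀ i, U ⧸ N i) := Pi.monoidHom q
  have hdg : ∀ x i, dg x i = q i x := fun x i => rfl
  have hfi : ∀ i, Finite (U ⧸ N i) := fun i => Nat.finite_of_card_ne_zero (hN0 i)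
  haveI : Finite (∀ i, U ⧸ N i) := Pi.finite
  have hpow : ∀ a : ∀ i, U ⧸ N i, a ^ ℓ = 1 := by
    intro a
    funext i
    obtain ⟨x, hx⟩ := hqs i (a i)
    rw [Pi.pow_apply, ← hx, ← map_pow, Pi.one_apply]
    exact (QuotientGroup.eq_one_iff _).2 (hp i x)
  -- the order
  have hcard : ℓ ^ Nat.card {i // N i ≠ ⊤} ≤ Nat.card (∀ i, U ⧸ N i) := by
    rw [Nat.card_pi]
    have h1 : ∀ i, (if N i ≠ ⊤ then ℓ else 1) ≤ Nat.card (U ⧸ N i) := by
      intro i
      split_ifs with h
      · obtain ⟨x, hx⟩ : ∃ x, x ∉ N i := by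
          by_contra hc
          push Not at hc
          exact h (eq_top_iff.2 fun y _ => hc y)
        haveI := Fact.mk hℓ
        have h2 : orderOf (q i x) = ℓ := by
          refine orderOf_eq_prime ?_ ?_
          · rw [← map_pow]
            exact (QuotientGroup.eq_one_iff _).2 (hp i x)
          · intro h3
            exact hx ((QuotientGroup.eq_one_iff x).1 h3)
        rw [← h2]
        exact Nat.le_of_dvd Nat.card_pos (orderOf_dvd_natCard _)
      · exact Nat.card_pos
    refine le_trans (le_of_eq ?_) (Finset.prod_le_prod' fun i _ => h1 i)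
    rw [Finset.prod_ite, Finset.prod_const, Finset.prod_const_one, mul_one]
    congr 1
    rw [Nat.card_eq_fintype_card, Fintype.card_subtype]
  -- the image of `E` is not everything
  have hne : E.map dg ≠ ⊤ := by
    intro htop
    have h1 : ∀ a : ∀ i, U ⧸ N i, ∃ x ∈ E, dg x = a := by
      intro a
      have : a ∈ E.map dg := by rw [htop]; trivial
      exact this
    choose g hgE hg using h1
    obtain ⟨E', NE, hF, hNE, hle, h0⟩ := hE (Set.range g) (Set.finite_range g) (by
      rintro _ ⟨a, rfl⟩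
      exact hgE a)
    have h2 : NE ≤ dg.ker := by
      intro x hx
      rw [MonoidHom.mem_ker]
      funext i
      exact (QuotientGroup.eq_one_iff x).2 (hNE i hx)
    have h3 : dg.ker.relIndex E' ≤ NE.relIndex E' := Subgroup.relIndex_le_of_le_left h2 h0
    have h4 : dg.ker.relIndex E' = Nat.card (∀ i, U ⧸ N i) := by
      have h5 : E'.map dg = ⊤ := by
        rw [eq_top_iff]
        intro a _
        exact ⟨g a, hF ⟨a, rfl⟩, hg a⟩
      rw [Subgroup.relIndex_ker, h5]
      exact Subgroup.card_top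
    rw [h4] at h3
    have h6 : ℓ * Nat.card (∀ i, U ⧸ N i) ≤ Nat.card (∀ i, U ⧸ N i) :=
      (Nat.mul_le_mul_left ℓ h3).trans (hle.trans hcard)
    have h7 : 0 < Nat.card (∀ i, U ⧸ N i) := Nat.card_pos
    nlinarith [hℓ.two_le]
  obtain ⟨χ, hχE, a, ha⟩ := elem_char hℓ (E.map dg) hne (fun a => by rw [hpow]; exact one_mem _)
  refine ⟨fun i => (χ.comp (MonoidHom.mulSingle (fun i => U ⧸ N i) i)).comp (q i), ?_, ?_, ?_⟩
  · intro i x hx
    have h1 : q i x = 1 := (QuotientGroup.eq_one_iff x).2 hx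
    rw [MonoidHom.comp_apply, h1, map_one]
  · intro x hx
    have h1 : ∏ i, Pi.mulSingle i (q i x) = dg x := Finset.univ_prod_mulSingle (dg x)
    have h2 : χ (dg x) = 1 := hχE _ ⟨x, hx, rfl⟩
    rw [← h1, map_prod] at h2
    exact h2
  · by_contra hc
    push Not at hc
    apply ha
    rw [← Finset.univ_prod_mulSingle a, map_prod]
    refine Finset.prod_eq_one fun i _ => ?_
    obtain ⟨x, hx⟩ := hqs i (a i)
    rw [← hx]
    exact hc i x

/-- the norm and extension of scalars -/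
theorem norm_map {K L : Type} [Field K] [Field L] [Algebra K L] (f : K[X]) (hf : f.Monic) (g : L[X])
    (hg : g = f.map (algebraMap K L)) (z : AdjoinRoot f) :
    ∃ c : AdjoinRoot g, Algebra.norm L c = algebraMap K L (Algebra.norm K z) := by
  classical
  subst hg
  have hf' : (f.map (algebraMap K L)).Monic := hf.map _
  let Φ : AdjoinRoot f →+* AdjoinRoot (f.map (algebraMap K L)) :=
    AdjoinRoot.map (algebraMap K L) f _ dvd_rfl
  have hΦ : ∀ x : K, Φ (algebraMap K _ x) = algebraMap L _ (algebraMap K L x) := by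
    intro x
    exact AdjoinRoot.map_of _ _ _ _ _
  have hr : Φ (AdjoinRoot.root f) = AdjoinRoot.root _ := AdjoinRoot.map_root _ _ _ _
  let b := AdjoinRoot.powerBasis' hf
  let b' := AdjoinRoot.powerBasis' hf'
  have hdim : b'.dim = b.dim := by
    show (f.map (algebraMap K L)).natDegree = f.natDegree
    exact hf.natDegree_map _
  let B : Module.Basis (Fin b.dim) K (AdjoinRoot f) := b.basis
  let B' : Module.Basis (Fin b.dim) L (AdjoinRoot (f.map (algebraMap K L))) :=
    b'.basis.reindex (finCongr hdim)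
  have hB : ∀ i, Φ (B i) = B' i := by
    intro i
    show Φ (b.basis i) = (b'.basis.reindex (finCongr hdim)) i
    rw [Module.Basis.reindex_apply, PowerBasis.basis_eq_pow, PowerBasis.basis_eq_pow, map_pow]
    have h1 : b.gen = AdjoinRoot.root f := AdjoinRoot.powerBasis'_gen hf
    have h2 : b'.gen = AdjoinRoot.root _ := AdjoinRoot.powerBasis'_gen hf'
    rw [h1, h2, hr]
    rfl
  refine ⟨Φ z, ?_⟩
  rw [Algebra.norm_eq_matrix_det B' (Φ z), Algebra.norm_eq_matrix_det B z, RingHom.map_det]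
  congr 1
  ext i j
  rw [Algebra.leftMulMatrix_eq_repr_mul, RingHom.mapMatrix_apply, Matrix.map_apply,
    Algebra.leftMulMatrix_eq_repr_mul]
  have h3 : Φ z * B' j = ∑ k, (algebraMap K L (B.repr (z * B j) k)) • B' k := by
    rw [← hB j, ← map_mul]
    conv_lhs => rw [← B.sum_repr (z * B j)]
    rw [map_sum]
    refine Finset.sum_congr rfl fun k _ => ?_
    rw [Algebra.smul_def, map_mul, hΦ, hB, Algebra.smul_def]
  rw [h3, B'.repr_sum_self]

end Pool.Agent.T3h73.SD.FI
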