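import Pool.Agent.T3h73.SD.Stm4
import Pool.Agent.T3h73.SD.Def
import Pool.Agent.T3h73.SL.T_FIN
import Pool.Agent.T3h73.SL.Asm

/-! Project SD: the final assembly, basic facts -/

set_option autoImplicit false
set_option linter.all false

open NumberField IsDedekindDomain Filter Topology

namespace Pool.Agent.T3h73.SD.Full

open Pool.Agent.T3h73.SL (Pl IsP Pk loc Good2 val_loc)
open Pool.Agent.Y713.SE (Pw)
open Pool.Agent.T3h73.SD.Def

variable {ℓ : ℕ} {K : Type} [Field K] [NumberField K]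

/-- the order -/
noncomputable def od (v : Pl K) (δ : Kˣ) : ℤ := -WithZero.log (v.valuation K (δ : K))

lemma val_eq (v : Pl K) (δ : Kˣ) : v.valuation K (δ : K) = WithZero.exp (-(od v δ)) := by
  unfold od
  rw [neg_neg, WithZero.exp_log]
  exact (Valuation.ne_zero_iff _).2 δ.ne_zero

lemma pw_exp_iff (n : ℤ) : Pw ℓ (WithZero.exp n) ↔ (ℓ : ℤ) ∣ n := by
  constructor
  · rintro ⟨β, hβ⟩
    by_cases hβ0 : β = 0
    · subst hβ0
      by_cases hℓ : ℓ = 0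
      · subst hℓ
        rw [pow_zero, ← WithZero.exp_zero] at hβ
        rw [WithZero.exp_injective hβ]
        exact dvd_zero _
      · rw [zero_pow hℓ] at hβ
        exact absurd hβ WithZero.exp_ne_zero
    · obtain ⟨m, rfl⟩ : ∃ m : ℤ, β = WithZero.exp m := ⟨_, (WithZero.exp_log hβ0).symm⟩
      rw [← WithZero.exp_nsmul] at hβ
      have h1 := WithZero.exp_injective hβ
      rw [nsmul_eq_mul] at h1
      exact ⟨m, h1⟩
  · rintro ⟨m, rfl⟩
    exact ⟨WithZero.exp m, by rw [← WithZero.exp_nsmul, nsmul_eq_mul]⟩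

lemma ordm_def (v : Pl K) (δ : Kˣ) : ordm ℓ v δ = (od v δ % (ℓ : ℤ)).toNat := rfl

lemma ordm_cast (hℓ : 0 < ℓ) (v : Pl K) (δ : Kˣ) : (ordm ℓ v δ : ℤ) = od v δ % (ℓ : ℤ) := by
  rw [ordm_def, Int.toNat_of_nonneg (Int.emod_nonneg _ (by exact_mod_cast hℓ.ne'))]

lemma ordm_lt (hℓ : 0 < ℓ) (v : Pl K) (δ : Kˣ) : ordm ℓ v δ < ℓ := by
  have h := Int.emod_lt_of_pos (od v δ) (show (0 : ℤ) < (ℓ : ℤ) by exact_mod_cast hℓ)
  rw [← ordm_cast hℓ] at h
  exact_mod_cast h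

lemma pw_iff (hℓ : 0 < ℓ) (v : Pl K) (δ : Kˣ) :
    Pw ℓ (v.valuation K (δ : K)) ↔ ordm ℓ v δ = 0 := by
  rw [val_eq, pw_exp_iff, dvd_neg]
  have h := ordm_cast hℓ v δ
  constructor
  · intro h1
    rw [Int.emod_eq_zero_of_dvd h1] at h
    exact_mod_cast h
  · intro h1
    rw [h1] at h
    exact Int.dvd_of_emod_eq_zero h.symm

lemma pw_one_iff (hℓ : 1 < ℓ) (v : Pl K) (δ : Kˣ) :
    Pw ℓ (v.valuation K (δ : K) * WithZero.exp (1 : ℤ)) ↔ ordm ℓ v δ = 1 := by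
  rw [val_eq, ← WithZero.exp_add, pw_exp_iff]
  have h := ordm_cast (show 0 < ℓ by omega) v δ
  have h1 : (1 : ℤ) % (ℓ : ℤ) = 1 := Int.emod_eq_of_lt (by norm_num) (by exact_mod_cast hℓ)
  have h2 : (ℓ : ℤ) ∣ -od v δ + 1 ↔ od v δ % (ℓ : ℤ) = 1 := by
    rw [show -od v δ + 1 = -(od v δ - 1) by ring, dvd_neg]
    constructor
    · intro h3
      have h4 : (1 : ℤ) ≡ od v δ [ZMOD ℓ] := (Int.modEq_iff_dvd).2 h3
      rw [← h4, h1]
    · intro h3
      have h4 : (1 : ℤ) ≡ od v δ [ZMOD ℓ] := by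
        show (1 : ℤ) % ℓ = od v δ % ℓ
        rw [h1, h3]
      exact (Int.modEq_iff_dvd).1 h4
  rw [h2, ← h]
  norm_cast

lemma near_iff (S : Finset (Pl K)) (η δ : Kˣ) (hℓ : ℓ ≠ 0) :
    Near ℓ S η δ ↔ ∀ v ∈ S, ∃ z, loc v δ = loc v η * z ^ ℓ := by
  unfold Near
  refine forall₂_congr fun v hv => ?_
  constructor
  · rintro ⟨z, hz⟩
    have hz0 : z ≠ 0 := by
      rintro rfl
      rw [zero_pow hℓ, mul_zero] at hz
      exact δ.ne_zero ((algebraMap K (v.adicCompletion K)).injective (by rw [hz, map_zero]))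
    refine ⟨Units.mk0 z hz0, Units.ext ?_⟩
    rw [Units.val_mul, Units.val_pow_eq_pow_val, Units.val_mk0]
    exact hz
  · rintro ⟨z, hz⟩
    refine ⟨z, ?_⟩
    have := congrArg (Units.val) hz
    rw [Units.val_mul, Units.val_pow_eq_pow_val] at this
    exact this

lemma od_mul (v : Pl K) (x y : Kˣ) : od v (x * y) = od v x + od v y := by
  have h := val_eq v (x * y)
  rw [Units.val_mul, map_mul, val_eq, val_eq, ← WithZero.exp_add] at h
  have := WithZero.exp_injective h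
  omega

lemma od_pow (v : Pl K) (x : Kˣ) (n : ℕ) : od v (x ^ n) = n * od v x := by
  have h := val_eq v (x ^ n)
  rw [Units.val_pow_eq_pow_val, map_pow, val_eq, ← WithZero.exp_nsmul] at h
  have := WithZero.exp_injective h
  rw [nsmul_eq_mul] at this
  linarith

lemma od_inv (v : Pl K) (x : Kˣ) : od v x⁻¹ = - od v x := by
  have h := od_mul v x x⁻¹
  rw [mul_inv_cancel] at h
  have h1 : od v (1 : Kˣ) = 0 := by
    unfold od
    rw [Units.val_one, map_one, WithZero.log_one, neg_zero]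
  omega

lemma ordm_eq (hℓ : 0 < ℓ) (v : Pl K) {x y : Kˣ} (h : (ℓ : ℤ) ∣ od v y - od v x) :
    ordm ℓ v x = ordm ℓ v y := by
  have h1 : od v x % (ℓ : ℤ) = od v y % (ℓ : ℤ) := (Int.modEq_iff_dvd).2 h
  rw [ordm_def, ordm_def, h1]

lemma dvd_of_ordm (hℓ : 0 < ℓ) (v : Pl K) {x y : Kˣ} (h : ordm ℓ v x = ordm ℓ v y) :
    (ℓ : ℤ) ∣ od v y - od v x := by
  have h1 : od v x % (ℓ : ℤ) = od v y % (ℓ : ℤ) := by
    rw [← ordm_cast hℓ, ← ordm_cast hℓ, h]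
  exact (Int.modEq_iff_dvd).1 h1

lemma ordm_of_loc (hℓ : 0 < ℓ) (v : Pl K) {x y : Kˣ} {z : (v.adicCompletion K)ˣ}
    (h : loc v x = loc v y * z ^ ℓ) : ordm ℓ v x = ordm ℓ v y := by
  have h1 := congrArg (fun u : (v.adicCompletion K)ˣ =>
    (Valued.v (u : v.adicCompletion K) : WithZero (Multiplicative ℤ))) h
  simp only [Units.val_mul, Units.val_pow_eq_pow_val, map_mul, map_pow, val_loc] at h1
  obtain ⟨m, hm⟩ : ∃ m : ℤ, (Valued.v (z : v.adicCompletion K) : WithZero (Multiplicative ℤ)) =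
      WithZero.exp m := ⟨_, (WithZero.exp_log ((Valuation.ne_zero_iff _).2 z.ne_zero)).symm⟩
  rw [hm, val_eq, val_eq, ← WithZero.exp_nsmul, ← WithZero.exp_add] at h1
  have h2 := WithZero.exp_injective h1
  refine ordm_eq hℓ v ⟨m, ?_⟩
  rw [nsmul_eq_mul] at h2
  linarith

lemma fin_od (x : Kˣ) : {v : Pl K | od v x ≠ 0}.Finite := by
  have h1 := HeightOneSpectrum.Support.finite (𝓞 K) (K := K) ((x : K))
  have h2 := HeightOneSpectrum.Support.finite (𝓞 K) (K := K) ((x : K)⁻¹)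
  refine (h1.union h2).subset fun v hv => ?_
  have h3 := val_eq v x
  rcases lt_or_gt_of_ne (show od v x ≠ 0 from hv) with h | h
  · left
    show 1 < v.valuation K (x : K)
    rw [h3, ← WithZero.exp_zero, WithZero.exp_lt_exp]
    omega
  · right
    show 1 < v.valuation K ((x : K)⁻¹)
    rw [map_inv₀, h3, ← WithZero.exp_neg, ← WithZero.exp_zero, WithZero.exp_lt_exp]
    omega

lemma fin_ordm (ℓ : ℕ) (x : Kˣ) : {v : Pl K | ordm ℓ v x ≠ 0}.Finite := by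
  refine (fin_od x).subset fun v hv hv0 => hv ?_
  rw [ordm_def, hv0]
  simp

/-- the classes -/
abbrev Cls (ℓ : ℕ) (K : Type) [Field K] : Type := Kˣ ⧸ (powMonoidHom ℓ : Kˣ →* Kˣ).range

lemma mk_eq_iff (x y : Kˣ) : ((x : Cls ℓ K) = (y : Cls ℓ K)) ↔ ∃ z : Kˣ, y = x * z ^ ℓ := by
  rw [QuotientGroup.eq]
  constructor
  · rintro ⟨z, hz⟩
    refine ⟨z, ?_⟩
    have : z ^ ℓ = x⁻¹ * y := hz
    rw [this, mul_inv_cancel_left]
  · rintro ⟨z, rfl⟩
    exact ⟨z, by simp [powMonoidHom]⟩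

lemma out_spec (c : Cls ℓ K) : ((Quotient.out c : Kˣ) : Cls ℓ K) = c := Quotient.out_eq' c

lemma near_refl (S : Finset (Pl K)) (x : Kˣ) : Near ℓ S x x := fun v hv => ⟨1, by simp⟩

lemma near_mul_pow (S : Finset (Pl K)) (x z : Kˣ) : Near ℓ S x (x * z ^ ℓ) :=
  fun v hv => ⟨algebraMap K _ z, by simp⟩

lemma near_trans {S : Finset (Pl K)} {x y w : Kˣ} (h : Near ℓ S x y) (h' : Near ℓ S y w) :
    Near ℓ S x w := by
  intro v hv
  obtain ⟨a, ha⟩ := h v hv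
  obtain ⟨b, hb⟩ := h' v hv
  exact ⟨a * b, by rw [hb, ha]; ring⟩

lemma near_symm {S : Finset (Pl K)} {x y : Kˣ} (hℓ : ℓ ≠ 0) (h : Near ℓ S x y) : Near ℓ S y x := by
  rw [near_iff _ _ _ hℓ] at h ⊢
  intro v hv
  obtain ⟨z, hz⟩ := h v hv
  exact ⟨z⁻¹, by rw [hz, mul_assoc, ← mul_pow, mul_inv_cancel, one_pow, mul_one]⟩

lemma near_mono {S S' : Finset (Pl K)} (hS : S ⊆ S') {x y : Kˣ} (h : Near ℓ S' x y) :
    Near ℓ S x y := fun v hv => h v (hS hv)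

lemma near_ordm (hℓ : 0 < ℓ) {S : Finset (Pl K)} {x y : Kˣ} (h : Near ℓ S x y) {v : Pl K}
    (hv : v ∈ S) : ordm ℓ v y = ordm ℓ v x := by
  obtain ⟨z, hz⟩ := (near_iff _ _ _ hℓ.ne').1 h v hv
  exact ordm_of_loc hℓ v hz

lemma near_of_mk {S : Finset (Pl K)} {x y : Kˣ} (h : (x : Cls ℓ K) = y) : Near ℓ S x y := by
  obtain ⟨z, rfl⟩ := (mk_eq_iff x y).1 h
  exact near_mul_pow S x z

lemma ordm_of_mk (hℓ : 0 < ℓ) {x y : Kˣ} (h : (x : Cls ℓ K) = y) (v : Pl K) :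
    ordm ℓ v y = ordm ℓ v x :=
  near_ordm hℓ (near_of_mk (S := {v}) h) (Finset.mem_singleton_self v)

lemma tw_iff (hℓ : 1 < ℓ) {S : Finset (Pl K)} {η δ : Kˣ} {P : Finset (Pl K)} :
    Tw ℓ S η P δ ↔ Near ℓ S η δ ∧ (∀ v ∈ P, ordm ℓ v δ = 1) ∧
      ∀ v, v ∉ S → v ∉ P → ordm ℓ v δ = 0 := by
  unfold Tw
  rw [near_iff _ _ _ (by omega)]
  simp only [pw_one_iff hℓ, pw_iff (show 0 < ℓ by omega)]

/-- the places outside `S` of order at least two -/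
noncomputable def EE (ℓ : ℕ) (S : Finset (Pl K)) (x : Kˣ) : Finset (Pl K) :=
  open Classical in (fin_ordm ℓ x).toFinset.filter (fun v => v ∉ S ∧ 2 ≤ ordm ℓ v x)

/-- the places outside `S` of order one -/
noncomputable def PP (ℓ : ℕ) (S : Finset (Pl K)) (x : Kˣ) : Finset (Pl K) :=
  open Classical in (fin_ordm ℓ x).toFinset.filter (fun v => v ∉ S ∧ ordm ℓ v x = 1)

lemma mem_EE {S : Finset (Pl K)} {x : Kˣ} {v : Pl K} :
    v ∈ EE ℓ S x ↔ v ∉ S ∧ 2 ≤ ordm ℓ v x := by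
  classical
  unfold EE
  rw [Finset.mem_filter, Set.Finite.mem_toFinset]
  exact ⟨fun h => h.2, fun h => ⟨by show ordm ℓ v x ≠ 0; omega, h⟩⟩

lemma mem_PP {S : Finset (Pl K)} {x : Kˣ} {v : Pl K} :
    v ∈ PP ℓ S x ↔ v ∉ S ∧ ordm ℓ v x = 1 := by
  classical
  unfold PP
  rw [Finset.mem_filter, Set.Finite.mem_toFinset]
  exact ⟨fun h => h.2, fun h => ⟨by show ordm ℓ v x ≠ 0; omega, h⟩⟩

lemma ht_eq (ℓ : ℕ) (S : Finset (Pl K)) (x : Kˣ) : ht ℓ x =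
    (∏ v ∈ S, (Ideal.absNorm v.asIdeal : ℝ) ^ ordm ℓ v x) *
      (∏ v ∈ EE ℓ S x, (Ideal.absNorm v.asIdeal : ℝ) ^ ordm ℓ v x) * (NA (PP ℓ S x) : ℝ) := by
  classical
  have h1 : Disjoint S (EE ℓ S x) :=
    Finset.disjoint_left.2 fun v hv hv' => (mem_EE.1 hv').1 hv
  have h2 : Disjoint (S ∪ EE ℓ S x) (PP ℓ S x) := by
    refine Finset.disjoint_left.2 fun v hv hv' => ?_
    have h3 := mem_PP.1 hv'
    rcases Finset.mem_union.1 hv with h | h
    · exact h3.1 h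
    · have := (mem_EE.1 h).2
      omega
  have h3 : (NA (PP ℓ S x) : ℝ) = ∏ v ∈ PP ℓ S x, (Ideal.absNorm v.asIdeal : ℝ) ^ ordm ℓ v x := by
    unfold NA
    rw [Nat.cast_prod]
    exact Finset.prod_congr rfl fun v hv => by rw [(mem_PP.1 hv).2, pow_one]
  rw [h3, ← Finset.prod_union h1, ← Finset.prod_union h2]
  unfold ht
  refine finprod_eq_prod_of_mulSupport_subset _ fun v hv => ?_
  rw [Function.mem_mulSupport] at hv
  have h4 : ordm ℓ v x ≠ 0 := fun h => hv (by rw [h, pow_zero])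
  rw [Finset.mem_coe, Finset.mem_union, Finset.mem_union, mem_EE, mem_PP]
  by_cases h5 : v ∈ S
  · exact Or.inl (Or.inl h5)
  · by_cases h6 : 2 ≤ ordm ℓ v x
    · exact Or.inl (Or.inr ⟨h5, h6⟩)
    · exact Or.inr ⟨h5, by omega⟩

lemma one_le_N (v : Pl K) : (1 : ℝ) ≤ (Ideal.absNorm v.asIdeal : ℝ) := by
  have h : Ideal.absNorm v.asIdeal ≠ 0 := by
    rw [Ne, Ideal.absNorm_eq_zero_iff]
    exact v.ne_bot
  exact_mod_cast Nat.one_le_iff_ne_zero.2 h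

lemma one_le_prod' {ι : Type} {s : Finset ι} {f : ι → ℝ} (h : ∀ i ∈ s, 1 ≤ f i) :
    1 ≤ ∏ i ∈ s, f i := by
  classical
  induction s using Finset.induction_on with
  | empty => simp
  | insert a s ha ih =>
    rw [Finset.prod_insert ha]
    exact one_le_mul_of_one_le_of_one_le (h a (Finset.mem_insert_self a s))
      (ih fun i hi => h i (Finset.mem_insert_of_mem hi))

lemma one_le_NA (A : Finset (Pl K)) : (1 : ℝ) ≤ (NA A : ℝ) := by
  unfold NA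
  rw [Nat.cast_prod]
  exact one_le_prod' fun v _ => one_le_N v

lemma one_le_ht (ℓ : ℕ) (x : Kˣ) : 1 ≤ ht ℓ x := by
  rw [ht_eq ℓ ∅ x]
  refine one_le_mul_of_one_le_of_one_le (one_le_mul_of_one_le_of_one_le ?_ ?_) (one_le_NA _)
  · exact one_le_prod' fun v _ => one_le_pow₀ (one_le_N v)
  · exact one_le_prod' fun v _ => one_le_pow₀ (one_le_N v)

lemma ht_ge (ℓ : ℕ) (S : Finset (Pl K)) (x : Kˣ) :
    (NA (EE ℓ S x) : ℝ) ^ 2 * (NA (PP ℓ S x) : ℝ) ≤ ht ℓ x := by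
  rw [ht_eq ℓ S x]
  refine mul_le_mul_of_nonneg_right ?_ (Nat.cast_nonneg _)
  have h1 : (NA (EE ℓ S x) : ℝ) ^ 2 ≤
      ∏ v ∈ EE ℓ S x, (Ideal.absNorm v.asIdeal : ℝ) ^ ordm ℓ v x := by
    unfold NA
    rw [Nat.cast_prod, ← Finset.prod_pow]
    refine Finset.prod_le_prod (fun v _ => by positivity) fun v hv => ?_
    exact pow_le_pow_right₀ (one_le_N v) (mem_EE.1 hv).2
  have h2 : (1 : ℝ) ≤ ∏ v ∈ S, (Ideal.absNorm v.asIdeal : ℝ) ^ ordm ℓ v x :=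
    one_le_prod' fun v _ => one_le_pow₀ (one_le_N v)
  calc (NA (EE ℓ S x) : ℝ) ^ 2 ≤ 1 * ∏ v ∈ EE ℓ S x, (Ideal.absNorm v.asIdeal : ℝ) ^ ordm ℓ v x := by
        rw [one_mul]; exact h1
    _ ≤ _ := mul_le_mul_of_nonneg_right h2 (le_trans (by positivity) h1)

end Pool.Agent.T3h73.SD.Full
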