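import Pool.Agent.T3h73.SD.Full1

/-! Project SD: the final assembly, the bijection for one type -/

set_option autoImplicit false
set_option linter.all false

open NumberField IsDedekindDomain Filter Topology

namespace Pool.Agent.T3h73.SD.Full

open Pool.Agent.T3h73.SL (Pl IsP Pk loc Good2 val_loc)
open Pool.Agent.Y713.SE (Pw)
open Pool.Agent.T3h73.SD.Def

variable {ℓ : ℕ} {K : Type} [Field K] [NumberField K]

/-- the classes equivalent to `η` at `S`, of order at most one elsewhere -/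
def TT (ℓ : ℕ) (S : Finset (Pl K)) (η : Kˣ) : Set (Cls ℓ K) :=
  {c | Near ℓ S η (Quotient.out c) ∧ ∀ v, v ∉ S → ordm ℓ v (Quotient.out c) ≤ 1}

/-- the injectivity hypothesis -/
def Inj (ℓ : ℕ) (S : Finset (Pl K)) : Prop := ∀ x : Kˣ, (∀ v ∈ S, IsP ℓ (loc v x)) →
  (∀ v, v ∉ S → Pw ℓ (v.valuation K (x : K))) → IsP ℓ x

lemma mk_eq_of (hℓ : 0 < ℓ) {S : Finset (Pl K)} (hS : Inj ℓ S) {x y : Kˣ} (h : Near ℓ S x y)
    (h' : ∀ v, v ∉ S → ordm ℓ v x = ordm ℓ v y) : (x : Cls ℓ K) = y := by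
  rw [mk_eq_iff]
  have h1 : IsP ℓ (x⁻¹ * y) := by
    refine hS _ (fun v hv => ?_) (fun v hv => ?_)
    · obtain ⟨z, hz⟩ := (near_iff _ _ _ hℓ.ne').1 h v hv
      exact ⟨z, by rw [map_mul, map_inv, hz, inv_mul_cancel_left]⟩
    · rw [val_eq, pw_exp_iff, dvd_neg, od_mul, od_inv]
      have := dvd_of_ordm hℓ v (h' v hv)
      rwa [neg_add_eq_sub]
  obtain ⟨z, hz⟩ := h1
  exact ⟨z, by rw [← hz, mul_inv_cancel_left]⟩

lemma tw_out (hℓ : 1 < ℓ) {S : Finset (Pl K)} {η : Kˣ} {c : Cls ℓ K} (hc : c ∈ TT ℓ S η) {δ : Kˣ}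
    (hδ : (δ : Cls ℓ K) = c) : Tw ℓ S η (PP ℓ S (Quotient.out c)) δ := by
  have hmk : ((Quotient.out c : Kˣ) : Cls ℓ K) = (δ : Cls ℓ K) := by rw [out_spec, hδ]
  rw [tw_iff hℓ]
  refine ⟨near_trans hc.1 (near_of_mk hmk), fun v hv => ?_, fun v hv hv' => ?_⟩
  · rw [ordm_of_mk (by omega) hmk]
    exact (mem_PP.1 hv).2
  · rw [ordm_of_mk (by omega) hmk]
    have h1 := hc.2 v hv
    have h2 : ordm ℓ v (Quotient.out c) ≠ 1 := fun h => hv' (mem_PP.2 ⟨hv, h⟩)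
    omega

lemma PP_disj (S : Finset (Pl K)) (x : Kˣ) : Disjoint (PP ℓ S x) S :=
  Finset.disjoint_left.2 fun v hv hv' => (mem_PP.1 hv).1 hv'

lemma out_mem_Gs (hℓ : 1 < ℓ) {S : Finset (Pl K)} {η : Kˣ} {c : Cls ℓ K} (hc : c ∈ TT ℓ S η) :
    PP ℓ S (Quotient.out c) ∈ Gs ℓ S η :=
  ⟨PP_disj S _, Quotient.out c, tw_out hℓ hc (out_spec c)⟩

lemma PP_inj (hℓ : 1 < ℓ) {S : Finset (Pl K)} (hS : Inj ℓ S) {η : Kˣ} {c c' : Cls ℓ K}
    (hc : c ∈ TT ℓ S η) (hc' : c' ∈ TT ℓ S η)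
    (h : PP ℓ S (Quotient.out c) = PP ℓ S (Quotient.out c')) : c = c' := by
  rw [← out_spec c, ← out_spec c']
  refine mk_eq_of (by omega) hS (near_trans (near_symm (by omega) hc.1) hc'.1) fun v hv => ?_
  have h1 := hc.2 v hv
  have h2 := hc'.2 v hv
  by_cases h3 : v ∈ PP ℓ S (Quotient.out c)
  · rw [(mem_PP.1 h3).2]
    rw [h] at h3
    rw [(mem_PP.1 h3).2]
  · have h4 : ordm ℓ v (Quotient.out c) ≠ 1 := fun h => h3 (mem_PP.2 ⟨hv, h⟩)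
    rw [h] at h3
    have h5 : ordm ℓ v (Quotient.out c') ≠ 1 := fun h => h3 (mem_PP.2 ⟨hv, h⟩)
    omega

lemma PP_surj (hℓ : 1 < ℓ) {S : Finset (Pl K)} {η : Kˣ} {P : Finset (Pl K)}
    (hP : P ∈ Gs ℓ S η) : ∃ c ∈ TT ℓ S η, PP ℓ S (Quotient.out c) = P := by
  obtain ⟨hd, δ, hδ⟩ := hP
  rw [tw_iff hℓ] at hδ
  obtain ⟨h1, h2, h3⟩ := hδ
  have hmk : (δ : Cls ℓ K) = ((Quotient.out (δ : Cls ℓ K) : Kˣ) : Cls ℓ K) := (out_spec _).symm
  have hord : ∀ v, ordm ℓ v (Quotient.out (δ : Cls ℓ K)) = ordm ℓ v δ :=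
    ordm_of_mk (by omega) hmk
  refine ⟨(δ : Cls ℓ K), ⟨near_trans h1 (near_of_mk hmk), fun v hv => ?_⟩, ?_⟩
  · rw [hord]
    by_cases hvP : v ∈ P
    · rw [h2 v hvP]
    · rw [h3 v hv hvP]; omega
  · ext v
    rw [mem_PP, hord]
    constructor
    · rintro ⟨h4, h5⟩
      by_contra hvP
      rw [h3 v h4 hvP] at h5
      omega
    · intro hv
      exact ⟨Finset.disjoint_left.1 hd hv, h2 v hv⟩

open Classical in
/-- the bijection -/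
theorem bij (hℓ : 1 < ℓ) {S : Finset (Pl K)} (hS : Inj ℓ S) {η : Kˣ} (F : Cls ℓ K → ℝ)
    (G : Finset (Pl K) → ℝ) (hF : ∀ c ∈ TT ℓ S η, F c = G (PP ℓ S (Quotient.out c))) :
    (∑' c : Cls ℓ K, if c ∈ TT ℓ S η then F c else 0) =
      ∑' P : Finset (Pl K), if P ∈ Gs ℓ S η then G P else 0 := by
  have h1 : (∑' c : Cls ℓ K, if c ∈ TT ℓ S η then F c else 0) = ∑' c : TT ℓ S η, F c := by
    rw [tsum_subtype]
    exact tsum_congr fun c => by rw [Set.indicator_apply]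
  have h2 : (∑' P : Finset (Pl K), if P ∈ Gs ℓ S η then G P else 0) = ∑' P : Gs ℓ S η, G P := by
    rw [tsum_subtype]
    exact tsum_congr fun c => by rw [Set.indicator_apply]
  rw [h1, h2]
  let i : TT ℓ S η → Gs ℓ S η := fun c => ⟨PP ℓ S (Quotient.out c.1), out_mem_Gs hℓ c.2⟩
  have hi : Function.Bijective i := by
    constructor
    · intro c c' h
      exact Subtype.ext (PP_inj hℓ hS c.2 c'.2 (congrArg Subtype.val h))
    · rintro ⟨P, hP⟩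
      obtain ⟨c, hc, h⟩ := PP_surj hℓ hP
      exact ⟨⟨c, hc⟩, Subtype.ext h⟩
  rw [← (Equiv.ofBijective i hi).tsum_eq]
  exact tsum_congr fun c => hF c.1 c.2

/-- the constant factor -/
noncomputable def H0 (ℓ : ℕ) (S : Finset (Pl K)) (η : Kˣ) : ℝ :=
  ∏ v ∈ S, (Ideal.absNorm v.asIdeal : ℝ) ^ ordm ℓ v η

lemma H0_one_le (ℓ : ℕ) (S : Finset (Pl K)) (η : Kˣ) : 1 ≤ H0 ℓ S η :=
  one_le_prod' fun v _ => one_le_pow₀ (one_le_N v)

lemma ht_TT (hℓ : 0 < ℓ) {S : Finset (Pl K)} {η : Kˣ} {c : Cls ℓ K} (hc : c ∈ TT ℓ S η) :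
    ht ℓ (Quotient.out c) = H0 ℓ S η * (NA (PP ℓ S (Quotient.out c)) : ℝ) := by
  rw [ht_eq ℓ S]
  have h1 : EE ℓ S (Quotient.out c) = ∅ := by
    refine Finset.eq_empty_of_forall_notMem fun v hv => ?_
    have h2 := mem_EE.1 hv
    have h3 := hc.2 v h2.1
    omega
  rw [h1, Finset.prod_empty, mul_one]
  congr 1
  exact Finset.prod_congr rfl fun v hv => by rw [near_ordm hℓ hc.1 hv]

lemma ht_TT_rpow (hℓ : 0 < ℓ) {S : Finset (Pl K)} {η : Kˣ} {c : Cls ℓ K} (hc : c ∈ TT ℓ S η)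
    (s : ℝ) : ht ℓ (Quotient.out c) ^ (-s) =
      H0 ℓ S η ^ (-s) * (NA (PP ℓ S (Quotient.out c)) : ℝ) ^ (-s) := by
  rw [ht_TT hℓ hc, Real.mul_rpow (le_trans zero_le_one (H0_one_le ℓ S η)) (Nat.cast_nonneg _)]

open Classical in
/-- the sum over one type -/
theorem sum_TT (hℓ : 1 < ℓ) {S : Finset (Pl K)} (hS : Inj ℓ S) (η : Kˣ) (s : ℝ) :
    (∑' c : Cls ℓ K, if c ∈ TT ℓ S η then ht ℓ (Quotient.out c) ^ (-s) else 0) =
      H0 ℓ S η ^ (-s) * ∑' P : Finset (Pl K), if P ∈ Gs ℓ S η then (NA P : ℝ) ^ (-s) else 0 := by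
  rw [bij hℓ hS _ (fun P => H0 ℓ S η ^ (-s) * (NA P : ℝ) ^ (-s))
    (fun c hc => ht_TT_rpow (by omega) hc s), ← tsum_mul_left]
  exact tsum_congr fun P => by split_ifs <;> simp

open Classical in
/-- the sum over the good elements of one type -/
theorem sum_TT_good (hℓ : 1 < ℓ) {S : Finset (Pl K)} (hS : Inj ℓ S) (η : Kˣ) (s : ℝ) (Q : Kˣ → Prop) :
    (∑' c : Cls ℓ K, if c ∈ TT ℓ S η then
      (if ∀ δ : Kˣ, Tw ℓ S η (PP ℓ S (Quotient.out c)) δ → Q δ then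
        ht ℓ (Quotient.out c) ^ (-s) else 0) else 0) =
      H0 ℓ S η ^ (-s) * ∑' P : Finset (Pl K),
        if P ∈ Gs ℓ S η ∧ ∀ δ : Kˣ, Tw ℓ S η P δ → Q δ then (NA P : ℝ) ^ (-s) else 0 := by
  rw [bij hℓ hS _ (fun P => if ∀ δ : Kˣ, Tw ℓ S η P δ → Q δ then
    H0 ℓ S η ^ (-s) * (NA P : ℝ) ^ (-s) else 0) (fun c hc => ?_), ← tsum_mul_left]
  · refine tsum_congr fun P => ?_
    by_cases h1 : P ∈ Gs ℓ S η
    · by_cases h2 : ∀ δ : Kˣ, Tw ℓ S η P δ → Q δ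
      · simp only [h1, h2, true_and, if_true]
        rw [if_pos (fun δ hδ => h2 δ hδ), if_pos (fun δ hδ => h2 δ hδ)]
      · rw [if_pos h1, if_neg h2, if_neg (fun h => h2 h.2), mul_zero]
    · rw [if_neg h1, if_neg (fun h => h1 h.1), mul_zero]
  · rw [ht_TT_rpow (by omega) hc s]

end Pool.Agent.T3h73.SD.Full
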