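import Pool.Agent.T3h73.SD.Full2

/-! Project SD: the final assembly, upper bounds -/

set_option autoImplicit false
set_option linter.all false

open NumberField IsDedekindDomain Filter Topology

namespace Pool.Agent.T3h73.SD.Full

open Pool.Agent.T3h73.SL (Pl IsP Pk loc Good2 val_loc)
open Pool.Agent.Y713.SE (Pw)
open Pool.Agent.T3h73.SD.Def
open scoped ENNReal

variable {ℓ : ℕ} {K : Type} [Field K] [NumberField K]

/-- the elements which are `ℓ`-th powers at the places of `S` -/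
noncomputable def NS (ℓ : ℕ) (S : Finset (Pl K)) : Subgroup Kˣ :=
  ⨅ v : S, (Pk ℓ ((v : Pl K).adicCompletion K)ˣ).comap (loc (v : Pl K))

lemma mem_NS {S : Finset (Pl K)} {x : Kˣ} : x ∈ NS ℓ S ↔ ∀ v ∈ S, IsP ℓ (loc v x) := by
  unfold NS
  rw [Subgroup.mem_iInf]
  constructor
  · intro h v hv
    obtain ⟨z, hz⟩ := h ⟨v, hv⟩
    exact ⟨z, hz.symm⟩
  · rintro h ⟨v, hv⟩
    obtain ⟨z, hz⟩ := h v hv
    exact ⟨z, hz.symm⟩

lemma NS_index (hℓ : ℓ.Prime) (S : Finset (Pl K)) : (NS ℓ S).index ≠ 0 := by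
  refine Subgroup.index_iInf_ne_zero fun v => ?_
  have h1 := Pool.Agent.T3h73.SL.Fin.t_FIN ℓ hℓ K (v : Pl K)
  rw [Subgroup.index_comap]
  intro h2
  refine h1 (Nat.eq_zero_of_zero_dvd ?_)
  rw [← h2]
  exact Subgroup.relIndex_dvd_index_of_normal _ _

lemma NS_finite (hℓ : ℓ.Prime) (S : Finset (Pl K)) : Finite (Kˣ ⧸ NS ℓ S) :=
  Nat.finite_of_card_ne_zero (NS_index hℓ S)

lemma mk_NS_iff (hℓ : 0 < ℓ) {S : Finset (Pl K)} {x y : Kˣ} :
    ((x : Kˣ ⧸ NS ℓ S) = (y : Kˣ ⧸ NS ℓ S)) ↔ Near ℓ S x y := by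
  rw [QuotientGroup.eq, mem_NS, near_iff _ _ _ hℓ.ne']
  refine forall₂_congr fun v hv => ?_
  constructor
  · rintro ⟨z, hz⟩
    rw [map_mul, map_inv] at hz
    exact ⟨z, by rw [← hz, mul_inv_cancel_left]⟩
  · rintro ⟨z, hz⟩
    exact ⟨z, by rw [map_mul, map_inv, hz, inv_mul_cancel_left]⟩

/-- the fibres of the map to the pairs `(E, P)` -/
lemma card_fiber (hℓ : ℓ.Prime) {S : Finset (Pl K)} (hS : Inj ℓ S) (E P : Finset (Pl K)) :
    ENat.card {c : Cls ℓ K // (EE ℓ S (Quotient.out c), PP ℓ S (Quotient.out c)) = (E, P)} ≤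
      ((Nat.card (Kˣ ⧸ NS ℓ S) * ℓ ^ E.card : ℕ) : ℕ∞) := by
  classical
  haveI := NS_finite (K := K) hℓ S
  let i : {c : Cls ℓ K // (EE ℓ S (Quotient.out c), PP ℓ S (Quotient.out c)) = (E, P)} →
      (Kˣ ⧸ NS ℓ S) × (E → Fin ℓ) := fun c =>
    (((Quotient.out c.1 : Kˣ) : Kˣ ⧸ NS ℓ S), fun v => ⟨ordm ℓ v (Quotient.out c.1),
      ordm_lt hℓ.pos _ _⟩)
  have hi : Function.Injective i := by
    rintro ⟨c, hc⟩ ⟨c', hc'⟩ h
    have h1 := (mk_NS_iff hℓ.pos).1 (congrArg Prod.fst h)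
    have h2 := congrArg Prod.snd h
    refine Subtype.ext ?_
    show c = c'
    rw [← out_spec c, ← out_spec c']
    refine mk_eq_of hℓ.pos hS h1 fun v hv => ?_
    obtain ⟨e1, e2⟩ := Prod.mk.inj hc
    obtain ⟨e3, e4⟩ := Prod.mk.inj hc'
    by_cases hvE : v ∈ E
    · have h3 := congrFun h2 ⟨v, hvE⟩
      exact congrArg Fin.val h3
    · have h4 : ¬ 2 ≤ ordm ℓ v (Quotient.out c) := fun h => hvE (e1 ▸ mem_EE.2 ⟨hv, h⟩)
      have h5 : ¬ 2 ≤ ordm ℓ v (Quotient.out c') := fun h => hvE (e3 ▸ mem_EE.2 ⟨hv, h⟩)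
      by_cases hvP : v ∈ P
      · rw [(mem_PP.1 (e2.symm ▸ hvP : v ∈ PP ℓ S (Quotient.out c))).2,
          (mem_PP.1 (e4.symm ▸ hvP : v ∈ PP ℓ S (Quotient.out c'))).2]
      · have h6 : ordm ℓ v (Quotient.out c) ≠ 1 := fun h => hvP (e2 ▸ mem_PP.2 ⟨hv, h⟩)
        have h7 : ordm ℓ v (Quotient.out c') ≠ 1 := fun h => hvP (e4 ▸ mem_PP.2 ⟨hv, h⟩)
        omega
  refine (ENat.card_le_card_of_injective hi).trans ?_
  rw [ENat.card_eq_coe_natCard, Nat.card_prod, Nat.card_fun, Nat.card_eq_fintype_card (α := Fin ℓ),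
    Fintype.card_fin, Nat.card_eq_fintype_card (α := E), Fintype.card_coe]

lemma tsum_le_fiber {α β : Type} (κ : α → β) (f : α → ℝ≥0∞) (φ : β → ℝ≥0∞) (b : β → ℕ)
    (hf : ∀ a, f a ≤ φ (κ a)) (hb : ∀ j, ENat.card {a // κ a = j} ≤ (b j : ℕ∞)) :
    ∑' a, f a ≤ ∑' j, (b j : ℝ≥0∞) * φ j := by
  calc ∑' a, f a ≤ ∑' a, φ (κ a) := ENNReal.tsum_le_tsum hf
    _ = ∑' x : Σ j, {a // κ a = j}, φ (κ x.2) :=
        ((Equiv.sigmaFiberEquiv κ).tsum_eq (fun a => φ (κ a))).symm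
    _ = ∑' j, ∑' x : {a // κ a = j}, φ (κ x) := ENNReal.tsum_sigma' _
    _ = ∑' j, ∑' _ : {a // κ a = j}, φ j :=
        tsum_congr fun j => tsum_congr fun x => by rw [x.2]
    _ = ∑' j, (ENat.card {a // κ a = j} : ℝ≥0∞) * φ j :=
        tsum_congr fun j => ENNReal.tsum_const _
    _ ≤ ∑' j, (b j : ℝ≥0∞) * φ j := by
        refine ENNReal.tsum_le_tsum fun j => mul_le_mul_left ?_ _
        exact_mod_cast ENat.toENNReal_le.2 (hb j)

open Classical in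
/-- the bound -/
theorem bound (hℓ : ℓ.Prime) {S : Finset (Pl K)} (hS : Inj ℓ S) (𝓔 : Set (Finset (Pl K))) (s : ℝ)
    (hs : 1 < s) :
    ∑' c : Cls ℓ K, ENNReal.ofReal (if EE ℓ S (Quotient.out c) ∈ 𝓔 then
      ht ℓ (Quotient.out c) ^ (-s) else 0) ≤ (Nat.card (Kˣ ⧸ NS ℓ S) : ℝ≥0∞) *
      (∑' E : Finset (Pl K), ENNReal.ofReal (if E ∈ 𝓔 then (ℓ : ℝ) ^ E.card * (NA E : ℝ) ^ (-2 : ℝ)
        else 0)) *
      ∑' P : Finset (Pl K), ENNReal.ofReal (if Disjoint P S then (NA P : ℝ) ^ (-s) else 0) := by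
  refine (tsum_le_fiber (fun c : Cls ℓ K => (EE ℓ S (Quotient.out c), PP ℓ S (Quotient.out c))) _
    (fun j => ENNReal.ofReal (if j.1 ∈ 𝓔 then (NA j.1 : ℝ) ^ (-2 : ℝ) else 0) *
      ENNReal.ofReal (if Disjoint j.2 S then (NA j.2 : ℝ) ^ (-s) else 0))
    (fun j => Nat.card (Kˣ ⧸ NS ℓ S) * ℓ ^ j.1.card) ?_ fun j => card_fiber hℓ hS j.1 j.2).trans ?_
  · intro c
    simp only
    rw [if_pos (PP_disj S (Quotient.out c)), ← ENNReal.ofReal_mul (by positivity)]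
    refine ENNReal.ofReal_le_ofReal ?_
    by_cases h : EE ℓ S (Quotient.out c) ∈ 𝓔
    · rw [if_pos h, if_pos h]
      have h1 := ht_ge ℓ S (Quotient.out c)
      have hE : (0 : ℝ) < (NA (EE ℓ S (Quotient.out c)) : ℝ) := lt_of_lt_of_le one_pos (one_le_NA _)
      have hE1 := one_le_NA (EE ℓ S (Quotient.out c))
      have hP : (0 : ℝ) < (NA (PP ℓ S (Quotient.out c)) : ℝ) := lt_of_lt_of_le one_pos (one_le_NA _)
      calc ht ℓ (Quotient.out c) ^ (-s)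
          ≤ ((NA (EE ℓ S (Quotient.out c)) : ℝ) ^ 2 * (NA (PP ℓ S (Quotient.out c)) : ℝ)) ^ (-s) :=
            Real.rpow_le_rpow_of_nonpos (by positivity) h1 (by linarith)
        _ = ((NA (EE ℓ S (Quotient.out c)) : ℝ) ^ 2) ^ (-s) *
              (NA (PP ℓ S (Quotient.out c)) : ℝ) ^ (-s) :=
            Real.mul_rpow (by positivity) hP.le
        _ ≤ _ := by
            refine mul_le_mul_of_nonneg_right ?_ (by positivity)
            rw [← Real.rpow_natCast, ← Real.rpow_mul hE.le]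
            refine Real.rpow_le_rpow_of_exponent_le hE1 ?_
            push_cast
            linarith
    · rw [if_neg h, if_neg h, zero_mul]
  · rw [ENNReal.tsum_prod']
    refine le_of_eq ?_
    rw [mul_assoc, ← ENNReal.tsum_mul_right, ← ENNReal.tsum_mul_left]
    refine tsum_congr fun E => ?_
    rw [← ENNReal.tsum_mul_left, ← ENNReal.tsum_mul_left]
    refine tsum_congr fun P => ?_
    simp only
    have h2 : ENNReal.ofReal (if E ∈ 𝓔 then (ℓ : ℝ) ^ E.card * (NA E : ℝ) ^ (-2 : ℝ) else 0) =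
        ((ℓ ^ E.card : ℕ) : ℝ≥0∞) * ENNReal.ofReal (if E ∈ 𝓔 then (NA E : ℝ) ^ (-2 : ℝ) else 0) := by
      rw [← ENNReal.ofReal_natCast, ← ENNReal.ofReal_mul (by positivity)]
      congr 1
      split_ifs
      · push_cast; ring
      · simp
    rw [h2]
    push_cast
    ring

end Pool.Agent.T3h73.SD.Full
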