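import Pool.Agent.T3h73.SD.Full3

/-! Project SD: the final assembly, the soft part -/

set_option autoImplicit false
set_option linter.all false

open NumberField IsDedekindDomain Filter Topology

namespace Pool.Agent.T3h73.SD.Full

open Pool.Agent.T3h73.SL (Pl IsP Pk loc Good2 val_loc)
open Pool.Agent.Y713.SE (Pw)
open Pool.Agent.T3h73.SD.Def
open scoped ENNReal

variable {ℓ : ℕ} {K : Type} [Field K] [NumberField K]

lemma sum_NA (hM : S_MASS) (K : Type) [Field K] [NumberField K] {s : ℝ} (hs : 1 < s) (hs2 : s ≤ 2) :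
    Summable (fun A : Finset (Pl K) => (NA A : ℝ) ^ (-s)) := by
  obtain ⟨C, hC, h1, -⟩ := hM K 1 0 le_rfl le_rfl
  refine (h1 s hs hs2).1.congr fun A => ?_
  simp

lemma sum_EE (hM : S_MASS) (hℓ : 0 < ℓ) (K : Type) [Field K] [NumberField K] :
    Summable (fun A : Finset (Pl K) => (ℓ : ℝ) ^ A.card * (NA A : ℝ) ^ (-2 : ℝ)) := by
  obtain ⟨C, hC, h1, -⟩ := hM K ℓ 0 hℓ le_rfl
  refine (h1 2 (by norm_num) le_rfl).1.congr fun A => ?_
  simp

lemma tsum_T0 (S : Finset (Pl K)) (s : ℝ) (h : Summable (fun A : Finset (Pl K) => (NA A : ℝ) ^ (-s))) :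
    (∑' P : Finset (Pl K), open Classical in ENNReal.ofReal (if Disjoint P S then (NA P : ℝ) ^ (-s)
      else 0)) = ENNReal.ofReal (T0 S s) := by
  classical
  unfold T0
  rw [ENNReal.ofReal_tsum_of_nonneg]
  · intro P
    split_ifs <;> positivity
  · refine Summable.of_nonneg_of_le (fun P => ?_) (fun P => ?_) h
    · split_ifs <;> positivity
    · split_ifs
      · exact le_rfl
      · positivity

open Classical in
/-- summability of the heights -/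
theorem summable_ht (hM : S_MASS) (hℓ : ℓ.Prime) {S : Finset (Pl K)} (hS : Inj ℓ S) {s : ℝ}
    (hs : 1 < s) (hs2 : s ≤ 2) :
    Summable (fun c : Cls ℓ K => ht ℓ (Quotient.out c) ^ (-s)) := by
  have h1 := bound hℓ hS Set.univ s hs
  simp only [Set.mem_univ, if_true] at h1
  have h3 : (∑' E : Finset (Pl K), ENNReal.ofReal ((ℓ : ℝ) ^ E.card * (NA E : ℝ) ^ (-2 : ℝ))) ≠ ⊤ := by
    rw [← ENNReal.ofReal_tsum_of_nonneg (fun E => by positivity) (sum_EE hM hℓ.pos K)]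
    exact ENNReal.ofReal_ne_top
  have h4 : (∑' P : Finset (Pl K), ENNReal.ofReal (if Disjoint P S then (NA P : ℝ) ^ (-s)
      else 0)) ≠ ⊤ := by
    rw [tsum_T0 S s (sum_NA hM K hs hs2)]
    exact ENNReal.ofReal_ne_top
  have h5 : (∑' c : Cls ℓ K, ENNReal.ofReal (ht ℓ (Quotient.out c) ^ (-s))) ≠ ⊤ :=
    ne_top_of_le_ne_top (ENNReal.mul_ne_top (ENNReal.mul_ne_top (ENNReal.natCast_ne_top _) h3) h4) h1
  refine (ENNReal.summable_toReal h5).congr fun c => ?_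
  rw [ENNReal.toReal_ofReal]
  exact Real.rpow_nonneg (le_trans zero_le_one (one_le_ht ℓ _)) _

theorem summable_ht' (hM : S_MASS) (hℓ : ℓ.Prime) {S : Finset (Pl K)} (hS : Inj ℓ S) {s : ℝ}
    (hs : 1 < s) : Summable (fun c : Cls ℓ K => ht ℓ (Quotient.out c) ^ (-s)) := by
  rcases le_or_gt s 2 with h | h
  · exact summable_ht hM hℓ hS hs h
  · refine Summable.of_nonneg_of_le (fun c => ?_) (fun c => ?_) (summable_ht hM hℓ hS one_lt_two le_rfl)
    · exact Real.rpow_nonneg (le_trans zero_le_one (one_le_ht ℓ _)) _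
    · exact Real.rpow_le_rpow_of_exponent_le (one_le_ht ℓ _) (by linarith)

open Classical in
/-- the tail -/
theorem tail (hM : S_MASS) (hℓ : ℓ.Prime) {S : Finset (Pl K)} (hS : Inj ℓ S)
    (𝓔 : Set (Finset (Pl K))) {s : ℝ} (hs : 1 < s) (hs2 : s ≤ 2) :
    (∑' c : Cls ℓ K, if EE ℓ S (Quotient.out c) ∈ 𝓔 then ht ℓ (Quotient.out c) ^ (-s) else 0) ≤
      (Nat.card (Kˣ ⧸ NS ℓ S) : ℝ) * (∑' E : Finset (Pl K), if E ∈ 𝓔 then
        (ℓ : ℝ) ^ E.card * (NA E : ℝ) ^ (-2 : ℝ) else 0) * T0 S s := by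
  have h1 := bound hℓ hS 𝓔 s hs
  have hnn : ∀ c : Cls ℓ K, 0 ≤ ht ℓ (Quotient.out c) ^ (-s) := fun c =>
    Real.rpow_nonneg (le_trans zero_le_one (one_le_ht ℓ _)) _
  have hT : 0 ≤ T0 S s := tsum_nonneg fun P => by split_ifs <;> positivity
  have hE : 0 ≤ ∑' E : Finset (Pl K), if E ∈ 𝓔 then
      (ℓ : ℝ) ^ E.card * (NA E : ℝ) ^ (-2 : ℝ) else 0 :=
    tsum_nonneg fun P => by split_ifs <;> positivity
  rw [tsum_T0 S s (sum_NA hM K hs hs2), ← ENNReal.ofReal_tsum_of_nonneg (fun c => by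
      split_ifs
      · exact hnn c
      · exact le_rfl) (Summable.of_nonneg_of_le (fun c => by
        split_ifs
        · exact hnn c
        · exact le_rfl) (fun c => by
        split_ifs
        · exact le_rfl
        · exact hnn c) (summable_ht hM hℓ hS hs hs2)),
    ← ENNReal.ofReal_tsum_of_nonneg (fun E => by split_ifs <;> positivity)
      (Summable.of_nonneg_of_le (fun E => by split_ifs <;> positivity) (fun E => by
        split_ifs
        · exact le_rfl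
        · positivity) (sum_EE hM hℓ.pos K)), ← ENNReal.ofReal_natCast,
    ← ENNReal.ofReal_mul (Nat.cast_nonneg _), ← ENNReal.ofReal_mul (by positivity)] at h1
  exact (ENNReal.ofReal_le_ofReal_iff (by positivity)).1 h1

open Classical in
/-- finitely many types suffice -/
theorem tail_small (hM : S_MASS) (hℓ : ℓ.Prime) {S : Finset (Pl K)} (hS : Inj ℓ S) {ε : ℝ}
    (hε : 0 < ε) : ∃ 𝓔 : Finset (Finset (Pl K)), ∀ s : ℝ, 1 < s → s ≤ 2 →
    (∑' c : Cls ℓ K, if EE ℓ S (Quotient.out c) ∉ 𝓔 then ht ℓ (Quotient.out c) ^ (-s) else 0) ≤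
      ε * T0 S s := by
  have h1 := tendsto_tsum_compl_atTop_zero
    (fun E : Finset (Pl K) => (ℓ : ℝ) ^ E.card * (NA E : ℝ) ^ (-2 : ℝ))
  have hD : 0 < (Nat.card (Kˣ ⧸ NS ℓ S) : ℝ) + 1 := by positivity
  have h2 := (h1.eventually (gt_mem_nhds (show 0 < ε / ((Nat.card (Kˣ ⧸ NS ℓ S) : ℝ) + 1) by
    positivity))).exists
  obtain ⟨𝓔, h𝓔⟩ := h2
  refine ⟨𝓔, fun s hs hs2 => ?_⟩
  obtain ⟨A, hA⟩ : ∃ A : Set (Finset (Pl K)), ∀ E, E ∈ A ↔ E ∉ 𝓔 := ⟨{E | E ∉ 𝓔}, fun _ => Iff.rfl⟩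
  refine (le_of_eq (tsum_congr fun c => ?_)).trans ((tail hM hℓ hS A hs hs2).trans ?_)
  · by_cases h : EE ℓ S (Quotient.out c) ∈ 𝓔
    · rw [if_neg (not_not.2 h), if_neg (fun h' => (hA _).1 h' h)]
    · rw [if_pos h, if_pos ((hA _).2 h)]
  have hT : 0 ≤ T0 S s := tsum_nonneg fun P => by split_ifs <;> positivity
  refine mul_le_mul_of_nonneg_right ?_ hT
  have h3 : (∑' E : Finset (Pl K), if E ∈ A then
      (ℓ : ℝ) ^ E.card * (NA E : ℝ) ^ (-2 : ℝ) else 0) =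
      ∑' E : {E : Finset (Pl K) // E ∉ 𝓔}, (ℓ : ℝ) ^ E.1.card * (NA E.1 : ℝ) ^ (-2 : ℝ) := by
    have := tsum_subtype {E : Finset (Pl K) | E ∉ 𝓔}
      (fun E => (ℓ : ℝ) ^ E.card * (NA E : ℝ) ^ (-2 : ℝ))
    refine Eq.trans ?_ this.symm
    refine tsum_congr fun E => ?_
    by_cases h : E ∈ 𝓔
    · rw [if_neg (fun h' => (hA _).1 h' h), Set.indicator_of_notMem]
      exact not_not.2 h
    · rw [if_pos ((hA _).2 h), Set.indicator_of_mem]
      exact h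
  rw [h3]
  have h4 : 0 ≤ ∑' E : {E : Finset (Pl K) // E ∉ 𝓔}, (ℓ : ℝ) ^ E.1.card * (NA E.1 : ℝ) ^ (-2 : ℝ) :=
    tsum_nonneg fun E => by positivity
  rw [lt_div_iff₀ hD] at h𝓔
  calc _ ≤ ((Nat.card (Kˣ ⧸ NS ℓ S) : ℝ) + 1) *
        ∑' E : {E : Finset (Pl K) // E ∉ 𝓔}, (ℓ : ℝ) ^ E.1.card * (NA E.1 : ℝ) ^ (-2 : ℝ) :=
        mul_le_mul_of_nonneg_right (by linarith) h4
    _ ≤ ε := by
        rw [mul_comm]
        exact h𝓔.le

open Classical in
/-- the soft argument -/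
theorem soft {𝒞 𝒥 : Type} (t : 𝒞 → 𝒥) (f g : ℝ → 𝒞 → ℝ) (T : ℝ → ℝ) (κ : ℝ) (hκ : 0 ≤ κ)
    (hg : ∀ s c, 0 ≤ g s c) (hgf : ∀ s c, g s c ≤ f s c)
    (hsum : ∀ᶠ s : ℝ in 𝓝[>] 1, Summable (f s))
    (H1 : ∀ j, ∀ ε : ℝ, 0 < ε → ∀ᶠ s : ℝ in 𝓝[>] 1,
      (κ - ε) * (∑' c, if t c = j then f s c else 0) ≤ ∑' c, if t c = j then g s c else 0)
    (H2 : ∀ ε : ℝ, 0 < ε → ∃ Φ : Finset 𝒥, ∀ᶠ s : ℝ in 𝓝[>] 1,
      (∑' c, if t c ∈ Φ then 0 else f s c) ≤ ε * T s)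
    (H3 : ∃ c : ℝ, 0 < c ∧ ∀ᶠ s : ℝ in 𝓝[>] 1, c * T s ≤ ∑' c, f s c) (ε : ℝ) (hε : 0 < ε) :
    ∀ᶠ s : ℝ in 𝓝[>] 1, (κ - ε) * ∑' c, f s c ≤ ∑' c, g s c := by
  obtain ⟨c₀, hc₀, h3⟩ := H3
  set ε₁ : ℝ := ε / 2 / (κ + 1) * c₀ with hε₁
  have hε₁0 : 0 < ε₁ := by positivity
  obtain ⟨Φ, h2⟩ := H2 ε₁ hε₁0
  have h1 : ∀ᶠ s : ℝ in 𝓝[>] 1, ∀ j ∈ Φ,
      (κ - ε / 2) * (∑' c, if t c = j then f s c else 0) ≤ ∑' c, if t c = j then g s c else 0 :=
    (Filter.eventually_all_finset Φ).2 fun j _ => H1 j (ε / 2) (by positivity)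
  filter_upwards [h1, h2, h3, hsum] with s h1 h2 h3 hs
  have hf0 : ∀ c, 0 ≤ f s c := fun c => (hg s c).trans (hgf s c)
  have hgs : Summable (g s) := Summable.of_nonneg_of_le (hg s) (hgf s) hs
  have hG0 : 0 ≤ ∑' c, g s c := tsum_nonneg (hg s)
  have hF0 : 0 ≤ ∑' c, f s c := tsum_nonneg hf0
  have hsub : ∀ (h : 𝒞 → ℝ) (p : 𝒞 → Prop) [DecidablePred p], (∀ c, 0 ≤ h c) → Summable h →
      Summable (fun c => if p c then h c else 0) := fun h p _ h0 hh =>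
    Summable.of_nonneg_of_le (fun c => by split_ifs; exacts [h0 c, le_rfl])
      (fun c => by split_ifs; exacts [le_rfl, h0 c]) hh
  have key : ∀ h : 𝒞 → ℝ, (∀ c, 0 ≤ h c) → Summable h →
      (∑ j ∈ Φ, ∑' c, if t c = j then h c else 0) = ∑' c, if t c ∈ Φ then h c else 0 := by
    intro h h0 hh
    rw [← Summable.tsum_finsetSum (fun j _ => hsub h (fun c => t c = j) h0 hh)]
    refine tsum_congr fun c => ?_
    rw [Finset.sum_ite_eq]
  have hsplit : ∑' c, f s c = (∑' c, if t c ∈ Φ then f s c else 0) +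
      ∑' c, if t c ∈ Φ then 0 else f s c := by
    have h6 := hsub (f s) (fun c => t c ∉ Φ) hf0 hs
    have h7 : (fun c => if t c ∉ Φ then f s c else 0) = fun c => if t c ∈ Φ then 0 else f s c := by
      funext c
      by_cases h : t c ∈ Φ <;> simp [h]
    rw [h7] at h6
    rw [← Summable.tsum_add (hsub (f s) (fun c => t c ∈ Φ) hf0 hs) h6]
    refine tsum_congr fun c => ?_
    split_ifs <;> simp
  have hGΦ : (∑' c, if t c ∈ Φ then g s c else 0) ≤ ∑' c, g s c :=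
    (hsub (g s) (fun c => t c ∈ Φ) (hg s) hgs).tsum_le_tsum (fun c => by
      split_ifs
      · exact le_rfl
      · exact hg s c) hgs
  have h8 : (κ - ε / 2) * (∑' c, if t c ∈ Φ then f s c else 0) ≤
      ∑' c, if t c ∈ Φ then g s c else 0 := by
    rw [← key (f s) hf0 hs, ← key (g s) (hg s) hgs, Finset.mul_sum]
    exact Finset.sum_le_sum h1
  have hTail0 : 0 ≤ ∑' c, if t c ∈ Φ then 0 else f s c :=
    tsum_nonneg fun c => by split_ifs; exacts [le_rfl, hf0 c]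
  by_cases hneg : κ - ε / 2 < 0
  · refine le_trans ?_ hG0
    exact mul_nonpos_of_nonpos_of_nonneg (by linarith) hF0
  · push Not at hneg
    have h9 : (∑' c, if t c ∈ Φ then 0 else f s c) ≤ ε / 2 / (κ + 1) * ∑' c, f s c := by
      refine h2.trans ?_
      rw [hε₁, mul_assoc]
      exact mul_le_mul_of_nonneg_left h3 (by positivity)
    have h10 : κ * (ε / 2 / (κ + 1)) ≤ ε / 2 := by
      rw [mul_div_assoc', div_le_iff₀ (by positivity)]
      nlinarith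
    have h11 : κ * (∑' c, if t c ∈ Φ then 0 else f s c) ≤ ε / 2 * ∑' c, f s c := by
      calc κ * (∑' c, if t c ∈ Φ then 0 else f s c) ≤ κ * (ε / 2 / (κ + 1) * ∑' c, f s c) :=
            mul_le_mul_of_nonneg_left h9 hκ
        _ = κ * (ε / 2 / (κ + 1)) * ∑' c, f s c := by ring
        _ ≤ _ := mul_le_mul_of_nonneg_right h10 hF0
    nlinarith

end Pool.Agent.T3h73.SD.Full
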