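import Pool.Agent.T3h73.SD.Stm4

/-!
# Project SD (helper73): the statements for a general property `Q` of the twists
-/

set_option autoImplicit false
set_option linter.all false

open NumberField IsDedekindDomain Filter Topology

namespace Pool.Agent.T3h73.SD

open Pool.Agent.T3h73.SL (Pl IsP Pk loc Good2 LC Sg)
open Pool.Agent.Y713.SE (Pw)
open Pool.Agent.Y773.G (IsModChar)

/-- the model controls the property `Q` -/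
def MDLQ (ℓ : ℕ) (K : Type) [Field K] [NumberField K] (Q : Kˣ → Prop) : Prop :=
  ∃ T₀ : Finset (Pl K), ∀ S : Finset (Pl K), T₀ ⊆ S →
  ∀ η : Kˣ, ∃ (𝔪 : Ideal (𝓞 K)) (V : Type) (_ : AddCommGroup V) (_ : Module (ZMod ℓ) V)
  (_ : Finite V) (ψ : V →ₗ[ZMod ℓ] V →ₗ[ZMod ℓ] ZMod ℓ) (L0 L1 LL : Submodule (ZMod ℓ) V)
  (π : V →ₗ[ZMod ℓ] L0) (u : L0) (d1 : V) (t : Pl K → V) (sy : Pl K → Pl K → ZMod ℓ),
  Model ℓ K S 𝔪 V ψ L0 L1 LL π u d1 t sy ∧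
  (∀ (δ : Kˣ) (P : Finset (Pl K)), (∀ v ∈ S, ∃ z, loc v δ = loc v η * z ^ ℓ) → Disjoint P S →
    (∀ v ∈ P, Pw ℓ (v.valuation K (δ : K) * WithZero.exp (1 : ℤ))) →
    (∀ v, v ∉ S → v ∉ P → Pw ℓ (v.valuation K (δ : K))) →
    ∑ q ∈ P, t q = d1 ∧ (P.Nonempty → nS ψ L0 LL u t sy P = ℓ → Q δ)) ∧
  (∀ P : Finset (Pl K), Disjoint P S → ∑ q ∈ P, t q = d1 → ∃ δ : Kˣ,
    (∀ v ∈ S, ∃ z, loc v δ = loc v η * z ^ ℓ) ∧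
    (∀ v ∈ P, v.valuation K (δ : K) = WithZero.exp (-1 : ℤ)) ∧
    ∀ v, v ∉ S → v ∉ P → v.valuation K (δ : K) = 1) ∧
  ∀ x : Kˣ, (∀ v ∈ S, IsP ℓ (loc v x)) → (∀ v, v ∉ S → Pw ℓ (v.valuation K (x : K))) → IsP ℓ x

open Classical in
/-- the proportion for one type -/
def TYPQ (ℓ : ℕ) (K : Type) [Field K] [NumberField K] (Q : Kˣ → Prop) : Prop :=
  ∃ T₀ : Finset (Pl K), ∀ S : Finset (Pl K), T₀ ⊆ S →
    (∀ x : Kˣ, (∀ v ∈ S, IsP ℓ (loc v x)) → (∀ v, v ∉ S → Pw ℓ (v.valuation K (x : K))) → IsP ℓ x) ∧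
    ∀ η : Kˣ, (∃ c : ℝ, 0 < c ∧ ∀ᶠ s : ℝ in 𝓝[>] 1, c * T0 S s ≤
      ∑' P : Finset (Pl K), if P ∈ Gs ℓ S η then (NA P : ℝ) ^ (-s) else 0) ∧
    ∀ ε : ℝ, 0 < ε → ∀ᶠ s : ℝ in 𝓝[>] 1,
      (kap ℓ - ε) * (∑' P : Finset (Pl K), if P ∈ Gs ℓ S η then (NA P : ℝ) ^ (-s) else 0) ≤
      ∑' P : Finset (Pl K), if P ∈ Gs ℓ S η ∧ ∀ δ : Kˣ, Tw ℓ S η P δ → Q δ then
        (NA P : ℝ) ^ (-s) else 0

end Pool.Agent.T3h73.SD
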