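import Pool.Agent.T3h73.SD.Full5
import Pool.Agent.T3h73.SD.StmQ

/-! Project SD: the final assembly for a general property -/

set_option autoImplicit false
set_option linter.all false

open NumberField IsDedekindDomain Filter Topology

namespace Pool.Agent.T3h73.SD.Full

open Pool.Agent.T3h73.SL (Pl IsP Pk loc Good2 val_loc)
open Pool.Agent.Y713.SE (Pw)
open Pool.Agent.T3h73.SD.Def
open scoped ENNReal

variable {ℓ : ℕ} {K : Type} [Field K] [NumberField K]

open Classical in
/-- the final theorem, in terms of the statements of the parts -/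
theorem fullQ (hM : S_MASS) (hT : S_T0L) (hK : S_KAP) (hℓ : ℓ.Prime) {Q : Kˣ → Prop}
    (hTYP : TYPQ ℓ K Q) (S₀ : Finset (Pl K)) (η : Kˣ) :
    (∀ s : ℝ, 1 < s → Summable (fun c : Cls ℓ K => ht ℓ (Quotient.out c) ^ (-s))) ∧
    Tendsto (fun s : ℝ => csum ℓ (Near ℓ S₀ η) s) (𝓝[>] 1) atTop ∧
    ∀ ε : ℝ, 0 < ε → ∀ᶠ s : ℝ in 𝓝[>] 1,
      (kap ℓ - ε) * csum ℓ (Near ℓ S₀ η) s ≤
        csum ℓ (fun δ => Near ℓ S₀ η δ ∧ Q δ) s := by
  obtain ⟨T₀, hT₀⟩ := hTYP
  set S : Finset (Pl K) := T₀ ∪ S₀ with hSdef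
  have hTS : T₀ ⊆ S := Finset.subset_union_left
  have hS₀S : S₀ ⊆ S := Finset.subset_union_right
  have hinj : ∀ S' : Finset (Pl K), T₀ ⊆ S' → Inj ℓ S' := fun S' h => (hT₀ S' h).1
  have hS := hinj S hTS
  have hnear : ∀ᶠ s : ℝ in 𝓝[>] 1, 1 < s ∧ s ≤ 2 := by
    have h1 : ∀ᶠ s : ℝ in 𝓝[>] (1 : ℝ), s ∈ Set.Ioi (1 : ℝ) := self_mem_nhdsWithin
    have h3 : ∀ᶠ s : ℝ in 𝓝[>] (1 : ℝ), s < 2 :=
      eventually_nhdsWithin_of_eventually_nhds (gt_mem_nhds one_lt_two)
    filter_upwards [h1, h3] with s h1 h3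
    exact ⟨h1, h3.le⟩
  set f : ℝ → Cls ℓ K → ℝ := fun s c =>
    if ∀ δ : Kˣ, (δ : Cls ℓ K) = c → Near ℓ S₀ η δ then ht ℓ (Quotient.out c) ^ (-s) else 0 with hf
  set g : ℝ → Cls ℓ K → ℝ := fun s c =>
    if ∀ δ : Kˣ, (δ : Cls ℓ K) = c → Near ℓ S₀ η δ ∧ Q δ then
      ht ℓ (Quotient.out c) ^ (-s) else 0 with hg
  have hcf : ∀ s, csum ℓ (Near ℓ S₀ η) s = ∑' c, f s c := fun s => rfl
  have hcg : ∀ s, csum ℓ (fun δ => Near ℓ S₀ η δ ∧ Q δ) s = ∑' c, g s c :=
    fun s => rfl
  have hf0 : ∀ s c, 0 ≤ f s c := fun s c => by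
    simp only [hf]; split_ifs; exacts [htnn c s, le_rfl]
  have hg0 : ∀ s c, 0 ≤ g s c := fun s c => by
    simp only [hg]; split_ifs; exacts [htnn c s, le_rfl]
  have hfh : ∀ s c, f s c ≤ ht ℓ (Quotient.out c) ^ (-s) := fun s c => by
    simp only [hf]; split_ifs; exacts [le_rfl, htnn c s]
  have hgf : ∀ s c, g s c ≤ f s c := fun s c => by
    simp only [hg]
    split_ifs with h
    · simp only [hf]
      rw [if_pos (fun δ hδ => (h δ hδ).1)]
    · exact hf0 s c
  have hfsum : ∀ s : ℝ, 1 < s → s ≤ 2 → Summable (f s) := fun s hs hs2 =>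
    Summable.of_nonneg_of_le (hf0 s) (hfh s) (summable_ht hM hℓ hS hs hs2)
  -- H3
  have H3 : ∃ c : ℝ, 0 < c ∧ ∀ᶠ s : ℝ in 𝓝[>] 1, c * T0 S s ≤ ∑' c, f s c := by
    obtain ⟨c₁, hc₁, h3⟩ := ((hT₀ S hTS).2 η).1
    have hH : (0 : ℝ) < H0 ℓ S η := lt_of_lt_of_le one_pos (H0_one_le ℓ S η)
    refine ⟨H0 ℓ S η ^ (-2 : ℝ) * c₁, by positivity, ?_⟩
    filter_upwards [h3, hnear] with s h3 hs
    have h4 := sum_TT hℓ.one_lt hS η s
    have h5 : (∑' c : Cls ℓ K, if c ∈ TT ℓ S η then ht ℓ (Quotient.out c) ^ (-s) else 0) ≤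
        ∑' c, f s c := by
      refine Summable.tsum_le_tsum (fun c => ?_) ?_ (hfsum s hs.1 hs.2)
      · by_cases hc : c ∈ TT ℓ S η
        · rw [if_pos hc]
          simp only [hf]
          rw [if_pos ((forall_near_iff hℓ.pos S₀ η c).2 (near_mono hS₀S hc.1))]
        · rw [if_neg hc]; exact hf0 s c
      · refine Summable.of_nonneg_of_le (fun c => ?_) (fun c => ?_) (summable_ht hM hℓ hS hs.1 hs.2)
        · split_ifs; exacts [htnn c s, le_rfl]
        · split_ifs; exacts [le_rfl, htnn c s]
    refine le_trans ?_ h5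
    rw [h4, mul_assoc]
    refine mul_le_mul ?_ h3 (mul_nonneg hc₁.le (T0_nonneg S s)) (by positivity)
    exact Real.rpow_le_rpow_of_exponent_le (H0_one_le ℓ S η) (by linarith [hs.2])
  refine ⟨fun s hs => summable_ht' hM hℓ hS hs, ?_, ?_⟩
  · obtain ⟨c₁, hc₁, h3⟩ := H3
    obtain ⟨c₂, s₀, hc₂, hs₀, h4⟩ := hT K S
    have h5 : Tendsto (fun s : ℝ => c₁ * c₂ * (s - 1)⁻¹) (𝓝[>] 1) atTop := by
      refine Tendsto.const_mul_atTop (by positivity) ?_
      refine tendsto_inv_nhdsGT_zero.comp ?_
      refine tendsto_nhdsWithin_iff.2 ⟨?_, ?_⟩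
      · have : Tendsto (fun s : ℝ => s - 1) (𝓝 1) (𝓝 (1 - 1)) := (continuous_sub_right 1).tendsto 1
        rw [sub_self] at this
        exact this.mono_left nhdsWithin_le_nhds
      · filter_upwards [hnear] with s hs
        exact sub_pos.2 hs.1
    refine tendsto_atTop_mono' _ ?_ h5
    have h6 : ∀ᶠ s : ℝ in 𝓝[>] (1 : ℝ), s < s₀ :=
      eventually_nhdsWithin_of_eventually_nhds (gt_mem_nhds hs₀)
    filter_upwards [h3, hnear, h6] with s h3 hs h6
    refine le_trans ?_ h3
    rw [mul_assoc]
    refine mul_le_mul_of_nonneg_left ?_ hc₁.le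
    rw [← div_eq_mul_inv]
    exact (h4 s hs.1 h6).2
  · intro ε hε
    refine soft (ty ℓ S) f g (T0 S) (kap ℓ) (hK ℓ hℓ.two_le).1.le hg0 hgf ?_ ?_ ?_ H3 ε hε
    · filter_upwards [hnear] with s hs
      exact hfsum s hs.1 hs.2
    · -- H1
      intro j ε hε
      by_cases hj : ∃ c₀, ty ℓ S c₀ = j ∧ Near ℓ S₀ η (Quotient.out c₀)
      · obtain ⟨c₀, rfl, hc₀⟩ := hj
        set S' : Finset (Pl K) := S ∪ EE ℓ S (Quotient.out c₀) with hS'
        have hTS' : T₀ ⊆ S' := hTS.trans Finset.subset_union_left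
        have hS₀' : S₀ ⊆ S' := hS₀S.trans Finset.subset_union_left
        have h3 := ((hT₀ S' hTS').2 (Quotient.out c₀)).2 ε hε
        filter_upwards [h3, hnear] with s h3 hs
        have e1 : (∑' c, if ty ℓ S c = ty ℓ S c₀ then f s c else 0) =
            ∑' c : Cls ℓ K, if c ∈ TT ℓ S' (Quotient.out c₀) then
              ht ℓ (Quotient.out c) ^ (-s) else 0 := by
          refine tsum_congr fun c => ?_
          by_cases hc : c ∈ TT ℓ S' (Quotient.out c₀)
          · rw [if_pos ((ty_eq_iff hℓ.pos S c c₀).2 hc), if_pos hc]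
            simp only [hf]
            rw [if_pos ((forall_near_iff hℓ.pos S₀ η c).2 (near_trans hc₀ (near_mono hS₀' hc.1)))]
          · rw [if_neg (fun h => hc ((ty_eq_iff hℓ.pos S c c₀).1 h)), if_neg hc]
        have e2 : (∑' c : Cls ℓ K, if c ∈ TT ℓ S' (Quotient.out c₀) then
            (if ∀ δ : Kˣ, Tw ℓ S' (Quotient.out c₀) (PP ℓ S' (Quotient.out c)) δ → Q δ
              then ht ℓ (Quotient.out c) ^ (-s) else 0) else 0) ≤
            ∑' c, if ty ℓ S c = ty ℓ S c₀ then g s c else 0 := by
          have hnn : ∀ c : Cls ℓ K, (if c ∈ TT ℓ S' (Quotient.out c₀) then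
            (if ∀ δ : Kˣ, Tw ℓ S' (Quotient.out c₀) (PP ℓ S' (Quotient.out c)) δ → Q δ
              then ht ℓ (Quotient.out c) ^ (-s) else 0) else 0) ≤
            if ty ℓ S c = ty ℓ S c₀ then g s c else 0 := by
            intro c
            by_cases hc : c ∈ TT ℓ S' (Quotient.out c₀)
            · rw [if_pos hc, if_pos ((ty_eq_iff hℓ.pos S c c₀).2 hc)]
              by_cases hgood : ∀ δ : Kˣ, Tw ℓ S' (Quotient.out c₀) (PP ℓ S' (Quotient.out c)) δ →
                  Q δ
              · rw [if_pos hgood]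
                simp only [hg]
                rw [if_pos]
                intro δ hδ
                refine ⟨?_, hgood δ (tw_out hℓ.one_lt hc hδ)⟩
                exact near_trans (near_trans hc₀ (near_mono hS₀' hc.1))
                  (near_of_mk ((out_spec c).trans hδ.symm))
              · rw [if_neg hgood]; exact hg0 s c
            · rw [if_neg hc]
              split_ifs
              · exact hg0 s c
              · exact le_rfl
          refine Summable.tsum_le_tsum hnn ?_ ?_
          · refine Summable.of_nonneg_of_le (fun c => ?_) (fun c => ?_)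
              (summable_ht hM hℓ hS hs.1 hs.2)
            · split_ifs
              · exact htnn c s
              · exact le_rfl
              · exact le_rfl
            · split_ifs
              · exact le_rfl
              · exact htnn c s
              · exact htnn c s
          · refine Summable.of_nonneg_of_le (fun c => ?_) (fun c => ?_)
              (summable_ht hM hℓ hS hs.1 hs.2)
            · split_ifs
              · exact hg0 s c
              · exact le_rfl
            · split_ifs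
              · exact (hgf s c).trans (hfh s c)
              · exact htnn c s
        have fin : (kap ℓ - ε) * (∑' c, if ty ℓ S c = ty ℓ S c₀ then f s c else 0) ≤
            ∑' c, if ty ℓ S c = ty ℓ S c₀ then g s c else 0 := by
          rw [e1, sum_TT hℓ.one_lt (hinj S' hTS')]
          refine le_trans ?_ e2
          rw [sum_TT_good hℓ.one_lt (hinj S' hTS')]
          have hH : (0 : ℝ) < H0 ℓ S' (Quotient.out c₀) :=
            lt_of_lt_of_le one_pos (H0_one_le ℓ S' _)
          rw [mul_left_comm]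
          refine mul_le_mul_of_nonneg_left ?_ (by positivity)
          convert h3
        convert fin
      · have e0 : ∀ s c, (if ty ℓ S c = j then f s c else 0) = 0 := by
          intro s c
          split_ifs with h
          · simp only [hf]
            rw [if_neg]
            intro h4
            exact hj ⟨c, h, (forall_near_iff hℓ.pos S₀ η c).1 h4⟩
          · rfl
        have e1 : ∀ s c, (if ty ℓ S c = j then g s c else 0) = 0 := by
          intro s c
          split_ifs with h
          · refine le_antisymm ?_ (hg0 s c)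
            have := e0 s c
            rw [if_pos h] at this
            rw [← this]
            exact hgf s c
          · rfl
        refine Eventually.of_forall fun s => ?_
        have fin : (kap ℓ - ε) * (∑' c, if ty ℓ S c = j then f s c else 0) ≤
            ∑' c, if ty ℓ S c = j then g s c else 0 := by
          simp only [e0, e1, tsum_zero, mul_zero, le_refl]
        convert fin
    · -- H2
      intro ε hε
      obtain ⟨𝓔, h𝓔⟩ := tail_small hM hℓ hS hε
      refine ⟨(ty_finite hℓ S 𝓔).toFinset, ?_⟩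
      filter_upwards [hnear] with s hs
      refine le_trans ?_ (h𝓔 s hs.1 hs.2)
      refine Summable.tsum_le_tsum (fun c => ?_) ?_ ?_
      · by_cases hc : EE ℓ S (Quotient.out c) ∈ 𝓔
        · rw [if_pos ((ty_finite hℓ S 𝓔).mem_toFinset.2 ⟨c, hc, rfl⟩), if_neg (not_not.2 hc)]
        · rw [if_pos hc]
          split_ifs
          · exact htnn c s
          · exact hfh s c
      · refine Summable.of_nonneg_of_le (fun c => ?_) (fun c => ?_) (summable_ht hM hℓ hS hs.1 hs.2)
        · split_ifs
          · exact le_rfl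
          · exact hf0 s c
        · split_ifs
          · exact htnn c s
          · exact hfh s c
      · refine Summable.of_nonneg_of_le (fun c => ?_) (fun c => ?_) (summable_ht hM hℓ hS hs.1 hs.2)
        · by_cases hc : EE ℓ S (Quotient.out c) ∉ 𝓔
          · rw [if_pos hc]; exact htnn c s
          · rw [if_neg hc]
        · by_cases hc : EE ℓ S (Quotient.out c) ∉ 𝓔
          · rw [if_pos hc]
          · rw [if_neg hc]; exact htnn c s

end Pool.Agent.T3h73.SD.Full
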