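import Mathlib

/-!
# Task LNG (helper25), part 1: large isotropic subgroups
-/

set_option autoImplicit false
set_option linter.all false

namespace Pool.Agent.T3h73.SD.LNG

theorem card_dual {ℓ : ℕ} [Fact ℓ.Prime] (W : Type) [AddCommGroup W] [Finite W] [Module (ZMod ℓ) W] :
    Nat.card (W →+ ZMod ℓ) = Nat.card W := by
  haveI : Module.Finite (ZMod ℓ) W := Module.Finite.of_finite
  let b := Module.finBasis (ZMod ℓ) W
  have e1 : (W →+ ZMod ℓ) ≃ (W →ₗ[ZMod ℓ] ZMod ℓ) :=
    { toFun := fun f => f.toZModLinearMap ℓ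
      invFun := fun f => f.toAddMonoidHom
      left_inv := fun f => by ext; rfl
      right_inv := fun f => by ext; rfl }
  exact Nat.card_congr (e1.trans ((b.constr (ZMod ℓ)).symm.toEquiv.trans b.equivFun.symm.toEquiv))

/-- The number of homomorphisms from an elementary abelian group to the cyclic group of order `ℓ`. -/
theorem card_hom_le {ℓ : ℕ} (hℓ : ℓ.Prime) (E : Type) [CommGroup E] [Finite E] (hE : ∀ x : E, x ^ ℓ = 1) :
    Nat.card (E →* Multiplicative (ZMod ℓ)) = Nat.card E := by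
  haveI : Fact ℓ.Prime := ⟨hℓ⟩
  letI : Module (ZMod ℓ) (Additive E) := AddCommGroup.zmodModule (n := ℓ) (fun x => by
    have := hE x.toMul
    exact congrArg Additive.ofMul this)
  have e1 : (E →* Multiplicative (ZMod ℓ)) ≃ (Additive E →+ ZMod ℓ) :=
    MonoidHom.toAdditiveLeft (α := E) (β := ZMod ℓ)
  haveI : Finite (Additive E) := inferInstanceAs (Finite E)
  rw [Nat.card_congr e1, card_dual (ℓ := ℓ) (Additive E)]
  rfl

/-- A subgroup on which the form is trivial, whose index is small. -/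
theorem iso_sub {ℓ : ℕ} (hℓ : ℓ.Prime) {A : Type} [CommGroup A] (P : Subgroup A) (hP0 : P.index ≠ 0)
    (hPl : ∀ a : A, a ^ ℓ ∈ P) (s : A →* A →* Multiplicative (ZMod ℓ)) (hs : ∀ a, s a a = 1)
    (hsP : ∀ a ∈ P, ∀ b, s a b = 1) (r : A) (hr : r ∉ P) (hrr : ∀ b, s r b = 1) :
    ∃ L : Subgroup A, P ≤ L ∧ (∀ a ∈ L, ∀ b ∈ L, s a b = 1) ∧ L.index ^ 2 < P.index := by
  classical
  -- antisymmetry
  have hanti : ∀ a b, s a b * s b a = 1 := by
    intro a b
    have h1 := hs (a * b)
    simp only [map_mul, MonoidHom.mul_apply, hs, one_mul, mul_one] at h1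
    rw [mul_comm]
    exact h1
  have hsymm : ∀ a b, s a b = 1 → s b a = 1 := by
    intro a b h
    have := hanti a b
    rwa [h, one_mul] at this
  -- the maximal isotropic subgroup
  let Q : ℕ → Prop := fun n => ∃ L : Subgroup A, P ≤ L ∧ (∀ a ∈ L, ∀ b ∈ L, s a b = 1) ∧ L.index = n
  have hQ : ∃ n, Q n := ⟨P.index, P, le_rfl, fun a ha b _ => hsP a ha b, rfl⟩
  obtain ⟨L, hPL, hL, hLn⟩ := Nat.find_spec hQ
  have hmin : ∀ L' : Subgroup A, P ≤ L' → (∀ a ∈ L', ∀ b ∈ L', s a b = 1) → L.index ≤ L'.index := by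
    intro L' h1 h2
    rw [hLn]
    exact Nat.find_min' hQ ⟨L', h1, h2, rfl⟩
  have hL0 : L.index ≠ 0 := by
    intro h
    have := Subgroup.index_dvd_of_le hPL
    rw [h, zero_dvd_iff] at this
    exact hP0 this
  -- it is its own orthogonal
  have horth : ∀ x, (∀ y ∈ L, s x y = 1) → x ∈ L := by
    intro x hx
    set L' := L ⊔ Subgroup.zpowers x with hL'
    have hiso : ∀ a ∈ L', ∀ b ∈ L', s a b = 1 := by
      intro a ha b hb
      obtain ⟨a1, ha1, a2, ha2, rfl⟩ := Subgroup.mem_sup.1 ha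
      obtain ⟨b1, hb1, b2, hb2, rfl⟩ := Subgroup.mem_sup.1 hb
      obtain ⟨i, rfl⟩ := Subgroup.mem_zpowers_iff.1 ha2
      obtain ⟨j, rfl⟩ := Subgroup.mem_zpowers_iff.1 hb2
      simp only [map_mul, MonoidHom.mul_apply, map_zpow, MonoidHom.zpow_apply, hL a1 ha1 b1 hb1, hx b1 hb1,
        hsymm _ _ (hx a1 ha1), hs x, one_zpow, mul_one]
    have h1 := hmin L' (hPL.trans le_sup_left) hiso
    have h2 : L.relIndex L' * L'.index = L.index := Subgroup.relIndex_mul_index le_sup_left
    have h3 : L'.index ≠ 0 := by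
      intro h
      rw [h, mul_zero] at h2
      exact hL0 h2.symm
    have h4 : L.relIndex L' = 1 := by
      have h5 : L.relIndex L' ≠ 0 := by
        intro h
        rw [h, zero_mul] at h2
        exact hL0 h2.symm
      by_contra h6
      have h7 : 2 ≤ L.relIndex L' := by omega
      have h8 : 2 * L'.index ≤ L.relIndex L' * L'.index := Nat.mul_le_mul_right _ h7
      omega
    rw [Subgroup.relIndex_eq_one] at h4
    exact h4 (hL' ▸ Subgroup.mem_sup_right (Subgroup.mem_zpowers x))
  have hrL : r ∈ L := horth r fun y _ => hrr y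
  -- the subgroup generated by P and r
  set P' := P ⊔ Subgroup.zpowers r with hP'
  have hP'L : P' ≤ L := sup_le hPL (by rw [Subgroup.zpowers_le]; exact hrL)
  have hP's : ∀ a ∈ P', ∀ b, s a b = 1 := by
    intro a ha b
    obtain ⟨a1, ha1, a2, ha2, rfl⟩ := Subgroup.mem_sup.1 ha
    obtain ⟨i, rfl⟩ := Subgroup.mem_zpowers_iff.1 ha2
    simp only [map_mul, MonoidHom.mul_apply, map_zpow, MonoidHom.zpow_apply, hsP a1 ha1, hrr, one_zpow, mul_one]
  have hP'i : 2 * P'.index ≤ P.index := by
    have h2 : P.relIndex P' * P'.index = P.index := Subgroup.relIndex_mul_index le_sup_left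
    have h5 : P.relIndex P' ≠ 0 := by
      intro h
      rw [h, zero_mul] at h2
      exact hP0 h2.symm
    have h6 : P.relIndex P' ≠ 1 := by
      intro h
      rw [Subgroup.relIndex_eq_one] at h
      exact hr (h (hP' ▸ Subgroup.mem_sup_right (Subgroup.mem_zpowers r)))
    have h7 : 2 ≤ P.relIndex P' := by omega
    rw [← h2]
    exact Nat.mul_le_mul_right _ h7
  have hP'0 : P'.index ≠ 0 := by
    intro h
    have := Subgroup.index_dvd_of_le (show P ≤ P' from le_sup_left)
    rw [h, zero_dvd_iff] at this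
    exact hP0 this
  -- the map
  let E := L ⧸ (P'.subgroupOf L)
  have hEfin : Finite E := by
    have : P'.relIndex L ≠ 0 := by
      intro h
      have h2 : P'.relIndex L * L.index = P'.index := Subgroup.relIndex_mul_index hP'L
      rw [h, zero_mul] at h2
      exact hP'0 h2.symm
    rw [Subgroup.relIndex, Subgroup.index_eq_card] at this
    exact Nat.finite_of_card_ne_zero this
  have hEl : ∀ x : E, x ^ ℓ = 1 := by
    intro x
    obtain ⟨y, rfl⟩ := QuotientGroup.mk_surjective x
    rw [← QuotientGroup.mk_pow, QuotientGroup.eq_one_iff, Subgroup.mem_subgroupOf]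
    exact Subgroup.mem_sup_left (hPl _)
  have hcE : Nat.card E = P'.relIndex L := by
    rw [Subgroup.relIndex, Subgroup.index_eq_card]
  let φ : A → (E →* Multiplicative (ZMod ℓ)) := fun a =>
    QuotientGroup.lift (P'.subgroupOf L) ((s a).comp L.subtype) (fun x hx => by
      rw [Subgroup.mem_subgroupOf] at hx
      exact hsymm _ _ (hP's _ hx a))
  have hφ : ∀ a (y : L), φ a (QuotientGroup.mk y) = s a y := fun a y => rfl
  have hinj : ∀ a b, φ a = φ b → a⁻¹ * b ∈ L := by
    intro a b hab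
    apply horth
    intro y hy
    have h1 := DFunLike.congr_fun hab (QuotientGroup.mk (⟨y, hy⟩ : L) : E)
    rw [hφ, hφ] at h1
    rw [map_mul, map_inv, MonoidHom.mul_apply, MonoidHom.inv_apply]
    simp only at h1
    rw [h1, inv_mul_cancel]
  have hfinHom : Finite (E →* Multiplicative (ZMod ℓ)) := by
    haveI : Fact ℓ.Prime := ⟨hℓ⟩
    haveI : Finite (Multiplicative (ZMod ℓ)) := inferInstanceAs (Finite (ZMod ℓ))
    exact DFunLike.finite _
  have hle : L.index ≤ Nat.card (E →* Multiplicative (ZMod ℓ)) := by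
    rw [Subgroup.index_eq_card]
    refine Nat.card_le_card_of_injective (fun q : A ⧸ L => φ q.out) ?_
    intro p q hpq
    have h1 := hinj _ _ hpq
    rw [← QuotientGroup.eq, QuotientGroup.out_eq', QuotientGroup.out_eq'] at h1
    exact h1
  rw [card_hom_le hℓ E hEl, hcE] at hle
  refine ⟨L, hPL, hL, ?_⟩
  have h2 : P'.relIndex L * L.index = P'.index := Subgroup.relIndex_mul_index hP'L
  have h3 : L.index ^ 2 ≤ P'.index := by
    rw [sq, ← h2]
    exact Nat.mul_le_mul_right _ hle
  omega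

end Pool.Agent.T3h73.SD.LNG
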