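import Pool.Agent.T3h73.SL.T_NRM
import Pool.Agent.T3h73.SL.T_UNR

/-!
# Task LNG (helper25), part 2: norms give trivial symbols; norms from unramified Kummer extensions
-/

set_option autoImplicit false
set_option linter.all false

open scoped TensorProduct
open Polynomial

namespace Pool.Agent.T3h73.SD.LNG

open Pool.Agent.Helper346.Bra Pool.Agent.Helper18.Br Pool.Agent.H552R3.SymBr
open Pool.Agent.T3h73.SL
open Pool.Agent.Y713.SE (Pw)

theorem norm_prod {ℓ : ℕ} {k : Type} [Field k] {ζ : k} (hζ : IsPrimitiveRoot ζ ℓ)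
    {E : Type} [Field E] [Algebra k E] [IsGalois k E] [FiniteDimensional k E]
    (hfr : Module.finrank k E = ℓ) (α : E) (hα : α ≠ 0) (σ : E ≃ₐ[k] E) (hσ : σ α = ζ • α) (c : E) :
    (∏ i ∈ Finset.range ℓ, (σ ^ i) c) = algebraMap k _ (Algebra.norm k c) := by
  rw [Algebra.norm_eq_prod_automorphisms]
  have hσi : ∀ i : ℕ, (σ ^ i) α = ζ ^ i • α := by
    intro i
    induction i with
    | zero => rw [pow_zero, pow_zero, one_smul, AlgEquiv.one_apply]
    | succ i ih => rw [pow_succ', AlgEquiv.mul_apply, ih, map_smul, hσ, smul_smul, pow_succ]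
  have hinj : Function.Injective (fun i : Fin ℓ => σ ^ (i : ℕ)) := by
    intro i j hij
    have h1 := congrArg (fun τ : E ≃ₐ[k] E => τ α) hij
    simp only [hσi] at h1
    have h2 := smul_left_injective k hα h1
    exact Fin.ext (hζ.pow_inj i.2 j.2 h2)
  have hcard : Fintype.card (Fin ℓ) = Fintype.card (E ≃ₐ[k] E) := by
    rw [Fintype.card_fin, ← Nat.card_eq_fintype_card, IsGalois.card_aut_eq_finrank, hfr]
  have hbij := (Fintype.bijective_iff_injective_and_card _).2 ⟨hinj, hcard⟩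
  rw [← hbij.prod_comp (fun τ => τ c), Finset.prod_range]

theorem semi_pow {k : Type} [Field k] {E : Type} [Field E] [Algebra k E] {A : Type} [Ring A] [Algebra k A]
    (σ : E ≃ₐ[k] E) (ev : E →ₐ[k] A) (y : A) (hsemi : ∀ e, y * ev e = ev (σ e) * y) (c : E) (n : ℕ) :
    (ev c * y) ^ n = ev (∏ i ∈ Finset.range n, (σ ^ i) c) * y ^ n := by
  induction n with
  | zero => simp
  | succ n ih =>
    have h1 : (∏ i ∈ Finset.range (n + 1), (σ ^ i) c) = c * σ (∏ i ∈ Finset.range n, (σ ^ i) c) := by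
      rw [Finset.prod_range_succ', map_prod, pow_zero, mul_comm]
      congr 1
      refine Finset.prod_congr rfl fun i _ => ?_
      rw [pow_succ', AlgEquiv.mul_apply]
    rw [pow_succ', ih, h1, map_mul, mul_assoc, ← mul_assoc y, hsemi, pow_succ']
    simp only [mul_assoc]

/-- if `b` is a norm from `k(a ^ (1/ℓ))`, the symbol of `a` and `b` is trivial -/
theorem sym_of_norm {ℓ : ℕ} (hℓ : ℓ.Prime) {k : Type} [Field k] {ζ : k} (hζ : IsPrimitiveRoot ζ ℓ)
    (a b : kˣ) (ha : ¬ IsP ℓ a) (c : AdjoinRoot (X ^ ℓ - C (a : k) : k[X]))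
    (hc : Algebra.norm k c = (b : k)) : symCl hℓ.pos hζ a b = 1 := by
  have hirr : Irreducible (X ^ ℓ - C (a : k) : k[X]) := by
    refine X_pow_sub_C_irreducible_of_prime hℓ fun c hc => ha ?_
    have hc0 : c ≠ 0 := by
      rintro rfl
      rw [zero_pow hℓ.pos.ne'] at hc
      exact a.ne_zero hc.symm
    exact ⟨Units.mk0 c hc0, Units.ext hc.symm⟩
  haveI : Fact (Irreducible (X ^ ℓ - C (a : k) : k[X])) := ⟨hirr⟩
  haveI : NeZero ℓ := ⟨hℓ.pos.ne'⟩
  have hprim : (primitiveRoots ℓ k).Nonempty := ⟨ζ, (mem_primitiveRoots hℓ.pos).2 hζ⟩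
  haveI : IsSplittingField k (AdjoinRoot (X ^ ℓ - C (a : k) : k[X])) (X ^ ℓ - C (a : k)) :=
    isSplittingField_AdjoinRoot_X_pow_sub_C hprim hirr
  haveI : IsGalois k (AdjoinRoot (X ^ ℓ - C (a : k) : k[X])) :=
    isGalois_of_isSplittingField_X_pow_sub_C hprim hirr _
  have hfr : Module.finrank k (AdjoinRoot (X ^ ℓ - C (a : k) : k[X])) = ℓ :=
    finrank_of_isSplittingField_X_pow_sub_C hprim hirr _
  haveI : FiniteDimensional k (AdjoinRoot (X ^ ℓ - C (a : k) : k[X])) :=
    FiniteDimensional.of_finrank_pos (by rw [hfr]; exact hℓ.pos)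
  obtain ⟨σ, hσ⟩ : ∃ σ : AdjoinRoot (X ^ ℓ - C (a : k) : k[X]) ≃ₐ[k] AdjoinRoot (X ^ ℓ - C (a : k) : k[X]),
      σ (AdjoinRoot.root _) = ζ • AdjoinRoot.root _ := by
    refine ⟨autAdjoinRootXPowSubC ℓ (a : k) (rootsOfUnity.mkOfPowEq ζ hζ.pow_eq_one), ?_⟩
    rw [autAdjoinRootXPowSubC_root]
    rfl
  have hroot : AdjoinRoot.root (X ^ ℓ - C (a : k) : k[X]) ≠ 0 := by
    intro h0
    have h1 := AdjoinRoot.eval₂_root (X ^ ℓ - C (a : k) : k[X])
    rw [h0, eval₂_sub, eval₂_pow, eval₂_X, eval₂_C, zero_pow hℓ.pos.ne', zero_sub, neg_eq_zero] at h1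
    exact a.ne_zero ((AdjoinRoot.of (X ^ ℓ - C (a : k) : k[X])).injective (by rw [h1, map_zero]))
  -- the symbol algebra of `a` and `1`
  let x : Symb k ℓ ζ ((a : kˣ) : k) ((1 : kˣ) : k) := gx k ℓ ζ a ((1 : kˣ) : k)
  let y : Symb k ℓ ζ ((a : kˣ) : k) ((1 : kˣ) : k) := gy k ℓ ζ a ((1 : kˣ) : k)
  have hx : x ^ ℓ = algebraMap k _ (a : k) := gx_pow
  have hy : y ^ ℓ = 1 := by
    have : y ^ ℓ = algebraMap k _ ((1 : kˣ) : k) := gy_pow
    rw [this, Units.val_one, map_one]
  have hyx : y * x = ζ • (x * y) := gyx _ _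
  obtain ⟨ev, hev⟩ := Nrm.exists_ev (X ^ ℓ - C (a : k) : k[X]) x
    (by rw [map_sub, map_pow, aeval_X, aeval_C, hx, sub_self])
  have hevr : ev (AdjoinRoot.root (X ^ ℓ - C (a : k) : k[X])) = x := by
    rw [← AdjoinRoot.mk_X, hev, aeval_X]
  have hsemi : ∀ e, y * ev e = ev (σ e) * y := by
    intro e
    induction e using AdjoinRoot.induction_on with
    | ih p =>
      induction p using Polynomial.induction_on' with
      | add p q hp hq => rw [map_add, map_add, map_add, map_add, mul_add, add_mul, hp, hq]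
      | monomial n c =>
        have h1 : AdjoinRoot.mk (X ^ ℓ - C (a : k) : k[X]) (monomial n c) =
            c • AdjoinRoot.root (X ^ ℓ - C (a : k) : k[X]) ^ n := by
          rw [← C_mul_X_pow_eq_monomial, map_mul, map_pow, AdjoinRoot.mk_X, AdjoinRoot.mk_C,
            Algebra.smul_def, AdjoinRoot.algebraMap_eq]
        rw [h1, map_smul, map_smul, map_smul, map_pow, map_pow, map_pow, hσ, hevr, map_smul, hevr,
          _root_.smul_pow, mul_smul_comm, y_xpow hyx, smul_mul_assoc, smul_mul_assoc]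
  have hcomm : ∀ e f, ev e * ev f = ev f * ev e := fun e f => by rw [← map_mul, mul_comm, map_mul]
  have h1 : symCl hℓ.pos hζ a 1 = symCl hℓ.pos hζ a b := by
    refine symCl_eq_of_gens hℓ.pos hζ a 1 a b x (ev c * y) hx ?_ ?_
    · rw [semi_pow σ ev y hsemi, hy, mul_one, norm_prod hζ hfr _ hroot σ hσ c, hc, AlgHom.commutes]
    · rw [mul_assoc, hyx, mul_smul_comm, ← mul_assoc, ← hevr, hcomm, mul_assoc, Algebra.smul_def]
  rw [← h1, symCl_one_right]

/-! ### norms from unramified extensions -/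

section val

variable {k : Type} [Field k] (v : Valuation k (WithZero (Multiplicative ℤ)))

theorem norm_pw {ℓ : ℕ} (hℓ : ℓ.Prime) (g : (v.valuationSubring)[X]) (hgm : g.Monic) (hgn : g.natDegree = ℓ)
    (hirres : Irreducible (g.map (IsLocalRing.residue v.valuationSubring)))
    (G : k[X]) (hG : G = g.map (algebraMap v.valuationSubring k))
    (y : AdjoinRoot G) (hx : Algebra.norm k y ≠ 0) :
    Pw ℓ (v (Algebra.norm k y)) := by
  have hGm : G.Monic := by rw [hG]; exact hgm.map _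
  have hGn : G.natDegree = ℓ := by rw [hG, hgm.natDegree_map, hgn]
  haveI : Nontrivial (AdjoinRoot G) := AdjoinRoot.nontrivial _ (by
    rw [degree_eq_natDegree hGm.ne_zero, hGn]
    exact_mod_cast hℓ.ne_zero)
  haveI : FiniteDimensional k (AdjoinRoot G) := (AdjoinRoot.powerBasis hGm.ne_zero).finite
  obtain ⟨Q, rfl⟩ := AdjoinRoot.mk_surjective y
  have hQ : AdjoinRoot.mk G Q = AdjoinRoot.mk G (Q %ₘ G) := by
    rw [AdjoinRoot.mk_eq_mk]
    exact ⟨Q /ₘ G, by linear_combination -(modByMonic_add_div Q G)⟩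
  rw [hQ] at hx ⊢
  set P := Q %ₘ G with hP
  have hP0 : P ≠ 0 := by
    intro h0
    rw [h0, map_zero, Algebra.norm_zero] at hx
    exact hx rfl
  have hPd : P.natDegree < ℓ := by
    have h1 := degree_modByMonic_lt Q hGm
    rw [← hP, degree_eq_natDegree hP0, degree_eq_natDegree hGm.ne_zero, hGn] at h1
    exact_mod_cast h1
  -- the coefficient of maximal valuation
  obtain ⟨i0, hi0, hmax⟩ := P.support.exists_max_image (fun i => v (P.coeff i))
    (support_nonempty.2 hP0)
  set s := P.coeff i0 with hs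
  have hs0 : s ≠ 0 := mem_support_iff.1 hi0
  have hvs0 : v s ≠ 0 := (Valuation.ne_zero_iff v).2 hs0
  have hle : ∀ i, v (s⁻¹ * P.coeff i) ≤ 1 := by
    intro i
    rw [map_mul, map_inv₀]
    by_cases h1 : i ∈ P.support
    · calc (v s)⁻¹ * v (P.coeff i) ≤ (v s)⁻¹ * v s := mul_le_mul' le_rfl (hmax i h1)
        _ = 1 := inv_mul_cancel₀ hvs0
    · rw [notMem_support_iff.1 h1, map_zero, mul_zero]
      exact zero_le_one
  let P0 : (v.valuationSubring)[X] := ∑ i ∈ Finset.range ℓ, C (⟨s⁻¹ * P.coeff i, (v.mem_valuationSubring_iff _).2 (hle i)⟩ : v.valuationSubring) * X ^ i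
  have hP0c : ∀ i, i < ℓ → P0.coeff i = ⟨s⁻¹ * P.coeff i, (v.mem_valuationSubring_iff _).2 (hle i)⟩ := by
    intro i hi
    simp only [P0, finset_sum_coeff, coeff_C_mul, coeff_X_pow, mul_ite, mul_one, mul_zero]
    rw [Finset.sum_ite_eq, if_pos (Finset.mem_range.2 hi)]
  have hP0d : P0.degree < ℓ := by
    refine lt_of_le_of_lt (degree_sum_le _ _) ?_
    rw [Finset.sup_lt_iff (by exact_mod_cast WithBot.bot_lt_coe ℓ)]
    intro i hi
    refine lt_of_le_of_lt (degree_C_mul_X_pow_le _ _) ?_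
    exact_mod_cast (Finset.mem_range.1 hi)
  have hPP0 : P = C s * P0.map (algebraMap v.valuationSubring k) := by
    ext i
    rw [coeff_C_mul, coeff_map]
    rcases lt_or_ge i ℓ with hi | hi
    · rw [hP0c i hi]
      show P.coeff i = s * (s⁻¹ * P.coeff i)
      rw [← mul_assoc, mul_inv_cancel₀ hs0, one_mul]
    · rw [coeff_eq_zero_of_natDegree_lt (lt_of_lt_of_le hPd hi),
        coeff_eq_zero_of_degree_lt (lt_of_lt_of_le hP0d (by exact_mod_cast hi)), map_zero, mul_zero]
  have hi0l : i0 < ℓ := lt_of_le_of_lt (le_natDegree_of_mem_supp _ hi0) hPd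
  have hres0 : P0.map (IsLocalRing.residue v.valuationSubring) ≠ 0 := by
    intro h0
    have h1 := congrArg (fun q => coeff q i0) h0
    simp only [coeff_map, coeff_zero] at h1
    rw [hP0c i0 hi0l, Unr.res_eq_zero v] at h1
    have h2 : s⁻¹ * P.coeff i0 = 1 := inv_mul_cancel₀ hs0
    simp only [h2, map_one, lt_irrefl] at h1
  have hcop : IsCoprime (g.map (IsLocalRing.residue v.valuationSubring)) (P0.map (IsLocalRing.residue v.valuationSubring)) := by
    rw [hirres.coprime_iff_not_dvd]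
    intro hd
    have h1 := natDegree_le_of_dvd hd hres0
    rw [hgm.natDegree_map, hgn] at h1
    have h2 : (P0.map (IsLocalRing.residue v.valuationSubring)).degree < ℓ := lt_of_le_of_lt degree_map_le hP0d
    rw [degree_eq_natDegree hres0] at h2
    have h3 : (P0.map (IsLocalRing.residue v.valuationSubring)).natDegree < ℓ := by exact_mod_cast h2
    omega
  have hunit := Unr.det_unit (IsLocalRing.residue v.valuationSubring) (fun x hx => by
      by_contra h1
      exact hx ((IsLocalRing.residue_eq_zero_iff x).2 ((IsLocalRing.mem_maximalIdeal x).2 h1)))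
    (algebraMap v.valuationSubring k) Subtype.val_injective ℓ g P0 hgm hgn hcop
  have hnorm : Algebra.norm k (AdjoinRoot.mk G P) = s ^ ℓ * ((aeval (Unr.cm ℓ g) P0).det : v.valuationSubring) := by
    rw [Unr.norm_mk ℓ G hGm hGn, hPP0, map_mul, aeval_C, Matrix.det_mul, Algebra.algebraMap_eq_smul_one,
      Matrix.det_smul, Matrix.det_one, mul_one, Fintype.card_fin, hG, ← Unr.aeval_cm_map]
    congr 1
    exact (RingHom.map_det (algebraMap v.valuationSubring k) _).symm
  rw [hnorm, map_mul, Unr.val_of_isUnit v _ hunit, mul_one, map_pow]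
  exact Pw.pow _

/-- norms from `k(u ^ (1/ℓ))`, where the unit `u` is not an `ℓ`-th power and the elements which are
`1` in the residue field are `ℓ`-th powers -/
theorem norm_tame {ℓ : ℕ} (hℓ : ℓ.Prime) (h1 : ∀ x : kˣ, v ((x : k) - 1) < 1 → IsP ℓ x) (u : kˣ)
    (hu : v (u : k) = 1) (hup : ¬ IsP ℓ u) (y : AdjoinRoot (X ^ ℓ - C (u : k) : k[X]))
    (hy : Algebra.norm k y ≠ 0) : Pw ℓ (v (Algebra.norm k y)) := by
  set O := v.valuationSubring with hO
  let uO : O := ⟨(u : k), (v.mem_valuationSubring_iff _).2 hu.le⟩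
  have hgm : (X ^ ℓ - C uO : O[X]).Monic := monic_X_pow_sub_C uO hℓ.ne_zero
  have hgn : (X ^ ℓ - C uO : O[X]).natDegree = ℓ := natDegree_X_pow_sub_C
  have hG : (X ^ ℓ - C uO : O[X]).map (algebraMap O k) = X ^ ℓ - C (u : k) := by
    rw [Polynomial.map_sub, Polynomial.map_pow, map_X, map_C]
    rfl
  have hirr : Irreducible ((X ^ ℓ - C uO : O[X]).map (IsLocalRing.residue O)) := by
    rw [Polynomial.map_sub, Polynomial.map_pow, map_X, map_C]
    refine X_pow_sub_C_irreducible_of_prime hℓ fun b hb => hup ?_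
    obtain ⟨b, rfl⟩ := IsLocalRing.residue_surjective b
    have e1 : IsLocalRing.residue O (b ^ ℓ - uO) = 0 := by rw [map_sub, map_pow, hb, sub_self]
    rw [Unr.res_eq_zero v] at e1
    have e2 : ((b ^ ℓ - uO : O) : k) = (b : k) ^ ℓ - u := rfl
    rw [e2] at e1
    have e3 : v ((b : k) ^ ℓ) = 1 := by
      have : (b : k) ^ ℓ = ((b : k) ^ ℓ - u) + u := by ring
      rw [this, Valuation.map_add_eq_of_lt_right _ (by rw [hu]; exact e1), hu]
    have hb0 : (b : k) ≠ 0 := by
      intro h0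
      rw [h0, zero_pow hℓ.ne_zero, map_zero] at e3
      exact zero_ne_one e3
    have e4 : IsP ℓ (u * (Units.mk0 (b : k) hb0 ^ ℓ)⁻¹) := by
      apply h1
      rw [Units.val_mul, Units.val_inv_eq_inv_val, Units.val_pow_eq_pow_val, Units.val_mk0]
      have e5 : (u : k) * ((b : k) ^ ℓ)⁻¹ - 1 = -(((b : k) ^ ℓ - u) * ((b : k) ^ ℓ)⁻¹) := by
        rw [sub_mul, mul_inv_cancel₀ (pow_ne_zero _ hb0)]
        ring
      rw [e5, Valuation.map_neg, map_mul, map_inv₀, e3, inv_one, mul_one]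
      exact e1
    obtain ⟨z, hz⟩ := e4
    refine ⟨z * Units.mk0 (b : k) hb0, ?_⟩
    rw [mul_pow, ← hz, inv_mul_cancel_right]
  exact norm_pw v hℓ (X ^ ℓ - C uO) hgm hgn hirr _ hG.symm y hy

end val

end Pool.Agent.T3h73.SD.LNG
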