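import Pool.Agent.T3h73.SL.Stm

/-!
# Project SD (helper73, MP_a43263): the distribution of the Selmer groups. Part R: reciprocity

`ℓ` is an odd prime, `K` a number field containing a primitive `ℓ`-th root of unity. The aim of part R
is the reciprocity law for the Kummer symbols of degree `ℓ` (up to a factor at every place), `S_REC`.
-/

set_option autoImplicit false
set_option linter.all false

open NumberField IsDedekindDomain Polynomial Filter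

namespace Pool.Agent.T3h73.SD

open Pool.Agent.T3h73.SL (Pl IsP Pk loc Evn Sg)
open Pool.Agent.Y713.SE (Pw)
open Pool.Agent.Y773.G (IsModChar)

/-- the values of the characters: the cyclic group of order `ℓ`, written multiplicatively -/
abbrev Mu (ℓ : ℕ) : Type := Multiplicative (ZMod ℓ)

section
variable (ℓ : ℕ) {K : Type} [Field K] [NumberField K]

/-- `x` is a norm from `K_v(w ^ (1/ℓ))` -/
def LN (v : Pl K) (w x : Kˣ) : Prop :=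
  IsP ℓ (loc v w) ∨ ∃ c : AdjoinRoot (X ^ ℓ - C ((loc v w : (v.adicCompletion K)ˣ) :
      v.adicCompletion K) : (v.adicCompletion K)[X]),
    Algebra.norm (v.adicCompletion K) c = ((loc v x : (v.adicCompletion K)ˣ) : v.adicCompletion K)

/-- a character of order `ℓ` of the ideles which is trivial on `K^*`, as a family of local characters,
given on the dense subgroups `K^*` of the `K_v^*`: they are trivial on the local `ℓ`-th powers, almost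
all of them are trivial on the elements of valuation divisible by `ℓ`, and they satisfy the product
formula -/
structure GC (χ : Pl K → (Kˣ →* Mu ℓ)) : Prop where
  loc : ∀ v x, IsP ℓ (loc v x) → χ v x = 1
  unr : {v : Pl K | ¬ ∀ x : Kˣ, Pw ℓ (v.valuation K (x : K)) → χ v x = 1}.Finite
  prod : ∀ x : Kˣ, ∏ᶠ v : Pl K, χ v x = 1

/-- the places with property `P` have density `d` among all places -/
def Dens (P : Pl K → Prop) (d : ℝ) : Prop :=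
  Tendsto (fun x : ℝ => (∑ᶠ q ∈ {q : Pl K | (Ideal.absNorm q.asIdeal : ℝ) ≤ x ∧ P q},
    Real.log (Ideal.absNorm q.asIdeal)) / x) atTop (nhds d)

/-- the order of `K_T^* / K_T^{*ℓ}` -/
noncomputable def VT (T : Finset (Pl K)) : ℕ := ∏ v ∈ T, (Pk ℓ (v.adicCompletion K)ˣ).index

/-- the order of the group of the elements of valuation divisible by `ℓ` outside `T`, modulo
`ℓ`-th powers -/
noncomputable def LT (T : Finset (Pl K)) : ℕ := (Pk ℓ Kˣ).relIndex (Sg ℓ T (fun _ => ⊤))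

end

/-- LNG: local norms and the local symbol -/
def S_LNG : Prop := ∀ (ℓ : ℕ) (_ : ℓ.Prime) (_ : ℓ ≠ 2) (K : Type) [Field K] [NumberField K] (ζ : K)
  (_ : IsPrimitiveRoot ζ ℓ) (v : Pl K), ∃ (G : Type 1) (_ : CommGroup G) (s : Kˣ →* Kˣ →* G),
    (∀ w x : Kˣ, s w x = 1 ↔ LN ℓ v w x) ∧ (∀ w x : Kˣ, s w x ^ ℓ = 1) ∧
    (∀ w : Kˣ, s w w = 1) ∧ (∀ w x : Kˣ, IsP ℓ (loc v x) → s w x = 1) ∧
    (v.valuation K (ℓ : K) = 1 → ∀ w x : Kˣ, Pw ℓ (v.valuation K (w : K)) →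
      Pw ℓ (v.valuation K (x : K)) → s w x = 1) ∧
    ∀ w : Kˣ, (∀ x : Kˣ, s w x = 1) → IsP ℓ (loc v w)

/-- HERB: the Herbrand quotient of a finitely generated abelian group with an automorphism of prime
order; generalises `Pool.Agent.Helper832_EG.abs_herb` (the case `t = 0`) -/
def S_HERB : Prop := ∀ (U : Type) [CommGroup U] [Module.Finite ℤ (Additive U)] (p : ℕ)
  (_ : p.Prime) (s δ ν : U →* U), (∀ u, s^[p] u = u) → (∀ u, δ u = s u / u) →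
  (∀ u, ν u = ∏ i ∈ Finset.range p, s^[i] u) → ∀ t : ℕ,
  Module.finrank ℤ (Additive U) + (p - 1) * t + 1 =
    p * (Module.finrank ℤ (Additive δ.ker) + 1) →
  p * ν.range.relIndex δ.ker ≤ p ^ t * δ.range.relIndex ν.ker ∧ ν.range.relIndex δ.ker ≠ 0

/-- TUN: the units outside `T` (`T` contains the places above `ℓ`, the places where `w` is not of
valuation divisible by `ℓ`, and its classes generate the class group): the index of the norms from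
`M = K(w ^ (1/ℓ))` -/
def S_TUN : Prop := ∀ (ℓ : ℕ) (_ : ℓ.Prime) (_ : ℓ ≠ 2) (K : Type) [Field K] [NumberField K] (ζ : K)
  (_ : IsPrimitiveRoot ζ ℓ) (w : Kˣ) (_ : ¬ IsP ℓ w) (T : Finset (Pl K)),
  (∀ v, v.valuation K (ℓ : K) ≠ 1 → v ∈ T) → (∀ v, v ∉ T → Pw ℓ (v.valuation K (w : K))) →
  (∀ m : Pl K → ℤ, {v | m v ≠ 0}.Finite →
    ∃ x : Kˣ, ∀ v, v ∉ T → v.valuation K (x : K) = WithZero.exp (-(m v))) →
  ∀ (M : Type) [Field M] [NumberField M] [Algebra K M] (r : M), r ^ ℓ = algebraMap K M (w : K) →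
  Module.finrank K M = ℓ →
  ∀ (E N : Subgroup Kˣ), (∀ x : Kˣ, x ∈ E ↔ ∀ v, v ∉ T → v.valuation K (x : K) = 1) →
    (∀ x : Kˣ, x ∈ N ↔ ∃ z : M, (∀ P : Pl M, (∀ v ∈ T, ¬ v.asIdeal.map (algebraMap (𝓞 K) (𝓞 M)) ≤
      P.asIdeal) → P.valuation M z = 1) ∧ Algebra.norm K z = (x : K)) →
    ℓ * N.relIndex E ≤ ℓ ^ (Nat.card {v : T // ¬ IsP ℓ (loc (v : Pl K) w)}) ∧ N.relIndex E ≠ 0

/-- FI: the first inequality: a character which is trivial on the norms -/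
def S_FI : Prop := ∀ (ℓ : ℕ) (_ : ℓ.Prime) (_ : ℓ ≠ 2) (K : Type) [Field K] [NumberField K] (ζ : K)
  (_ : IsPrimitiveRoot ζ ℓ) (w : Kˣ), ¬ IsP ℓ w → ∃ χ : Pl K → (Kˣ →* Mu ℓ), GC ℓ χ ∧
    (∀ v x, LN ℓ v w x → χ v x = 1) ∧ ∃ v x, χ v x ≠ 1

/-- MOD: the ray class characters given by a character `χ`; `T` contains the places above `ℓ`, `B` the
other places where `χ` is ramified -/
def S_MOD : Prop := ∀ (ℓ : ℕ) (_ : ℓ.Prime) (_ : ℓ ≠ 2) (K : Type) [Field K] [NumberField K] (ζ : K)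
  (_ : IsPrimitiveRoot ζ ℓ) (T : Finset (Pl K)), (∀ v, v.valuation K (ℓ : K) ≠ 1 → v ∈ T) →
  T.Nonempty → ∃ 𝔪 : Ideal (𝓞 K), 𝔪 ≠ ⊥ ∧ 𝔪 ≠ ⊤ ∧ (∀ v : Pl K, IsCoprime v.asIdeal 𝔪 ↔ v ∉ T) ∧
  ∀ (B : Finset (Pl K)), Disjoint B T → ∀ χ : Pl K → (Kˣ →* Mu ℓ), GC ℓ χ →
    (∀ v, v ∉ T → v ∉ B → ∀ x : Kˣ, Pw ℓ (v.valuation K (x : K)) → χ v x = 1) →
    ∃ η : Ideal (𝓞 K) →*₀ ℂ, IsModChar (𝔪 * ∏ b ∈ B, b.asIdeal) (fun _ => 0) η ∧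
      (∀ 𝔞, IsCoprime 𝔞 (𝔪 * ∏ b ∈ B, b.asIdeal) → η 𝔞 ^ ℓ = 1) ∧
      (∀ q : Pl K, q ∉ T → q ∉ B → ∀ π : Kˣ, q.valuation K (π : K) = WithZero.exp (-1 : ℤ) →
        ∃ a : ℕ, χ q π = Multiplicative.ofAdd (a : ZMod ℓ) ∧
          η q.asIdeal = Complex.exp (2 * Real.pi * Complex.I * a / ℓ)) ∧
      ((∃ v x, χ v x ≠ 1) → ∃ 𝔞, IsCoprime 𝔞 (𝔪 * ∏ b ∈ B, b.asIdeal) ∧ η 𝔞 ≠ 1) ∧
      ((∃ b ∈ B, ∃ x : Kˣ, b.valuation K (x : K) = 1 ∧ χ b x ≠ 1) → ∃ α : 𝓞 K,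
        IsCoprime (Ideal.span {α}) (𝔪 * ∏ b ∈ B, b.asIdeal) ∧ η (Ideal.span {α}) ≠ 1)

/-- DK: the places at which `w₁` (and `w₂`) are `ℓ`-th powers -/
def S_DK : Prop := ∀ (ℓ : ℕ) (_ : ℓ.Prime) (K : Type) [Field K] [NumberField K] (ζ : K)
  (_ : IsPrimitiveRoot ζ ℓ) (w₁ w₂ : Kˣ), ¬ IsP ℓ w₁ →
  Dens (fun q : Pl K => IsP ℓ (loc q w₁)) (1 / ℓ) ∧
  ((∀ a b : ℕ, IsP ℓ (w₁ ^ a * w₂ ^ b) → ℓ ∣ a ∧ ℓ ∣ b) →
    Dens (fun q : Pl K => IsP ℓ (loc q w₁) ∧ IsP ℓ (loc q w₂)) (1 / ℓ ^ 2))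

/-- DC: the places at which several characters are trivial -/
def S_DC : Prop := ∀ (ℓ : ℕ) (_ : ℓ.Prime) (_ : ℓ ≠ 2) (K : Type) [Field K] [NumberField K] (ζ : K)
  (_ : IsPrimitiveRoot ζ ℓ) (r : ℕ) (χ : Fin r → Pl K → (Kˣ →* Mu ℓ)), (∀ i, GC ℓ (χ i)) →
  (∀ a : Fin r → ℕ, (∀ v x, ∏ i, (χ i v x) ^ a i = 1) → ∀ i, ℓ ∣ a i) →
  Dens (fun q : Pl K => ∀ i x, χ i q x = 1) (1 / ℓ ^ r)

/-- FTPG: a map which respects independence and collinearity is, up to scalars, linear -/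
def S_FTPG : Prop := ∀ (ℓ : ℕ) [Fact ℓ.Prime] (V W : Type) [AddCommGroup V] [Module (ZMod ℓ) V]
  [AddCommGroup W] [Module (ZMod ℓ) W] (f : V → W), (∀ v, v ≠ 0 → f v ≠ 0) →
  (∀ v₁ v₂ : V, LinearIndependent (ZMod ℓ) ![v₁, v₂] → LinearIndependent (ZMod ℓ) ![f v₁, f v₂]) →
  (∀ v₁ v₂ v₃ : V, LinearIndependent (ZMod ℓ) ![v₁, v₂] → v₃ ≠ 0 →
    v₃ ∈ Submodule.span (ZMod ℓ) {v₁, v₂} → f v₃ ∈ Submodule.span (ZMod ℓ) {f v₁, f v₂}) →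
  (∃ v : Fin 3 → V, LinearIndependent (ZMod ℓ) v) →
  ∃ Φ : V →ₗ[ZMod ℓ] W, ∀ v, v ≠ 0 → Φ v ≠ 0 ∧ ∃ a : ZMod ℓ, Φ v = a • f v

/-- PHI: characters attached linearly to the elements of `K^*` -/
def S_PHI : Prop := ∀ (ℓ : ℕ) (_ : ℓ.Prime) (_ : ℓ ≠ 2) (K : Type) [Field K] [NumberField K] (ζ : K)
  (_ : IsPrimitiveRoot ζ ℓ), ∃ ψ : Pl K → (Kˣ →* Kˣ →* Mu ℓ), ∀ w : Kˣ, GC ℓ (fun v => ψ v w) ∧
    (∀ v x, LN ℓ v w x → ψ v w x = 1) ∧ ((∀ v x, ψ v w x = 1) → IsP ℓ w)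

/-- VV: the order of `K_v^* / K_v^{*ℓ}` at the places above `ℓ` -/
def S_VV : Prop := ∀ (ℓ : ℕ) (_ : ℓ.Prime) (K : Type) [Field K] [NumberField K] (ζ : K)
  (_ : IsPrimitiveRoot ζ ℓ) (v : Pl K) (e : ℕ), v.valuation K (ℓ : K) = WithZero.exp (-(e : ℤ)) →
  (Pk ℓ (v.adicCompletion K)ˣ).index = ℓ ^ 2 * Ideal.absNorm v.asIdeal ^ e

/-- CARD: the exact orders for large finite sets `T` of places -/
def S_CARD : Prop := ∀ (ℓ : ℕ) (_ : ℓ.Prime) (_ : ℓ ≠ 2) (K : Type) [Field K] [NumberField K] (ζ : K)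
  (_ : IsPrimitiveRoot ζ ℓ), ∃ T₀ : Finset (Pl K), (∀ v, v.valuation K (ℓ : K) ≠ 1 → v ∈ T₀) ∧
    ∀ T : Finset (Pl K), T₀ ⊆ T →
    (∀ m : Pl K → ℤ, {v | m v ≠ 0}.Finite →
      ∃ x : Kˣ, ∀ v, v ∉ T → v.valuation K (x : K) = WithZero.exp (-(m v))) ∧
    LT ℓ T ≠ 0 ∧ LT ℓ T ^ 2 = VT ℓ T

/-- REC: reciprocity for the Kummer symbols, with a factor at every place -/
def S_REC : Prop := ∀ (ℓ : ℕ) (_ : ℓ.Prime) (_ : ℓ ≠ 2) (K : Type) [Field K] [NumberField K] (ζ : K)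
  (_ : IsPrimitiveRoot ζ ℓ), ∃ ψ : Pl K → (Kˣ →* Kˣ →* Mu ℓ),
    (∀ v w x, LN ℓ v w x → ψ v w x = 1) ∧
    (∀ v w x, IsP ℓ (loc v x) → ψ v w x = 1) ∧ (∀ v w x, IsP ℓ (loc v w) → ψ v w x = 1) ∧
    (∀ v w, ψ v w w = 1) ∧
    (∀ v, v.valuation K (ℓ : K) = 1 → ∀ w x : Kˣ, Pw ℓ (v.valuation K (w : K)) →
      Pw ℓ (v.valuation K (x : K)) → ψ v w x = 1) ∧
    (∀ w x, ∏ᶠ v, ψ v w x = 1) ∧ ∀ v w, (∀ x, ψ v w x = 1) → IsP ℓ (loc v w)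

end Pool.Agent.T3h73.SD
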