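import Pool.Agent.T3h73.SD.LngA
import Pool.Agent.T3h73.SD.LngB
import Pool.Agent.T3h73.SD.Stm
import Pool.Agent.T3h73.SL.T_BIG
import Pool.Agent.T3h73.SL.T_TAM
import Pool.Agent.T3h73.SL.T_LOCC

/-!
# Task LNG (helper25), part 3: the symbol over a local field
-/

set_option autoImplicit false
set_option linter.all false

open Polynomial NumberField IsDedekindDomain WithZero

namespace Pool.Agent.T3h73.SD.LNG

open Pool.Agent.H552R3.SymBr
open Pool.Agent.T3h73.SL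
open Pool.Agent.Y713.SE (Pw)

section field

variable {ℓ : ℕ} (hℓ : ℓ.Prime) {k : Type} [Field k] {ζ : k} (hζ : IsPrimitiveRoot ζ ℓ)

theorem sym_pow_right (a b : kˣ) : symCl hℓ.pos hζ a (b ^ ℓ) = 1 := by
  have h2 : symR hℓ.pos hζ a (b ^ ℓ) = symR hℓ.pos hζ a b ^ ℓ := map_pow _ _ _
  have h3 : symR hℓ.pos hζ a (b ^ ℓ) = symCl hℓ.pos hζ a (b ^ ℓ) := rfl
  have h4 : symR hℓ.pos hζ a b = symCl hℓ.pos hζ a b := rfl
  rw [h3, h4, Big.symCl_pow_n] at h2
  exact h2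

theorem sym_pow_left (a b : kˣ) : symCl hℓ.pos hζ (a ^ ℓ) b = 1 := by
  rw [symCl_anti, sym_pow_right hℓ hζ, inv_one]

theorem sym_left_of_isP (a b : kˣ) (ha : IsP ℓ a) : symCl hℓ.pos hζ a b = 1 := by
  obtain ⟨z, rfl⟩ := ha
  exact sym_pow_left hℓ hζ z b

theorem sym_right_of_isP (a b : kˣ) (hb : IsP ℓ b) : symCl hℓ.pos hζ a b = 1 := by
  obtain ⟨z, rfl⟩ := hb
  exact sym_pow_right hℓ hζ a z

theorem sym_self (hℓ2 : ℓ ≠ 2) (a : kˣ) : symCl hℓ.pos hζ a a = 1 := by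
  rcases symCl_diag hℓ.pos hζ a with h | h
  · exact h
  · rw [h]
    refine sym_right_of_isP hℓ hζ a (-1) ⟨-1, ?_⟩
    rw [Odd.neg_one_pow (hℓ.odd_of_ne_two hℓ2)]

theorem sym_iff (a b : kˣ) : symCl hℓ.pos hζ a b = 1 ↔
    (IsP ℓ a ∨ ∃ c : AdjoinRoot (X ^ ℓ - C (a : k) : k[X]), Algebra.norm k c = (b : k)) := by
  by_cases ha : IsP ℓ a
  · exact ⟨fun _ => Or.inl ha, fun _ => sym_left_of_isP hℓ hζ a b ha⟩
  · constructor
    · intro h
      exact Or.inr (Nrm.t_NRM ℓ hℓ k ζ hζ a b ha h)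
    · rintro (h | ⟨c, hc⟩)
      · exact absurd h ha
      · exact sym_of_norm hℓ hζ a b ha c hc

end field

theorem exists_func0 {ℓ : ℕ} [Fact ℓ.Prime] (W : Type*) [AddCommGroup W] [Module (ZMod ℓ) W] (w : W)
    (hw : w ≠ 0) : ∃ f : W →+ ZMod ℓ, f w ≠ 0 := by
  by_contra hn
  push Not at hn
  exact hw ((Module.forall_dual_apply_eq_zero_iff (ZMod ℓ) _).1 fun φ => hn φ.toAddMonoidHom)

/-- the functional which does not kill `g` -/
theorem exists_func {ℓ : ℕ} (hℓ : ℓ.Prime) (T : Type 1) [CommGroup T] (h : ∀ t : T, t ^ ℓ = 1) (g : T) (hg : g ≠ 1) :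
    ∃ f : T →* Multiplicative (ZMod ℓ), f g ≠ 1 := by
  haveI : Fact ℓ.Prime := ⟨hℓ⟩
  letI : Module (ZMod ℓ) (Additive T) := AddCommGroup.zmodModule (n := ℓ) (fun x => by
    have := h x.toMul
    exact congrArg Additive.ofMul this)
  obtain ⟨φ, hφ⟩ := exists_func0 (ℓ := ℓ) (Additive T) (Additive.ofMul g) (fun h => hg (Additive.ofMul.injective h))
  refine ⟨MonoidHom.mk' (fun t => Multiplicative.ofAdd (φ (Additive.ofMul t))) (fun a b => ?_), ?_⟩
  · rw [ofMul_mul, map_add, ofAdd_add]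
  · intro h2
    exact hφ (Multiplicative.ofAdd.injective h2)

/-- composition of a pairing with values in the `ℓ`-torsion with a functional -/
def push {A G M : Type*} [CommGroup A] [CommGroup G] [CommGroup M] {ℓ : ℕ} (s : A → A → G)
    (hl : ∀ a b c, s (a * b) c = s a c * s b c) (hr : ∀ a b c, s a (b * c) = s a b * s a c)
    (h : ∀ a b, s a b ^ ℓ = 1) (f : (powMonoidHom ℓ : G →* G).ker →* M) : A →* A →* M :=
  MonoidHom.mk' (fun a => MonoidHom.mk' (fun b => f ⟨s a b, h a b⟩) (fun b c => by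
    rw [← map_mul]
    congr 1
    exact Subtype.ext (hr a b c))) (fun a b => by
      ext c
      simp only [MonoidHom.mk'_apply, MonoidHom.mul_apply]
      rw [← map_mul]
      congr 1
      exact Subtype.ext (hl a b c))

theorem push_apply {A G M : Type*} [CommGroup A] [CommGroup G] [CommGroup M] {ℓ : ℕ} (s : A → A → G)
    (hl : ∀ a b c, s (a * b) c = s a c * s b c) (hr : ∀ a b c, s a (b * c) = s a b * s a c)
    (h : ∀ a b, s a b ^ ℓ = 1) (f : (powMonoidHom ℓ : G →* G).ker →* M) (a b : A) :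
    push s hl hr h f a b = f ⟨s a b, h a b⟩ := rfl

end Pool.Agent.T3h73.SD.LNG
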