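import Pool.Agent.T3h73.SD.Stm4
import Pool.Agent.T3h73.SL.Asm
import Pool.Agent.T3h73.SL.T_ISO
import Pool.Agent.T3h73.SL.T_SYM1
import Pool.Agent.T3h73.SL.T_NRM

/-! Project SD, task MDL (helper87): preparations. -/

set_option autoImplicit false
set_option linter.all false

open NumberField IsDedekindDomain Polynomial

namespace Pool.Agent.T3h73.SD.MDL

open Pool.Agent.T3h73.SL (Pl IsP Pk loc Good2 LC Sg Evn Lo val_loc)
open Pool.Agent.Y713.SE (Pw)

variable {ℓ : ℕ} {K : Type} [Field K] [NumberField K]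

/-! ## orders -/

/-- the logarithm of the valuation -/
noncomputable def od (v : Pl K) (x : Kˣ) : ℤ := WithZero.log (v.valuation K (x : K))

theorem val_od (v : Pl K) (x : Kˣ) : v.valuation K (x : K) = WithZero.exp (od v x) :=
  (WithZero.exp_log ((Valuation.ne_zero_iff _).2 x.ne_zero)).symm

theorem od_eq {v : Pl K} {x : Kˣ} {n : ℤ} (h : v.valuation K (x : K) = WithZero.exp n) :
    od v x = n := by
  unfold od
  rw [h, WithZero.log_exp]

theorem val_one_iff (v : Pl K) (x : Kˣ) : v.valuation K (x : K) = 1 ↔ od v x = 0 := by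
  constructor
  · intro h
    unfold od
    rw [h, WithZero.log_one]
  · intro h
    rw [val_od, h, WithZero.exp_zero]

/-- as a homomorphism -/
noncomputable def odh (v : Pl K) : Kˣ →* Multiplicative ℤ where
  toFun x := Multiplicative.ofAdd (od v x)
  map_one' := by
    have : od v (1 : Kˣ) = 0 := (val_one_iff v 1).1 (by rw [Units.val_one, map_one])
    rw [this, ofAdd_zero]
  map_mul' x y := by
    have hx : v.valuation K (x : K) ≠ 0 := (Valuation.ne_zero_iff _).2 x.ne_zero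
    have hy : v.valuation K (y : K) ≠ 0 := (Valuation.ne_zero_iff _).2 y.ne_zero
    unfold od
    rw [Units.val_mul, map_mul, WithZero.log_mul hx hy, ofAdd_add]

theorem odh_apply (v : Pl K) (x : Kˣ) : odh v x = Multiplicative.ofAdd (od v x) := rfl

theorem od_mul (v : Pl K) (x y : Kˣ) : od v (x * y) = od v x + od v y :=
  Multiplicative.ofAdd.injective ((odh v).map_mul x y)

theorem od_inv (v : Pl K) (x : Kˣ) : od v x⁻¹ = - od v x :=
  Multiplicative.ofAdd.injective ((odh v).map_inv x)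

theorem od_pow (v : Pl K) (x : Kˣ) (n : ℕ) : od v (x ^ n) = n * od v x := by
  have h := (odh v).map_pow x n
  rw [odh_apply, odh_apply, ← ofAdd_nsmul, nsmul_eq_mul] at h
  exact Multiplicative.ofAdd.injective h

theorem od_zpow (v : Pl K) (x : Kˣ) (n : ℤ) : od v (x ^ n) = n * od v x := by
  have h := (odh v).map_zpow x n
  rw [odh_apply, odh_apply, ← ofAdd_zsmul, zsmul_eq_mul] at h
  exact Multiplicative.ofAdd.injective h

theorem od_prod {ι : Type} (v : Pl K) (s : Finset ι) (f : ι → Kˣ) :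
    od v (∏ i ∈ s, f i) = ∑ i ∈ s, od v (f i) := by
  have h := map_prod (odh v) f s
  simp only [odh_apply] at h
  rw [← ofAdd_sum] at h
  exact Multiplicative.ofAdd.injective h

theorem pw_exp' (hℓ : 0 < ℓ) (n : ℤ) : Pw ℓ (WithZero.exp n) ↔ (ℓ : ℤ) ∣ n := by
  constructor
  · rintro ⟨β, hβ⟩
    have hβ0 : β ≠ 0 := by
      rintro rfl
      rw [zero_pow hℓ.ne'] at hβ
      exact WithZero.exp_ne_zero hβ
    rw [← WithZero.exp_log hβ0, ← WithZero.exp_nsmul, WithZero.exp_inj] at hβ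
    exact ⟨WithZero.log β, by rw [hβ, nsmul_eq_mul]⟩
  · rintro ⟨k, rfl⟩
    exact ⟨WithZero.exp k, by rw [← WithZero.exp_nsmul, nsmul_eq_mul]⟩

theorem pw_od (hℓ : 0 < ℓ) (v : Pl K) (x : Kˣ) :
    Pw ℓ (v.valuation K (x : K)) ↔ (ℓ : ℤ) ∣ od v x := by
  rw [val_od, pw_exp' hℓ]

theorem dvd_of_isP {v : Pl K} {x : Kˣ} (hℓ : 0 < ℓ) (h : IsP ℓ (loc v x)) : (ℓ : ℤ) ∣ od v x := by
  rw [← pw_od hℓ, ← val_loc]
  obtain ⟨z, hz⟩ := h
  rw [hz, Units.val_pow_eq_pow_val, map_pow]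
  exact Pw.pow _

/-! ## symbols -/

section sv
variable {sv : Pl K → Kˣ → Kˣ → ZMod ℓ} (H : Sv ℓ K sv)
include H

theorem sl_pow (v : Pl K) (x y : Kˣ) (m : ℕ) : sv v (x ^ m) y = m * sv v x y := by
  let f : Kˣ →* Multiplicative (ZMod ℓ) :=
    MonoidHom.mk' (fun x => Multiplicative.ofAdd (sv v x y)) fun a b => by
      rw [H.mul_left, ofAdd_add]
  have h := f.map_pow x m
  have h2 : Multiplicative.ofAdd (sv v (x ^ m) y) = Multiplicative.ofAdd (m • sv v x y) := by
    rw [ofAdd_nsmul]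
    exact h
  rw [Multiplicative.ofAdd.injective h2, nsmul_eq_mul]

theorem sl_one (v : Pl K) (y : Kˣ) : sv v 1 y = 0 := by
  have h := H.mul_left v 1 1 y
  rw [mul_one] at h
  exact left_eq_add.1 h

theorem sl_inv (v : Pl K) (x y : Kˣ) : sv v x⁻¹ y = - sv v x y := by
  have h := H.mul_left v x⁻¹ x y
  rw [inv_mul_cancel, sl_one H] at h
  exact eq_neg_of_add_eq_zero_left h.symm

theorem sl_zpow (v : Pl K) (x y : Kˣ) (m : ℤ) : sv v (x ^ m) y = m * sv v x y := by
  obtain ⟨n, rfl | rfl⟩ := m.eq_nat_or_neg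
  · rw [zpow_natCast, sl_pow H, Int.cast_natCast]
  · rw [zpow_neg, zpow_natCast, sl_inv H, sl_pow H, Int.cast_neg, Int.cast_natCast, neg_mul]

theorem sl_prod {ι : Type} (v : Pl K) (s : Finset ι) (f : ι → Kˣ) (y : Kˣ) :
    sv v (∏ i ∈ s, f i) y = ∑ i ∈ s, sv v (f i) y := by
  classical
  induction s using Finset.induction_on with
  | empty => rw [Finset.prod_empty, Finset.sum_empty, sl_one H]
  | insert a s ha ih => rw [Finset.prod_insert ha, Finset.sum_insert ha, H.mul_left, ih]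

theorem s_anti (v : Pl K) (x y : Kˣ) : sv v x y = - sv v y x := by
  have h := H.alt v (x * y)
  rw [H.mul_left, H.mul_right, H.mul_right, H.alt, H.alt, zero_add, add_zero] at h
  exact eq_neg_of_add_eq_zero_left h

theorem sr_inv (v : Pl K) (x y : Kˣ) : sv v x y⁻¹ = - sv v x y := by
  rw [s_anti H, sl_inv H, s_anti H v y x, neg_neg]

theorem sr_zpow (v : Pl K) (x y : Kˣ) (m : ℤ) : sv v x (y ^ m) = m * sv v x y := by
  rw [s_anti H, sl_zpow H, s_anti H v y x, mul_neg, neg_neg]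

theorem sl_of_isP {v : Pl K} {x x' : Kˣ} (y : Kˣ) (h : IsP ℓ (loc v (x * x'⁻¹))) :
    sv v x y = sv v x' y := by
  have h1 := H.pow_left v (x * x'⁻¹) y h
  rw [H.mul_left, sl_inv H] at h1
  exact add_neg_eq_zero.1 h1

/-- the local conditions are isotropic -/
theorem isoLC (hℓ : ℓ.Prime) (hℓ2 : ℓ ≠ 2) {ζ : K} (hζ : IsPrimitiveRoot ζ ℓ) (v : Pl K)
    (η x y : Kˣ) (hx : loc v x ∈ LC ℓ v (loc v η)) (hy : loc v y ∈ LC ℓ v (loc v η)) :
    sv v x y = 0 := by
  by_cases h1 : v.valuation K (ℓ : K) = 1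
  · unfold LC at hx hy
    rw [if_neg (not_not.2 h1)] at hx hy
    by_cases h2 : Pw ℓ (Valued.v ((loc v η : (v.adicCompletion K)ˣ) : v.adicCompletion K))
    · rw [if_pos h2] at hx hy
      have hx' : Pw ℓ (v.valuation K (x : K)) := by
        rw [← val_loc]; exact hx
      have hy' : Pw ℓ (v.valuation K (y : K)) := by
        rw [← val_loc]; exact hy
      exact H.unr v h1 x y hx' hy'
    · rw [if_neg h2] at hx hy
      have key : ∀ z : Kˣ, loc v z ∈ Pk ℓ (v.adicCompletion K)ˣ ⊔ Subgroup.zpowers (loc v η) →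
          ∃ m : ℤ, IsP ℓ (loc v (z * (η ^ m)⁻¹)) := by
        intro z hz
        obtain ⟨a, ⟨b, hb⟩, c, ⟨m, hm⟩, habc⟩ := Subgroup.mem_sup.1 hz
        refine ⟨m, b, ?_⟩
        rw [map_mul, map_inv, map_zpow, ← habc, ← hm]
        simp only at hb ⊢
        rw [← hb, mul_inv_cancel_right]
        rfl
      obtain ⟨m, hm⟩ := key x hx
      obtain ⟨n, hn⟩ := key y hy
      rw [sl_of_isP H y hm, s_anti H, sl_of_isP H _ hn, sl_zpow H, sr_zpow H, H.alt, mul_zero,
        mul_zero, neg_zero]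
  · unfold LC at hx hy
    rw [if_pos h1] at hx hy
    by_cases h3 : IsP ℓ (loc v x)
    · exact H.pow_left v x y h3
    have hinj : Function.Injective (algebraMap K (v.adicCompletion K)) :=
      (algebraMap K (v.adicCompletion K)).injective
    haveI : CharZero (v.adicCompletion K) := charZero_of_injective_algebraMap hinj
    have hζ' : IsPrimitiveRoot (algebraMap K (v.adicCompletion K) ζ) ℓ :=
      hζ.map_of_injective hinj
    have h4 := Pool.Agent.T3h73.SL.Iso.t_ISO Pool.Agent.T3h73.SL.Sym1.t_SYM1 ℓ hℓ hℓ2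
      (v.adicCompletion K) _ hζ' (loc v η) (loc v x) hx (loc v y) hy
    have h5 := Pool.Agent.T3h73.SL.Nrm.t_NRM ℓ hℓ (v.adicCompletion K) _ hζ' (loc v x) (loc v y) h3
      h4
    exact H.ln v x y (Or.inr h5)

end sv

/-! ## classes -/

section cl
variable {V : Type} [AddCommGroup V] {cl : Kˣ → V} (hc : ∀ x y, cl (x * y) = cl x + cl y)
include hc

theorem cl_one : cl 1 = 0 := by
  have h := hc 1 1
  rw [mul_one] at h
  exact left_eq_add.1 h

theorem cl_inv (x : Kˣ) : cl x⁻¹ = - cl x := by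
  have h := hc x⁻¹ x
  rw [inv_mul_cancel, cl_one hc] at h
  exact eq_neg_of_add_eq_zero_left h.symm

theorem cl_prod {ι : Type} (s : Finset ι) (f : ι → Kˣ) :
    cl (∏ i ∈ s, f i) = ∑ i ∈ s, cl (f i) := by
  classical
  induction s using Finset.induction_on with
  | empty => rw [Finset.prod_empty, Finset.sum_empty, cl_one hc]
  | insert a s ha ih => rw [Finset.prod_insert ha, Finset.sum_insert ha, hc, ih]

variable [Module (ZMod ℓ) V]

theorem cl_pow (x : Kˣ) (n : ℕ) : cl (x ^ n) = (n : ZMod ℓ) • cl x := by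
  induction n with
  | zero => rw [pow_zero, cl_one hc, Nat.cast_zero, zero_smul]
  | succ n ih => rw [pow_succ, hc, ih, Nat.cast_succ, add_smul, one_smul]

theorem cl_pow_ell (x : Kˣ) : cl (x ^ ℓ) = 0 := by
  rw [cl_pow (ℓ := ℓ) hc, ZMod.natCast_self, zero_smul]

theorem cl_powval [NeZero ℓ] (x : Kˣ) (a : ZMod ℓ) : cl (x ^ a.val) = a • cl x := by
  rw [cl_pow (ℓ := ℓ) hc, ZMod.natCast_zmod_val]

/-- the classes of the elements of a subgroup -/
def clS (ℓ : ℕ) [NeZero ℓ] [Module (ZMod ℓ) V] (G : Subgroup Kˣ) : Submodule (ZMod ℓ) V where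
  carrier := cl '' G
  add_mem' := by
    rintro _ _ ⟨x, hx, rfl⟩ ⟨y, hy, rfl⟩
    exact ⟨x * y, mul_mem hx hy, hc x y⟩
  zero_mem' := ⟨1, one_mem G, cl_one hc⟩
  smul_mem' := by
    rintro a _ ⟨x, hx, rfl⟩
    exact ⟨x ^ a.val, pow_mem hx _, cl_powval hc x a⟩

theorem mem_clS [NeZero ℓ] {G : Subgroup Kˣ} {z : V} :
    z ∈ clS hc ℓ G ↔ ∃ x ∈ G, cl x = z := Iff.rfl

end cl

end Pool.Agent.T3h73.SD.MDL
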