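import Pool.Agent.T3h73.SD.Mdl1
import Pool.Agent.T3h73.SL.T_CHR

/-! Project SD, task MDL (helper87): the system of symbols. -/

set_option autoImplicit false
set_option linter.all false

open NumberField IsDedekindDomain Polynomial

namespace Pool.Agent.T3h73.SD.MDL

open Pool.Agent.T3h73.SL (Pl IsP Pk loc Good2 LC Sg Evn Lo val_loc LC_mul_pow self_mem_LC)
open Pool.Agent.Y713.SE (Pw)
open Pool.Agent.Y773.G (IsModChar)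

/-- the situation -/
structure Ctx (ℓ : ℕ) (K : Type) [Field K] [NumberField K] (sv : Pl K → Kˣ → Kˣ → ZMod ℓ)
    (S : Finset (Pl K)) (V : Type) [AddCommGroup V] [Module (ZMod ℓ) V]
    (ψ : V →ₗ[ZMod ℓ] V →ₗ[ZMod ℓ] ZMod ℓ) (cl : Kˣ → V) : Prop where
  pr : ℓ.Prime
  hs : Sv ℓ K sv
  ab : ∀ v : Pl K, v.valuation K (ℓ : K) ≠ 1 → v ∈ S
  gen : ∀ m : Pl K → ℤ, {v | m v ≠ 0}.Finite →
      ∃ x : Kˣ, ∀ v, v ∉ S → v.valuation K (x : K) = WithZero.exp (-(m v))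
  inj : ∀ x : Kˣ, (∀ v ∈ S, IsP ℓ (loc v x)) → (∀ v, v ∉ S → Pw ℓ (v.valuation K (x : K))) →
      IsP ℓ x
  mul : ∀ x y, cl (x * y) = cl x + cl y
  surj : Function.Surjective cl
  ker : ∀ x, cl x = 0 ↔ ∀ v ∈ S, IsP ℓ (loc v x)
  psi : ∀ x y, ψ (cl x) (cl y) = ∑ v ∈ S, sv v x y

section
variable {ℓ : ℕ} {K : Type} [Field K] [NumberField K] {sv : Pl K → Kˣ → Kˣ → ZMod ℓ}
  {S : Finset (Pl K)} {V : Type} [AddCommGroup V] [Module (ZMod ℓ) V]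
  {ψ : V →ₗ[ZMod ℓ] V →ₗ[ZMod ℓ] ZMod ℓ} {cl : Kˣ → V}

theorem fin_od (x : Kˣ) : {v : Pl K | od v x ≠ 0}.Finite := by
  obtain ⟨m, hm⟩ := Pool.Agent.T3h73.SL.Chr.exists_m x
  refine m.finite_support.subset fun v hv => ?_
  rw [Finsupp.fun_support_eq, Finset.mem_coe, Finsupp.mem_support_iff]
  intro h
  apply hv
  rw [od_eq (hm v), h, neg_zero]

variable (C : Ctx ℓ K sv S V ψ cl)
include C

theorem Ctx.unit_rep (x : Kˣ) (hx : ∀ v, v ∉ S → (ℓ : ℤ) ∣ od v x) :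
    ∃ y : Kˣ, cl y = cl x ∧ ∀ v, v ∉ S → od v y = 0 := by
  obtain ⟨z, hz⟩ := C.gen (fun v => -(od v x / ℓ)) ((fin_od x).subset fun v hv => by
    intro h
    apply hv
    show -(od v x / ℓ) = 0
    rw [h, Int.zero_ediv, neg_zero])
  refine ⟨x * (z ^ ℓ)⁻¹, ?_, fun v hv => ?_⟩
  · rw [C.mul, cl_inv C.mul, cl_pow_ell C.mul, neg_zero, add_zero]
  · have h1 : od v z = od v x / ℓ := by
      rw [od_eq (hz v hv), neg_neg]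
    rw [od_mul, od_inv, od_pow, h1, Int.mul_ediv_cancel' (hx v hv), add_neg_cancel]

theorem Ctx.prodS (x y : Kˣ) (hx : ∀ v, v ∉ S → (ℓ : ℤ) ∣ od v x)
    (hy : ∀ v, v ∉ S → (ℓ : ℤ) ∣ od v y) : ψ (cl x) (cl y) = 0 := by
  rw [C.psi]
  refine C.hs.prod S C.ab x y fun v hv => ⟨(pw_od C.pr.pos v x).2 (hx v hv),
    (pw_od C.pr.pos v y).2 (hy v hv)⟩

theorem Ctx.prodq {q : Pl K} (hq : q ∉ S) (x y : Kˣ)
    (hx : ∀ v, v ∉ S → v ≠ q → (ℓ : ℤ) ∣ od v x) (hy : ∀ v, v ∉ S → v ≠ q → (ℓ : ℤ) ∣ od v y) :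
    sv q x y = - ψ (cl x) (cl y) := by
  classical
  have h := C.hs.prod (insert q S) (fun v hv => Finset.mem_insert_of_mem (C.ab v hv)) x y
    (fun v hv => by
      rw [Finset.mem_insert, not_or] at hv
      exact ⟨(pw_od C.pr.pos v x).2 (hx v hv.2 hv.1), (pw_od C.pr.pos v y).2 (hy v hv.2 hv.1)⟩)
  rw [Finset.sum_insert hq, ← C.psi] at h
  exact eq_neg_of_add_eq_zero_left h

theorem Ctx.prodpq {p q : Pl K} (hp : p ∉ S) (hq : q ∉ S) (hpq : p ≠ q) (x y : Kˣ)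
    (hx : ∀ v, v ∉ S → v ≠ p → v ≠ q → (ℓ : ℤ) ∣ od v x)
    (hy : ∀ v, v ∉ S → v ≠ p → v ≠ q → (ℓ : ℤ) ∣ od v y) :
    sv p x y + sv q x y + ψ (cl x) (cl y) = 0 := by
  classical
  have h := C.hs.prod (insert p (insert q S)) (fun v hv => Finset.mem_insert_of_mem
    (Finset.mem_insert_of_mem (C.ab v hv))) x y
    (fun v hv => by
      rw [Finset.mem_insert, Finset.mem_insert, not_or, not_or] at hv
      exact ⟨(pw_od C.pr.pos v x).2 (hx v hv.2.2 hv.1 hv.2.1),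
        (pw_od C.pr.pos v y).2 (hy v hv.2.2 hv.1 hv.2.1)⟩)
  rw [Finset.sum_insert (by
    rw [Finset.mem_insert, not_or]
    exact ⟨hpq, hp⟩), Finset.sum_insert hq, ← C.psi, ← add_assoc] at h
  exact h

theorem Ctx.isP_of_cl {x y : Kˣ} (h : cl x = cl y) (v : Pl K) (hv : v ∈ S) :
    ∃ z, loc v x = loc v y * z ^ ℓ := by
  have h1 : cl (x * y⁻¹) = 0 := by
    rw [C.mul, cl_inv C.mul, h, add_neg_cancel]
  obtain ⟨z, hz⟩ := (C.ker _).1 h1 v hv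
  refine ⟨z, ?_⟩
  rw [← hz, map_mul, map_inv, mul_comm (loc v x), mul_inv_cancel_left]

theorem Ctx.cl_eq {x y : Kˣ} (h : ∀ v ∈ S, ∃ z, loc v x = loc v y * z ^ ℓ) : cl x = cl y := by
  have h1 : cl (x * y⁻¹) = 0 := by
    rw [C.ker]
    intro v hv
    obtain ⟨z, hz⟩ := h v hv
    refine ⟨z, ?_⟩
    rw [map_mul, map_inv, hz, mul_comm (loc v y), mul_inv_cancel_right]
  rw [C.mul, cl_inv C.mul, add_neg_eq_zero] at h1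
  exact h1

end

/-- the situation with the subspaces and the uniformizers -/
structure Ctx2 (ℓ : ℕ) (K : Type) [Field K] [NumberField K] (sv : Pl K → Kˣ → Kˣ → ZMod ℓ)
    (S : Finset (Pl K)) (V : Type) [AddCommGroup V] [Module (ZMod ℓ) V]
    (ψ : V →ₗ[ZMod ℓ] V →ₗ[ZMod ℓ] ZMod ℓ) (cl : Kˣ → V) (η : Kˣ)
    (L0 L1 LL : Submodule (ZMod ℓ) V) (P : Pl K → Kˣ) (u : L0) (d1 : V) : Prop where
  ctx : Ctx ℓ K sv S V ψ cl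
  z0 : ∀ z, z ∈ L0 ↔ ∃ x, (∀ v, v ∉ S → (ℓ : ℤ) ∣ od v x) ∧ cl x = z
  compl : IsCompl L0 L1
  iso1 : ∀ x ∈ L1, ∀ y ∈ L1, ψ x y = 0
  zL : ∀ x : Kˣ, (∀ v ∈ S, loc v x ∈ LC ℓ v (loc v η)) → cl x ∈ LL
  pP : ∀ q v : Pl K, v ∉ S → v ≠ q → od v (P q) = 0
  pP1 : ∀ q : Pl K, q ∉ S → od q (P q) = -1
  pL : ∀ q, cl (P q) ∈ L1
  d1m : d1 ∈ L1
  e : (u : V) + d1 = cl η

section
variable {ℓ : ℕ} {K : Type} [Field K] [NumberField K] {sv : Pl K → Kˣ → Kˣ → ZMod ℓ}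
  {S : Finset (Pl K)} {V : Type} [AddCommGroup V] [Module (ZMod ℓ) V]
  {ψ : V →ₗ[ZMod ℓ] V →ₗ[ZMod ℓ] ZMod ℓ} {cl : Kˣ → V} {η : Kˣ}
  {L0 L1 LL : Submodule (ZMod ℓ) V} {P : Pl K → Kˣ} {u : L0} {d1 : V}
  (C : Ctx2 ℓ K sv S V ψ cl η L0 L1 LL P u d1)
include C

theorem Ctx2.rep (h : V) (hh : h ∈ L0) : ∃ x : Kˣ, cl x = h ∧ ∀ v, v ∉ S → od v x = 0 := by
  obtain ⟨x, hx, hx'⟩ := (C.z0 h).1 hh
  obtain ⟨y, hy, hy'⟩ := C.ctx.unit_rep x hx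
  exact ⟨y, hy.trans hx', hy'⟩

theorem Ctx2.od_mem (B : Finset (Pl K)) (n : Pl K → ℤ) (v : Pl K) (hv : v ∉ S) (h : v ∈ B) :
    od v (∏ b ∈ B, P b ^ n b) = - n v := by
  classical
  rw [MDL.od_prod]
  simp only [od_zpow]
  rw [Finset.sum_eq_single v, C.pP1 v hv]
  · ring
  · intro b _ hb
    rw [C.pP b v hv hb.symm, mul_zero]
  · intro h'
    exact absurd h h'

theorem Ctx2.od_not (B : Finset (Pl K)) (n : Pl K → ℤ) (v : Pl K) (hv : v ∉ S) (h : v ∉ B) :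
    od v (∏ b ∈ B, P b ^ n b) = 0 := by
  classical
  rw [MDL.od_prod]
  simp only [od_zpow]
  refine Finset.sum_eq_zero fun b hb => ?_
  rw [C.pP b v hv (by rintro rfl; exact h hb), mul_zero]

theorem Ctx2.symm {p q : Pl K} (hp : p ∉ S) (hq : q ∉ S) (hpq : p ≠ q) :
    sv q (P p) (P q) = sv p (P q) (P p) := by
  have h := C.ctx.prodpq hp hq hpq (P p) (P q)
    (fun v hv h1 h2 => by rw [C.pP p v hv h1]; exact dvd_zero _)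
    (fun v hv h1 h2 => by rw [C.pP q v hv h2]; exact dvd_zero _)
  rw [C.iso1 _ (C.pL p) _ (C.pL q), add_zero, s_anti C.ctx.hs p] at h
  have h2 := neg_add_eq_zero.1 h
  exact h2.symm

theorem Ctx2.sq (q : Pl K) (hq : q ∉ S) (x : Kˣ) (hx : ∀ v, v ∉ S → v ≠ q → (ℓ : ℤ) ∣ od v x) :
    sv q x (P q) = - ψ (cl x) (cl (P q)) :=
  C.ctx.prodq hq x (P q) hx fun v hv hvq => by rw [C.pP q v hv hvq]; exact dvd_zero _

theorem Ctx2.char (𝔪 : Ideal (𝓞 K))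
    (h𝔪 : ∀ (B : Finset (Pl K)), Disjoint B S → ∀ y : Kˣ,
    (∀ v, v ∉ S → (¬ Pw ℓ (v.valuation K (y : K)) ↔ v ∈ B)) →
    ∃ η : Ideal (𝓞 K) →*₀ ℂ, IsModChar (𝔪 * ∏ b ∈ B, b.asIdeal) (fun _ => 0) η ∧
      (∀ 𝔞, IsCoprime 𝔞 (𝔪 * ∏ b ∈ B, b.asIdeal) → η 𝔞 ^ ℓ = 1) ∧
      (∀ q : Pl K, q ∉ S → q ∉ B → ∀ π : Kˣ, q.valuation K (π : K) = WithZero.exp (-1 : ℤ) →
        η q.asIdeal = ee ℓ (sv q y π)) ∧
      (¬ IsP ℓ y → ∃ 𝔞, IsCoprime 𝔞 (𝔪 * ∏ b ∈ B, b.asIdeal) ∧ η 𝔞 ≠ 1) ∧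
      (B.Nonempty → ∃ α : 𝓞 K, IsCoprime (Ideal.span {α}) (𝔪 * ∏ b ∈ B, b.asIdeal) ∧
        η (Ideal.span {α}) ≠ 1))
    (h : L0) (j : Pl K → ZMod ℓ) (B : Finset (Pl K)) (hB : Disjoint B S)
    (hj : ∀ b, j b ≠ 0 ↔ b ∈ B) :
    ∃ η : Ideal (𝓞 K) →*₀ ℂ, IsModChar (𝔪 * ∏ b ∈ B, b.asIdeal) (fun _ => 0) η ∧
      (∀ 𝔞, IsCoprime 𝔞 (𝔪 * ∏ b ∈ B, b.asIdeal) → η 𝔞 ^ ℓ = 1) ∧
      (∀ q : Pl K, q ∉ S → q ∉ B → η q.asIdeal = ee ℓ (ψ (h : V) (cl (P q)) +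
        ∑ b ∈ B, j b * sv q (P b) (P q))) ∧
      (h ≠ 0 ∨ B.Nonempty → ∃ 𝔞, IsCoprime 𝔞 (𝔪 * ∏ b ∈ B, b.asIdeal) ∧ η 𝔞 ≠ 1) ∧
      (B.Nonempty → ∃ α : 𝓞 K, IsCoprime (Ideal.span {α}) (𝔪 * ∏ b ∈ B, b.asIdeal) ∧
        η (Ideal.span {α}) ≠ 1) := by
  classical
  haveI : Fact ℓ.Prime := ⟨C.ctx.pr⟩
  haveI : NeZero ℓ := ⟨C.ctx.pr.ne_zero⟩
  obtain ⟨x, hx, hx'⟩ := C.rep h h.2
  set y : Kˣ := x⁻¹ * ∏ b ∈ B, P b ^ ((j b).val : ℤ) with hy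
  have hpw : ∀ v, v ∉ S → (¬ Pw ℓ (v.valuation K (y : K)) ↔ v ∈ B) := by
    intro v hv
    rw [pw_od C.ctx.pr.pos, hy, od_mul, od_inv, hx' v hv, neg_zero, zero_add]
    by_cases hvB : v ∈ B
    · rw [C.od_mem B _ v hv hvB]
      refine ⟨fun _ => hvB, fun _ hd => ?_⟩
      rw [dvd_neg, Int.natCast_dvd_natCast] at hd
      have h1 : (j v).val < ℓ := ZMod.val_lt _
      have h2 := Nat.eq_zero_of_dvd_of_lt hd h1
      rw [ZMod.val_eq_zero] at h2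
      exact (hj v).2 hvB h2
    · rw [C.od_not B _ v hv hvB]
      exact ⟨fun h1 => absurd (dvd_zero _) h1, fun h1 => absurd h1 hvB⟩
  obtain ⟨χ, h1, h2, h3, h4, h5⟩ := h𝔪 B hB y hpw
  refine ⟨χ, h1, h2, fun q hq hqB => ?_, fun hne => h4 ?_, h5⟩
  · rw [h3 q hq hqB (P q) (by rw [val_od, C.pP1 q hq])]
    congr 1
    rw [hy, C.ctx.hs.mul_left, sl_inv C.ctx.hs, sl_prod C.ctx.hs,
      C.sq q hq x (fun v hv _ => by rw [hx' v hv]; exact dvd_zero _), hx, neg_neg]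
    congr 1
    refine Finset.sum_congr rfl fun b _ => ?_
    rw [sl_zpow C.ctx.hs, Int.cast_natCast, ZMod.natCast_zmod_val]
  · intro hP
    have hB0 : B = ∅ := by
      rw [Finset.eq_empty_iff_forall_notMem]
      intro b hb
      have hbS : b ∉ S := Finset.disjoint_left.1 hB hb
      apply (hpw b hbS).2 hb
      obtain ⟨z, hz⟩ := hP
      rw [hz, Units.val_pow_eq_pow_val, map_pow]
      exact Pw.pow _
    rcases hne with hne | hne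
    · apply hne
      obtain ⟨z, hz⟩ := hP
      have h6 : cl y = 0 := by rw [hz, cl_pow_ell C.ctx.mul]
      rw [hy, hB0, Finset.prod_empty, mul_one, cl_inv C.ctx.mul, hx, neg_eq_zero] at h6
      exact Subtype.ext h6
    · rw [hB0] at hne
      exact Finset.not_nonempty_empty hne

end

end Pool.Agent.T3h73.SD.MDL
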