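import Pool.Agent.T3h73.SD.Mdl2
import Pool.Agent.T3h73.SL.T_Dim

/-! Project SD, task MDL (helper87): the dictionary. -/

set_option autoImplicit false
set_option linter.all false

open NumberField IsDedekindDomain Polynomial

namespace Pool.Agent.T3h73.SD.MDL

open Pool.Agent.T3h73.SL (Pl IsP Pk loc Good2 LC Sg Evn Lo val_loc LC_mul_pow self_mem_LC)
open Pool.Agent.Y713.SE (Pw)

open Classical in
/-- the group of the model -/
def MG {ℓ : ℕ} {K : Type} [Field K] [NumberField K] {V : Type} [AddCommGroup V]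
    [Module (ZMod ℓ) V] (ψ : V →ₗ[ZMod ℓ] V →ₗ[ZMod ℓ] ZMod ℓ) (L0 LL : Submodule (ZMod ℓ) V)
    (u : L0) (t : Pl K → V) (sy : Pl K → Pl K → ZMod ℓ) (B : Finset (Pl K)) :
    AddSubgroup (V × (Pl K → ZMod ℓ)) :=
  AddSubgroup.ofSub (MSel ψ L0 LL u t sy B)
    ⟨0, by
      refine ⟨L0.zero_mem, fun q _ => rfl, ?_, fun q _ => ?_⟩
      · have h : ∑ q ∈ B, ((0 : V × (Pl K → ZMod ℓ)).2 q) • t q = 0 :=
          Finset.sum_eq_zero fun q _ => by
            show (0 : ZMod ℓ) • t q = 0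
            rw [zero_smul]
        rw [h, add_zero]
        exact LL.zero_mem
      · have h : ∑ p ∈ B.erase q, ((0 : V × (Pl K → ZMod ℓ)).2 p -
            (0 : V × (Pl K → ZMod ℓ)).2 q) * sy p q = 0 :=
          Finset.sum_eq_zero fun p _ => by
            show ((0 : ZMod ℓ) - 0) * sy p q = 0
            rw [sub_zero, zero_mul]
        rw [h]
        show - ψ (0 : V) (t q) + (0 : ZMod ℓ) * ψ (u : V) (t q) + 0 = 0
        rw [map_zero, LinearMap.zero_apply, zero_mul, neg_zero, add_zero, add_zero]⟩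
    (by
      rintro x ⟨hx1, hx2, hx3, hx4⟩ y ⟨hy1, hy2, hy3, hy4⟩
      refine ⟨L0.add_mem hx1 (L0.neg_mem hy1), fun q hq => ?_, ?_, fun q hq => ?_⟩
      · show x.2 q + - y.2 q = 0
        rw [hx2 q hq, hy2 q hq, neg_zero, add_zero]
      · have h : (x + -y).1 + ∑ q ∈ B, (x + -y).2 q • t q =
            (x.1 + ∑ q ∈ B, x.2 q • t q) - (y.1 + ∑ q ∈ B, y.2 q • t q) := by
          have h1 : ∑ q ∈ B, (x + -y).2 q • t q = ∑ q ∈ B, x.2 q • t q - ∑ q ∈ B, y.2 q • t q := by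
            rw [← Finset.sum_sub_distrib]
            refine Finset.sum_congr rfl fun q _ => ?_
            show (x.2 q + - y.2 q) • t q = _
            rw [add_smul, neg_smul, sub_eq_add_neg]
          rw [h1]
          show x.1 + - y.1 + _ = _
          abel
        rw [h]
        exact LL.sub_mem hx3 hy3
      · have h1 : ∑ p ∈ B.erase q, ((x + -y).2 p - (x + -y).2 q) * sy p q =
            ∑ p ∈ B.erase q, (x.2 p - x.2 q) * sy p q - ∑ p ∈ B.erase q, (y.2 p - y.2 q) * sy p q := by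
          rw [← Finset.sum_sub_distrib]
          refine Finset.sum_congr rfl fun p _ => ?_
          show (x.2 p + - y.2 p - (x.2 q + - y.2 q)) * sy p q = _
          ring
        rw [h1]
        have h2 := hx4 q hq
        have h3 := hy4 q hq
        show - ψ (x.1 + - y.1) (t q) + (x.2 q + - y.2 q) * ψ (u : V) (t q) + _ = 0
        rw [map_add, map_neg, LinearMap.add_apply, LinearMap.neg_apply]
        linear_combination h2 - h3)

section
variable {ℓ : ℕ} {K : Type} [Field K] [NumberField K] {sv : Pl K → Kˣ → Kˣ → ZMod ℓ}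
  {S : Finset (Pl K)} {V : Type} [AddCommGroup V] [Module (ZMod ℓ) V]
  {ψ : V →ₗ[ZMod ℓ] V →ₗ[ZMod ℓ] ZMod ℓ} {cl : Kˣ → V} {η : Kˣ}
  {L0 L1 LL : Submodule (ZMod ℓ) V} {P : Pl K → Kˣ} {u : L0} {d1 : V}
  (C : Ctx2 ℓ K sv S V ψ cl η L0 L1 LL P u d1)
include C

theorem Ctx2.od1_mem (B : Finset (Pl K)) (v : Pl K) (hv : v ∉ S) (h : v ∈ B) :
    od v (∏ b ∈ B, P b) = - 1 := by
  have := C.od_mem B (fun _ => 1) v hv h
  simp only [zpow_one] at this
  exact this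

theorem Ctx2.od1_not (B : Finset (Pl K)) (v : Pl K) (hv : v ∉ S) (h : v ∉ B) :
    od v (∏ b ∈ B, P b) = 0 := by
  have := C.od_not B (fun _ => 1) v hv h
  simp only [zpow_one] at this
  exact this

theorem Ctx2.delta' (δ : Kˣ) (B : Finset (Pl K))
    (h2 : ∀ v ∈ B, (ℓ : ℤ) ∣ od v δ + 1) (h3 : ∀ v, v ∉ S → v ∉ B → (ℓ : ℤ) ∣ od v δ)
    (v : Pl K) (hv : v ∉ S) : (ℓ : ℤ) ∣ od v (δ * (∏ q ∈ B, P q)⁻¹) := by
  rw [od_mul, od_inv]
  by_cases h : v ∈ B
  · rw [C.od1_mem B v hv h, neg_neg]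
    exact h2 v h
  · rw [C.od1_not B v hv h, neg_zero, add_zero]
    exact h3 v hv h

theorem Ctx2.sum (δ : Kˣ) (B : Finset (Pl K)) (h1 : ∀ v ∈ S, ∃ z, loc v δ = loc v η * z ^ ℓ)
    (h2 : ∀ v ∈ B, (ℓ : ℤ) ∣ od v δ + 1) (h3 : ∀ v, v ∉ S → v ∉ B → (ℓ : ℤ) ∣ od v δ) :
    ∑ q ∈ B, cl (P q) = d1 ∧ cl (δ * (∏ q ∈ B, P q)⁻¹) = u := by
  have h4 : cl (δ * (∏ q ∈ B, P q)⁻¹) ∈ L0 :=
    (C.z0 _).2 ⟨_, C.delta' δ B h2 h3, rfl⟩
  have h5 : cl (δ * (∏ q ∈ B, P q)⁻¹) = (u : V) + d1 - ∑ q ∈ B, cl (P q) := by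
    rw [C.ctx.mul, cl_inv C.ctx.mul, MDL.cl_prod C.ctx.mul, C.ctx.cl_eq h1, ← C.e, sub_eq_add_neg]
  have h6 : ∑ q ∈ B, cl (P q) ∈ L1 := sum_mem fun q _ => C.pL q
  have h7 : d1 - ∑ q ∈ B, cl (P q) = 0 := by
    have h8 : d1 - ∑ q ∈ B, cl (P q) ∈ L0 := by
      have : d1 - ∑ q ∈ B, cl (P q) = cl (δ * (∏ q ∈ B, P q)⁻¹) - u := by
        rw [h5]
        abel
      rw [this]
      exact L0.sub_mem h4 u.2
    have h9 : d1 - ∑ q ∈ B, cl (P q) ∈ L1 := L1.sub_mem C.d1m h6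
    exact Submodule.disjoint_def.1 C.compl.disjoint _ h8 h9
  refine ⟨(sub_eq_zero.1 h7).symm, ?_⟩
  rw [h5, add_sub_assoc, h7, add_zero]

theorem Ctx2.exists_delta (B : Finset (Pl K)) (hB : Disjoint B S)
    (hs : ∑ q ∈ B, cl (P q) = d1) : ∃ δ : Kˣ,
    (∀ v ∈ S, ∃ z, loc v δ = loc v η * z ^ ℓ) ∧
    (∀ v ∈ B, v.valuation K (δ : K) = WithZero.exp (-1 : ℤ)) ∧
    ∀ v, v ∉ S → v ∉ B → v.valuation K (δ : K) = 1 := by
  obtain ⟨x, hx, hx'⟩ := C.rep u u.2
  refine ⟨x * ∏ q ∈ B, P q, fun v hv => ?_, fun v hv => ?_, fun v hv hvB => ?_⟩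
  · refine C.ctx.isP_of_cl ?_ v hv
    rw [C.ctx.mul, MDL.cl_prod C.ctx.mul, hs, hx, C.e]
  · have hvS : v ∉ S := Finset.disjoint_left.1 hB hv
    rw [val_od, od_mul, hx' v hvS, C.od1_mem B v hvS hv, zero_add]
  · rw [val_one_iff, od_mul, hx' v hv, C.od1_not B v hv hvB, zero_add]

theorem Ctx2.good (hℓ2 : ℓ ≠ 2) {ζ : K} (hζ : IsPrimitiveRoot ζ ℓ) (δ : Kˣ) (B : Finset (Pl K))
    (hB : Disjoint B S) (h1 : ∀ v ∈ S, ∃ z, loc v δ = loc v η * z ^ ℓ)
    (h2 : ∀ v ∈ B, (ℓ : ℤ) ∣ od v δ + 1) (h3 : ∀ v, v ∉ S → v ∉ B → (ℓ : ℤ) ∣ od v δ)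
    (hne : B.Nonempty)
    (hn : nS ψ L0 LL u (fun q => cl (P q)) (fun p q => sv q (P p) (P q)) B = ℓ) :
    Good2 ℓ K (δ : K) := by
  classical
  have hpr := C.ctx.pr
  have hpos : 0 < ℓ := hpr.pos
  haveI : Fact ℓ.Prime := ⟨hpr⟩
  have hBS : ∀ v ∈ B, v ∉ S := fun v hv => Finset.disjoint_left.1 hB hv
  have hnd1 : ¬ (ℓ : ℤ) ∣ 1 := by
    intro h
    have h3 : ℓ ∣ 1 := by exact_mod_cast h
    exact hpr.one_lt.ne' (Nat.dvd_one.1 h3)
  have hnd : ∀ v ∈ B, ¬ (ℓ : ℤ) ∣ od v δ := by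
    intro v hv h
    exact hnd1 ((dvd_add_right h).1 (h2 v hv))
  obtain ⟨hs1, hs2⟩ := C.sum δ B h1 h2 h3
  obtain ⟨δ', hδ'⟩ : ∃ δ', δ' = δ * (∏ q ∈ B, P q)⁻¹ := ⟨_, rfl⟩
  have hδ'o : ∀ v, v ∉ S → (ℓ : ℤ) ∣ od v δ' := by
    rw [hδ']
    exact C.delta' δ B h2 h3
  rw [← hδ'] at hs2
  have hδδ' : δ = δ' * ∏ q ∈ B, P q := by
    rw [hδ', inv_mul_cancel_right]
  refine Pool.Agent.T3h73.SL.t_DESC Pool.Agent.T3h73.SL.DIM.t_DIM ℓ hpr hℓ2 K ζ hζ δ ?_ ?_
  · intro x hx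
    -- outside `S` and `B`
    have hab : ∀ v, v ∉ S → v.valuation K (ℓ : K) = 1 := by
      intro v hv
      by_contra h
      exact hv (C.ctx.ab v h)
    have hxo : ∀ v, v ∉ S → v ∉ B → (ℓ : ℤ) ∣ od v x := by
      intro v hv hvB
      have h4 := hx v
      unfold LC at h4
      rw [if_neg (not_not.2 (hab v hv)), if_pos (by
        rw [val_loc]
        exact (pw_od hpos v δ).2 (h3 v hv hvB))] at h4
      rw [← pw_od hpos, ← val_loc]
      exact h4
    have hxn : ∀ q, ∃ n : ℤ, q ∈ B → IsP ℓ (loc q (x * (δ ^ n)⁻¹)) := by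
      intro q
      by_cases hq : q ∈ B
      · have h4 := hx q
        unfold LC at h4
        rw [if_neg (not_not.2 (hab q (hBS q hq))), if_neg (by
          rw [val_loc, pw_od hpos]
          exact hnd q hq)] at h4
        obtain ⟨a, ⟨b, hb⟩, c, ⟨m, hm⟩, habc⟩ := Subgroup.mem_sup.1 h4
        refine ⟨m, fun _ => ⟨b, ?_⟩⟩
        rw [map_mul, map_inv, map_zpow, ← habc, ← hm]
        simp only at hb ⊢
        rw [← hb, mul_inv_cancel_right]
        rfl
      · exact ⟨0, fun h => absurd h hq⟩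
    choose n hn' using hxn
    have hxS : ∀ v ∈ S, loc v x ∈ LC ℓ v (loc v η) := by
      intro v hv
      obtain ⟨z, hz⟩ := h1 v hv
      have h4 := hx v
      rw [hz, LC_mul_pow hpr.ne_zero] at h4
      exact h4
    obtain ⟨w, hw⟩ : ∃ w, w = x * (∏ q ∈ B, P q ^ n q)⁻¹ := ⟨_, rfl⟩
    have hxw : x = w * ∏ q ∈ B, P q ^ n q := by
      rw [hw, inv_mul_cancel_right]
    have hwo : ∀ v, v ∉ S → (ℓ : ℤ) ∣ od v w := by
      intro v hv
      rw [hw, od_mul, od_inv]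
      by_cases hvB : v ∈ B
      · rw [C.od_mem B n v hv hvB, neg_neg]
        have h4 := dvd_of_isP hpos (hn' v hvB)
        rw [od_mul, od_inv, od_zpow] at h4
        have h5 : od v x + n v = (od v x + -(n v * od v δ)) + n v * (od v δ + 1) := by ring
        rw [h5]
        exact dvd_add h4 (Dvd.dvd.mul_left (h2 v hvB) _)
      · rw [C.od_not B n v hv hvB, neg_zero, add_zero]
        exact hxo v hv hvB
    obtain ⟨c, hc⟩ : ∃ c : Pl K → ZMod ℓ, c = fun q => if q ∈ B then ((n q : ℤ) : ZMod ℓ) else 0 :=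
      ⟨_, rfl⟩
    have hcB : ∀ q ∈ B, c q = n q := by
      intro q hq
      rw [hc]
      exact if_pos hq
    have hcn : ∀ q, q ∉ B → c q = 0 := by
      intro q hq
      rw [hc]
      exact if_neg hq
    -- the element of the model
    have hmem : (cl w, c) ∈ MG ψ L0 LL u (fun q => cl (P q)) (fun p q => sv q (P p) (P q)) B := by
      refine ⟨(C.z0 _).2 ⟨w, hwo, rfl⟩, hcn, ?_, fun q hq => ?_⟩
      · have h4 : (cl w, c).1 + ∑ q ∈ B, (cl w, c).2 q • cl (P q) = cl x := by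
          show cl w + ∑ q ∈ B, c q • cl (P q) = cl x
          rw [hxw, C.ctx.mul, MDL.cl_prod C.ctx.mul]
          congr 1
          refine Finset.sum_congr rfl fun q hq => ?_
          rw [hcB q hq]
          obtain ⟨k, hk | hk⟩ := (n q).eq_nat_or_neg
          · rw [hk, zpow_natCast, cl_pow (ℓ := ℓ) C.ctx.mul, Int.cast_natCast]
          · rw [hk, zpow_neg, zpow_natCast, cl_inv C.ctx.mul, cl_pow (ℓ := ℓ) C.ctx.mul, Int.cast_neg,
              Int.cast_natCast, neg_smul]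
        rw [h4]
        exact C.zL x hxS
      · show - ψ (cl w) (cl (P q)) + c q * ψ (u : V) (cl (P q)) +
          ∑ p ∈ B.erase q, (c p - c q) * sv q (P p) (P q) = 0
        have hqS := hBS q hq
        have e1 : sv q w (P q) = - ψ (cl w) (cl (P q)) := C.sq q hqS w fun v hv _ => hwo v hv
        have e2 : sv q δ' (P q) = - ψ (cl δ') (cl (P q)) := C.sq q hqS δ' fun v hv _ => hδ'o v hv
        have e3 : sv q (x * (δ ^ n q)⁻¹) (P q) = 0 := C.ctx.hs.pow_left q _ _ (hn' q hq)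
        have e4 : sv q x (P q) = sv q w (P q) + ∑ p ∈ B, (n p : ZMod ℓ) * sv q (P p) (P q) := by
          conv_lhs => rw [hxw]
          rw [C.ctx.hs.mul_left, sl_prod C.ctx.hs]
          congr 1
          refine Finset.sum_congr rfl fun p _ => ?_
          rw [sl_zpow C.ctx.hs]
        have e5 : sv q δ (P q) = sv q δ' (P q) + ∑ p ∈ B, sv q (P p) (P q) := by
          conv_lhs => rw [hδδ']
          rw [C.ctx.hs.mul_left, sl_prod C.ctx.hs]
        rw [C.ctx.hs.mul_left, sl_inv C.ctx.hs, sl_zpow C.ctx.hs, e4, e5, e1, e2, hs2] at e3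
        rw [Finset.sum_erase B (by rw [sub_self, zero_mul])]
        have e6 : ∑ p ∈ B, (c p - c q) * sv q (P p) (P q) =
            ∑ p ∈ B, (n p : ZMod ℓ) * sv q (P p) (P q) -
              (n q : ZMod ℓ) * ∑ p ∈ B, sv q (P p) (P q) := by
          rw [Finset.mul_sum, ← Finset.sum_sub_distrib]
          refine Finset.sum_congr rfl fun p hp => ?_
          rw [hcB p hp, hcB q hq]
          ring
        rw [e6, hcB q hq]
        linear_combination e3
    -- the generator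
    have hg0 : ((u : V), fun q => if q ∈ B then (1 : ZMod ℓ) else 0) ∈
        MG ψ L0 LL u (fun q => cl (P q)) (fun p q => sv q (P p) (P q)) B := by
      refine ⟨u.2, fun q hq => if_neg hq, ?_, fun q hq => ?_⟩
      · have h4 : ∑ q ∈ B, (if q ∈ B then (1 : ZMod ℓ) else 0) • cl (P q) = d1 := by
          rw [← hs1]
          refine Finset.sum_congr rfl fun q hq => ?_
          rw [if_pos hq, one_smul]
        show (u : V) + ∑ q ∈ B, (if q ∈ B then (1 : ZMod ℓ) else 0) • cl (P q) ∈ LL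
        rw [h4, C.e]
        exact C.zL η fun v hv => self_mem_LC v _
      · show - ψ (u : V) (cl (P q)) + (if q ∈ B then (1 : ZMod ℓ) else 0) * ψ (u : V) (cl (P q)) +
          ∑ p ∈ B.erase q, ((if p ∈ B then (1 : ZMod ℓ) else 0) -
            (if q ∈ B then (1 : ZMod ℓ) else 0)) * sv q (P p) (P q) = 0
        rw [if_pos hq, Finset.sum_eq_zero fun p hp => ?_, one_mul, add_zero, neg_add_cancel]
        rw [if_pos (Finset.mem_of_mem_erase hp), sub_self, zero_mul]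
    obtain ⟨G, hG⟩ : ∃ G, G = MG ψ L0 LL u (fun q => cl (P q)) (fun p q => sv q (P p) (P q)) B :=
      ⟨_, rfl⟩
    have hcard : Nat.card G = ℓ := by
      rw [hG]
      exact hn
    rw [← hG] at hmem hg0
    have hgne : (⟨_, hg0⟩ : G) ≠ 0 := by
      intro h
      obtain ⟨q, hq⟩ := hne
      have h4 : (fun q => if q ∈ B then (1 : ZMod ℓ) else 0) = (0 : Pl K → ZMod ℓ) :=
        congrArg (fun g : G => (g : V × (Pl K → ZMod ℓ)).2) h
      have h5 := congrFun h4 q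
      simp only [if_pos hq] at h5
      exact one_ne_zero h5
    obtain ⟨m, hm⟩ := AddSubgroup.mem_zmultiples_iff.1
      (mem_zmultiples_of_prime_card (g' := (⟨_, hmem⟩ : G)) hcard hgne)
    have hm' : m • ((u : V), fun q => if q ∈ B then (1 : ZMod ℓ) else 0) = (cl w, c) :=
      congrArg (fun g : G => (g : V × (Pl K → ZMod ℓ))) hm
    have hm1 : m • (u : V) = cl w := congrArg Prod.fst hm'
    have hm2 : ∀ q ∈ B, (m : ZMod ℓ) = (n q : ZMod ℓ) := by
      intro q hq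
      have h4 : (m • ((u : V), fun q => if q ∈ B then (1 : ZMod ℓ) else 0)).2 q = c q :=
        congrFun (congrArg Prod.snd hm') q
      rw [← hcB q hq, ← h4]
      show _ = m • (if q ∈ B then (1 : ZMod ℓ) else 0)
      rw [if_pos hq, zsmul_one]
    -- conclusion
    have hk : IsP ℓ (w * (δ' ^ m)⁻¹) := by
      refine C.ctx.inj _ ?_ fun v hv => ?_
      · rw [← C.ctx.ker, C.ctx.mul, cl_inv C.ctx.mul]
        have h4 : cl (δ' ^ m) = m • cl δ' := by
          obtain ⟨k, hk | hk⟩ := m.eq_nat_or_neg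
          · rw [hk, zpow_natCast, cl_pow (ℓ := ℓ) C.ctx.mul, natCast_zsmul, Nat.cast_smul_eq_nsmul]
          · rw [hk, zpow_neg, zpow_natCast, cl_inv C.ctx.mul, cl_pow (ℓ := ℓ) C.ctx.mul, neg_smul,
              natCast_zsmul, Nat.cast_smul_eq_nsmul]
        rw [h4, hs2, hm1, add_neg_cancel]
      · rw [pw_od hpos, od_mul, od_inv, od_zpow]
        exact dvd_add (hwo v hv) ((dvd_neg).2 (Dvd.dvd.mul_left (hδ'o v hv) _))
    obtain ⟨z, hz⟩ := hk
    have h4 : ∀ q, ∃ k : ℤ, q ∈ B → n q = m + ℓ * k := by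
      intro q
      by_cases hq : q ∈ B
      · have h5 := hm2 q hq
        rw [ZMod.intCast_eq_intCast_iff_dvd_sub] at h5
        obtain ⟨k, hk⟩ := h5
        exact ⟨k, fun _ => by linarith⟩
      · exact ⟨0, fun h => absurd h hq⟩
    choose k hk using h4
    refine ⟨m, z * ∏ q ∈ B, P q ^ k q, ?_⟩
    have h5 : ∏ q ∈ B, P q ^ n q = (∏ q ∈ B, P q) ^ m * (∏ q ∈ B, P q ^ k q) ^ ℓ := by
      rw [← Finset.prod_zpow, ← Finset.prod_pow, ← Finset.prod_mul_distrib]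
      refine Finset.prod_congr rfl fun q hq => ?_
      rw [hk q hq, zpow_add, mul_comm (ℓ : ℤ) (k q), zpow_mul, zpow_natCast]
    have h6 : w = z ^ ℓ * δ' ^ m := by
      rw [← hz, inv_mul_cancel_right]
    rw [hxw, h5, h6, hδδ', mul_zpow, mul_pow, mul_comm (z ^ ℓ) (δ' ^ m), mul_mul_mul_comm]
  · rintro ⟨z, hz⟩
    obtain ⟨v, hv⟩ := hne
    apply hnd v hv
    rw [hz, od_pow]
    exact dvd_mul_right _ _

end

end Pool.Agent.T3h73.SD.MDL
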