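import Pool.Agent.T3h73.SD.Mdl3
import Pool.Agent.T3h73.SD.StmQ
import Pool.Agent.T3h73.SD.T_MDL

/-! Project SD: the dictionary for the twists by a power (after helper87). -/

set_option autoImplicit false
set_option linter.all false

open NumberField IsDedekindDomain Polynomial

namespace Pool.Agent.T3h73.SD.MDL

open Pool.Agent.T3h73.SL (Pl IsP Pk loc Good2 LC Sg Evn Lo val_loc LC_mul_pow self_mem_LC)
open Pool.Agent.Y713.SE (Pw)

section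
variable {ℓ : ℕ} {K : Type} [Field K] [NumberField K] {sv : Pl K → Kˣ → Kˣ → ZMod ℓ}
  {S : Finset (Pl K)} {V : Type} [AddCommGroup V] [Module (ZMod ℓ) V]
  {ψ : V →ₗ[ZMod ℓ] V →ₗ[ZMod ℓ] ZMod ℓ} {cl : Kˣ → V} {η : Kˣ}
  {L0 L1 L2 : Submodule (ZMod ℓ) V} {P : Pl K → Kˣ} {u : L0} {d1 : V}
  (C : Ctx2 ℓ K sv S V ψ cl η L0 L1 L2 P u d1)
include C

theorem Ctx2.good_pow (hℓ2 : ℓ ≠ 2) {ζ : K} (hζ : IsPrimitiveRoot ζ ℓ) {a₀ : ℕ} (ha₁ : 1 ≤ a₀)
    (ha₂ : a₀ < ℓ) (LL : Submodule (ZMod ℓ) V)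
    (zL : ∀ x : Kˣ, (∀ v ∈ S, loc v x ∈ LC ℓ v (loc v (η ^ a₀))) → cl x ∈ LL)
    (e_mem : cl η ∈ LL) (δ : Kˣ) (B : Finset (Pl K))
    (hB : Disjoint B S) (h1 : ∀ v ∈ S, ∃ z, loc v δ = loc v η * z ^ ℓ)
    (h2 : ∀ v ∈ B, (ℓ : ℤ) ∣ od v δ + 1) (h3 : ∀ v, v ∉ S → v ∉ B → (ℓ : ℤ) ∣ od v δ)
    (hne : B.Nonempty)
    (hn : nS ψ L0 LL u (fun q => cl (P q)) (fun p q => sv q (P p) (P q)) B = ℓ) :
    Good2 ℓ K ((δ : K) ^ a₀) := by
  classical
  have hpr := C.ctx.pr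
  have hpos : 0 < ℓ := hpr.pos
  haveI : Fact ℓ.Prime := ⟨hpr⟩
  have hBS : ∀ v ∈ B, v ∉ S := fun v hv => Finset.disjoint_left.1 hB hv
  have hnd1 : ¬ (ℓ : ℤ) ∣ 1 := by
    intro h
    have h3 : ℓ ∣ 1 := by exact_mod_cast h
    exact hpr.one_lt.ne' (Nat.dvd_one.1 h3)
  have hnd : ∀ v ∈ B, ¬ (ℓ : ℤ) ∣ od v δ := by
    intro v hv h
    exact hnd1 ((dvd_add_right h).1 (h2 v hv))
  obtain ⟨hs1, hs2⟩ := C.sum δ B h1 h2 h3
  obtain ⟨δ', hδ'⟩ : ∃ δ', δ' = δ * (∏ q ∈ B, P q)⁻¹ := ⟨_, rfl⟩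
  have hδ'o : ∀ v, v ∉ S → (ℓ : ℤ) ∣ od v δ' := by
    rw [hδ']
    exact C.delta' δ B h2 h3
  rw [← hδ'] at hs2
  have hδδ' : δ = δ' * ∏ q ∈ B, P q := by
    rw [hδ', inv_mul_cancel_right]
  have hcop : Nat.Coprime a₀ ℓ := by
    rw [Nat.coprime_comm, hpr.coprime_iff_not_dvd]
    exact fun h => absurd (Nat.le_of_dvd ha₁ h) (not_le.2 ha₂)
  have hcopI : IsCoprime (ℓ : ℤ) (a₀ : ℤ) := Nat.isCoprime_iff_coprime.2 hcop.symm
  rw [← Units.val_pow_eq_pow_val]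
  refine Pool.Agent.T3h73.SL.t_DESC Pool.Agent.T3h73.SL.DIM.t_DIM ℓ hpr hℓ2 K ζ hζ (δ ^ a₀) ?_ ?_
  · intro x hx
    -- outside `S` and `B`
    have hab : ∀ v, v ∉ S → v.valuation K (ℓ : K) = 1 := by
      intro v hv
      by_contra h
      exact hv (C.ctx.ab v h)
    have hxo : ∀ v, v ∉ S → v ∉ B → (ℓ : ℤ) ∣ od v x := by
      intro v hv hvB
      have h4 := hx v
      unfold LC at h4
      rw [if_neg (not_not.2 (hab v hv)), if_pos (by
        rw [val_loc]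
        refine (pw_od hpos v (δ ^ a₀)).2 ?_
        rw [od_pow]
        exact Dvd.dvd.mul_left (h3 v hv hvB) _)] at h4
      rw [← pw_od hpos, ← val_loc]
      exact h4
    have hxn : ∀ q, ∃ n : ℤ, q ∈ B → IsP ℓ (loc q (x * (δ ^ n)⁻¹)) := by
      intro q
      by_cases hq : q ∈ B
      · have h4 := hx q
        unfold LC at h4
        rw [if_neg (not_not.2 (hab q (hBS q hq))), if_neg (by
          rw [val_loc, pw_od hpos, od_pow]
          intro h5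
          exact hnd q hq (hcopI.dvd_of_dvd_mul_left h5))] at h4
        obtain ⟨a, ⟨b, hb⟩, c, ⟨m, hm⟩, habc⟩ := Subgroup.mem_sup.1 h4
        refine ⟨(a₀ : ℤ) * m, fun _ => ⟨b, ?_⟩⟩
        rw [map_mul, map_inv, map_zpow, ← habc, ← hm]
        simp only at hb ⊢
        rw [← hb, zpow_mul, zpow_natCast, map_pow, mul_inv_cancel_right]
        rfl
      · exact ⟨0, fun h => absurd h hq⟩
    choose n hn' using hxn
    have hxS : ∀ v ∈ S, loc v x ∈ LC ℓ v (loc v (η ^ a₀)) := by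
      intro v hv
      obtain ⟨z, hz⟩ := h1 v hv
      have h4 := hx v
      rw [map_pow, hz, mul_pow, ← pow_mul, mul_comm ℓ a₀, pow_mul, LC_mul_pow hpr.ne_zero] at h4
      rw [map_pow]
      exact h4
    obtain ⟨w, hw⟩ : ∃ w, w = x * (∏ q ∈ B, P q ^ n q)⁻¹ := ⟨_, rfl⟩
    have hxw : x = w * ∏ q ∈ B, P q ^ n q := by
      rw [hw, inv_mul_cancel_right]
    have hwo : ∀ v, v ∉ S → (ℓ : ℤ) ∣ od v w := by
      intro v hv
      rw [hw, od_mul, od_inv]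
      by_cases hvB : v ∈ B
      · rw [C.od_mem B n v hv hvB, neg_neg]
        have h4 := dvd_of_isP hpos (hn' v hvB)
        rw [od_mul, od_inv, od_zpow] at h4
        have h5 : od v x + n v = (od v x + -(n v * od v δ)) + n v * (od v δ + 1) := by ring
        rw [h5]
        exact dvd_add h4 (Dvd.dvd.mul_left (h2 v hvB) _)
      · rw [C.od_not B n v hv hvB, neg_zero, add_zero]
        exact hxo v hv hvB
    obtain ⟨c, hc⟩ : ∃ c : Pl K → ZMod ℓ, c = fun q => if q ∈ B then ((n q : ℤ) : ZMod ℓ) else 0 :=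
      ⟨_, rfl⟩
    have hcB : ∀ q ∈ B, c q = n q := by
      intro q hq
      rw [hc]
      exact if_pos hq
    have hcn : ∀ q, q ∉ B → c q = 0 := by
      intro q hq
      rw [hc]
      exact if_neg hq
    -- the element of the model
    have hmem : (cl w, c) ∈ MG ψ L0 LL u (fun q => cl (P q)) (fun p q => sv q (P p) (P q)) B := by
      refine ⟨(C.z0 _).2 ⟨w, hwo, rfl⟩, hcn, ?_, fun q hq => ?_⟩
      · have h4 : (cl w, c).1 + ∑ q ∈ B, (cl w, c).2 q • cl (P q) = cl x := by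
          show cl w + ∑ q ∈ B, c q • cl (P q) = cl x
          rw [hxw, C.ctx.mul, MDL.cl_prod C.ctx.mul]
          congr 1
          refine Finset.sum_congr rfl fun q hq => ?_
          rw [hcB q hq]
          obtain ⟨k, hk | hk⟩ := (n q).eq_nat_or_neg
          · rw [hk, zpow_natCast, cl_pow (ℓ := ℓ) C.ctx.mul, Int.cast_natCast]
          · rw [hk, zpow_neg, zpow_natCast, cl_inv C.ctx.mul, cl_pow (ℓ := ℓ) C.ctx.mul, Int.cast_neg,
              Int.cast_natCast, neg_smul]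
        rw [h4]
        exact zL x hxS
      · show - ψ (cl w) (cl (P q)) + c q * ψ (u : V) (cl (P q)) +
          ∑ p ∈ B.erase q, (c p - c q) * sv q (P p) (P q) = 0
        have hqS := hBS q hq
        have e1 : sv q w (P q) = - ψ (cl w) (cl (P q)) := C.sq q hqS w fun v hv _ => hwo v hv
        have e2 : sv q δ' (P q) = - ψ (cl δ') (cl (P q)) := C.sq q hqS δ' fun v hv _ => hδ'o v hv
        have e3 : sv q (x * (δ ^ n q)⁻¹) (P q) = 0 := C.ctx.hs.pow_left q _ _ (hn' q hq)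
        have e4 : sv q x (P q) = sv q w (P q) + ∑ p ∈ B, (n p : ZMod ℓ) * sv q (P p) (P q) := by
          conv_lhs => rw [hxw]
          rw [C.ctx.hs.mul_left, sl_prod C.ctx.hs]
          congr 1
          refine Finset.sum_congr rfl fun p _ => ?_
          rw [sl_zpow C.ctx.hs]
        have e5 : sv q δ (P q) = sv q δ' (P q) + ∑ p ∈ B, sv q (P p) (P q) := by
          conv_lhs => rw [hδδ']
          rw [C.ctx.hs.mul_left, sl_prod C.ctx.hs]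
        rw [C.ctx.hs.mul_left, sl_inv C.ctx.hs, sl_zpow C.ctx.hs, e4, e5, e1, e2, hs2] at e3
        rw [Finset.sum_erase B (by rw [sub_self, zero_mul])]
        have e6 : ∑ p ∈ B, (c p - c q) * sv q (P p) (P q) =
            ∑ p ∈ B, (n p : ZMod ℓ) * sv q (P p) (P q) -
              (n q : ZMod ℓ) * ∑ p ∈ B, sv q (P p) (P q) := by
          rw [Finset.mul_sum, ← Finset.sum_sub_distrib]
          refine Finset.sum_congr rfl fun p hp => ?_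
          rw [hcB p hp, hcB q hq]
          ring
        rw [e6, hcB q hq]
        linear_combination e3
    -- the generator
    have hg0 : ((u : V), fun q => if q ∈ B then (1 : ZMod ℓ) else 0) ∈
        MG ψ L0 LL u (fun q => cl (P q)) (fun p q => sv q (P p) (P q)) B := by
      refine ⟨u.2, fun q hq => if_neg hq, ?_, fun q hq => ?_⟩
      · have h4 : ∑ q ∈ B, (if q ∈ B then (1 : ZMod ℓ) else 0) • cl (P q) = d1 := by
          rw [← hs1]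
          refine Finset.sum_congr rfl fun q hq => ?_
          rw [if_pos hq, one_smul]
        show (u : V) + ∑ q ∈ B, (if q ∈ B then (1 : ZMod ℓ) else 0) • cl (P q) ∈ LL
        rw [h4, C.e]
        exact e_mem
      · show - ψ (u : V) (cl (P q)) + (if q ∈ B then (1 : ZMod ℓ) else 0) * ψ (u : V) (cl (P q)) +
          ∑ p ∈ B.erase q, ((if p ∈ B then (1 : ZMod ℓ) else 0) -
            (if q ∈ B then (1 : ZMod ℓ) else 0)) * sv q (P p) (P q) = 0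
        rw [if_pos hq, Finset.sum_eq_zero fun p hp => ?_, one_mul, add_zero, neg_add_cancel]
        rw [if_pos (Finset.mem_of_mem_erase hp), sub_self, zero_mul]
    obtain ⟨G, hG⟩ : ∃ G, G = MG ψ L0 LL u (fun q => cl (P q)) (fun p q => sv q (P p) (P q)) B :=
      ⟨_, rfl⟩
    have hcard : Nat.card G = ℓ := by
      rw [hG]
      exact hn
    rw [← hG] at hmem hg0
    have hgne : (⟨_, hg0⟩ : G) ≠ 0 := by
      intro h
      obtain ⟨q, hq⟩ := hne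
      have h4 : (fun q => if q ∈ B then (1 : ZMod ℓ) else 0) = (0 : Pl K → ZMod ℓ) :=
        congrArg (fun g : G => (g : V × (Pl K → ZMod ℓ)).2) h
      have h5 := congrFun h4 q
      simp only [if_pos hq] at h5
      exact one_ne_zero h5
    obtain ⟨m, hm⟩ := AddSubgroup.mem_zmultiples_iff.1
      (mem_zmultiples_of_prime_card (g' := (⟨_, hmem⟩ : G)) hcard hgne)
    have hm' : m • ((u : V), fun q => if q ∈ B then (1 : ZMod ℓ) else 0) = (cl w, c) :=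
      congrArg (fun g : G => (g : V × (Pl K → ZMod ℓ))) hm
    have hm1 : m • (u : V) = cl w := congrArg Prod.fst hm'
    have hm2 : ∀ q ∈ B, (m : ZMod ℓ) = (n q : ZMod ℓ) := by
      intro q hq
      have h4 : (m • ((u : V), fun q => if q ∈ B then (1 : ZMod ℓ) else 0)).2 q = c q :=
        congrFun (congrArg Prod.snd hm') q
      rw [← hcB q hq, ← h4]
      show _ = m • (if q ∈ B then (1 : ZMod ℓ) else 0)
      rw [if_pos hq, zsmul_one]
    -- conclusion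
    have hk : IsP ℓ (w * (δ' ^ m)⁻¹) := by
      refine C.ctx.inj _ ?_ fun v hv => ?_
      · rw [← C.ctx.ker, C.ctx.mul, cl_inv C.ctx.mul]
        have h4 : cl (δ' ^ m) = m • cl δ' := by
          obtain ⟨k, hk | hk⟩ := m.eq_nat_or_neg
          · rw [hk, zpow_natCast, cl_pow (ℓ := ℓ) C.ctx.mul, natCast_zsmul, Nat.cast_smul_eq_nsmul]
          · rw [hk, zpow_neg, zpow_natCast, cl_inv C.ctx.mul, cl_pow (ℓ := ℓ) C.ctx.mul, neg_smul,
              natCast_zsmul, Nat.cast_smul_eq_nsmul]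
        rw [h4, hs2, hm1, add_neg_cancel]
      · rw [pw_od hpos, od_mul, od_inv, od_zpow]
        exact dvd_add (hwo v hv) ((dvd_neg).2 (Dvd.dvd.mul_left (hδ'o v hv) _))
    obtain ⟨z, hz⟩ := hk
    have h4 : ∀ q, ∃ k : ℤ, q ∈ B → n q = m + ℓ * k := by
      intro q
      by_cases hq : q ∈ B
      · have h5 := hm2 q hq
        rw [ZMod.intCast_eq_intCast_iff_dvd_sub] at h5
        obtain ⟨k, hk⟩ := h5
        exact ⟨k, fun _ => by linarith⟩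
      · exact ⟨0, fun h => absurd h hq⟩
    choose k hk using h4
    suffices hfin : ∃ z' : Kˣ, x = δ ^ m * z' ^ ℓ by
      obtain ⟨z', hz'⟩ := hfin
      obtain ⟨r, s, hrs⟩ := hcopI
      refine ⟨m * s, δ ^ (m * r) * z', ?_⟩
      have h7 : δ ^ m = (δ ^ a₀) ^ (m * s) * (δ ^ (m * r)) ^ ℓ := by
        rw [← zpow_natCast δ a₀, ← zpow_mul, ← zpow_natCast (δ ^ (m * r)) ℓ, ← zpow_mul, ← zpow_add]
        congr 1
        calc m = m * (r * ℓ + s * a₀) := by rw [hrs, mul_one]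
          _ = _ := by ring
      rw [hz', h7, mul_pow, mul_assoc]
    refine ⟨z * ∏ q ∈ B, P q ^ k q, ?_⟩
    have h5 : ∏ q ∈ B, P q ^ n q = (∏ q ∈ B, P q) ^ m * (∏ q ∈ B, P q ^ k q) ^ ℓ := by
      rw [← Finset.prod_zpow, ← Finset.prod_pow, ← Finset.prod_mul_distrib]
      refine Finset.prod_congr rfl fun q hq => ?_
      rw [hk q hq, zpow_add, mul_comm (ℓ : ℤ) (k q), zpow_mul, zpow_natCast]
    have h6 : w = z ^ ℓ * δ' ^ m := by
      rw [← hz, inv_mul_cancel_right]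
    rw [hxw, h5, h6, hδδ', mul_zpow, mul_pow, mul_comm (z ^ ℓ) (δ' ^ m), mul_mul_mul_comm]
  · rintro ⟨z, hz⟩
    obtain ⟨v, hv⟩ := hne
    apply hnd v hv
    refine hcopI.dvd_of_dvd_mul_left ?_
    rw [← od_pow, hz, od_pow]
    exact dvd_mul_right _ _

end


theorem mdl_pow (hSV : S_SV) (hCHS : S_CHS) (hVSP : S_VSP) (hLZ : S_LZ) (hLAG : S_LAG) {ℓ : ℕ}
    [hfact : Fact ℓ.Prime] (hℓ2 : ℓ ≠ 2) {K : Type} [Field K] [NumberField K] {ζ : K}
    (hζ : IsPrimitiveRoot ζ ℓ) {a₀ : ℕ} (ha₁ : 1 ≤ a₀) (ha₂ : a₀ < ℓ) :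
    MDLQ ℓ K (fun δ => Good2 ℓ K ((δ : K) ^ a₀)) := by
  classical
  have hpr : ℓ.Prime := hfact.out
  have hpos : 0 < ℓ := hpr.pos
  haveI : NeZero ℓ := ⟨hpr.ne_zero⟩
  obtain ⟨sv, H⟩ := hSV ℓ hpr hℓ2 K ζ hζ
  obtain ⟨T₀, hT₀⟩ := hLZ ℓ hpr hℓ2 K ζ hζ
  refine ⟨T₀, fun S hS η => ?_⟩
  obtain ⟨hSne, hab, hgen, hinj, hcard⟩ := hT₀ S hS
  obtain ⟨𝔪, h𝔪0, h𝔪c, h𝔪⟩ := hCHS ℓ hpr hℓ2 K ζ hζ sv H S hab hSne
  obtain ⟨V, i1, i2, i3, ψ, cl, c1, c2, c3, c4, c5, c6, c7⟩ := hVSP ℓ hpr hℓ2 K ζ hζ sv H S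
  have C : Ctx ℓ K sv S V ψ cl := ⟨hpr, H, hab, hgen, hinj, c1, c2, c3, c6⟩
  -- the global classes
  obtain ⟨L0, hL0⟩ : ∃ L0, L0 = clS c1 ℓ (Sg ℓ S (fun _ => ⊤)) := ⟨_, rfl⟩
  have z0 : ∀ z, z ∈ L0 ↔ ∃ x, (∀ v, v ∉ S → (ℓ : ℤ) ∣ od v x) ∧ cl x = z := by
    intro z
    rw [hL0, mem_clS]
    constructor
    · rintro ⟨x, hx, hxz⟩
      exact ⟨x, fun v hv => (pw_od hpos v x).1 (hx.2 v hv), hxz⟩
    · rintro ⟨x, hx, hxz⟩
      exact ⟨x, ⟨fun v _ => Subgroup.mem_top _, fun v hv => (pw_od hpos v x).2 (hx v hv)⟩, hxz⟩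
  have iso0 : ∀ x ∈ L0, ∀ y ∈ L0, ψ x y = 0 := by
    intro x hx y hy
    obtain ⟨a, ha, rfl⟩ := (z0 x).1 hx
    obtain ⟨b, hb, rfl⟩ := (z0 y).1 hy
    exact C.prodS a b ha hb
  have card0 : Nat.card L0 ^ 2 = Nat.card V := by
    have h1 : Nat.card L0 = (cl '' (Sg ℓ S (fun _ => ⊤) : Set Kˣ)).ncard := by
      rw [hL0]
      exact Nat.card_coe_set_eq _
    rw [h1, c7]
    refine hcard V cl fun x y => ?_
    rw [← c3, c1, cl_inv c1, add_neg_eq_zero]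
  obtain ⟨hlag1, hlag2⟩ := hLAG ℓ hℓ2 V ψ c4 c5
  obtain ⟨L1, hcompl, iso1⟩ := hlag2 L0 iso0 card0
  obtain ⟨π, hπ⟩ : ∃ π : V →ₗ[ZMod ℓ] L0, ∀ x, x - (π x : V) ∈ L1 :=
    ⟨Submodule.projectionOnto L0 L1 hcompl, fun x => Submodule.sub_projection_mem hcompl x⟩
  -- the local conditions
  obtain ⟨I, hI⟩ : ∃ I, I = clS c1 ℓ (HS S (fun v => LC ℓ v (loc v η))) := ⟨_, rfl⟩
  have isoI : ∀ x ∈ I, ∀ y ∈ I, ψ x y = 0 := by
    intro x hx y hy
    rw [hI] at hx hy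
    obtain ⟨a, ha, rfl⟩ := hx
    obtain ⟨b, hb, rfl⟩ := hy
    rw [c6]
    exact Finset.sum_eq_zero fun v hv => isoLC H hpr hℓ2 hζ v η a b (ha v hv) (hb v hv)
  obtain ⟨LL, hILL, isoL, cardL⟩ := hlag1 I isoI
  have zL : ∀ x : Kˣ, (∀ v ∈ S, loc v x ∈ LC ℓ v (loc v η)) → cl x ∈ LL := by
    intro x hx
    apply hILL
    rw [hI]
    exact ⟨x, hx, rfl⟩
  -- the local conditions of the twist by the power
  obtain ⟨I2, hI2⟩ : ∃ I2, I2 = clS c1 ℓ (HS S (fun v => LC ℓ v (loc v (η ^ a₀)))) := ⟨_, rfl⟩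
  have isoI2 : ∀ x ∈ I2, ∀ y ∈ I2, ψ x y = 0 := by
    intro x hx y hy
    rw [hI2] at hx hy
    obtain ⟨a, ha, rfl⟩ := hx
    obtain ⟨b, hb, rfl⟩ := hy
    rw [c6]
    exact Finset.sum_eq_zero fun v hv => isoLC H hpr hℓ2 hζ v (η ^ a₀) a b (ha v hv) (hb v hv)
  obtain ⟨L2, hIL2, isoL2, cardL2⟩ := hlag1 I2 isoI2
  have zL2 : ∀ x : Kˣ, (∀ v ∈ S, loc v x ∈ LC ℓ v (loc v (η ^ a₀))) → cl x ∈ L2 := by
    intro x hx
    apply hIL2
    rw [hI2]
    exact ⟨x, hx, rfl⟩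
  have hcop : Nat.Coprime a₀ ℓ := by
    rw [Nat.coprime_comm, hpr.coprime_iff_not_dvd]
    exact fun h => absurd (Nat.le_of_dvd ha₁ h) (not_le.2 ha₂)
  have eL2 : cl η ∈ L2 := by
    have h1 : cl (η ^ a₀) ∈ L2 := zL2 _ fun v hv => self_mem_LC v _
    rw [cl_pow (ℓ := ℓ) c1] at h1
    have h2 : IsUnit ((a₀ : ℕ) : ZMod ℓ) := (ZMod.isUnit_iff_coprime a₀ ℓ).2 hcop
    obtain ⟨w, hw⟩ := h2
    have h3 := L2.smul_mem (↑w⁻¹ : ZMod ℓ) h1
    rwa [smul_smul, ← hw, Units.inv_mul, one_smul] at h3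
  -- uniformizers
  have hP : ∀ q : Pl K, ∃ p : Kˣ, (∀ v, v ∉ S → v ≠ q → od v p = 0) ∧ (q ∉ S → od q p = -1) ∧
      cl p ∈ L1 := by
    intro q
    obtain ⟨y, hy⟩ := hgen (Pi.single (M := fun _ : Pl K => ℤ) q 1)
      ((Set.finite_singleton q).subset (by
        intro v hv
        by_contra hc
        exact hv (Pi.single_eq_of_ne hc _)))
    obtain ⟨x, hx, hx'⟩ := (z0 _).1 (π (cl y)).2
    obtain ⟨x0, hx0, hx0'⟩ := C.unit_rep x hx
    refine ⟨y * x0⁻¹, fun v hv hvq => ?_, fun hq => ?_, ?_⟩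
    · rw [od_mul, od_inv, hx0' v hv, od_eq (hy v hv), Pi.single_eq_of_ne hvq]
      simp
    · rw [od_mul, od_inv, hx0' q hq, od_eq (hy q hq), Pi.single_eq_same]
      simp
    · rw [c1, cl_inv c1, hx0, hx', ← sub_eq_add_neg]
      exact hπ _
  choose P pP pP1 pL using hP
  obtain ⟨u, hu⟩ : ∃ u, u = π (cl η) := ⟨_, rfl⟩
  obtain ⟨d1, hd1⟩ : ∃ d1, d1 = cl η - (u : V) := ⟨_, rfl⟩
  have d1m : d1 ∈ L1 := by
    rw [hd1, hu]
    exact hπ _
  have he : (u : V) + d1 = cl η := by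
    rw [hd1, add_sub_cancel]
  have C2 : Ctx2 ℓ K sv S V ψ cl η L0 L1 LL P u d1 :=
    ⟨C, z0, hcompl, iso1, zL, pP, pP1, pL, d1m, he⟩
  have hpw1 : ∀ (v : Pl K) (δ : Kˣ), Pw ℓ (v.valuation K (δ : K) * WithZero.exp (1 : ℤ)) →
      (ℓ : ℤ) ∣ od v δ + 1 := by
    intro v δ h
    rw [val_od, ← WithZero.exp_add, pw_exp' hpos] at h
    exact h
  refine ⟨𝔪, V, i1, i2, i3, ψ, L0, L1, L2, π, u, d1, fun q => cl (P q),
    fun p q => sv q (P p) (P q), ⟨⟨c4, c5, hcompl, iso0, iso1, isoL2, ?_, hπ, d1m, ?_⟩,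
      fun q _ => pL q, ⟨h𝔪0, h𝔪c, ?_, ?_, ?_⟩⟩, ?_, ?_, hinj⟩
  · exact Nat.pow_left_injective (n := 2) (by norm_num) (cardL2.trans card0.symm)
  · rw [he]
    exact eL2
  · intro h h' q
    show ψ ((h + h' : L0) : V) (cl (P q)) = _
    rw [Submodule.coe_add, map_add, LinearMap.add_apply]
  · intro p q hp hq hpq
    exact C2.symm hp hq hpq
  · intro h j B hB hj
    exact C2.char 𝔪 h𝔪 h j B hB hj
  · intro δ B h1 hB h2 h3
    have h2' : ∀ v ∈ B, (ℓ : ℤ) ∣ od v δ + 1 := fun v hv => hpw1 v δ (h2 v hv)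
    have h3' : ∀ v, v ∉ S → v ∉ B → (ℓ : ℤ) ∣ od v δ := fun v hv hvB =>
      (pw_od hpos v δ).1 (h3 v hv hvB)
    exact ⟨(C2.sum δ B h1 h2' h3').1, fun hne hn => C2.good_pow hℓ2 hζ ha₁ ha₂ L2 zL2 eL2 δ B hB h1 h2' h3' hne hn⟩
  · intro B hB hs
    exact C2.exists_delta B hB hs

end Pool.Agent.T3h73.SD.MDL
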