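import Pool.Agent.T3h73.SD.Stm3

/-!
# Project SD (helper73, MP_a43263). Part V: construction of the model, and the final assembly
-/

set_option autoImplicit false
set_option linter.all false

open NumberField IsDedekindDomain Filter Topology

namespace Pool.Agent.T3h73.SD

open Pool.Agent.T3h73.SL (Pl IsP Pk loc Good2 LC Sg)
open Pool.Agent.Y713.SE (Pw)
open Pool.Agent.Y773.G (IsModChar)

/-- local symbols with values in `ZMod ℓ`, written additively -/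
structure Sv (ℓ : ℕ) (K : Type) [Field K] [NumberField K]
    (sv : Pl K → Kˣ → Kˣ → ZMod ℓ) : Prop where
  mul_left : ∀ v x x' y, sv v (x * x') y = sv v x y + sv v x' y
  mul_right : ∀ v x y y', sv v x (y * y') = sv v x y + sv v x y'
  alt : ∀ v x, sv v x x = 0
  ln : ∀ v x y, LN ℓ v x y → sv v x y = 0
  pow_left : ∀ v x y, IsP ℓ (loc v x) → sv v x y = 0
  pow_right : ∀ v x y, IsP ℓ (loc v y) → sv v x y = 0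
  unr : ∀ v : Pl K, v.valuation K (ℓ : K) = 1 → ∀ x y : Kˣ, Pw ℓ (v.valuation K (x : K)) →
    Pw ℓ (v.valuation K (y : K)) → sv v x y = 0
  nd : ∀ v x, (∀ y, sv v x y = 0) → IsP ℓ (loc v x)
  prod : ∀ B : Finset (Pl K), (∀ v : Pl K, v.valuation K (ℓ : K) ≠ 1 → v ∈ B) → ∀ x y : Kˣ,
    (∀ v, v ∉ B → Pw ℓ (v.valuation K (x : K)) ∧ Pw ℓ (v.valuation K (y : K))) →
    ∑ v ∈ B, sv v x y = 0

/-- SV: the symbols exist -/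
def S_SV : Prop := ∀ (ℓ : ℕ) (_ : ℓ.Prime) (_ : ℓ ≠ 2) (K : Type) [Field K] [NumberField K] (ζ : K)
  (_ : IsPrimitiveRoot ζ ℓ), ∃ sv, Sv ℓ K sv

/-- LGP: an element which is everywhere locally an `ℓ`-th power -/
def S_LGP : Prop := ∀ (ℓ : ℕ) (_ : ℓ.Prime) (K : Type) [Field K] [NumberField K] (ζ : K)
  (_ : IsPrimitiveRoot ζ ℓ) (y : Kˣ), (∀ v : Pl K, IsP ℓ (loc v y)) → IsP ℓ y

/-- CHS: the ray class characters given by the symbols -/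
def S_CHS : Prop := ∀ (ℓ : ℕ) (_ : ℓ.Prime) (_ : ℓ ≠ 2) (K : Type) [Field K] [NumberField K] (ζ : K)
  (_ : IsPrimitiveRoot ζ ℓ) (sv : Pl K → Kˣ → Kˣ → ZMod ℓ), Sv ℓ K sv → ∀ S : Finset (Pl K),
  (∀ v, v.valuation K (ℓ : K) ≠ 1 → v ∈ S) → S.Nonempty → ∃ 𝔪 : Ideal (𝓞 K), 𝔪 ≠ ⊥ ∧
  (∀ v : Pl K, IsCoprime v.asIdeal 𝔪 ↔ v ∉ S) ∧
  ∀ (B : Finset (Pl K)), Disjoint B S → ∀ y : Kˣ,
    (∀ v, v ∉ S → (¬ Pw ℓ (v.valuation K (y : K)) ↔ v ∈ B)) →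
    ∃ η : Ideal (𝓞 K) →*₀ ℂ, IsModChar (𝔪 * ∏ b ∈ B, b.asIdeal) (fun _ => 0) η ∧
      (∀ 𝔞, IsCoprime 𝔞 (𝔪 * ∏ b ∈ B, b.asIdeal) → η 𝔞 ^ ℓ = 1) ∧
      (∀ q : Pl K, q ∉ S → q ∉ B → ∀ π : Kˣ, q.valuation K (π : K) = WithZero.exp (-1 : ℤ) →
        η q.asIdeal = ee ℓ (sv q y π)) ∧
      (¬ IsP ℓ y → ∃ 𝔞, IsCoprime 𝔞 (𝔪 * ∏ b ∈ B, b.asIdeal) ∧ η 𝔞 ≠ 1) ∧
      (B.Nonempty → ∃ α : 𝓞 K, IsCoprime (Ideal.span {α}) (𝔪 * ∏ b ∈ B, b.asIdeal) ∧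
        η (Ideal.span {α}) ≠ 1)

/-- VSP: the space of the local classes at the places of `S` -/
def S_VSP : Prop := ∀ (ℓ : ℕ) (_ : ℓ.Prime) (_ : ℓ ≠ 2) (K : Type) [Field K] [NumberField K] (ζ : K)
  (_ : IsPrimitiveRoot ζ ℓ) (sv : Pl K → Kˣ → Kˣ → ZMod ℓ), Sv ℓ K sv → ∀ S : Finset (Pl K),
  ∃ (V : Type) (_ : AddCommGroup V) (_ : Module (ZMod ℓ) V) (_ : Finite V)
    (ψ : V →ₗ[ZMod ℓ] V →ₗ[ZMod ℓ] ZMod ℓ) (cl : Kˣ → V),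
  (∀ x y, cl (x * y) = cl x + cl y) ∧ Function.Surjective cl ∧
  (∀ x, cl x = 0 ↔ ∀ v ∈ S, IsP ℓ (loc v x)) ∧ (∀ x, ψ x x = 0) ∧
  (∀ x, (∀ y, ψ x y = 0) → x = 0) ∧ (∀ x y, ψ (cl x) (cl y) = ∑ v ∈ S, sv v x y) ∧
  Nat.card V = VT ℓ S

/-- LZ: large sets `S` -/
def S_LZ : Prop := ∀ (ℓ : ℕ) (_ : ℓ.Prime) (_ : ℓ ≠ 2) (K : Type) [Field K] [NumberField K] (ζ : K)
  (_ : IsPrimitiveRoot ζ ℓ), ∃ T₀ : Finset (Pl K), ∀ S : Finset (Pl K), T₀ ⊆ S → S.Nonempty ∧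
    (∀ v, v.valuation K (ℓ : K) ≠ 1 → v ∈ S) ∧
    (∀ m : Pl K → ℤ, {v | m v ≠ 0}.Finite →
      ∃ x : Kˣ, ∀ v, v ∉ S → v.valuation K (x : K) = WithZero.exp (-(m v))) ∧
    (∀ x : Kˣ, (∀ v ∈ S, IsP ℓ (loc v x)) → (∀ v, v ∉ S → Pw ℓ (v.valuation K (x : K))) → IsP ℓ x) ∧
    ∀ (V : Type) (cl : Kˣ → V), (∀ x y, cl x = cl y ↔ ∀ v ∈ S, IsP ℓ (loc v (x * y⁻¹))) →
      (cl '' (Sg ℓ S (fun _ => ⊤) : Set Kˣ)).ncard ^ 2 = VT ℓ S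

/-- `δ` is equivalent to `η` at the places of `S`, of valuation `1` modulo `ℓ` at the places of `P` and
of valuation `0` modulo `ℓ` at the other places -/
def Tw (ℓ : ℕ) {K : Type} [Field K] [NumberField K] (S : Finset (Pl K)) (η : Kˣ)
    (P : Finset (Pl K)) (δ : Kˣ) : Prop :=
  (∀ v ∈ S, ∃ z, loc v δ = loc v η * z ^ ℓ) ∧
  (∀ v ∈ P, Pw ℓ (v.valuation K (δ : K) * WithZero.exp (1 : ℤ))) ∧
  ∀ v, v ∉ S → v ∉ P → Pw ℓ (v.valuation K (δ : K))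

/-- the sets `P` for which there is such a `δ` -/
def Gs (ℓ : ℕ) {K : Type} [Field K] [NumberField K] (S : Finset (Pl K)) (η : Kˣ) :
    Set (Finset (Pl K)) := {P | Disjoint P S ∧ ∃ δ : Kˣ, Tw ℓ S η P δ}

open Classical in
/-- TYP: the proportion for one type -/
def S_TYP : Prop := ∀ (ℓ : ℕ) (_ : ℓ.Prime) (_ : ℓ ≠ 2) (K : Type) [Field K] [NumberField K] (ζ : K)
  (_ : IsPrimitiveRoot ζ ℓ), ∃ T₀ : Finset (Pl K), ∀ S : Finset (Pl K), T₀ ⊆ S →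
    (∀ x : Kˣ, (∀ v ∈ S, IsP ℓ (loc v x)) → (∀ v, v ∉ S → Pw ℓ (v.valuation K (x : K))) → IsP ℓ x) ∧
    ∀ η : Kˣ, (∃ c : ℝ, 0 < c ∧ ∀ᶠ s : ℝ in 𝓝[>] 1, c * T0 S s ≤
      ∑' P : Finset (Pl K), if P ∈ Gs ℓ S η then (NA P : ℝ) ^ (-s) else 0) ∧
    ∀ ε : ℝ, 0 < ε → ∀ᶠ s : ℝ in 𝓝[>] 1,
      (kap ℓ - ε) * (∑' P : Finset (Pl K), if P ∈ Gs ℓ S η then (NA P : ℝ) ^ (-s) else 0) ≤
      ∑' P : Finset (Pl K), if P ∈ Gs ℓ S η ∧ ∀ δ : Kˣ, Tw ℓ S η P δ → Good2 ℓ K (δ : K) then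
        (NA P : ℝ) ^ (-s) else 0

end Pool.Agent.T3h73.SD
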