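import Pool.Agent.T3h73.SD.Stm
import Pool.Agent.TeamU.B2

/-!
# Project SD, task TUN: the Kummer extension `K(w ^ (1/ℓ))`: generator, norms, primes
-/

set_option autoImplicit false
set_option linter.all false

open NumberField IsDedekindDomain Polynomial Module

namespace Pool.Agent.T3h73.SD.TUN

open Pool.Agent.T3h73.SL (Pl IsP Pk loc)
open Pool.Agent.Y713.SE (Pw)
open Pool.Agent.TeamU (Over SE act act_mul val_act val_act' over_act exists_act val_over over_unique
  b2_exists_over b2_exists_under over_finite SE_finite over_mem_SE_iff)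

section gen
variable {K M : Type} [Field K] [NumberField K] [Field M] [NumberField M] [Algebra K M]

theorem not_pow {ℓ : ℕ} (hℓ : ℓ.Prime) {w : Kˣ} (hw : ¬ IsP ℓ w) (b : K) : b ^ ℓ ≠ (w : K) := by
  intro h
  have hb : b ≠ 0 := by
    rintro rfl
    rw [zero_pow hℓ.ne_zero] at h
    exact w.ne_zero h.symm
  apply hw
  refine ⟨Units.mk0 b hb, ?_⟩
  ext
  rw [Units.val_pow_eq_pow_val, Units.val_mk0, h]

/-- the generator of the Galois group of the Kummer extension -/
theorem exists_gen {ℓ : ℕ} (hℓ : ℓ.Prime) {ζ : K} (hζ : IsPrimitiveRoot ζ ℓ) {w : Kˣ}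
    (hw : ¬ IsP ℓ w) {r : M} (hr : r ^ ℓ = algebraMap K M (w : K)) (hd : finrank K M = ℓ) :
    IsGalois K M ∧ ∃ σ : M ≃ₐ[K] M, σ r = algebraMap K M ζ * r ∧
      (∀ τ : M ≃ₐ[K] M, τ ∈ Subgroup.zpowers σ) ∧ orderOf σ = ℓ := by
  classical
  haveI : FiniteDimensional K M := Module.Finite.of_restrictScalars_finite ℚ K M
  have hirr : Irreducible (X ^ ℓ - C (w : K) : K[X]) :=
    X_pow_sub_C_irreducible_of_prime hℓ (not_pow hℓ hw)
  have hmin : minpoly K r = X ^ ℓ - C (w : K) := by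
    symm
    refine minpoly.eq_of_irreducible_of_monic hirr ?_ (monic_X_pow_sub_C _ hℓ.ne_zero)
    rw [map_sub, map_pow, aeval_X, aeval_C, hr, sub_self]
  have htop : IntermediateField.adjoin K {r} = ⊤ := by
    apply IntermediateField.eq_of_le_of_finrank_eq le_top
    rw [IntermediateField.adjoin.finrank (IsIntegral.of_finite K r), hmin,
      natDegree_X_pow_sub_C, IntermediateField.finrank_top', hd]
  have hζ' : (primitiveRoots (finrank K M) K).Nonempty := by
    rw [hd]; exact ⟨ζ, (mem_primitiveRoots hℓ.pos).2 hζ⟩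
  have hsp : IsSplittingField K M (X ^ (finrank K M) - C (w : K)) :=
    isSplittingField_X_pow_sub_C_of_root_adjoin_eq_top hζ' (by rw [hd]; exact hr) htop
  rw [hd] at hsp hζ'
  haveI hg : IsGalois K M := isGalois_of_isSplittingField_X_pow_sub_C hζ' hirr M
  refine ⟨hg, ?_⟩
  haveI : NeZero ℓ := ⟨hℓ.ne_zero⟩
  set σ : M ≃ₐ[K] M := (autEquivZmod hirr M hζ).symm (Multiplicative.ofAdd ((1 : ℕ) : ZMod ℓ)) with hσ
  have h1 : σ r = algebraMap K M ζ * r := by
    rw [hσ, autEquivZmod_symm_apply_natCast hirr M hr hζ 1, pow_one, Algebra.smul_def]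
  have hcard : Nat.card (M ≃ₐ[K] M) = ℓ := by rw [IsGalois.card_aut_eq_finrank, hd]
  have hr0 : r ≠ 0 := by
    rintro rfl
    rw [zero_pow hℓ.ne_zero, eq_comm, FaithfulSMul.algebraMap_eq_zero_iff] at hr
    exact w.ne_zero hr
  have hσ1 : σ ≠ 1 := by
    intro h
    rw [h, AlgEquiv.one_apply] at h1
    have h2 : algebraMap K M ζ = 1 := by
      have h3 : algebraMap K M ζ * r = 1 * r := by rw [one_mul]; exact h1.symm
      exact mul_right_cancel₀ hr0 h3
    rw [← map_one (algebraMap K M)] at h2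
    have h4 := (algebraMap K M).injective h2
    exact hζ.ne_one hℓ.one_lt h4
  haveI : Fact ℓ.Prime := ⟨hℓ⟩
  have hgen : ∀ τ : M ≃ₐ[K] M, τ ∈ Subgroup.zpowers σ := fun τ =>
    mem_zpowers_of_prime_card hcard hσ1
  exact ⟨σ, h1, hgen, by rw [orderOf_eq_card_of_forall_mem_zpowers hgen, hcard]⟩

theorem norm_eq {ℓ : ℕ} (hg : IsGalois K M) {σ : M ≃ₐ[K] M}
    (hgen : ∀ τ : M ≃ₐ[K] M, τ ∈ Subgroup.zpowers σ) (ho : orderOf σ = ℓ) (x : M) :
    algebraMap K M (Algebra.norm K x) = ∏ i ∈ Finset.range ℓ, (σ ^ i) x := by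
  classical
  haveI : FiniteDimensional K M := Module.Finite.of_restrictScalars_finite ℚ K M
  haveI : IsCyclic (M ≃ₐ[K] M) := ⟨σ, hgen⟩
  rw [Algebra.norm_eq_prod_automorphisms]
  have h1 : (Finset.univ : Finset (M ≃ₐ[K] M)) = Finset.image (fun i => σ ^ i) (Finset.range ℓ) := by
    rw [← ho, IsCyclic.image_range_orderOf hgen]
  rw [h1, Finset.prod_image]
  intro i hi j hj hij
  rw [← ho] at hi hj
  exact pow_injOn_Iio_orderOf (Finset.mem_range.1 (Finset.mem_coe.1 hi))
    (Finset.mem_range.1 (Finset.mem_coe.1 hj)) hij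

/-- fixed elements -/
theorem fixed {σ : M ≃ₐ[K] M} (hg : IsGalois K M) (hgen : ∀ τ : M ≃ₐ[K] M, τ ∈ Subgroup.zpowers σ)
    {x : M} (hx : σ x = x) : ∃ a : K, algebraMap K M a = x := by
  haveI : FiniteDimensional K M := Module.Finite.of_restrictScalars_finite ℚ K M
  have h1 : x ∈ Set.range (algebraMap K M) := by
    rw [IsGalois.mem_range_algebraMap_iff_fixed]
    intro τ
    obtain ⟨n, rfl⟩ := Subgroup.mem_zpowers_iff.1 (hgen τ)
    have h4 : σ ∈ MulAction.stabilizer (M ≃ₐ[K] M) x := hx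
    exact Subgroup.zpow_mem _ h4 n
  exact h1

theorem pow_apply {σ : M ≃ₐ[K] M} (n : ℕ) (x : M) : (σ ^ n) x = σ^[n] x := by
  induction n with
  | zero => rfl
  | succ n ih => rw [Function.iterate_succ_apply', ← ih, pow_succ', AlgEquiv.mul_apply]

/-- if there is only one prime above `v`, the automorphisms preserve its valuation -/
theorem val_inv {P : Pl M} {v : Pl K} (hP : Over P v) (hu : ∀ Q : Pl M, Over Q v → Q = P)
    (τ : M ≃ₐ[K] M) (x : M) : P.valuation M (τ x) = P.valuation M x := by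
  have h1 := hu _ (over_act τ hP)
  conv_lhs => rw [← h1]
  exact val_act τ P x

theorem ram_ne_zero {P : Pl M} {v : Pl K} (hP : Over P v) :
    v.asIdeal.ramificationIdx' P.asIdeal ≠ 0 := by
  haveI := Pool.Agent.TeamU.liesOver_of_over hP
  intro h
  obtain ⟨π, hπ⟩ := v.valuation_exists_uniformizer K
  have h1 := val_over hP (0 : K)
  rw [map_zero, map_zero, h, pow_zero] at h1
  simp at h1

end gen

end Pool.Agent.T3h73.SD.TUN
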