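import Pool.Agent.T3h73.SD.TUN1
import Pool.Agent.H723R3.EuclidLocal

/-!
# Project SD, task TUN: decomposition of the places in `K(w ^ (1/ℓ))`
-/

set_option autoImplicit false
set_option linter.all false

open NumberField IsDedekindDomain Polynomial Module

namespace Pool.Agent.T3h73.SD.TUN

open Pool.Agent.T3h73.SL (Pl IsP Pk loc)
open Pool.Agent.Y713.SE (Pw)
open Pool.Agent.TeamU (Over SE act act_mul val_act val_act' over_act exists_act val_over over_unique
  b2_exists_over b2_exists_under over_finite SE_finite over_mem_SE_iff liesOver_of_over)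

section dec
variable {K M : Type} [Field K] [NumberField K] [Field M] [NumberField M] [Algebra K M]

theorem ncard_over (v : Pl K) :
    {P : Pl M | Over P v}.ncard = (v.asIdeal.primesOver (𝓞 M)).ncard := by
  have hinj : Function.Injective (HeightOneSpectrum.asIdeal : Pl M → Ideal (𝓞 M)) :=
    fun P Q h => HeightOneSpectrum.ext h
  rw [← Set.ncard_image_of_injective _ hinj]
  congr 1
  ext Q
  constructor
  · rintro ⟨P, hP, rfl⟩
    exact ⟨P.isPrime, ⟨Eq.symm hP⟩⟩
  · rintro ⟨h1, h2⟩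
    refine ⟨⟨Q, h1, ?_⟩, h2.over.symm, rfl⟩
    rintro rfl
    apply v.ne_bot
    rw [h2.over]
    exact Ideal.under_bot _ _

theorem fund {ℓ : ℕ} (hg : IsGalois K M) (hd : finrank K M = ℓ) {v : Pl K} {P : Pl M}
    (hP : Over P v) : {P : Pl M | Over P v}.ncard * (v.asIdeal.ramificationIdx' P.asIdeal *
      Ideal.inertiaDegIn v.asIdeal (𝓞 M)) = ℓ := by
  haveI : FiniteDimensional K M := Module.Finite.of_restrictScalars_finite ℚ K M
  haveI : IsGaloisGroup (M ≃ₐ[K] M) K M := inferInstance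
  haveI : IsGaloisGroup (M ≃ₐ[K] M) (𝓞 K) (𝓞 M) := inferInstance
  have hcard : Nat.card (M ≃ₐ[K] M) = ℓ := by rw [IsGalois.card_aut_eq_finrank, hd]
  have hfund := Ideal.ncard_primesOver_mul_ramificationIdxIn_mul_inertiaDegIn v.asIdeal (𝓞 M)
    (M ≃ₐ[K] M)
  haveI := liesOver_of_over hP
  haveI := v.isPrime
  haveI := P.isPrime
  rw [hcard, Ideal.ramificationIdxIn_eq_ramificationIdx v.asIdeal P.asIdeal (M ≃ₐ[K] M),
    ← Ideal.ramificationIdx'_eq_ramificationIdx v.asIdeal P.asIdeal v.ne_bot, ← ncard_over] at hfund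
  exact hfund

theorem ncard_cases {ℓ : ℕ} (hℓ : ℓ.Prime) (hg : IsGalois K M) (hd : finrank K M = ℓ) (v : Pl K) :
    {P : Pl M | Over P v}.ncard = 1 ∨ {P : Pl M | Over P v}.ncard = ℓ := by
  obtain ⟨P, hP⟩ := b2_exists_over (E := M) v
  exact (Nat.dvd_prime hℓ).1 ⟨_, (fund hg hd hP).symm⟩

/-- the projections to the eigenspaces -/
theorem eigen {ℓ : ℕ} {σ : M ≃ₐ[K] M} (ho : orderOf σ = ℓ) {z : K} (hz : z ^ ℓ = 1) (x : M) :
    algebraMap K M z * σ (∑ j ∈ Finset.range ℓ, algebraMap K M z ^ j * (σ ^ j) x) =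
      ∑ j ∈ Finset.range ℓ, algebraMap K M z ^ j * (σ ^ j) x := by
  rw [map_sum, Finset.mul_sum]
  have h1 : ∀ j ∈ Finset.range ℓ, algebraMap K M z * σ (algebraMap K M z ^ j * (σ ^ j) x) =
      algebraMap K M z ^ (j + 1) * (σ ^ (j + 1)) x := by
    intro j _
    rw [map_mul, map_pow, AlgEquiv.commutes, pow_succ' σ j, AlgEquiv.mul_apply]
    ring
  rw [Finset.sum_congr rfl h1]
  have h2 := Finset.sum_range_succ' (fun j => algebraMap K M z ^ j * (σ ^ j) x) ℓ
  rw [Finset.sum_range_succ] at h2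
  have h3 : algebraMap K M z ^ ℓ * (σ ^ ℓ) x = algebraMap K M z ^ 0 * (σ ^ 0) x := by
    rw [← map_pow, hz, ← ho, pow_orderOf_eq_one, map_one, pow_zero, pow_zero]
  rw [h3] at h2
  exact (add_right_cancel h2).symm

theorem sum_pow {ℓ : ℕ} (hℓ : ℓ.Prime) {ζ : K} (hζ : IsPrimitiveRoot ζ ℓ) {j : ℕ} (hj : j < ℓ) :
    ∑ i ∈ Finset.range ℓ, (ζ ^ i) ^ j = if j = 0 then (ℓ : K) else 0 := by
  split_ifs with h
  · subst h; simp
  · have h1 : ∀ i ∈ Finset.range ℓ, (ζ ^ i) ^ j = (ζ ^ j) ^ i := fun i _ => by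
      rw [← pow_mul, ← pow_mul, mul_comm]
    rw [Finset.sum_congr rfl h1]
    have h2 : IsPrimitiveRoot (ζ ^ j) ℓ := by
      apply hζ.pow_of_coprime
      exact (Nat.coprime_of_lt_prime h hj hℓ).symm
    exact h2.geom_sum_eq_zero hℓ.one_lt

/-- outside `T` the extension is unramified -/
theorem unr {ℓ : ℕ} (hℓ : ℓ.Prime) {ζ : K} (hζ : IsPrimitiveRoot ζ ℓ) {w : Kˣ} {r : M}
    (hr : r ^ ℓ = algebraMap K M (w : K)) (hd : finrank K M = ℓ) (hg : IsGalois K M)
    {σ : M ≃ₐ[K] M} (hσ : σ r = algebraMap K M ζ * r)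
    (hgen : ∀ τ : M ≃ₐ[K] M, τ ∈ Subgroup.zpowers σ) (ho : orderOf σ = ℓ) {v : Pl K}
    (hvl : v.valuation K (ℓ : K) = 1) (hvw : Pw ℓ (v.valuation K (w : K))) {P : Pl M}
    (hP : Over P v) (x : K) : P.valuation M (algebraMap K M x) = v.valuation K x := by
  classical
  rw [val_over hP]
  set e := v.asIdeal.ramificationIdx' P.asIdeal with he
  suffices h : e = 1 by rw [h, pow_one]
  by_contra hne
  have he0 : e ≠ 0 := ram_ne_zero hP
  have hf := fund hg hd hP
  rw [← he] at hf
  have hg1 : {P : Pl M | Over P v}.ncard = 1 := by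
    rcases ncard_cases hℓ hg hd v with h | h
    · exact h
    · exfalso
      rw [h] at hf
      have h1 : e * Ideal.inertiaDegIn v.asIdeal (𝓞 M) = 1 :=
        Nat.eq_of_mul_eq_mul_left hℓ.pos (by rw [hf, mul_one])
      exact hne (Nat.eq_one_of_mul_eq_one_right h1)
  have huniq : ∀ Q : Pl M, Over Q v → Q = P := by
    obtain ⟨Q, hQ⟩ := Set.ncard_eq_one.1 hg1
    intro Q' hQ'
    have h1 : Q' ∈ ({P : Pl M | Over P v} : Set (Pl M)) := hQ'
    have h2 : P ∈ ({P : Pl M | Over P v} : Set (Pl M)) := hP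
    rw [hQ] at h1 h2
    rw [Set.mem_singleton_iff] at h1 h2
    rw [h1, h2]
  -- normalise `r`
  obtain ⟨β, hβ⟩ := hvw
  have hw0 : v.valuation K (w : K) ≠ 0 := (Valuation.ne_zero_iff _).2 w.ne_zero
  have hβ0 : β ≠ 0 := by
    rintro rfl
    rw [zero_pow hℓ.ne_zero] at hβ
    exact hw0 hβ
  obtain ⟨c, hc⟩ : ∃ c : K, v.valuation K c = β⁻¹ := by
    exact v.valuation_surjective K β⁻¹
  have hc0 : c ≠ 0 := by
    rintro rfl
    rw [map_zero] at hc
    exact inv_ne_zero hβ0 hc.symm
  set ρ : M := algebraMap K M c * r with hρ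
  have hρσ : σ ρ = algebraMap K M ζ * ρ := by
    rw [hρ, map_mul, AlgEquiv.commutes, hσ]; ring
  have hρv : P.valuation M ρ = 1 := by
    have h1 : ρ ^ ℓ = algebraMap K M (c ^ ℓ * w) := by
      rw [hρ, mul_pow, hr, map_mul, map_pow]
    have h2 : (P.valuation M ρ) ^ ℓ = 1 := by
      rw [← map_pow, h1, val_over hP, map_mul, map_pow, hc, hβ, ← mul_pow, inv_mul_cancel₀ hβ0,
        one_pow, one_pow]
    exact (pow_eq_one_iff_of_nonneg zero_le' hℓ.ne_zero).1 h2
  have hρ0 : ρ ≠ 0 := by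
    intro h
    rw [h, map_zero] at hρv
    exact zero_ne_one hρv
  obtain ⟨x, hx⟩ := P.valuation_exists_uniformizer M
  have hζ1 : ∀ i : ℕ, (ζ ^ i) ^ ℓ = 1 := fun i => by
    rw [← pow_mul, mul_comm, pow_mul, hζ.pow_eq_one, one_pow]
  have hζv : v.valuation K ζ = 1 := by
    have h2 : (v.valuation K ζ) ^ ℓ = 1 := by rw [← map_pow, hζ.pow_eq_one, map_one]
    exact (pow_eq_one_iff_of_nonneg zero_le' hℓ.ne_zero).1 h2
  set y : ℕ → M := fun i => ∑ j ∈ Finset.range ℓ, algebraMap K M (ζ ^ i) ^ j * (σ ^ j) x with hy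
  have hyv : ∀ i, P.valuation M (y i) ≤ WithZero.exp (-1 : ℤ) := by
    intro i
    refine Valuation.map_sum_le _ fun j _ => ?_
    rw [map_mul, map_pow, val_over hP, map_pow, hζv, one_pow, one_pow, one_pow, one_mul,
      val_inv hP huniq, hx]
  have hysum : ∑ i ∈ Finset.range ℓ, y i = algebraMap K M (ℓ : K) * x := by
    rw [hy, Finset.sum_comm]
    have h1 : ∀ j ∈ Finset.range ℓ, ∑ i ∈ Finset.range ℓ, algebraMap K M (ζ ^ i) ^ j * (σ ^ j) x =
        if j = 0 then algebraMap K M (ℓ : K) * x else 0 := by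
      intro j hj
      rw [← Finset.sum_mul]
      have h2 : ∑ i ∈ Finset.range ℓ, algebraMap K M (ζ ^ i) ^ j =
          algebraMap K M (∑ i ∈ Finset.range ℓ, (ζ ^ i) ^ j) := by
        rw [map_sum]
        exact Finset.sum_congr rfl fun i _ => by rw [← map_pow]
      rw [h2, sum_pow hℓ hζ (Finset.mem_range.1 hj)]
      split_ifs with h
      · rw [h, pow_zero, AlgEquiv.one_apply]
      · rw [map_zero, zero_mul]
    rw [Finset.sum_congr rfl h1, Finset.sum_ite_eq' , if_pos (Finset.mem_range.2 hℓ.pos)]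
  have hyv2 : ∀ i, P.valuation M (y i) ≤ WithZero.exp (-2 : ℤ) := by
    intro i
    have h1 := eigen ho (hζ1 i) x
    have h1' : algebraMap K M (ζ ^ i) * σ (y i) = y i := h1
    have h2 : σ (y i * ρ ^ i) = y i * ρ ^ i := by
      rw [map_mul, map_pow, hρσ, mul_pow, ← map_pow]
      calc σ (y i) * (algebraMap K M (ζ ^ i) * ρ ^ i) =
          (algebraMap K M (ζ ^ i) * σ (y i)) * ρ ^ i := by ring
        _ = y i * ρ ^ i := by rw [h1']
    obtain ⟨a, ha⟩ := fixed hg hgen h2
    have h3 : P.valuation M (y i) = v.valuation K a ^ e := by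
      have h4 : P.valuation M (y i * ρ ^ i) = P.valuation M (y i) := by
        rw [map_mul, map_pow, hρv, one_pow, mul_one]
      rw [← h4, ← ha, val_over hP]
    have h5 := hyv i
    rw [h3] at h5 ⊢
    by_cases ha0 : a = 0
    · rw [ha0, map_zero, zero_pow he0]; exact zero_le'
    have h6 : v.valuation K a ≠ 0 := (Valuation.ne_zero_iff _).2 ha0
    obtain ⟨n, hn⟩ : ∃ n : ℤ, v.valuation K a = WithZero.exp n :=
      ⟨WithZero.log (v.valuation K a), (WithZero.exp_log h6).symm⟩
    rw [hn, ← WithZero.exp_nsmul, WithZero.exp_le_exp] at h5 ⊢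
    rw [nsmul_eq_mul] at h5 ⊢
    have he2 : (2 : ℤ) ≤ e := by
      have : 2 ≤ e := by omega
      exact_mod_cast this
    have hn1 : n ≤ -1 := by
      by_contra hcon
      push Not at hcon
      have : (0 : ℤ) ≤ (e : ℤ) * n := mul_nonneg (by omega) (by omega)
      omega
    nlinarith
  have h7 : P.valuation M (algebraMap K M (ℓ : K) * x) ≤ WithZero.exp (-2 : ℤ) := by
    rw [← hysum]
    exact Valuation.map_sum_le _ fun i _ => hyv2 i
  rw [map_mul, val_over hP, hvl, one_pow, one_mul, hx, WithZero.exp_le_exp] at h7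
  omega

/-- if `w` is an `ℓ`-th power in the completion, there are several primes above `v` -/
theorem split {ℓ : ℕ} (hℓ : ℓ.Prime) (hodd : ℓ ≠ 2) {ζ : K} (hζ : IsPrimitiveRoot ζ ℓ) {w : Kˣ} {r : M}
    (hr : r ^ ℓ = algebraMap K M (w : K)) (hg : IsGalois K M)
    {σ : M ≃ₐ[K] M} (hσ : σ r = algebraMap K M ζ * r)
    (hgen : ∀ τ : M ≃ₐ[K] M, τ ∈ Subgroup.zpowers σ) (ho : orderOf σ = ℓ) {v : Pl K}
    (hv : IsP ℓ (loc v w)) : {P : Pl M | Over P v}.ncard ≠ 1 := by
  classical
  intro hg1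
  obtain ⟨P, hPs⟩ := Set.ncard_eq_one.1 hg1
  have hP : Over P v := by
    have : P ∈ ({P : Pl M | Over P v} : Set (Pl M)) := by rw [hPs]; rfl
    exact this
  have huniq : ∀ Q : Pl M, Over Q v → Q = P := by
    intro Q hQ
    have h1 : Q ∈ ({P : Pl M | Over P v} : Set (Pl M)) := hQ
    rw [hPs] at h1
    exact h1
  obtain ⟨z, hz⟩ := hv
  have hz' : algebraMap K (v.adicCompletion K) (w : K) = (z : v.adicCompletion K) ^ ℓ := by
    have h1 := congrArg (fun u : (v.adicCompletion K)ˣ => (u : v.adicCompletion K)) hz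
    simp only [Units.val_pow_eq_pow_val] at h1
    exact h1
  have hvz : (Valued.v (z : v.adicCompletion K) : WithZero (Multiplicative ℤ)) ^ ℓ =
      v.valuation K (w : K) := by
    rw [← map_pow, ← hz', Pool.Agent.H723R3.valued_algebraMap]
  have hz0 : (Valued.v (z : v.adicCompletion K) : WithZero (Multiplicative ℤ)) ≠ 0 := by
    rw [Ne, Valuation.zero_iff]; exact z.ne_zero
  set γ : WithZero (Multiplicative ℤ) := v.valuation K (ζ - 1) with hγ
  have hζ0 : ζ - 1 ≠ 0 := sub_ne_zero.2 (hζ.ne_one hℓ.one_lt)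
  have hγ0 : γ ≠ 0 := (Valuation.ne_zero_iff _).2 hζ0
  have hζv : v.valuation K ζ = 1 := by
    have h2 : (v.valuation K ζ) ^ ℓ = 1 := by rw [← map_pow, hζ.pow_eq_one, map_one]
    exact (pow_eq_one_iff_of_nonneg zero_le' hℓ.ne_zero).1 h2
  have hγ1 : γ ≤ 1 := by
    refine (Valuation.map_sub _ _ _).trans ?_
    rw [hζv, map_one, max_self]
  obtain ⟨a, ha⟩ := Pool.Agent.H723R3.exists_approx v (z : v.adicCompletion K)
    (Units.mk0 (γ ^ ℓ * (Valued.v (z : v.adicCompletion K) : WithZero (Multiplicative ℤ)))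
      (mul_ne_zero (pow_ne_zero _ hγ0) hz0))
  rw [Units.val_mk0] at ha
  have ha1 : (Valued.v (algebraMap K (v.adicCompletion K) a) : WithZero (Multiplicative ℤ)) ≤
      Valued.v (z : v.adicCompletion K) := by
    have h1 : algebraMap K (v.adicCompletion K) a =
      (algebraMap K (v.adicCompletion K) a - z) + z := by ring
    rw [h1]
    refine (Valuation.map_add _ _ _).trans (max_le (ha.le.trans ?_) le_rfl)
    exact mul_le_of_le_one_left' (pow_le_one' hγ1 ℓ)
  have h3 : v.valuation K ((w : K) - a ^ ℓ) < γ ^ ℓ * v.valuation K (w : K) := by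
    rw [← Pool.Agent.H723R3.valued_algebraMap, map_sub, map_pow, hz',
      ← (Commute.all _ _).geom_sum₂_mul, map_mul]
    rw [← hvz]
    have h4 : (Valued.v (∑ i ∈ Finset.range ℓ, (z : v.adicCompletion K) ^ i *
        algebraMap K (v.adicCompletion K) a ^ (ℓ - 1 - i)) : WithZero (Multiplicative ℤ)) ≤
        (Valued.v (z : v.adicCompletion K) : WithZero (Multiplicative ℤ)) ^ (ℓ - 1) := by
      refine Valuation.map_sum_le _ fun i hi => ?_
      rw [map_mul, map_pow, map_pow]
      have h5 : ℓ - 1 = i + (ℓ - 1 - i) := by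
        have := Finset.mem_range.1 hi; omega
      conv_rhs => rw [h5, pow_add]
      exact mul_le_mul_right (pow_le_pow_left' ha1 _) _
    have h6 : (Valued.v ((z : v.adicCompletion K) - algebraMap K (v.adicCompletion K) a) :
        WithZero (Multiplicative ℤ)) < γ ^ ℓ * Valued.v (z : v.adicCompletion K) := by
      rw [Valuation.map_sub_swap]; exact ha
    have h7 : (Valued.v (z : v.adicCompletion K) : WithZero (Multiplicative ℤ)) ^ ℓ =
        (Valued.v (z : v.adicCompletion K) : WithZero (Multiplicative ℤ)) ^ (ℓ - 1) *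
        Valued.v (z : v.adicCompletion K) := by
      rw [← pow_succ]
      congr 1
      have := hℓ.pos; omega
    have hpos : (0 : WithZero (Multiplicative ℤ)) <
        (Valued.v (z : v.adicCompletion K) : WithZero (Multiplicative ℤ)) ^ (ℓ - 1) :=
      zero_lt_iff.2 (pow_ne_zero _ hz0)
    calc _ ≤ (Valued.v (z : v.adicCompletion K) : WithZero (Multiplicative ℤ)) ^ (ℓ - 1) *
          (Valued.v ((z : v.adicCompletion K) - algebraMap K (v.adicCompletion K) a) :
        WithZero (Multiplicative ℤ)) := mul_le_mul_left h4 _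
      _ < (Valued.v (z : v.adicCompletion K) : WithZero (Multiplicative ℤ)) ^ (ℓ - 1) *
          (γ ^ ℓ * Valued.v (z : v.adicCompletion K)) := (mul_lt_mul_iff_right₀ hpos).2 h6
      _ = _ := by rw [h7, mul_left_comm]
  -- the norm of `r - a`
  have hval : ∀ x : M, P.valuation M (Algebra.norm K x • (1 : M)) = P.valuation M x ^ ℓ := by
    intro x
    rw [Algebra.smul_def, mul_one, norm_eq hg hgen ho, map_prod,
      Finset.prod_congr rfl fun i _ => val_inv hP huniq (σ ^ i) x, Finset.prod_const,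
      Finset.card_range]
  have hnorm : algebraMap K M (Algebra.norm K (r - algebraMap K M a)) =
      algebraMap K M ((w : K) - a ^ ℓ) := by
    rw [norm_eq hg hgen ho]
    have hζM : IsPrimitiveRoot (algebraMap K M ζ) ℓ := hζ.map_of_injective (algebraMap K M).injective
    have h8 : ∀ i ∈ Finset.range ℓ, (σ ^ i) (r - algebraMap K M a) =
        algebraMap K M ζ ^ i * r - algebraMap K M a := by
      intro i hi
      clear hi
      rw [map_sub, AlgEquiv.commutes]
      congr 1
      induction i with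
      | zero => simp
      | succ i ih => rw [pow_succ' σ, AlgEquiv.mul_apply, ih, map_mul, map_pow, AlgEquiv.commutes, hσ]; ring
    rw [Finset.prod_congr rfl h8, map_sub, map_pow, ← hr]
    have h9 := hζM.pow_sub_pow_eq_prod_sub_mul (algebraMap K M a) r hℓ.pos
    haveI : NeZero ℓ := ⟨hℓ.ne_zero⟩
    have h10 : (Polynomial.nthRootsFinset ℓ (1 : M)) =
        (Finset.range ℓ).image (fun i => algebraMap K M ζ ^ i) := by
      ext μ
      rw [Polynomial.mem_nthRootsFinset hℓ.pos, Finset.mem_image]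
      constructor
      · intro h
        obtain ⟨i, hi, h'⟩ := hζM.eq_pow_of_pow_eq_one h
        exact ⟨i, Finset.mem_range.2 hi, h'⟩
      · rintro ⟨i, _, rfl⟩
        rw [← pow_mul, mul_comm, pow_mul, hζM.pow_eq_one, one_pow]
    rw [h10, Finset.prod_image] at h9
    · have h11 : ∏ i ∈ Finset.range ℓ, (algebraMap K M ζ ^ i * r - algebraMap K M a) =
          (-1) ^ ℓ * ∏ i ∈ Finset.range ℓ, (algebraMap K M a - algebraMap K M ζ ^ i * r) := by
        rw [← Finset.card_range ℓ, ← Finset.prod_const, Finset.card_range, ← Finset.prod_mul_distrib]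
        exact Finset.prod_congr rfl fun i _ => by ring
      rw [h11, ← h9, (hℓ.odd_of_ne_two hodd).neg_one_pow]
      ring
    · intro i hi j hj hij
      exact hζM.pow_inj (Finset.mem_range.1 (Finset.mem_coe.1 hi))
        (Finset.mem_range.1 (Finset.mem_coe.1 hj)) hij
  have he0 : v.asIdeal.ramificationIdx' P.asIdeal ≠ 0 := ram_ne_zero hP
  have h12 : P.valuation M (r - algebraMap K M a) ^ ℓ <
      P.valuation M (algebraMap K M (ζ - 1) * r) ^ ℓ := by
    have h13 : P.valuation M (r - algebraMap K M a) ^ ℓ =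
        P.valuation M (algebraMap K M ((w : K) - a ^ ℓ)) := by
      rw [← hval, Algebra.smul_def, mul_one, hnorm]
    rw [h13, ← map_pow, mul_pow, hr, ← map_pow (algebraMap K M), ← map_mul (algebraMap K M),
      val_over hP, val_over hP, map_mul, map_pow]
    exact pow_lt_pow_left₀ h3 zero_le' he0
  have h14 : P.valuation M (r - algebraMap K M a) < P.valuation M (algebraMap K M (ζ - 1) * r) :=
    lt_of_pow_lt_pow_left₀ ℓ zero_le' h12
  have h15 := val_inv hP huniq σ (r - algebraMap K M a)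
  rw [map_sub, AlgEquiv.commutes, hσ] at h15
  have h16 : algebraMap K M (ζ - 1) * r =
      (algebraMap K M ζ * r - algebraMap K M a) - (r - algebraMap K M a) := by
    rw [map_sub, map_one]; ring
  have h17 : P.valuation M (algebraMap K M (ζ - 1) * r) ≤ P.valuation M (r - algebraMap K M a) := by
    rw [h16]
    refine (Valuation.map_sub _ _ _).trans ?_
    rw [h15, max_self]
  exact absurd h17 (not_le.2 h14)

end dec

end Pool.Agent.T3h73.SD.TUN
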