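import Pool.Agent.T3h73.SD.Stm
import Pool.Agent.T3h73.SD.FiA
import Pool.Agent.T3h73.SL.T_CNT
import Pool.Agent.T3h73.SL.T_FIN
import Pool.Agent.T3h73.SL.T_CHR

/-! Project SD, task FI (helper87): the first inequality. -/

set_option autoImplicit false
set_option linter.all false

open NumberField IsDedekindDomain Polynomial

namespace Pool.Agent.T3h73.SD.FI

open Pool.Agent.T3h73.SL (Pl IsP Pk loc Evn Sg)
open Pool.Agent.Y713.SE (Pw)
open Pool.Agent.T3h73.SL.Cnt (vl vl_one_iff)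

variable {K : Type} [Field K] [NumberField K]

/-- the elements with only finitely many places of non-trivial valuation -/
theorem fin_val (x : Kˣ) : {v : Pl K | v.valuation K (x : K) ≠ 1}.Finite := by
  obtain ⟨m, hm⟩ := Pool.Agent.T3h73.SL.Chr.exists_m x
  refine m.finite_support.subset fun v hv => ?_
  rw [Finsupp.fun_support_eq, Finset.mem_coe, Finsupp.mem_support_iff]
  intro h
  apply hv
  rw [hm v, h, neg_zero, WithZero.exp_zero]

/-- the subgroup of the norms from the fields `K_v(w ^ (1/ℓ))` -/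
theorem exists_N (hLNG : S_LNG) (ℓ : ℕ) (hℓ : ℓ.Prime) (hℓ2 : ℓ ≠ 2) (ζ : K)
    (hζ : IsPrimitiveRoot ζ ℓ) (w : Kˣ) (v : Pl K) : ∃ N : Subgroup Kˣ, (∀ x, x ∈ N ↔ LN ℓ v w x) ∧
      (∀ x, x ^ ℓ ∈ N) ∧ (∀ x, IsP ℓ (loc v x) → x ∈ N) ∧
      (v.valuation K (ℓ : K) = 1 → Pw ℓ (v.valuation K (w : K)) → ∀ x : Kˣ,
        Pw ℓ (v.valuation K (x : K)) → x ∈ N) ∧ (N = ⊤ → IsP ℓ (loc v w)) := by
  obtain ⟨G, _, s, h1, h2, h3, h4, h5, h6⟩ := hLNG ℓ hℓ hℓ2 K ζ hζ v
  refine ⟨(s w).ker, fun x => ?_, fun x => ?_, fun x hx => ?_, fun hv hw x hx => ?_, fun h => ?_⟩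
  · rw [MonoidHom.mem_ker]
    exact h1 w x
  · rw [MonoidHom.mem_ker, map_pow]
    exact h2 w x
  · rw [MonoidHom.mem_ker]
    exact h4 w x hx
  · rw [MonoidHom.mem_ker]
    exact h5 hv w x hw hx
  · apply h6 w
    intro x
    have : x ∈ (s w).ker := by rw [h]; trivial
    exact this

/-- global norms are local norms -/
theorem norm_LN {ℓ : ℕ} (hℓ : ℓ ≠ 0) (w : Kˣ) (v : Pl K) (x : Kˣ)
    (z : AdjoinRoot (X ^ ℓ - C (w : K) : K[X])) (hz : Algebra.norm K z = (x : K)) : LN ℓ v w x := by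
  right
  obtain ⟨c, hc⟩ := norm_map (L := v.adicCompletion K) (X ^ ℓ - C (w : K) : K[X])
    (monic_X_pow_sub_C _ hℓ) (X ^ ℓ - C ((loc v w : (v.adicCompletion K)ˣ) : v.adicCompletion K))
    (by
      rw [Polynomial.map_sub, Polynomial.map_pow, Polynomial.map_X, Polynomial.map_C]
      rfl) z
  refine ⟨c, ?_⟩
  rw [hc, hz]
  rfl

/-- the elements which are units outside a set of places -/
def TUs (P : Pl K → Prop) : Subgroup Kˣ where
  carrier := {x | ∀ v, P v → v.valuation K (x : K) = 1}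
  mul_mem' := by
    intro a b ha hb v hv
    rw [Units.val_mul, map_mul, ha v hv, hb v hv, one_mul]
  one_mem' := by
    intro v hv
    rw [Units.val_one, map_one]
  inv_mem' := by
    intro a ha v hv
    rw [Units.val_inv_eq_inv_val, map_inv₀, ha v hv, inv_one]

theorem mem_TUs {P : Pl K → Prop} {x : Kˣ} : x ∈ TUs P ↔ ∀ v, P v → v.valuation K (x : K) = 1 :=
  Iff.rfl

/-- the norms of the units outside `T` of the extension -/
def NEs (M : Type) [Field M] [NumberField M] [Algebra K M] (T : Finset (Pl K)) : Subgroup Kˣ where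
  carrier := {x | ∃ z : M, (∀ P : Pl M, (∀ v ∈ T, ¬ v.asIdeal.map (algebraMap (𝓞 K) (𝓞 M)) ≤
      P.asIdeal) → P.valuation M z = 1) ∧ Algebra.norm K z = (x : K)}
  mul_mem' := by
    rintro a b ⟨y, hy, hy'⟩ ⟨z, hz, hz'⟩
    refine ⟨y * z, fun P hP => ?_, ?_⟩
    · rw [map_mul, hy P hP, hz P hP, one_mul]
    · rw [map_mul, hy', hz', Units.val_mul]
  one_mem' := ⟨1, fun P _ => map_one _, by rw [map_one, Units.val_one]⟩
  inv_mem' := by
    rintro a ⟨y, hy, hy'⟩
    refine ⟨y⁻¹, fun P hP => ?_, ?_⟩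
    · rw [map_inv₀, hy P hP, inv_one]
    · have hy0 : y ≠ 0 := by
        rintro rfl
        haveI : FiniteDimensional K M := FiniteDimensional.right ℚ K M
        rw [Algebra.norm_zero] at hy'
        exact a.ne_zero hy'.symm
      rw [Units.val_inv_eq_inv_val, ← hy']
      refine eq_inv_of_mul_eq_one_left ?_
      rw [← map_mul, inv_mul_cancel₀ hy0, map_one]

theorem mem_NEs {M : Type} [Field M] [NumberField M] [Algebra K M] {T : Finset (Pl K)} {x : Kˣ} :
    x ∈ NEs M T ↔ ∃ z : M, (∀ P : Pl M, (∀ v ∈ T, ¬ v.asIdeal.map (algebraMap (𝓞 K) (𝓞 M)) ≤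
      P.asIdeal) → P.valuation M z = 1) ∧ Algebra.norm K z = (x : K) := Iff.rfl

theorem mu_pow (ℓ : ℕ) (y : Mu ℓ) : y ^ ℓ = 1 := by
  apply Multiplicative.toAdd.injective
  rw [toAdd_pow, nsmul_eq_mul, ZMod.natCast_self, zero_mul, toAdd_one]

theorem mu_zpow {ℓ : ℕ} (y : Mu ℓ) (n : ℤ) (h : (ℓ : ℤ) ∣ n) : y ^ n = 1 := by
  obtain ⟨k, rfl⟩ := h
  rw [zpow_mul, zpow_natCast, mu_pow, one_zpow]

theorem pw_log {ℓ : ℕ} (hℓ : 0 < ℓ) (v : Pl K) (x : Kˣ) :
    Pw ℓ (v.valuation K (x : K)) ↔ (ℓ : ℤ) ∣ WithZero.log (v.valuation K (x : K)) := by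
  have h : v.valuation K (x : K) ≠ 0 := (Valuation.ne_zero_iff _).2 x.ne_zero
  rw [← Pool.Agent.T3h73.SL.Chr.pw_exp hℓ, WithZero.exp_log h]

theorem log_mul' (v : Pl K) (x y : Kˣ) : WithZero.log (v.valuation K ((x * y : Kˣ) : K)) =
    WithZero.log (v.valuation K (x : K)) + WithZero.log (v.valuation K (y : K)) := by
  have hx : v.valuation K (x : K) ≠ 0 := (Valuation.ne_zero_iff _).2 x.ne_zero
  have hy : v.valuation K (y : K) ≠ 0 := (Valuation.ne_zero_iff _).2 y.ne_zero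
  rw [Units.val_mul, map_mul, WithZero.log_mul hx hy]

theorem log_pow' (v : Pl K) (x : Kˣ) (n : ℕ) : WithZero.log (v.valuation K ((x ^ n : Kˣ) : K)) =
    n * WithZero.log (v.valuation K (x : K)) := by
  rw [Units.val_pow_eq_pow_val, map_pow, WithZero.log_pow, nsmul_eq_mul]

theorem t_FI (hLNG : S_LNG) (hTUN : S_TUN) : S_FI := by
  classical
  intro ℓ hℓ hℓ2 K _ _ ζ hζ w hw
  -- the set `T`
  obtain ⟨T₀, hT₀⟩ := Pool.Agent.T3h73.SL.Cnt.t_CNT ℓ hℓ hℓ2 K ζ hζ
  have hl0 : (ℓ : K) ≠ 0 := Nat.cast_ne_zero.2 hℓ.ne_zero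
  have hf1 : {v : Pl K | v.valuation K (ℓ : K) ≠ 1}.Finite := fin_val (Units.mk0 (ℓ : K) hl0)
  have hf2 : {v : Pl K | v.valuation K (w : K) ≠ 1}.Finite := fin_val w
  set T : Finset (Pl K) := T₀ ∪ (hf1.toFinset ∪ hf2.toFinset) with hT
  have hTl : ∀ v : Pl K, v.valuation K (ℓ : K) ≠ 1 → v ∈ T := by
    intro v hv
    rw [hT, Finset.mem_union, Finset.mem_union, Set.Finite.mem_toFinset]
    exact Or.inr (Or.inl hv)
  have hTw : ∀ v : Pl K, v ∉ T → v.valuation K (w : K) = 1 := by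
    intro v hv
    by_contra hc
    apply hv
    rw [hT, Finset.mem_union, Finset.mem_union, Set.Finite.mem_toFinset, Set.Finite.mem_toFinset]
    exact Or.inr (Or.inr hc)
  have hTm : ∀ T' : Finset (Pl K), T ⊆ T' → ∀ m : Pl K → ℤ, {v | m v ≠ 0}.Finite →
      ∃ x : Kˣ, ∀ v, v ∉ T' → v.valuation K (x : K) = WithZero.exp (-(m v)) := fun T' hT' =>
    (hT₀ T' (Finset.subset_union_left.trans hT')).1
  -- the extension
  have hwP : ∀ c : K, c ^ ℓ ≠ (w : K) := by
    intro c hc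
    have hc0 : c ≠ 0 := by
      rintro rfl
      rw [zero_pow hℓ.ne_zero] at hc
      exact w.ne_zero hc.symm
    apply hw
    refine ⟨Units.mk0 c hc0, ?_⟩
    ext
    rw [Units.val_pow_eq_pow_val, Units.val_mk0, hc]
  have hirr : Irreducible (X ^ ℓ - C (w : K) : K[X]) := X_pow_sub_C_irreducible_of_prime hℓ hwP
  haveI := Fact.mk hirr
  have hsplit := isSplittingField_AdjoinRoot_X_pow_sub_C ⟨ζ, (mem_primitiveRoots hℓ.pos).2 hζ⟩ hirr
  let M := AdjoinRoot (X ^ ℓ - C (w : K) : K[X])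
  haveI : CharZero M := charZero_of_injective_algebraMap (algebraMap K M).injective
  haveI : FiniteDimensional K M := (AdjoinRoot.powerBasis hirr.ne_zero).finite
  haveI : NumberField M := NumberField.of_module_finite K M
  have hd : Module.finrank K M = ℓ :=
    finrank_of_isSplittingField_X_pow_sub_C ⟨ζ, (mem_primitiveRoots hℓ.pos).2 hζ⟩ hirr M
  have hrt : (AdjoinRoot.root (X ^ ℓ - C (w : K) : K[X])) ^ ℓ = algebraMap K M (w : K) := by
    have := AdjoinRoot.eval₂_root (X ^ ℓ - C (w : K) : K[X])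
    rw [eval₂_sub, eval₂_X_pow, eval₂_C, sub_eq_zero] at this
    exact this
  -- the local norm groups
  choose N hN1 hN2 hN3 hN4 hN5 using exists_N hLNG ℓ hℓ hℓ2 ζ hζ w
  have hNtop : ∀ v, IsP ℓ (loc v w) → N v = ⊤ := by
    intro v hv
    rw [eq_top_iff]
    intro x _
    rw [hN1]
    exact Or.inl hv
  have hNidx : ∀ v, (N v).index ≠ 0 := by
    intro v
    have h1 : (Pk ℓ (v.adicCompletion K)ˣ).comap (loc v) ≤ N v := by
      rintro x ⟨z, hz⟩
      exact hN3 v x ⟨z, hz.symm⟩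
    have h2 : ((Pk ℓ (v.adicCompletion K)ˣ).comap (loc v)).index ≠ 0 := by
      rw [Subgroup.index_comap]
      exact fun h => Pool.Agent.T3h73.SL.Fin.t_FIN ℓ hℓ K v (Nat.eq_zero_of_zero_dvd
        (h ▸ Subgroup.relIndex_dvd_index_of_normal _ _))
    exact fun h => h2 (Nat.eq_zero_of_zero_dvd (h ▸ Subgroup.index_dvd_of_le h1))
  -- the characters at the places in `T`
  obtain ⟨χT, hχ1, hχ2, hχ3⟩ := exists_chars hℓ (ι := T) (fun i => N i.1) (fun i => hNidx i.1)
    (fun i => hN2 i.1) (TUs (fun v => v ∉ T ∧ ¬ IsP ℓ (loc v w))) (by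
      intro F hF hFE
      have hD : {v : Pl K | ∃ x ∈ F, v.valuation K (x : K) ≠ 1}.Finite := by
        have h1 : {v : Pl K | ∃ x ∈ F, v.valuation K (x : K) ≠ 1} =
            ⋃ x ∈ F, {v : Pl K | v.valuation K (x : K) ≠ 1} := by
          ext v
          simp only [Set.mem_setOf_eq, Set.mem_iUnion, exists_prop]
        rw [h1]
        exact hF.biUnion fun x _ => fin_val x
      set T' : Finset (Pl K) := T ∪ hD.toFinset with hT'
      have hTT' : T ⊆ T' := Finset.subset_union_left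
      have key := hTUN ℓ hℓ hℓ2 K ζ hζ w hw T' (fun v hv => hTT' (hTl v hv))
        (fun v hv => by
          rw [hTw v fun h => hv (hTT' h)]
          exact Pw.one) (hTm T' hTT') M (AdjoinRoot.root _) hrt hd (TUs (fun v => v ∉ T'))
        (NEs M T') (fun x => Iff.rfl) (fun x => Iff.rfl)
      refine ⟨TUs (fun v => v ∉ T'), NEs M T', ?_, ?_, key.1.trans ?_, key.2⟩
      · intro x hx v hv
        by_contra hc
        apply hv
        rw [hT', Finset.mem_union, Set.Finite.mem_toFinset]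
        exact Or.inr ⟨x, hx, hc⟩
      · rintro i x ⟨z, _, hz⟩
        rw [hN1]
        exact norm_LN hℓ.ne_zero w i.1 x z hz
      · refine Nat.pow_le_pow_right hℓ.pos ?_
        have h2 : ∀ v : {v : T' // ¬ IsP ℓ (loc (v : Pl K) w)}, ((v : T') : Pl K) ∈ T := by
          rintro ⟨⟨v, hv⟩, hv2⟩
          by_contra hc
          rw [hT', Finset.mem_union, Set.Finite.mem_toFinset] at hv
          obtain hv | ⟨x, hx, hxv⟩ := hv
          · exact hc hv
          · exact hxv (hFE hx v ⟨hc, hv2⟩)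
        refine Nat.card_le_card_of_injective (fun v => ⟨⟨((v : T') : Pl K), h2 v⟩, fun h =>
          v.2 (hN5 _ h)⟩) ?_
        intro a b hab
        apply Subtype.ext
        apply Subtype.ext
        exact congrArg (fun t => ((t.1 : T) : Pl K)) hab)
  -- uniformizers
  have hπ : ∀ q : Pl K, ∃ π : Kˣ, ∀ v, v ∉ T → v.valuation K (π : K) =
      WithZero.exp (-(Pi.single (M := fun _ : Pl K => ℤ) q 1 v)) := by
    intro q
    refine hTm T subset_rfl _ ((Set.finite_singleton q).subset ?_)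
    intro v hv
    by_contra hc
    exact hv (Pi.single_eq_of_ne hc _)
  choose π hπ using hπ
  have hπ1 : ∀ q, q ∉ T → WithZero.log (q.valuation K (π q : K)) = -1 := by
    intro q hq
    rw [hπ q q hq, Pi.single_eq_same, WithZero.log_exp]
  have hπ2 : ∀ q v, v ∉ T → v ≠ q → v.valuation K (π q : K) = 1 := by
    intro q v hv hvq
    rw [hπ q v hv, Pi.single_eq_of_ne hvq, neg_zero, WithZero.exp_zero]
  let c : Pl K → Mu ℓ := fun q => ∏ i, χT i (π q)
  let χ : Pl K → (Kˣ →* Mu ℓ) := fun v => if h : v ∈ T then χT ⟨v, h⟩ else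
    if IsP ℓ (loc v w) then 1 else (zpowersHom (Mu ℓ) (c v)).comp (vl v)
  have e1 : ∀ (v) (h : v ∈ T), χ v = χT ⟨v, h⟩ := fun v h => dif_pos h
  have e2 : ∀ v, v ∉ T → IsP ℓ (loc v w) → χ v = 1 := fun v h h' => by
    show dite _ _ _ = _
    rw [dif_neg h, if_pos h']
  have e3 : ∀ v, v ∉ T → ¬ IsP ℓ (loc v w) → ∀ x, χ v x =
      c v ^ WithZero.log (v.valuation K (x : K)) := fun v h h' x => by
    have : χ v = (zpowersHom (Mu ℓ) (c v)).comp (vl v) := by
      show dite _ _ _ = _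
      rw [dif_neg h, if_neg h']
    rw [this]
    rfl
  have e4 : ∀ v, v ∉ T → ∀ x : Kˣ, Pw ℓ (v.valuation K (x : K)) → χ v x = 1 := by
    intro v hv x hx
    by_cases h : IsP ℓ (loc v w)
    · rw [e2 v hv h, MonoidHom.one_apply]
    · rw [e3 v hv h]
      exact mu_zpow _ _ ((pw_log hℓ.pos v x).1 hx)
  refine ⟨χ, ⟨?_, ?_, ?_⟩, ?_, ?_⟩
  · intro v x hx
    by_cases h : v ∈ T
    · rw [e1 v h]
      exact hχ1 ⟨v, h⟩ x (hN3 v x hx)
    · apply e4 v h
      obtain ⟨z, hz⟩ := hx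
      rw [← Pool.Agent.T3h73.SL.Chr.v_loc, hz, Units.val_pow_eq_pow_val, map_pow]
      exact Pw.pow _
  · refine T.finite_toSet.subset ?_
    intro v hv
    by_contra hc
    exact hv fun x hx => e4 v hc x hx
  · intro x
    have hD : {v : Pl K | v ∉ T ∧ ¬ IsP ℓ (loc v w) ∧ v.valuation K (x : K) ≠ 1}.Finite :=
      (fin_val x).subset fun v hv => hv.2.2
    set D : Finset (Pl K) := hD.toFinset with hDdef
    have hDmem : ∀ v, v ∈ D ↔ v ∉ T ∧ ¬ IsP ℓ (loc v w) ∧ v.valuation K (x : K) ≠ 1 := by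
      intro v
      rw [hDdef, Set.Finite.mem_toFinset]
      rfl
    have hdisj : Disjoint T D := by
      rw [Finset.disjoint_left]
      intro v hv hv'
      exact ((hDmem v).1 hv').1 hv
    have h1 : ∏ᶠ v : Pl K, χ v x = ∏ v ∈ T ∪ D, χ v x := by
      refine finprod_eq_prod_of_mulSupport_subset _ ?_
      intro v hv
      rw [Finset.coe_union, Set.mem_union, Finset.mem_coe, Finset.mem_coe, hDmem]
      by_contra hc
      push Not at hc
      apply hv
      show χ v x = 1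
      by_cases h : IsP ℓ (loc v w)
      · rw [e2 v hc.1 h, MonoidHom.one_apply]
      · rw [e3 v hc.1 h, hc.2 hc.1 h, WithZero.log_one, zpow_zero]
    set n : Pl K → ℤ := fun v => WithZero.log (v.valuation K (x : K)) with hn
    set u : Kˣ := x * ∏ q ∈ D, π q ^ n q with hu
    have huE : u ∈ TUs (fun v => v ∉ T ∧ ¬ IsP ℓ (loc v w)) := by
      rintro v ⟨hv, hv'⟩
      have hx0 : v.valuation K (x : K) ≠ 0 := (Valuation.ne_zero_iff _).2 x.ne_zero
      have h2 : v.valuation K ((∏ q ∈ D, π q ^ n q : Kˣ) : K) =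
          ∏ q ∈ D, v.valuation K (π q : K) ^ n q := by
        rw [Units.coe_prod, map_prod]
        refine Finset.prod_congr rfl fun q _ => ?_
        rw [Units.val_zpow_eq_zpow_val, map_zpow₀]
      rw [hu, Units.val_mul, map_mul, h2]
      by_cases hvD : v ∈ D
      · rw [Finset.prod_eq_single v]
        · rw [hπ v v hv, Pi.single_eq_same, hn]
          show v.valuation K (x : K) * WithZero.exp (-1 : ℤ) ^ WithZero.log (v.valuation K (x : K)) = 1
          rw [← WithZero.exp_zsmul, smul_eq_mul, mul_neg, mul_one, WithZero.exp_neg,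
            WithZero.exp_log hx0, mul_inv_cancel₀ hx0]
        · intro q _ hqv
          rw [hπ2 q v hv hqv.symm, one_zpow]
        · intro h
          exact absurd hvD h
      · have h3 : v.valuation K (x : K) = 1 := by
          by_contra hc
          exact hvD ((hDmem v).2 ⟨hv, hv', hc⟩)
        rw [h3, one_mul]
        refine Finset.prod_eq_one fun q hq => ?_
        rw [hπ2 q v hv, one_zpow]
        rintro rfl
        exact hvD hq
    have h4 := hχ2 u huE
    rw [hu] at h4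
    simp only [map_mul, map_prod, map_zpow] at h4
    rw [Finset.prod_mul_distrib, Finset.prod_comm] at h4
    rw [h1, Finset.prod_union hdisj, ← h4]
    congr 1
    · rw [← Finset.prod_coe_sort T]
      refine Finset.prod_congr rfl fun i _ => ?_
      rw [e1 i.1 i.2]
    · refine Finset.prod_congr rfl fun q hq => ?_
      rw [e3 q ((hDmem q).1 hq).1 ((hDmem q).1 hq).2.1, Finset.prod_zpow]
  · intro v x hx
    by_cases h : v ∈ T
    · rw [e1 v h]
      exact hχ1 ⟨v, h⟩ x ((hN1 v x).2 hx)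
    by_cases h' : IsP ℓ (loc v w)
    · rw [e2 v h h', MonoidHom.one_apply]
    apply e4 v h
    by_contra hc
    apply h'
    apply hN5 v
    have hv1 : v.valuation K (ℓ : K) = 1 := by
      by_contra hv
      exact h (hTl v hv)
    have hw1 : Pw ℓ (v.valuation K (w : K)) := by
      rw [hTw v h]
      exact Pw.one
    have hxN : x ∈ N v := (hN1 v x).2 hx
    rw [pw_log hℓ.pos] at hc
    rw [eq_top_iff]
    intro y _
    haveI := Fact.mk hℓ
    set a : ℤ := WithZero.log (v.valuation K (x : K)) with ha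
    set b : ℤ := WithZero.log (v.valuation K (y : K)) with hb
    have ha0 : (a : ZMod ℓ) ≠ 0 := by
      intro h0
      exact hc ((ZMod.intCast_zmod_eq_zero_iff_dvd a ℓ).1 h0)
    set k : ℕ := (-(b : ZMod ℓ) * (a : ZMod ℓ)⁻¹).val with hk
    have hk1 : ((k : ℕ) : ZMod ℓ) = -(b : ZMod ℓ) * (a : ZMod ℓ)⁻¹ := by
      rw [hk, ZMod.natCast_val, ZMod.cast_id', id]
    have h5 : y * x ^ k ∈ N v := by
      apply hN4 v hv1 hw1
      rw [pw_log hℓ.pos, log_mul', log_pow', ← ha, ← hb, ← ZMod.intCast_zmod_eq_zero_iff_dvd]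
      push_cast
      rw [hk1, mul_assoc, inv_mul_cancel₀ ha0, mul_one, add_neg_cancel]
    have h6 : y = (y * x ^ k) * (x ^ k)⁻¹ := by
      rw [mul_inv_cancel_right]
    rw [h6]
    exact mul_mem h5 (inv_mem (pow_mem hxN k))
  · obtain ⟨i, x, hix⟩ := hχ3
    refine ⟨i.1, x, ?_⟩
    rw [e1 i.1 i.2]
    exact hix

end Pool.Agent.T3h73.SD.FI
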