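import Pool.Agent.T3h73.SD.Stm3

/-!
# SD/MOM (helper4): the moments
-/

set_option autoImplicit false
set_option linter.all false

open NumberField IsDedekindDomain Filter Topology Finset

namespace Pool.Agent.T3h73.SD.MOM

open Pool.Agent.T3h73.SL (Pl IsP Pk loc Good2 LC)
open Pool.Agent.Y713.SE (Pw)

theorem Rc_self (ℓ k : ℕ) (a : Cl ℓ k) : Rc ℓ k a a = 0 := by
  unfold Rc
  refine sum_eq_zero fun i _ => ?_
  rw [sub_self, mul_zero]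

open Classical in
/-- the maximal unlinked sets -/
noncomputable def UU (ℓ k : ℕ) [Fact ℓ.Prime] : Finset (Finset (Cl ℓ k)) :=
  univ.filter fun U => (∀ a ∈ U, ∀ b ∈ U, Rc ℓ k a b + Rc ℓ k b a = 0) ∧ U.card = ℓ ^ k

open Classical in
theorem mem_UU {ℓ k : ℕ} [Fact ℓ.Prime] {U : Finset (Cl ℓ k)} :
    U ∈ UU ℓ k ↔ (∀ a ∈ U, ∀ b ∈ U, Rc ℓ k a b + Rc ℓ k b a = 0) ∧ U.card = ℓ ^ k := by
  unfold UU
  rw [mem_filter]
  exact ⟨fun h => h.2, fun h => ⟨mem_univ _, h⟩⟩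

open Classical in
theorem card_P {ℓ k : ℕ} [Fact ℓ.Prime] (P : Finset (Cl ℓ k) → Prop) :
    ((Nat.card {U : Finset (Cl ℓ k) // (∀ a ∈ U, ∀ b ∈ U, Rc ℓ k a b + Rc ℓ k b a = 0) ∧
      U.card = ℓ ^ k ∧ P U} : ℕ) : ℂ) = ∑ U ∈ UU ℓ k, if P U then 1 else 0 := by
  rw [Finset.sum_boole, Nat.card_eq_fintype_card, Fintype.card_subtype]
  congr 2
  ext U
  rw [mem_filter, mem_filter, mem_UU]
  simp [and_assoc]

theorem card_UU (hCNTU : S_CNTU) {ℓ k : ℕ} [Fact ℓ.Prime] (h2 : ℓ ≠ 2) :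
    (UU ℓ k).card = ℓ ^ k * ∏ i ∈ Finset.range k, (1 + ℓ ^ i) := by
  classical
  rw [← hCNTU ℓ h2 k, Nat.card_eq_fintype_card, Fintype.card_subtype]
  congr 1

open Classical in
/-- MOM -/
theorem t_MOM (hAN : S_AN) (hEXP : S_EXP) (hUNL : S_UNL) (hCNTU : S_CNTU)
    (hMAINU : S_MAINU) : S_MOM := by
  intro ℓ _ hℓ2 K _ _ S 𝔪 V _ _ _ ψ L0 L1 LL π u d1 t sy hM k
  letI : Fintype V := Fintype.ofFinite V
  have hℓ : ℓ.Prime := Fact.out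
  have hlim : ∀ (w : Fin k → L0) (α : L0) (z : Fin k → LL),
      Tendsto (fun s : ℝ => Mh S (fun (h : L0) q => ψ (h : V) (t q)) sy (Rc ℓ k) (ℓ ^ k)
        (hc π u w α z) s / ((T0 S s : ℝ) : ℂ)) (𝓝[>] 1)
      (𝓝 (∑ U ∈ UU ℓ k, if ∀ a ∈ U, hc π u w α z a = 0 then 1 else 0)) := by
    intro w α z
    have h := hAN ℓ hℓ K S 𝔪 L0 (fun (h : L0) q => ψ (h : V) (t q)) sy hM.sys (Cl ℓ k) (Rc ℓ k)
      (ℓ ^ k) (hc π u w α z) (Nat.one_le_pow _ _ hℓ.pos) (Rc_self ℓ k)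
      fun U hU => (hUNL ℓ hℓ2 k U hU).1
    rw [card_P (fun U => ∀ a ∈ U, hc π u w α z a = 0)] at h
    convert h
  have h1 : ∀ᶠ s : ℝ in 𝓝[>] 1, ((Nat.card L0 : ℂ) ^ (k + 1))⁻¹ * ∑ w : Fin k → L0, ∑ α : L0,
      ∑ z : Fin k → LL, ee ℓ (- ψ (α : V) d1 + ∑ i, ψ (z i : V) (w i : V)) *
        (Mh S (fun (h : L0) q => ψ (h : V) (t q)) sy (Rc ℓ k) (ℓ ^ k) (hc π u w α z) s /
          ((T0 S s : ℝ) : ℂ)) =
      ((SP (ℓ := ℓ) S t d1 (fun P => (nS ψ L0 LL u t sy P : ℝ) ^ k) s / T0 S s : ℝ) : ℂ) := by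
    filter_upwards [Ioc_mem_nhdsGT (show (1 : ℝ) < 2 by norm_num)] with s hs
    rw [Complex.ofReal_div, hEXP ℓ K S 𝔪 V ψ L0 L1 LL π u d1 t sy hM k s hs.1 hs.2, mul_div_assoc,
      Finset.sum_div]
    congr 1
    refine sum_congr rfl fun w _ => ?_
    rw [Finset.sum_div]
    refine sum_congr rfl fun α _ => ?_
    rw [Finset.sum_div]
    refine sum_congr rfl fun z _ => ?_
    rw [mul_div_assoc]
  have h2 : Tendsto (fun s : ℝ => ((Nat.card L0 : ℂ) ^ (k + 1))⁻¹ * ∑ w : Fin k → L0, ∑ α : L0,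
      ∑ z : Fin k → LL, ee ℓ (- ψ (α : V) d1 + ∑ i, ψ (z i : V) (w i : V)) *
        (Mh S (fun (h : L0) q => ψ (h : V) (t q)) sy (Rc ℓ k) (ℓ ^ k) (hc π u w α z) s /
          ((T0 S s : ℝ) : ℂ))) (𝓝[>] 1)
      (𝓝 (((Nat.card L0 : ℂ) ^ (k + 1))⁻¹ * ∑ w : Fin k → L0, ∑ α : L0,
      ∑ z : Fin k → LL, ee ℓ (- ψ (α : V) d1 + ∑ i, ψ (z i : V) (w i : V)) *
        ∑ U ∈ UU ℓ k, if ∀ a ∈ U, hc π u w α z a = 0 then 1 else 0)) :=
    Tendsto.const_mul _ (tendsto_finset_sum _ fun w _ => tendsto_finset_sum _ fun α _ =>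
      tendsto_finset_sum _ fun z _ => Tendsto.const_mul _ (hlim w α z))
  have h3 : ((Nat.card L0 : ℂ) ^ (k + 1))⁻¹ * ∑ w : Fin k → L0, ∑ α : L0,
      ∑ z : Fin k → LL, ee ℓ (- ψ (α : V) d1 + ∑ i, ψ (z i : V) (w i : V)) *
        (∑ U ∈ UU ℓ k, if ∀ a ∈ U, hc π u w α z a = 0 then 1 else 0) =
      (((Nat.card L0 : ℝ)⁻¹ * ((ℓ : ℝ) ^ k * ∏ i ∈ Finset.range k, (1 + (ℓ : ℝ) ^ i)) : ℝ) : ℂ) := by
    have h4 : ∑ w : Fin k → L0, ∑ α : L0,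
      ∑ z : Fin k → LL, ee ℓ (- ψ (α : V) d1 + ∑ i, ψ (z i : V) (w i : V)) *
        (∑ U ∈ UU ℓ k, if ∀ a ∈ U, hc π u w α z a = 0 then 1 else 0) =
        ∑ U ∈ UU ℓ k, ∑ w : Fin k → L0, ∑ α : L0, ∑ z : Fin k → LL,
          (if ∀ a ∈ U, hc π u w α z a = 0 then
            ee ℓ (- ψ (α : V) d1 + ∑ i, ψ (z i : V) (w i : V)) else 0) := by
      conv_rhs => rw [sum_comm]
      refine sum_congr rfl fun w _ => ?_
      conv_rhs => rw [sum_comm]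
      refine sum_congr rfl fun α _ => ?_
      conv_rhs => rw [sum_comm]
      refine sum_congr rfl fun z _ => ?_
      rw [mul_sum]
      refine sum_congr rfl fun U _ => ?_
      rw [mul_ite, mul_one, mul_zero]
    rw [h4]
    have h5 : ∀ U ∈ UU ℓ k, ∑ w : Fin k → L0, ∑ α : L0, ∑ z : Fin k → LL,
          (if ∀ a ∈ U, hc π u w α z a = 0 then
            ee ℓ (- ψ (α : V) d1 + ∑ i, ψ (z i : V) (w i : V)) else 0) =
          (Nat.card L0 : ℂ) ^ k := by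
      intro U hU
      rw [mem_UU] at hU
      have h6 := hMAINU ℓ hℓ2 V ψ L0 L1 LL π u d1 hM.lin k U hU.1 hU.2
      convert h6
    rw [sum_congr rfl h5, sum_const, card_UU hCNTU hℓ2, nsmul_eq_mul]
    have h7 : (Nat.card L0 : ℂ) ≠ 0 := by
      have : 0 < Nat.card L0 := Nat.card_pos
      exact_mod_cast this.ne'
    push_cast
    field_simp
    ring
  rw [h3] at h2
  have h8 := h2.congr' h1
  have h9 := (Complex.continuous_re.tendsto _).comp h8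
  exact h9

end Pool.Agent.T3h73.SD.MOM
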