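import Pool.Agent.T3h73.SD.Full6
import Pool.Agent.T3h73.SD.Mdl4
import Pool.Agent.T3h73.SD.TypQ
import Pool.Agent.T3h73.SD.All

/-! Project SD: all the powers at the same time -/

set_option autoImplicit false
set_option linter.all false

open NumberField IsDedekindDomain Filter Topology

namespace Pool.Agent.T3h73.SD.Uni

open Pool.Agent.T3h73.SL (Pl IsP Pk loc Good2 val_loc)
open Pool.Agent.T3h73.SD.Def

variable {ℓ : ℕ} {K : Type} [Field K] [NumberField K]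

/-- a lower bound for the limiting proportion -/
theorem kap_ge (hℓ : 2 ≤ ℓ) : 1 - (ℓ : ℝ) / ((ℓ : ℝ) ^ 2 - 1) ≤ kap ℓ := by
  have hl : (2 : ℝ) ≤ ℓ := by exact_mod_cast hℓ
  have hl0 : (0 : ℝ) < ℓ := by linarith
  obtain ⟨q, hq⟩ : ∃ q : ℝ, q = (ℓ : ℝ)⁻¹ := ⟨_, rfl⟩
  have h0 : 0 < q := by rw [hq]; exact inv_pos.2 hl0
  have h1 : q ≤ 1 / 2 := by
    rw [hq, one_div]
    exact inv_anti₀ (by norm_num) hl
  have hk : kap ℓ = ∏' i : ℕ, (1 + q ^ (i + 1))⁻¹ := by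
    unfold kap
    simp_rw [hq, inv_pow]
  have hlim := KAP.hasProd h0.le h1
  rw [← hk] at hlim
  have hlim' := hlim.comp (tendsto_add_atTop_nat 1)
  refine ge_of_tendsto' hlim' fun n => ?_
  have h2 : (1 + q)⁻¹ * (1 - ∑ i ∈ Finset.range n, q ^ (i + 2)) ≤
      ∏ i ∈ Finset.range (n + 1), (1 + q ^ (i + 1))⁻¹ := by
    have h20 : ∏ i ∈ Finset.range (n + 1), (1 + q ^ (i + 1))⁻¹ =
        (1 + q)⁻¹ * ∏ i ∈ Finset.range n, (1 + q ^ (i + 2))⁻¹ := by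
      rw [Finset.prod_range_succ', mul_comm]
      simp
    rw [h20]
    refine mul_le_mul_of_nonneg_left ?_ (inv_nonneg.2 (by linarith))
    induction n with
    | zero => simp
    | succ n ih =>
      rw [Finset.sum_range_succ, Finset.prod_range_succ]
      have h3 : 0 < q ^ (n + 2) := pow_pos h0 _
      have h4 : (1 : ℝ) - q ^ (n + 2) ≤ (1 + q ^ (n + 2))⁻¹ := by
        have h6 : (1 + q ^ (n + 2))⁻¹ - (1 - q ^ (n + 2)) = (q ^ (n + 2)) ^ 2 / (1 + q ^ (n + 2)) := by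
          field_simp
          ring
        have h7 : 0 ≤ (q ^ (n + 2)) ^ 2 / (1 + q ^ (n + 2)) := by positivity
        linarith
      have h5 : ∏ i ∈ Finset.range n, (1 + q ^ (i + 2))⁻¹ ≤ 1 := by
        apply Finset.prod_le_one (fun i _ => by positivity)
        intro i _
        apply inv_le_one_of_one_le₀
        have : 0 < q ^ (i + 2) := pow_pos h0 _
        linarith
      have h6 : 0 < ∏ i ∈ Finset.range n, (1 + q ^ (i + 2))⁻¹ :=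
        Finset.prod_pos fun i _ => by positivity
      have h8 := ih (by
        rw [Finset.prod_range_succ', mul_comm]
        simp)
      nlinarith
  refine le_trans ?_ h2
  have h3 : ∑ i ∈ Finset.range n, q ^ (i + 2) ≤ q * (q / (1 - q)) := by
    have h30 := KAP.geo_le h0.le h1 n
    have h31 : ∑ i ∈ Finset.range n, q ^ (i + 2) = q * ∑ i ∈ Finset.range n, q ^ (i + 1) := by
      rw [Finset.mul_sum]
      exact Finset.sum_congr rfl fun i _ => by ring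
    rw [h31]
    exact mul_le_mul_of_nonneg_left h30 h0.le
  have h4 : 1 - (ℓ : ℝ) / ((ℓ : ℝ) ^ 2 - 1) = (1 + q)⁻¹ * (1 - q * (q / (1 - q))) := by
    have h5 : (ℓ : ℝ) ^ 2 - 1 ≠ 0 := by nlinarith
    have h6 : (1 : ℝ) - q ≠ 0 := by linarith
    have h7 : (1 : ℝ) + q ≠ 0 := by linarith
    have h8 : (ℓ : ℝ) = q⁻¹ := by rw [hq, inv_inv]
    have h9 : (ℓ : ℝ) / ((ℓ : ℝ) ^ 2 - 1) = q / (1 - q ^ 2) := by
      rw [h8]
      have h10 : (1 : ℝ) - q ^ 2 ≠ 0 := by nlinarith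
      have h11 : (q⁻¹) ^ 2 - 1 = (1 - q ^ 2) / q ^ 2 := by
        field_simp
      rw [h11]
      field_simp
    rw [h9]
    have h10 : (1 : ℝ) - q ^ 2 ≠ 0 := by nlinarith
    field_simp
    ring
  rw [h4]
  exact mul_le_mul_of_nonneg_left (by linarith) (inv_nonneg.2 (by linarith))

open Classical in
/-- the union bound -/
theorem union_bound {S₀ : Finset (Pl K)} {η : Kˣ} {A : Finset ℕ} (hA : A.Nonempty)
    (Q : ℕ → Kˣ → Prop) (s : ℝ)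
    (hsum : Summable (fun c : Kˣ ⧸ (powMonoidHom ℓ : Kˣ →* Kˣ).range => ht ℓ (Quotient.out c) ^ (-s))) :
    (∑ a ∈ A, csum ℓ (fun δ => Near ℓ S₀ η δ ∧ Q a δ) s) - ((A.card : ℝ) - 1) * csum ℓ (Near ℓ S₀ η) s ≤
      csum ℓ (fun δ => Near ℓ S₀ η δ ∧ ∀ a ∈ A, Q a δ) s := by
  have h0 : ∀ c : Kˣ ⧸ (powMonoidHom ℓ : Kˣ →* Kˣ).range, 0 ≤ ht ℓ (Quotient.out c) ^ (-s) := fun c =>
    Real.rpow_nonneg (finprod_nonneg fun v => by positivity) _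
  have hs : ∀ R : Kˣ → Prop, Summable (fun c : Kˣ ⧸ (powMonoidHom ℓ : Kˣ →* Kˣ).range =>
      if ∀ δ : Kˣ, (δ : Kˣ ⧸ (powMonoidHom ℓ : Kˣ →* Kˣ).range) = c → R δ then
        ht ℓ (Quotient.out c) ^ (-s) else 0) := fun R =>
    Summable.of_nonneg_of_le (fun c => by split_ifs; exacts [h0 c, le_rfl])
      (fun c => by split_ifs; exacts [le_rfl, h0 c]) hsum
  unfold csum
  rw [← Summable.tsum_finsetSum (fun a _ => hs _), ← tsum_mul_left,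
    ← Summable.tsum_sub (summable_sum fun a _ => hs _) ((hs _).mul_left _)]
  refine Summable.tsum_le_tsum (fun c => ?_)
    ((summable_sum fun a _ => hs _).sub ((hs _).mul_left _)) (hs _)
  by_cases hN : ∀ δ : Kˣ, (δ : Kˣ ⧸ (powMonoidHom ℓ : Kˣ →* Kˣ).range) = c → Near ℓ S₀ η δ
  · rw [if_pos hN]
    by_cases hG : ∀ a ∈ A, ∀ δ : Kˣ, (δ : Kˣ ⧸ (powMonoidHom ℓ : Kˣ →* Kˣ).range) = c → Q a δ
    · rw [Finset.sum_congr rfl (fun a ha => if_pos (fun δ hδ => ⟨hN δ hδ, hG a ha δ hδ⟩)),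
        if_pos (fun δ hδ => ⟨hN δ hδ, fun a ha => hG a ha δ hδ⟩), Finset.sum_const, nsmul_eq_mul]
      linarith
    · push Not at hG
      obtain ⟨b, hb, δ, hδ, hbQ⟩ := hG
      rw [if_neg (show ¬ ∀ δ : Kˣ, (δ : Kˣ ⧸ (powMonoidHom ℓ : Kˣ →* Kˣ).range) = c →
        Near ℓ S₀ η δ ∧ ∀ a ∈ A, Q a δ from fun h => hbQ ((h δ hδ).2 b hb))]
      rw [← Finset.add_sum_erase _ _ hb, if_neg (fun h => hbQ (h δ hδ).2), zero_add]
      have h1 : (∑ a ∈ A.erase b, if ∀ δ : Kˣ, (δ : Kˣ ⧸ (powMonoidHom ℓ : Kˣ →* Kˣ).range) = c →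
          Near ℓ S₀ η δ ∧ Q a δ then ht ℓ (Quotient.out c) ^ (-s) else 0) ≤
          ∑ a ∈ A.erase b, ht ℓ (Quotient.out c) ^ (-s) :=
        Finset.sum_le_sum fun a _ => by split_ifs; exacts [le_rfl, h0 c]
      rw [Finset.sum_const, nsmul_eq_mul, Finset.card_erase_of_mem hb,
        Nat.cast_sub (Finset.card_pos.2 hA), Nat.cast_one] at h1
      linarith
  · rw [if_neg hN, mul_zero, sub_zero, Finset.sum_eq_zero]
    · split_ifs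
      · exact h0 c
      · exact le_rfl
    · intro a _
      rw [if_neg (fun h => hN fun δ hδ => (h δ hδ).1)]

/-- the final theorem -/
theorem main (hℓ : ℓ.Prime) (h2 : ℓ ≠ 2) {ζ : K} (hζ : IsPrimitiveRoot ζ ℓ) (S₀ : Finset (Pl K)) (η : Kˣ)
    (A : Finset ℕ) (hA : A.Nonempty) (hA' : ∀ a ∈ A, 1 ≤ a ∧ a < ℓ) :
    (∀ s : ℝ, 1 < s → Summable (fun c : Kˣ ⧸ (powMonoidHom ℓ : Kˣ →* Kˣ).range =>
      ht ℓ (Quotient.out c) ^ (-s))) ∧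
    Tendsto (fun s : ℝ => csum ℓ (Near ℓ S₀ η) s) (𝓝[>] 1) atTop ∧
    ∀ ε : ℝ, 0 < ε → ∀ᶠ s : ℝ in 𝓝[>] 1,
      (1 - A.card * (1 - kap ℓ) - ε) * csum ℓ (Near ℓ S₀ η) s ≤
        csum ℓ (fun δ => Near ℓ S₀ η δ ∧ ∀ a ∈ A, Good2 ℓ K ((δ : K) ^ a)) s := by
  haveI : Fact ℓ.Prime := ⟨hℓ⟩
  have hF : ∀ a ∈ A, (∀ s : ℝ, 1 < s → Summable (fun c : Kˣ ⧸ (powMonoidHom ℓ : Kˣ →* Kˣ).range =>
      ht ℓ (Quotient.out c) ^ (-s))) ∧
    Tendsto (fun s : ℝ => csum ℓ (Near ℓ S₀ η) s) (𝓝[>] 1) atTop ∧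
    ∀ ε : ℝ, 0 < ε → ∀ᶠ s : ℝ in 𝓝[>] 1,
      (kap ℓ - ε) * csum ℓ (Near ℓ S₀ η) s ≤
        csum ℓ (fun δ => Near ℓ S₀ η δ ∧ Good2 ℓ K ((δ : K) ^ a)) s := fun a ha =>
    Full.fullQ MASS.t_MASS T0L.t_T0L KAP.t_KAP hℓ
      (TYPq.typQ all_DIST all_MOM T0L.t_T0L hℓ h2
        (MDL.mdl_pow all_SV all_CHS VSP.t_VSP all_LZ LAG.t_LAG h2 hζ (hA' a ha).1 (hA' a ha).2)) S₀ η
  obtain ⟨a₀, ha₀⟩ := hA
  have hA1 : A.Nonempty := ⟨a₀, ha₀⟩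
  refine ⟨(hF a₀ ha₀).1, (hF a₀ ha₀).2.1, fun ε hε => ?_⟩
  have hc : (0 : ℝ) < A.card := Nat.cast_pos.2 (Finset.card_pos.2 hA1)
  have h1 : ∀ᶠ s : ℝ in 𝓝[>] 1, ∀ a ∈ A, (kap ℓ - ε / A.card) * csum ℓ (Near ℓ S₀ η) s ≤
        csum ℓ (fun δ => Near ℓ S₀ η δ ∧ Good2 ℓ K ((δ : K) ^ a)) s :=
    (Filter.eventually_all_finset A).2 fun a ha => (hF a ha).2.2 (ε / A.card) (by positivity)
  have h3 : ∀ᶠ s : ℝ in 𝓝[>] (1 : ℝ), s ∈ Set.Ioi (1 : ℝ) := self_mem_nhdsWithin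
  filter_upwards [h1, h3] with s h1 h3
  have h4 := union_bound (K := K) (ℓ := ℓ) (S₀ := S₀) (η := η) hA1
    (fun a δ => Good2 ℓ K ((δ : K) ^ a)) s ((hF a₀ ha₀).1 s h3)
  refine le_trans ?_ h4
  have h5 := Finset.sum_le_sum h1
  rw [Finset.sum_const, nsmul_eq_mul] at h5
  have h6 : (A.card : ℝ) * ((kap ℓ - ε / A.card) * csum ℓ (Near ℓ S₀ η) s) =
      (A.card * kap ℓ - ε) * csum ℓ (Near ℓ S₀ η) s := by
    field_simp
  rw [h6] at h5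
  nlinarith

end Pool.Agent.T3h73.SD.Uni
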